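import Pool.Agent.U709.HiA

/-!
# Virtually residually torsion-free groups; virtually polycyclic groups
-/

set_option autoImplicit false

namespace Pool.Agent.U709.Hi

open Pool.Agent.Y110.FJ (ClosedE)

variable {C : ∀ (G : Type) [Group G], Prop}

theorem joint (hC : ClosedE C) {N P I : Type} [Group N] [Group P] (hP : C P) (f : I → N →* P)
    (S : Finset I) : ∃ (R : Type) (_ : Group R) (h : N →* R), C R ∧
      ∀ x, h x = 1 ↔ ∀ i ∈ S, f i x = 1 := by
  classical
  induction S using Finset.induction_on with
  | empty => exact ⟨Multiplicative ℤ, inferInstance, 1, hC.base.int, fun x => by simp⟩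
  | insert i S _ ih =>
    obtain ⟨R, _, h, hR, hh⟩ := ih
    refine ⟨P × R, inferInstance, (f i).prod h, hC.base.prod _ _ hP hR, fun x => ?_⟩
    rw [MonoidHom.prod_apply, Prod.mk_eq_one, hh]
    simp

theorem virt_visible (hC : ClosedE C) {G : Type} [Group G] (G0 : Subgroup G) [G0.FiniteIndex]
    (h0 : TFResidual C G0) : InfVisible C G ∧ PerVisible C G := by
  classical
  obtain ⟨N, hN⟩ : ∃ N : Subgroup G, N = G0.normalCore := ⟨_, rfl⟩
  have hNn : N.Normal := by rw [hN]; infer_instance
  have hNf : N.FiniteIndex := by rw [hN]; infer_instance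
  have hle : N ≤ G0 := by rw [hN]; exact G0.normalCore_le
  have hfin : Finite (G ⧸ N) := inferInstance
  refine ⟨fun x hx => ?_, fun K hK => ?_⟩
  · have hxm : x ^ N.index ∈ N := N.pow_index_mem x
    have hne : (⟨x ^ N.index, hle hxm⟩ : G0) ≠ 1 := by
      intro h
      apply hx
      rw [isOfFinOrder_iff_pow_eq_one]
      exact ⟨N.index, Nat.pos_of_ne_zero hNf.index_ne_zero, congrArg Subtype.val h⟩
    obtain ⟨P, _, f, hP, htf, hf⟩ := h0 _ hne
    let f' : N →* P := f.comp (Subgroup.inclusion hle)
    let K : Subgroup G :=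
      { carrier := {n | ∃ h : n ∈ N, ∀ g : G, f' ⟨g * n * g⁻¹, hNn.conj_mem n h g⟩ = 1}
        one_mem' := ⟨one_mem N, fun g => by
          have h1 : (⟨g * 1 * g⁻¹, hNn.conj_mem 1 (one_mem N) g⟩ : N) = 1 := by
            apply Subtype.ext
            simp
          rw [h1, map_one]⟩
        mul_mem' := by
          rintro a b ⟨ha, ha'⟩ ⟨hb, hb'⟩
          refine ⟨mul_mem ha hb, fun g => ?_⟩
          have h1 : (⟨g * (a * b) * g⁻¹, hNn.conj_mem _ (mul_mem ha hb) g⟩ : N) =
              ⟨g * a * g⁻¹, hNn.conj_mem a ha g⟩ * ⟨g * b * g⁻¹, hNn.conj_mem b hb g⟩ := by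
            apply Subtype.ext
            change g * (a * b) * g⁻¹ = g * a * g⁻¹ * (g * b * g⁻¹)
            group
          rw [h1, map_mul, ha', hb', mul_one]
        inv_mem' := by
          rintro a ⟨ha, ha'⟩
          refine ⟨inv_mem ha, fun g => ?_⟩
          have h1 : (⟨g * a⁻¹ * g⁻¹, hNn.conj_mem _ (inv_mem ha) g⟩ : N) =
              (⟨g * a * g⁻¹, hNn.conj_mem a ha g⟩)⁻¹ := by
            apply Subtype.ext
            change g * a⁻¹ * g⁻¹ = (g * a * g⁻¹)⁻¹
            group
          rw [h1, map_inv, ha', inv_one] }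
    have hKN : K ≤ N := fun n hn => hn.1
    have hKn : K.Normal := by
      refine ⟨fun n hn c => ?_⟩
      obtain ⟨hn1, hn2⟩ := hn
      refine ⟨hNn.conj_mem n hn1 c, fun g => ?_⟩
      have h1 : (⟨g * (c * n * c⁻¹) * g⁻¹, hNn.conj_mem _ (hNn.conj_mem n hn1 c) g⟩ : N) =
          ⟨(g * c) * n * (g * c)⁻¹, hNn.conj_mem n hn1 (g * c)⟩ := by
        apply Subtype.ext
        change g * (c * n * c⁻¹) * g⁻¹ = (g * c) * n * (g * c)⁻¹
        group
      rw [h1, hn2]
    let _ : Fintype (G ⧸ N) := Fintype.ofFinite _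
    let ff : (G ⧸ N) → N →* P := fun q =>
      { toFun := fun n => f' ⟨q.out * n * (q.out)⁻¹, hNn.conj_mem n n.2 q.out⟩
        map_one' := by
          have h1 : (⟨q.out * ((1 : N) : G) * (q.out)⁻¹, hNn.conj_mem _ (1 : N).2 q.out⟩ : N) = 1 := by
            apply Subtype.ext
            simp
          rw [h1, map_one]
        map_mul' := fun a b => by
          rw [← map_mul]
          congr 1
          apply Subtype.ext
          change q.out * (a * b) * (q.out)⁻¹ = q.out * a * (q.out)⁻¹ * (q.out * b * (q.out)⁻¹)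
          group }
    have hff : ∀ n : N, (∀ q, ff q n = 1) ↔ (n : G) ∈ K := by
      intro n
      constructor
      · intro h
        refine ⟨n.2, fun g => ?_⟩
        obtain ⟨q, hq⟩ : ∃ q : G ⧸ N, q = (g : G ⧸ N) := ⟨_, rfl⟩
        have h1 : g * (q.out)⁻¹ ∈ N := by
          have h2 : ((q.out : G) : G ⧸ N) = (g : G ⧸ N) := by rw [QuotientGroup.out_eq', hq]
          rw [← QuotientGroup.eq_one_iff, QuotientGroup.mk_mul, QuotientGroup.mk_inv, h2,
            mul_inv_cancel]
        have h3 : (⟨g * n * g⁻¹, hNn.conj_mem n n.2 g⟩ : N) =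
            ⟨g * (q.out)⁻¹, h1⟩ * ⟨q.out * n * (q.out)⁻¹, hNn.conj_mem n n.2 q.out⟩ *
              (⟨g * (q.out)⁻¹, h1⟩)⁻¹ := by
          apply Subtype.ext
          change g * n * g⁻¹ = g * (q.out)⁻¹ * (q.out * n * (q.out)⁻¹) * (g * (q.out)⁻¹)⁻¹
          group
        have h4 : f' ⟨q.out * n * (q.out)⁻¹, hNn.conj_mem n n.2 q.out⟩ = 1 := h q
        rw [h3, map_mul, map_mul, h4, mul_one, map_inv, mul_inv_cancel]
      · rintro ⟨_, h⟩ q
        exact h q.out
    obtain ⟨R, _, h, hR, hh⟩ := joint hC hP ff Finset.univ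
    have hCN : C ↥(N.map (QuotientGroup.mk' K)) := by
      let ψ : N →* N.map (QuotientGroup.mk' K) :=
        ((QuotientGroup.mk' K).comp N.subtype).codRestrict _ fun n => ⟨n, n.2, rfl⟩
      have hψ : Function.Surjective ψ := by
        rintro ⟨_, n, hn, rfl⟩
        exact ⟨⟨n, hn⟩, rfl⟩
      have hker : ψ.ker = h.ker := by
        ext n
        rw [MonoidHom.mem_ker, MonoidHom.mem_ker, hh]
        have h1 : ψ n = 1 ↔ (n : G) ∈ K := by
          rw [← QuotientGroup.eq_one_iff (N := K) (n : G)]
          exact Subtype.ext_iff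
        rw [h1, ← hff]
        simp
      refine hC.base.of_injective _ _ ((QuotientGroup.kerLift h).comp
        ((QuotientGroup.quotientMulEquivOfEq hker).toMonoidHom.comp
          (QuotientGroup.quotientKerEquivOfSurjective ψ hψ).symm.toMonoidHom)) ?_ hR
      exact (QuotientGroup.kerLift_injective h).comp
        ((QuotientGroup.quotientMulEquivOfEq hker).injective.comp
          (QuotientGroup.quotientKerEquivOfSurjective ψ hψ).symm.injective)
    have hidx : (N.map (QuotientGroup.mk' K)).FiniteIndex := by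
      refine ⟨?_⟩
      have h1 := Subgroup.index_map_dvd N (QuotientGroup.mk'_surjective K)
      intro h2
      rw [h2, zero_dvd_iff] at h1
      exact hNf.index_ne_zero h1
    refine ⟨G ⧸ K, inferInstance, QuotientGroup.mk' K, hC.base.finiteIndex _ _ hidx hCN, ?_⟩
    rw [isOfFinOrder_iff_pow_eq_one]
    rintro ⟨l, hl, h1⟩
    rw [← map_pow] at h1
    have h2 : x ^ l ∈ K := (QuotientGroup.eq_one_iff _).1 h1
    have h3 : (x ^ N.index) ^ l ∈ K := by
      rw [← pow_mul, mul_comm, pow_mul]
      exact pow_mem h2 _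
    obtain ⟨h4, h5⟩ := h3
    have h6 := h5 1
    have h7 : (⟨1 * (x ^ N.index) ^ l * 1⁻¹, hNn.conj_mem _ h4 1⟩ : N) = ⟨x ^ N.index, hxm⟩ ^ l := by
      apply Subtype.ext
      simp
    rw [h7, map_pow] at h6
    exact hf (htf _ (isOfFinOrder_iff_pow_eq_one.2 ⟨l, hl, h6⟩))
  · refine ⟨G ⧸ N, inferInstance, QuotientGroup.mk' N, Pool.Agent.Y430.SS.of_finite hC.base _ hfin,
      fun x hx h1 => ?_⟩
    have h2 : x ∈ N := (QuotientGroup.eq_one_iff _).1 h1
    by_contra hx1
    obtain ⟨P, _, f, hP, htf, hf⟩ := h0 ⟨x, hle h2⟩ (fun h => hx1 (congrArg Subtype.val h))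
    apply hf
    apply htf
    exact MonoidHom.isOfFinOrder f ((ofinj G0.subtype G0.subtype_injective _).1 (hK x hx))

/-! ## Virtually polycyclic groups -/

theorem fh_comm : ∀ (n : ℕ) (A : Type) [Group A], (∀ x y : A, x * y = y * x) →
    ∀ S : Finset A, S.card ≤ n → Subgroup.closure (S : Set A) = ⊤ → FinHirsch A := by
  classical
  intro n
  induction n with
  | zero =>
    intro A _ hA S hS hc
    refine .periodic fun x => ?_
    have hS0 : S = ∅ := Finset.card_eq_zero.1 (by omega)
    rw [hS0, Finset.coe_empty, Subgroup.closure_empty] at hc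
    have hx : x ∈ (⊥ : Subgroup A) := by
      rw [hc]
      exact Subgroup.mem_top x
    rw [Subgroup.mem_bot.1 hx]
    exact IsOfFinOrder.one
  | succ n ih =>
    intro A _ hA S hS hc
    rcases S.eq_empty_or_nonempty with rfl | ⟨a, ha⟩
    · exact ih A hA ∅ (by simp) hc
    have hnorm : (Subgroup.zpowers a).Normal :=
      ⟨fun n hn g => by rw [hA g n, mul_inv_cancel_right]; exact hn⟩
    have hcomm : ∀ x y : A ⧸ Subgroup.zpowers a, x * y = y * x := by
      intro x y
      induction x using QuotientGroup.induction_on with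
      | H x =>
        induction y using QuotientGroup.induction_on with
        | H y => rw [← QuotientGroup.mk_mul, ← QuotientGroup.mk_mul, hA]
    have h2 : FinHirsch (A ⧸ Subgroup.zpowers a) := ih (A ⧸ Subgroup.zpowers a) hcomm
      ((S.erase a).image (QuotientGroup.mk' (Subgroup.zpowers a)))
      (by
        refine Finset.card_image_le.trans ?_
        rw [Finset.card_erase_of_mem ha]
        omega)
      (by
        rw [eq_top_iff]
        have h1 : Subgroup.map (QuotientGroup.mk' (Subgroup.zpowers a)) ⊤ = ⊤ :=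
          Subgroup.map_top_of_surjective _ (QuotientGroup.mk'_surjective _)
        rw [← h1, ← hc, MonoidHom.map_closure, Subgroup.closure_le]
        rintro _ ⟨s, hs, rfl⟩
        by_cases hsa : s = a
        · subst hsa
          have h2 : QuotientGroup.mk' (Subgroup.zpowers s) s = 1 :=
            (QuotientGroup.eq_one_iff s).2 (Subgroup.mem_zpowers s)
          rw [h2]
          exact one_mem _
        · apply Subgroup.subset_closure
          rw [Finset.coe_image]
          exact ⟨s, Finset.mem_coe.2 (Finset.mem_erase.2 ⟨hsa, hs⟩), rfl⟩)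
    refine .ext (Subgroup.zpowers a) (.rankOne ?_) h2
    rintro ⟨x, hx⟩ ⟨y, hy⟩ hx' hy'
    obtain ⟨i, rfl⟩ := Subgroup.mem_zpowers_iff.1 hx
    obtain ⟨j, rfl⟩ := Subgroup.mem_zpowers_iff.1 hy
    have hj : j ≠ 0 := by
      rintro rfl
      apply hy'
      have : (⟨a ^ (0 : ℤ), hy⟩ : Subgroup.zpowers a) = 1 := Subtype.ext (zpow_zero a)
      rw [this]
      exact IsOfFinOrder.one
    refine ⟨j.natAbs, i * j.sign, Int.natAbs_pos.2 hj, Subtype.ext ?_⟩
    rw [Subgroup.coe_pow, Subgroup.coe_zpow]
    change (a ^ i) ^ j.natAbs = (a ^ j) ^ (i * j.sign)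
    rw [← zpow_natCast, ← zpow_mul, ← zpow_mul]
    congr 1
    rw [Int.natCast_natAbs, ← Int.sign_mul_self_eq_abs]
    ring

theorem fg_sub {P : Type} [Group P] (hP : ∀ K : Subgroup P, K.FG) (N : Subgroup P) :
    ∀ K : Subgroup N, K.FG := by
  intro H
  have h1 := hP (H.map N.subtype)
  rw [← Group.fg_iff_subgroup_fg] at h1 ⊢
  have e := H.equivMapOfInjective N.subtype N.subtype_injective
  have hs : Function.Surjective e.symm.toMonoidHom := e.symm.surjective
  exact Group.fg_of_surjective hs

theorem der_map (P : Type) [Group P] (n : ℕ) :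
    (derivedSeries (commutator P) n).map (commutator P).subtype = derivedSeries P (n + 1) := by
  induction n with
  | zero =>
    rw [derivedSeries_zero, derivedSeries_one, ← MonoidHom.range_eq_map, Subgroup.range_subtype]
  | succ n ih =>
    rw [derivedSeries_succ, Subgroup.map_commutator, ih, ← derivedSeries_succ]

theorem fh_der : ∀ (n : ℕ) (P : Type) [Group P], derivedSeries P n = ⊥ → (∀ K : Subgroup P, K.FG) →
    FinHirsch P := by
  classical
  intro n
  induction n with
  | zero =>
    intro P _ hd hP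
    refine .periodic fun x => ?_
    rw [derivedSeries_zero] at hd
    have hx : x ∈ (⊥ : Subgroup P) := by
      rw [← hd]
      exact Subgroup.mem_top x
    rw [Subgroup.mem_bot.1 hx]
    exact IsOfFinOrder.one
  | succ n ih =>
    intro P _ hd hP
    have hd' : derivedSeries (commutator P) n = ⊥ := by
      have h1 := der_map P n
      rw [hd] at h1
      exact (Subgroup.map_eq_bot_iff_of_injective _ (commutator P).subtype_injective).1 h1
    have hcomm : ∀ x y : P ⧸ commutator P, x * y = y * x := fun x y =>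
      mul_comm (G := Abelianization P) x y
    obtain ⟨S, hS⟩ := hP ⊤
    refine .ext (commutator P) (ih (commutator P) hd' (fg_sub hP _)) ?_
    refine fh_comm (S.image (QuotientGroup.mk' (commutator P))).card
      (P ⧸ commutator P) hcomm (S.image (QuotientGroup.mk' (commutator P))) le_rfl ?_
    rw [Finset.coe_image, ← MonoidHom.map_closure, hS]
    exact Subgroup.map_top_of_surjective _ (QuotientGroup.mk'_surjective _)

theorem per_fin : ∀ (n : ℕ) (P : Type) [Group P], derivedSeries P n = ⊥ → (∀ K : Subgroup P, K.FG) →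
    (∀ x : P, IsOfFinOrder x) → Finite P := by
  classical
  intro n
  induction n with
  | zero =>
    intro P _ hd hP hx
    rw [derivedSeries_zero] at hd
    have : Subsingleton P := by
      refine ⟨fun a b => ?_⟩
      have ha : a ∈ (⊥ : Subgroup P) := by rw [← hd]; exact Subgroup.mem_top a
      have hb : b ∈ (⊥ : Subgroup P) := by rw [← hd]; exact Subgroup.mem_top b
      rw [Subgroup.mem_bot.1 ha, Subgroup.mem_bot.1 hb]
    infer_instance
  | succ n ih =>
    intro P _ hd hP hx
    have hd' : derivedSeries (commutator P) n = ⊥ := by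
      have h1 := der_map P n
      rw [hd] at h1
      exact (Subgroup.map_eq_bot_iff_of_injective _ (commutator P).subtype_injective).1 h1
    have h1 : Finite (commutator P) := ih (commutator P) hd' (fg_sub hP _)
      (fun x => (ofinj (commutator P).subtype (commutator P).subtype_injective x).1 (hx x))
    have hfg : Group.FG P := ⟨hP ⊤⟩
    have hfg' : Group.FG (Abelianization P) :=
      Group.fg_of_surjective (f := Abelianization.of) (QuotientGroup.mk'_surjective _)
    have h2 : Finite (Abelianization P) := by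
      refine CommGroup.finite_of_fg_isMulTorsion _ ?_
      intro q
      obtain ⟨x, rfl⟩ := QuotientGroup.mk'_surjective (commutator P) q
      exact MonoidHom.isOfFinOrder (QuotientGroup.mk' (commutator P)) (hx x)
    have h3 : Finite (P ⧸ commutator P) := h2
    exact Finite.of_subgroup_quotient (commutator P)

/-- virtually polycyclic groups -/
theorem virtPoly {E : Type} [Group E] (hE : VirtPolycyclic E) : FinHirschPF E := by
  obtain ⟨⟨S, hS, hsol⟩, hfg⟩ := hE
  have hNf : S.normalCore.FiniteIndex := inferInstance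
  have hsolN : Group.IsSolvable S.normalCore :=
    Group.isSolvable_of_isSolvable_injective (Subgroup.inclusion_injective S.normalCore_le)
  obtain ⟨n, hn⟩ := hsolN
  have hfin : Finite (E ⧸ S.normalCore) := inferInstance
  refine ⟨.ext S.normalCore (fh_der n _ hn (fg_sub hfg _)) (.periodic fun x => isOfFinOrder_of_finite x),
    fun K hK => ?_⟩
  obtain ⟨n', hn'⟩ : Group.IsSolvable (S.normalCore.subgroupOf K) := by
    have h1 : Group.IsSolvable S.normalCore := ⟨n, hn⟩
    let j : S.normalCore.subgroupOf K →* S.normalCore :=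
      (K.subtype.comp (S.normalCore.subgroupOf K).subtype).codRestrict _ fun x => x.2
    refine Group.isSolvable_of_isSolvable_injective (f := j) ?_
    intro a b hab
    have h2 : ((j a : S.normalCore) : E) = ((j b : S.normalCore) : E) := by rw [hab]
    exact Subtype.ext (Subtype.ext h2)
  have h1 : Finite (S.normalCore.subgroupOf K) := by
    refine per_fin n' _ hn' (fg_sub (fg_sub hfg K) _) fun x => ?_
    have h2 := hK x.1 x.1.2
    exact (ofinj (S.normalCore.subgroupOf K).subtype (Subgroup.subtype_injective _) x).1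
      ((ofinj K.subtype (Subgroup.subtype_injective _) x.1).1 h2)
  have h2 : (S.normalCore.subgroupOf K).FiniteIndex := inferInstance
  have h3 : Finite (K ⧸ S.normalCore.subgroupOf K) := inferInstance
  exact Finite.of_subgroup_quotient (S.normalCore.subgroupOf K)

end Pool.Agent.U709.Hi
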