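import Pool.Agent.U709.Poly

/-!
# Fields, and finitely generated domains with one place at infinity
-/

set_option autoImplicit false

namespace Pool.Agent.U709

open Matrix
open Pool.Agent.Y110.FJ (ClosedE)

variable {C : ∀ (G : Type) [Group G], Prop}

theorem map_inj {A B : Type} [CommRing A] [CommRing B] (f : A →+* B) (hf : Function.Injective f) :
    Function.Injective (GeneralLinearGroup.map (n := Fin 2) f) := by
  intro a b hab
  apply GeneralLinearGroup.ext
  intro i j
  apply hf
  have : (GeneralLinearGroup.map f a).1 i j = (GeneralLinearGroup.map f b).1 i j := by rw [hab]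
  exact this

/-- the unit group of a finite-dimensional algebra -/
theorem fin_alg (hC : ClosedE C) {k : Type} [Field k] (hk : ∀ n : ℕ, C (GL (Fin n) k))
    (A : Type) [Ring A] [Algebra k A] [Module.Finite k A] : C Aˣ := by
  let b := Module.finBasis k A
  refine hC.base.of_injective _ _ (Units.map (Algebra.leftMulMatrix b).toMonoidHom) ?_
    (hk (Module.finrank k A))
  intro x y hxy
  apply Units.ext
  exact Algebra.leftMulMatrix_injective b (congrArg Units.val hxy)

theorem fin_ext (hC : ClosedE C) {k : Type} [Field k] (hk : ∀ n : ℕ, C (GL (Fin n) k))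
    (E : Type) [Field E] [Algebra k E] [Module.Finite k E] : C (GL (Fin 2) E) := by
  have : Module.Finite k (Matrix (Fin 2) (Fin 2) E) := Module.Finite.trans E _
  exact fin_alg hC hk (Matrix (Fin 2) (Fin 2) E)

/-- algebraic extensions -/
theorem alg_ext (hC : ClosedE C) {k : Type} [Field k] (hk : ∀ n : ℕ, C (GL (Fin n) k))
    (K : Type) [Field K] [Algebra k K] [Algebra.IsAlgebraic k K] : C (GL (Fin 2) K) := by
  classical
  refine Pool.Agent.Y430.SS.of_directed hC.base _ (Finset K)
    (fun i j => ⟨i ∪ j, Finset.subset_union_left, Finset.subset_union_right⟩)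
    (fun s => (GeneralLinearGroup.map (n := Fin 2)
      (algebraMap (IntermediateField.adjoin k (s : Set K)) K)).range) ?_ ?_ ?_
  · intro s t hst
    rintro _ ⟨g, rfl⟩
    have hle : IntermediateField.adjoin k (s : Set K) ≤ IntermediateField.adjoin k (t : Set K) :=
      IntermediateField.adjoin.mono k _ _ (by exact_mod_cast hst)
    refine ⟨GeneralLinearGroup.map (IntermediateField.inclusion hle).toRingHom g, ?_⟩
    apply GeneralLinearGroup.ext
    intro i j
    rfl
  · intro g
    refine ⟨Finset.univ.image (fun p : Fin 2 × Fin 2 => g.1 p.1 p.2), ?_⟩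
    obtain ⟨E, hE⟩ : ∃ E : IntermediateField k K, E = IntermediateField.adjoin k
      ((Finset.univ.image (fun p : Fin 2 × Fin 2 => g.1 p.1 p.2) : Finset K) : Set K) := ⟨_, rfl⟩
    rw [← hE]
    have hmem : ∀ i j, g.1 i j ∈ E := by
      intro i j
      rw [hE]
      apply IntermediateField.subset_adjoin
      rw [Finset.mem_coe, Finset.mem_image]
      exact ⟨(i, j), Finset.mem_univ _, rfl⟩
    let M : Matrix (Fin 2) (Fin 2) E := fun i j => ⟨g.1 i j, hmem i j⟩
    have hM : (algebraMap E K).mapMatrix M = g.1 := by
      ext i j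
      rfl
    have hdet : M.det ≠ 0 := by
      intro h0
      have h1 := congrArg (algebraMap E K) h0
      rw [RingHom.map_det, hM, map_zero] at h1
      exact g.det_ne_zero h1
    refine ⟨GeneralLinearGroup.mkOfDetNeZero M hdet, ?_⟩
    apply GeneralLinearGroup.ext
    intro i j
    rfl
  · intro s
    have hfin : Module.Finite k (IntermediateField.adjoin k (s : Set K)) :=
      IntermediateField.finiteDimensional_adjoin fun x _ => (Algebra.IsAlgebraic.isAlgebraic x).isIntegral
    have h1 := fin_ext hC hk (IntermediateField.adjoin k (s : Set K))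
    have hinj := map_inj (algebraMap (IntermediateField.adjoin k (s : Set K)) K)
      (algebraMap (IntermediateField.adjoin k (s : Set K)) K).injective
    refine hC.base.of_injective _ _ (MonoidHom.ofInjective hinj).symm.toMonoidHom ?_ h1
    exact (MonoidHom.ofInjective hinj).symm.injective

/-- a finite field is allowed as the base field -/
theorem fin_field (hC : ClosedE C) (k : Type) [Field k] [Finite k] (n : ℕ) : C (GL (Fin n) k) :=
  Pool.Agent.Y430.SS.of_finite hC.base _ inferInstance

/-- **finitely generated domains with one place at infinity** -/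
theorem fin_type (hC : ClosedE C) (hS : ∀ (G : Type) [Group G], Group.IsSolvable G → C G)
    {k : Type} [Field k] (hk : ∀ n : ℕ, C (GL (Fin n) k)) {R : Type} [CommRing R] [IsDomain R]
    [Algebra k R] [Algebra.FiniteType k R] {δ : R → ℕ} (hδ : IsDegree δ)
    (hfin : ∀ n : ℕ, ∃ W : Submodule k R, Module.Finite k W ∧ ∀ r, r ≠ 0 → δ r ≤ n → r ∈ W) :
    C (GL (Fin 2) R) := by
  obtain ⟨M, hM⟩ := Ideal.exists_maximal R
  have hft : Algebra.FiniteType k (R ⧸ M) :=
    Algebra.FiniteType.of_surjective (Ideal.Quotient.mkₐ k M) (Ideal.Quotient.mkₐ_surjective k M)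
  let _ : Field (R ⧸ M) := Ideal.Quotient.field M
  have hf : Module.Finite k (R ⧸ M) := finite_of_finite_type_of_isJacobsonRing k (R ⧸ M)
  have h1 : C (GL (Fin 2) (R ⧸ M)) := fin_ext hC hk (R ⧸ M)
  have hN : IsNoetherianRing R := Algebra.FiniteType.isNoetherianRing k R
  have htop : C (⊤ : Subgroup (GL (Fin 2) R)) := by
    refine main_dom hC hS hδ (Ideal.Quotient.mk M) ?_ ⊤ ?_
    · rw [Ideal.mk_ker]
      intro n
      obtain ⟨W, hW, hWn⟩ := hfin n
      have hart : IsArtinian k W := inferInstance
      let f : ℕ →o (Submodule k W)ᵒᵈ :=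
        ⟨fun j => OrderDual.toDual (((M ^ j).restrictScalars k).comap W.subtype), by
          intro i j hij
          change ((M ^ j).restrictScalars k).comap W.subtype ≤
            ((M ^ i).restrictScalars k).comap W.subtype
          intro x hx
          exact Ideal.pow_le_pow_right hij hx⟩
      obtain ⟨m, hm⟩ := IsArtinian.monotone_stabilizes f
      refine ⟨m, fun r hr h0 => ?_⟩
      by_contra hn
      have hrW : r ∈ W := hWn r h0 (by omega)
      have hall : ∀ j, r ∈ M ^ j := by
        intro j
        rcases le_total m j with hj | hj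
        · have h2 : f m = f j := hm j hj
          have h3 : (⟨r, hrW⟩ : W) ∈ ((M ^ m).restrictScalars k).comap W.subtype := hr
          have h4 : ((M ^ m).restrictScalars k).comap W.subtype =
            ((M ^ j).restrictScalars k).comap W.subtype := h2
          rw [h4] at h3
          exact h3
        · exact Ideal.pow_le_pow_right hj hr
      have h5 : r ∈ (⨅ j : ℕ, M ^ j) := by
        rw [Ideal.mem_iInf]
        exact hall
      rw [Ideal.iInf_pow_eq_bot_of_isDomain M hM.ne_top] at h5
      exact h0 h5
    · exact hC.base.of_injective _ _ (Subgroup.subtype _) (Subgroup.subtype_injective _) h1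
  exact hC.base.of_injective _ _ (Subgroup.topEquiv (G := GL (Fin 2) R)).symm.toMonoidHom
    (Subgroup.topEquiv (G := GL (Fin 2) R)).symm.injective htop

end Pool.Agent.U709
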