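import Pool.Agent.Y110.FJ.Stm
import Pool.Agent.Y430.SS.Lf
import Pool.Agent.Y812.SS.Wr

/-!
# Abelian groups, and restricted wreath products with finitary permutations
-/

set_option autoImplicit false

namespace Pool.Agent.U709.Gl

open Pool.Agent.Y110.FJ Pool.Agent.Y462.SS

variable {C : ∀ (G : Type) [Group G], Prop}

/-- finitely generated abelian groups -/
theorem C_fgab (hC : Closed C) (G : Type) [CommGroup G] [Group.FG G] : C G := by
  obtain ⟨ι, j, _, _, p, hp, e, ⟨f⟩⟩ := CommGroup.equiv_free_prod_prod_multiplicative_zmod G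
  have h1 : C (j → Multiplicative ℤ) := Pool.Agent.Y812.SS.C_pow hC _ _ hC.int
  have : ∀ i, NeZero (p i ^ e i) := fun i => ⟨pow_ne_zero _ (hp i).ne_zero⟩
  have : ∀ i, Finite (Multiplicative (ZMod (p i ^ e i))) :=
    fun i => inferInstanceAs (Finite (ZMod (p i ^ e i)))
  have h2 : C ((i : ι) → Multiplicative (ZMod (p i ^ e i))) :=
    Pool.Agent.Y812.SS.C_finite hC _
  exact Pool.Agent.Y812.SS.C_equiv hC f (hC.prod _ _ h1 h2)

/-- abelian groups -/
theorem C_ab (hC : Closed C) (G : Type) [Group G] (h : ∀ a b : G, a * b = b * a) : C G := by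
  classical
  refine Pool.Agent.Y430.SS.of_directed hC G (Finset G) (fun i j => ?_)
    (fun s => Subgroup.closure (s : Set G)) (fun s t h => Subgroup.closure_mono (by exact_mod_cast h))
    (fun g => ⟨{g}, Subgroup.subset_closure (by simp)⟩) (fun s => ?_)
  · exact ⟨i ∪ j, Finset.subset_union_left, Finset.subset_union_right⟩
  · letI : CommGroup ↥(Subgroup.closure (s : Set G)) :=
      { (inferInstance : Group ↥(Subgroup.closure (s : Set G))) with
        mul_comm := fun a b => Subtype.ext (h a b) }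
    have : Group.FG ↥(Subgroup.closure (s : Set G)) := by
      rw [Group.fg_iff_subgroup_fg]
      exact ⟨s, rfl⟩
    exact C_fgab hC _

section wr

variable {X Γ : Type} [Group Γ]

/-- the restricted wreath product with the group of finitary permutations -/
def FW (X Γ : Type) [Group Γ] : Subgroup (Wr X Γ) where
  carrier := {w | {x | w.p x ≠ x ∨ w.s x ≠ 1}.Finite}
  mul_mem' := by
    intro a b ha hb
    refine (Set.Finite.union ha hb).subset fun x hx => ?_
    by_contra hx'
    rw [Set.mem_union, not_or] at hx'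
    obtain ⟨h1, h2⟩ := hx'
    simp only [Set.mem_ofPred_eq, not_or, not_not] at h1 h2
    rcases hx with hx | hx
    · exact hx (by rw [Wr.mul_p, Equiv.Perm.mul_apply, h2.1, h1.1])
    · exact hx (by rw [Wr.mul_s, h2.1, h1.2, h2.2, mul_one])
  one_mem' := by
    have : {x : X | (1 : Wr X Γ).p x ≠ x ∨ (1 : Wr X Γ).s x ≠ 1} = ∅ := by
      ext x
      simp
    show Set.Finite _
    rw [this]
    exact Set.finite_empty
  inv_mem' := by
    intro a ha
    refine Set.Finite.subset ha fun x hx => ?_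
    by_contra hx'
    simp only [Set.mem_ofPred_eq, not_or, not_not] at hx'
    have h1 : a.p⁻¹ x = x := by rw [Equiv.Perm.inv_eq_iff_eq, hx'.1]
    rcases hx with hx | hx
    · exact hx h1
    · exact hx (by rw [Wr.inv_s, h1, hx'.2, inv_one])

/-- the elements supported in `Y` -/
def FY (Γ : Type) [Group Γ] (Y : Set X) : Subgroup (Wr X Γ) where
  carrier := {w | ∀ x ∉ Y, w.p x = x ∧ w.s x = 1}
  mul_mem' := by
    intro a b ha hb x hx
    rw [Wr.mul_p, Wr.mul_s, Equiv.Perm.mul_apply, (hb x hx).1, (ha x hx).1, (ha x hx).2,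
      (hb x hx).2]
    exact ⟨rfl, mul_one 1⟩
  one_mem' := fun x _ => ⟨rfl, rfl⟩
  inv_mem' := by
    intro a ha x hx
    have h1 : a.p⁻¹ x = x := by rw [Equiv.Perm.inv_eq_iff_eq, (ha x hx).1]
    rw [Wr.inv_p, Wr.inv_s, h1, (ha x hx).2]
    exact ⟨rfl, inv_one⟩

theorem FY_mem {Y : Set X} {w : Wr X Γ} (hw : w ∈ FY Γ Y) (x : X) : x ∈ Y ↔ w.p x ∈ Y := by
  constructor
  · intro hx
    by_contra h
    have h1 := (hw _ h).1
    have h2 := w.p.injective h1
    rw [h2] at h
    exact h hx
  · intro hx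
    by_contra h
    rw [(hw x h).1] at hx
    exact h hx

/-- restriction to the support -/
noncomputable def FYr (Y : Set X) : FY Γ Y →* Wr Y Γ where
  toFun w := ⟨fun y => w.1.s y, w.1.p.subtypePerm (fun x => (FY_mem w.2 x).symm)⟩
  map_one' := by
    apply Wr.ext
    · rfl
    · ext x
      rfl
  map_mul' a b := by
    apply Wr.ext
    · rfl
    · ext x
      rfl

theorem FYr_injective (Y : Set X) : Function.Injective (FYr (Γ := Γ) Y) := by
  intro a b hab
  apply Subtype.ext
  have h1 := congrArg Wr.s hab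
  have h2 := congrArg Wr.p hab
  apply Wr.ext
  · funext x
    by_cases hx : x ∈ Y
    · exact congrFun h1 ⟨x, hx⟩
    · rw [(a.2 x hx).2, (b.2 x hx).2]
  · ext x
    by_cases hx : x ∈ Y
    · have h3 := congrArg Subtype.val (DFunLike.congr_fun h2 ⟨x, hx⟩)
      exact h3
    · rw [(a.2 x hx).1, (b.2 x hx).1]

/-- the restricted wreath product is in the class -/
theorem C_FW (hC : Closed C) (X Γ : Type) [Group Γ] (h : C Γ) : C (FW X Γ) := by
  classical
  refine Pool.Agent.Y430.SS.of_directed hC (FW X Γ) (Finset X) (fun i j => ?_)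
    (fun Y => (FY Γ (Y : Set X)).subgroupOf (FW X Γ)) ?_ ?_ ?_
  · exact ⟨i ∪ j, Finset.subset_union_left, Finset.subset_union_right⟩
  · intro Y Z hYZ w hw x hx
    exact hw x fun hxY => hx (hYZ hxY)
  · intro w
    refine ⟨w.2.toFinset, fun x hx => ?_⟩
    rw [Set.Finite.coe_toFinset] at hx
    have h1 : ¬ ((w.1.p x ≠ x) ∨ (w.1.s x ≠ 1)) := hx
    rw [not_or, not_not, not_not] at h1
    exact h1
  · intro Y
    have h1 : C (Wr (Y : Set X) Γ) := by
      have : Finite (Y : Set X) := inferInstance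
      exact Pool.Agent.Y812.SS.t_wr C hC _ Γ inferInstance h
    refine hC.of_injective _ _ ((FYr (Y : Set X)).comp
      ({ toFun := fun w => ⟨w.1.1, w.2⟩, map_one' := rfl, map_mul' := fun _ _ => rfl } :
        ↥((FY Γ (Y : Set X)).subgroupOf (FW X Γ)) →* FY Γ (Y : Set X))) ?_ h1
    rw [MonoidHom.coe_comp]
    refine (FYr_injective _).comp fun a b hab => ?_
    have h2 := congrArg (fun z : FY Γ (Y : Set X) => (z : Wr X Γ)) hab
    exact Subtype.ext (Subtype.ext h2)

open Classical in
/-- the diagonal element with entries `f` -/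
noncomputable def dg (f : X → Γ) : FW X Γ :=
  if h : (Function.mulSupport f).Finite then ⟨⟨f, 1⟩, h.subset fun x hx => by
    rcases hx with hx | hx
    · exact absurd rfl hx
    · exact hx⟩ else 1

theorem dg_val {f : X → Γ} (h : (Function.mulSupport f).Finite) : (dg f : Wr X Γ) = ⟨f, 1⟩ := by
  unfold dg
  rw [dif_pos h]

theorem dg_mul {f g : X → Γ} (hf : (Function.mulSupport f).Finite)
    (hg : (Function.mulSupport g).Finite) : dg (f * g) = dg f * dg g := by
  have h : (Function.mulSupport (f * g)).Finite :=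
    (hf.union hg).subset (Function.mulSupport_mul f g)
  apply Subtype.ext
  rw [dg_val h, Subgroup.coe_mul, dg_val hf, dg_val hg]
  apply Wr.ext
  · rfl
  · exact (mul_one 1).symm

theorem dg_injective {f g : X → Γ} (hf : (Function.mulSupport f).Finite)
    (hg : (Function.mulSupport g).Finite) (h : dg f = dg g) : f = g := by
  have h1 := congrArg Subtype.val h
  rw [dg_val hf, dg_val hg] at h1
  exact congrArg Wr.s h1

open Classical in
/-- the function with one entry -/
noncomputable def sg (i : X) (γ : Γ) : X → Γ := fun x => if x = i then γ else 1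

theorem sg_same (i : X) (γ : Γ) : sg i γ i = γ := if_pos rfl

theorem sg_ne {i x : X} (h : x ≠ i) (γ : Γ) : sg i γ x = 1 := if_neg h

theorem sg_mul (i : X) (γ γ' : Γ) : sg i (γ * γ') = sg i γ * sg i γ' := by
  funext x
  rw [Pi.mul_apply]
  by_cases h : x = i
  · subst h
    rw [sg_same, sg_same, sg_same]
  · rw [sg_ne h, sg_ne h, sg_ne h, mul_one]

theorem sg_one (i : X) : sg i (1 : Γ) = 1 := by
  funext x
  by_cases h : x = i
  · subst h
    rw [sg_same]
    rfl
  · rw [sg_ne h]
    rfl

theorem fin_sg (i : X) (γ : Γ) : (Function.mulSupport (sg i γ)).Finite :=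
  (Set.finite_singleton i).subset fun x hx => by
    by_contra h
    exact hx (sg_ne h γ)

/-- diagonal elements with one entry are conjugate -/
theorem conj_sg (i i' : X) (k : Γ) : ∃ w : FW X Γ, ∀ γ : Γ,
    dg (sg i' (k * γ * k⁻¹)) = w * dg (sg i γ) * w⁻¹ := by
  classical
  obtain ⟨t, ht⟩ : ∃ t : FW X Γ, (t : Wr X Γ) = ⟨1, Equiv.swap i i'⟩ := by
    refine ⟨⟨⟨1, Equiv.swap i i'⟩, ?_⟩, rfl⟩
    refine (Set.toFinite {i, i'}).subset fun x hx => ?_
    by_contra h
    rw [Set.mem_insert_iff, Set.mem_singleton_iff, not_or] at h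
    rcases hx with hx | hx
    · exact hx (Equiv.swap_apply_of_ne_of_ne h.1 h.2)
    · exact hx rfl
  refine ⟨dg (sg i' k) * t, fun γ => ?_⟩
  have h1 : t * dg (sg i γ) = dg (sg i' γ) * t := by
    apply Subtype.ext
    rw [Subgroup.coe_mul, Subgroup.coe_mul, ht, dg_val (fin_sg i γ), dg_val (fin_sg i' γ)]
    apply Wr.ext
    · funext x
      show (1 : X → Γ) _ * sg i γ x = sg i' γ (Equiv.swap i i' x) * (1 : X → Γ) x
      rw [Pi.one_apply, Pi.one_apply, one_mul, mul_one]
      by_cases hx : x = i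
      · rw [hx, Equiv.swap_apply_left, sg_same, sg_same]
      · rw [sg_ne hx, sg_ne]
        intro h
        rw [Equiv.swap_apply_eq_iff, Equiv.swap_apply_right] at h
        exact hx h
    · show Equiv.swap i i' * 1 = 1 * Equiv.swap i i'
      rw [mul_one, one_mul]
  have h2 : dg (sg i' (k * γ * k⁻¹)) = dg (sg i' k) * dg (sg i' γ) * dg (sg i' k⁻¹) := by
    rw [← dg_mul (fin_sg _ _) (fin_sg _ _), ← sg_mul, ← dg_mul (fin_sg _ _) (fin_sg _ _), ← sg_mul]
  have h3 : dg (sg i' k⁻¹) = (dg (sg i' k))⁻¹ := by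
    rw [eq_inv_iff_mul_eq_one, ← dg_mul (fin_sg _ _) (fin_sg _ _), ← sg_mul,
      inv_mul_cancel, sg_one]
    apply Subtype.ext
    rw [dg_val (by simp)]
    rfl
  rw [h2, h3, mul_inv_rev]
  have h4 : dg (sg i' k) * t * dg (sg i γ) = dg (sg i' k) * dg (sg i' γ) * t := by
    rw [mul_assoc, h1, mul_assoc]
  rw [h4]
  group

end wr

end Pool.Agent.U709.Gl
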