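import Pool.Agent.K7.H87.FJ6.Lek
import Pool.Agent.Q30.FJ.GrP

/-!
# Deleting relations of Artin groups and Shephard groups
-/

set_option autoImplicit false

namespace Pool.Agent.U709.Art

open Pool.Agent.Y110.FJ (ClosedE S_AM Amg S_PERM)
open Pool.Agent.K7.H87.FJ6
open Pool.Agent.Helper741 (alt map_alt alt_zero)

variable {C : ∀ (G : Type) [Group G], Prop}

/-- the inclusion of a set of generators -/
abbrev rs {B : Type} (M : CoxeterMatrix B) (X : Set B) : CoxeterMatrix X :=
  pull M (Subtype.val : X → B) Subtype.val_injective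

theorem Adm.sub {B : Type} {M M' : CoxeterMatrix B} {p : B → ℕ} (h : Adm M' p)
    (hM : ∀ i j, M i j = M' i j ∨ M i j = 0) : Adm M p := by
  refine ⟨h.even, fun i j hij => ?_⟩
  rcases hM i j with h1 | h1
  · rw [h1] at hij
    exact h.odd i j hij
  · rw [h1] at hij
    exact absurd hij (by decide)

/-- the homomorphism which adds relations -/
def add {B : Type} (M M' : CoxeterMatrix B) (p : B → ℕ)
    (hM : ∀ i j, M i j = M' i j ∨ M i j = 0) : Sh M p →* Sh M' p :=
  Sh.lift (fun b => Sh.gen M' p b) (fun i j => by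
    rcases hM i j with h | h
    · rw [h]
      exact Sh.rel i j
    · rw [h, alt_zero, alt_zero]) (fun i => Sh.pow i)

theorem add_gen {B : Type} {M M' : CoxeterMatrix B} {p : B → ℕ}
    (hM : ∀ i j, M i j = M' i j ∨ M i j = 0) (b : B) :
    add M M' p hM (Sh.gen M p b) = Sh.gen M' p b := Sh.lift_gen _ _ _ _

theorem add_inj {B : Type} [Finite B] {M M' : CoxeterMatrix B} {p : B → ℕ} (hA : Adm M' p)
    (hM : ∀ i j, M i j = M' i j ∨ M i j = 0) (X : Set B) (hX : ∀ i ∈ X, ∀ j ∈ X, M i j = M' i j)
    (g : Sh M p) (hg : g ∈ (inc M p (Subtype.val : X → B) Subtype.val_injective).range)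
    (h1 : add M M' p hM g = 1) : g = 1 := by
  obtain ⟨x, rfl⟩ := hg
  have hX1 : ∀ i j : X, rs M X i j = rs M' X i j ∨ rs M X i j = 0 :=
    fun i j => Or.inl (hX i i.2 j j.2)
  have hX2 : ∀ i j : X, rs M' X i j = rs M X i j ∨ rs M' X i j = 0 :=
    fun i j => Or.inl (hX i i.2 j j.2).symm
  have e1 : (add M M' p hM).comp (inc M p (Subtype.val : X → B) Subtype.val_injective) =
      (inc M' p (Subtype.val : X → B) Subtype.val_injective).comp
        (add (rs M X) (rs M' X) (p ∘ Subtype.val) hX1) := by
    apply Sh.hom_ext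
    intro i
    rw [MonoidHom.comp_apply, MonoidHom.comp_apply, inc_gen, add_gen, add_gen, inc_gen]
  have e2 : (add (rs M' X) (rs M X) (p ∘ Subtype.val) hX2).comp
      (add (rs M X) (rs M' X) (p ∘ Subtype.val) hX1) = MonoidHom.id _ := by
    apply Sh.hom_ext
    intro i
    rw [MonoidHom.comp_apply, add_gen, add_gen]
    rfl
  have h2 : inc M' p (Subtype.val : X → B) Subtype.val_injective
      (add (rs M X) (rs M' X) (p ∘ Subtype.val) hX1 x) = 1 := by
    rw [← MonoidHom.comp_apply, ← e1]
    exact h1
  have h3 := (injective_iff_map_eq_one _).1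
    (inc_injective hA (Subtype.val : X → B) Subtype.val_injective) _ h2
  have h4 : x = 1 := by
    have h5 : (MonoidHom.id _) x = 1 := by
      rw [← e2, MonoidHom.comp_apply, h3, map_one]
    exact h5
  rw [h4, map_one]

/-- the amalgam for a pair of generators with the label infinity -/
theorem amg {B : Type} (M : CoxeterMatrix B) (p : B → ℕ) (s t : B) (h0 : M s t = 0) (hst : s ≠ t) :
    Amg (inc M p (Subtype.val : {b : B | b ≠ s} → B) Subtype.val_injective).range
      (inc M p (Subtype.val : {b : B | b ≠ t} → B) Subtype.val_injective).range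
      ((inc M p (Subtype.val : {b : B | b ≠ s} → B) Subtype.val_injective).range ⊓
        (inc M p (Subtype.val : {b : B | b ≠ t} → B) Subtype.val_injective).range) := by
  classical
  obtain ⟨X, hX⟩ : ∃ X : Set B, X = {b : B | b ≠ s} := ⟨_, rfl⟩
  obtain ⟨Y, hY⟩ : ∃ Y : Set B, Y = {b : B | b ≠ t} := ⟨_, rfl⟩
  rw [← hX, ← hY]
  have memX : ∀ b, b ∈ X → Sh.gen M p b ∈
      (inc M p (Subtype.val : X → B) Subtype.val_injective).range :=
    fun b hb => ⟨Sh.gen _ _ ⟨b, hb⟩, inc_gen _ _ _ _ _⟩
  have memY : ∀ b, b ∈ Y → Sh.gen M p b ∈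
      (inc M p (Subtype.val : Y → B) Subtype.val_injective).range :=
    fun b hb => ⟨Sh.gen _ _ ⟨b, hb⟩, inc_gen _ _ _ _ _⟩
  refine ⟨inf_le_left, inf_le_right, ?_, ?_⟩
  · rw [eq_top_iff, ← Sh.closure_range_gen, Subgroup.closure_le]
    rintro _ ⟨b, rfl⟩
    by_cases hb : b = s
    · exact Subgroup.mem_sup_right (memY b (by rw [hY, hb]; exact hst))
    · exact Subgroup.mem_sup_left (memX b (by rw [hX]; exact hb))
  · intro H _ f g hfg
    let F : B → H := fun b => if hb : b ∈ X then f ⟨Sh.gen M p b, memX b hb⟩
      else if hb' : b ∈ Y then g ⟨Sh.gen M p b, memY b hb'⟩ else 1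
    have FX : ∀ b (hb : b ∈ X), F b = f ⟨Sh.gen M p b, memX b hb⟩ := fun b hb => dif_pos hb
    have FY : ∀ b (hb : b ∈ Y), F b = g ⟨Sh.gen M p b, memY b hb⟩ := by
      intro b hb
      by_cases hb' : b ∈ X
      · rw [FX b hb']
        exact hfg _ ⟨memX b hb', memY b hb⟩
      · change (if hb : b ∈ X then f ⟨Sh.gen M p b, memX b hb⟩
          else if hb' : b ∈ Y then g ⟨Sh.gen M p b, memY b hb'⟩ else 1) = _
        rw [dif_neg hb', dif_pos hb]
    have relX : ∀ i j, i ∈ X → j ∈ X → alt (F i) (F j) (M i j) = alt (F j) (F i) (M i j) := by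
      intro i j hi hj
      rw [FX i hi, FX j hj, ← map_alt, ← map_alt]
      congr 1
      apply Subtype.ext
      have h1 : ∀ (m : ℕ) (a b : (inc M p (Subtype.val : X → B) Subtype.val_injective).range),
          ((alt a b m : (inc M p (Subtype.val : X → B) Subtype.val_injective).range) : Sh M p) =
          alt (a : Sh M p) (b : Sh M p) m := fun m a b => map_alt (Subgroup.subtype _) a b m
      rw [h1, h1]
      exact Sh.rel i j
    have relY : ∀ i j, i ∈ Y → j ∈ Y → alt (F i) (F j) (M i j) = alt (F j) (F i) (M i j) := by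
      intro i j hi hj
      rw [FY i hi, FY j hj, ← map_alt, ← map_alt]
      congr 1
      apply Subtype.ext
      have h1 : ∀ (m : ℕ) (a b : (inc M p (Subtype.val : Y → B) Subtype.val_injective).range),
          ((alt a b m : (inc M p (Subtype.val : Y → B) Subtype.val_injective).range) : Sh M p) =
          alt (a : Sh M p) (b : Sh M p) m := fun m a b => map_alt (Subgroup.subtype _) a b m
      rw [h1, h1]
      exact Sh.rel i j
    have hrel : ∀ i j, alt (F i) (F j) (M i j) = alt (F j) (F i) (M i j) := by
      intro i j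
      by_cases hi : i = s
      · by_cases hj : j = t
        · rw [hi, hj, h0, alt_zero, alt_zero]
        · exact relY i j (by rw [hY, hi]; exact hst) (by rw [hY]; exact hj)
      · by_cases hj : j = s
        · by_cases hi' : i = t
          · rw [hi', hj, M.symmetric, h0, alt_zero, alt_zero]
          · exact relY i j (by rw [hY]; exact hi') (by rw [hY, hj]; exact hst)
        · exact relX i j (by rw [hX]; exact hi) (by rw [hX]; exact hj)
    have hpow : ∀ i, F i ^ p i = 1 := by
      intro i
      by_cases hi : i ∈ X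
      · rw [FX i hi, ← map_pow]
        have : (⟨Sh.gen M p i, memX i hi⟩ :
            (inc M p (Subtype.val : X → B) Subtype.val_injective).range) ^ p i = 1 :=
          Subtype.ext (Sh.pow i)
        rw [this, map_one]
      · have hi' : i ∈ Y := by
          have : i = s := by
            by_contra hne
            exact hi (by rw [hX]; exact hne)
          rw [hY, this]
          exact hst
        rw [FY i hi', ← map_pow]
        have : (⟨Sh.gen M p i, memY i hi'⟩ :
            (inc M p (Subtype.val : Y → B) Subtype.val_injective).range) ^ p i = 1 :=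
          Subtype.ext (Sh.pow i)
        rw [this, map_one]
    refine ⟨Sh.lift F hrel hpow, ?_, ?_⟩
    · rintro ⟨_, ⟨x, rfl⟩⟩
      have e : (Sh.lift F hrel hpow).comp (inc M p (Subtype.val : X → B) Subtype.val_injective) =
          f.comp (inc M p (Subtype.val : X → B) Subtype.val_injective).rangeRestrict := by
        apply Sh.hom_ext
        intro i
        rw [MonoidHom.comp_apply, inc_gen, Sh.lift_gen, FX i i.2, MonoidHom.comp_apply]
        congr 1
      exact DFunLike.congr_fun e x
    · rintro ⟨_, ⟨x, rfl⟩⟩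
      have e : (Sh.lift F hrel hpow).comp (inc M p (Subtype.val : Y → B) Subtype.val_injective) =
          g.comp (inc M p (Subtype.val : Y → B) Subtype.val_injective).rangeRestrict := by
        apply Sh.hom_ext
        intro i
        rw [MonoidHom.comp_apply, inc_gen, Sh.lift_gen, FY i i.2, MonoidHom.comp_apply]
        congr 1
      exact DFunLike.congr_fun e x

/-- one label -/
theorem step (hC : ClosedE C) {B : Type} [Finite B] {M M' : CoxeterMatrix B} {p : B → ℕ}
    (hA : Adm M' p) (hM : ∀ i j, M i j = M' i j ∨ M i j = 0) (s t : B) (h0 : M s t = 0) (hst : s ≠ t)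
    (heq : ∀ i j, ¬ ((i = s ∧ j = t) ∨ (i = t ∧ j = s)) → M i j = M' i j) (h : C (Sh M' p)) :
    C (Sh M p) := by
  have hAM : S_AM := Pool.Agent.Y417.FJ.t_am (Pool.Agent.Y961.FJ.t_perm Pool.Agent.Y529.FJ.t_ext)
  refine hAM C hC (Sh M p) (Sh M' p) _ _ _ (amg M p s t h0 hst) (add M M' p hM) ?_ ?_ h
  · intro a ha h1
    refine add_inj hA hM {b | b ≠ s} ?_ a ha h1
    intro i hi j hj
    apply heq
    rintro (⟨rfl, _⟩ | ⟨_, rfl⟩)
    · exact hi rfl
    · exact hj rfl
  · intro a ha h1
    refine add_inj hA hM {b | b ≠ t} ?_ a ha h1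
    intro i hi j hj
    apply heq
    rintro (⟨_, rfl⟩ | ⟨rfl, _⟩)
    · exact hj rfl
    · exact hi rfl

open Classical in
/-- the number of deleted labels -/
noncomputable def df {B : Type} [Fintype B] (M M' : CoxeterMatrix B) : ℕ :=
  (Finset.univ.filter fun q : B × B => M q.1 q.2 ≠ M' q.1 q.2).card

/-- **deleting relations**, finite rank -/
theorem del (hC : ClosedE C) {B : Type} [Finite B] {M' : CoxeterMatrix B} {p : B → ℕ}
    (hA : Adm M' p) (h : C (Sh M' p)) (M : CoxeterMatrix B)
    (hM : ∀ i j, M i j = M' i j ∨ M i j = 0) : C (Sh M p) := by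
  classical
  have := Fintype.ofFinite B
  induction hn : df M M' using Nat.strong_induction_on generalizing M with
  | _ n ih =>
    by_cases hall : ∀ i j, M i j = M' i j
    · have : M = M' := by
        ext i j
        exact hall i j
      rw [this]
      exact h
    · push Not at hall
      obtain ⟨s, t, hst⟩ := hall
      have h0 : M s t = 0 := (hM s t).resolve_left hst
      have hne : s ≠ t := by
        rintro rfl
        apply hst
        rw [M.diagonal, M'.diagonal]
      have hts : M t s ≠ M' t s := by
        rw [M.symmetric, M'.symmetric]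
        exact hst
      let M1 : CoxeterMatrix B :=
        { M := Matrix.of fun i j => if (i = s ∧ j = t) ∨ (i = t ∧ j = s) then M' i j else M i j
          isSymm := by
            ext i j
            simp only [Matrix.transpose_apply, Matrix.of_apply]
            have e : ((j = s ∧ i = t) ∨ (j = t ∧ i = s)) ↔ ((i = s ∧ j = t) ∨ (i = t ∧ j = s)) := by
              tauto
            rw [if_congr e rfl rfl]
            split_ifs
            · exact M'.symmetric _ _
            · exact M.symmetric _ _
          diagonal := by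
            intro i
            simp only [Matrix.of_apply]
            split_ifs
            · exact M'.diagonal i
            · exact M.diagonal i
          off_diagonal := by
            intro i j hij
            simp only [Matrix.of_apply]
            split_ifs
            · exact M'.off_diagonal i j hij
            · exact M.off_diagonal i j hij }
      have M1_apply : ∀ i j, M1 i j =
          if (i = s ∧ j = t) ∨ (i = t ∧ j = s) then M' i j else M i j := fun i j => rfl
      have hM1 : ∀ i j, M1 i j = M' i j ∨ M1 i j = 0 := by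
        intro i j
        rw [M1_apply]
        split_ifs
        · exact Or.inl rfl
        · exact hM i j
      have hMM1 : ∀ i j, M i j = M1 i j ∨ M i j = 0 := by
        intro i j
        rw [M1_apply]
        split_ifs
        · exact hM i j
        · exact Or.inl rfl
      have hlt : df M1 M' < df M M' := by
        apply Finset.card_lt_card
        rw [Finset.ssubset_iff_subset_ne]
        refine ⟨?_, ?_⟩
        · intro q hq
          rw [Finset.mem_filter] at hq ⊢
          refine ⟨hq.1, ?_⟩
          have h2 := hq.2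
          rw [M1_apply] at h2
          split_ifs at h2
          · exact absurd rfl h2
          · exact h2
        · intro he
          have h2 : (s, t) ∈ Finset.univ.filter fun q : B × B => M q.1 q.2 ≠ M' q.1 q.2 := by
            rw [Finset.mem_filter]
            exact ⟨Finset.mem_univ _, hst⟩
          rw [← he, Finset.mem_filter] at h2
          apply h2.2
          rw [M1_apply, if_pos (Or.inl ⟨rfl, rfl⟩)]
      have hC1 : C (Sh M1 p) := ih _ (by rw [← hn]; exact hlt) M1 hM1 rfl
      refine step hC (Adm.sub hA hM1) hMM1 s t h0 hne ?_ hC1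
      intro i j hij
      rw [M1_apply, if_neg hij]

section inf

variable {B : Type} (M : CoxeterMatrix B) (p : B → ℕ)

open Classical in
/-- the labels inside `F` -/
noncomputable def MF (F : Set B) : CoxeterMatrix B where
  M := Matrix.of fun i j => if i = j then 1 else if i ∈ F ∧ j ∈ F then M i j else 0
  isSymm := by
    ext i j
    simp only [Matrix.transpose_apply, Matrix.of_apply]
    rw [if_congr (eq_comm (a := j) (b := i)) rfl rfl, if_congr (and_comm (a := j ∈ F)) rfl rfl,
      M.symmetric]
  diagonal := by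
    intro i
    simp
  off_diagonal := by
    intro i j hij
    simp only [Matrix.of_apply]
    rw [if_neg hij]
    split_ifs
    · exact M.off_diagonal i j hij
    · decide

open Classical in
/-- the exponents inside `F` -/
noncomputable def pF (F : Set B) : B → ℕ := fun b => if b ∈ F then p b else 0

open Classical in
theorem MF_apply (F : Set B) (i j : B) :
    MF M F i j = if i = j then 1 else if i ∈ F ∧ j ∈ F then M i j else 0 := rfl

theorem MF_in {F : Set B} {i j : B} (hi : i ∈ F) (hj : j ∈ F) : MF M F i j = M i j := by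
  rw [MF_apply]
  split_ifs with h1 h2
  · rw [h1, M.diagonal]
  · rfl
  · exact absurd ⟨hi, hj⟩ h2

theorem MF_out {F : Set B} {i j : B} (hij : i ≠ j) (h : ¬ (i ∈ F ∧ j ∈ F)) : MF M F i j = 0 := by
  rw [MF_apply, if_neg hij, if_neg h]

/-- a word of length one -/
theorem alt_one' {G : Type*} [Monoid G] (a b : G) (h : a = b) (m : ℕ) : alt a b m = alt b a m := by
  rw [h]

/-- relations persist -/
theorem MF_rel {F F' : Set B} (hF : F ⊆ F') (i j : B) :
    alt (Sh.gen (MF M F') (pF p F') i) (Sh.gen (MF M F') (pF p F') j) (MF M F i j) =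
      alt (Sh.gen (MF M F') (pF p F') j) (Sh.gen (MF M F') (pF p F') i) (MF M F i j) := by
  by_cases hij : i = j
  · rw [hij]
  · by_cases h : i ∈ F ∧ j ∈ F
    · rw [MF_in M h.1 h.2, ← MF_in M (hF h.1) (hF h.2)]
      exact Sh.rel i j
    · rw [MF_out M hij h, alt_zero, alt_zero]

theorem MF_pow {F F' : Set B} (hF : F ⊆ F') (i : B) :
    Sh.gen (MF M F') (pF p F') i ^ pF p F i = 1 := by
  by_cases h : i ∈ F
  · have h1 : pF p F i = pF p F' i := by
      unfold pF
      rw [if_pos h, if_pos (hF h)]
    rw [h1]
    exact Sh.pow i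
  · have h1 : pF p F i = 0 := by
      unfold pF
      rw [if_neg h]
    rw [h1, pow_zero]

/-- the structure maps -/
noncomputable def tF {F F' : Set B} (hF : F ⊆ F') : Sh (MF M F) (pF p F) →* Sh (MF M F') (pF p F') :=
  Sh.lift (fun b => Sh.gen _ _ b) (fun i j => MF_rel M p hF i j) (fun i => MF_pow M p hF i)

theorem tF_gen {F F' : Set B} (hF : F ⊆ F') (b : B) :
    tF M p hF (Sh.gen _ _ b) = Sh.gen _ _ b := Sh.lift_gen _ _ _ _

theorem MF_rel' (F : Set B) (i j : B) :
    alt (Sh.gen M p i) (Sh.gen M p j) (MF M F i j) = alt (Sh.gen M p j) (Sh.gen M p i) (MF M F i j) := by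
  by_cases hij : i = j
  · rw [hij]
  · by_cases h : i ∈ F ∧ j ∈ F
    · rw [MF_in M h.1 h.2]
      exact Sh.rel i j
    · rw [MF_out M hij h, alt_zero, alt_zero]

theorem MF_pow' (F : Set B) (i : B) : Sh.gen M p i ^ pF p F i = 1 := by
  unfold pF
  split_ifs
  · exact Sh.pow i
  · exact pow_zero _

/-- the maps to the limit -/
noncomputable def uF (F : Set B) : Sh (MF M F) (pF p F) →* Sh M p :=
  Sh.lift (fun b => Sh.gen _ _ b) (fun i j => MF_rel' M p F i j) (fun i => MF_pow' M p F i)

theorem uF_gen (F : Set B) (b : B) : uF M p F (Sh.gen _ _ b) = Sh.gen _ _ b := Sh.lift_gen _ _ _ _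

theorem mk_rel_F (F : Set B) (w : FreeGroup B) :
    uF M p F (PresentedGroup.mk _ w) = PresentedGroup.mk _ w := by
  have : (uF M p F).comp (PresentedGroup.mk (rels (MF M F) (pF p F))) =
      PresentedGroup.mk (rels M p) := by
    refine FreeGroup.ext_hom _ _ fun b => ?_
    exact uF_gen M p F b
  exact DFunLike.congr_fun this w

theorem mk_rel_FF {F F' : Set B} (hF : F ⊆ F') (w : FreeGroup B) :
    tF M p hF (PresentedGroup.mk _ w) = PresentedGroup.mk _ w := by
  have : (tF M p hF).comp (PresentedGroup.mk (rels (MF M F) (pF p F))) =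
      PresentedGroup.mk (rels (MF M F') (pF p F')) := by
    refine FreeGroup.ext_hom _ _ fun b => ?_
    exact tF_gen M p hF b
  exact DFunLike.congr_fun this w

/-- **directed colimits**: infinite rank -/
theorem colim (hC : ClosedE C) (h : ∀ F : Finset B, C (Sh (MF M (F : Set B)) (pF p (F : Set B)))) :
    C (Sh M p) := by
  classical
  refine hC.base.colim (Finset B) (fun i j => ⟨i ∪ j, Finset.subset_union_left, Finset.subset_union_right⟩)
    (fun F => Sh (MF M (F : Set B)) (pF p (F : Set B)))
    (fun i j hij => tF M p (by exact_mod_cast hij)) (Sh M p)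
    (fun F => uF M p (F : Set B)) ?_ ?_ ?_ ?_ ?_ h
  · intro i hi x
    obtain ⟨w, rfl⟩ := PresentedGroup.mk_surjective _ x
    exact mk_rel_FF M p _ w
  · intro i j k hij hjk x
    obtain ⟨w, rfl⟩ := PresentedGroup.mk_surjective _ x
    rw [mk_rel_FF, mk_rel_FF, mk_rel_FF]
  · intro i j hij x
    obtain ⟨w, rfl⟩ := PresentedGroup.mk_surjective _ x
    rw [mk_rel_FF, mk_rel_F, mk_rel_F]
  · intro y
    obtain ⟨w, rfl⟩ := PresentedGroup.mk_surjective _ y
    exact ⟨∅, PresentedGroup.mk _ w, mk_rel_F M p _ w⟩
  · intro F x hx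
    obtain ⟨w, rfl⟩ := PresentedGroup.mk_surjective _ x
    have hx' : PresentedGroup.mk (rels M p) w = 1 := by
      rw [← mk_rel_F M p (F : Set B)]
      exact hx
    let N : Subgroup (FreeGroup B) :=
      { carrier := {w | ∃ F0 : Finset B, ∀ F1 : Finset B, F0 ⊆ F1 →
          PresentedGroup.mk (rels (MF M (F1 : Set B)) (pF p (F1 : Set B))) w = 1}
        one_mem' := ⟨∅, fun _ _ => map_one _⟩
        mul_mem' := by
          rintro u v ⟨F0, h0⟩ ⟨F0', h0'⟩
          refine ⟨F0 ∪ F0', fun F1 h1 => ?_⟩
          rw [map_mul, h0 F1 (Finset.subset_union_left.trans h1),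
            h0' F1 (Finset.subset_union_right.trans h1), one_mul]
        inv_mem' := by
          rintro u ⟨F0, h0⟩
          refine ⟨F0, fun F1 h1 => ?_⟩
          rw [map_inv, h0 F1 h1, inv_one] }
    have hN : N.Normal := ⟨by
      rintro u ⟨F0, h0⟩ g
      refine ⟨F0, fun F1 h1 => ?_⟩
      rw [map_mul, map_mul, h0 F1 h1, mul_one, ← map_mul, mul_inv_cancel, map_one]⟩
    have hrel : Subgroup.normalClosure (rels M p) ≤ N := by
      refine Subgroup.normalClosure_le_normal ?_
      rintro r (⟨s, t, rfl⟩ | ⟨s, rfl⟩)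
      · refine ⟨{s, t}, fun F1 h1 => ?_⟩
        have hs : s ∈ (F1 : Set B) := h1 (by simp)
        have ht : t ∈ (F1 : Set B) := h1 (by simp)
        refine PresentedGroup.one_of_mem (Or.inl ⟨s, t, ?_⟩)
        rw [MF_in M hs ht]
      · refine ⟨{s}, fun F1 h1 => ?_⟩
        have hs : s ∈ (F1 : Set B) := h1 (by simp)
        refine PresentedGroup.one_of_mem (Or.inr ⟨s, ?_⟩)
        unfold pF
        rw [if_pos hs]
    have hmem : w ∈ N := hrel ((QuotientGroup.eq_one_iff _).1 hx')
    obtain ⟨F0, h0⟩ := hmem
    refine ⟨F ∪ F0, Finset.subset_union_left, ?_⟩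
    have h1 := h0 (F ∪ F0) Finset.subset_union_right
    rw [mk_rel_FF]
    exact h1

end inf

/-- free groups -/
theorem free_mem (hC : ClosedE C) (X : Type) : C (FreeGroup X) := by
  have hP : S_PERM := Pool.Agent.Y961.FJ.t_perm Pool.Agent.Y529.FJ.t_ext
  let act : MulAction Unit X :=
    { smul := fun _ x => x, one_smul := fun _ => rfl, mul_smul := fun _ _ _ => rfl }
  have h1 := hP C hC X Unit (Pool.Agent.Y430.SS.of_finite hC.base Unit inferInstance)
  exact hC.base.of_injective _ _ SemidirectProduct.inl SemidirectProduct.inl_injective h1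

/-- the group with the labels inside `F` is a free product of the group of `F` and a free group -/
theorem MF_mem (hC : ClosedE C) {B : Type} (M : CoxeterMatrix B) (p : B → ℕ) (F : Set B)
    (h : C (Sh (rs M F) (p ∘ Subtype.val))) : C (Sh (MF M F) (pF p F)) := by
  classical
  let D := Monoid.Coprod (Sh (rs M F) (p ∘ Subtype.val)) (FreeGroup B)
  have hD : C D := hC.base.coprod _ _ h (free_mem hC B)
  let a : B → D := fun b => if hb : b ∈ F then Monoid.Coprod.inl (Sh.gen _ _ ⟨b, hb⟩)
    else Monoid.Coprod.inr (FreeGroup.of b)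
  have ain : ∀ b (hb : b ∈ F), a b = Monoid.Coprod.inl (Sh.gen _ _ ⟨b, hb⟩) := fun b hb => dif_pos hb
  have aout : ∀ b, b ∉ F → a b = Monoid.Coprod.inr (FreeGroup.of b) := fun b hb => dif_neg hb
  let φ : Sh (MF M F) (pF p F) →* D := Sh.lift a (by
    intro i j
    by_cases hij : i = j
    · rw [hij]
    · by_cases h : i ∈ F ∧ j ∈ F
      · rw [MF_in M h.1 h.2, ain i h.1, ain j h.2, ← map_alt, ← map_alt]
        congr 1
        exact Sh.rel (M := rs M F) (p := p ∘ Subtype.val) ⟨i, h.1⟩ ⟨j, h.2⟩
      · rw [MF_out M hij h, alt_zero, alt_zero]) (by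
    intro i
    by_cases hi : i ∈ F
    · rw [ain i hi, ← map_pow]
      have h1 : pF p F i = (p ∘ Subtype.val) (⟨i, hi⟩ : F) := by
        unfold pF
        rw [if_pos hi]
        rfl
      rw [h1, Sh.pow, map_one]
    · have h1 : pF p F i = 0 := by
        unfold pF
        rw [if_neg hi]
      rw [h1, pow_zero])
  let ψ1 : Sh (rs M F) (p ∘ Subtype.val) →* Sh (MF M F) (pF p F) :=
    Sh.lift (fun b => Sh.gen _ _ b.1) (by
      intro i j
      have h1 : rs M F i j = MF M F i.1 j.1 := (MF_in M i.2 j.2).symm
      rw [h1]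
      exact Sh.rel _ _) (by
      intro i
      have h1 : (p ∘ Subtype.val) i = pF p F i.1 := by
        unfold pF
        rw [if_pos i.2]
        rfl
      rw [h1]
      exact Sh.pow _)
  let ψ : D →* Sh (MF M F) (pF p F) :=
    Monoid.Coprod.lift ψ1 (FreeGroup.lift (fun b => Sh.gen _ _ b))
  have hψ : ψ.comp φ = MonoidHom.id _ := by
    apply Sh.hom_ext
    intro b
    change ψ (Sh.lift a _ _ (Sh.gen _ _ b)) = Sh.gen _ _ b
    rw [Sh.lift_gen]
    by_cases hb : b ∈ F
    · rw [ain b hb, Monoid.Coprod.lift_apply_inl, Sh.lift_gen]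
    · rw [aout b hb, Monoid.Coprod.lift_apply_inr, FreeGroup.lift_apply_of]
  refine hC.base.of_injective _ _ φ ?_ hD
  intro x y hxy
  have h1 := congrArg ψ hxy
  have h2 : ∀ z, ψ (φ z) = z := fun z => DFunLike.congr_fun hψ z
  rwa [h2, h2] at h1

/-- **the local criterion** -/
theorem local_mem (hC : ClosedE C) {B : Type} (M : CoxeterMatrix B) (p : B → ℕ)
    (h : ∀ F : Set B, F.Finite → C (Sh (rs M F) (p ∘ Subtype.val))) : C (Sh M p) :=
  colim M p hC fun F => MF_mem hC M p F (h F F.finite_toSet)

/-- **deleting relations** -/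
theorem del_all (hC : ClosedE C) {B : Type} {M' : CoxeterMatrix B} {p : B → ℕ} (hA : Adm M' p)
    (h : ∀ F : Set B, F.Finite → C (Sh (rs M' F) (p ∘ Subtype.val))) (M : CoxeterMatrix B)
    (hM : ∀ i j, M i j = M' i j ∨ M i j = 0) : C (Sh M p) := by
  refine local_mem hC M p fun F hF => ?_
  have : Finite F := hF
  refine del hC (M' := rs M' F) (hA.pull _ _) (h F hF) (rs M F) ?_
  intro i j
  exact hM i j

open Classical in
/-- infinity is replaced by two -/
noncomputable def two {B : Type} (M : CoxeterMatrix B) : CoxeterMatrix B where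
  M := Matrix.of fun i j => if M i j = 0 then 2 else M i j
  isSymm := by
    ext i j
    simp only [Matrix.transpose_apply, Matrix.of_apply]
    rw [M.symmetric]
  diagonal := by
    intro i
    simp
  off_diagonal := by
    intro i j hij
    simp only [Matrix.of_apply]
    split_ifs
    · decide
    · exact M.off_diagonal i j hij

theorem two_apply {B : Type} (M : CoxeterMatrix B) (i j : B) :
    two M i j = if M i j = 0 then 2 else M i j := by
  change (if M i j = 0 then 2 else M i j) = _
  split_ifs <;> rfl

/-- **labels without infinity** suffice -/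
theorem reduction (hC : ClosedE C)
    (h : ∀ (B : Type) [Finite B] (M : CoxeterMatrix B) (p : B → ℕ), Adm M p →
      (∀ i j, M i j ≠ 0) → C (Sh M p))
    (B : Type) (M : CoxeterMatrix B) (p : B → ℕ) (hA : Adm M p) : C (Sh M p) := by
  have hA2 : Adm (two M) p := by
    refine ⟨hA.even, fun i j hij => ?_⟩
    rw [two_apply] at hij
    split_ifs at hij with h0
    · exact absurd hij (by decide)
    · exact hA.odd i j hij
  refine del_all hC hA2 (fun F hF => ?_) M ?_
  · have : Finite F := hF
    refine h F (rs (two M) F) (p ∘ Subtype.val) (hA2.pull _ _) ?_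
    intro i j
    change two M i j ≠ 0
    rw [two_apply]
    split_ifs with h0
    · decide
    · exact h0
  · intro i j
    rw [two_apply]
    split_ifs with h0
    · exact Or.inr h0
    · exact Or.inl rfl

end Pool.Agent.U709.Art
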