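import Mathlib

/-!
# The tree of `GL_2` of a field with a discrete valuation

The vertices are the cosets of the group `S` of the matrices `z k`, `z` a scalar and `k` an invertible
matrix over the valuation ring. The level of a vertex is its distance from the base vertex.
-/

set_option autoImplicit false

namespace Pool.Agent.U709.BT

open Matrix

/-- a normalized discrete valuation on a field (the value at `0` is irrelevant) -/
structure DV (F : Type) [Field F] where
  /-- the valuation -/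
  v : F → ℤ
  map_mul : ∀ a b, a ≠ 0 → b ≠ 0 → v (a * b) = v a + v b
  map_add : ∀ a b, a ≠ 0 → b ≠ 0 → a + b ≠ 0 → min (v a) (v b) ≤ v (a + b)
  /-- a uniformizer -/
  w : F
  w_ne : w ≠ 0
  v_w : v w = 1

/-- a graph with levels such that each vertex except one has exactly one lower neighbour, and
neighbours have different levels, is a tree (the proof is that of helper293, `U293.PA.isTree_of_level`) -/
theorem isTree_of_level {V : Type} (T : SimpleGraph V) (l : V → ℕ) (r : V)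
    (h1 : ∀ u v, T.Adj u v → l u ≠ l v)
    (h2 : ∀ v, v ≠ r → ∃ u, T.Adj v u ∧ l u < l v)
    (h3 : ∀ v u u', T.Adj v u → T.Adj v u' → l u < l v → l u' < l v → u = u') : T.IsTree := by
  classical
  refine ⟨?_, ?_⟩
  · have hr : ∀ n v, l v = n → T.Reachable v r := by
      intro n
      induction n using Nat.strong_induction_on with
      | _ n ih =>
        intro v hv
        by_cases hvr : v = r
        · rw [hvr]
        · obtain ⟨u, hu, hlt⟩ := h2 v hvr
          exact hu.reachable.trans (ih _ (by omega) u rfl)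
    exact { preconnected := fun u v => (hr _ u rfl).trans (hr _ v rfl).symm, nonempty := ⟨r⟩ }
  · intro v c hc
    obtain ⟨w, hw, hmax⟩ := c.support.toFinset.exists_max_image l
      ⟨v, by simp⟩
    have hw' : w ∈ c.support := by simpa using hw
    have hc' := hc.rotate hw'
    obtain ⟨c', hcc⟩ : ∃ c' : T.Walk w w, c' = c.rotate w hw' := ⟨_, rfl⟩
    rw [← hcc] at hc'
    have hsub : ∀ x ∈ c'.support, l x ≤ l w := by
      intro x hx
      apply hmax
      rw [List.mem_toFinset]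
      rw [hcc] at hx
      exact (SimpleGraph.Walk.mem_support_rotate_iff ..).1 hx
    have hn : ¬ c'.Nil := hc'.not_nil
    have a1 := c'.adj_snd hn
    have a2 := c'.adj_penultimate hn
    have l1 : l c'.snd < l w :=
      lt_of_le_of_ne (hsub _ (c'.getVert_mem_support _)) (h1 _ _ a1).symm
    have l2 : l c'.penultimate < l w :=
      lt_of_le_of_ne (hsub _ (c'.getVert_mem_support _)) (h1 _ _ a2)
    exact hc'.snd_ne_penultimate (h3 _ _ _ a1 a2.symm l1 l2)

namespace DV

variable {F : Type} [Field F] (V : DV F)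

theorem v_one : V.v 1 = 0 := by
  have := V.map_mul 1 1 one_ne_zero one_ne_zero
  rw [mul_one] at this
  omega

theorem v_neg_one : V.v (-1) = 0 := by
  have := V.map_mul (-1) (-1) (by simp) (by simp)
  rw [neg_one_mul, neg_neg, V.v_one] at this
  omega

theorem v_neg (a : F) : V.v (-a) = V.v a := by
  by_cases h : a = 0
  · rw [h, neg_zero]
  · have := V.map_mul (-1) a (by simp) h
    rw [neg_one_mul, v_neg_one, zero_add] at this
    exact this

theorem v_inv {a : F} (h : a ≠ 0) : V.v a⁻¹ = - V.v a := by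
  have := V.map_mul a a⁻¹ h (inv_ne_zero h)
  rw [mul_inv_cancel₀ h, V.v_one] at this
  omega

/-- the valuation of `x` is at least `n` (or `x = 0`) -/
def L (n : ℤ) (x : F) : Prop := x ≠ 0 → n ≤ V.v x

variable {V}

theorem L_zero (n : ℤ) : V.L n 0 := fun h => absurd rfl h

theorem L_add {n : ℤ} {x y : F} (hx : V.L n x) (hy : V.L n y) : V.L n (x + y) := by
  intro h
  by_cases h1 : x = 0
  · rw [h1, zero_add] at h ⊢
    exact hy h
  by_cases h2 : y = 0
  · rw [h2, add_zero] at h ⊢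
    exact hx h
  exact (le_min (hx h1) (hy h2)).trans (V.map_add x y h1 h2 h)

theorem L_neg {n : ℤ} {x : F} (hx : V.L n x) : V.L n (-x) := by
  intro h
  rw [V.v_neg]
  exact hx (by simpa using h)

theorem L_sub {n : ℤ} {x y : F} (hx : V.L n x) (hy : V.L n y) : V.L n (x - y) := by
  rw [sub_eq_add_neg]
  exact L_add hx (L_neg hy)

theorem L_mul {m n : ℤ} {x y : F} (hx : V.L m x) (hy : V.L n y) : V.L (m + n) (x * y) := by
  intro h
  have h1 : x ≠ 0 := left_ne_zero_of_mul h
  have h2 : y ≠ 0 := right_ne_zero_of_mul h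
  rw [V.map_mul x y h1 h2]
  exact add_le_add (hx h1) (hy h2)

theorem L_mono {m n : ℤ} (h : m ≤ n) {x : F} (hx : V.L n x) : V.L m x := fun h0 => h.trans (hx h0)

theorem L_self (x : F) : V.L (V.v x) x := fun _ => le_rfl

theorem L_div {m n : ℤ} {x y : F} (hx : V.L m x) (hy : y ≠ 0) (hn : V.v y = n) :
    V.L (m - n) (x / y) := by
  rw [div_eq_mul_inv, sub_eq_add_neg, ← hn]
  refine L_mul hx ?_
  intro _
  rw [V.v_inv hy]

theorem L_one : V.L 0 (1 : F) := fun _ => by rw [V.v_one]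

theorem L_of_mul {m n : ℤ} {x y : F} (hx : x ≠ 0) (hv : V.v x = m) (h : V.L (m + n) (x * y)) :
    V.L n y := by
  intro hy
  have h1 := h (mul_ne_zero hx hy)
  rw [V.map_mul x y hx hy, hv] at h1
  omega

theorem det_ne (g : GL (Fin 2) F) : g.1.det ≠ 0 := g.det_ne_zero

variable (V) in
/-- the distance of the vertices of `1` and `g` is at most `n`, and of the parity of `n` -/
def E (n : ℤ) (g : GL (Fin 2) F) : Prop :=
  ∃ m : ℤ, (∀ i j, V.L m (g.1 i j)) ∧ V.v g.1.det = 2 * m + n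

theorem v_det_mul (g h : GL (Fin 2) F) : V.v (g * h).1.det = V.v g.1.det + V.v h.1.det := by
  have : (g * h).1.det = g.1.det * h.1.det := by
    rw [← Matrix.det_mul]
    rfl
  rw [this]
  exact V.map_mul _ _ (det_ne g) (det_ne h)

theorem mul_entry (g h : GL (Fin 2) F) (i j : Fin 2) :
    (g * h).1 i j = g.1 i 0 * h.1 0 j + g.1 i 1 * h.1 1 j := by
  have : (g * h).1 = g.1 * h.1 := rfl
  rw [this, Matrix.mul_apply, Fin.sum_univ_two]

theorem L_mul_entry {m n : ℤ} {g h : GL (Fin 2) F} (hg : ∀ i j, V.L m (g.1 i j))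
    (hh : ∀ i j, V.L n (h.1 i j)) (i j : Fin 2) : V.L (m + n) ((g * h).1 i j) := by
  rw [mul_entry]
  exact L_add (L_mul (hg _ _) (hh _ _)) (L_mul (hg _ _) (hh _ _))

theorem E_mul {m n : ℤ} {g h : GL (Fin 2) F} (hg : V.E m g) (hh : V.E n h) :
    V.E (m + n) (g * h) := by
  obtain ⟨a, h1, h2⟩ := hg
  obtain ⟨b, h3, h4⟩ := hh
  refine ⟨a + b, L_mul_entry h1 h3, ?_⟩
  rw [v_det_mul, h2, h4]
  ring

theorem v_det_one : V.v (1 : GL (Fin 2) F).1.det = 0 := by
  have : (1 : GL (Fin 2) F).1.det = 1 := by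
    rw [Units.val_one, Matrix.det_one]
  rw [this, V.v_one]

theorem v_det_inv (g : GL (Fin 2) F) : V.v (g⁻¹).1.det = - V.v g.1.det := by
  have := v_det_mul (V := V) g g⁻¹
  rw [mul_inv_cancel, v_det_one] at this
  omega

theorem inv_entry (g : GL (Fin 2) F) : (g⁻¹).1 0 0 = g.1 1 1 / g.1.det ∧
    (g⁻¹).1 0 1 = - g.1 0 1 / g.1.det ∧ (g⁻¹).1 1 0 = - g.1 1 0 / g.1.det ∧
    (g⁻¹).1 1 1 = g.1 0 0 / g.1.det := by
  have h1 : (g⁻¹).1 = (g.1)⁻¹ := Matrix.coe_units_inv g
  have h2 : (g.1)⁻¹ = (g.1.det)⁻¹ • !![g.1 1 1, -g.1 0 1; -g.1 1 0, g.1 0 0] := by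
    rw [Matrix.inv_def, Ring.inverse_eq_inv, Matrix.adjugate_fin_two]
  rw [h1, h2]
  refine ⟨?_, ?_, ?_, ?_⟩ <;> simp [div_eq_inv_mul]

theorem L_inv_entry {m d : ℤ} {g : GL (Fin 2) F} (hg : ∀ i j, V.L m (g.1 i j))
    (hd : V.v g.1.det = d) (i j : Fin 2) : V.L (m - d) ((g⁻¹).1 i j) := by
  obtain ⟨h1, h2, h3, h4⟩ := inv_entry g
  fin_cases i <;> fin_cases j
  · change V.L _ ((g⁻¹).1 0 0)
    rw [h1]
    exact L_div (hg _ _) (det_ne g) hd
  · change V.L _ ((g⁻¹).1 0 1)
    rw [h2]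
    exact L_div (L_neg (hg _ _)) (det_ne g) hd
  · change V.L _ ((g⁻¹).1 1 0)
    rw [h3]
    exact L_div (L_neg (hg _ _)) (det_ne g) hd
  · change V.L _ ((g⁻¹).1 1 1)
    rw [h4]
    exact L_div (hg _ _) (det_ne g) hd

theorem E_inv {n : ℤ} {g : GL (Fin 2) F} (hg : V.E n g) : V.E n g⁻¹ := by
  obtain ⟨m, h1, h2⟩ := hg
  refine ⟨-m - n, fun i j => ?_, ?_⟩
  · have := L_inv_entry h1 h2 i j
    rwa [show m - (2 * m + n) = -m - n by ring] at this
  · rw [v_det_inv, h2]
    ring

theorem E_one : V.E 0 1 := by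
  refine ⟨0, fun i j => ?_, by rw [v_det_one]; rfl⟩
  have : (1 : GL (Fin 2) F).1 = (1 : Matrix (Fin 2) (Fin 2) F) := rfl
  rw [this]
  by_cases h : i = j
  · rw [h, Matrix.one_apply_eq]
    exact L_one
  · rw [Matrix.one_apply_ne h]
    exact L_zero _

theorem L_det {m : ℤ} {g : GL (Fin 2) F} (hg : ∀ i j, V.L m (g.1 i j)) : V.L (m + m) g.1.det := by
  rw [Matrix.det_fin_two]
  exact L_sub (L_mul (hg _ _) (hg _ _)) (L_mul (hg _ _) (hg _ _))

theorem E_nonneg {n : ℤ} {g : GL (Fin 2) F} (hg : V.E n g) : 0 ≤ n := by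
  obtain ⟨m, h1, h2⟩ := hg
  have := L_det h1 (det_ne g)
  omega

theorem E_parity {m n : ℤ} {g : GL (Fin 2) F} (h : V.E m g) (h' : V.E n g) : ∃ k, m = n + 2 * k := by
  obtain ⟨a, h1, h2⟩ := h
  obtain ⟨b, h3, h4⟩ := h'
  exact ⟨b - a, by omega⟩

theorem exE (g : GL (Fin 2) F) : ∃ n : ℕ, V.E n g := by
  obtain ⟨m, hm⟩ : ∃ m : ℤ, ∀ i j, V.L m (g.1 i j) := by
    refine ⟨min (min (V.v (g.1 0 0)) (V.v (g.1 0 1))) (min (V.v (g.1 1 0)) (V.v (g.1 1 1))), ?_⟩
    intro i j
    fin_cases i <;> fin_cases j <;> refine L_mono ?_ (L_self _) <;> simp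
  have h1 := L_det hm (det_ne g)
  refine ⟨(V.v g.1.det - 2 * m).toNat, m, hm, ?_⟩
  omega

open Classical in
/-- the level -/
noncomputable def lev (V : DV F) (g : GL (Fin 2) F) : ℕ := Nat.find (exE (V := V) g)

theorem lev_spec (g : GL (Fin 2) F) : V.E (V.lev g) g := by
  classical
  exact Nat.find_spec (exE (V := V) g)

theorem lev_le {n : ℤ} {g : GL (Fin 2) F} (h : V.E n g) : (V.lev g : ℤ) ≤ n := by
  classical
  have h0 := E_nonneg h
  obtain ⟨k, rfl⟩ := Int.eq_ofNat_of_zero_le h0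
  exact_mod_cast Nat.find_min' (exE (V := V) g) h

theorem lev_mul {s : GL (Fin 2) F} (hs : V.E 0 s) (g : GL (Fin 2) F) :
    V.lev (g * s) = V.lev g := by
  have h1 := lev_le (E_mul (lev_spec (V := V) g) hs)
  have h2 := lev_le (E_mul (lev_spec (V := V) (g * s)) (E_inv hs))
  rw [mul_inv_cancel_right] at h2
  omega

theorem lev_adj {p : GL (Fin 2) F} (hp : V.E 1 p) (g : GL (Fin 2) F) :
    (V.lev (g * p) : ℤ) = V.lev g + 1 ∨ (V.lev (g * p) : ℤ) = V.lev g - 1 := by
  have h1 := lev_le (E_mul (lev_spec (V := V) g) hp)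
  have h2 := lev_le (E_mul (lev_spec (V := V) (g * p)) (E_inv hp))
  rw [mul_inv_cancel_right] at h2
  obtain ⟨k, hk⟩ := E_parity (E_mul (lev_spec (V := V) g) hp) (lev_spec (V := V) (g * p))
  omega

/-- the matrix of the step -/
noncomputable def gm (M : Matrix (Fin 2) (Fin 2) F) (h : M.det ≠ 0) : GL (Fin 2) F :=
  Matrix.GeneralLinearGroup.mkOfDetNeZero M h

theorem gm_val (M : Matrix (Fin 2) (Fin 2) F) (h : M.det ≠ 0) : (gm M h).1 = M := rfl

theorem exists_entry {n m : ℤ} {g : GL (Fin 2) F} (h1 : ∀ i j, V.L m (g.1 i j))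
    (h2 : V.v g.1.det = 2 * m + n) (h3 : ¬ V.E (n - 2) g) : ∃ i j, g.1 i j ≠ 0 ∧ V.v (g.1 i j) = m := by
  by_contra hcon
  push Not at hcon
  apply h3
  refine ⟨m + 1, fun i j h => ?_, by omega⟩
  have a1 := h1 i j h
  have a2 := hcon i j h
  omega

theorem step {n : ℤ} (hn : 1 ≤ n) {g : GL (Fin 2) F} (hg : V.E n g) (hmin : ¬ V.E (n - 2) g) :
    ∃ p, V.E 1 p ∧ V.E (n - 1) (g * p) := by
  obtain ⟨m, h1, h2⟩ := hg
  obtain ⟨i, j, hij, hv⟩ := exists_entry h1 h2 hmin
  have hw := V.w_ne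
  have hwv := V.v_w
  have hdet := Matrix.det_fin_two g.1
  have hd0 := det_ne g
  have hw1 : V.L (-1) (1 / V.w) := by
    have := L_div (V := V) L_one hw hwv
    simpa using this
  -- the quotients
  have q1 : ∀ k l, V.L (-1) (-(g.1 k l) / (g.1 i j * V.w)) := by
    intro k l
    have := L_div (L_neg (h1 k l)) (mul_ne_zero hij hw) (V.map_mul _ _ hij hw)
    rwa [hv, hwv, show m - (m + 1) = -1 by ring] at this
  have q2 : V.L m (g.1.det / (g.1 i j * V.w)) := by
    have := L_div (L_self (V := V) g.1.det) (mul_ne_zero hij hw) (V.map_mul _ _ hij hw)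
    rw [hv, hwv, h2] at this
    exact L_mono (by omega) this
  have vdet1 : V.v (1 / V.w) = -1 := by
    rw [one_div, V.v_inv hw, hwv]
  have key : ∀ M : Matrix (Fin 2) (Fin 2) F, ∀ hM : M.det ≠ 0, V.v M.det = -1 →
      (∀ i j, V.L (-1) (M i j)) → (∀ a b, V.L m ((g * gm M hM).1 a b)) →
      ∃ p, V.E 1 p ∧ V.E (n - 1) (g * p) := by
    intro M hM hvM hLM hLg
    refine ⟨gm M hM, ⟨-1, hLM, ?_⟩, ⟨m, hLg, ?_⟩⟩
    · rw [gm_val, hvM]
      rfl
    · rw [v_det_mul, gm_val, hvM, h2]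
      ring
  rcases (by omega : j = 0 ∨ j = 1) with rfl | rfl
  · -- the entry is in the first column
    have hM : (!![1, -(g.1 i 1) / (g.1 i 0 * V.w); 0, 1 / V.w] : Matrix (Fin 2) (Fin 2) F).det
        = 1 / V.w := by
      rw [Matrix.det_fin_two_of]
      ring
    refine key _ (by rw [hM]; exact one_div_ne_zero hw) (by rw [hM, vdet1]) ?_ ?_
    · intro a b
      fin_cases a <;> fin_cases b
      · exact L_mono (by norm_num) L_one
      · exact q1 i 1
      · exact L_zero _
      · exact hw1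
    · intro a b
      rw [mul_entry, gm_val]
      rcases (by omega : b = 0 ∨ b = 1) with rfl | rfl
      · simpa using h1 a 0
      · have e1 : (!![1, -(g.1 i 1) / (g.1 i 0 * V.w); 0, 1 / V.w] : Matrix (Fin 2) (Fin 2) F) 0 1
            = -(g.1 i 1) / (g.1 i 0 * V.w) := rfl
        have e2 : (!![1, -(g.1 i 1) / (g.1 i 0 * V.w); 0, 1 / V.w] : Matrix (Fin 2) (Fin 2) F) 1 1
            = 1 / V.w := rfl
        rw [e1, e2]
        rcases (by omega : a = i ∨ a ≠ i) with rfl | ha
        · have : g.1 a 0 * (-(g.1 a 1) / (g.1 a 0 * V.w)) + g.1 a 1 * (1 / V.w) = 0 := by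
            field_simp
            ring
          rw [this]
          exact L_zero _
        · rcases (by omega : i = 0 ∨ i = 1) with rfl | rfl
          · have ha' : a = 1 := by omega
            subst ha'
            have : g.1 1 0 * (-(g.1 0 1) / (g.1 0 0 * V.w)) + g.1 1 1 * (1 / V.w) =
                g.1.det / (g.1 0 0 * V.w) := by
              rw [hdet]
              field_simp
              ring
            rw [this]
            exact q2
          · have ha' : a = 0 := by omega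
            subst ha'
            have : g.1 0 0 * (-(g.1 1 1) / (g.1 1 0 * V.w)) + g.1 0 1 * (1 / V.w) =
                -(g.1.det / (g.1 1 0 * V.w)) := by
              rw [hdet]
              field_simp
              ring
            rw [this]
            exact L_neg q2
  · have hM : (!![0, 1 / V.w; 1, -(g.1 i 0) / (g.1 i 1 * V.w)] : Matrix (Fin 2) (Fin 2) F).det
        = -(1 / V.w) := by
      rw [Matrix.det_fin_two_of]
      ring
    refine key _ (by rw [hM]; exact neg_ne_zero.2 (one_div_ne_zero hw))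
      (by rw [hM, V.v_neg, vdet1]) ?_ ?_
    · intro a b
      fin_cases a <;> fin_cases b
      · exact L_zero _
      · exact hw1
      · exact L_mono (by norm_num) L_one
      · exact q1 i 0
    · intro a b
      rw [mul_entry, gm_val]
      rcases (by omega : b = 0 ∨ b = 1) with rfl | rfl
      · simpa using h1 a 1
      · have e1 : (!![0, 1 / V.w; 1, -(g.1 i 0) / (g.1 i 1 * V.w)] : Matrix (Fin 2) (Fin 2) F) 0 1
            = 1 / V.w := rfl
        have e2 : (!![0, 1 / V.w; 1, -(g.1 i 0) / (g.1 i 1 * V.w)] : Matrix (Fin 2) (Fin 2) F) 1 1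
            = -(g.1 i 0) / (g.1 i 1 * V.w) := rfl
        rw [e1, e2]
        rcases (by omega : a = i ∨ a ≠ i) with rfl | ha
        · have : g.1 a 0 * (1 / V.w) + g.1 a 1 * (-(g.1 a 0) / (g.1 a 1 * V.w)) = 0 := by
            field_simp
            ring
          rw [this]
          exact L_zero _
        · rcases (by omega : i = 0 ∨ i = 1) with rfl | rfl
          · have ha' : a = 1 := by omega
            subst ha'
            have : g.1 1 0 * (1 / V.w) + g.1 1 1 * (-(g.1 0 0) / (g.1 0 1 * V.w)) =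
                -(g.1.det / (g.1 0 1 * V.w)) := by
              rw [hdet]
              field_simp
              ring
            rw [this]
            exact L_neg q2
          · have ha' : a = 0 := by omega
            subst ha'
            have : g.1 0 0 * (1 / V.w) + g.1 0 1 * (-(g.1 1 0) / (g.1 1 1 * V.w)) =
                g.1.det / (g.1 1 1 * V.w) := by
              rw [hdet]
              field_simp
              ring
            rw [this]
            exact q2

theorem uniq {n : ℤ} {g p q : GL (Fin 2) F} (hg : V.E n g) (hmin : ¬ V.E (n - 2) g)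
    (hp : V.E 1 p) (hq : V.E 1 q) (hgp : V.E (n - 1) (g * p)) (hgq : V.E (n - 1) (g * q)) :
    V.E 0 (p⁻¹ * q) := by
  obtain ⟨m, h1, h2⟩ := hg
  obtain ⟨i, j, hij, hv⟩ := exists_entry h1 h2 hmin
  obtain ⟨a, p1, p2⟩ := hp
  obtain ⟨b, q1, q2⟩ := hq
  obtain ⟨m1, r1, r2⟩ := hgp
  obtain ⟨m2, s1, s2⟩ := hgq
  rw [v_det_mul, h2, p2] at r2
  rw [v_det_mul, h2, q2] at s2
  have e1 : m1 = m + a + 1 := by omega
  have e2 : m2 = m + b + 1 := by omega
  subst e1 e2
  have D : ∀ k l, V.L (a + b + 1) (p.1 0 k * q.1 1 l - p.1 1 k * q.1 0 l) := by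
    intro k l
    have x1 := r1 i k
    have x2 := s1 i l
    rw [mul_entry] at x1 x2
    have y0 : V.L (m + (a + b + 1)) (g.1 i 0 * (p.1 0 k * q.1 1 l - p.1 1 k * q.1 0 l)) := by
      have : g.1 i 0 * (p.1 0 k * q.1 1 l - p.1 1 k * q.1 0 l) =
          (g.1 i 0 * p.1 0 k + g.1 i 1 * p.1 1 k) * q.1 1 l -
          (g.1 i 0 * q.1 0 l + g.1 i 1 * q.1 1 l) * p.1 1 k := by ring
      rw [this]
      have z1 := L_mul x1 (q1 1 l)
      have z2 := L_mul x2 (p1 1 k)
      exact L_sub (L_mono (by omega) z1) (L_mono (by omega) z2)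
    have y1 : V.L (m + (a + b + 1)) (g.1 i 1 * (p.1 0 k * q.1 1 l - p.1 1 k * q.1 0 l)) := by
      have : g.1 i 1 * (p.1 0 k * q.1 1 l - p.1 1 k * q.1 0 l) =
          (g.1 i 0 * q.1 0 l + g.1 i 1 * q.1 1 l) * p.1 0 k -
          (g.1 i 0 * p.1 0 k + g.1 i 1 * p.1 1 k) * q.1 0 l := by ring
      rw [this]
      have z1 := L_mul x1 (q1 0 l)
      have z2 := L_mul x2 (p1 0 k)
      exact L_sub (L_mono (by omega) z2) (L_mono (by omega) z1)
    rcases (by omega : j = 0 ∨ j = 1) with rfl | rfl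
    · exact L_of_mul hij hv y0
    · exact L_of_mul hij hv y1
  refine ⟨b - a, fun k l => ?_, ?_⟩
  · obtain ⟨i1, i2, i3, i4⟩ := inv_entry p
    rw [mul_entry]
    have hd := det_ne p
    rcases (by omega : k = 0 ∨ k = 1) with rfl | rfl
    · have : (p⁻¹).1 0 0 * q.1 0 l + (p⁻¹).1 0 1 * q.1 1 l =
          -(p.1 0 1 * q.1 1 l - p.1 1 1 * q.1 0 l) / p.1.det := by
        rw [i1, i2]
        field_simp
        ring
      rw [this]
      exact L_mono (by omega) (L_div (L_neg (D 1 l)) hd p2)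
    · have : (p⁻¹).1 1 0 * q.1 0 l + (p⁻¹).1 1 1 * q.1 1 l =
          (p.1 0 0 * q.1 1 l - p.1 1 0 * q.1 0 l) / p.1.det := by
        rw [i3, i4]
        field_simp
        ring
      rw [this]
      exact L_mono (by omega) (L_div (D 0 l) hd p2)
  · rw [v_det_mul, v_det_inv, p2, q2]
    ring

variable (V)

/-- the stabilizer of the base vertex -/
def S : Subgroup (GL (Fin 2) F) where
  carrier := {g | V.E 0 g}
  one_mem' := E_one
  mul_mem' := fun {a b} ha hb => by
    have := E_mul (V := V) ha hb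
    rwa [add_zero] at this
  inv_mem' := fun {a} ha => E_inv ha

theorem mem_S {g : GL (Fin 2) F} : g ∈ V.S ↔ V.E 0 g := Iff.rfl

/-- the vertices -/
abbrev Vt : Type := GL (Fin 2) F ⧸ V.S

/-- the tree -/
def tr : SimpleGraph V.Vt where
  Adj u w := ∃ g p : GL (Fin 2) F, V.E 1 p ∧ u = QuotientGroup.mk g ∧ w = QuotientGroup.mk (g * p)
  symm := ⟨by
    rintro u w ⟨g, p, hp, rfl, rfl⟩
    exact ⟨g * p, p⁻¹, E_inv hp, rfl, by rw [mul_inv_cancel_right]⟩⟩
  loopless := ⟨by
    rintro u ⟨g, p, hp, rfl, h⟩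
    rw [QuotientGroup.eq, inv_mul_cancel_left] at h
    obtain ⟨k, hk⟩ := E_parity hp ((V.mem_S).1 h)
    omega⟩

theorem tr_act (g : GL (Fin 2) F) (u w : V.Vt) (h : V.tr.Adj u w) : V.tr.Adj (g • u) (g • w) := by
  obtain ⟨x, p, hp, rfl, rfl⟩ := h
  exact ⟨g * x, p, hp, rfl, by rw [mul_assoc]; rfl⟩

/-- the level of a vertex -/
noncomputable def lv (u : V.Vt) : ℕ := V.lev u.out

theorem lv_mk (g : GL (Fin 2) F) : V.lv (QuotientGroup.mk g) = V.lev g := by
  have h1 : g⁻¹ * ((QuotientGroup.mk g : V.Vt).out) ∈ V.S := by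
    rw [← QuotientGroup.eq]
    exact (Quotient.out_eq' _).symm
  have h2 := lev_mul ((V.mem_S).1 h1) g
  rw [mul_inv_cancel_left] at h2
  exact h2

theorem adj_mk {g : GL (Fin 2) F} {w : V.Vt} (h : V.tr.Adj (QuotientGroup.mk g) w) :
    ∃ p, V.E 1 p ∧ w = QuotientGroup.mk (g * p) := by
  obtain ⟨x, p, hp, h1, rfl⟩ := h
  rw [QuotientGroup.eq] at h1
  refine ⟨g⁻¹ * x * p, ?_, ?_⟩
  · have := E_mul ((V.mem_S).1 h1) hp
    rwa [zero_add] at this
  · congr 1
    group

theorem not_E (g : GL (Fin 2) F) : ¬ V.E ((V.lev g : ℤ) - 2) g := by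
  intro h
  have := lev_le h
  omega

theorem isTree : V.tr.IsTree := by
  refine isTree_of_level _ V.lv (QuotientGroup.mk 1) ?_ ?_ ?_
  · rintro u w ⟨g, p, hp, rfl, rfl⟩
    rw [lv_mk, lv_mk]
    have := lev_adj hp g
    omega
  · intro u hu
    obtain ⟨g, rfl⟩ := QuotientGroup.mk_surjective u
    have h0 : V.lev g ≠ 0 := by
      intro h0
      apply hu
      rw [QuotientGroup.eq, mul_one]
      apply inv_mem
      rw [mem_S]
      have := lev_spec (V := V) g
      rw [h0] at this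
      exact this
    obtain ⟨p, hp, hgp⟩ := step (V := V) (n := V.lev g) (by omega) (lev_spec g) (V.not_E g)
    refine ⟨QuotientGroup.mk (g * p), ⟨g, p, hp, rfl, rfl⟩, ?_⟩
    rw [lv_mk, lv_mk]
    have := lev_le hgp
    omega
  · intro u w w' hw hw' hlt hlt'
    obtain ⟨g, rfl⟩ := QuotientGroup.mk_surjective u
    obtain ⟨p, hp, rfl⟩ := V.adj_mk hw
    obtain ⟨q, hq, rfl⟩ := V.adj_mk hw'
    rw [lv_mk, lv_mk] at hlt hlt'
    have a1 := lev_adj hp g
    have a2 := lev_adj hq g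
    have b1 : (V.lev (g * p) : ℤ) = V.lev g - 1 := by omega
    have b2 : (V.lev (g * q) : ℤ) = V.lev g - 1 := by omega
    have c1 := lev_spec (V := V) (g * p)
    have c2 := lev_spec (V := V) (g * q)
    rw [b1] at c1
    rw [b2] at c2
    have := uniq (lev_spec (V := V) g) (V.not_E g) hp hq c1 c2
    rw [QuotientGroup.eq, mem_S]
    have e : (g * p)⁻¹ * (g * q) = p⁻¹ * q := by group
    rw [e]
    exact this

/-- a matrix with determinant of valuation `0` which fixes the vertex of `g` has bounded entries -/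
theorem stab (u : V.Vt) : ∃ N : ℕ, ∀ x : GL (Fin 2) F, V.v x.1.det = 0 → x • u = u →
    ∀ i j, V.L (-(N : ℤ)) (x.1 i j) := by
  obtain ⟨g, rfl⟩ := QuotientGroup.mk_surjective u
  obtain ⟨n, m, h1, h2⟩ := exE (V := V) g
  refine ⟨n, fun x hx hu => ?_⟩
  have h3 : g⁻¹ * x * g ∈ V.S := by
    have h4 : (QuotientGroup.mk (x * g) : V.Vt) = QuotientGroup.mk g := hu
    rw [QuotientGroup.eq] at h4
    have h5 := inv_mem h4
    have e : ((x * g)⁻¹ * g)⁻¹ = g⁻¹ * x * g := by group
    rwa [e] at h5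
  obtain ⟨a, h4, h5⟩ := (V.mem_S).1 h3
  rw [v_det_mul, v_det_mul, v_det_inv, hx] at h5
  have ha : a = 0 := by omega
  subst ha
  have h6 := L_mul_entry (L_mul_entry h1 h4) (L_inv_entry h1 h2)
  have e : g * (g⁻¹ * x * g) * g⁻¹ = x := by group
  rw [e] at h6
  intro i j
  exact L_mono (by omega) (h6 i j)

end DV

end Pool.Agent.U709.BT
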