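import Pool.Agent.U709.RkD

/-!
# Central products, and actions on trees with abelian stabilizers
-/

set_option autoImplicit false

namespace Pool.Agent.U709.Ce

open SimpleGraph Subgroup
open Pool.Agent.Y110.FJ
open Pool.Agent.R941.FJ (C_equiv C_le C_cyc)
open Pool.Agent.N509.TK
open Pool.Agent.N509.TX (AcylF of_fg C_stab)
open Pool.Agent.N431.CE (Es mem_Es)
open Pool.Agent.U385.FJ (Fm toTq)
open Pool.Agent.U709.Rk (C_over)

variable {C : ∀ (G : Type) [Group G], Prop}

/-- abelian groups are metabelian -/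
theorem ab_der {A : Type} [Group A] (h : ∀ x y : A, x * y = y * x) : derivedSeries A 2 = ⊥ := by
  have h1 : derivedSeries A 1 = ⊥ := by
    rw [derivedSeries_one, commutator_def, Subgroup.commutator_eq_bot_iff_le_centralizer]
    intro a _
    rw [Subgroup.mem_centralizer_iff]
    intro b _
    exact h b a
  rw [derivedSeries_succ, h1, Subgroup.commutator_bot_left]

/-- **abelian stabilizers** -/
theorem ab_tree (hC : ClosedE C) (hM : ∀ (G : Type) [Group G], derivedSeries G 2 = ⊥ → C G)
    {G V : Type} [Group G] [MulAction G V] {T : SimpleGraph V} (hT : T.IsTree)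
    (hact : ∀ (g : G) (u v : V), T.Adj u v → T.Adj (g • u) (g • v))
    (hab : ∀ v : V, ∀ x y : G, x • v = v → y • v = v → x * y = y * x) : C G := by
  obtain ⟨R, hR⟩ : ∃ R : V → Subgroup G, R = fun v => MulAction.stabilizer G v := ⟨_, rfl⟩
  have hRm : ∀ v x, x ∈ R v ↔ x • v = v := fun v x => by rw [hR]; exact Iff.rfl
  have hFm : Fm T R := by
    refine ⟨fun v r hr => (hRm _ _).1 hr, fun g v r hr => ?_, fun u v _ r _ h => (hRm _ _).2 h⟩
    rw [hRm, mul_smul, mul_smul, inv_smul_smul, (hRm _ _).1 hr]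
  have := hFm.normal
  refine Pool.Agent.U385.FJ.main1 hC hM hT hact hFm ?_ ?_ ?_
  · intro u v _ x hx _ hxc
    have h1 : ⁅R u, R u⁆ = ⊥ := by
      rw [Subgroup.commutator_eq_bot_iff_le_centralizer]
      intro a ha
      rw [Subgroup.mem_centralizer_iff]
      intro b hb
      exact hab u b a ((hRm _ _).1 hb) ((hRm _ _).1 ha)
    rw [h1] at hxc
    exact Subgroup.mem_bot.1 hxc
  · refine Pool.Agent.U385.FJ.quot_mem hC hT hact hFm ?_ ?_
    · intro u v _ g hu _
      exact (hRm _ _).2 hu
    · intro v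
      exact ⟨Multiplicative ℤ, inferInstance, 1, hC.base.int,
        fun g => ⟨fun _ => (hRm _ _).2 g.2, fun _ => rfl⟩⟩
  · intro v g hg
    refine hM _ (ab_der fun x y => ?_)
    have h1 : R v ⊔ Subgroup.zpowers g ≤ R v := by
      refine sup_le le_rfl ?_
      rw [Subgroup.zpowers_le]
      exact (hRm _ _).2 hg
    exact Subtype.ext (hab v _ _ ((hRm _ _).1 (h1 x.2)) ((hRm _ _).1 (h1 y.2)))

/-- adding a central element -/
theorem cen_zp (hC : ClosedE C) {Q : Type} [Group Q] (H : Subgroup Q) (hH : C H) (a : Q)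
    (ha : ∀ g, a * g = g * a) : C ↥(H ⊔ Subgroup.zpowers a) := by
  have hmem : ∀ x, x ∈ H ⊔ Subgroup.zpowers a → ∃ h ∈ H, ∃ k : ℤ, x = h * a ^ k := by
    intro x hx
    have hn : (Subgroup.zpowers a).Normal := by
      refine ⟨?_⟩
      rintro _ ⟨k, rfl⟩ g
      refine ⟨k, ?_⟩
      show a ^ k = g * a ^ k * g⁻¹
      have h1 : Commute g (a ^ k) := Commute.zpow_right (ha g).symm k
      rw [h1.eq, mul_inv_cancel_right]
    obtain ⟨h, hh, _, ⟨k, rfl⟩, rfl⟩ := Subgroup.mem_sup_of_normal_right.1 hx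
    exact ⟨h, hh, k, rfl⟩
  by_cases h : ∃ n : ℕ, 0 < n ∧ a ^ n ∈ H
  · obtain ⟨n, hn, hna⟩ := h
    refine C_over hC (L := H) le_sup_left ?_ hH
    have : Finite (↥(H ⊔ Subgroup.zpowers a) ⧸ H.subgroupOf (H ⊔ Subgroup.zpowers a)) := by
      have hak : ∀ k : ℕ, a ^ k ∈ H ⊔ Subgroup.zpowers a := fun k =>
        Subgroup.mem_sup_right ⟨(k : ℤ), by simp⟩
      refine Finite.of_surjective (fun i : Fin n => (QuotientGroup.mk
        (⟨a ^ (i : ℕ), hak i⟩ : ↥(H ⊔ Subgroup.zpowers a)) : ↥(H ⊔ Subgroup.zpowers a) ⧸ _)) ?_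
      intro q
      obtain ⟨⟨x, hx⟩, rfl⟩ := QuotientGroup.mk_surjective q
      obtain ⟨h, hh, k, rfl⟩ := hmem x hx
      have hk := Int.emod_nonneg k (by exact_mod_cast hn.ne' : (n : ℤ) ≠ 0)
      have hk2 := Int.emod_lt_of_pos k (by exact_mod_cast hn : (0 : ℤ) < n)
      refine ⟨⟨(k % n).toNat, by omega⟩, ?_⟩
      refine QuotientGroup.eq.2 ?_
      rw [Subgroup.mem_subgroupOf]
      show (a ^ (k % n).toNat)⁻¹ * (h * a ^ k) ∈ H
      have e1 : a ^ (k % n).toNat = a ^ (k % n) := by
        rw [← zpow_natCast, Int.toNat_of_nonneg hk]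
      have e2 : h * a ^ k = a ^ k * h := (Commute.zpow_right (ha h).symm k).eq
      rw [e1, e2, ← mul_assoc, ← zpow_neg, ← zpow_add]
      refine mul_mem ?_ hh
      have e3 : -(k % n) + k = n * (k / n) := by
        have := Int.emod_add_mul_ediv k n
        linarith
      rw [e3, zpow_mul, zpow_natCast]
      exact Subgroup.zpow_mem _ hna _
    rw [Subgroup.relIndex]
    exact Subgroup.index_ne_zero_of_finite
  · push Not at h
    let f : H × Multiplicative ℤ →* Q :=
      { toFun := fun p => (p.1 : Q) * a ^ (Multiplicative.toAdd p.2)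
        map_one' := by simp
        map_mul' := by
          rintro ⟨x, i⟩ ⟨y, j⟩
          show (x : Q) * y * a ^ (Multiplicative.toAdd i + Multiplicative.toAdd j) =
            (x : Q) * a ^ (Multiplicative.toAdd i) * ((y : Q) * a ^ (Multiplicative.toAdd j))
          have e2 : a ^ (Multiplicative.toAdd i) * (y : Q) = y * a ^ (Multiplicative.toAdd i) :=
            (Commute.zpow_left (ha y) _).eq
          rw [zpow_add, mul_assoc, mul_assoc, ← mul_assoc (a ^ _) (y : Q), e2, mul_assoc] }
    have hf : Function.Injective f := by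
      rw [injective_iff_map_eq_one]
      rintro ⟨x, i⟩ hx
      have hx : (x : Q) * a ^ (Multiplicative.toAdd i) = 1 := hx
      have h1 : a ^ (Multiplicative.toAdd i) ∈ H := by
        rw [← inv_eq_of_mul_eq_one_right hx]
        exact inv_mem x.2
      have h2 : Multiplicative.toAdd i = 0 := by
        by_contra hne
        have h3 : a ^ (Multiplicative.toAdd i).natAbs ∈ H := by
          rcases Int.natAbs_eq (Multiplicative.toAdd i) with h4 | h4
          · rw [← zpow_natCast, ← h4]
            exact h1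
          · rw [← zpow_natCast]
            rw [h4, zpow_neg] at h1
            exact (inv_mem_iff).1 h1
        exact h _ (Int.natAbs_pos.2 hne) h3
      have h3 : i = 1 := h2
      rw [h2, zpow_zero, mul_one] at hx
      rw [h3]
      exact Prod.ext (Subtype.ext hx) rfl
    have hr : H ⊔ Subgroup.zpowers a ≤ f.range := by
      intro x hx
      obtain ⟨y, hy, k, rfl⟩ := hmem x hx
      exact ⟨(⟨y, hy⟩, Multiplicative.ofAdd k), rfl⟩
    refine C_le hC.base hr ?_
    exact C_equiv hC.base (MonoidHom.ofInjective hf).symm (hC.base.prod _ _ hH hC.base.int)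

/-- **central products** -/
theorem cen_all (hC : ClosedE C) {Q : Type} [Group Q] (H : Subgroup Q) (hH : C H)
    (hgen : ∀ q : Q, ∃ h ∈ H, ∃ a : Q, (∀ g, a * g = g * a) ∧ q = h * a) : C Q := by
  classical
  have key : ∀ S : Finset Q, ∃ K : Subgroup Q, C K ∧ H ≤ K ∧ ∀ s ∈ S, s ∈ K := by
    intro S
    induction S using Finset.induction_on with
    | empty => exact ⟨H, hH, le_rfl, fun s hs => absurd hs (Finset.notMem_empty s)⟩
    | insert s S _ ih =>
      obtain ⟨K, hK, hHK, hS⟩ := ih
      obtain ⟨h, hh, a, ha, hs⟩ := hgen s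
      refine ⟨K ⊔ Subgroup.zpowers a, cen_zp hC K hK a ha, hHK.trans le_sup_left, ?_⟩
      intro t ht
      rcases Finset.mem_insert.1 ht with rfl | ht
      · rw [hs]
        exact mul_mem (Subgroup.mem_sup_left (hHK hh))
          (Subgroup.mem_sup_right (Subgroup.mem_zpowers a))
      · exact Subgroup.mem_sup_left (hS t ht)
  refine of_fg hC fun L hL => ?_
  obtain ⟨S, hS⟩ := (Group.fg_iff_subgroup_fg _).1 hL
  obtain ⟨K, hK, -, hSK⟩ := key S
  refine C_le hC.base (K := K) ?_ hK
  rw [← hS, Subgroup.closure_le]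
  exact fun s hs => hSK s hs

end Pool.Agent.U709.Ce
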