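import Pool.Agent.U709.CeA

/-!
# Invariant characters of the group generated by central edge groups
-/

set_option autoImplicit false

namespace Pool.Agent.U709.Ce

open SimpleGraph Subgroup
open Pool.Agent.Y110.FJ
open Pool.Agent.R941.FJ (C_equiv C_le C_cyc)
open Pool.Agent.N509.TK
open Pool.Agent.N509.TX (AcylF of_fg C_stab)
open Pool.Agent.N431.CE (Es mem_Es)
open Pool.Agent.U385.FJ (Fm toTq)

variable {G V : Type} [Group G] [MulAction G V] {T : SimpleGraph V} {R : V → Subgroup G}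

/-- **invariant characters**, for groups generated by vertex stabilizers -/
theorem sep (hT : T.IsTree) (hact : ∀ (g : G) (u v : V), T.Adj u v → T.Adj (g • u) (g • v))
    (hR : Fm T R) (hcen : ∀ v, ∀ x ∈ R v, ∀ g : G, g • v = v → g * x = x * g)
    (hgen : (⨆ v : V, MulAction.stabilizer G v) = ⊤) {w : V} {x : G} (hx : x ∈ R w) (hx1 : x ≠ 1) :
    ∃ φ : G → EE, PHom (⨆ v, R v) φ ∧ (∀ g : G, ∀ m ∈ ⨆ v, R v, φ (g * m * g⁻¹) = φ m) ∧
      φ x ≠ 1 := by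
  classical
  -- a fundamental domain for `G`
  have htop : (⨆ v : V, Sb (⊤ : Subgroup G) v) = ⊤ := by
    rw [eq_top_iff]
    intro y _
    have h1 : y ∈ ⨆ v : V, MulAction.stabilizer G v := by
      rw [hgen]
      exact Subgroup.mem_top _
    have h2 : (⨆ v : V, MulAction.stabilizer G v) ≤ ⨆ v : V, Sb (⊤ : Subgroup G) v :=
      iSup_mono fun v a ha => ⟨ha, Subgroup.mem_top _⟩
    exact h2 h1
  obtain ⟨S0, hS0⟩ := Tv.exists (R := fun v => Sb (⊤ : Subgroup G) v) hT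
  have hq0 := Tq.of_Sb hT hact (⊤ : Subgroup G) hS0
  obtain ⟨r0, s0, hd0⟩ := Gd.ex hT hact (⊤ : Subgroup G) (fun _ _ => (1 : EE))
    (fun v a _ b _ => by simp) (fun _ _ _ _ _ _ => rfl) hq0
  have hRc : ∀ v, ∀ a ∈ R v, ∀ b ∈ R v, a * b = b * a := fun v a ha b hb =>
    hcen v b hb a (hR.fix v a ha)
  -- a compatible family of characters
  obtain ⟨y, hy⟩ : ∃ y, y = (s0 w)⁻¹ * x * s0 w := ⟨_, rfl⟩
  have hyR : y ∈ R (r0 w) := by
    have h1 := hR.eqv (s0 w)⁻¹ w x hx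
    rw [hd0.inv_s, inv_inv] at h1
    rw [hy]
    exact h1
  have hy1 : y ≠ 1 := by
    intro h
    apply hx1
    rw [hy] at h
    have h2 : x = s0 w * ((s0 w)⁻¹ * x * s0 w) * (s0 w)⁻¹ := by group
    rw [h2, h]
    group
  have hcomm : ∀ v, ⁅R v, R v⁆ = ⊥ := by
    intro v
    rw [Subgroup.commutator_eq_bot_iff_le_centralizer]
    intro a ha
    rw [Subgroup.mem_centralizer_iff]
    intro b hb
    exact hRc v b hb a ha
  obtain ⟨f0, hf0, hf0y⟩ := sep_char (R (r0 w)) hyR (by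
    rw [hcomm]
    exact fun h => hy1 (Subgroup.mem_bot.1 h))
  have hEH : EH T R := by
    intro v u _ a _ _ h
    rw [hcomm] at h
    exact Subgroup.mem_bot.1 h
  obtain ⟨χ, hχ, hχo, hχc⟩ := exists_fam hT hEH (r0 w) f0 hf0
  -- the transported family
  obtain ⟨ψ, hψ⟩ : ∃ ψ : V → G → EE, ψ = fun v a => χ (r0 v) ((s0 v)⁻¹ * a * s0 v) := ⟨_, rfl⟩
  have hψe : ∀ v a, ψ v a = χ (r0 v) ((s0 v)⁻¹ * a * s0 v) := fun v a => by rw [hψ]
  have hcj : ∀ v, ∀ a ∈ R v, (s0 v)⁻¹ * a * s0 v ∈ R (r0 v) := by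
    intro v a ha
    have h1 := hR.eqv (s0 v)⁻¹ v a ha
    rwa [hd0.inv_s, inv_inv] at h1
  have hψp : ∀ v, PHom (R v) (ψ v) := by
    intro v a ha b hb
    rw [hψe, hψe, hψe, ← hχ (r0 v) _ (hcj v a ha) _ (hcj v b hb)]
    congr 1
    group
  have hψc : ∀ u v, T.Adj u v → ∀ a ∈ R u, a ∈ R v → ψ u a = ψ v a := by
    intro u v huv a hau hav
    obtain ⟨h1, k, hk, l, hl, heq⟩ := hd0.dec hact huv
    rw [hψe, hψe]
    have hb := hcj u a hau
    have hc := hcj v a hav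
    obtain ⟨b, hbd⟩ : ∃ b, b = (s0 u)⁻¹ * a * s0 u := ⟨_, rfl⟩
    obtain ⟨c, hcd⟩ : ∃ c, c = (s0 v)⁻¹ * a * s0 v := ⟨_, rfl⟩
    rw [← hbd] at hb
    rw [← hcd] at hc
    rw [← hbd, ← hcd]
    have hsv : s0 v = s0 u * (k * l) := by
      rw [← heq]
      group
    have hcb : c = l⁻¹ * (k⁻¹ * b * k) * l := by
      rw [hcd, hbd, hsv]
      group
    have e1 : k⁻¹ * b * k = b := by
      have h3 := hcen _ b hb k hk.1
      have h4 : k⁻¹ * b * k = k⁻¹ * (b * k) := by group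
      rw [h4, ← h3]
      group
    have e2 : l * c * l⁻¹ = c := by
      rw [hcen _ c hc l hl.1]
      group
    have e3 : c = b := by
      rw [e1] at hcb
      rw [← e2, hcb]
      group
    rw [e3]
    exact hχc _ _ h1 b hb (e3 ▸ hc)
  have hψg : ∀ (g : G) v, ∀ a ∈ R v, ψ (g • v) (g * a * g⁻¹) = ψ v a := by
    intro g v a ha
    have hg : g ∈ ⨆ v : V, Sb (⊤ : Subgroup G) v := by
      rw [htop]
      exact Subgroup.mem_top _
    rw [hψe, hψe, hd0.r_smul hg]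
    have hm := hd0.mm_mem hg v
    obtain ⟨m, hmd⟩ : ∃ m, m = mm s0 g v := ⟨_, rfl⟩
    rw [← hmd] at hm
    have e1 : (s0 (g • v))⁻¹ * (g * a * g⁻¹) * s0 (g • v) =
        m * ((s0 v)⁻¹ * a * s0 v) * m⁻¹ := by
      rw [hmd]
      unfold mm
      group
    rw [e1, hcen _ _ (hcj v a ha) m hm.1]
    congr 1
    group
  -- the character
  have hN := hR.normal
  obtain ⟨M, hMd⟩ : ∃ M : Subgroup G, M = ⨆ v, R v := ⟨_, rfl⟩
  have hSb : ∀ v, Sb M v = R v := fun v => by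
    rw [hMd]
    exact Pool.Agent.U385.FJ.Sb_eq hT hact hR v
  rw [← hMd] at hN ⊢
  obtain ⟨S1, hS1⟩ := Tv.exists (R := fun v => Sb M v) hT
  have hq1 := Tq.of_Sb hT hact M hS1
  obtain ⟨r1, s1, hd1⟩ := Gd.ex hT hact M ψ (fun v => by rw [hSb]; exact hψp v)
    (fun u v huv a hau hav => by
      rw [hSb] at hau hav
      exact hψc u v huv a hau hav) hq1
  obtain ⟨φ, hφ, hφe⟩ := hd1.main hT hact
  have hsup : (⨆ v : V, Sb M v) = M := by
    rw [hMd]
    congr 1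
    funext v
    rw [← hMd]
    exact hSb v
  rw [hsup] at hφ
  have hφv : ∀ v, ∀ a ∈ R v, φ a = ψ v a := by
    intro v a ha
    rw [hφe v a (by rw [hSb]; exact ha)]
    have h1 := hψg (s1 v)⁻¹ v a ha
    rw [hd1.inv_s, inv_inv] at h1
    exact h1
  refine ⟨φ, hφ, ?_, ?_⟩
  · intro g
    obtain ⟨X, hX⟩ : ∃ X : Subgroup G, ∀ m, m ∈ X ↔ m ∈ M ∧ φ (g * m * g⁻¹) = φ m :=
      ⟨{ carrier := {m | m ∈ M ∧ φ (g * m * g⁻¹) = φ m}
         one_mem' := ⟨one_mem _, by simp⟩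
         mul_mem' := by
           rintro a b ⟨ha, ha'⟩ ⟨hb, hb'⟩
           refine ⟨mul_mem ha hb, ?_⟩
           have h2 : g * (a * b) * g⁻¹ = (g * a * g⁻¹) * (g * b * g⁻¹) := by group
           rw [h2, hφ _ (hN.conj_mem a ha g) _ (hN.conj_mem b hb g), ha', hb', hφ a ha b hb]
         inv_mem' := by
           rintro a ⟨ha, ha'⟩
           refine ⟨inv_mem ha, ?_⟩
           have h2 : g * a⁻¹ * g⁻¹ = (g * a * g⁻¹)⁻¹ := by group
           rw [h2, hφ.inv (hN.conj_mem a ha g), ha', hφ.inv ha] }, fun _ => Iff.rfl⟩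
    have h1 : M ≤ X := by
      rw [hMd]
      refine iSup_le fun v a ha => (hX a).2 ⟨?_, ?_⟩
      · rw [hMd]
        exact le_iSup R v ha
      · rw [hφv (g • v) _ (hR.eqv g v a ha), hφv v a ha]
        exact hψg g v a ha
    exact fun m hm => ((hX m).1 (h1 hm)).2
  · rw [hφv w x hx, hψe, ← hy, hχo]
    exact hf0y

end Pool.Agent.U709.Ce
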