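import Pool.Agent.U709.CeB

/-!
# Graphs of groups with central edge groups
-/

set_option autoImplicit false

namespace Pool.Agent.U709.Ce

open SimpleGraph Subgroup
open Pool.Agent.Y110.FJ
open Pool.Agent.R941.FJ (C_equiv C_le C_cyc)
open Pool.Agent.N509.TK
open Pool.Agent.N509.TX (AcylF of_fg C_stab)
open Pool.Agent.N431.CE (Es mem_Es)
open Pool.Agent.U385.FJ (Fm toTq)
open Pool.Agent.U709.Rk (AcylR exists_R rel_free)

variable {C : ∀ (G : Type) [Group G], Prop}

/-- groups generated by a vertex stabilizer and the family -/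
theorem ck (hC : ClosedE C) {G V : Type} [Group G] [MulAction G V] {T : SimpleGraph V}
    {R : V → Subgroup G} (hT : T.IsTree)
    (hact : ∀ (g : G) (u v : V), T.Adj u v → T.Adj (g • u) (g • v))
    (hR : Fm T R) (hcen : ∀ v, ∀ x ∈ R v, ∀ g : G, g • v = v → g * x = x * g)
    (hE : ∀ u v, T.Adj u v → ∀ g : G, g • u = u → g • v = v → g ∈ R u)
    (hst : ∀ v : V, C (MulAction.stabilizer G v)) (v : V)
    (hgen : MulAction.stabilizer G v ⊔ (⨆ v, R v) = ⊤) : C G := by
  classical
  have hgen' : (⨆ v : V, MulAction.stabilizer G v) = ⊤ := by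
    rw [eq_top_iff, ← hgen]
    refine sup_le (le_iSup (fun v : V => MulAction.stabilizer G v) v) (iSup_le fun u => ?_)
    exact le_trans (fun x hx => hR.fix u x hx) (le_iSup (fun v : V => MulAction.stabilizer G v) u)
  have hsep := fun (w : V) (x : G) (hx : x ∈ R w) (hx1 : x ≠ 1) =>
    sep hT hact hR hcen hgen' hx hx1
  have hMn := hR.normal
  obtain ⟨M, hMd⟩ : ∃ M : Subgroup G, M = ⨆ v, R v := ⟨_, rfl⟩
  rw [← hMd] at hMn hsep hgen
  obtain ⟨N, hN⟩ : ∃ N : Subgroup G, ∀ m, m ∈ N ↔ m ∈ M ∧ ∀ φ : G → EE, PHom M φ →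
      (∀ g : G, ∀ a ∈ M, φ (g * a * g⁻¹) = φ a) → φ m = 1 :=
    ⟨{ carrier := {m | m ∈ M ∧ ∀ φ : G → EE, PHom M φ →
        (∀ g : G, ∀ a ∈ M, φ (g * a * g⁻¹) = φ a) → φ m = 1}
       one_mem' := ⟨one_mem _, fun φ h1 _ => h1.one⟩
       mul_mem' := by
         rintro a b ⟨ha, ha'⟩ ⟨hb, hb'⟩
         refine ⟨mul_mem ha hb, fun φ h1 h2 => ?_⟩
         rw [h1 a ha b hb, ha' φ h1 h2, hb' φ h1 h2, one_mul]
       inv_mem' := by
         rintro a ⟨ha, ha'⟩
         refine ⟨inv_mem ha, fun φ h1 h2 => ?_⟩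
         rw [h1.inv ha, ha' φ h1 h2, inv_one] }, fun _ => Iff.rfl⟩
  have hNn : N.Normal := by
    refine ⟨fun m hm g => ?_⟩
    obtain ⟨h1, h2⟩ := (hN m).1 hm
    refine (hN _).2 ⟨hMn.conj_mem m h1 g, fun φ h3 h4 => ?_⟩
    rw [h4 g m h1]
    exact h2 φ h3 h4
  have hNM : N ≤ M := fun m hm => ((hN m).1 hm).1
  have hNR : ∀ u, ∀ x ∈ R u, x ∈ N → x = 1 := by
    intro u x hx hxN
    by_contra hne
    obtain ⟨φ, h1, h2, h3⟩ := hsep u x hx hne
    exact h3 (((hN x).1 hxN).2 φ h1 h2)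
  have hcq : ∀ g : G, ∀ m ∈ M, g * m * g⁻¹ * m⁻¹ ∈ N := by
    intro g m hm
    have h0 := hMn.conj_mem m hm g
    refine (hN _).2 ⟨mul_mem h0 (inv_mem hm), fun φ h1 h2 => ?_⟩
    rw [h1 _ h0 _ (inv_mem hm), h2 g m hm, h1.inv hm, mul_inv_cancel]
  obtain ⟨π, hπ⟩ : ∃ π : G →* G ⧸ N, π = QuotientGroup.mk' N := ⟨_, rfl⟩
  have hπs : Function.Surjective π := by
    rw [hπ]
    exact QuotientGroup.mk'_surjective _
  have hπk : ∀ g : G, π g = 1 ↔ g ∈ N := by
    intro g
    rw [hπ]
    exact QuotientGroup.eq_one_iff g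
  have hQ : C (G ⧸ N) := by
    refine cen_all hC ((MulAction.stabilizer G v).map π) ?_ ?_
    · have hinj : Function.Injective (π.comp (MulAction.stabilizer G v).subtype) := by
        rw [injective_iff_map_eq_one]
        rintro ⟨g, hg⟩ h1
        have h2 : g ∈ N := (hπk g).1 h1
        have h3 : g ∈ ⨆ v, R v := by
          rw [← hMd]
          exact hNM h2
        have h4 : g ∈ R v := Pool.Agent.U385.FJ.stab hT hact hR h3 hg
        exact Subtype.ext (hNR v g h4 h2)
      refine C_le hC.base (K := (π.comp (MulAction.stabilizer G v).subtype).range) ?_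
        (C_equiv hC.base (MonoidHom.ofInjective hinj).symm (hst v))
      rintro _ ⟨g, hg, rfl⟩
      exact ⟨⟨g, hg⟩, rfl⟩
    · intro q
      obtain ⟨g, rfl⟩ := hπs q
      have hg : g ∈ MulAction.stabilizer G v ⊔ M := by
        rw [hgen]
        exact Subgroup.mem_top _
      obtain ⟨h, hh, m, hm, rfl⟩ := Subgroup.mem_sup_of_normal_right.1 hg
      refine ⟨π h, ⟨h, hh, rfl⟩, π m, fun q => ?_, map_mul π h m⟩
      obtain ⟨k, rfl⟩ := hπs q
      have h1 := (hπk _).2 (hcq k m hm)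
      rw [map_mul, map_mul, map_mul, map_inv, map_inv] at h1
      have h2 : π k * π m * (π k)⁻¹ = π m := mul_inv_eq_one.1 h1
      exact (mul_inv_eq_iff_eq_mul.1 h2).symm
  refine edges hC hT hact hst fun u w huw => ⟨G ⧸ N, inferInstance, π, hQ, fun g hu hw hg => ?_⟩
  exact hNR u g (hE u w huw g hu hw) ((hπk g).1 hg)

/-- the data -/
structure CAct (C : ∀ (G : Type) [Group G], Prop) (G : Type) {V : Type} [Group G] [MulAction G V]
    (T : SimpleGraph V) : Prop where
  tree : T.IsTree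
  act : ∀ (g : G) (u v : V), T.Adj u v → T.Adj (g • u) (g • v)
  inv : ∀ (g : G) (u v : V), T.Adj u v → ¬ (g • u = v ∧ g • v = u)
  st : ∀ v : V, C (MulAction.stabilizer G v)
  cen : ∀ u v, T.Adj u v → ∀ c ∈ Es G u v, ∀ g : G, g • u = u → g * c = c * g

variable {G V : Type} [Group G] [MulAction G V] {T : SimpleGraph V}

theorem CAct.sub (hC : ClosedE C) (h : CAct C G T) (H : Subgroup G) : CAct C H T where
  tree := h.tree
  act g u v huv := h.act g u v huv
  inv g u v huv := h.inv g u v huv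
  st v := C_stab hC H v (h.st v)
  cen u v huv c hc g hg := Subtype.ext (h.cen u v huv c hc g hg)

theorem CAct.fg (hC : ClosedE C) (hM : ∀ (G : Type) [Group G], derivedSeries G 2 = ⊥ → C G)
    (hA : AcylR C) (h : CAct C G T) (hfg : Group.FG G) : C G := by
  classical
  obtain ⟨R, hFm, hER, hRd⟩ := exists_R (G := G) h.act
  have hcen : ∀ v, ∀ x ∈ R v, ∀ g : G, g • v = v → g * x = x * g := by
    intro v
    obtain ⟨X, hX⟩ : ∃ X : Subgroup G, ∀ x, x ∈ X ↔ ∀ g : G, g • v = v → g * x = x * g :=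
      ⟨Subgroup.centralizer {g : G | g • v = v}, fun x => Subgroup.mem_centralizer_iff⟩
    have h1 : R v ≤ X := by
      rw [hRd]
      exact iSup_le fun u c hc => (hX c).2 fun g hg => h.cen v u u.2 c hc g hg
    exact fun x hx => (hX x).1 (h1 hx)
  refine rel_free hC hA hfg h.tree h.act h.inv hFm ?_ ?_ ?_
  · intro u v huv g hu hv
    exact hER u v huv ⟨hu, hv⟩
  · intro v _
    obtain ⟨K, hK⟩ : ∃ K : Subgroup G, K = MulAction.stabilizer G v ⊔ ⨆ v, R v := ⟨_, rfl⟩
    rw [← hK]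
    refine ck (G := K) (T := T) (R := fun w => (R w).subgroupOf K) hC h.tree
      (fun g u v huv => h.act g u v huv) ?_ ?_ ?_ (fun w => C_stab hC K w (h.st w)) v ?_
    · refine ⟨fun w r hr => hFm.fix w r hr, fun g w r hr => ?_, fun u w huw r hr hrw => ?_⟩
      · exact hFm.eqv (g : G) w r hr
      · exact hFm.loc u w huw r hr hrw
    · intro w x hx g hg
      exact Subtype.ext (hcen w x hx g hg)
    · intro u w huw g hu hw
      exact hER u w huw ⟨hu, hw⟩
    · obtain ⟨Y, hY⟩ : ∃ Y : Subgroup K, Y = MulAction.stabilizer K v ⊔ ⨆ w, (R w).subgroupOf K :=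
        ⟨_, rfl⟩
      rw [← hY]
      have hle : K ≤ Y.map K.subtype := by
        nth_rw 1 [hK]
        refine sup_le ?_ (iSup_le fun w => ?_)
        · intro x hx
          have hxK : x ∈ K := by
            rw [hK]
            exact Subgroup.mem_sup_left hx
          refine ⟨⟨x, hxK⟩, ?_, rfl⟩
          rw [hY]
          exact Subgroup.mem_sup_left hx
        · intro x hx
          have hxK : x ∈ K := by
            rw [hK]
            exact Subgroup.mem_sup_right (le_iSup R w hx)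
          refine ⟨⟨x, hxK⟩, ?_, rfl⟩
          rw [hY]
          exact Subgroup.mem_sup_right (le_iSup (fun w => (R w).subgroupOf K) w hx)
      rw [eq_top_iff]
      intro x _
      obtain ⟨y, hy, hyx⟩ := hle x.2
      have : y = x := Subtype.ext hyx
      rwa [← this]
  · intro L hL hst
    refine ab_tree hC hM (G := L) (T := T) h.tree (fun g u v huv => h.act g u v huv) ?_
    intro v x y hx hy
    exact Subtype.ext (hcen v _ (hst v y y.2 hy) x hx)

/-- **central edge groups** -/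
theorem CAct.main (hC : ClosedE C) (hM : ∀ (G : Type) [Group G], derivedSeries G 2 = ⊥ → C G)
    (hA : AcylR C) (h : CAct C G T) : C G :=
  of_fg hC fun H hfg => CAct.fg hC hM hA (h.sub hC H) hfg

end Pool.Agent.U709.Ce
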