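import Pool.Agent.U709.RmG

/-!
# Relatively malnormal subgroups, levels: definitions
-/

set_option autoImplicit false

namespace Pool.Agent.U709.Rm

open Pool.Agent.Y110.FJ
open Pool.Agent.N509.TK (LR)
open Pool.Agent.N509.TX (AcylF)
open Pool.Agent.N431.CE (Es)
open Pool.Agent.Helper705_SA (IsAmalgam)

/-- the set `S` has at most `n` elements -/
def AtMost {X : Type} (n : ℕ) (S : Set X) : Prop := ∀ F : Finset X, (∀ g ∈ F, g ∈ S) → F.card ≤ n

/-- `E ≤ M ≤ B` are subgroups such that `E ∩ b E b⁻¹` has at most `n` elements for the elements `b` of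
`B` which are not in `M` -/
def RelMal {G : Type} [Group G] (n : ℕ) (E M B : Subgroup G) : Prop :=
  E ≤ M ∧ M ≤ B ∧ ∀ b ∈ B, b ∉ M → AtMost n {g | g ∈ E ∧ b⁻¹ * g * b ∈ E}

/-- equivariant levels `l v a` of the ends `v` of the edges from `v` to `a`: the levels of the two ends of
an edge are different; equivalent edges at a vertex have the same level, and if this vertex is
their upper end, they are in one orbit -/
structure Levels (G : Type) {V : Type} [Group G] [MulAction G V] (T : SimpleGraph V)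
    (r : V → V → V → Prop) (l : V → V → ℕ) : Prop where
  inv : ∀ (g : G) v a, T.Adj v a → l (g • v) (g • a) = l v a
  ne : ∀ v a, T.Adj v a → l v a ≠ l a v
  eq : ∀ v a b, T.Adj v a → T.Adj v b → r v a b → l v a = l v b
  one : ∀ v a b, T.Adj v a → T.Adj v b → l a v < l v a → l b v < l v b → r v a b →
    ∃ g : G, g • v = v ∧ g • a = b

variable {C : ∀ (G : Type) [Group G], Prop}

theorem lev_tree (hC : ClosedE C) (hA : AcylF C) {G V : Type} [Group G] [MulAction G V]
    {T : SimpleGraph V} (hT : T.IsTree)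
    (hact : ∀ (g : G) (u v : V), T.Adj u v → T.Adj (g • u) (g • v))
    (hV : ∀ v : V, C ↥(MulAction.stabilizer G v)) {r : V → V → V → Prop} (hr : LR G T r)
    {n : ℕ} (hi : ∀ v a b, T.Adj v a → T.Adj v b → ¬ r v a b →
      AtMost n {g : G | g • v = v ∧ g • a = a ∧ g • b = b})
    {l : V → V → ℕ} (hl : Levels G T r l)
    (hvis : ∀ v a, T.Adj v a → l a v < l v a → ∀ M : Subgroup G,
      (∀ g, g ∈ M ↔ g • v = v ∧ r v a (g • a)) → GenVis C (Es G v a) M) : C G :=
  lev_r hC hA hT hact hV hr n (fun v a b ha hb h F hF => hi v a b ha hb h F hF) l hl.inv hl.ne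
    hl.eq hl.one hvis

theorem rel_amalgam (hC : ClosedE C) (hA : AcylF C) {G : Type} [Group G] {A B : Subgroup G}
    (h : IsAmalgam A B) (hcA : C A) (hcB : C B) {n : ℕ} {M : Subgroup G}
    (hm : RelMal n (A ⊓ B) M B) (hvis : GenVis C (A ⊓ B) M) : C G :=
  rm_amalgam hC hA A B h hcA hcB M hm.1 hm.2.1 n (fun b hb hbM F hF => hm.2.2 b hb hbM F hF) hvis

theorem rel_hnn (hC : ClosedE C) (hA : AcylF C) {H : Type} [Group H] {A B : Subgroup H}
    (φ : A ≃* B) (hH : C H) {n : ℕ} {M : Subgroup H} (hm : RelMal n B M ⊤)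
    (hs : ∀ h : H, AtMost n {g | g ∈ B ∧ h⁻¹ * g * h ∈ A}) (hvis : GenVis C B M) :
    C (HNNExtension H A B φ) :=
  rm_hnn hC hA A B φ hH M hm.1 n (fun h hM F hF => hm.2.2 h (Subgroup.mem_top h) hM F hF)
    (fun h F hF => hs h F hF) hvis

end Pool.Agent.U709.Rm
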