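import Pool.Agent.U709.CeC
import Pool.Agent.U709.RmH

/-!
# Edge groups which are central in relatively malnormal subgroups of the vertex groups
-/

set_option autoImplicit false

namespace Pool.Agent.U709.Ce

open SimpleGraph Subgroup
open Pool.Agent.Y110.FJ
open Pool.Agent.R941.FJ (C_equiv C_le C_cyc)
open Pool.Agent.N509.TK
open Pool.Agent.N509.TX (AcylF of_fg C_stab)
open Pool.Agent.N431.CE (Es mem_Es cylF)
open Pool.Agent.U709.Rk (AcylR)
open Pool.Agent.U709.Rm (AtMost)

variable {C : ∀ (G : Type) [Group G], Prop}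
variable {G V : Type} [Group G] [MulAction G V] {T : SimpleGraph V} {r : V → V → V → Prop}

/-- **relatively central edge groups** -/
theorem rel_central (hC : ClosedE C) (hM : ∀ (G : Type) [Group G], derivedSeries G 2 = ⊥ → C G)
    (hA : AcylR C) (hT : T.IsTree)
    (hact : ∀ (g : G) (u v : V), T.Adj u v → T.Adj (g • u) (g • v))
    (hinv : ∀ (g : G) (u v : V), T.Adj u v → ¬ (g • u = v ∧ g • v = u))
    (hV : ∀ v : V, C ↥(MulAction.stabilizer G v)) (hr : LR G T r) (n : ℕ)
    (hint : ∀ v a b, T.Adj v a → T.Adj v b → ¬ r v a b →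
      AtMost n {g : G | g • v = v ∧ g • a = a ∧ g • b = b})
    (hcen : ∀ v a, T.Adj v a → ∀ c ∈ Es G v a, ∀ g : G, g • v = v → r v a (g • a) →
      g * c = c * g) : C G := by
  classical
  refine cylF hC (hA.acylF hC) hT hact hr n (fun v a b ha hb hab F hF => hint v a b ha hb hab F hF)
    hV fun y K hKP => ?_
  let _ : MulAction K {v : V | Mem y v} :=
    { smul := fun g v => ⟨(g : G) • (v : V), (hKP g g.2).mem v.2⟩
      one_smul := fun v => Subtype.ext (one_smul G (v : V))
      mul_smul := fun g h v => Subtype.ext (mul_smul (g : G) (h : G) (v : V)) }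
  have htree : (T.induce {v : V | Mem y v}).IsTree := by
    refine ⟨?_, hT.isAcyclic.induce _⟩
    obtain ⟨⟨⟨o, a⟩, h⟩, hy⟩ := Quotient.exists_rep y
    have : Nonempty {v : V | Mem y v} := ⟨⟨o, a, h, hy⟩⟩
    refine ⟨fun v u => ?_⟩
    obtain ⟨p, hp, -⟩ := hT.existsUnique_path (v : V) (u : V)
    exact ⟨p.induce _ (path_mem hT hr v.2 u.2 p hp)⟩
  have hval : ∀ (g : K) (v : {v : V | Mem y v}), ((g • v : {v : V | Mem y v}) : V) =
      (g : G) • (v : V) := fun _ _ => rfl
  refine CAct.main hC hM hA (G := K) (T := T.induce {v : V | Mem y v}) ⟨htree, ?_, ?_, ?_, ?_⟩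
  · intro g u v huv
    exact hact (g : G) u v huv
  · rintro g u v huv ⟨h1, h2⟩
    exact hinv (g : G) u v huv ⟨congrArg Subtype.val h1, congrArg Subtype.val h2⟩
  · intro v
    refine hC.base.of_injective _ _ (((K.subtype).comp (Subgroup.subtype
      (MulAction.stabilizer K v))).codRestrict (MulAction.stabilizer G (v : V)) ?_) ?_ (hV (v : V))
    · rintro ⟨g, hg⟩
      exact congrArg Subtype.val (show g • v = v from hg)
    · intro a b hab
      exact Subtype.ext (Subtype.ext (congrArg (fun x : MulAction.stabilizer G (v : V) => (x : G)) hab))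
  · intro u v huv c hc g hg
    have huv' : T.Adj (u : V) (v : V) := huv
    have hgu : (g : G) • (u : V) = u := congrArg Subtype.val hg
    have hcG : (c : G) ∈ Es G (u : V) (v : V) :=
      ⟨congrArg Subtype.val (show c • u = u from hc.1), congrArg Subtype.val (show c • v = v from hc.2)⟩
    have h1 : cy r huv' = y := adj_cy hT hr u.2 v.2 huv'
    have h2 := hKP (g : G) g.2 _ _ huv' h1
    have h3 : T.Adj (u : V) ((g : G) • (v : V)) := by
      have := hact (g : G) _ _ huv'
      rwa [hgu] at this
    have h4 : cy r h3 = y := by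
      rw [← cy_congr (hact (g : G) _ _ huv') h3 hgu rfl]
      exact h2
    have h5 : r (u : V) (v : V) ((g : G) • (v : V)) := gl hT hr huv' h3 (h1.trans h4.symm)
    exact Subtype.ext (hcen _ _ huv' _ hcG (g : G) hgu h5)

end Pool.Agent.U709.Ce
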