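import Pool.Agent.U709.RkG

/-!
# HNN extensions over cyclic groups
-/

set_option autoImplicit false

namespace Pool.Agent.U709.Rk

open SimpleGraph Subgroup
open scoped Pointwise
open Pool.Agent.Y110.FJ
open Pool.Agent.R941.FJ (C_equiv C_le C_cyc)
open Pool.Agent.N431.CE (Es mem_Es Es_comm Es_smul)
open Pool.Agent.Helper705_SA (stab_coset)
open Pool.Agent.U709.Cy (C_conj)
open Pool.Agent.Helper270.HNN
open HNNExtension (of t)

variable {C : ∀ (G : Type) [Group G], Prop}

theorem Nm.zpow {G : Type} [Group G] {g c : G} (h : Nm g c) {k : ℤ} (hk : k ≠ 0) : Nm g (c ^ k) := by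
  intro p q hp hq hpq
  rw [← zpow_mul, ← zpow_mul] at hpq
  rcases h (k * p) (k * q) (mul_ne_zero hk hp) (mul_ne_zero hk hq) hpq with h1 | h1
  · left
    rw [← conj_zpow, h1]
  · right
    rw [← conj_zpow, h1, inv_zpow]

theorem Nm.conj {G : Type} [Group G] {g c : G} (h : Nm g c) (k : G) :
    Nm (k * g * k⁻¹) (k * c * k⁻¹) := by
  intro p q hp hq hpq
  have h1 : g * c ^ p * g⁻¹ = c ^ q := by
    rw [conj_zpow, conj_zpow] at hpq
    have h2 : k * g * k⁻¹ * (k * c ^ p * k⁻¹) * (k * g * k⁻¹)⁻¹ = k * (g * c ^ p * g⁻¹) * k⁻¹ := by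
      group
    rw [h2] at hpq
    exact mul_left_cancel (mul_right_cancel hpq)
  have h3 : k * g * k⁻¹ * (k * c * k⁻¹) * (k * g * k⁻¹)⁻¹ = k * (g * c * g⁻¹) * k⁻¹ := by group
  rcases h p q hp hq h1 with h4 | h4
  · left
    rw [h3, h4]
  · right
    rw [h3, h4]
    group

theorem Nm.map {G H : Type} [Group G] [Group H] (f : G →* H) (hf : Function.Injective f) {g c : G}
    (h : Nm g c) : Nm (f g) (f c) := by
  intro p q hp hq hpq
  rw [← map_zpow, ← map_zpow, ← map_inv, ← map_mul, ← map_mul] at hpq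
  rcases h p q hp hq (hf hpq) with h1 | h1
  · left
    rw [← map_inv, ← map_mul, ← map_mul, h1]
  · right
    rw [← map_inv, ← map_mul, ← map_mul, h1, map_inv]

variable {G : Type} [Group G] {A B : Subgroup G} {φ : A ≃* B}

theorem hnn_st (g : HNNExtension G A B φ) :
    MulAction.stabilizer (HNNExtension G A B φ) (vt g : Vert φ) =
      (HNNExtension.of.range : Subgroup (HNNExtension G A B φ)).map (MulAut.conj g).toMonoidHom :=
  stab_coset (HNNExtension.of.range : Subgroup (HNNExtension G A B φ)) g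

theorem hnn_C (hC : ClosedE C) (hG : C G) (v : Vert φ) :
    C (MulAction.stabilizer (HNNExtension G A B φ) v) := by
  obtain ⟨g, rfl⟩ := exists_vt v
  rw [hnn_st]
  let e : G ≃* (HNNExtension.of.range : Subgroup (HNNExtension G A B φ)) :=
    MonoidHom.ofInjective (HNNExtension.of_injective φ)
  exact C_conj hC g (hC.base.of_injective _ _ e.symm.toMonoidHom e.symm.injective hG)

theorem map_zp {G H : Type} [Group G] [Group H] (f : G →* H) {A : Subgroup G} {a : G}
    (ha : A = Subgroup.zpowers a) : A.map f = Subgroup.zpowers (f a) := by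
  rw [ha, MonoidHom.map_zpowers]

/-- the edge groups -/
theorem hnn_es (a : A) (ha : A = Subgroup.zpowers (a : G)) (g : HNNExtension G A B φ) :
    Es (HNNExtension G A B φ) (vt (g * t) : Vert φ) (vt g) =
      Subgroup.zpowers ((g * t) * of (a : G) * (g * t)⁻¹) := by
  have h2 : (MulAction.stabilizer (HNNExtension G A B φ) (vt g : Vert φ)) =
      (MulAction.stabilizer (HNNExtension G A B φ) (vt HNNExtension.t⁻¹ : Vert φ)).map
        (MulAut.conj (g * HNNExtension.t)).toMonoidHom := by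
    rw [hnn_st, hnn_st, Subgroup.map_map]
    congr 1
    refine MonoidHom.ext fun x => ?_
    simp [MulAut.conj_apply, mul_assoc]
  have h3 : (MulAction.stabilizer (HNNExtension G A B φ) (vt (g * HNNExtension.t) : Vert φ)) =
      (MulAction.stabilizer (HNNExtension G A B φ) (vt 1 : Vert φ)).map
        (MulAut.conj (g * HNNExtension.t)).toMonoidHom := by
    rw [hnn_st, hnn_st, Subgroup.map_map]
    congr 1
    refine MonoidHom.ext fun x => ?_
    simp [MulAut.conj_apply, mul_assoc]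
  have h1 : Es (HNNExtension G A B φ) (vt (g * t) : Vert φ) (vt g) =
      (A.map (HNNExtension.of : G →* HNNExtension G A B φ)).map
        (MulAut.conj (g * HNNExtension.t)).toMonoidHom := by
    show MulAction.stabilizer _ _ ⊓ MulAction.stabilizer _ _ = _
    rw [h2, h3, ← Subgroup.map_inf _ _ _ (MulAut.conj _).injective, stab_edge]
  have h4 : A.map (HNNExtension.of : G →* HNNExtension G A B φ) =
      Subgroup.zpowers (of (a : G) : HNNExtension G A B φ) := map_zp _ ha
  rw [h1, h4, MonoidHom.map_zpowers]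
  rfl

/-- the edge groups at a vertex -/
theorem hnn_edge (a : A) (ha : A = Subgroup.zpowers (a : G)) {v u : Vert φ}
    (h : (graph φ).Adj v u) : ∃ (k : HNNExtension G A B φ) (x : G), v = vt k ∧
      (x = a ∨ x = φ a) ∧ Es (HNNExtension G A B φ) v u = Subgroup.zpowers (k * of x * k⁻¹) := by
  obtain ⟨g, ⟨rfl, rfl⟩ | ⟨rfl, rfl⟩⟩ := adj_iff.1 h
  · refine ⟨g, φ a, rfl, Or.inr rfl, ?_⟩
    rw [Es_comm, hnn_es a ha]
    congr 1
    have h1 : (t : HNNExtension G A B φ) * of (a : G) = of (φ a : G) * t := HNNExtension.t_mul_of a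
    have h2 : (g * t) * of (a : G) * (g * t)⁻¹ = g * (t * of (a : G)) * t⁻¹ * g⁻¹ := by group
    rw [h2, h1]
    group
  · exact ⟨g * t, a, rfl, Or.inl rfl, hnn_es a ha g⟩

theorem hnn_inv (g : HNNExtension G A B φ) (u v : Vert φ) (h : (graph φ).Adj u v) :
    ¬ (g • u = v ∧ g • v = u) := treeAct.noInv g u v h

theorem zpowers_b (a : A) (ha : A = Subgroup.zpowers (a : G)) : B = Subgroup.zpowers ((φ a : B) : G) := by
  apply le_antisymm
  · intro y hy
    obtain ⟨x, hx⟩ := φ.surjective ⟨y, hy⟩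
    have h1 : (x : G) ∈ Subgroup.zpowers (a : G) := ha ▸ x.2
    obtain ⟨k, hk⟩ := h1
    have hk' : (a : G) ^ k = x := hk
    have h2 : a ^ k = x := Subtype.ext (by rw [Subgroup.coe_zpow, hk'])
    refine ⟨k, ?_⟩
    have h3 : (φ a) ^ k = ⟨y, hy⟩ := by rw [← map_zpow, h2, hx]
    have h4 := congrArg (fun z : B => (z : G)) h3
    simpa using h4
  · rw [Subgroup.zpowers_le]
    exact (φ a).2

theorem hnn_inf {x : G} {k : HNNExtension G A B φ}
    (h : ¬ IsOfFinOrder (k * of x * k⁻¹)) : ¬ IsOfFinOrder x := by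
  intro h1
  apply h
  obtain ⟨n, hn, h2⟩ := isOfFinOrder_iff_pow_eq_one.1 h1
  refine isOfFinOrder_iff_pow_eq_one.2 ⟨n, hn, ?_⟩
  rw [conj_pow, ← map_pow, h2, map_one, mul_one, mul_inv_cancel]

/-- **HNN extensions with balanced cyclic edge groups** -/
theorem hnn_bal (hC : ClosedE C) (hM : ∀ (G : Type) [Group G], derivedSeries G 2 = ⊥ → C G)
    (hAc : AcylR C) (hG : C G) (hE : IsCyclic A)
    (hb : ∀ x y : G, (A = Subgroup.zpowers x ∨ B = Subgroup.zpowers x) →
      (A = Subgroup.zpowers y ∨ B = Subgroup.zpowers y) → ¬ IsOfFinOrder x → ∀ (g : G) (p q : ℤ),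
        p ≠ 0 → q ≠ 0 → g * x ^ p * g⁻¹ = y ^ q → |p| = |q|) : C (HNNExtension G A B φ) := by
  obtain ⟨a, hgen⟩ := IsCyclic.exists_generator (α := A)
  have ha : A = Subgroup.zpowers (a : G) := by
    apply le_antisymm
    · intro z hz
      obtain ⟨k, hk⟩ := hgen ⟨z, hz⟩
      exact ⟨k, congrArg Subtype.val hk⟩
    · rw [Subgroup.zpowers_le]
      exact a.2
  have hgn : ∀ x : G, x = a ∨ x = φ a → A = Subgroup.zpowers x ∨ B = Subgroup.zpowers x := by
    rintro x (rfl | rfl)
    · exact Or.inl ha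
    · exact Or.inr (zpowers_b a ha)
  refine LB.main (T := graph φ) hC hM hAc ?_ isTree treeAct.adj hnn_inv ?_ (hnn_C hC hG)
  · intro v u u' hu hu' c d hc hd hco p q hp hq hcd
    obtain ⟨k, x, hk, hx, hE1⟩ := hnn_edge a ha hu
    obtain ⟨k', x', hk', hx', hE2⟩ := hnn_edge a ha hu'
    obtain ⟨y, hy⟩ := vt_eq_iff.1 (hk.symm.trans hk')
    rw [hE1] at hc
    rw [hE2] at hd
    have hdo : ¬ IsOfFinOrder d := (show Cm c d from ⟨p, q, hp, hq, hcd⟩).inf hco
    -- generators
    have key : ∀ (e f : HNNExtension G A B φ), Subgroup.zpowers e = Subgroup.zpowers f →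
        ¬ IsOfFinOrder f → e = f ∨ e = f⁻¹ := by
      intro e f hef hfo
      obtain ⟨i, hi⟩ : e ∈ Subgroup.zpowers f := hef ▸ Subgroup.mem_zpowers e
      obtain ⟨j, hj⟩ : f ∈ Subgroup.zpowers e := hef ▸ Subgroup.mem_zpowers f
      have hi' : f ^ i = e := hi
      have hj' : e ^ j = f := hj
      have h1 : f ^ (i * j) = f ^ (1 : ℤ) := by rw [zpow_mul, hi', hj', zpow_one]
      have h2 : i * j = 1 := injective_zpow_iff_not_isOfFinOrder.2 hfo h1
      rcases Int.isUnit_iff.1 (IsUnit.of_mul_eq_one j h2) with h3 | h3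
      · left
        rw [← hi', h3, zpow_one]
      · right
        rw [← hi', h3, zpow_neg, zpow_one]
    have hc1 : ∃ p' : ℤ, |p'| = |p| ∧ (k * of x * k⁻¹) ^ p' = c ^ p := by
      rcases key _ _ hc hco with h1 | h1
      · exact ⟨p, rfl, by rw [h1]⟩
      · exact ⟨-p, abs_neg p, by rw [h1, inv_zpow, zpow_neg, inv_inv]⟩
    have hd1 : ∃ q' : ℤ, |q'| = |q| ∧ (k' * of x' * k'⁻¹) ^ q' = d ^ q := by
      rcases key _ _ hd hdo with h1 | h1
      · exact ⟨q, rfl, by rw [h1]⟩
      · exact ⟨-q, abs_neg q, by rw [h1, inv_zpow, zpow_neg, inv_inv]⟩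
    obtain ⟨p', hp', hc2⟩ := hc1
    obtain ⟨q', hq', hd2⟩ := hd1
    have hp0 : p' ≠ 0 := by
      intro h0
      rw [h0, abs_zero] at hp'
      exact hp (abs_eq_zero.1 hp'.symm)
    have hq0 : q' ≠ 0 := by
      intro h0
      rw [h0, abs_zero] at hq'
      exact hq (abs_eq_zero.1 hq'.symm)
    rw [← hp', ← hq']
    have hxo : ¬ IsOfFinOrder x' := by
      refine hnn_inf (k := k') ?_
      intro h1
      apply hdo
      rcases key _ _ hd hdo with h2 | h2
      · rwa [h2] at h1
      · rw [h2] at h1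
        exact isOfFinOrder_inv_iff.1 h1
    have h5 : (k * of x * k⁻¹) ^ p' = (k' * of x' * k'⁻¹) ^ q' := by rw [hc2, hd2, hcd]
    rw [← hy, conj_zpow, conj_zpow] at h5
    have h6 : (of x : HNNExtension G A B φ) ^ p' = of y * of x' ^ q' * (of y)⁻¹ := by
      have h7 : k * (of x : HNNExtension G A B φ) ^ p' * k⁻¹ =
          k * (of y * of x' ^ q' * (of y)⁻¹) * k⁻¹ := by
        rw [h5]
        group
      exact mul_left_cancel (mul_right_cancel h7)
    have h8 : y * x' ^ q' * y⁻¹ = x ^ p' := by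
      apply HNNExtension.of_injective φ
      rw [map_mul, map_mul, map_inv, map_zpow, map_zpow, ← h6]
    exact (hb x' x (hgn x' hx') (hgn x hx) hxo y q' p' hq0 hp0 h8).symm
  · intro u v huv
    obtain ⟨k, x, -, -, hE1⟩ := hnn_edge a ha huv
    rw [hE1]
    infer_instance

/-- **HNN extensions whose cyclic edge groups are normalized by their commensurators** -/
theorem hnn_nm (hC : ClosedE C) (hS : ∀ (G : Type) [Group G], Group.IsSolvable G → C G)
    (hAc : AcylR C) (hG : C G) (hE : IsCyclic A)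
    (hb : ∀ x : G, (A = Subgroup.zpowers x ∨ B = Subgroup.zpowers x) → ¬ IsOfFinOrder x →
      ∀ g : G, Nm g x) : C (HNNExtension G A B φ) := by
  obtain ⟨a, hgen⟩ := IsCyclic.exists_generator (α := A)
  have ha : A = Subgroup.zpowers (a : G) := by
    apply le_antisymm
    · intro z hz
      obtain ⟨k, hk⟩ := hgen ⟨z, hz⟩
      exact ⟨k, congrArg Subtype.val hk⟩
    · rw [Subgroup.zpowers_le]
      exact a.2
  have hgn : ∀ x : G, x = a ∨ x = φ a → A = Subgroup.zpowers x ∨ B = Subgroup.zpowers x := by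
    rintro x (rfl | rfl)
    · exact Or.inl ha
    · exact Or.inr (zpowers_b a ha)
  refine NAct.main (T := graph φ) hC hS hAc ⟨isTree, treeAct.adj, hnn_inv, ?_, hnn_C hC hG, ?_⟩
  · intro u v huv
    obtain ⟨k, x, -, -, hE1⟩ := hnn_edge a ha huv
    rw [hE1]
    infer_instance
  · intro v u huv c hc hco g hg
    obtain ⟨k, x, hk, hx, hE1⟩ := hnn_edge a ha huv
    rw [hE1] at hc
    obtain ⟨i, hi⟩ := hc
    have hi' : (k * of x * k⁻¹) ^ i = c := hi
    have hi0 : i ≠ 0 := by
      rintro rfl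
      rw [zpow_zero] at hi'
      rw [← hi'] at hco
      exact hco IsOfFinOrder.one
    have hxo : ¬ IsOfFinOrder x := by
      refine hnn_inf (k := k) fun h1 => hco ?_
      rw [← hi']
      exact h1.zpow
    -- `g` is a conjugate of an element of `G`
    have hg' : g ∈ MulAction.stabilizer (HNNExtension G A B φ) (vt k : Vert φ) := hk ▸ hg
    rw [hnn_st] at hg'
    obtain ⟨_, ⟨z, rfl⟩, hz⟩ := hg'
    have hz' : k * of z * k⁻¹ = g := hz
    rw [← hz', ← hi']
    exact ((((hb x (hgn x hx) hxo z).map _ (HNNExtension.of_injective φ)).conj k).zpow hi0)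

end Pool.Agent.U709.Rk
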