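import Pool.Agent.U709.CeD
import Pool.Agent.U709.RkH

/-!
# Amalgamated products and HNN extensions with relatively central edge groups
-/

set_option autoImplicit false

namespace Pool.Agent.U709.Ce

open SimpleGraph
open scoped Pointwise
open Pool.Agent.Y110.FJ
open Pool.Agent.R941.FJ (C_equiv C_le C_cyc)
open Pool.Agent.N509.TK
open Pool.Agent.N509.TX (AcylF of_fg C_stab)
open Pool.Agent.N431.CE (Es mem_Es Es_comm)
open Pool.Agent.U709.Rk (AcylR hnn_st hnn_C hnn_inv)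
open Pool.Agent.U709.Rm (AtMost RelMal smul_inl_iff smul_inr_iff inl_eq_iff inr_eq_iff)
open Pool.Agent.U709.Vc (coset_treeAct)
open Pool.Agent.Helper705_SA (IsAmalgam cosetGraph cosetGraph_isTree stab_coset)
open Pool.Agent.U709.Cy (C_conj)

variable {C : ∀ (G : Type) [Group G], Prop}

section amalgam

variable {G : Type} [Group G] {A B : Subgroup G}

/-- edges at a vertex are equivalent if they differ by `M` or by `N` -/
def rab (A B M N : Subgroup G) (v a a' : (G ⧸ A) ⊕ (G ⧸ B)) : Prop :=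
  (∃ k : G, ∃ m ∈ M, v = Sum.inl (QuotientGroup.mk k) ∧
    a = Sum.inr (QuotientGroup.mk k) ∧ a' = Sum.inr (QuotientGroup.mk (k * m))) ∨
  ∃ k : G, ∃ m ∈ N, v = Sum.inr (QuotientGroup.mk k) ∧
    a = Sum.inl (QuotientGroup.mk k) ∧ a' = Sum.inl (QuotientGroup.mk (k * m))

theorem rab_LR {M N : Subgroup G} (hEM : A ⊓ B ≤ M) (hMA : M ≤ A) (hEN : A ⊓ B ≤ N) (hNB : N ≤ B) :
    LR G (cosetGraph A B) (rab A B M N) where
  refl := by
    rintro w a ⟨k, ⟨rfl, rfl⟩ | ⟨rfl, rfl⟩⟩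
    · exact Or.inl ⟨k, 1, one_mem _, rfl, rfl, by rw [mul_one]⟩
    · exact Or.inr ⟨k, 1, one_mem _, rfl, rfl, by rw [mul_one]⟩
  symm := by
    rintro w a b - - (⟨k, m, hm, rfl, rfl, rfl⟩ | ⟨k, m, hm, rfl, rfl, rfl⟩)
    · refine Or.inl ⟨k * m, m⁻¹, inv_mem hm, ?_, rfl, by rw [mul_inv_cancel_right]⟩
      rw [inl_eq_iff, inv_mul_cancel_left]
      exact hMA hm
    · refine Or.inr ⟨k * m, m⁻¹, inv_mem hm, ?_, rfl, by rw [mul_inv_cancel_right]⟩
      rw [inr_eq_iff, inv_mul_cancel_left]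
      exact hNB hm
  trans := by
    rintro w a b c - - - (⟨k, m, hm, rfl, rfl, rfl⟩ | ⟨k, m, hm, rfl, rfl, rfl⟩) h2
    · rcases h2 with ⟨k', m', hm', h3, h4, rfl⟩ | ⟨k', m', hm', h3, h4, rfl⟩
      · rw [inl_eq_iff] at h3
        rw [inr_eq_iff] at h4
        have h5 : (k * m)⁻¹ * k' ∈ M := by
          refine hEM ⟨?_, h4⟩
          have h6 : (k * m)⁻¹ * k' = m⁻¹ * (k⁻¹ * k') := by group
          rw [h6]
          exact A.mul_mem (A.inv_mem (hMA hm)) h3
        refine Or.inl ⟨k, m * ((k * m)⁻¹ * k') * m', mul_mem (mul_mem hm h5) hm', rfl, rfl, ?_⟩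
        congr 2
        group
      · exact absurd h3 (by simp)
    · rcases h2 with ⟨k', m', hm', h3, h4, rfl⟩ | ⟨k', m', hm', h3, h4, rfl⟩
      · exact absurd h3 (by simp)
      · rw [inr_eq_iff] at h3
        rw [inl_eq_iff] at h4
        have h5 : (k * m)⁻¹ * k' ∈ N := by
          refine hEN ⟨h4, ?_⟩
          have h6 : (k * m)⁻¹ * k' = m⁻¹ * (k⁻¹ * k') := by group
          rw [h6]
          exact B.mul_mem (B.inv_mem (hNB hm)) h3
        refine Or.inr ⟨k, m * ((k * m)⁻¹ * k') * m', mul_mem (mul_mem hm h5) hm', rfl, rfl, ?_⟩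
        congr 2
        group
  eqv := by
    rintro g w a b (⟨k, m, hm, rfl, rfl, rfl⟩ | ⟨k, m, hm, rfl, rfl, rfl⟩)
    · refine Or.inl ⟨g * k, m, hm, rfl, rfl, ?_⟩
      show Sum.inr (QuotientGroup.mk (g * (k * m)) : G ⧸ B) = _
      rw [mul_assoc]
    · refine Or.inr ⟨g * k, m, hm, rfl, rfl, ?_⟩
      show Sum.inl (QuotientGroup.mk (g * (k * m)) : G ⧸ A) = _
      rw [mul_assoc]

theorem conj_comm {k c g : G} (h : (k⁻¹ * g * k) * (k⁻¹ * c * k) = (k⁻¹ * c * k) * (k⁻¹ * g * k)) :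
    g * c = c * g := by
  have h1 : g * c = k * ((k⁻¹ * g * k) * (k⁻¹ * c * k)) * k⁻¹ := by group
  rw [h1, h]
  group

/-- **amalgamated products** -/
theorem am_central (hC : ClosedE C) (hM : ∀ (G : Type) [Group G], derivedSeries G 2 = ⊥ → C G)
    (hAc : AcylR C) (h : IsAmalgam A B) (hcA : C A) (hcB : C B) (M N : Subgroup G) (n : ℕ)
    (hmA : RelMal n (A ⊓ B) M A) (hmB : RelMal n (A ⊓ B) N B)
    (hzA : ∀ m ∈ M, ∀ e ∈ A ⊓ B, m * e = e * m) (hzB : ∀ m ∈ N, ∀ e ∈ A ⊓ B, m * e = e * m) :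
    C G := by
  classical
  obtain ⟨hEM, hMA, hmA⟩ := hmA
  obtain ⟨hEN, hNB, hmB⟩ := hmB
  have hsl : ∀ g : G, MulAction.stabilizer G (Sum.inl (QuotientGroup.mk g) : (G ⧸ A) ⊕ (G ⧸ B)) =
      A.map (MulAut.conj g).toMonoidHom := by
    intro g
    rw [← stab_coset]
    ext x
    rw [MulAction.mem_stabilizer_iff, MulAction.mem_stabilizer_iff]
    exact Sum.inl_injective.eq_iff (a := x • (QuotientGroup.mk g : G ⧸ A))
  have hsr : ∀ g : G, MulAction.stabilizer G (Sum.inr (QuotientGroup.mk g) : (G ⧸ A) ⊕ (G ⧸ B)) =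
      B.map (MulAut.conj g).toMonoidHom := by
    intro g
    rw [← stab_coset]
    ext x
    rw [MulAction.mem_stabilizer_iff, MulAction.mem_stabilizer_iff]
    exact Sum.inr_injective.eq_iff (a := x • (QuotientGroup.mk g : G ⧸ B))
  have hta := coset_treeAct h
  refine rel_central (T := cosetGraph A B) (r := rab A B M N) hC hM hAc (cosetGraph_isTree A B h)
    hta.adj hta.noInv ?_ (rab_LR hEM hMA hEN hNB) n ?_ ?_
  · rintro (v | v)
    · obtain ⟨g, rfl⟩ := QuotientGroup.mk_surjective v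
      rw [hsl]
      exact C_conj hC g hcA
    · obtain ⟨g, rfl⟩ := QuotientGroup.mk_surjective v
      rw [hsr]
      exact C_conj hC g hcB
  · rintro v a b ⟨k, ⟨rfl, rfl⟩ | ⟨rfl, rfl⟩⟩ hb hr F hF
    · obtain ⟨k', ⟨h1, rfl⟩ | ⟨-, h1⟩⟩ := hb
      · rw [inl_eq_iff] at h1
        have h1' : k⁻¹ * k' ∈ A := h1
        have h3 : k⁻¹ * k' ∉ M := by
          intro h4
          refine hr (Or.inl ⟨k, k⁻¹ * k', h4, rfl, rfl, ?_⟩)
          rw [mul_inv_cancel_left]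
        have h4 := hmA _ h1' h3 (F.image fun g => k⁻¹ * g * k) (by
          intro x hx
          obtain ⟨g, hg, rfl⟩ := Finset.mem_image.1 hx
          obtain ⟨e1, e2, e3⟩ := hF g hg
          rw [smul_inl_iff] at e1
          rw [smul_inr_iff] at e2 e3
          refine ⟨⟨e1, e2⟩, ?_⟩
          have h5 : (k⁻¹ * k')⁻¹ * (k⁻¹ * g * k) * (k⁻¹ * k') = k'⁻¹ * g * k' := by group
          refine ⟨?_, by rw [h5]; exact e3⟩
          exact A.mul_mem (A.mul_mem (A.inv_mem h1') e1) h1')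
        rwa [Finset.card_image_of_injective _ (fun x z hxz => by simpa using hxz)] at h4
      · exact absurd h1 (by simp)
    · obtain ⟨k', ⟨h1, -⟩ | ⟨rfl, h1⟩⟩ := hb
      · exact absurd h1 (by simp)
      · rw [inr_eq_iff] at h1
        have h1' : k⁻¹ * k' ∈ B := h1
        have h3 : k⁻¹ * k' ∉ N := by
          intro h4
          refine hr (Or.inr ⟨k, k⁻¹ * k', h4, rfl, rfl, ?_⟩)
          rw [mul_inv_cancel_left]
        have h4 := hmB _ h1' h3 (F.image fun g => k⁻¹ * g * k) (by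
          intro x hx
          obtain ⟨g, hg, rfl⟩ := Finset.mem_image.1 hx
          obtain ⟨e1, e2, e3⟩ := hF g hg
          rw [smul_inr_iff] at e1
          rw [smul_inl_iff] at e2 e3
          refine ⟨⟨e2, e1⟩, ?_⟩
          have h5 : (k⁻¹ * k')⁻¹ * (k⁻¹ * g * k) * (k⁻¹ * k') = k'⁻¹ * g * k' := by group
          refine ⟨by rw [h5]; exact e3, ?_⟩
          exact B.mul_mem (B.mul_mem (B.inv_mem h1') e1) h1')
        rwa [Finset.card_image_of_injective _ (fun x z hxz => by simpa using hxz)] at h4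
  · rintro v a ⟨k, ⟨rfl, rfl⟩ | ⟨rfl, rfl⟩⟩ c hc g hg hr
    · have hx : k⁻¹ * g * k ∈ A := smul_inl_iff.1 hg
      have he : k⁻¹ * c * k ∈ A ⊓ B := ⟨smul_inl_iff.1 hc.1, smul_inr_iff.1 hc.2⟩
      refine conj_comm (hzA _ ?_ _ he)
      rcases hr with ⟨k', m, hm, h3, h4, h5⟩ | ⟨k', m, hm, h3, -, -⟩
      · rw [inl_eq_iff] at h3
        rw [inr_eq_iff] at h4
        have h5 : (Sum.inr (QuotientGroup.mk (g * k)) : (G ⧸ A) ⊕ (G ⧸ B)) =
          Sum.inr (QuotientGroup.mk (k' * m)) := h5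
        rw [inr_eq_iff] at h5
        have h6 : k⁻¹ * k' ∈ M := hEM ⟨h3, h4⟩
        have h7 : (k⁻¹ * g * k)⁻¹ * ((k⁻¹ * k') * m) ∈ M := by
          refine hEM ⟨A.mul_mem (A.inv_mem hx) (A.mul_mem h3 (hMA hm)), ?_⟩
          have h8 : (k⁻¹ * g * k)⁻¹ * ((k⁻¹ * k') * m) = (g * k)⁻¹ * (k' * m) := by group
          rwa [h8]
        have h8 : k⁻¹ * g * k = ((k⁻¹ * k') * m) * ((k⁻¹ * g * k)⁻¹ * ((k⁻¹ * k') * m))⁻¹ := by group
        rw [h8]
        exact M.mul_mem (M.mul_mem h6 hm) (M.inv_mem h7)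
      · exact absurd h3 (by simp)
    · have hx : k⁻¹ * g * k ∈ B := smul_inr_iff.1 hg
      have he : k⁻¹ * c * k ∈ A ⊓ B := ⟨smul_inl_iff.1 hc.2, smul_inr_iff.1 hc.1⟩
      refine conj_comm (hzB _ ?_ _ he)
      rcases hr with ⟨k', m, hm, h3, -, -⟩ | ⟨k', m, hm, h3, h4, h5⟩
      · exact absurd h3 (by simp)
      · rw [inr_eq_iff] at h3
        rw [inl_eq_iff] at h4
        have h5 : (Sum.inl (QuotientGroup.mk (g * k)) : (G ⧸ A) ⊕ (G ⧸ B)) =
          Sum.inl (QuotientGroup.mk (k' * m)) := h5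
        rw [inl_eq_iff] at h5
        have h6 : k⁻¹ * k' ∈ N := hEN ⟨h4, h3⟩
        have h7 : (k⁻¹ * g * k)⁻¹ * ((k⁻¹ * k') * m) ∈ N := by
          refine hEN ⟨?_, B.mul_mem (B.inv_mem hx) (B.mul_mem h3 (hNB hm))⟩
          have h8 : (k⁻¹ * g * k)⁻¹ * ((k⁻¹ * k') * m) = (g * k)⁻¹ * (k' * m) := by group
          rwa [h8]
        have h8 : k⁻¹ * g * k = ((k⁻¹ * k') * m) * ((k⁻¹ * g * k)⁻¹ * ((k⁻¹ * k') * m))⁻¹ := by group
        rw [h8]
        exact N.mul_mem (N.mul_mem h6 hm) (N.inv_mem h7)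

end amalgam

section hnn

open Pool.Agent.Helper270.HNN
open HNNExtension (of t)

variable {G : Type} [Group G] {A B : Subgroup G} {φ : A ≃* B}

/-- elements of edge groups -/
theorem hnn_el {v u : Vert φ} (h : (graph φ).Adj v u) :
    ∃ k : HNNExtension G A B φ, v = vt k ∧ ∀ c ∈ Es (HNNExtension G A B φ) v u,
      ∃ x : G, (x ∈ A ∨ x ∈ B) ∧ c = k * of x * k⁻¹ := by
  have hes : ∀ g : HNNExtension G A B φ, Es (HNNExtension G A B φ) (vt (g * t) : Vert φ) (vt g) =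
      (A.map (HNNExtension.of : G →* HNNExtension G A B φ)).map
        (MulAut.conj (g * HNNExtension.t)).toMonoidHom := by
    intro g
    have h2 : (MulAction.stabilizer (HNNExtension G A B φ) (vt g : Vert φ)) =
        (MulAction.stabilizer (HNNExtension G A B φ) (vt HNNExtension.t⁻¹ : Vert φ)).map
          (MulAut.conj (g * HNNExtension.t)).toMonoidHom := by
      rw [hnn_st, hnn_st, Subgroup.map_map]
      congr 1
      refine MonoidHom.ext fun x => ?_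
      simp [MulAut.conj_apply, mul_assoc]
    have h3 : (MulAction.stabilizer (HNNExtension G A B φ) (vt (g * HNNExtension.t) : Vert φ)) =
        (MulAction.stabilizer (HNNExtension G A B φ) (vt 1 : Vert φ)).map
          (MulAut.conj (g * HNNExtension.t)).toMonoidHom := by
      rw [hnn_st, hnn_st, Subgroup.map_map]
      congr 1
      refine MonoidHom.ext fun x => ?_
      simp [MulAut.conj_apply, mul_assoc]
    show MulAction.stabilizer _ _ ⊓ MulAction.stabilizer _ _ = _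
    rw [h2, h3, ← Subgroup.map_inf _ _ _ (MulAut.conj _).injective, stab_edge]
  obtain ⟨g, ⟨rfl, rfl⟩ | ⟨rfl, rfl⟩⟩ := adj_iff.1 h
  · refine ⟨g, rfl, fun c hc => ?_⟩
    rw [Es_comm, hes] at hc
    obtain ⟨_, ⟨a, ha, rfl⟩, hc⟩ := hc
    have hc : (g * t) * of a * (g * t)⁻¹ = c := hc
    refine ⟨φ ⟨a, ha⟩, Or.inr (φ ⟨a, ha⟩).2, ?_⟩
    have h1 : (t : HNNExtension G A B φ) * of ((⟨a, ha⟩ : A) : G) = of (φ ⟨a, ha⟩ : G) * t :=
      HNNExtension.t_mul_of _
    have h2 : (g * t) * of a * (g * t)⁻¹ = g * (t * of a) * t⁻¹ * g⁻¹ := by group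
    rw [← hc, h2]
    have h3 : (t : HNNExtension G A B φ) * of a = of (φ ⟨a, ha⟩ : G) * t := h1
    rw [h3]
    group
  · refine ⟨g * t, rfl, fun c hc => ?_⟩
    rw [hes] at hc
    obtain ⟨_, ⟨a, ha, rfl⟩, hc⟩ := hc
    exact ⟨a, Or.inl ha, hc.symm⟩

/-- **HNN extensions along central subgroups** -/
theorem hnn_central (hC : ClosedE C) (hM : ∀ (G : Type) [Group G], derivedSeries G 2 = ⊥ → C G)
    (hAc : AcylR C) (hG : C G) (hA : ∀ x ∈ A, ∀ g : G, g * x = x * g)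
    (hB : ∀ x ∈ B, ∀ g : G, g * x = x * g) : C (HNNExtension G A B φ) := by
  refine CAct.main (T := graph φ) hC hM hAc ⟨isTree, treeAct.adj, hnn_inv, hnn_C hC hG, ?_⟩
  intro v u huv c hc g hg
  obtain ⟨k, hk, hel⟩ := hnn_el huv
  obtain ⟨x, hx, rfl⟩ := hel c hc
  have hg' : g ∈ MulAction.stabilizer (HNNExtension G A B φ) (vt k : Vert φ) := hk ▸ hg
  rw [hnn_st] at hg'
  obtain ⟨_, ⟨z, rfl⟩, hz⟩ := hg'
  have hz' : k * of z * k⁻¹ = g := hz
  have hzx : z * x = x * z := by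
    rcases hx with hx | hx
    · exact hA x hx z
    · exact hB x hx z
  rw [← hz']
  have h1 : (of z : HNNExtension G A B φ) * of x = of x * of z := by
    rw [← map_mul, hzx, map_mul]
  have h2 : k * of z * k⁻¹ * (k * of x * k⁻¹) = k * (of z * of x) * k⁻¹ := by group
  rw [h2, h1]
  group

end hnn

end Pool.Agent.U709.Ce
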