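import Pool.Agent.U709.CeE

/-!
# Abelian edge groups and vertex groups whose maximal abelian subgroups are malnormal
-/

set_option autoImplicit false

namespace Pool.Agent.U709.Ce

open SimpleGraph
open Pool.Agent.Y110.FJ
open Pool.Agent.N509.TK
open Pool.Agent.N431.CE (Es mem_Es)
open Pool.Agent.U709.Rk (AcylR)
open Pool.Agent.U709.Rm (AtMost)

/-- commuting is transitive on nontrivial elements, and an element which commutes with a conjugate
`g * x * g⁻¹` of itself commutes with `g` -/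
def CSA (H : Type) [Group H] : Prop :=
  (∀ x y z : H, x ≠ 1 → x * y = y * x → x * z = z * x → y * z = z * y) ∧
  ∀ x g : H, x ≠ 1 → x * (g * x * g⁻¹) = (g * x * g⁻¹) * x → g * x = x * g

variable {C : ∀ (G : Type) [Group G], Prop}
variable {G V : Type} [Group G] [MulAction G V] {T : SimpleGraph V}

/-- two neighbours are related if they agree or if their edge groups have commuting nontrivial
elements -/
def rc (G : Type) {V : Type} [Group G] [MulAction G V] (v a b : V) : Prop :=
  a = b ∨ ∃ x ∈ Es G v a, x ≠ 1 ∧ ∃ y ∈ Es G v b, y ≠ 1 ∧ x * y = y * x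

theorem csa_ct {v : V} (h : CSA ↥(MulAction.stabilizer G v)) {x y z : G} (hx : x • v = v)
    (hy : y • v = v) (hz : z • v = v) (h1 : x ≠ 1) (hxy : x * y = y * x) (hxz : x * z = z * x) :
    y * z = z * y := by
  have := h.1 ⟨x, hx⟩ ⟨y, hy⟩ ⟨z, hz⟩ (fun h2 => h1 (congrArg Subtype.val h2))
    (Subtype.ext hxy) (Subtype.ext hxz)
  exact congrArg Subtype.val this

theorem csa_mal {v : V} (h : CSA ↥(MulAction.stabilizer G v)) {x g : G} (hx : x • v = v)
    (hg : g • v = v) (h1 : x ≠ 1) (hxy : x * (g * x * g⁻¹) = (g * x * g⁻¹) * x) :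
    g * x = x * g := by
  have := h.2 ⟨x, hx⟩ ⟨g, hg⟩ (fun h2 => h1 (congrArg Subtype.val h2)) (Subtype.ext hxy)
  exact congrArg Subtype.val this

theorem rc_LR (hact : ∀ (g : G) (u v : V), T.Adj u v → T.Adj (g • u) (g • v))
    (hcsa : ∀ v : V, CSA ↥(MulAction.stabilizer G v))
    (hab : ∀ u v, T.Adj u v → ∀ x ∈ Es G u v, ∀ y ∈ Es G u v, x * y = y * x) :
    LR G T (rc G) where
  refl := fun _ _ _ => Or.inl rfl
  symm := by
    rintro w a b - - (h | ⟨x, hx, hx1, y, hy, hy1, hxy⟩)
    · exact Or.inl h.symm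
    · exact Or.inr ⟨y, hy, hy1, x, hx, hx1, hxy.symm⟩
  trans := by
    rintro w a b c - hb - (rfl | ⟨x, hx, hx1, y, hy, hy1, hxy⟩) h2
    · exact h2
    · rcases h2 with rfl | ⟨y', hy', hy1', z, hz, hz1, hyz⟩
      · exact Or.inr ⟨x, hx, hx1, y, hy, hy1, hxy⟩
      · have e1 : x * y' = y' * x :=
          csa_ct (hcsa w) hy.1 hx.1 hy'.1 hy1 hxy.symm (hab w b hb y hy y' hy')
        exact Or.inr ⟨x, hx, hx1, z, hz, hz1, csa_ct (hcsa w) hy'.1 hx.1 hz.1 hy1' e1.symm hyz⟩
  eqv := by
    rintro g w a b (rfl | ⟨x, hx, hx1, y, hy, hy1, hxy⟩)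
    · exact Or.inl rfl
    · have key : ∀ {x : G} {u a : V}, x ∈ Es G u a → g * x * g⁻¹ ∈ Es G (g • u) (g • a) := by
        intro x u a hx
        refine ⟨?_, ?_⟩
        · show (g * x * g⁻¹) • g • u = g • u
          rw [smul_smul, inv_mul_cancel_right, mul_smul]
          exact congrArg _ hx.1
        · show (g * x * g⁻¹) • g • a = g • a
          rw [smul_smul, inv_mul_cancel_right, mul_smul]
          exact congrArg _ hx.2
      refine Or.inr ⟨g * x * g⁻¹, key hx, ?_, g * y * g⁻¹, key hy, ?_, ?_⟩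
      · intro h
        exact hx1 (conj_eq_one_iff.1 h)
      · intro h
        exact hy1 (conj_eq_one_iff.1 h)
      · have e1 : g * x * g⁻¹ * (g * y * g⁻¹) = g * (x * y) * g⁻¹ := by group
        have e2 : g * y * g⁻¹ * (g * x * g⁻¹) = g * (y * x) * g⁻¹ := by group
        rw [e1, e2, hxy]

/-- **abelian edge groups, vertex groups with malnormal maximal abelian subgroups** -/
theorem csa_main (hC : ClosedE C) (hM : ∀ (G : Type) [Group G], derivedSeries G 2 = ⊥ → C G)
    (hA : AcylR C) (hT : T.IsTree)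
    (hact : ∀ (g : G) (u v : V), T.Adj u v → T.Adj (g • u) (g • v))
    (hinv : ∀ (g : G) (u v : V), T.Adj u v → ¬ (g • u = v ∧ g • v = u))
    (hV : ∀ v : V, C ↥(MulAction.stabilizer G v))
    (hcsa : ∀ v : V, CSA ↥(MulAction.stabilizer G v))
    (hab : ∀ u v, T.Adj u v → ∀ x ∈ Es G u v, ∀ y ∈ Es G u v, x * y = y * x) : C G := by
  classical
  refine rel_central hC hM hA hT hact hinv hV (rc_LR hact hcsa hab) 1 ?_ ?_
  · intro v a b ha hb hr F hF
    refine (Finset.card_le_card (t := {1}) ?_).trans (by simp)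
    intro g hg
    obtain ⟨e1, e2, e3⟩ := hF g hg
    by_contra hg1
    have hg1' : g ≠ 1 := by simpa using hg1
    exact hr (Or.inr ⟨g, ⟨e1, e2⟩, hg1', g, ⟨e1, e3⟩, hg1', rfl⟩)
  · intro v a ha c hc g hg h
    by_cases hga : g • a = a
    · exact hab v a ha g ⟨hg, hga⟩ c hc
    · rcases h with h | ⟨x, hx, hx1, y, hy, hy1, hxy⟩
      · exact absurd h.symm hga
      · have hg' : g⁻¹ • v = v := by rw [inv_smul_eq_iff, hg]
        have hyE : g⁻¹ * y * g ∈ Es G v a := by
          refine ⟨?_, ?_⟩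
          · show (g⁻¹ * y * g) • v = v
            have : y • v = v := hy.1
            rw [mul_smul, mul_smul, hg, this, hg']
          · show (g⁻¹ * y * g) • a = a
            have : y • g • a = g • a := hy.2
            rw [mul_smul, mul_smul, this, inv_smul_smul]
        have hy1' : g⁻¹ * y * g ≠ 1 := by
          intro h1
          refine hy1 ?_
          have e1 : y = g * (g⁻¹ * y * g) * g⁻¹ := by group
          rw [e1, h1]
          group
        have e2 : x * (g⁻¹ * y * g) = (g⁻¹ * y * g) * x := hab v a ha x hx _ hyE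
        have e3 : (g⁻¹ * y * g) * y = y * (g⁻¹ * y * g) :=
          csa_ct (hcsa v) hx.1 hyE.1 hy.1 hx1 e2 hxy
        have e4 : g * (g⁻¹ * y * g) = (g⁻¹ * y * g) * g := by
          refine csa_mal (hcsa v) hyE.1 hg hy1' ?_
          have e5 : g * (g⁻¹ * y * g) * g⁻¹ = y := by group
          rw [e5]
          exact e3
        exact csa_ct (hcsa v) hyE.1 hg hc.1 hy1' e4.symm (hab v a ha _ hyE c hc)

end Pool.Agent.U709.Ce
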