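import Pool.Agent.N24.TR.Tree
import Pool.Agent.U709.BT

/-!
# Groups of matrices of degree two over a field with a discrete valuation
-/

set_option autoImplicit false

namespace Pool.Agent.U709

open Matrix
open Pool.Agent.Y110.FJ (ClosedE)
open Pool.Agent.U709.BT

variable {C : ∀ (G : Type) [Group G], Prop}

/-- an extension with a solvable kernel -/
theorem solv_ker (hC : ClosedE C) (hS : ∀ (G : Type) [Group G], Group.IsSolvable G → C G)
    {G Q : Type} [Group G] [Group Q] (π : G →* Q) (hπ : Function.Surjective π)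
    (hker : Group.IsSolvable π.ker) (hQ : C Q) : C G := by
  refine hC.ext G Q π hπ hQ ?_
  rintro V ⟨c, hcV, hc⟩
  have hsolv : Group.IsSolvable ((Subgroup.zpowers c).comap π) := by
    let f : π.ker →* (Subgroup.zpowers c).comap π := Subgroup.inclusion (by
      intro x hx
      rw [Subgroup.mem_comap, MonoidHom.mem_ker.1 hx]
      exact one_mem _)
    let g : (Subgroup.zpowers c).comap π →* Subgroup.zpowers c :=
      (π.comp (Subgroup.subtype _)).codRestrict _ (fun x => x.2)
    have hfg : g.ker ≤ f.range := by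
      intro x hx
      refine ⟨⟨x.1, ?_⟩, rfl⟩
      have : g x = 1 := hx
      have h2 : π x.1 = 1 := congrArg Subtype.val this
      exact h2
    have : IsMulCommutative (Subgroup.zpowers c) := inferInstance
    have hz : Group.IsSolvable (Subgroup.zpowers c) := Group.isSolvable_of_comm (fun a b => mul_comm' a b)
    exact Group.isSolvable_of_ker_le_range f g hfg
  obtain ⟨K, hK⟩ : ∃ K : Subgroup ↥(V.comap π),
      K = ((Subgroup.zpowers c).comap π).subgroupOf (V.comap π) := ⟨_, rfl⟩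
  have hfin : K.FiniteIndex := by
    refine ⟨?_⟩
    rw [hK]
    change (Subgroup.relIndex _ _) ≠ 0
    rw [Subgroup.relIndex_comap, Subgroup.map_comap_eq_self_of_surjective hπ]
    exact hc
  refine hC.base.finiteIndex _ K hfin (hS _ ?_)
  rw [hK]
  let j : ((Subgroup.zpowers c).comap π).subgroupOf (V.comap π) →* (Subgroup.zpowers c).comap π :=
    ((V.comap π).subtype.comp (Subgroup.subtype _)).codRestrict _ (fun x => x.2)
  have hj : Function.Injective j := by
    intro a b hab
    have : (a.1.1 : G) = b.1.1 := congrArg (fun z : (Subgroup.zpowers c).comap π => (z : G)) hab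
    exact Subtype.ext (Subtype.ext this)
  exact Group.isSolvable_of_isSolvable_injective hj

/-- a group with a chain of normal subgroups with abelian quotients -/
theorem chain_quot (hC : ClosedE C) (hS : ∀ (G : Type) [Group G], Group.IsSolvable G → C G)
    {Γ : Type} [Group Γ] (N : ℕ → Subgroup Γ) [hN : ∀ k, (N k).Normal]
    (hmono : ∀ k, N (k + 1) ≤ N k)
    (hcomm : ∀ k, ∀ x ∈ N k, ∀ y ∈ N k, x * y * x⁻¹ * y⁻¹ ∈ N (k + 1))
    (h0 : C (Γ ⧸ N 0)) (k : ℕ) : C (Γ ⧸ N k) := by
  induction k with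
  | zero => exact h0
  | succ k ih =>
    let π : Γ ⧸ N (k + 1) →* Γ ⧸ N k :=
      QuotientGroup.map (N (k + 1)) (N k) (MonoidHom.id Γ) (fun x hx => hmono k hx)
    refine solv_ker hC hS π ?_ ?_ ih
    · intro x
      obtain ⟨x, rfl⟩ := QuotientGroup.mk_surjective x
      exact ⟨QuotientGroup.mk x, rfl⟩
    · apply Group.isSolvable_of_comm
      rintro ⟨a, ha⟩ ⟨b, hb⟩
      obtain ⟨x, rfl⟩ := QuotientGroup.mk_surjective a
      obtain ⟨y, rfl⟩ := QuotientGroup.mk_surjective b
      have hx : x ∈ N k := (QuotientGroup.eq_one_iff x).1 ha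
      have hy : y ∈ N k := (QuotientGroup.eq_one_iff y).1 hb
      apply Subtype.ext
      change (QuotientGroup.mk (x * y) : Γ ⧸ N (k + 1)) = QuotientGroup.mk (y * x)
      rw [QuotientGroup.eq]
      have h1 := hcomm k y⁻¹ (inv_mem hy) x⁻¹ (inv_mem hx)
      have e : y⁻¹ * x⁻¹ * (y⁻¹)⁻¹ * (x⁻¹)⁻¹ = (x * y)⁻¹ * (y * x) := by group
      rwa [e] at h1

/-- **groups of matrices of degree two over a field with a discrete valuation** -/
theorem main_val (hC : ClosedE C) (hS : ∀ (G : Type) [Group G], Group.IsSolvable G → C G)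
    {F : Type} [Field F] (V : DV F) {Γ : Type} [Group Γ] (ρ : Γ →* GL (Fin 2) F)
    (hdet : ∀ x, V.v (ρ x).1.det = 0) (N : ℕ → Subgroup Γ) [hN : ∀ k, (N k).Normal]
    (hmono : ∀ k, N (k + 1) ≤ N k)
    (hcomm : ∀ k, ∀ x ∈ N k, ∀ y ∈ N k, x * y * x⁻¹ * y⁻¹ ∈ N (k + 1))
    (h0 : C (Γ ⧸ N 0))
    (hsep : ∀ n : ℕ, ∃ k, ∀ x ∈ N k, (∀ i j, V.L (-(n : ℤ)) ((ρ x).1 i j)) → x = 1) : C Γ := by
  let act : MulAction Γ V.Vt := MulAction.compHom V.Vt ρ
  refine Pool.Agent.N24.TR.tree_local hC V.isTree (fun g u w h => V.tr_act (ρ g) u w h) ?_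
  intro u
  obtain ⟨n, hn⟩ := V.stab u
  obtain ⟨k, hk⟩ := hsep n
  refine ⟨Γ ⧸ N k, inferInstance, QuotientGroup.mk' (N k), chain_quot hC hS N hmono hcomm h0 k, ?_⟩
  intro g hg h1
  refine hk g ((QuotientGroup.eq_one_iff g).1 h1) (hn (ρ g) (hdet g) hg)

end Pool.Agent.U709
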