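import Pool.Agent.U385.FJ.Iso

/-!
# Isolated edge groups contained in commensurability invariant subgroups of the vertex groups
-/

set_option autoImplicit false

namespace Pool.Agent.U709.Cy

open SimpleGraph
open scoped commutatorElement Pointwise
open Subgroup
open Subgroup.Commensurable (commensurator)
open Pool.Agent.Y110.FJ
open Pool.Agent.N509.TK
open Pool.Agent.N509.TX (AcylF C_edge)
open Pool.Agent.N431.CE (Es mem_Es Es_comm Es_smul rf rf_LR Rf Rf_gen cylF)
open Pool.Agent.R941.FJ (C_equiv C_le C_cyc mem_sup_normal)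
open Pool.Agent.U385.FJ

variable {C : ∀ (G : Type) [Group G], Prop}
variable {G V : Type} [Group G] [MulAction G V] {T : SimpleGraph V}

/-- groups which preserve a cylinder, with a compatible family -/
theorem cyl_one (hC : ClosedE C) (hM : ∀ (G : Type) [Group G], derivedSeries G 2 = ⊥ → C G)
    (hT : T.IsTree) (hact : ∀ (g : G) (u v : V), T.Adj u v → T.Adj (g • u) (g • v))
    (hV : ∀ v : V, C ↥(MulAction.stabilizer G v))
    {r : V → V → V → Prop} (hr : LR G T r) (y : Cyl T r) (K : Subgroup G)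
    (hK : ∀ g ∈ K, Pres hact y g) (R : V → Subgroup G)
    (fix : ∀ v, Mem y v → ∀ x ∈ R v, x • v = v)
    (conj : ∀ g ∈ K, ∀ v, Mem y v → ∀ x ∈ R v, g * x * g⁻¹ ∈ R (g • v))
    (hE : ∀ u v (h : T.Adj u v), cy r h = y → ∀ g : G, g • u = u → g • v = v → g ∈ R u)
    (lay : ∀ u v (h : T.Adj u v), cy r h = y → ∀ x ∈ ⁅R u, R u⁆, x • v = v → x = 1)
    (hQ : ∀ v, Mem y v → QC C (K ⊓ MulAction.stabilizer G v) (R v)) : C K := by
  let _ : MulAction K {v : V | Mem y v} :=
    { smul := fun g v => ⟨(g : G) • (v : V), (hK g g.2).mem v.2⟩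
      one_smul := fun v => Subtype.ext (one_smul G (v : V))
      mul_smul := fun g h v => Subtype.ext (mul_smul (g : G) (h : G) (v : V)) }
  have htree : (T.induce {v : V | Mem y v}).IsTree := by
    refine ⟨?_, hT.isAcyclic.induce _⟩
    obtain ⟨⟨⟨o, a⟩, h⟩, hy⟩ := Quotient.exists_rep y
    have : Nonempty {v : V | Mem y v} := ⟨⟨o, a, h, hy⟩⟩
    refine ⟨fun v u => ?_⟩
    obtain ⟨p, hp, -⟩ := hT.existsUnique_path (v : V) (u : V)
    exact ⟨p.induce _ (path_mem hT hr v.2 u.2 p hp)⟩
  have hact' : ∀ (g : K) (u v : {v : V | Mem y v}), (T.induce {v : V | Mem y v}).Adj u v →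
      (T.induce {v : V | Mem y v}).Adj (g • u) (g • v) := fun g u v h => hact g _ _ h
  have hfm : Fm (G := K) (V := {v : V | Mem y v}) (T.induce {v : V | Mem y v})
      (fun v => (R v).comap K.subtype) := by
    refine ⟨?_, ?_, ?_⟩
    · exact fun v x hx => Subtype.ext (fix v v.2 x hx)
    · exact fun g v x hx => conj g g.2 v v.2 x hx
    · intro u v huv x hx hxv
      have h1 : (x : G) • (u : V) = u := fix u u.2 x hx
      have h2 : (x : G) • (v : V) = v := congrArg Subtype.val hxv
      have huv' : T.Adj (u : V) v := huv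
      have h3 : cy r huv' = y := adj_cy hT hr u.2 v.2 huv'
      exact hE v u huv'.symm ((cy_symm huv').trans h3) x h2 h1
  have hn := hfm.normal
  have hle : ∀ v : {v : V | Mem y v}, ⁅(R v).comap K.subtype, (R v).comap K.subtype⁆ ≤
      (⁅R v, R v⁆ : Subgroup G).comap K.subtype := by
    intro v
    rw [commutator_le]
    exact fun a ha b hb => commutator_mem_commutator ha hb
  refine main1 hC hM htree hact' hfm ?_ (quot_mem hC htree hact' hfm ?_ ?_) ?_
  · intro u v huv x _ hxv hx
    have h1 := lay u v huv (adj_cy hT hr u.2 v.2 huv) x (hle u hx) (congrArg Subtype.val hxv)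
    exact Subtype.ext h1
  · intro u v huv g hgu hgv
    exact hE u v huv (adj_cy hT hr u.2 v.2 huv) g (congrArg Subtype.val hgu)
      (congrArg Subtype.val hgv)
  · intro v
    obtain ⟨P, _, f, hP, hf⟩ := hQ v v.2
    let j : MulAction.stabilizer K v →* ↥(K ⊓ MulAction.stabilizer G (v : V)) :=
      (K.subtype.comp (Subgroup.subtype _)).codRestrict _ (by
        rintro ⟨g, hg⟩
        exact ⟨g.2, congrArg Subtype.val hg⟩)
    exact ⟨P, _, f.comp j, hP, fun g => hf (j g)⟩
  · intro v g hg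
    have h1 : (((R v).comap K.subtype) ⊔ zpowers g).map K.subtype ≤
        MulAction.stabilizer G (v : V) := by
      rw [Subgroup.map_le_iff_le_comap]
      refine sup_le (fun x hx => fix v v.2 x hx) ?_
      rw [zpowers_le]
      exact congrArg Subtype.val hg
    have h2 : C ↥((((R v).comap K.subtype) ⊔ zpowers g).map K.subtype) := C_le hC.base h1 (hV v)
    exact C_equiv hC.base (equivMapOfInjective _ K.subtype K.subtype_injective) h2

/-- **isolated edge groups in commensurability invariant subgroups** -/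
theorem fam_main (hC : ClosedE C) (hM : ∀ (G : Type) [Group G], derivedSeries G 2 = ⊥ → C G)
    (hA : AcylF C) (hT : T.IsTree) (hact : ∀ (g : G) (u v : V), T.Adj u v → T.Adj (g • u) (g • v))
    (hV : ∀ v : V, C ↥(MulAction.stabilizer G v))
    (n : ℕ) (hint : ∀ v a b, T.Adj v a → T.Adj v b → a ≠ b →
      (Infinite (Es G v a) ∧ Infinite (Es G v b) ∧ Commensurable (Es G v a) (Es G v b)) ∨
      ∀ F : Finset G, (∀ g ∈ F, g ∈ Es G v a ∧ g ∈ Es G v b) → F.card ≤ n)
    (F : V → V → Subgroup G)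
    (le : ∀ v u, T.Adj v u → Infinite (Es G v u) → Es G v u ≤ F v u)
    (fix : ∀ v u, T.Adj v u → Infinite (Es G v u) → F v u ≤ MulAction.stabilizer G v)
    (dep : ∀ v u u', T.Adj v u → T.Adj v u' → Infinite (Es G v u) → Infinite (Es G v u') →
      Commensurable (Es G v u) (Es G v u') → F v u = F v u')
    (conj : ∀ (g : G) v u, T.Adj v u → Infinite (Es G v u) → ∀ x ∈ F v u,
      g * x * g⁻¹ ∈ F (g • v) (g • u))
    (hom : ∀ v u, T.Adj v u → Infinite (Es G v u) → Es G v u ⊓ ⁅F v u, F v u⁆ = ⊥)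
    (hQ : ∀ v u : V, T.Adj v u → Infinite (Es G v u) →
      QC C (MulAction.stabilizer G v ⊓ commensurator (Es G v u)) (F v u)) : C G := by
  refine cylF hC hA hT hact (rf_LR (T := T)) n ?_ hV fun y K hK => ?_
  · intro w a b ha hb hab F hF
    rcases hint w a b ha hb (fun h => hab (Or.inl h)) with h | h
    · exact absurd (Or.inr h) hab
    · exact h F fun g hg => ⟨⟨(hF g hg).1, (hF g hg).2.1⟩, ⟨(hF g hg).1, (hF g hg).2.2⟩⟩
  obtain ⟨⟨⟨v0, a0⟩, h0⟩, hy⟩ := Quotient.exists_rep y
  have h0 : T.Adj v0 a0 := h0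
  have hy : cy (rf G) h0 = y := hy
  by_cases hinf0 : Infinite (Es G v0 a0)
  · have hRf : ∀ (v u : V) (h : T.Adj v u), cy (rf G) h = y → Rf G (v0, a0) (v, u) :=
      fun v u h hvy => Rf_gen (p := dt h0) (q := dt h) (Quotient.exact (hy.trans hvy.symm))
    have hcom : ∀ (v u : V) (h : T.Adj v u) (v' u' : V) (h' : T.Adj v' u'), cy (rf G) h = y →
        cy (rf G) h' = y → Commensurable (Es G v u) (Es G v' u') :=
      fun v u h v' u' h' hvy hvy' => (hRf v u h hvy).comm.symm.trans (hRf v' u' h' hvy').comm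
    have hinf : ∀ (v u : V) (h : T.Adj v u), cy (rf G) h = y → Infinite (Es G v u) :=
      fun v u h hvy => (hRf v u h hvy).inf hinf0
    have hRv : ∀ v, ∃ R : Subgroup G, ∀ (u : V) (h : T.Adj v u), cy (rf G) h = y → R = F v u := by
      intro v
      by_cases hv : Mem y v
      · obtain ⟨u, hvu, hvy⟩ := hv
        refine ⟨F v u, fun u' h' hvy' => ?_⟩
        exact dep v u u' hvu h' (hinf v u hvu hvy) (hinf v u' h' hvy')
          (hcom v u hvu v u' h' hvy hvy')
      · exact ⟨⊥, fun u h hvy => absurd ⟨u, h, hvy⟩ hv⟩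
    choose R hR using hRv
    refine cyl_one hC hM hT hact hV rf_LR y K hK R ?_ ?_ ?_ ?_ ?_
    · rintro v ⟨u, hvu, hvy⟩ x hx
      rw [hR v u hvu hvy] at hx
      exact fix v u hvu (hinf v u hvu hvy) hx
    · rintro g hg v ⟨u, hvu, hvy⟩ x hx
      rw [hR v u hvu hvy] at hx
      rw [hR (g • v) (g • u) (hact g v u hvu) (hK g hg v u hvu hvy)]
      exact conj g v u hvu (hinf v u hvu hvy) x hx
    · intro u v huv huy g hgu hgv
      rw [hR u v huv huy]
      exact le u v huv (hinf u v huv huy) ⟨hgu, hgv⟩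
    · intro u v huv huy x hx hxv
      have hinf' := hinf u v huv huy
      rw [hR u v huv huy] at hx
      have hxu : x • u = u := fix u v huv hinf' ((commutator_le_self _) hx)
      have h1 : x ∈ Es G u v ⊓ ⁅F u v, F u v⁆ := ⟨⟨hxu, hxv⟩, hx⟩
      rwa [hom u v huv hinf', mem_bot] at h1
    · rintro v ⟨u, hvu, hvy⟩
      rw [hR v u hvu hvy]
      refine (hQ v u hvu (hinf v u hvu hvy)).mono ?_
      rintro g ⟨hgK, hgv⟩
      refine ⟨hgv, ?_⟩
      show g ∈ commensurator (Es G v u)
      rw [Commensurable.commensurator_mem_iff, ← Es_smul]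
      exact hcom _ _ (hact g v u hvu) _ _ hvu (hK g hgK v u hvu hvy) hvy
  · subst hy
    refine C_edge hC v0 a0 (hV v0) K fun g hg => ?_
    have h1 := hK g hg v0 a0 h0 rfl
    rcases Rf_gen (p := dt (hact g v0 a0 h0)) (q := dt h0) (Quotient.exact h1) with
      (h | h) | ⟨_, h, _⟩
    · exact Or.inl ⟨(congrArg Prod.fst h).symm, (congrArg Prod.snd h).symm⟩
    · exact Or.inr ⟨(congrArg Prod.snd h).symm, (congrArg Prod.fst h).symm⟩
    · exact absurd h hinf0

end Pool.Agent.U709.Cy
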