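import Pool.Agent.U709.CyA

/-!
# Cyclic edge groups which are visible in torsion-free nilpotent quotients of their centralizers
-/

set_option autoImplicit false

namespace Pool.Agent.U709.Cy

open SimpleGraph
open scoped commutatorElement Pointwise
open Subgroup
open Subgroup.Commensurable (commensurator)
open Pool.Agent.Y110.FJ
open Pool.Agent.N77.CP (VCen Vc mem_Vc)
open Pool.Agent.N509.TX (AcylF)
open Pool.Agent.N431.CE (Es mem_Es Es_comm Es_smul Sv)
open Pool.Agent.U385.FJ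

variable {C : ∀ (G : Type) [Group G], Prop}

section series

variable {G : Type} [Group G]

/-- unique roots, and nilpotent of class at most `c` -/
def UN (c : ℕ) (N : Type) [Group N] : Prop := URg N ∧ Subgroup.upperCentralSeries N c = ⊤

theorem UN.quot {c : ℕ} {N : Type} [Group N] (h : UN (c + 1) N) : UN c (N ⧸ center N) := by
  refine ⟨h.1.quot, ?_⟩
  have h1 := Subgroup.comap_upperCentralSeries_quotient_center (G := N) c
  rw [h.2, ← comap_top (QuotientGroup.mk' (center N))] at h1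
  exact comap_injective (QuotientGroup.mk'_surjective _) h1

theorem UN.succ {c : ℕ} {N : Type} [Group N] (h : UN c N) : UN (c + 1) N := by
  refine ⟨h.1, ?_⟩
  rw [eq_top_iff, ← h.2]
  exact Subgroup.upperCentralSeries_mono N (Nat.le_succ c)

/-- the elements of `S` which die in the quotients with unique roots of class at most `c` -/
def DG (c : ℕ) (S : Subgroup G) : Subgroup G where
  carrier := {x | ∃ hx : x ∈ S, ∀ (N : Type) [Group N] (f : S →* N), UN c N → f ⟨x, hx⟩ = 1}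
  mul_mem' := by
    rintro x y ⟨hx, hx1⟩ ⟨hy, hy1⟩
    refine ⟨mul_mem hx hy, fun N _ f hN => ?_⟩
    have h1 : (⟨x * y, mul_mem hx hy⟩ : S) = ⟨x, hx⟩ * ⟨y, hy⟩ := rfl
    rw [h1, map_mul, hx1 N f hN, hy1 N f hN, mul_one]
  one_mem' := ⟨one_mem S, fun N _ f _ => map_one f⟩
  inv_mem' := by
    rintro x ⟨hx, hx1⟩
    refine ⟨inv_mem hx, fun N _ f hN => ?_⟩
    have h1 : (⟨x⁻¹, inv_mem hx⟩ : S) = (⟨x, hx⟩ : S)⁻¹ := rfl
    rw [h1, map_inv, hx1 N f hN, inv_one]

theorem DG_le (c : ℕ) (S : Subgroup G) : DG c S ≤ S := fun _ hx => hx.1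

theorem DG_zero (S : Subgroup G) : DG 0 S = S := by
  refine le_antisymm (DG_le 0 S) fun x hx => ⟨hx, fun N _ f hN => ?_⟩
  have h1 : f ⟨x, hx⟩ ∈ Subgroup.upperCentralSeries N 0 := by
    rw [hN.2]
    exact mem_top _
  rwa [Subgroup.upperCentralSeries_zero, mem_bot] at h1

theorem DG_succ_le (c : ℕ) (S : Subgroup G) : DG (c + 1) S ≤ DG c S :=
  fun _ hx => ⟨hx.1, fun N _ f hN => hx.2 N f hN.succ⟩

theorem DG_anti {c d : ℕ} (S : Subgroup G) (h : c ≤ d) : DG d S ≤ DG c S := by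
  induction h with
  | refl => exact le_rfl
  | step _ ih => exact (DG_succ_le _ S).trans ih

theorem DG_root {c : ℕ} {S : Subgroup G} {x : G} (hx : x ∈ S) {m : ℕ} (hm : m ≠ 0)
    (h : x ^ m ∈ DG c S) : x ∈ DG c S := by
  refine ⟨hx, fun N _ f hN => ?_⟩
  have h1 : f (⟨x ^ m, pow_mem hx m⟩ : S) = 1 := h.2 N f hN
  have h2 : (⟨x ^ m, pow_mem hx m⟩ : S) = (⟨x, hx⟩ : S) ^ m := rfl
  rw [h2, map_pow] at h1
  exact hN.1 _ 1 m hm (by rw [h1, one_pow])

theorem DG_comm {c : ℕ} {S : Subgroup G} : ⁅DG c S, S⁆ ≤ DG (c + 1) S := by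
  rw [commutator_le]
  intro x hx y hy
  have hxy : ⁅x, y⁆ ∈ S := S.commutator_le_self (commutator_mem_commutator hx.1 hy)
  refine ⟨hxy, fun N _ f hN => ?_⟩
  have h1 : f (⟨x, hx.1⟩ : S) ∈ center N := by
    rw [← QuotientGroup.eq_one_iff]
    exact hx.2 _ ((QuotientGroup.mk' (center N)).comp f) hN.quot
  have h2 : (⟨⁅x, y⁆, hxy⟩ : S) = ⁅(⟨x, hx.1⟩ : S), (⟨y, hy⟩ : S)⁆ := rfl
  rw [h2, map_commutatorElement, commutatorElement_eq_one_iff_mul_comm]
  exact (mem_center_iff.1 h1 _).symm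

theorem DG_conj {c : ℕ} {S S' : Subgroup G} {g x : G} (h' : g * x * g⁻¹ ∈ DG c S') (hx : x ∈ S)
    (hgS : ∀ x ∈ S', g⁻¹ * x * g ∈ S) : x ∈ DG c S := by
  refine ⟨hx, fun N _ f hN => ?_⟩
  let φ : S' →* S :=
    { toFun := fun y => ⟨g⁻¹ * y * g, hgS y y.2⟩
      map_one' := by
        apply Subtype.ext
        simp
      map_mul' := fun a b => by
        apply Subtype.ext
        show g⁻¹ * (a * b : G) * g = (g⁻¹ * a * g) * (g⁻¹ * b * g)
        group }
  have h1 := h'.2 N (f.comp φ) hN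
  have h2 : φ ⟨g * x * g⁻¹, h'.1⟩ = ⟨x, hx⟩ := by
    apply Subtype.ext
    show g⁻¹ * (g * x * g⁻¹) * g = x
    group
  rw [MonoidHom.comp_apply, h2] at h1
  exact h1

/-- the smallest of these subgroups which contains `E` -/
def DE (E S : Subgroup G) : Subgroup G := S ⊓ ⨅ c : {c : ℕ // E ≤ DG c S}, DG (c : ℕ) S

theorem mem_DE {E S : Subgroup G} {x : G} : x ∈ DE E S ↔ x ∈ S ∧ ∀ c, E ≤ DG c S → x ∈ DG c S := by
  unfold DE
  rw [mem_inf, mem_iInf]
  exact ⟨fun h => ⟨h.1, fun c hc => h.2 ⟨c, hc⟩⟩, fun h => ⟨h.1, fun c => h.2 c c.2⟩⟩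

theorem le_DE {E S : Subgroup G} (h : E ≤ S) : E ≤ DE E S :=
  fun _ hx => mem_DE.2 ⟨h hx, fun _ hc => hc hx⟩

/-- cyclic subgroups are contained in a member of the series or meet it trivially -/
theorem DG_cyc {E S : Subgroup G} {c : ℕ} (hE : E ≤ S) (hc : IsCyclic E) (h : E ⊓ DG c S ≠ ⊥) :
    E ≤ DG c S := by
  obtain ⟨⟨e, heE⟩, hgen⟩ := hc.exists_generator
  obtain ⟨⟨x, hxE, hxD⟩, hx1⟩ := Subgroup.ne_bot_iff_exists_ne_one.1 h
  obtain ⟨k, hk⟩ := hgen ⟨x, hxE⟩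
  have hk : e ^ k = x := by
    have := congrArg Subtype.val hk
    simpa using this
  have hk0 : k ≠ 0 := by
    rintro rfl
    exact hx1 (Subtype.ext (hk.symm.trans (zpow_zero e)))
  have he : e ∈ DG c S := by
    refine DG_root (hE heE) (Int.natAbs_ne_zero.2 hk0) ?_
    rcases Int.natAbs_eq k with h1 | h1
    · rw [← zpow_natCast, ← h1, hk]
      exact hxD
    · have h2 : ((k.natAbs : ℕ) : ℤ) = -k := by omega
      rw [← zpow_natCast, h2, zpow_neg, hk]
      exact inv_mem hxD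
  intro y hy
  obtain ⟨j, hj⟩ := hgen ⟨y, hy⟩
  have hj : e ^ j = y := by
    have := congrArg Subtype.val hj
    simpa using this
  rw [← hj]
  exact zpow_mem he j

/-- the depth -/
theorem exists_depth {E S : Subgroup G} (hE : E ≤ S) (hc : IsCyclic E) (hne : E ≠ ⊥)
    (h : ∃ c, E ⊓ DG c S = ⊥) : ∃ c, E ≤ DG c S ∧ E ⊓ DG (c + 1) S = ⊥ ∧ DE E S = DG c S := by
  classical
  obtain ⟨c0, hc0, hmin⟩ : ∃ c0, E ⊓ DG c0 S = ⊥ ∧ ∀ c < c0, E ⊓ DG c S ≠ ⊥ :=
    ⟨Nat.find h, Nat.find_spec h, fun c hc => Nat.find_min h hc⟩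
  rcases c0 with _ | c
  · rw [DG_zero, inf_eq_left.2 hE] at hc0
    exact absurd hc0 hne
  · have h1 := DG_cyc hE hc (hmin c (Nat.lt_succ_self c))
    refine ⟨c, h1, hc0, le_antisymm (fun x hx => (mem_DE.1 hx).2 c h1) fun x hx =>
      mem_DE.2 ⟨hx.1, fun d hd => ?_⟩⟩
    by_cases hdc : d ≤ c
    · exact DG_anti S hdc hx
    · exfalso
      apply hne
      rw [eq_bot_iff, ← hc0]
      exact le_inf le_rfl (hd.trans (DG_anti S (by omega)))

theorem DE_hom {E S : Subgroup G} (hE : E ≤ S) (hc : IsCyclic E) (hne : E ≠ ⊥)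
    (h : ∃ c, E ⊓ DG c S = ⊥) : E ⊓ ⁅DE E S, DE E S⁆ = ⊥ := by
  obtain ⟨c, h1, h2, h3⟩ := exists_depth hE hc hne h
  rw [h3, eq_bot_iff, ← h2]
  exact inf_le_inf_left _ ((commutator_mono le_rfl (DG_le c S)).trans DG_comm)

/-- the series contains the derived series -/
theorem DG_derived {A S : Subgroup G} (hA : ⁅A, A⁆ ≤ S) (k : ℕ) :
    (derivedSeries A (k + 1)).map A.subtype ≤ DG k S := by
  induction k with
  | zero =>
    rw [DG_zero, derivedSeries_succ, derivedSeries_zero, map_commutator]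
    refine (commutator_mono ?_ ?_).trans hA
    · rintro _ ⟨x, -, rfl⟩
      exact x.2
    · rintro _ ⟨x, -, rfl⟩
      exact x.2
  | succ k ih =>
    rw [derivedSeries_succ, map_commutator]
    exact (commutator_mono ih (ih.trans (DG_le k S))).trans DG_comm

/-- the quotient is solvable -/
theorem QC_DE (hS : ∀ (G : Type) [Group G], Group.IsSolvable G → C G) {A E S : Subgroup G}
    (hA : ⁅A, A⁆ ≤ S) (hE : E ≤ S) (hc : IsCyclic E) (hne : E ≠ ⊥) (h : ∃ c, E ⊓ DG c S = ⊥)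
    (hn : ∀ g ∈ A, ∀ x ∈ DE E S, x ∈ A → g * x * g⁻¹ ∈ DE E S) : QC C A (DE E S) := by
  obtain ⟨c, h1, h2, h3⟩ := exists_depth hE hc hne h
  have hN : ((DE E S).subgroupOf A).Normal := by
    refine ⟨fun x hx g => ?_⟩
    rw [mem_subgroupOf] at hx ⊢
    exact hn g g.2 x hx x.2
  refine ⟨A ⧸ (DE E S).subgroupOf A, inferInstance, QuotientGroup.mk' _, hS _ ⟨c + 1, ?_⟩,
    fun x => (QuotientGroup.eq_one_iff x).trans mem_subgroupOf⟩
  rw [← map_derivedSeries_eq (QuotientGroup.mk'_surjective ((DE E S).subgroupOf A)), eq_bot_iff,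
    Subgroup.map_le_iff_le_comap]
  intro x hx
  rw [Subgroup.mem_comap, mem_bot]
  refine (QuotientGroup.eq_one_iff x).2 ?_
  rw [mem_subgroupOf, h3]
  exact DG_derived hA c ⟨x, hx, rfl⟩

/-- in a commensurator of a cyclic group the commutators centralize subgroups of finite index -/
theorem comm_vc {E : Subgroup G} (hc : IsCyclic E) (hinf : Infinite E) {g h : G}
    (hg : g ∈ commensurator E) (hh : h ∈ commensurator E) : ⁅g, h⁆ ∈ Vc E := by
  have htf := cyc_tf hc hinf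
  obtain ⟨⟨e, heE⟩, hgen⟩ := hc.exists_generator
  have hgen' : ∀ x ∈ E, ∃ k : ℤ, e ^ k = x := by
    intro x hx
    obtain ⟨k, hk⟩ := hgen ⟨x, hx⟩
    exact ⟨k, by
      have := congrArg Subtype.val hk
      simpa using this⟩
  have he1 : e ≠ 1 := by
    rintro rfl
    have hs : Subsingleton E := ⟨fun x y => by
      obtain ⟨i, hi⟩ := hgen' x x.2
      obtain ⟨j, hj⟩ := hgen' y y.2
      exact Subtype.ext (by rw [← hi, ← hj, one_zpow, one_zpow])⟩
    exact not_subsingleton E hs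
  have hinj : ∀ k : ℤ, e ^ k = 1 → k = 0 := by
    intro k hk
    by_contra hk0
    refine he1 (htf e heE k.natAbs (Int.natAbs_ne_zero.2 hk0) ?_)
    rcases Int.natAbs_eq k with h1 | h1
    · rw [← zpow_natCast, ← h1, hk]
    · have h2 : ((k.natAbs : ℕ) : ℤ) = -k := by omega
      rw [← zpow_natCast, h2, zpow_neg, hk, inv_one]
  have key : ∀ k ∈ commensurator E, ∃ a a' : ℤ, a ≠ 0 ∧ a' ≠ 0 ∧ k * e ^ a * k⁻¹ = e ^ a' := by
    intro k hk
    rw [Commensurable.commensurator_mem_iff] at hk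
    obtain ⟨m, hm, -, hmem⟩ := Subgroup.exists_pow_mem_of_relIndex_ne_zero hk.2
      (show k * e * k⁻¹ ∈ ConjAct.toConjAct k • E from by
        rw [Subgroup.mem_pointwise_smul_iff_inv_smul_mem, ← ConjAct.toConjAct_inv,
          ConjAct.toConjAct_smul, inv_inv]
        have h1 : k⁻¹ * (k * e * k⁻¹) * k = e := by group
        rwa [h1])
    obtain ⟨a', ha'⟩ := hgen' _ hmem.1
    rw [conj_pow] at ha'
    refine ⟨m, a', by exact_mod_cast hm.ne', ?_, by rw [zpow_natCast, ha']⟩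
    rintro rfl
    rw [zpow_zero, eq_comm, conj_eq_one_iff] at ha'
    exact he1 (htf e heE m hm.ne' ha')
  obtain ⟨a, a', ha, ha', hga⟩ := key g hg
  obtain ⟨b, b', hb, hb', hhb⟩ := key h hh
  have g1 : ∀ k : ℤ, g * e ^ (a * k) * g⁻¹ = e ^ (a' * k) := by
    intro k
    rw [zpow_mul, zpow_mul, ← hga, conj_zpow]
  have h1 : ∀ k : ℤ, h * e ^ (b * k) * h⁻¹ = e ^ (b' * k) := by
    intro k
    rw [zpow_mul, zpow_mul, ← hhb, conj_zpow]
  have g2 : ∀ k : ℤ, g⁻¹ * e ^ (a' * k) * g = e ^ (a * k) := by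
    intro k
    rw [← g1]
    group
  have h2 : ∀ k : ℤ, h⁻¹ * e ^ (b' * k) * h = e ^ (b * k) := by
    intro k
    rw [← h1]
    group
  have hfin : ⁅g, h⁆ * e ^ (a * a' * b * b') * ⁅g, h⁆⁻¹ = e ^ (a * a' * b * b') := by
    have e1 : ⁅g, h⁆ * e ^ (a * a' * b * b') * ⁅g, h⁆⁻¹ =
        g * (h * (g⁻¹ * (h⁻¹ * e ^ (a * a' * b * b') * h) * g) * h⁻¹) * g⁻¹ := by
      rw [commutatorElement_def]
      group
    rw [e1, show a * a' * b * b' = b' * (a * a' * b) by ring, h2,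
      show b * (a * a' * b) = a' * (a * b * b) by ring, g2,
      show a * (a * b * b) = b * (a * a * b) by ring, h1,
      show b' * (a * a * b) = a * (a * b * b') by ring, g1]
    congr 1
    ring
  show VCen E ⁅g, h⁆
  refine cyc_index hc (x := e ^ (a * a' * b * b')) (zpow_mem heE _) ?_ ?_
  · rw [mem_centralizer_singleton_iff]
    exact (mul_inv_eq_iff_eq_mul.1 hfin).symm
  · intro m hm h3
    rw [← zpow_natCast, ← zpow_mul] at h3
    have h4 := hinj _ h3
    have h5 : (m : ℤ) ≠ 0 := by exact_mod_cast hm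
    exact mul_ne_zero (mul_ne_zero (mul_ne_zero (mul_ne_zero ha ha') hb) hb') h5 h4

/-- the virtual centralizer depends only on the commensurability class -/
theorem Vc_eq {E E' : Subgroup G} (h : Commensurable E E') : Vc E = Vc E' := by
  ext g
  exact ⟨fun hg => VCen.of_fin h.1 hg, fun hg => VCen.of_fin h.2 hg⟩

end series

end Pool.Agent.U709.Cy
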