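import Pool.Agent.U709.CyB

/-!
# Cyclic edge groups: the theorem
-/

set_option autoImplicit false

namespace Pool.Agent.U709.Cy

open SimpleGraph
open scoped commutatorElement Pointwise
open Subgroup
open Subgroup.Commensurable (commensurator)
open Pool.Agent.Y110.FJ
open Pool.Agent.N77.CP (VCen Vc mem_Vc mem_map_conj relIndex_conj)
open Pool.Agent.N509.TX (AcylF)
open Pool.Agent.N431.CE (Es mem_Es Es_comm Es_smul Sv)
open Pool.Agent.U385.FJ

variable {C : ∀ (G : Type) [Group G], Prop}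
variable {G V : Type} [Group G] [MulAction G V] {T : SimpleGraph V}

theorem Vc_map (P : Subgroup G) (g : G) {x : G} (hx : x ∈ Vc P) :
    g * x * g⁻¹ ∈ Vc (P.map (MulAut.conj g).toMonoidHom) := by
  show (Subgroup.centralizer {g * x * g⁻¹}).relIndex (P.map (MulAut.conj g).toMonoidHom) ≠ 0
  have h1 : Subgroup.centralizer {g * x * g⁻¹} =
      (Subgroup.centralizer {x}).map (MulAut.conj g).toMonoidHom := by
    ext y
    rw [mem_map_conj, Subgroup.mem_centralizer_singleton_iff, Subgroup.mem_centralizer_singleton_iff]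
    constructor
    · intro h
      calc g⁻¹ * y * g * x = g⁻¹ * (y * (g * x * g⁻¹)) * g := by group
        _ = g⁻¹ * (g * x * g⁻¹ * y) * g := by rw [h]
        _ = x * (g⁻¹ * y * g) := by group
    · intro h
      calc y * (g * x * g⁻¹) = g * (g⁻¹ * y * g * x) * g⁻¹ := by group
        _ = g * (x * (g⁻¹ * y * g)) * g⁻¹ := by rw [h]
        _ = g * x * g⁻¹ * y := by group
  rw [h1, relIndex_conj]
  exact hx

theorem Es_map (g : G) (v u : V) : Es G (g • v) (g • u) =
    (Es G v u).map (MulAut.conj g).toMonoidHom := by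
  ext x
  rw [mem_map_conj, mem_Es, mem_Es, mul_smul, mul_smul, mul_smul, mul_smul, inv_smul_eq_iff,
    inv_smul_eq_iff]

theorem Sv_conj (g : G) (v u : V) {x : G} (hx : x ∈ Sv G v u) :
    g * x * g⁻¹ ∈ Sv G (g • v) (g • u) := by
  refine ⟨?_, ?_⟩
  · show (g * x * g⁻¹) • g • v = g • v
    rw [mul_smul, mul_smul, inv_smul_smul, show x • v = v from hx.1]
  · rw [SetLike.mem_coe, Es_map]
    exact Vc_map _ g hx.2

theorem Sv_conj' (g : G) (v u : V) {x : G} (hx : x ∈ Sv G (g • v) (g • u)) :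
    g⁻¹ * x * g ∈ Sv G v u := by
  have h1 := Sv_conj g⁻¹ _ _ hx
  rwa [inv_smul_smul, inv_smul_smul, inv_inv] at h1

theorem Es_conj (g : G) (v u : V) {x : G} (hx : x ∈ Es G v u) :
    g * x * g⁻¹ ∈ Es G (g • v) (g • u) := by
  rw [Es_map]
  exact ⟨x, hx, rfl⟩

theorem DE_conj (g : G) (v u : V) {x : G} (hx : x ∈ DE (Es G v u) (Sv G v u)) :
    g * x * g⁻¹ ∈ DE (Es G (g • v) (g • u)) (Sv G (g • v) (g • u)) := by
  rw [mem_DE] at hx ⊢
  refine ⟨Sv_conj g v u hx.1, fun c hc => ?_⟩
  have h1 : Es G v u ≤ DG c (Sv G v u) := by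
    intro y hy
    have h2 := hc (Es_conj g v u hy)
    have h3 : y ∈ Sv G v u := by
      have h4 := Sv_conj' g v u h2.1
      have h5 : g⁻¹ * (g * y * g⁻¹) * g = y := by group
      rwa [h5] at h4
    exact DG_conj h2 h3 fun z hz => Sv_conj' g v u hz
  have h2 := hx.2 c h1
  refine DG_conj (g := g⁻¹) (S' := Sv G v u) ?_ (Sv_conj g v u hx.1) fun z hz => ?_
  · have h5 : g⁻¹ * (g * x * g⁻¹) * g⁻¹⁻¹ = x := by group
    rwa [h5]
  · have h3 := Sv_conj g v u hz
    rwa [inv_inv]

theorem Es_le_Sv {v u : V} (hc : IsCyclic (Es G v u)) : Es G v u ≤ Sv G v u := by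
  intro x hx
  refine ⟨hx.1, ?_⟩
  show (Subgroup.centralizer {x}).relIndex (Es G v u) ≠ 0
  have h1 : Es G v u ≤ Subgroup.centralizer {x} := by
    intro y hy
    rw [mem_centralizer_singleton_iff]
    have h2 := hc.isMulCommutative.is_comm.comm ⟨y, hy⟩ ⟨x, hx⟩
    exact congrArg Subtype.val h2
  rw [Subgroup.relIndex_eq_one.2 h1]
  exact one_ne_zero

theorem Sv_dep {v u u' : V} (h : Commensurable (Es G v u) (Es G v u')) : Sv G v u = Sv G v u' := by
  unfold Sv
  rw [Vc_eq h]

theorem DE_dep {v u u' : V} (hc : IsCyclic (Es G v u)) (hc' : IsCyclic (Es G v u'))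
    (h : Commensurable (Es G v u) (Es G v u')) :
    DE (Es G v u) (Sv G v u) = DE (Es G v u') (Sv G v u') := by
  have key : ∀ w w' : V, IsCyclic (Es G v w) → Sv G v w = Sv G v w' →
      (Es G v w').relIndex (Es G v w) ≠ 0 → ∀ c, Es G v w' ≤ DG c (Sv G v w') →
      Es G v w ≤ DG c (Sv G v w) := by
    intro w w' hw hS hrel c hc x hx
    obtain ⟨m, hm, -, hmem⟩ := Subgroup.exists_pow_mem_of_relIndex_ne_zero hrel hx
    refine DG_root (Es_le_Sv hw hx) hm.ne' ?_
    rw [hS]
    exact hc hmem.1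
  have hS := Sv_dep h
  ext x
  rw [mem_DE, mem_DE, ← hS]
  refine and_congr_right fun _ => ?_
  constructor
  · intro h1 c hcc
    refine h1 c (key u u' hc hS h.2 c ?_)
    rw [← hS]
    exact hcc
  · intro h1 c hcc
    refine h1 c ?_
    have h2 := key u' u hc' hS.symm h.1 c hcc
    rwa [← hS] at h2

/-- torsion-free nilpotent -/
def TN (N : Type) [Group N] : Prop :=
  Group.IsNilpotent N ∧ ∀ (x : N) (m : ℕ), m ≠ 0 → x ^ m = 1 → x = 1

theorem TN.un {N : Type} [Group N] (h : TN N) : ∃ c, UN c N := by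
  have := h.1
  obtain ⟨c, hc⟩ := h.1.nilpotent
  exact ⟨c, nil_roots N (fun z _ m hm hz => h.2 z m hm hz), hc⟩

theorem vis {E S : Subgroup G} (hES : E ≤ S) (N : Type) [Group N] (hN : TN N)
    (f : S →* N) (hf : ∀ (x : G) (hx : x ∈ E), f ⟨x, hES hx⟩ = 1 → x = 1) :
    ∃ c, E ⊓ DG c S = ⊥ := by
  obtain ⟨c, hc⟩ := hN.un
  refine ⟨c, ?_⟩
  rw [eq_bot_iff]
  rintro x ⟨hx, hxD⟩
  exact hf x hx (hxD.2 N f hc)

theorem card_le_of {E : Subgroup G} (hE : Finite E) (F : Finset G) (hF : ∀ g ∈ F, g ∈ E) :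
    F.card ≤ Nat.card E := by
  have h1 : (F : Set G) ⊆ (E : Set G) := fun g hg => hF g hg
  have h2 := Set.ncard_le_ncard h1 (Set.toFinite _)
  rw [Set.ncard_coe_finset] at h2
  exact h2.trans (le_of_eq (Nat.card_coe_set_eq _).symm)

/-- **cyclic edge groups which are visible in torsion-free nilpotent quotients** -/
theorem cyc_main (hC : ClosedE C) (hS : ∀ (G : Type) [Group G], Group.IsSolvable G → C G)
    (hA : AcylF C) (hT : T.IsTree) (hact : ∀ (g : G) (u v : V), T.Adj u v → T.Adj (g • u) (g • v))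
    (hV : ∀ v : V, C ↥(MulAction.stabilizer G v))
    (hcyc : ∀ v u, T.Adj v u → Infinite (Es G v u) → IsCyclic (Es G v u))
    (n : ℕ) (hfin : ∀ v u, T.Adj v u → Finite (Es G v u) → Nat.card (Es G v u) ≤ n)
    (hvis : ∀ v u, T.Adj v u → Infinite (Es G v u) → ∃ (N : Type) (_ : Group N) (f : Sv G v u →* N),
      TN N ∧ ∀ x : Sv G v u, (x : G) • u = u → f x = 1 → x = 1) : C G := by
  have hne : ∀ v u : V, Infinite (Es G v u) → Es G v u ≠ ⊥ := by
    intro v u hinf h1
    rw [h1] at hinf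
    exact not_finite (⊥ : Subgroup G)
  have hvis' : ∀ v u, T.Adj v u → Infinite (Es G v u) → ∃ c, Es G v u ⊓ DG c (Sv G v u) = ⊥ := by
    intro v u hvu hinf
    obtain ⟨N, _, f, hN, hf⟩ := hvis v u hvu hinf
    refine vis (Es_le_Sv (hcyc v u hvu hinf)) N hN f fun x hx h1 => ?_
    exact congrArg Subtype.val (hf ⟨x, _⟩ hx.2 h1)
  refine fam_main hC (fun G _ h => hS G ⟨2, h⟩) hA hT hact hV (n + 1) ?_
    (fun v u => DE (Es G v u) (Sv G v u)) ?_ ?_ ?_ ?_ ?_ ?_
  · intro v a b ha hb _
    by_cases h1 : Infinite (Es G v a)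
    · by_cases h2 : Infinite (Es G v b)
      · rcases cyc_iso (hcyc v a ha h1) (hcyc v b hb h2) h1 with h3 | h3
        · exact Or.inl ⟨h1, h2, h3⟩
        · refine Or.inr fun F hF => ?_
          have h6 : F.card ≤ 1 := by
            rw [Finset.card_le_one]
            have h7 : ∀ g ∈ F, g = 1 := fun g hg => by
              have h8 : g ∈ Es G v a ⊓ Es G v b := hF g hg
              rwa [h3, mem_bot] at h8
            intro x hx z hz
            rw [h7 x hx, h7 z hz]
          omega
      · rw [not_infinite_iff_finite] at h2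
        refine Or.inr fun F hF => ?_
        have h3 := hfin v b hb h2
        have h4 : F.card ≤ Nat.card (Es G v b) := card_le_of h2 F fun g hg => (hF g hg).2
        omega
    · rw [not_infinite_iff_finite] at h1
      refine Or.inr fun F hF => ?_
      have h3 := hfin v a ha h1
      have h4 : F.card ≤ Nat.card (Es G v a) := card_le_of h1 F fun g hg => (hF g hg).1
      omega
  · exact fun v u hvu hinf => le_DE (Es_le_Sv (hcyc v u hvu hinf))
  · exact fun v u _ _ x hx => (mem_DE.1 hx).1.1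
  · exact fun v u u' hu hu' hinf hinf' h => DE_dep (hcyc v u hu hinf) (hcyc v u' hu' hinf') h
  · exact fun g v u _ _ x hx => DE_conj g v u hx
  · exact fun v u hvu hinf => DE_hom (Es_le_Sv (hcyc v u hvu hinf)) (hcyc v u hvu hinf)
      (hne v u hinf) (hvis' v u hvu hinf)
  · intro v u hvu hinf
    have hc := hcyc v u hvu hinf
    refine QC_DE hS ?_ (Es_le_Sv hc) hc (hne v u hinf) (hvis' v u hvu hinf) ?_
    · rw [commutator_le]
      intro g hg h hh
      refine ⟨(MulAction.stabilizer G v).commutator_le_self (commutator_mem_commutator hg.1 hh.1), ?_⟩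
      exact comm_vc hc hinf hg.2 hh.2
    · rintro g ⟨hgv, hgc⟩ x hx -
      have hgv : g • v = v := hgv
      have h1 := DE_conj g v u hx
      have h2 : Commensurable (Es G v (g • u)) (Es G v u) := by
        have h3 : g ∈ commensurator (Es G v u) := hgc
        rw [Commensurable.commensurator_mem_iff, ← Es_smul, hgv] at h3
        exact h3
      have h4 : T.Adj v (g • u) := by
        have := hact g v u hvu
        rwa [hgv] at this
      have h5 : Infinite (Es G v (g • u)) := by
        have h6 := Pool.Agent.N431.CE.inf_smul (g := g) hinf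
        rwa [hgv] at h6
      rw [hgv, DE_dep (hcyc v _ h4 h5) hc h2] at h1
      exact h1

/-- residually torsion-free nilpotent -/
def RTN (G : Type) [Group G] : Prop :=
  ∀ x : G, x ≠ 1 → ∃ (N : Type) (_ : Group N) (f : G →* N), TN N ∧ f x ≠ 1

theorem cyc_res (hC : ClosedE C) (hS : ∀ (G : Type) [Group G], Group.IsSolvable G → C G)
    (hA : AcylF C) (hT : T.IsTree) (hact : ∀ (g : G) (u v : V), T.Adj u v → T.Adj (g • u) (g • v))
    (hV : ∀ v : V, C ↥(MulAction.stabilizer G v) ∧ RTN ↥(MulAction.stabilizer G v))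
    (hcyc : ∀ v u, T.Adj v u → IsCyclic (Es G v u)) : C G := by
  have htf : ∀ (v : V) (x : MulAction.stabilizer G v) (m : ℕ), m ≠ 0 → x ^ m = 1 → x = 1 := by
    intro v x m hm hxm
    by_contra hx
    obtain ⟨N, _, f, hN, hf⟩ := (hV v).2 x hx
    exact hf (hN.2 _ m hm (by rw [← map_pow, hxm, map_one]))
  refine cyc_main hC hS hA hT hact (fun v => (hV v).1) (fun v u h _ => hcyc v u h) 1 ?_ ?_
  · intro v u hvu hfin
    have h1 : Subsingleton (Es G v u) := by
      refine ⟨fun x y => ?_⟩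
      have key : ∀ z : Es G v u, z = 1 := by
        intro z
        have h3 : z ^ Nat.card (Es G v u) = 1 := pow_card_eq_one'
        have h4 : (z : G) ^ Nat.card (Es G v u) = 1 := by
          rw [← Subgroup.coe_pow, h3]
          rfl
        have h2 : (⟨(z : G), z.2.1⟩ : MulAction.stabilizer G v) = 1 :=
          htf v _ (Nat.card (Es G v u)) Nat.card_pos.ne' (Subtype.ext h4)
        exact Subtype.ext (congrArg (fun y : MulAction.stabilizer G v => (y : G)) h2)
      rw [key x, key y]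
    exact Finite.card_le_one_iff_subsingleton.2 h1
  · intro v u hvu hinf
    obtain ⟨⟨e, he⟩, hgen⟩ := (hcyc v u hvu).exists_generator
    have he1 : (⟨e, he.1⟩ : MulAction.stabilizer G v) ≠ 1 := by
      intro h1
      have h2 : e = 1 := congrArg Subtype.val h1
      subst h2
      have : Subsingleton (Es G v u) := ⟨fun x y => by
        obtain ⟨i, hi⟩ := hgen x
        obtain ⟨j, hj⟩ := hgen y
        have hi' : (1 : Es G v u) ^ i = x := hi
        have hj' : (1 : Es G v u) ^ j = y := hj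
        rw [← hi', ← hj', one_zpow, one_zpow]⟩
      exact not_subsingleton (Es G v u) this
    obtain ⟨N, _, f, hN, hf⟩ := (hV v).2 _ he1
    refine ⟨N, _, f.comp (inclusion (show Sv G v u ≤ MulAction.stabilizer G v from inf_le_left)), hN,
      fun x hxu hx => ?_⟩
    obtain ⟨k, hk⟩ := hgen ⟨x, x.2.1, hxu⟩
    have hk : e ^ k = x := by
      have := congrArg Subtype.val hk
      simpa using this
    have h1 : (⟨x, x.2.1⟩ : MulAction.stabilizer G v) = ⟨e, he.1⟩ ^ k := by
      apply Subtype.ext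
      simpa using hk.symm
    have h2 : f ⟨x, x.2.1⟩ = 1 := hx
    rw [h1, map_zpow] at h2
    have hk0 : k = 0 := by
      by_contra hk0
      refine hf (hN.2 _ k.natAbs (Int.natAbs_ne_zero.2 hk0) ?_)
      rcases Int.natAbs_eq k with h3 | h3
      · rw [← zpow_natCast, ← h3, h2]
      · have h4 : ((k.natAbs : ℕ) : ℤ) = -k := by omega
        rw [← zpow_natCast, h4, zpow_neg, h2, inv_one]
    apply Subtype.ext
    rw [← hk, hk0, zpow_zero]
    rfl

end Pool.Agent.U709.Cy
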