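import Pool.Agent.U709.HubC
import Pool.Agent.Helper705_SA.Amalg

/-!
# Hubs in trees: edge groups which are visible in the first homology of the hubs
-/

set_option autoImplicit false

namespace Pool.Agent.U709.Gl

open SimpleGraph
open scoped commutatorElement
open Pool.Agent.Y110.FJ Pool.Agent.Y462.SS

variable {C : ∀ (G : Type) [Group G], Prop}

section h1

variable {G V : Type} [Group G] [MulAction G V] {T : SimpleGraph V} {A : V → Prop}

/-- hubs whose edge groups are independent in the first homology -/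
theorem hubs_h1 (hC : ClosedE C) (hT : T.IsTree)
    (hact : ∀ (g : G) (u v : V), T.Adj u v → T.Adj (g • u) (g • v))
    (hV : ∀ v : V, C ↥(MulAction.stabilizer G v)) (hinv : ∀ (g : G) v, A v → A (g • v))
    (halt : ∀ u v, T.Adj u v → (A u ↔ ¬ A v))
    (hind : ∀ b a, ¬ A b → T.Adj b a →
      Eg G a b ⊓ (⁅MulAction.stabilizer G b, MulAction.stabilizer G b⁆ ⊔ Oth G T b a) = ⊥) : C G := by
  have hcl : ∀ b : V, ⁅MulAction.stabilizer G b, MulAction.stabilizer G b⁆ ≤
      MulAction.stabilizer G b := fun b => Subgroup.commutator_le_self _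
  have hcom : ∀ (b : V) (x y : G), x • b = b → y • b = b →
      ⁅x, y⁆ ∈ ⁅MulAction.stabilizer G b, MulAction.stabilizer G b⁆ :=
    fun b x y hx hy => Subgroup.commutator_mem_commutator hx hy
  have h : Hubs T A (fun b => ⁅MulAction.stabilizer G b, MulAction.stabilizer G b⁆) := by
    refine ⟨hinv, halt, fun b _ x hx => hcl b hx, fun g b _ x hx => ?_, fun b a _ ha g hg x hx => ?_,
      hind, fun b _ g hg => ⟨1, one_mem _, fun a ha x hx => ?_⟩⟩
    · have h1 : (⁅MulAction.stabilizer G b, MulAction.stabilizer G b⁆ : Subgroup G) ≤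
          (⁅MulAction.stabilizer G (g • b), MulAction.stabilizer G (g • b)⁆ : Subgroup G).comap
            (MulAut.conj g).toMonoidHom := by
        rw [← Subgroup.map_le_iff_le_comap, Subgroup.map_commutator]
        have h2 : (MulAction.stabilizer G b).map (MulAut.conj g).toMonoidHom ≤
            MulAction.stabilizer G (g • b) := by
          rintro _ ⟨y, hy, rfl⟩
          show (g * y * g⁻¹) • (g • b) = g • b
          rw [mul_smul, mul_smul, inv_smul_smul, MulAction.mem_stabilizer_iff.1 hy]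
        exact Subgroup.commutator_mono h2 h2
      exact h1 hx
    · have h1 : x⁻¹ • b = b := by rw [inv_smul_eq_iff, hx.2]
      have h2 : g * x * g⁻¹ = x * ⁅x⁻¹, g⁆ := by
        rw [commutatorElement_def]
        group
      rw [h2]
      exact mul_mem (Subgroup.mem_sup_left hx) (Subgroup.mem_sup_right (hcom b _ _ h1 hg))
    · rw [inv_one, one_mul]
      exact hcom b _ _ hg hx.2
  refine hubs hC hT hact hV h fun b hb => ?_
  have hn : ((Rg T (fun b => ⁅MulAction.stabilizer G b, MulAction.stabilizer G b⁆) b).subgroupOf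
      (MulAction.stabilizer G b)).Normal := by
    refine ⟨fun x hx g => ?_⟩
    rw [Subgroup.mem_subgroupOf] at hx ⊢
    have h1 := h.Rg_smul hact (g : G) hb hx
    rwa [MulAction.mem_stabilizer_iff.1 g.2] at h1
  refine ⟨_, inferInstance, QuotientGroup.mk' ((Rg T (fun b => ⁅MulAction.stabilizer G b,
    MulAction.stabilizer G b⁆) b).subgroupOf (MulAction.stabilizer G b)),
    C_ab hC.base _ ?_, fun g => ?_⟩
  · intro x y
    obtain ⟨x, rfl⟩ := QuotientGroup.mk_surjective x
    obtain ⟨y, rfl⟩ := QuotientGroup.mk_surjective y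
    rw [← QuotientGroup.mk_mul, ← QuotientGroup.mk_mul]
    refine QuotientGroup.eq.2 ?_
    rw [Subgroup.mem_subgroupOf]
    refine K_le_Rg ?_
    have h1 : (((x * y)⁻¹ * (y * x) : MulAction.stabilizer G b) : G) = ⁅(y : G)⁻¹, (x : G)⁻¹⁆ := by
      rw [commutatorElement_def]
      push_cast
      group
    rw [h1]
    exact hcom b _ _ (inv_mem y.2) (inv_mem x.2)
  · exact (QuotientGroup.eq_one_iff g).trans Subgroup.mem_subgroupOf

end h1

open Pool.Agent.Helper705_SA (IsAmalgam cosetGraph cosetGraph_isTree stab_coset)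

/-- **amalgams over subgroups which are visible in the first homology of one factor** -/
theorem amalgam_h1 (hC : ClosedE C) {G : Type} [Group G] (A B : Subgroup G) (h : IsAmalgam A B)
    (hA : C A) (hB : C B) (hE : A ⊓ B ⊓ ⁅B, B⁆ = ⊥) : C G := by
  have hsl : ∀ g : G, MulAction.stabilizer G (Sum.inl (QuotientGroup.mk g) : (G ⧸ A) ⊕ (G ⧸ B)) =
      A.map (MulAut.conj g).toMonoidHom := by
    intro g
    rw [← stab_coset]
    ext x
    rw [MulAction.mem_stabilizer_iff, MulAction.mem_stabilizer_iff]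
    exact Sum.inl_injective.eq_iff (a := x • (QuotientGroup.mk g : G ⧸ A))
  have hsr : ∀ g : G, MulAction.stabilizer G (Sum.inr (QuotientGroup.mk g) : (G ⧸ A) ⊕ (G ⧸ B)) =
      B.map (MulAut.conj g).toMonoidHom := by
    intro g
    rw [← stab_coset]
    ext x
    rw [MulAction.mem_stabilizer_iff, MulAction.mem_stabilizer_iff]
    exact Sum.inr_injective.eq_iff (a := x • (QuotientGroup.mk g : G ⧸ B))
  have conjEquiv : ∀ (D : Subgroup G) (g : G), C D → C (D.map (MulAut.conj g).toMonoidHom) := by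
    intro D g hD
    exact hC.base.of_injective _ _ (D.equivMapOfInjective _ (MulAut.conj g).injective).symm.toMonoidHom
      (D.equivMapOfInjective _ (MulAut.conj g).injective).symm.injective hD
  refine hubs_h1 (T := cosetGraph A B) (A := fun v => v.isLeft = true) hC (cosetGraph_isTree A B h)
    ?_ ?_ ?_ ?_ ?_
  · rintro g v w ⟨k, ⟨rfl, rfl⟩ | ⟨rfl, rfl⟩⟩
    · exact ⟨g * k, Or.inl ⟨rfl, rfl⟩⟩
    · exact ⟨g * k, Or.inr ⟨rfl, rfl⟩⟩
  · rintro (v | v)
    · obtain ⟨g, rfl⟩ := QuotientGroup.mk_surjective v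
      rw [hsl]
      exact conjEquiv A g hA
    · obtain ⟨g, rfl⟩ := QuotientGroup.mk_surjective v
      rw [hsr]
      exact conjEquiv B g hB
  · rintro g (v | v) hv
    · rfl
    · exact absurd hv (by simp)
  · rintro u v ⟨k, ⟨rfl, rfl⟩ | ⟨rfl, rfl⟩⟩ <;> simp
  · rintro b a hb ⟨g, ⟨rfl, rfl⟩ | ⟨rfl, rfl⟩⟩
    · exact absurd rfl hb
    · -- the hub is `g B` and the neighbour is `g A`
      have hO : Oth G (cosetGraph A B) (Sum.inr (QuotientGroup.mk g)) (Sum.inl (QuotientGroup.mk g)) =
          ⊥ := by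
        rw [eq_bot_iff]
        refine iSup_le ?_
        rintro ⟨a', ⟨k, ⟨h1, h2⟩ | ⟨h1, h2⟩⟩, hk⟩
        · cases h1
        · exfalso
          subst h1
          have h3 : (QuotientGroup.mk g : G ⧸ B) = QuotientGroup.mk k := Sum.inr_injective h2
          refine hk (k * g⁻¹) ?_ ?_
          · show Sum.inr (QuotientGroup.mk (k * g⁻¹ * g)) = Sum.inr (QuotientGroup.mk g)
            rw [inv_mul_cancel_right, h3]
          · show Sum.inl (QuotientGroup.mk (k * g⁻¹ * g)) = Sum.inl (QuotientGroup.mk k)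
            rw [inv_mul_cancel_right]
      rw [hO, sup_bot_eq]
      have h1 : Eg G (Sum.inl (QuotientGroup.mk g) : (G ⧸ A) ⊕ (G ⧸ B))
          (Sum.inr (QuotientGroup.mk g)) = (A ⊓ B).map (MulAut.conj g).toMonoidHom := by
        show MulAction.stabilizer G _ ⊓ MulAction.stabilizer G _ = _
        rw [hsl, hsr, ← Subgroup.map_inf _ _ _ (MulAut.conj g).injective]
      rw [h1, hsr, ← Subgroup.map_commutator, ← Subgroup.map_inf _ _ _ (MulAut.conj g).injective, hE,
        Subgroup.map_bot]

end Pool.Agent.U709.Gl
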