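import Pool.Agent.U709.CyC
import Pool.Agent.U709.HubD
import Pool.Agent.Helper270.HNN

/-!
# Cyclic edge groups: amalgams and HNN extensions
-/

set_option autoImplicit false

namespace Pool.Agent.U709.Cy

open SimpleGraph
open Subgroup
open Pool.Agent.Y110.FJ
open Pool.Agent.N509.TX (AcylF)
open Pool.Agent.N431.CE (Es mem_Es Es_comm Es_smul Sv)
open Pool.Agent.Helper705_SA

variable {C : ∀ (G : Type) [Group G], Prop}

theorem RTN.of_inj {H K : Type} [Group H] [Group K] (h : RTN K) (f : H →* K)
    (hf : Function.Injective f) : RTN H := by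
  intro x hx
  obtain ⟨N, _, g, hN, hg⟩ := h (f x) (fun h1 => hx (hf (h1.trans (map_one f).symm)))
  exact ⟨N, _, g.comp f, hN, hg⟩

theorem RTN.conj {G : Type} [Group G] {D : Subgroup G} (g : G) (h : RTN D) :
    RTN (D.map (MulAut.conj g).toMonoidHom) :=
  h.of_inj (D.equivMapOfInjective _ (MulAut.conj g).injective).symm.toMonoidHom
    (D.equivMapOfInjective _ (MulAut.conj g).injective).symm.injective

theorem C_conj (hC : ClosedE C) {G : Type} [Group G] {D : Subgroup G} (g : G) (h : C D) :
    C (D.map (MulAut.conj g).toMonoidHom) :=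
  hC.base.of_injective _ _ (D.equivMapOfInjective _ (MulAut.conj g).injective).symm.toMonoidHom
    (D.equivMapOfInjective _ (MulAut.conj g).injective).symm.injective h

theorem cyc_map {G H : Type} [Group G] [Group H] {D : Subgroup G} (f : G →* H) (h : IsCyclic D) :
    IsCyclic (D.map f) :=
  isCyclic_of_surjective (f.subgroupMap D) (f.subgroupMap_surjective D)

/-- amalgams of residually torsion-free nilpotent groups over cyclic groups -/
theorem cyc_amalgam (hC : ClosedE C) (hS : ∀ (G : Type) [Group G], Group.IsSolvable G → C G)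
    (hA : AcylF C) {G : Type} [Group G] (A B : Subgroup G) (h : IsAmalgam A B)
    (hcA : C A) (hcB : C B) (hrA : RTN A) (hrB : RTN B) (hE : IsCyclic (A ⊓ B : Subgroup G)) : C G := by
  have hsl : ∀ g : G, MulAction.stabilizer G (Sum.inl (QuotientGroup.mk g) : (G ⧸ A) ⊕ (G ⧸ B)) =
      A.map (MulAut.conj g).toMonoidHom := by
    intro g
    rw [← stab_coset]
    ext x
    rw [MulAction.mem_stabilizer_iff, MulAction.mem_stabilizer_iff]
    exact Sum.inl_injective.eq_iff (a := x • (QuotientGroup.mk g : G ⧸ A))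
  have hsr : ∀ g : G, MulAction.stabilizer G (Sum.inr (QuotientGroup.mk g) : (G ⧸ A) ⊕ (G ⧸ B)) =
      B.map (MulAut.conj g).toMonoidHom := by
    intro g
    rw [← stab_coset]
    ext x
    rw [MulAction.mem_stabilizer_iff, MulAction.mem_stabilizer_iff]
    exact Sum.inr_injective.eq_iff (a := x • (QuotientGroup.mk g : G ⧸ B))
  have hes : ∀ g : G, IsCyclic (Es G (Sum.inl (QuotientGroup.mk g) : (G ⧸ A) ⊕ (G ⧸ B))
      (Sum.inr (QuotientGroup.mk g))) := by
    intro g
    have h1 : Es G (Sum.inl (QuotientGroup.mk g) : (G ⧸ A) ⊕ (G ⧸ B)) (Sum.inr (QuotientGroup.mk g)) =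
        (A ⊓ B).map (MulAut.conj g).toMonoidHom := by
      show MulAction.stabilizer G _ ⊓ MulAction.stabilizer G _ = _
      rw [hsl, hsr, ← Subgroup.map_inf _ _ _ (MulAut.conj g).injective]
    rw [h1]
    exact cyc_map _ hE
  refine cyc_res (T := cosetGraph A B) hC hS hA (cosetGraph_isTree A B h) ?_ ?_ ?_
  · rintro g v w ⟨k, ⟨rfl, rfl⟩ | ⟨rfl, rfl⟩⟩
    · exact ⟨g * k, Or.inl ⟨rfl, rfl⟩⟩
    · exact ⟨g * k, Or.inr ⟨rfl, rfl⟩⟩
  · rintro (v | v)
    · obtain ⟨g, rfl⟩ := QuotientGroup.mk_surjective v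
      rw [hsl]
      exact ⟨C_conj hC g hcA, hrA.conj g⟩
    · obtain ⟨g, rfl⟩ := QuotientGroup.mk_surjective v
      rw [hsr]
      exact ⟨C_conj hC g hcB, hrB.conj g⟩
  · rintro u v ⟨g, ⟨rfl, rfl⟩ | ⟨rfl, rfl⟩⟩
    · exact hes g
    · rw [Es_comm]
      exact hes g

open Pool.Agent.Helper270.HNN in
/-- HNN extensions of residually torsion-free nilpotent groups along cyclic groups -/
theorem cyc_hnn (hC : ClosedE C) (hS : ∀ (G : Type) [Group G], Group.IsSolvable G → C G)
    (hA : AcylF C) {G : Type} [Group G] (A B : Subgroup G) (φ : A ≃* B) (hG : C G) (hr : RTN G)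
    (hE : IsCyclic A) : C (HNNExtension G A B φ) := by
  have hst : ∀ g : HNNExtension G A B φ, MulAction.stabilizer (HNNExtension G A B φ) (vt g : Vert φ) =
      (HNNExtension.of.range : Subgroup (HNNExtension G A B φ)).map (MulAut.conj g).toMonoidHom :=
    fun g => stab_coset (HNNExtension.of.range : Subgroup (HNNExtension G A B φ)) g
  have hran : C (HNNExtension.of.range : Subgroup (HNNExtension G A B φ)) ∧
      RTN (HNNExtension.of.range : Subgroup (HNNExtension G A B φ)) := by
    let e : G ≃* (HNNExtension.of.range : Subgroup (HNNExtension G A B φ)) :=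
      MonoidHom.ofInjective (HNNExtension.of_injective φ)
    exact ⟨hC.base.of_injective _ _ e.symm.toMonoidHom e.symm.injective hG,
      hr.of_inj e.symm.toMonoidHom e.symm.injective⟩
  have hes : ∀ g : HNNExtension G A B φ,
      IsCyclic (Es (HNNExtension G A B φ) (vt g : Vert φ) (vt (g * HNNExtension.t))) := by
    intro g
    have h1 : Es (HNNExtension G A B φ) (vt (g * HNNExtension.t) : Vert φ) (vt g) =
        (A.map (HNNExtension.of : G →* HNNExtension G A B φ)).map
          (MulAut.conj (g * HNNExtension.t)).toMonoidHom := by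
      have h2 : (MulAction.stabilizer (HNNExtension G A B φ) (vt g : Vert φ)) =
          (MulAction.stabilizer (HNNExtension G A B φ) (vt HNNExtension.t⁻¹ : Vert φ)).map
            (MulAut.conj (g * HNNExtension.t)).toMonoidHom := by
        rw [hst, hst, Subgroup.map_map]
        congr 1
        refine MonoidHom.ext fun x => ?_
        simp [MulAut.conj_apply, mul_assoc]
      have h3 : (MulAction.stabilizer (HNNExtension G A B φ) (vt (g * HNNExtension.t) : Vert φ)) =
          (MulAction.stabilizer (HNNExtension G A B φ) (vt 1 : Vert φ)).map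
            (MulAut.conj (g * HNNExtension.t)).toMonoidHom := by
        rw [hst, hst, Subgroup.map_map]
        congr 1
        refine MonoidHom.ext fun x => ?_
        simp [MulAut.conj_apply, mul_assoc]
      show MulAction.stabilizer _ _ ⊓ MulAction.stabilizer _ _ = _
      rw [h2, h3, ← Subgroup.map_inf _ _ _ (MulAut.conj _).injective, stab_edge]
    rw [Es_comm, h1]
    exact cyc_map _ (cyc_map _ hE)
  refine cyc_res (T := graph φ) hC hS hA isTree treeAct.adj ?_ ?_
  · intro v
    obtain ⟨g, rfl⟩ := exists_vt v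
    rw [hst]
    exact ⟨C_conj hC g hran.1, hran.2.conj g⟩
  · intro u v huv
    obtain ⟨g, ⟨rfl, rfl⟩ | ⟨rfl, rfl⟩⟩ := adj_iff.1 huv
    · exact hes g
    · rw [Es_comm]
      exact hes g

end Pool.Agent.U709.Cy
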