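import Pool.Agent.U709.Cls

/-!
# Groups of matrices of degree two over a domain with a degree function
-/

set_option autoImplicit false

namespace Pool.Agent.U709

open Matrix
open Pool.Agent.Y110.FJ (ClosedE)
open Pool.Agent.U709.BT

/-- `δ` is a degree function on `R`: the degree of a product of nonzero elements is the sum of their
degrees, and the degree of a nonzero sum is at most the maximum. -/
structure IsDegree {R : Type} [CommRing R] (δ : R → ℕ) : Prop where
  mul : ∀ a b, a ≠ 0 → b ≠ 0 → δ (a * b) = δ a + δ b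
  add : ∀ a b, a ≠ 0 → b ≠ 0 → a + b ≠ 0 → δ (a + b) ≤ max (δ a) (δ b)

section deg

variable {R : Type} [CommRing R] [IsDomain R] {δ : R → ℕ}

theorem IsDegree.one (h : IsDegree δ) : δ 1 = 0 := by
  have := h.mul 1 1 one_ne_zero one_ne_zero
  rw [mul_one] at this
  omega

theorem IsDegree.unit (h : IsDegree δ) {u : R} (hu : IsUnit u) : δ u = 0 := by
  obtain ⟨w, hw⟩ := hu.exists_right_inv
  have h1 : u ≠ 0 := hu.ne_zero
  have h2 : w ≠ 0 := by
    rintro rfl
    simp at hw
  have := h.mul u w h1 h2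
  rw [hw, h.one] at this
  omega

/-- the degree of `r` is at most `n` (or `r = 0`) -/
def Bd (δ : R → ℕ) (n : ℕ) (r : R) : Prop := r ≠ 0 → δ r ≤ n

omit [IsDomain R] in
theorem Bd_add (h : IsDegree δ) {n : ℕ} {a b : R} (ha : Bd δ n a) (hb : Bd δ n b) :
    Bd δ n (a + b) := by
  intro h0
  by_cases h1 : a = 0
  · rw [h1, zero_add] at h0 ⊢
    exact hb h0
  by_cases h2 : b = 0
  · rw [h2, add_zero] at h0 ⊢
    exact ha h0
  exact (h.add a b h1 h2 h0).trans (max_le (ha h1) (hb h2))

theorem Bd_neg (h : IsDegree δ) {n : ℕ} {a : R} (ha : Bd δ n a) : Bd δ n (-a) := by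
  intro h0
  have h1 : a ≠ 0 := by simpa using h0
  have h2 := h.mul (-1) a (by simp) h1
  rw [neg_one_mul, h.unit (u := -1) isUnit_one.neg, zero_add] at h2
  rw [h2]
  exact ha h1

variable (δ) in
/-- minus the degree on the field of fractions -/
noncomputable def v0 (x : FractionRing R) : ℤ :=
  (δ (IsLocalization.sec (nonZeroDivisors R) x).2 : ℤ) -
    δ (IsLocalization.sec (nonZeroDivisors R) x).1

theorem v0_div (h : IsDegree δ) {a b : R} (ha : a ≠ 0) (hb : b ≠ 0) :
    v0 δ (algebraMap R (FractionRing R) a / algebraMap R (FractionRing R) b) = δ b - δ a := by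
  have hinj : Function.Injective (algebraMap R (FractionRing R)) :=
    IsFractionRing.injective R (FractionRing R)
  have ha' : algebraMap R (FractionRing R) a ≠ 0 := by
    rwa [Ne, map_eq_zero_iff _ hinj]
  have hb' : algebraMap R (FractionRing R) b ≠ 0 := by
    rwa [Ne, map_eq_zero_iff _ hinj]
  obtain ⟨x, hx⟩ : ∃ x, x = algebraMap R (FractionRing R) a / algebraMap R (FractionRing R) b :=
    ⟨_, rfl⟩
  rw [← hx]
  obtain ⟨s, hs⟩ : ∃ s, s = IsLocalization.sec (nonZeroDivisors R) x := ⟨_, rfl⟩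
  have h1 : x * algebraMap R (FractionRing R) s.2 = algebraMap R (FractionRing R) s.1 := by
    rw [hs]
    exact IsLocalization.sec_spec (nonZeroDivisors R) x
  have h2 : (s.2 : R) ≠ 0 := nonZeroDivisors.ne_zero s.2.2
  have h3 : a * s.2 = s.1 * b := by
    apply hinj
    rw [map_mul, map_mul, ← h1, hx]
    field_simp
  have h4 : s.1 ≠ 0 := by
    intro h0
    rw [h0, zero_mul] at h3
    exact (mul_ne_zero ha h2) h3
  have h5 := congrArg δ h3
  rw [h.mul _ _ ha h2, h.mul _ _ h4 hb] at h5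
  unfold v0
  rw [← hs]
  omega

theorem rep (x : FractionRing R) (hx : x ≠ 0) : ∃ a b : R, a ≠ 0 ∧ b ≠ 0 ∧
    x = algebraMap R (FractionRing R) a / algebraMap R (FractionRing R) b := by
  obtain ⟨a, b, hb, rfl⟩ := IsFractionRing.div_surjective (A := R) x
  refine ⟨a, b, ?_, nonZeroDivisors.ne_zero hb, rfl⟩
  rintro rfl
  simp at hx

theorem v0_mul (h : IsDegree δ) {x y : FractionRing R} (hx : x ≠ 0) (hy : y ≠ 0) :
    v0 δ (x * y) = v0 δ x + v0 δ y := by
  obtain ⟨a, b, ha, hb, rfl⟩ := rep x hx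
  obtain ⟨c, d, hc, hd, rfl⟩ := rep y hy
  rw [div_mul_div_comm, ← map_mul, ← map_mul, v0_div h (mul_ne_zero ha hc) (mul_ne_zero hb hd),
    v0_div h ha hb, v0_div h hc hd, h.mul _ _ ha hc, h.mul _ _ hb hd]
  push_cast
  ring

theorem v0_add (h : IsDegree δ) {x y : FractionRing R} (hx : x ≠ 0) (hy : y ≠ 0) (hxy : x + y ≠ 0) :
    min (v0 δ x) (v0 δ y) ≤ v0 δ (x + y) := by
  have hinj : Function.Injective (algebraMap R (FractionRing R)) :=
    IsFractionRing.injective R (FractionRing R)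
  obtain ⟨a, b, ha, hb, rfl⟩ := rep x hx
  obtain ⟨c, d, hc, hd, rfl⟩ := rep y hy
  have hb' : algebraMap R (FractionRing R) b ≠ 0 := by
    rwa [Ne, map_eq_zero_iff _ hinj]
  have hd' : algebraMap R (FractionRing R) d ≠ 0 := by
    rwa [Ne, map_eq_zero_iff _ hinj]
  have e : algebraMap R (FractionRing R) a / algebraMap R (FractionRing R) b +
      algebraMap R (FractionRing R) c / algebraMap R (FractionRing R) d =
      algebraMap R (FractionRing R) (a * d + b * c) / algebraMap R (FractionRing R) (b * d) := by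
    rw [div_add_div _ _ hb' hd', map_add, map_mul, map_mul, map_mul]
  rw [e] at hxy ⊢
  have h0 : a * d + b * c ≠ 0 := by
    intro h0
    rw [h0] at hxy
    simp at hxy
  rw [v0_div h h0 (mul_ne_zero hb hd), v0_div h ha hb, v0_div h hc hd, h.mul _ _ hb hd]
  have h1 := h.add _ _ (mul_ne_zero ha hd) (mul_ne_zero hb hc) h0
  rw [h.mul _ _ ha hd, h.mul _ _ hb hc] at h1
  push_cast
  omega

theorem v0_algebraMap (h : IsDegree δ) {a : R} (ha : a ≠ 0) :
    v0 δ (algebraMap R (FractionRing R) a) = - δ a := by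
  have := v0_div h ha one_ne_zero
  rw [map_one, div_one, h.one] at this
  rw [this]
  simp

theorem exists_e (h : IsDegree δ) (hnt : ∃ r : R, r ≠ 0 ∧ δ r ≠ 0) :
    ∃ (e : ℕ) (w : FractionRing R), 0 < e ∧ w ≠ 0 ∧ v0 δ w = e ∧
      ∀ x : FractionRing R, x ≠ 0 → (e : ℤ) ∣ v0 δ x := by
  let H : AddSubgroup ℤ :=
    { carrier := {n | ∃ x : FractionRing R, x ≠ 0 ∧ v0 δ x = n}
      zero_mem' := ⟨1, one_ne_zero, by
        have := v0_algebraMap h (one_ne_zero (α := R))
        rw [map_one, h.one] at this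
        simpa using this⟩
      add_mem' := by
        rintro _ _ ⟨x, hx, rfl⟩ ⟨y, hy, rfl⟩
        exact ⟨x * y, mul_ne_zero hx hy, v0_mul h hx hy⟩
      neg_mem' := by
        rintro _ ⟨x, hx, rfl⟩
        refine ⟨x⁻¹, inv_ne_zero hx, ?_⟩
        have h1 := v0_mul h hx (inv_ne_zero hx)
        rw [mul_inv_cancel₀ hx] at h1
        have h2 := v0_algebraMap h (one_ne_zero (α := R))
        rw [map_one, h.one] at h2
        push_cast at h2
        omega }
  obtain ⟨a, ha⟩ := Int.subgroup_cyclic H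
  have hmem : ∀ n : ℤ, n ∈ H ↔ a ∣ n := by
    intro n
    rw [ha, ← AddSubgroup.zmultiples_eq_closure, Int.mem_zmultiples_iff]
  obtain ⟨r, hr, hδ⟩ := hnt
  have ha0 : a ≠ 0 := by
    rintro rfl
    have h1 : (v0 δ (algebraMap R (FractionRing R) r)) ∈ H := by
      refine ⟨_, ?_, rfl⟩
      rwa [Ne, map_eq_zero_iff _ (IsFractionRing.injective R (FractionRing R))]
    rw [hmem, v0_algebraMap h hr, zero_dvd_iff] at h1
    omega
  have h2 : ((a.natAbs : ℕ) : ℤ) ∈ H := by
    rw [hmem]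
    exact Int.dvd_natCast.2 dvd_rfl
  obtain ⟨w, hw, hw'⟩ := h2
  refine ⟨a.natAbs, w, Int.natAbs_pos.2 ha0, hw, hw', fun x hx => ?_⟩
  have h3 : v0 δ x ∈ H := ⟨x, hx, rfl⟩
  rw [hmem] at h3
  exact Int.natAbs_dvd.2 h3

theorem exists_DV (h : IsDegree δ) (hnt : ∃ r : R, r ≠ 0 ∧ δ r ≠ 0) :
    ∃ (e : ℕ) (V : DV (FractionRing R)), 0 < e ∧ ∀ r : R, r ≠ 0 →
      (e : ℤ) * V.v (algebraMap R (FractionRing R) r) = - δ r := by
  obtain ⟨e, w, he, hw, hw', hd⟩ := exists_e h hnt
  have he' : (0 : ℤ) < e := by exact_mod_cast he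
  have key : ∀ x : FractionRing R, x ≠ 0 → (e : ℤ) * (v0 δ x / e) = v0 δ x :=
    fun x hx => Int.mul_ediv_cancel' (hd x hx)
  refine ⟨e, ⟨fun x => v0 δ x / e, ?_, ?_, w, hw, ?_⟩, he, ?_⟩
  · intro a b ha hb
    have h3 := key _ (mul_ne_zero ha hb)
    have h4 : (e : ℤ) * (v0 δ (a * b) / e) = (e : ℤ) * (v0 δ a / e + v0 δ b / e) := by
      rw [h3, v0_mul h ha hb, mul_add, key a ha, key b hb]
    exact mul_left_cancel₀ he'.ne' h4
  · intro a b ha hb hab
    have h1 := v0_add h ha hb hab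
    rw [← key a ha, ← key b hb, ← key _ hab] at h1
    have h5 : ∀ x y z : ℤ, min ((e : ℤ) * x) (e * y) ≤ e * z → min x y ≤ z := by
      intro x y z hh
      rcases min_le_iff.1 hh with hh | hh
      · exact min_le_iff.2 (Or.inl (le_of_mul_le_mul_left hh he'))
      · exact min_le_iff.2 (Or.inr (le_of_mul_le_mul_left hh he'))
    exact h5 _ _ _ h1
  · rw [hw']
    exact Int.ediv_self he'.ne'
  · intro r hr
    change (e : ℤ) * (v0 δ _ / e) = _
    rw [key _ (by rwa [Ne, map_eq_zero_iff _ (IsFractionRing.injective R (FractionRing R))]),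
      v0_algebraMap h hr]

end deg

section main

variable {C : ∀ (G : Type) [Group G], Prop}

variable {R : Type} [CommRing R]

/-- the congruence subgroup -/
def Cg (J : Ideal R) : Subgroup (GL (Fin 2) R) :=
  (GeneralLinearGroup.map (n := Fin 2) (Ideal.Quotient.mk J)).ker

theorem mem_Cg {J : Ideal R} {g : GL (Fin 2) R} :
    g ∈ Cg J ↔ ∀ i j, g.1 i j - (1 : Matrix (Fin 2) (Fin 2) R) i j ∈ J := by
  unfold Cg
  rw [MonoidHom.mem_ker]
  constructor
  · intro h i j
    rw [← Ideal.Quotient.eq_zero_iff_mem, map_sub, sub_eq_zero]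
    have h1 : (GeneralLinearGroup.map (n := Fin 2) (Ideal.Quotient.mk J) g).1 i j =
        (1 : Matrix (Fin 2) (Fin 2) (R ⧸ J)) i j := by
      rw [h]
      rfl
    have h2 : (GeneralLinearGroup.map (n := Fin 2) (Ideal.Quotient.mk J) g).1 i j =
      Ideal.Quotient.mk J (g.1 i j) := rfl
    rw [← h2, h1, Matrix.one_apply, Matrix.one_apply]
    split_ifs <;> simp
  · intro h
    apply GeneralLinearGroup.ext
    intro i j
    have h1 := h i j
    rw [← Ideal.Quotient.eq_zero_iff_mem, map_sub, sub_eq_zero] at h1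
    change Ideal.Quotient.mk J (g.1 i j) = (1 : Matrix (Fin 2) (Fin 2) (R ⧸ J)) i j
    rw [h1, Matrix.one_apply, Matrix.one_apply]
    split_ifs <;> simp

theorem Cg_comm {J K : Ideal R} (hJK : J * J ≤ K) {x y : GL (Fin 2) R} (hx : x ∈ Cg J)
    (hy : y ∈ Cg J) : x * y * x⁻¹ * y⁻¹ ∈ Cg K := by
  have h1 : x * y * (y * x)⁻¹ ∈ Cg K := by
    unfold Cg
    rw [MonoidHom.mem_ker, map_mul, map_inv, mul_inv_eq_one]
    apply GeneralLinearGroup.ext
    intro i j
    change Ideal.Quotient.mk K ((x * y).1 i j) = Ideal.Quotient.mk K ((y * x).1 i j)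
    rw [Ideal.Quotient.eq]
    have h2 : (x * y).1 i j - (y * x).1 i j = ((x.1 - 1) * (y.1 - 1) - (y.1 - 1) * (x.1 - 1)) i j := by
      have h3 : (x.1 - 1) * (y.1 - 1) - (y.1 - 1) * (x.1 - 1) = x.1 * y.1 - y.1 * x.1 := by
        noncomm_ring
      rw [h3]
      rfl
    rw [h2, Matrix.sub_apply, Matrix.mul_apply, Matrix.mul_apply]
    apply hJK
    refine sub_mem (Ideal.sum_mem _ fun k _ => Ideal.mul_mem_mul (mem_Cg.1 hx _ _) (mem_Cg.1 hy _ _))
      (Ideal.sum_mem _ fun k _ => Ideal.mul_mem_mul (mem_Cg.1 hy _ _) (mem_Cg.1 hx _ _))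
  have e : x * y * x⁻¹ * y⁻¹ = x * y * (y * x)⁻¹ := by group
  rwa [e]

theorem Cg_mono {J K : Ideal R} (h : J ≤ K) : Cg J ≤ Cg K :=
  fun _ hx => mem_Cg.2 fun i j => h (mem_Cg.1 hx i j)

/-- the quotient by the congruence subgroup of the kernel is the image -/
theorem quot_ker (hC : ClosedE C) {S : Type} [CommRing S] (φ : R →+* S)
    (Γ : Subgroup (GL (Fin 2) R)) (hΓ : C (Γ.map (GeneralLinearGroup.map φ)))
    (N : Subgroup Γ) [hN : N.Normal] (h : ∀ x : Γ, x ∈ N ↔ x.1 ∈ Cg (RingHom.ker φ)) : C (Γ ⧸ N) := by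
  have hker : ∀ g : GL (Fin 2) R, g ∈ Cg (RingHom.ker φ) ↔ GeneralLinearGroup.map φ g = 1 := by
    intro g
    rw [mem_Cg]
    constructor
    · intro h1
      apply GeneralLinearGroup.ext
      intro i j
      have h2 := h1 i j
      rw [RingHom.mem_ker, map_sub, sub_eq_zero] at h2
      change φ (g.1 i j) = (1 : Matrix (Fin 2) (Fin 2) S) i j
      rw [h2, Matrix.one_apply, Matrix.one_apply]
      split_ifs <;> simp
    · intro h1 i j
      rw [RingHom.mem_ker, map_sub, sub_eq_zero]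
      have h2 : (GeneralLinearGroup.map φ g).1 i j = (1 : Matrix (Fin 2) (Fin 2) S) i j := by
        rw [h1]
        rfl
      have h3 : (GeneralLinearGroup.map φ g).1 i j = φ (g.1 i j) := rfl
      rw [← h3, h2, Matrix.one_apply, Matrix.one_apply]
      split_ifs <;> simp
  let ψ := (GeneralLinearGroup.map (n := Fin 2) φ).subgroupMap Γ
  have hψ : ∀ x : Γ, ψ x = 1 ↔ x ∈ N := by
    intro x
    rw [h x, hker]
    constructor
    · intro h1
      exact congrArg Subtype.val h1
    · intro h1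
      exact Subtype.ext h1
  refine hC.base.of_injective _ _ (QuotientGroup.lift N ψ (fun x hx => (hψ x).2 hx)) ?_ hΓ
  rw [injective_iff_map_eq_one]
  intro a ha
  obtain ⟨x, rfl⟩ := QuotientGroup.mk_surjective a
  exact (QuotientGroup.eq_one_iff x).2 ((hψ x).1 ha)

/-- **Groups of matrices of degree two over a domain with a degree function.** -/
theorem main_dom (hC : ClosedE C) (hS : ∀ (G : Type) [Group G], Group.IsSolvable G → C G)
    [IsDomain R] {S : Type} [CommRing S] {δ : R → ℕ} (hδ : IsDegree δ) (φ : R →+* S)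
    (hφ : ∀ n : ℕ, ∃ k : ℕ, ∀ r ∈ (RingHom.ker φ) ^ k, r ≠ 0 → n < δ r)
    (Γ : Subgroup (GL (Fin 2) R)) (hΓ : C (Γ.map (GeneralLinearGroup.map φ))) : C Γ := by
  by_cases hnt : ∃ r : R, r ≠ 0 ∧ δ r ≠ 0
  · obtain ⟨e, V, he, hV⟩ := exists_DV hδ hnt
    have he' : (0 : ℤ) < e := by exact_mod_cast he
    obtain ⟨J, hJ⟩ : ∃ J, J = RingHom.ker φ := ⟨_, rfl⟩
    let N : ℕ → Subgroup Γ := fun k => (Cg (J ^ (k + 1))).subgroupOf Γ
    have hN : ∀ k, (N k).Normal := by
      intro k
      have : (Cg (J ^ (k + 1))).Normal := MonoidHom.normal_ker _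
      exact this.subgroupOf Γ
    have hinj : Function.Injective (algebraMap R (FractionRing R)) :=
      IsFractionRing.injective R (FractionRing R)
    let ρ : Γ →* GL (Fin 2) (FractionRing R) :=
      (GeneralLinearGroup.map (n := Fin 2) (algebraMap R (FractionRing R))).comp Γ.subtype
    refine main_val hC hS V ρ ?_ N ?_ ?_ ?_ ?_
    · intro x
      have h1 : (ρ x).1.det = algebraMap R (FractionRing R) x.1.1.det := by
        have : (ρ x).1 = (algebraMap R (FractionRing R)).mapMatrix x.1.1 := rfl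
        rw [this, ← RingHom.map_det]
      have h2 : IsUnit x.1.1.det := (Matrix.isUnit_iff_isUnit_det _).1 x.1.isUnit
      have h3 := hV _ h2.ne_zero
      rw [hδ.unit h2] at h3
      rw [h1]
      have h4 : (e : ℤ) * V.v (algebraMap R (FractionRing R) x.1.1.det) = 0 := by simpa using h3
      exact (mul_eq_zero.1 h4).resolve_left he'.ne'
    · intro k x hx
      exact Cg_mono (Ideal.pow_le_pow_right (by omega)) hx
    · intro k x hx y hy
      refine Cg_comm ?_ hx hy
      rw [← pow_add]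
      exact Ideal.pow_le_pow_right (by omega)
    · refine quot_ker hC φ Γ hΓ (N 0) (fun x => ?_)
      rw [← hJ]
      change x.1 ∈ Cg (J ^ (0 + 1)) ↔ _
      rw [zero_add, pow_one]
    · intro n
      obtain ⟨k, hk⟩ := hφ (n * e)
      refine ⟨k, fun x hx hb => ?_⟩
      have hx' : x.1 ∈ Cg (J ^ (k + 1)) := hx
      have hB : ∀ i j, Bd δ (n * e) (x.1.1 i j) := by
        intro i j h0
        have h1 : algebraMap R (FractionRing R) (x.1.1 i j) ≠ 0 := by
          rwa [Ne, map_eq_zero_iff _ hinj]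
        have h2 : -(n : ℤ) ≤ V.v (algebraMap R (FractionRing R) (x.1.1 i j)) := hb i j h1
        have h3 := hV _ h0
        have h4 : (e : ℤ) * (-(n : ℤ)) ≤ (e : ℤ) * V.v (algebraMap R (FractionRing R) (x.1.1 i j)) :=
          mul_le_mul_of_nonneg_left h2 he'.le
        rw [h3] at h4
        have h5 : (δ (x.1.1 i j) : ℤ) ≤ ((n * e : ℕ) : ℤ) := by
          push_cast
          linarith
        exact_mod_cast h5
      have hone : ∀ i j, Bd δ (n * e) ((1 : Matrix (Fin 2) (Fin 2) R) i j) := by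
        intro i j h0
        rw [Matrix.one_apply] at h0 ⊢
        split_ifs at h0 ⊢ with h1
        · rw [hδ.one]
          exact Nat.zero_le _
        · exact absurd rfl h0
      apply Subtype.ext
      apply GeneralLinearGroup.ext
      intro i j
      change x.1.1 i j = (1 : Matrix (Fin 2) (Fin 2) R) i j
      rw [← sub_eq_zero]
      by_contra hne
      have h1 := mem_Cg.1 hx' i j
      have h2 := hk _ (by rw [← hJ]; exact Ideal.pow_le_pow_right (by omega) h1) hne
      have h3 : Bd δ (n * e) (x.1.1 i j - (1 : Matrix (Fin 2) (Fin 2) R) i j) := by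
        rw [sub_eq_add_neg]
        exact Bd_add hδ (hB i j) (Bd_neg hδ (hone i j))
      have h4 := h3 hne
      omega
  · push Not at hnt
    have hJ : RingHom.ker φ = ⊥ := by
      obtain ⟨k, hk⟩ := hφ 0
      have h1 : (RingHom.ker φ) ^ k = ⊥ := by
        rw [eq_bot_iff]
        intro r hr
        by_contra h0
        have h0' : r ≠ 0 := h0
        have := hk r hr h0'
        have := hnt r h0'
        omega
      by_contra hne
      obtain ⟨r, hr, hr0⟩ := Submodule.exists_mem_ne_zero_of_ne_bot hne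
      have h2 : r ^ k ∈ (RingHom.ker φ) ^ k := Ideal.pow_mem_pow hr k
      rw [h1, Ideal.mem_bot] at h2
      exact pow_ne_zero k hr0 h2
    refine hC.base.of_injective _ _ ((GeneralLinearGroup.map (n := Fin 2) φ).subgroupMap Γ) ?_ hΓ
    rw [← RingHom.injective_iff_ker_eq_bot] at hJ
    rw [injective_iff_map_eq_one]
    intro x hx
    have h1 : GeneralLinearGroup.map φ x.1 = 1 := congrArg Subtype.val hx
    apply Subtype.ext
    apply GeneralLinearGroup.ext
    intro i j
    apply hJ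
    have h2 : φ (x.1.1 i j) = (1 : Matrix (Fin 2) (Fin 2) S) i j := by
      have : φ (x.1.1 i j) = (GeneralLinearGroup.map φ x.1).1 i j := rfl
      rw [this, h1]
      rfl
    change φ (x.1.1 i j) = φ ((1 : Matrix (Fin 2) (Fin 2) R) i j)
    rw [h2, Matrix.one_apply, Matrix.one_apply]
    split_ifs <;> simp

end main

end Pool.Agent.U709
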