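import Mathlib

/-!
# Groups of finite Hirsch length, and hierarchies
-/

set_option autoImplicit false

namespace Pool.Agent.U709.Hi

/-- The groups of finite Hirsch length: the smallest class of groups which contains the periodic groups
and the groups in which any two elements of infinite order have a common power of infinite order
(`ℤ`, `ℚ`, ...), and which is closed under extensions. -/
inductive FinHirsch : ∀ (G : Type) [Group G], Prop
  | periodic {G : Type} [Group G] (h : ∀ x : G, IsOfFinOrder x) : FinHirsch G
  | rankOne {G : Type} [Group G] (h : ∀ x y : G, ¬ IsOfFinOrder x → ¬ IsOfFinOrder y →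
      ∃ (m : ℕ) (n : ℤ), 0 < m ∧ x ^ m = y ^ n) : FinHirsch G
  | ext {G : Type} [Group G] (N : Subgroup G) [N.Normal] (h1 : FinHirsch N)
      (h2 : FinHirsch (G ⧸ N)) : FinHirsch G

/-- Hierarchies: the smallest class of groups which contains `C` and all groups which act on a tree
such that the stabilizers of the vertices are in the class and those of the edges are in `E`. -/
inductive Hier (C E : ∀ (G : Type) [Group G], Prop) : ∀ (G : Type) [Group G], Prop
  | base {G : Type} [Group G] (h : C G) : Hier C E G
  | tree {G V : Type} [Group G] [MulAction G V] (T : SimpleGraph V) (hT : T.IsTree)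
      (hact : ∀ (g : G) (u v : V), T.Adj u v → T.Adj (g • u) (g • v))
      (hV : ∀ v : V, Hier C E ↥(MulAction.stabilizer G v))
      (hE : ∀ u v : V, T.Adj u v → E ↥(MulAction.stabilizer G u ⊓ MulAction.stabilizer G v)) :
      Hier C E G

/-- Elements of infinite order can be seen in the groups in `C`. -/
def InfVisible (C : ∀ (G : Type) [Group G], Prop) (G : Type) [Group G] : Prop :=
  ∀ x : G, ¬ IsOfFinOrder x → ∃ (P : Type) (_ : Group P) (f : G →* P), C P ∧ ¬ IsOfFinOrder (f x)

/-- Periodic subgroups can be seen in the groups in `C`. -/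
def PerVisible (C : ∀ (G : Type) [Group G], Prop) (G : Type) [Group G] : Prop :=
  ∀ K : Subgroup G, (∀ x ∈ K, IsOfFinOrder x) →
    ∃ (P : Type) (_ : Group P) (f : G →* P), C P ∧ ∀ x ∈ K, f x = 1 → x = 1

/-- `G` is residually in `C`. -/
def Residual (C : ∀ (G : Type) [Group G], Prop) (G : Type) [Group G] : Prop :=
  ∀ x : G, x ≠ 1 → ∃ (P : Type) (_ : Group P) (f : G →* P), C P ∧ f x ≠ 1

/-- `G` is residually (torsion-free and in `C`). -/
def TFResidual (C : ∀ (G : Type) [Group G], Prop) (G : Type) [Group G] : Prop :=
  ∀ x : G, x ≠ 1 → ∃ (P : Type) (_ : Group P) (f : G →* P), C P ∧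
    (∀ y : P, IsOfFinOrder y → y = 1) ∧ f x ≠ 1

/-- `G` has finite Hirsch length, and its periodic subgroups are finite. -/
def FinHirschPF (G : Type) [Group G] : Prop :=
  FinHirsch G ∧ ∀ K : Subgroup G, (∀ x ∈ K, IsOfFinOrder x) → Finite K

/-- `G` is virtually polycyclic: virtually solvable, and all subgroups are finitely generated. -/
def VirtPolycyclic (G : Type) [Group G] : Prop :=
  (∃ S : Subgroup G, S.FiniteIndex ∧ Group.IsSolvable S) ∧ ∀ K : Subgroup G, K.FG

end Pool.Agent.U709.Hi
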