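import Pool.Agent.U709.FH

/-!
# Groups of finite Hirsch length: chains of normal subgroups
-/

set_option autoImplicit false

namespace Pool.Agent.U709.Hi

theorem ofinj {G H : Type} [Group G] [Group H] (f : H →* G) (hf : Function.Injective f) (x : H) :
    IsOfFinOrder (f x) ↔ IsOfFinOrder x := by
  rw [isOfFinOrder_iff_pow_eq_one, isOfFinOrder_iff_pow_eq_one]
  constructor
  · rintro ⟨n, hn, h⟩
    refine ⟨n, hn, hf ?_⟩
    rw [map_pow, h, map_one]
  · rintro ⟨n, hn, h⟩
    refine ⟨n, hn, ?_⟩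
    rw [← map_pow, h, map_one]

/-- subgroups of groups of finite Hirsch length -/
theorem FinHirsch.of_injective {G : Type} [Group G] (hG : FinHirsch G) :
    ∀ {H : Type} [Group H] (f : H →* G), Function.Injective f → FinHirsch H := by
  induction hG with
  | periodic h =>
    intro H _ f hf
    exact .periodic fun x => (ofinj f hf x).1 (h (f x))
  | rankOne h =>
    intro H _ f hf
    refine .rankOne fun x y hx hy => ?_
    obtain ⟨m, n, hm, h1⟩ := h (f x) (f y) (fun h => hx ((ofinj f hf x).1 h))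
      (fun h => hy ((ofinj f hf y).1 h))
    refine ⟨m, n, hm, hf ?_⟩
    rw [map_pow, map_zpow, h1]
  | @ext G _ N _ h1 h2 ih1 ih2 =>
    intro H _ f hf
    have hN : (N.comap f).Normal := inferInstance
    refine .ext (N.comap f) ?_ ?_
    · refine ih1 ((f.comp (N.comap f).subtype).codRestrict N ?_) ?_
      · rintro ⟨x, hx⟩
        exact hx
      · intro a b hab
        exact Subtype.ext (hf (congrArg Subtype.val hab))
    · refine ih2 (QuotientGroup.map (N.comap f) N f le_rfl) ?_
      rw [injective_iff_map_eq_one]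
      intro q hq
      induction q using QuotientGroup.induction_on with
      | H x =>
        rw [QuotientGroup.map_mk, QuotientGroup.eq_one_iff] at hq
        rw [QuotientGroup.eq_one_iff]
        exact hq

/-- in every descending chain of normal subgroups there is a step with periodic quotient -/
def TB (G : Type) [Group G] : Prop :=
  ∀ K : ℕ → Subgroup G, (∀ i, (K i).Normal) → (∀ i, K (i + 1) ≤ K i) →
    ∃ i, ∀ x ∈ K i, ∃ m : ℕ, 0 < m ∧ x ^ m ∈ K (i + 1)

theorem chain_le {G : Type} [Group G] {K : ℕ → Subgroup G} (hK : ∀ i, K (i + 1) ≤ K i) {i j : ℕ}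
    (h : i ≤ j) : K j ≤ K i := by
  induction h with
  | refl => exact le_rfl
  | step _ ih => exact (hK _).trans ih

theorem TB.eventually {G : Type} [Group G] (h : TB G) (K : ℕ → Subgroup G)
    (hn : ∀ i, (K i).Normal) (hK : ∀ i, K (i + 1) ≤ K i) :
    ∃ N, ∀ i, N ≤ i → ∀ x ∈ K i, ∃ m : ℕ, 0 < m ∧ x ^ m ∈ K (i + 1) := by
  by_contra hcon
  push Not at hcon
  obtain ⟨φ, hφ, hφ'⟩ := Nat.exists_strictMono_subsequence (P := fun i => ∃ x ∈ K i, ∀ m : ℕ,
    0 < m → x ^ m ∉ K (i + 1)) (by
      intro N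
      obtain ⟨i, hi, h1⟩ := hcon (N + 1)
      exact ⟨i, by omega, h1⟩)
  obtain ⟨j, hj⟩ := h (fun j => K (φ j)) (fun j => hn _)
    (fun j => chain_le hK (hφ (Nat.lt_succ_self j)).le)
  obtain ⟨x, hx, hx'⟩ := hφ' j
  obtain ⟨m, hm, h1⟩ := hj x hx
  exact hx' m hm (chain_le hK (hφ (Nat.lt_succ_self j)) h1)

theorem TB.ext {G : Type} [Group G] (N : Subgroup G) [N.Normal] (h1 : TB N) (h2 : TB (G ⧸ N)) :
    TB G := by
  intro K hn hK
  obtain ⟨a, ha⟩ := h1.eventually (fun i => (K i).subgroupOf N) (fun i => inferInstance)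
    (fun i x hx => hK i hx)
  obtain ⟨b, hb⟩ := h2.eventually (fun i => (K i).map (QuotientGroup.mk' N))
    (fun i => (hn i).map _ (QuotientGroup.mk'_surjective N)) (fun i => Subgroup.map_mono (hK i))
  refine ⟨max a b, fun x hx => ?_⟩
  obtain ⟨m, hm, h3⟩ := hb (max a b) (le_max_right _ _) (QuotientGroup.mk' N x) ⟨x, hx, rfl⟩
  rw [← map_pow] at h3
  obtain ⟨y, hy, hyx⟩ := h3
  have h4 : y⁻¹ * x ^ m ∈ N := by
    rw [← QuotientGroup.eq_one_iff]
    change QuotientGroup.mk' N (y⁻¹ * x ^ m) = 1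
    rw [map_mul, map_inv, hyx, inv_mul_cancel]
  have h5 : y⁻¹ * x ^ m ∈ K (max a b) :=
    mul_mem (inv_mem (hK _ hy)) (pow_mem hx m)
  obtain ⟨l, hl, h6⟩ := ha (max a b) (le_max_left _ _) ⟨y⁻¹ * x ^ m, h4⟩ h5
  have h7 : (y⁻¹ * x ^ m) ^ l ∈ K (max a b + 1) := h6
  refine ⟨m * l, Nat.mul_pos hm hl, ?_⟩
  have hnn := hn (max a b + 1)
  rw [← QuotientGroup.eq_one_iff] at h7 ⊢
  have hy1 : ((y : G) : G ⧸ K (max a b + 1)) = 1 := (QuotientGroup.eq_one_iff y).2 hy
  rw [QuotientGroup.mk_pow, QuotientGroup.mk_mul, QuotientGroup.mk_inv, hy1, inv_one, one_mul] at h7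
  rw [pow_mul, QuotientGroup.mk_pow, h7]

theorem FinHirsch.tb {G : Type} [Group G] (hG : FinHirsch G) : TB G := by
  induction hG with
  | periodic h =>
    intro K _ _
    refine ⟨0, fun x _ => ?_⟩
    obtain ⟨m, hm, h1⟩ := isOfFinOrder_iff_pow_eq_one.1 (h x)
    exact ⟨m, hm, by rw [h1]; exact one_mem _⟩
  | rankOne h =>
    intro K _ _
    by_cases hy : ∃ y ∈ K 1, ¬ IsOfFinOrder y
    · obtain ⟨y, hy, hy'⟩ := hy
      refine ⟨0, fun x _ => ?_⟩
      by_cases hx : IsOfFinOrder x
      · obtain ⟨m, hm, h1⟩ := isOfFinOrder_iff_pow_eq_one.1 hx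
        exact ⟨m, hm, by rw [h1]; exact one_mem _⟩
      · obtain ⟨m, n, hm, h1⟩ := h x y hx hy'
        exact ⟨m, hm, by rw [h1]; exact zpow_mem hy n⟩
    · push Not at hy
      refine ⟨1, fun x hx => ?_⟩
      obtain ⟨m, hm, h1⟩ := isOfFinOrder_iff_pow_eq_one.1 (hy x hx)
      exact ⟨m, hm, by rw [h1]; exact one_mem _⟩
  | ext N _ _ ih1 ih2 => exact TB.ext N ih1 ih2

/-- hierarchies pass to subgroups -/
theorem Hier.of_injective {C E : ∀ (G : Type) [Group G], Prop}
    (hC : ∀ (H G : Type) [Group H] [Group G] (f : H →* G), Function.Injective f → C G → C H)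
    (hE : ∀ (H G : Type) [Group H] [Group G] (f : H →* G), Function.Injective f → E G → E H)
    {G : Type} [Group G] (hG : Hier C E G) :
    ∀ {H : Type} [Group H] (f : H →* G), Function.Injective f → Hier C E H := by
  induction hG with
  | base h =>
    intro H _ f hf
    exact .base (hC _ _ f hf h)
  | @tree G V _ _ T hT hact hV hE' ih =>
    intro H _ f hf
    let _ : MulAction H V := MulAction.compHom V f
    have hsm : ∀ (h : H) (v : V), h • v = f h • v := fun _ _ => rfl
    refine .tree (V := V) T hT ?_ ?_ ?_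
    · intro g u v huv
      exact hact (f g) u v huv
    · intro v
      refine ih v ((f.comp (MulAction.stabilizer H v).subtype).codRestrict
        (MulAction.stabilizer G v) ?_) ?_
      · rintro ⟨x, hx⟩
        exact hx
      · intro a b hab
        exact Subtype.ext (hf (congrArg Subtype.val hab))
    · intro u v huv
      refine hE _ _ ((f.comp (MulAction.stabilizer H u ⊓ MulAction.stabilizer H v).subtype).codRestrict
        (MulAction.stabilizer G u ⊓ MulAction.stabilizer G v) ?_) ?_ (hE' u v huv)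
      · rintro ⟨x, hx⟩
        exact hx
      · intro a b hab
        exact Subtype.ext (hf (congrArg Subtype.val hab))

end Pool.Agent.U709.Hi
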