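import Pool.Agent.N24.TR.Tree

/-!
# Gluing homomorphisms on the stabilizers of a tree

A group `G` acts on a tree whose vertices have two types. Let `ρ v` be a homomorphism from the
stabilizer of `v` to a group `W`, for every vertex `v`, such that the homomorphisms at the vertices of an
orbit are conjugate, and the homomorphisms at the ends of an edge are conjugate on the stabilizer of
the edge. Then there is a homomorphism from `G` to `W` which is conjugate to `ρ v` on the stabilizer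
of `v`, for every `v`.
-/

set_option autoImplicit false

namespace Pool.Agent.U709.Gl

open SimpleGraph
open Pool.Agent.N24.TR

section reps

variable (G : Type) {V : Type} [Group G] [MulAction G V]

/-- representatives of the orbits -/
noncomputable def rep (v : V) : V := (Quotient.mk (MulAction.orbitRel G V) v).out

theorem rep_smul (g : G) (v : V) : rep G (g • v) = rep G v := by
  unfold rep
  congr 1
  exact Quotient.sound ⟨g, rfl⟩

theorem exists_gm (v : V) : ∃ g : G, g • rep G v = v := by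
  have h1 : (MulAction.orbitRel G V).r (rep G v) v := Quotient.mk_out v
  obtain ⟨g, hg⟩ := h1
  have hg' : g • v = rep G v := hg
  exact ⟨g⁻¹, by rw [← hg', inv_smul_smul]⟩

/-- an element which moves the representative to the vertex -/
noncomputable def gm (v : V) : G := Classical.choose (exists_gm G v)

theorem gm_smul (v : V) : gm G v • rep G v = v := Classical.choose_spec (exists_gm G v)

theorem gm_inv_smul (v : V) : (gm G v)⁻¹ • v = rep G v := by
  rw [inv_smul_eq_iff]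
  exact (gm_smul G v).symm

end reps

variable {G V W : Type} {T : SimpleGraph V} [Group G] [MulAction G V] [Group W]

/-- the cocycle -/
noncomputable def cc (ρ : V → G → W) (g : G) (y : V) : W :=
  ρ (rep G y) ((gm G (g • y))⁻¹ * g * gm G y)

theorem fix_rep (g : G) (y : V) : ((gm G (g • y))⁻¹ * g * gm G y) • rep G y = rep G y := by
  rw [mul_smul, mul_smul, gm_smul, gm_inv_smul, rep_smul]

section

variable {ρ : V → G → W}

theorem cc_mul (hρ : ∀ v x y, x • v = v → y • v = v → ρ v (x * y) = ρ v x * ρ v y) (g h : G) (y : V) :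
    cc ρ (g * h) y = cc ρ g (h • y) * cc ρ h y := by
  unfold cc
  rw [rep_smul, ← hρ _ _ _ _ (fix_rep h y)]
  · rw [mul_smul]
    congr 1
    group
  · have h1 := fix_rep g (h • y)
    rwa [rep_smul] at h1

theorem cc_fix (h1 : ∀ (g : G) v, ∃ w : W, ∀ x : G, x • v = v → ρ (g • v) (g * x * g⁻¹) =
    w * ρ v x * w⁻¹) (y : V) : ∃ w : W, ∀ x : G, x • y = y → cc ρ x y = w * ρ y x * w⁻¹ := by
  obtain ⟨w, hw⟩ := h1 (gm G y)⁻¹ y
  refine ⟨w, fun x hx => ?_⟩
  have h2 := hw x hx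
  rw [gm_inv_smul] at h2
  unfold cc
  rw [hx, ← h2, inv_inv]

/-- the transport along an edge -/
def IsTr (ρ : V → G → W) (u v : V) (φ : W) : Prop :=
  ∀ x : G, x • u = u → x • v = v → cc ρ x v * φ = φ * cc ρ x u

theorem exists_tr (h1 : ∀ (g : G) v, ∃ w : W, ∀ x : G, x • v = v → ρ (g • v) (g * x * g⁻¹) =
    w * ρ v x * w⁻¹) {u v : V} (h2 : ∃ w : W, ∀ x : G, x • u = u → x • v = v →
      ρ v x = w * ρ u x * w⁻¹) : ∃ φ, IsTr ρ u v φ := by
  obtain ⟨a, ha⟩ := cc_fix h1 u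
  obtain ⟨b, hb⟩ := cc_fix h1 v
  obtain ⟨w, hw⟩ := h2
  refine ⟨b * w * a⁻¹, fun x hu hv => ?_⟩
  rw [ha x hu, hb x hv, hw x hu hv]
  group

open Classical in
/-- the chosen transport for a pair -/
noncomputable def tr (ρ : V → G → W) (p : V × V) : W :=
  if h : ∃ φ, IsTr ρ p.1 p.2 φ then Classical.choose h else 1

/-- the equivariant transport -/
noncomputable def ph (ρ : V → G → W) (u v : V) : W :=
  cc ρ (gm G (u, v)) (rep G (u, v)).2 * tr ρ (rep G (u, v)) *
    (cc ρ (gm G (u, v)) (rep G (u, v)).1)⁻¹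

theorem gm_fst (p : V × V) : gm G p • (rep G p).1 = p.1 := congrArg Prod.fst (gm_smul G p)

theorem gm_snd (p : V × V) : gm G p • (rep G p).2 = p.2 := congrArg Prod.snd (gm_smul G p)

theorem ph_smul (hρ : ∀ v x y, x • v = v → y • v = v → ρ v (x * y) = ρ v x * ρ v y) {u v : V}
    (htr : IsTr ρ (rep G (u, v)).1 (rep G (u, v)).2 (tr ρ (rep G (u, v)))) (g : G) :
    ph ρ (g • u) (g • v) = cc ρ g v * ph ρ u v * (cc ρ g u)⁻¹ := by
  have hrep : rep G (g • u, g • v) = rep G (u, v) := rep_smul G g (u, v)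
  obtain ⟨δ', hδ'⟩ : ∃ δ', δ' = gm G (g • u, g • v) := ⟨_, rfl⟩
  obtain ⟨δ, hδ⟩ : ∃ δ, δ = gm G (u, v) := ⟨_, rfl⟩
  obtain ⟨r, hr⟩ : ∃ r, r = rep G (u, v) := ⟨_, rfl⟩
  have e1 : δ • r.1 = u := by rw [hδ, hr]; exact gm_fst (u, v)
  have e2 : δ • r.2 = v := by rw [hδ, hr]; exact gm_snd (u, v)
  have e3 : δ' • r.1 = g • u := by rw [hδ', hr, ← hrep]; exact gm_fst (g • u, g • v)
  have e4 : δ' • r.2 = g • v := by rw [hδ', hr, ← hrep]; exact gm_snd (g • u, g • v)
  obtain ⟨x, hx⟩ : ∃ x, x = δ'⁻¹ * (g * δ) := ⟨_, rfl⟩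
  have x1 : x • r.1 = r.1 := by rw [hx, mul_smul, mul_smul, e1, ← e3, inv_smul_smul]
  have x2 : x • r.2 = r.2 := by rw [hx, mul_smul, mul_smul, e2, ← e4, inv_smul_smul]
  have hgx : g * δ = δ' * x := by rw [hx, mul_inv_cancel_left]
  have c1 : cc ρ g v * cc ρ δ r.2 = cc ρ δ' r.2 * cc ρ x r.2 := by
    have a1 := cc_mul hρ g δ r.2
    have a2 := cc_mul hρ δ' x r.2
    rw [e2] at a1
    rw [x2] at a2
    rw [← a1, ← a2, hgx]
  have c2 : cc ρ g u * cc ρ δ r.1 = cc ρ δ' r.1 * cc ρ x r.1 := by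
    have a1 := cc_mul hρ g δ r.1
    have a2 := cc_mul hρ δ' x r.1
    rw [e1] at a1
    rw [x1] at a2
    rw [← a1, ← a2, hgx]
  have c3 := htr x (by rw [← hr]; exact x1) (by rw [← hr]; exact x2)
  unfold ph
  rw [hrep, ← hδ', ← hδ]
  rw [← hr] at c3 ⊢
  have c4 : cc ρ g v * (cc ρ δ r.2 * tr ρ r * (cc ρ δ r.1)⁻¹) * (cc ρ g u)⁻¹ =
      (cc ρ g v * cc ρ δ r.2) * tr ρ r * (cc ρ g u * cc ρ δ r.1)⁻¹ := by group
  rw [c4, c1, c2]
  have c5 : cc ρ δ' r.2 * cc ρ x r.2 * tr ρ r * (cc ρ δ' r.1 * cc ρ x r.1)⁻¹ =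
      cc ρ δ' r.2 * (cc ρ x r.2 * tr ρ r * (cc ρ x r.1)⁻¹) * (cc ρ δ' r.1)⁻¹ := by group
  rw [c5, c3]
  group

open Classical in
/-- the edge labels -/
noncomputable def lb (κ : V → Prop) (ρ : V → G → W) (u v : V) : W :=
  if κ u then (ph ρ u v)⁻¹ else ph ρ v u

end

/-- **gluing** -/
theorem glue (hT : T.IsTree) (hact : ∀ (g : G) (u v : V), T.Adj u v → T.Adj (g • u) (g • v))
    (κ : V → Prop) (hκ : ∀ (g : G) v, κ v → κ (g • v)) (hκ' : ∀ u v, T.Adj u v → (κ u ↔ ¬ κ v))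
    (ρ : V → G → W) (hρ : ∀ v x y, x • v = v → y • v = v → ρ v (x * y) = ρ v x * ρ v y)
    (h1 : ∀ (g : G) v, ∃ w : W, ∀ x : G, x • v = v → ρ (g • v) (g * x * g⁻¹) = w * ρ v x * w⁻¹)
    (h2 : ∀ u v, T.Adj u v → κ u → ∃ w : W, ∀ x : G, x • u = u → x • v = v →
      ρ v x = w * ρ u x * w⁻¹) :
    ∃ Φ : G →* W, ∀ v, ∃ w : W, ∀ x : G, x • v = v → Φ x = w * ρ v x * w⁻¹ := by
  classical
  have hκ1 : ∀ (g : G) v, κ (g • v) ↔ κ v := by
    intro g v
    refine ⟨fun h => ?_, hκ g v⟩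
    have := hκ g⁻¹ _ h
    rwa [inv_smul_smul] at this
  have htr : ∀ u v, T.Adj u v → κ u → IsTr ρ (rep G (u, v)).1 (rep G (u, v)).2
      (tr ρ (rep G (u, v))) := by
    intro u v huv hu
    have e1 : (gm G (u, v))⁻¹ • u = (rep G (u, v)).1 := congrArg Prod.fst (gm_inv_smul G (u, v))
    have e2 : (gm G (u, v))⁻¹ • v = (rep G (u, v)).2 := congrArg Prod.snd (gm_inv_smul G (u, v))
    have h3 : ∃ φ, IsTr ρ (rep G (u, v)).1 (rep G (u, v)).2 φ := by
      refine exists_tr h1 (h2 _ _ ?_ ?_)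
      · rw [← e1, ← e2]
        exact hact _ _ _ huv
      · rw [← e1, hκ1]
        exact hu
    unfold tr
    rw [dif_pos h3]
    exact Classical.choose_spec h3
  have he : ∀ u v, T.Adj u v → lb κ ρ u v * lb κ ρ v u = 1 := by
    intro u v huv
    unfold lb
    by_cases hu : κ u
    · have hv : ¬ κ v := (hκ' u v huv).1 hu
      rw [if_pos hu, if_neg hv, inv_mul_cancel]
    · have hv : κ v := by
        by_contra hv
        exact hu ((hκ' u v huv).2 hv)
      rw [if_neg hu, if_pos hv, mul_inv_cancel]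
  obtain ⟨o⟩ := hT.connected.nonempty
  obtain ⟨th, hth⟩ : ∃ th : V → W, th = fun v => gam hT (lb κ ρ) o v := ⟨_, rfl⟩
  have hedge : ∀ u v, T.Adj u v → th v = th u * lb κ ρ u v := by
    intro u v huv
    rw [hth]
    show gam hT (lb κ ρ) o v = gam hT (lb κ ρ) o u * lb κ ρ u v
    rw [← gam_mul hT _ he o u v, gam_adj hT _ he huv]
  -- the values
  obtain ⟨F, hF⟩ : ∃ F : G → V → W, F = fun g v => th (g • v) * cc ρ g v * (th v)⁻¹ := ⟨_, rfl⟩
  have hstep : ∀ (g : G) (u v : V), T.Adj u v → κ u → F g v = F g u := by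
    intro g u v huv hu
    rw [hF]
    show th (g • v) * cc ρ g v * (th v)⁻¹ = th (g • u) * cc ρ g u * (th u)⁻¹
    rw [hedge _ _ (hact g u v huv), hedge _ _ huv]
    have e1 : lb κ ρ u v = (ph ρ u v)⁻¹ := if_pos hu
    have e2 : lb κ ρ (g • u) (g • v) = (ph ρ (g • u) (g • v))⁻¹ := if_pos (hκ g u hu)
    rw [e1, e2, ph_smul hρ (htr u v huv hu) g]
    group
  have hconst : ∀ (g : G) (v : V), F g v = F g o := by
    intro g v
    obtain ⟨p⟩ := hT.connected.preconnected v o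
    clear hth hF hedge
    induction p with
    | nil => rfl
    | @cons u v w h p ih =>
      rw [← ih]
      by_cases hu : κ u
      · exact (hstep g u v h hu).symm
      · have hv : κ v := by
          by_contra hv
          exact hu ((hκ' u v h).2 hv)
        exact hstep g v u h.symm hv
  refine ⟨MonoidHom.mk' (fun g => F g o) ?_, ?_⟩
  · intro g h
    show F (g * h) o = F g o * F h o
    rw [← hconst g (h • o), hF]
    show th ((g * h) • o) * cc ρ (g * h) o * (th o)⁻¹ =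
      th (g • h • o) * cc ρ g (h • o) * (th (h • o))⁻¹ * (th (h • o) * cc ρ h o * (th o)⁻¹)
    rw [cc_mul hρ, mul_smul]
    group
  · intro v
    obtain ⟨w, hw⟩ := cc_fix h1 v
    refine ⟨th v * w, fun x hx => ?_⟩
    show F x o = _
    rw [← hconst x v, hF]
    show th (x • v) * cc ρ x v * (th v)⁻¹ = _
    rw [hx, hw x hx]
    group

end Pool.Agent.U709.Gl
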