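import Pool.Agent.U709.FHa
import Pool.Agent.N509.TK.Loc

/-!
# A homomorphism which is injective on a subgroup of finite Hirsch length
-/

set_option autoImplicit false

namespace Pool.Agent.U709.Hi

open Pool.Agent.Y110.FJ (ClosedE)

variable {C : ∀ (G : Type) [Group G], Prop}

/-- traces on `E` of the kernels of the homomorphisms to groups in `C` -/
def IsKer (C : ∀ (G : Type) [Group G], Prop) {G : Type} [Group G] (E : Subgroup G)
    (K : Subgroup E) : Prop :=
  ∃ (P : Type) (_ : Group P) (f : G →* P), C P ∧ ∀ x : E, x ∈ K ↔ f x = 1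

theorem IsKer.normal {G : Type} [Group G] {E : Subgroup G} {K : Subgroup E} (h : IsKer C E K) :
    K.Normal := by
  obtain ⟨P, _, f, -, h⟩ := h
  refine ⟨fun n hn g => ?_⟩
  rw [h] at hn ⊢
  rw [Subgroup.coe_mul, Subgroup.coe_mul, map_mul, map_mul, hn, mul_one, ← map_mul,
    ← Subgroup.coe_mul, mul_inv_cancel, Subgroup.coe_one, map_one]

theorem IsKer.inf (hC : ClosedE C) {G : Type} [Group G] {E : Subgroup G} {K : Subgroup E}
    (h : IsKer C E K) {P : Type} [Group P] (f : G →* P) (hP : C P) :
    IsKer C E (K ⊓ (f.comp E.subtype).ker) := by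
  obtain ⟨P', _, f', hP', h⟩ := h
  refine ⟨P' × P, inferInstance, f'.prod f, hC.base.prod _ _ hP' hP, fun x => ?_⟩
  rw [Subgroup.mem_inf, h, MonoidHom.mem_ker, MonoidHom.prod_apply, Prod.mk_eq_one]
  rfl

theorem IsKer.top (hC : ClosedE C) {G : Type} [Group G] (E : Subgroup G) : IsKer C E ⊤ :=
  ⟨Multiplicative ℤ, inferInstance, 1, hC.base.int, fun x => by simp⟩

/-- the kernel of a suitable homomorphism meets `E` in a periodic group -/
theorem exists_periodic (hC : ClosedE C) {G : Type} [Group G] (E : Subgroup G)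
    (hE : FinHirsch E) (hI : InfVisible C G) :
    ∃ K : Subgroup E, IsKer C E K ∧ ∀ x ∈ K, IsOfFinOrder x := by
  by_contra hcon
  push Not at hcon
  have hstep : ∀ K : {K : Subgroup E // IsKer C E K}, ∃ K' : {K : Subgroup E // IsKer C E K},
      K'.1 ≤ K.1 ∧ ∃ x ∈ K.1, ∀ m : ℕ, 0 < m → x ^ m ∉ K'.1 := by
    rintro ⟨K, hK⟩
    obtain ⟨x, hx, hx'⟩ := hcon K hK
    have h1 : ¬ IsOfFinOrder (x : G) := fun h => hx' ((ofinj E.subtype E.subtype_injective x).1 h)
    obtain ⟨P, _, f, hP, hf⟩ := hI x h1
    refine ⟨⟨_, hK.inf hC f hP⟩, inf_le_left, x, hx, fun m hm h2 => hf ?_⟩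
    rw [isOfFinOrder_iff_pow_eq_one]
    refine ⟨m, hm, ?_⟩
    have h3 : x ^ m ∈ (f.comp E.subtype).ker := h2.2
    rw [MonoidHom.mem_ker] at h3
    rw [← map_pow]
    exact h3
  choose S hS hS' using hstep
  let K : ℕ → {K : Subgroup E // IsKer C E K} := fun n => Nat.rec ⟨⊤, IsKer.top hC E⟩ (fun _ => S) n
  obtain ⟨i, hi⟩ := hE.tb (fun n => (K n).1) (fun n => (K n).2.normal) (fun n => hS (K n))
  obtain ⟨x, hx, hx'⟩ := hS' (K i)
  obtain ⟨m, hm, h1⟩ := hi x hx
  exact hx' m hm h1

/-- a homomorphism to a group in `C` which is injective on `E` -/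
theorem exists_inj (hC : ClosedE C) {G : Type} [Group G] (E : Subgroup G)
    (hE : FinHirsch E) (hI : InfVisible C G)
    (hP : ∀ K : Subgroup G, K ≤ E → (∀ x ∈ K, IsOfFinOrder x) →
      ∃ (P : Type) (_ : Group P) (f : G →* P), C P ∧ ∀ x ∈ K, f x = 1 → x = 1) :
    ∃ (P : Type) (_ : Group P) (f : G →* P), C P ∧ ∀ x ∈ E, f x = 1 → x = 1 := by
  obtain ⟨K, ⟨P, _, f, hCP, hf⟩, hK⟩ := exists_periodic hC E hE hI
  obtain ⟨P', _, f', hCP', hf'⟩ := hP (K.map E.subtype) (Subgroup.map_subtype_le K) (by
    rintro _ ⟨x, hx, rfl⟩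
    exact (ofinj E.subtype E.subtype_injective x).2 (hK x hx))
  refine ⟨P × P', inferInstance, f.prod f', hC.base.prod _ _ hCP hCP', fun x hx h => ?_⟩
  rw [MonoidHom.prod_apply, Prod.mk_eq_one] at h
  exact hf' x ⟨⟨x, hx⟩, (hf ⟨x, hx⟩).2 h.1, rfl⟩ h.2

/-- finite subgroups of residual groups -/
theorem Residual.finite (hC : ClosedE C) {G : Type} [Group G] (hG : Residual C G)
    (K : Subgroup G) [Finite K] :
    ∃ (P : Type) (_ : Group P) (f : G →* P), C P ∧ ∀ x ∈ K, f x = 1 → x = 1 := by
  classical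
  have key : ∀ S : Finset G, ∃ (P : Type) (_ : Group P) (f : G →* P), C P ∧
      ∀ x ∈ S, f x = 1 → x = 1 := by
    intro S
    induction S using Finset.induction_on with
    | empty => exact ⟨Multiplicative ℤ, inferInstance, 1, hC.base.int, fun x hx => by simp at hx⟩
    | insert y S _ ih =>
      obtain ⟨P, _, f, hP, hf⟩ := ih
      by_cases hy : y = 1
      · refine ⟨P, _, f, hP, fun x hx h => ?_⟩
        rcases Finset.mem_insert.1 hx with rfl | hx
        · exact hy
        · exact hf x hx h
      · obtain ⟨P', _, f', hP', hf'⟩ := hG y hy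
        refine ⟨P × P', inferInstance, f.prod f', hC.base.prod _ _ hP hP', fun x hx h => ?_⟩
        rw [MonoidHom.prod_apply, Prod.mk_eq_one] at h
        rcases Finset.mem_insert.1 hx with rfl | hx
        · exact absurd h.2 hf'
        · exact hf x hx h.1
  obtain ⟨P, _, f, hP, hf⟩ := key (Set.toFinite (K : Set G)).toFinset
  exact ⟨P, _, f, hP, fun x hx h => hf x (by simpa using hx) h⟩

theorem InfVisible.of_injective {G H : Type} [Group G] [Group H] (hG : InfVisible C G) (f : H →* G)
    (hf : Function.Injective f) : InfVisible C H := by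
  intro x hx
  obtain ⟨P, _, g, hP, hg⟩ := hG (f x) (fun h => hx ((ofinj f hf x).1 h))
  exact ⟨P, _, g.comp f, hP, hg⟩

theorem PerVisible.of_injective {G H : Type} [Group G] [Group H] (hG : PerVisible C G) (f : H →* G)
    (hf : Function.Injective f) : PerVisible C H := by
  intro K hK
  obtain ⟨P, _, g, hP, hg⟩ := hG (K.map f) (by
    rintro _ ⟨x, hx, rfl⟩
    exact (ofinj f hf x).2 (hK x hx))
  refine ⟨P, _, g.comp f, hP, fun x hx h => hf ?_⟩
  rw [map_one]
  exact hg (f x) ⟨x, hx, rfl⟩ h

theorem Residual.of_injective {G H : Type} [Group G] [Group H] (hG : Residual C G) (f : H →* G)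
    (hf : Function.Injective f) : Residual C H := by
  intro x hx
  obtain ⟨P, _, g, hP, hg⟩ := hG (f x) (fun h => hx (hf (by rw [h, map_one])))
  exact ⟨P, _, g.comp f, hP, hg⟩

/-- **groups with visible elements of infinite order and visible periodic subgroups** -/
theorem hier_per (hC : ClosedE C) {G : Type} [Group G] (hG : Hier C FinHirsch G) :
    InfVisible C G → PerVisible C G → C G := by
  induction hG with
  | base h => exact fun _ _ => h
  | @tree G V _ _ T hT hact hV hE ih =>
    intro hI hP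
    refine Pool.Agent.N509.TK.edges hC hT hact (fun v => ih v
      (hI.of_injective _ (Subgroup.subtype_injective _))
      (hP.of_injective _ (Subgroup.subtype_injective _))) ?_
    intro u v huv
    obtain ⟨P, _, f, h1, h2⟩ := exists_inj hC (MulAction.stabilizer G u ⊓ MulAction.stabilizer G v)
      (hE u v huv) hI (fun K _ hK => hP K hK)
    exact ⟨P, _, f, h1, fun g hu hv => h2 g ⟨hu, hv⟩⟩

/-- **residual groups with visible elements of infinite order** -/
theorem hier_res (hC : ClosedE C) {G : Type} [Group G] (hG : Hier C FinHirschPF G) :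
    InfVisible C G → Residual C G → C G := by
  induction hG with
  | base h => exact fun _ _ => h
  | @tree G V _ _ T hT hact hV hE ih =>
    intro hI hR
    refine Pool.Agent.N509.TK.edges hC hT hact (fun v => ih v
      (hI.of_injective _ (Subgroup.subtype_injective _))
      (hR.of_injective _ (Subgroup.subtype_injective _))) ?_
    intro u v huv
    obtain ⟨P, _, f, h1, h2⟩ := exists_inj hC (MulAction.stabilizer G u ⊓ MulAction.stabilizer G v)
      (hE u v huv).1 hI (fun K hK hK' => by
        have h3 : Finite (K.subgroupOf (MulAction.stabilizer G u ⊓ MulAction.stabilizer G v)) := by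
          refine (hE u v huv).2 _ ?_
          intro x hx
          exact (ofinj (Subgroup.subtype _) (Subgroup.subtype_injective _) x).1 (hK' x hx)
        have h4 : Finite K := Finite.of_equiv _ (Subgroup.subgroupOfEquivOfLe hK).toEquiv
        exact hR.finite hC K)
    exact ⟨P, _, f, h1, fun g hu hv => h2 g ⟨hu, hv⟩⟩

end Pool.Agent.U709.Hi
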