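import Mathlib

/-!
# Specialization of finitely generated domains of characteristic zero; orders of torsion elements
-/

set_option autoImplicit false

namespace Pool.Agent.U709.Hi

open Polynomial Module

/-- orders of roots of unity of bounded degree -/
theorem dvd_fact {d δ : ℕ} (hd : d ≠ 0) (h : d.totient ≤ δ) : d ∣ (2 * δ).factorial := by
  rw [Nat.dvd_iff_prime_pow_dvd_dvd]
  intro p k hp hpk
  rcases Nat.eq_zero_or_pos k with rfl | hk
  · simp
  · have h1 : (p ^ k).totient ≤ d.totient :=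
      Nat.le_of_dvd (Nat.totient_pos.2 (Nat.pos_of_ne_zero hd)) (Nat.totient_dvd_of_dvd hpk)
    rw [Nat.totient_prime_pow hp hk] at h1
    have h2 : p ^ k = p ^ (k - 1) * p := by
      rw [← pow_succ, Nat.sub_add_cancel hk]
    have h3 : p ≤ 2 * (p - 1) := by
      have := hp.two_le
      omega
    have h4 : p ^ k ≤ 2 * δ := by
      calc p ^ k = p ^ (k - 1) * p := h2
        _ ≤ p ^ (k - 1) * (2 * (p - 1)) := Nat.mul_le_mul_left _ h3
        _ = 2 * (p ^ (k - 1) * (p - 1)) := by ring
        _ ≤ 2 * δ := Nat.mul_le_mul_left _ (h1.trans h)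
    exact Nat.dvd_factorial (pow_pos hp.pos k) h4

theorem sq_dvd {μ q : ℚ[X]} (hμ : Squarefree μ) (h : ∀ p : ℚ[X], Irreducible p → p ∣ μ → p ∣ q)
    (hq : q ≠ 0) : μ ∣ q := by
  classical
  have hμ0 : μ ≠ 0 := hμ.ne_zero
  rw [UniqueFactorizationMonoid.dvd_iff_normalizedFactors_le_normalizedFactors hμ0 hq]
  rw [Multiset.le_iff_subset
    ((UniqueFactorizationMonoid.squarefree_iff_nodup_normalizedFactors hμ0).1 hμ)]
  intro p hp
  have h1 := UniqueFactorizationMonoid.irreducible_of_normalized_factor p hp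
  have h2 := UniqueFactorizationMonoid.dvd_of_mem_normalizedFactors hp
  obtain ⟨r, hr, hpr⟩ := UniqueFactorizationMonoid.exists_mem_normalizedFactors_of_dvd hq h1 (h p h1 h2)
  have h3 : p = r := by
    rw [← UniqueFactorizationMonoid.normalize_normalized_factor p hp,
      ← UniqueFactorizationMonoid.normalize_normalized_factor r hr]
    exact normalize_eq_normalize_iff_associated.2 hpr
  rw [h3]
  exact hr

/-- torsion in finite-dimensional algebras over the rationals has bounded exponent -/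
theorem tors {A : Type} [Ring A] [Algebra ℚ A] [Module.Finite ℚ A] {δ : ℕ}
    (hδ : finrank ℚ A ≤ δ) {x : A} {k : ℕ} (hk : 0 < k) (hx : x ^ k = 1) :
    x ^ (2 * δ).factorial = 1 := by
  have hμk : minpoly ℚ x ∣ X ^ k - 1 := by
    apply minpoly.dvd
    simp [hx]
  have hk0 : (X ^ k - 1 : ℚ[X]) ≠ 0 := X_pow_sub_C_ne_zero hk 1
  have hsep : (X ^ k - 1 : ℚ[X]).Separable :=
    (X_pow_sub_one_separable_iff (F := ℚ)).2 (by exact_mod_cast hk.ne')
  have hsq : Squarefree (minpoly ℚ x) := hsep.squarefree.squarefree_of_dvd hμk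
  have hN : (X ^ (2 * δ).factorial - 1 : ℚ[X]) ≠ 0 :=
    X_pow_sub_C_ne_zero (Nat.factorial_pos _) 1
  have key : minpoly ℚ x ∣ X ^ (2 * δ).factorial - 1 := by
    refine sq_dvd hsq ?_ hN
    intro p hp hpμ
    have h1 : p ∣ X ^ k - 1 := hpμ.trans hμk
    rw [← prod_cyclotomic_eq_X_pow_sub_one hk ℚ] at h1
    obtain ⟨d, hd, hpd⟩ := (hp.prime.dvd_finsetProd_iff _).1 h1
    have hd0 : 0 < d := Nat.pos_of_mem_divisors hd
    have h2 : Associated p (cyclotomic d ℚ) :=
      hp.associated_of_dvd (cyclotomic.irreducible_rat hd0) hpd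
    have h3 : d.totient ≤ δ := by
      have h4 : p.natDegree = d.totient := by
        rw [natDegree_eq_of_degree_eq (degree_eq_degree_of_associated h2), natDegree_cyclotomic]
      have h5 : p.natDegree ≤ (minpoly ℚ x).natDegree :=
        natDegree_le_of_dvd hpμ (minpoly.ne_zero (Algebra.IsIntegral.isIntegral x))
      have h6 : (minpoly ℚ x).natDegree ≤ finrank ℚ A := minpoly.natDegree_le (A := ℚ) x
      omega
    obtain ⟨m, hm⟩ := dvd_fact hd0.ne' h3
    refine h2.dvd.trans ((cyclotomic.dvd_X_pow_sub_one d ℚ).trans ?_)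
    rw [hm, pow_mul]
    exact sub_one_dvd_pow_sub_one _ _
  obtain ⟨r, hr⟩ := key
  have h7 : aeval x (X ^ (2 * δ).factorial - 1 : ℚ[X]) = 0 := by
    rw [hr, map_mul, minpoly.aeval, zero_mul]
  simpa [sub_eq_zero] using h7

/-- specialization of finitely generated domains over the rationals, of bounded degree -/
theorem spec (A : Type) [CommRing A] [IsDomain A] [Algebra ℚ A] [Algebra.FiniteType ℚ A] :
    ∃ D : ℕ, ∀ a : A, a ≠ 0 → ∃ (k : Type) (_ : Field k) (_ : Algebra ℚ k) (f : A →ₐ[ℚ] k),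
      Module.Finite ℚ k ∧ finrank ℚ k ≤ D ∧ f a ≠ 0 := by
  classical
  obtain ⟨s, g, hg, hfin⟩ := exists_finite_inj_algHom_of_fg ℚ A
  let _ : Algebra (MvPolynomial (Fin s) ℚ) A := g.toRingHom.toAlgebra
  have hgA : ∀ p : MvPolynomial (Fin s) ℚ, algebraMap (MvPolynomial (Fin s) ℚ) A p = g p :=
    fun _ => rfl
  have hfin' : Module.Finite (MvPolynomial (Fin s) ℚ) A := hfin
  have hint : Algebra.IsIntegral (MvPolynomial (Fin s) ℚ) A := Algebra.IsIntegral.of_finite _ _
  obtain ⟨S, hS⟩ := hfin'.fg_top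
  refine ⟨S.card, fun a ha => ?_⟩
  have h1 : (Ideal.span {a}).comap (algebraMap (MvPolynomial (Fin s) ℚ) A) ≠ ⊥ :=
    Ideal.comap_ne_bot_of_integral_mem ha (Ideal.subset_span rfl) (hint.isIntegral a)
  obtain ⟨c, hc, hc0⟩ := Submodule.exists_mem_ne_zero_of_ne_bot h1
  obtain ⟨t, ht⟩ : ∃ t : Fin s → ℚ, MvPolynomial.eval t c ≠ 0 := by
    by_contra hcon
    push Not at hcon
    exact hc0 (MvPolynomial.funext fun t => by rw [hcon t, map_zero])
  have hsurj : Function.Surjective (MvPolynomial.eval t : MvPolynomial (Fin s) ℚ →+* ℚ) :=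
    fun q => ⟨MvPolynomial.C q, MvPolynomial.eval_C q⟩
  have hmax : (RingHom.ker (MvPolynomial.eval t : MvPolynomial (Fin s) ℚ →+* ℚ)).IsMaximal :=
    RingHom.ker_isMaximal_of_surjective _ hsurj
  obtain ⟨M, hM, hMc⟩ := Ideal.exists_ideal_over_maximal_of_isIntegral (S := A)
    (RingHom.ker (MvPolynomial.eval t : MvPolynomial (Fin s) ℚ →+* ℚ)) (by
      intro p hp
      have h2 : g p = 0 := hp
      rw [hg (by rw [h2, map_zero] : g p = g 0)]
      exact zero_mem _)
  let _ : Field (A ⧸ M) := Ideal.Quotient.field M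
  have hspan : Submodule.span ℚ ((S.image (Ideal.Quotient.mkₐ ℚ M) : Finset (A ⧸ M)) : Set (A ⧸ M)) =
      ⊤ := by
    rw [eq_top_iff]
    intro y _
    obtain ⟨x, rfl⟩ := Ideal.Quotient.mkₐ_surjective ℚ M y
    have hx : x ∈ Submodule.span (MvPolynomial (Fin s) ℚ) (S : Set A) := by
      rw [hS]
      exact Submodule.mem_top
    induction hx using Submodule.span_induction with
    | mem z hz =>
      refine Submodule.subset_span ?_
      rw [Finset.coe_image]
      exact ⟨z, hz, rfl⟩
    | zero => rw [map_zero]; exact zero_mem _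
    | add z w _ _ hz hw => rw [map_add]; exact add_mem (hz trivial) (hw trivial)
    | smul p z _ hz =>
      have h3 : Ideal.Quotient.mkₐ ℚ M (p • z) =
          (MvPolynomial.eval t p) • Ideal.Quotient.mkₐ ℚ M z := by
        have h4 : p - MvPolynomial.C (MvPolynomial.eval t p) ∈
            M.comap (algebraMap (MvPolynomial (Fin s) ℚ) A) := by
          rw [hMc, RingHom.mem_ker, map_sub, MvPolynomial.eval_C, sub_self]
        have h5 : g p - algebraMap ℚ A (MvPolynomial.eval t p) ∈ M := by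
          have h6 : g (p - MvPolynomial.C (MvPolynomial.eval t p)) ∈ M := h4
          rw [map_sub] at h6
          have h7 : g (MvPolynomial.C (MvPolynomial.eval t p)) =
              algebraMap ℚ A (MvPolynomial.eval t p) := by
            rw [← MvPolynomial.algebraMap_eq]
            exact g.commutes _
          rwa [h7] at h6
        rw [Algebra.smul_def, hgA, map_mul, Algebra.smul_def]
        congr 1
        rw [← sub_eq_zero]
        have h8 : Ideal.Quotient.mkₐ ℚ M (g p - algebraMap ℚ A (MvPolynomial.eval t p)) = 0 :=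
          Ideal.Quotient.eq_zero_iff_mem.2 h5
        rw [map_sub, AlgHom.commutes] at h8
        exact h8
      rw [h3]
      exact Submodule.smul_mem _ _ (hz trivial)
  have hfk : Module.Finite ℚ (A ⧸ M) := ⟨⟨_, hspan⟩⟩
  refine ⟨A ⧸ M, inferInstance, inferInstance, Ideal.Quotient.mkₐ ℚ M, hfk, ?_, ?_⟩
  · have h9 : finrank ℚ (A ⧸ M) ≤ (S.image (Ideal.Quotient.mkₐ ℚ M)).card := by
      rw [← finrank_top ℚ (A ⧸ M), ← hspan]
      exact finrank_span_finset_le_card _
    exact h9.trans Finset.card_image_le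
  · intro h0
    have h10 : a ∈ M := Ideal.Quotient.eq_zero_iff_mem.1 h0
    have h11 : c ∈ M.comap (algebraMap (MvPolynomial (Fin s) ℚ) A) := by
      refine Ideal.comap_mono ?_ hc
      rw [Ideal.span_le]
      rintro _ rfl
      exact h10
    rw [hMc, RingHom.mem_ker] at h11
    exact ht h11

end Pool.Agent.U709.Hi
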