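import Pool.Agent.U709.HiA
import Pool.Agent.U709.HiB

/-!
# Linear groups in characteristic zero
-/

set_option autoImplicit false

namespace Pool.Agent.U709.Hi

open Matrix Module
open Pool.Agent.Y110.FJ (ClosedE)

variable {C : ∀ (G : Type) [Group G], Prop}

theorem gl_map_inj {A B : Type} [CommRing A] [CommRing B] {n : ℕ} (f : A →+* B)
    (hf : Function.Injective f) : Function.Injective (GeneralLinearGroup.map (n := Fin n) f) := by
  intro a b hab
  apply GeneralLinearGroup.ext
  intro i j
  apply hf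
  have : (GeneralLinearGroup.map f a).1 i j = (GeneralLinearGroup.map f b).1 i j := by rw [hab]
  exact this

/-- the unit group of a finite-dimensional algebra -/
theorem fin_alg (hC : ClosedE C) {k : Type} [Field k] (hk : ∀ n : ℕ, C (GL (Fin n) k))
    (A : Type) [Ring A] [Algebra k A] [Module.Finite k A] : C Aˣ := by
  let b := Module.finBasis k A
  refine hC.base.of_injective _ _ (Units.map (Algebra.leftMulMatrix b).toMonoidHom) ?_
    (hk (Module.finrank k A))
  intro x y hxy
  apply Units.ext
  exact Algebra.leftMulMatrix_injective b (congrArg Units.val hxy)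

/-- a finitely generated linear group is a group of matrices over a finitely generated subalgebra -/
theorem fg_subalg {k K : Type} [Field k] [Field K] [Algebra k K] {n : ℕ} {G : Type} [Group G]
    (hG : Group.FG G) (ρ : G →* GL (Fin n) K) (hρ : Function.Injective ρ) :
    ∃ (A : Subalgebra k K) (f : G →* GL (Fin n) A), A.FG ∧ Function.Injective f := by
  classical
  obtain ⟨S, hS⟩ := hG.out
  let X : Finset K := S.biUnion fun g => Finset.univ.biUnion fun i : Fin n =>
    Finset.univ.biUnion fun j : Fin n => {(ρ g).1 i j, (ρ g)⁻¹.1 i j}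
  let A : Subalgebra k K := Algebra.adjoin k (X : Set K)
  have hA1 : ∀ g ∈ S, ∀ i j, (ρ g).1 i j ∈ A := by
    intro g hg i j
    apply Algebra.subset_adjoin
    simp only [X, Finset.coe_biUnion, Set.mem_iUnion, Finset.mem_coe]
    exact ⟨g, hg, i, Finset.mem_univ _, j, Finset.mem_univ _, by simp⟩
  have hA2 : ∀ g ∈ S, ∀ i j, (ρ g)⁻¹.1 i j ∈ A := by
    intro g hg i j
    apply Algebra.subset_adjoin
    simp only [X, Finset.coe_biUnion, Set.mem_iUnion, Finset.mem_coe]
    exact ⟨g, hg, i, Finset.mem_univ _, j, Finset.mem_univ _, by simp⟩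
  let φ : GL (Fin n) A →* GL (Fin n) K := GeneralLinearGroup.map A.val.toRingHom
  have hφ : Function.Injective φ := gl_map_inj _ Subtype.val_injective
  have hle : ρ.range ≤ φ.range := by
    rw [MonoidHom.range_eq_map, ← hS, MonoidHom.map_closure, Subgroup.closure_le]
    rintro _ ⟨g, hg, rfl⟩
    let M : Matrix (Fin n) (Fin n) A := fun i j => ⟨(ρ g).1 i j, hA1 g hg i j⟩
    let M' : Matrix (Fin n) (Fin n) A := fun i j => ⟨(ρ g)⁻¹.1 i j, hA2 g hg i j⟩
    have hM : A.val.toRingHom.mapMatrix M = (ρ g).1 := by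
      ext i j
      rfl
    have hM' : A.val.toRingHom.mapMatrix M' = (ρ g)⁻¹.1 := by
      ext i j
      rfl
    have hinj : Function.Injective (A.val.toRingHom.mapMatrix (m := Fin n)) := by
      intro a b hab
      ext i j
      have h1 := congrFun (congrFun hab i) j
      exact h1
    refine ⟨⟨M, M', hinj ?_, hinj ?_⟩, ?_⟩
    · rw [map_mul, map_one, hM, hM', ← Units.val_mul, mul_inv_cancel, Units.val_one]
    · rw [map_mul, map_one, hM, hM', ← Units.val_mul, inv_mul_cancel, Units.val_one]
    · apply GeneralLinearGroup.ext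
      intro i j
      rfl
  refine ⟨A, (MonoidHom.ofInjective hφ).symm.toMonoidHom.comp (ρ.codRestrict φ.range fun g =>
    hle ⟨g, rfl⟩), ⟨X, rfl⟩, ?_⟩
  intro a b hab
  apply hρ
  have h1 : (ρ.codRestrict φ.range fun g => hle ⟨g, rfl⟩) a =
      (ρ.codRestrict φ.range fun g => hle ⟨g, rfl⟩) b :=
    (MonoidHom.ofInjective hφ).symm.injective hab
  exact congrArg Subtype.val h1

/-- the kernel of a specialization in characteristic zero is torsion-free -/
theorem ker_tf {A k : Type} [CommRing A] [IsDomain A] [Algebra ℚ A] [Field k] [Algebra ℚ k]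
    (f : A →ₐ[ℚ] k) {n : ℕ} (x : Matrix (Fin n) (Fin n) A) {m : ℕ} (hm : 0 < m) (hx : x ^ m = 1)
    (hf : f.toRingHom.mapMatrix x = 1) : x = 1 := by
  have h1 : (x - 1) * ∑ i ∈ Finset.range m, x ^ i = 0 := by
    rw [mul_geom_sum, hx, sub_self]
  obtain ⟨B, hB⟩ : ∃ B, B = ∑ i ∈ Finset.range m, x ^ i := ⟨_, rfl⟩
  rw [← hB] at h1
  have h2 : f.toRingHom.mapMatrix B = (m : Matrix (Fin n) (Fin n) k) := by
    rw [hB, map_sum]
    simp only [map_pow, hf, one_pow, Finset.sum_const, Finset.card_range]
    rw [nsmul_eq_mul, mul_one]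
  have h3 : B.det ≠ 0 := by
    intro h0
    have h4 := congrArg f.toRingHom h0
    rw [RingHom.map_det, h2, map_zero] at h4
    have h5 : ((m : Matrix (Fin n) (Fin n) k)).det = (m : k) ^ n := by
      rw [← Matrix.diagonal_natCast, Matrix.det_diagonal]
      simp
    rw [h5] at h4
    have h6 : (m : k) ≠ 0 := by
      have : CharZero k := algebraRat.charZero k
      exact_mod_cast hm.ne'
    exact pow_ne_zero _ h6 h4
  have h4 : B.det • (x - 1) = 0 := by
    calc B.det • (x - 1) = (x - 1) * (B.det • (1 : Matrix (Fin n) (Fin n) A)) := by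
          rw [mul_smul_comm, mul_one]
      _ = (x - 1) * (B * B.adjugate) := by rw [Matrix.mul_adjugate]
      _ = 0 := by rw [← mul_assoc, h1, zero_mul]
  rcases smul_eq_zero.1 h4 with h | h
  · exact absurd h h3
  · exact sub_eq_zero.1 h

/-- finitely generated linear groups in characteristic zero -/
theorem lin_visible (hC : ClosedE C) (hGL : ∀ n : ℕ, C (GL (Fin n) ℚ)) {G : Type} [Group G]
    (hfg : Group.FG G) {K : Type} [Field K] [CharZero K] {n : ℕ} (ρ : G →* GL (Fin n) K)
    (hρ : Function.Injective ρ) : InfVisible C G ∧ PerVisible C G := by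
  classical
  obtain ⟨A, φ, hA, hφ⟩ := fg_subalg (k := ℚ) hfg ρ hρ
  have hft : Algebra.FiniteType ℚ A := (Subalgebra.fg_iff_finiteType A).1 hA
  obtain ⟨D, hD⟩ := spec A
  refine ⟨fun x hx => ?_, fun L hL => ?_⟩
  · obtain ⟨N, hN⟩ : ∃ N, N = (2 * (n * n * D)).factorial := ⟨_, rfl⟩
    have hxN : φ x ^ N ≠ 1 := by
      intro h
      apply hx
      rw [isOfFinOrder_iff_pow_eq_one]
      refine ⟨N, by rw [hN]; exact Nat.factorial_pos _, hφ ?_⟩
      rw [map_pow, h, map_one]
    obtain ⟨i, j, hij⟩ : ∃ i j, ((φ x ^ N).1 - 1) i j ≠ 0 := by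
      by_contra hcon
      push Not at hcon
      apply hxN
      apply Units.ext
      rw [Units.val_one, ← sub_eq_zero]
      ext i j
      exact congrArg _ (hcon i j)
    obtain ⟨k, _, _, f, hk, hkD, hf⟩ := hD _ hij
    refine ⟨(Matrix (Fin n) (Fin n) k)ˣ, inferInstance,
      (GeneralLinearGroup.map f.toRingHom).comp φ, fin_alg hC hGL _, ?_⟩
    rw [isOfFinOrder_iff_pow_eq_one]
    rintro ⟨m, hm, h1⟩
    have h2 : ((GeneralLinearGroup.map f.toRingHom (φ x)).1) ^ m = 1 := by
      have := congrArg Units.val h1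
      simpa using this
    have h3 := tors (A := Matrix (Fin n) (Fin n) k) (δ := n * n * D) (by
      rw [Module.finrank_matrix]
      simp only [Fintype.card_fin]
      exact Nat.mul_le_mul_left _ hkD) hm h2
    rw [← hN] at h3
    apply hf
    have h4 : (GeneralLinearGroup.map f.toRingHom (φ x ^ N)).1 i j =
        (1 : Matrix (Fin n) (Fin n) k) i j := by
      rw [map_pow, Units.val_pow_eq_pow_val, h3]
    rw [Matrix.sub_apply, map_sub]
    change (GeneralLinearGroup.map f.toRingHom (φ x ^ N)).1 i j -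
      f ((1 : Matrix (Fin n) (Fin n) A) i j) = 0
    rw [h4, Matrix.one_apply, Matrix.one_apply, sub_eq_zero]
    split_ifs
    · rw [map_one]
    · rw [map_zero]
  · obtain ⟨k, _, _, f, hk, hkD, hf⟩ := hD 1 one_ne_zero
    refine ⟨(Matrix (Fin n) (Fin n) k)ˣ, inferInstance,
      (GeneralLinearGroup.map f.toRingHom).comp φ, fin_alg hC hGL _, fun x hx h1 => ?_⟩
    obtain ⟨m, hm, hm'⟩ := isOfFinOrder_iff_pow_eq_one.1 (hL x hx)
    apply hφ
    rw [map_one]
    apply Units.ext
    refine ker_tf f (φ x).1 hm ?_ ?_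
    · rw [← Units.val_pow_eq_pow_val, ← map_pow, hm', map_one, Units.val_one]
    · exact congrArg Units.val h1

/-- **linear groups in characteristic zero** -/
theorem hier_linear (hC : ClosedE C) (hGL : ∀ n : ℕ, C (GL (Fin n) ℚ)) {G : Type} [Group G]
    (hG : Hier C FinHirsch G) {K : Type} [Field K] [CharZero K] {n : ℕ} (ρ : G →* GL (Fin n) K)
    (hρ : Function.Injective ρ) : C G := by
  refine Pool.Agent.Y430.SS.of_directed hC.base G (Finset G) (fun i j => ?_)
    (fun s => Subgroup.closure (s : Set G))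
    (fun s t h => Subgroup.closure_mono (by exact_mod_cast h))
    (fun g => ⟨{g}, Subgroup.subset_closure (by simp)⟩) (fun S => ?_)
  · classical
    exact ⟨i ∪ j, Finset.subset_union_left, Finset.subset_union_right⟩
  have hfg : Group.FG (Subgroup.closure (S : Set G)) := by
    rw [Group.fg_iff_subgroup_fg]
    exact ⟨S, rfl⟩
  have h1 := lin_visible hC hGL hfg (ρ.comp (Subgroup.closure (S : Set G)).subtype)
    (hρ.comp (Subgroup.subtype_injective _))
  refine hier_per hC (hG.of_injective (fun _ _ _ _ f hf h => hC.base.of_injective _ _ f hf h)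
    (fun _ _ _ _ f hf h => FinHirsch.of_injective h f hf) (Subgroup.subtype _)
    (Subgroup.subtype_injective _)) h1.1 h1.2

end Pool.Agent.U709.Hi
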