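import Pool.Agent.U709.HiL

/-!
# Linear groups in positive characteristic
-/

set_option autoImplicit false

namespace Pool.Agent.U709.Hi

open Matrix Module Polynomial
open Pool.Agent.Y110.FJ (ClosedE)

variable {C : ∀ (G : Type) [Group G], Prop}

/-- nonzero algebraic elements over a finite field are roots of unity -/
theorem root_of_alg {p : ℕ} [Fact p.Prime] {K : Type} [Field K] [Algebra (ZMod p) K] {a : K}
    (ha : IsAlgebraic (ZMod p) a) (h0 : a ≠ 0) : ∃ m : ℕ, 0 < m ∧ a ^ m = 1 := by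
  have hi : IsIntegral (ZMod p) a := ha.isIntegral
  have hfin : Module.Finite (ZMod p) (Algebra.adjoin (ZMod p) {a}) :=
    ⟨(Submodule.fg_top _).2 hi.fg_adjoin_singleton⟩
  have hf : Finite (Algebra.adjoin (ZMod p) {a}) := Module.finite_of_finite (ZMod p)
  obtain ⟨b, hb⟩ : ∃ b : Algebra.adjoin (ZMod p) {a}, b = ⟨a, Algebra.self_mem_adjoin_singleton _ a⟩ :=
    ⟨_, rfl⟩
  obtain ⟨i, j, hij, h⟩ := Finite.exists_ne_map_eq_of_infinite (fun i : ℕ => b ^ i)
  have h1 : a ^ i = a ^ j := by
    have := congrArg Subtype.val h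
    simpa [hb] using this
  rcases lt_or_gt_of_ne hij with hlt | hlt
  · refine ⟨j - i, by omega, ?_⟩
    have h2 : a ^ i * a ^ (j - i) = a ^ i * 1 := by
      rw [← pow_add, Nat.add_sub_cancel' hlt.le, mul_one, h1]
    exact mul_left_cancel₀ (pow_ne_zero i h0) h2
  · refine ⟨i - j, by omega, ?_⟩
    have h2 : a ^ j * a ^ (i - j) = a ^ j * 1 := by
      rw [← pow_add, Nat.add_sub_cancel' hlt.le, mul_one, h1]
    exact mul_left_cancel₀ (pow_ne_zero j h0) h2

/-- a matrix of infinite order in characteristic `p` has a transcendental eigenvalue -/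
theorem exists_eig {p : ℕ} [Fact p.Prime] {K : Type} [Field K] [Algebra (ZMod p) K]
    [IsAlgClosed K] {n : ℕ} (x : GL (Fin n) K) (hx : ¬ IsOfFinOrder x) :
    ∃ a : K, Transcendental (ZMod p) a ∧ (x.1.charpoly).IsRoot a := by
  classical
  by_contra hcon
  push Not at hcon
  have hroot : ∀ a ∈ x.1.charpoly.roots, ∃ m : ℕ, 0 < m ∧ a ^ m = 1 := by
    intro a ha
    have h1 : (x.1.charpoly).IsRoot a := (mem_roots'.1 ha).2
    refine root_of_alg (p := p) (by
      by_contra h2
      exact hcon a h2 h1) ?_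
    rintro rfl
    have h3 : x.1.det = 0 := by
      rw [Matrix.det_eq_sign_charpoly_coeff, coeff_zero_eq_eval_zero]
      rw [IsRoot.def] at h1
      rw [h1, mul_zero]
    exact x.det_ne_zero h3
  obtain ⟨M, hM, hM'⟩ : ∃ M : ℕ, 0 < M ∧ ∀ a ∈ x.1.charpoly.roots, a ^ M = 1 := by
    have key : ∀ s : Multiset K, (∀ a ∈ s, ∃ m : ℕ, 0 < m ∧ a ^ m = 1) →
        ∃ M : ℕ, 0 < M ∧ ∀ a ∈ s, a ^ M = 1 := by
      intro s
      induction s using Multiset.induction_on with
      | empty => exact fun _ => ⟨1, one_pos, fun a ha => by simp at ha⟩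
      | cons b s ih =>
        intro h
        obtain ⟨M, hM, h1⟩ := ih fun a ha => h a (Multiset.mem_cons_of_mem ha)
        obtain ⟨m, hm, h2⟩ := h b (Multiset.mem_cons_self b s)
        refine ⟨M * m, Nat.mul_pos hM hm, fun a ha => ?_⟩
        rcases Multiset.mem_cons.1 ha with rfl | ha
        · rw [mul_comm, pow_mul, h2, one_pow]
        · rw [pow_mul, h1 a ha, one_pow]
    exact key _ hroot
  have hsplit : x.1.charpoly = (x.1.charpoly.roots.map fun a => X - C a).prod :=
    (IsAlgClosed.splits x.1.charpoly).eq_prod_roots_of_monic (Matrix.charpoly_monic x.1)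
  have hcard : x.1.charpoly.roots.card = n := by
    rw [← (IsAlgClosed.splits x.1.charpoly).natDegree_eq_card_roots, Matrix.charpoly_natDegree_eq_dim,
      Fintype.card_fin]
  have hdvd : x.1.charpoly ∣ (X ^ M - 1) ^ n := by
    have key : ∀ s : Multiset K, (∀ a ∈ s, a ^ M = 1) →
        (s.map fun a => X - C a).prod ∣ (X ^ M - 1) ^ s.card := by
      intro s
      induction s using Multiset.induction_on with
      | empty => intro _; simp
      | cons b s ih =>
        intro h
        rw [Multiset.map_cons, Multiset.prod_cons, Multiset.card_cons, pow_succ']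
        refine mul_dvd_mul ?_ (ih fun a ha => h a (Multiset.mem_cons_of_mem ha))
        rw [dvd_iff_isRoot, IsRoot.def]
        simp [h b (Multiset.mem_cons_self b s)]
    have h1 := key _ hM'
    rw [hcard, ← hsplit] at h1
    exact h1
  have hp : (X ^ M - 1 : K[X]) ^ n ∣ X ^ (M * p ^ n) - 1 := by
    have : CharP K p := (Algebra.charP_iff (ZMod p) K p).1 (ZMod.charP p)
    have h1 : (X ^ (M * p ^ n) - 1 : K[X]) = (X ^ M - 1) ^ p ^ n := by
      have : ExpChar K[X] p := ExpChar.prime Fact.out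
      rw [sub_pow_expChar_pow, one_pow, pow_mul]
    rw [h1]
    exact pow_dvd_pow _ (Nat.lt_pow_self (Fact.out : p.Prime).one_lt).le
  apply hx
  rw [isOfFinOrder_iff_pow_eq_one]
  refine ⟨M * p ^ n, Nat.mul_pos hM (pow_pos (Fact.out : p.Prime).pos _), ?_⟩
  apply Units.ext
  rw [Units.val_pow_eq_pow_val, Units.val_one]
  obtain ⟨r, hr⟩ := hdvd.trans hp
  have h2 : aeval x.1 (X ^ (M * p ^ n) - 1 : K[X]) = 0 := by
    rw [hr, map_mul, Matrix.aeval_self_charpoly, zero_mul]
  simpa [sub_eq_zero] using h2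

/-- a finitely generated group of matrices lies in a finitely generated subalgebra which contains a
given element -/
theorem fg_subalg' {k K : Type} [Field k] [Field K] [Algebra k K] {n : ℕ} {G : Type} [Group G]
    (hG : Group.FG G) (ρ : G →* GL (Fin n) K) (hρ : Function.Injective ρ) (c : K) :
    ∃ (A : Subalgebra k K) (f : G →* GL (Fin n) A), A.FG ∧ Function.Injective f ∧ c ∈ A ∧
      ∀ g, (GeneralLinearGroup.map A.val.toRingHom (f g)) = ρ g := by
  classical
  obtain ⟨S, hS⟩ := hG.out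
  let Y : Finset K := insert c (S.biUnion fun g => Finset.univ.biUnion fun i : Fin n =>
    Finset.univ.biUnion fun j : Fin n => {(ρ g).1 i j, (ρ g)⁻¹.1 i j})
  let A : Subalgebra k K := Algebra.adjoin k (Y : Set K)
  have hA1 : ∀ g ∈ S, ∀ i j, (ρ g).1 i j ∈ A := by
    intro g hg i j
    apply Algebra.subset_adjoin
    simp only [Y, Finset.coe_insert, Finset.coe_biUnion, Set.mem_insert_iff, Set.mem_iUnion,
      Finset.mem_coe]
    exact Or.inr ⟨g, hg, i, Finset.mem_univ _, j, Finset.mem_univ _, by simp⟩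
  have hA2 : ∀ g ∈ S, ∀ i j, (ρ g)⁻¹.1 i j ∈ A := by
    intro g hg i j
    apply Algebra.subset_adjoin
    simp only [Y, Finset.coe_insert, Finset.coe_biUnion, Set.mem_insert_iff, Set.mem_iUnion,
      Finset.mem_coe]
    exact Or.inr ⟨g, hg, i, Finset.mem_univ _, j, Finset.mem_univ _, by simp⟩
  let φ : GL (Fin n) A →* GL (Fin n) K := GeneralLinearGroup.map A.val.toRingHom
  have hφ : Function.Injective φ := gl_map_inj _ Subtype.val_injective
  have hle : ρ.range ≤ φ.range := by
    rw [MonoidHom.range_eq_map, ← hS, MonoidHom.map_closure, Subgroup.closure_le]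
    rintro _ ⟨g, hg, rfl⟩
    let M : Matrix (Fin n) (Fin n) A := fun i j => ⟨(ρ g).1 i j, hA1 g hg i j⟩
    let M' : Matrix (Fin n) (Fin n) A := fun i j => ⟨(ρ g)⁻¹.1 i j, hA2 g hg i j⟩
    have hM : A.val.toRingHom.mapMatrix M = (ρ g).1 := by
      ext i j
      rfl
    have hM' : A.val.toRingHom.mapMatrix M' = (ρ g)⁻¹.1 := by
      ext i j
      rfl
    have hinj : Function.Injective (A.val.toRingHom.mapMatrix (m := Fin n)) := by
      intro a b hab
      ext i j
      have h1 := congrFun (congrFun hab i) j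
      exact h1
    refine ⟨⟨M, M', hinj ?_, hinj ?_⟩, ?_⟩
    · rw [map_mul, map_one, hM, hM', ← Units.val_mul, mul_inv_cancel, Units.val_one]
    · rw [map_mul, map_one, hM, hM', ← Units.val_mul, inv_mul_cancel, Units.val_one]
    · apply GeneralLinearGroup.ext
      intro i j
      rfl
  have hfφ : ∀ g, φ ((MonoidHom.ofInjective hφ).symm (ρ.codRestrict φ.range (fun g =>
      hle ⟨g, rfl⟩) g)) = ρ g := by
    intro g
    have h1 := (MonoidHom.ofInjective hφ).apply_symm_apply (ρ.codRestrict φ.range (fun g =>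
      hle ⟨g, rfl⟩) g)
    exact congrArg Subtype.val h1
  refine ⟨A, (MonoidHom.ofInjective hφ).symm.toMonoidHom.comp (ρ.codRestrict φ.range fun g =>
    hle ⟨g, rfl⟩), ⟨Y, rfl⟩, ?_, Algebra.subset_adjoin (by simp [Y]), hfφ⟩
  intro a b hab
  apply hρ
  rw [← hfφ a, ← hfφ b]
  exact congrArg φ hab

/-- finitely generated linear groups are residually finite -/
theorem lin_residual (hC : ClosedE C) {G : Type} [Group G] (hfg : Group.FG G) {p : ℕ}
    [Fact p.Prime] {K : Type} [Field K] [Algebra (ZMod p) K] {n : ℕ} (ρ : G →* GL (Fin n) K)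
    (hρ : Function.Injective ρ) : Residual C G := by
  intro x hx
  obtain ⟨i, j, hij⟩ : ∃ i j, ((ρ x).1 - 1) i j ≠ 0 := by
    by_contra hcon
    push Not at hcon
    apply hx
    apply hρ
    rw [map_one]
    apply Units.ext
    rw [Units.val_one, ← sub_eq_zero]
    ext i j
    exact hcon i j
  obtain ⟨A, φ, hA, hφ, hc, hφρ⟩ := fg_subalg' (k := ZMod p) hfg ρ hρ (((ρ x).1 - 1) i j)⁻¹
  have hft : Algebra.FiniteType (ZMod p) A := (Subalgebra.fg_iff_finiteType A).1 hA
  obtain ⟨M, hM⟩ := Ideal.exists_maximal A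
  let _ : Field (A ⧸ M) := Ideal.Quotient.field M
  have hft' : Algebra.FiniteType (ZMod p) (A ⧸ M) :=
    Algebra.FiniteType.of_surjective (Ideal.Quotient.mkₐ (ZMod p) M)
      (Ideal.Quotient.mkₐ_surjective (ZMod p) M)
  have hf : Module.Finite (ZMod p) (A ⧸ M) := finite_of_finite_type_of_isJacobsonRing _ _
  have hfin : Finite (A ⧸ M) := Module.finite_of_finite (ZMod p)
  have hfin' : Finite (GL (Fin n) (A ⧸ M)) := inferInstance
  refine ⟨GL (Fin n) (A ⧸ M), inferInstance, (GeneralLinearGroup.map (Ideal.Quotient.mk M)).comp φ,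
    Pool.Agent.Y430.SS.of_finite hC.base _ hfin', fun h => ?_⟩
  obtain ⟨a, ha⟩ : ∃ a : A, a = ((φ x).1 - 1) i j := ⟨_, rfl⟩
  have haK : (a : K) = ((ρ x).1 - 1) i j := by
    rw [ha, ← hφρ x, Matrix.sub_apply, Matrix.sub_apply, Matrix.one_apply, Matrix.one_apply]
    split_ifs <;> rfl
  have h1 : (Ideal.Quotient.mk M) a = 0 := by
    have h2 : (GeneralLinearGroup.map (Ideal.Quotient.mk M) (φ x)).1 i j =
        (1 : Matrix (Fin n) (Fin n) (A ⧸ M)) i j := by
      have h3 : GeneralLinearGroup.map (Ideal.Quotient.mk M) (φ x) = 1 := h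
      rw [h3]
      rfl
    rw [ha, Matrix.sub_apply, map_sub]
    change (GeneralLinearGroup.map (Ideal.Quotient.mk M) (φ x)).1 i j - _ = 0
    rw [h2, Matrix.one_apply, Matrix.one_apply, sub_eq_zero]
    split_ifs
    · rw [map_one]
    · rw [map_zero]
  have h4 : (⟨_, hc⟩ : A) * a = 1 := by
    apply Subtype.ext
    change (((ρ x).1 - 1) i j)⁻¹ * (a : K) = 1
    rw [haK]
    exact inv_mul_cancel₀ hij
  have h5 := congrArg (Ideal.Quotient.mk M) h4
  rw [map_mul, h1, mul_zero, map_one] at h5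
  exact zero_ne_one h5

/-- elements of infinite order in linear groups of characteristic `p` -/
theorem lin_inf (hC : ClosedE C) {p : ℕ} [Fact p.Prime]
    (hGL : ∀ n : ℕ, C (GL (Fin n) (RatFunc (ZMod p)))) {G : Type} [Group G] (hfg : Group.FG G)
    {K : Type} [Field K] [Algebra (ZMod p) K] {n : ℕ} (ρ : G →* GL (Fin n) K)
    (hρ : Function.Injective ρ) : InfVisible C G := by
  intro x hx
  let L := AlgebraicClosure K
  let ρ' : G →* GL (Fin n) L := (GeneralLinearGroup.map (algebraMap K L)).comp ρ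
  have hρ' : Function.Injective ρ' := (gl_map_inj _ (algebraMap K L).injective).comp hρ
  obtain ⟨a, ha, har⟩ := exists_eig (p := p) (ρ' x) (fun h => hx ((ofinj ρ' hρ' x).1 h))
  let θ : (ZMod p)[X] →ₐ[ZMod p] L := aeval a
  have hθ : Function.Injective θ := transcendental_iff_injective.1 ha
  let Θ : RatFunc (ZMod p) →+* L := IsFractionRing.lift (A := (ZMod p)[X]) (K := RatFunc (ZMod p))
    (g := θ.toRingHom) hθ
  have hΘ : Θ RatFunc.X = a := by
    have h1 := IsFractionRing.lift_algebraMap (A := (ZMod p)[X]) (K := RatFunc (ZMod p))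
      (g := θ.toRingHom) hθ X
    rw [RatFunc.algebraMap_X] at h1
    rw [h1]
    exact aeval_X a
  let _ : Algebra (RatFunc (ZMod p)) L := Θ.toAlgebra
  obtain ⟨A, φ, hA, hφ, -, hφρ⟩ := fg_subalg' (k := RatFunc (ZMod p)) hfg ρ' hρ' 1
  have hft : Algebra.FiniteType (RatFunc (ZMod p)) A := (Subalgebra.fg_iff_finiteType A).1 hA
  obtain ⟨M, hM⟩ := Ideal.exists_maximal A
  let _ : Field (A ⧸ M) := Ideal.Quotient.field M
  have hft' : Algebra.FiniteType (RatFunc (ZMod p)) (A ⧸ M) :=
    Algebra.FiniteType.of_surjective (Ideal.Quotient.mkₐ (RatFunc (ZMod p)) M)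
      (Ideal.Quotient.mkₐ_surjective (RatFunc (ZMod p)) M)
  have hf : Module.Finite (RatFunc (ZMod p)) (A ⧸ M) := finite_of_finite_type_of_isJacobsonRing _ _
  refine ⟨(Matrix (Fin n) (Fin n) (A ⧸ M))ˣ, inferInstance,
    (GeneralLinearGroup.map (Ideal.Quotient.mk M)).comp φ, fin_alg hC hGL _, ?_⟩
  rw [isOfFinOrder_iff_pow_eq_one]
  rintro ⟨m, hm, h1⟩
  have hdetA : ((algebraMap (RatFunc (ZMod p)) A RatFunc.X) • (1 : Matrix (Fin n) (Fin n) A) -
      (φ x).1).det = 0 := by
    have hval : Function.Injective A.val.toRingHom := Subtype.val_injective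
    apply hval
    rw [RingHom.map_det, map_zero]
    have h2 : (A.val.toRingHom.mapMatrix ((algebraMap (RatFunc (ZMod p)) A RatFunc.X) •
        (1 : Matrix (Fin n) (Fin n) A) - (φ x).1)) = a • (1 : Matrix (Fin n) (Fin n) L) - (ρ' x).1 := by
      rw [map_sub]
      congr 1
      · ext i j
        rw [RingHom.mapMatrix_apply, Matrix.map_apply, Matrix.smul_apply, Matrix.smul_apply,
          smul_eq_mul, smul_eq_mul, map_mul]
        congr 1
        rw [Matrix.one_apply, Matrix.one_apply]
        split_ifs <;> rfl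
      · exact congrArg Units.val (hφρ x)
    rw [h2]
    have h3 := har
    rw [IsRoot.def, Matrix.eval_charpoly] at h3
    rw [← h3]
    congr 2
    rw [Matrix.scalar_apply, Matrix.smul_one_eq_diagonal]
  have hdet : ((algebraMap (RatFunc (ZMod p)) (A ⧸ M) RatFunc.X) •
      (1 : Matrix (Fin n) (Fin n) (A ⧸ M)) -
      (GeneralLinearGroup.map (Ideal.Quotient.mk M) (φ x)).1).det = 0 := by
    have h2 := congrArg (Ideal.Quotient.mk M) hdetA
    rw [RingHom.map_det, map_zero, map_sub] at h2
    rw [← h2]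
    congr 2
    ext i j
    rw [RingHom.mapMatrix_apply, Matrix.map_apply, Matrix.smul_apply, Matrix.smul_apply,
      smul_eq_mul, smul_eq_mul, map_mul]
    congr 1
    rw [Matrix.one_apply, Matrix.one_apply]
    split_ifs
    · rw [map_one]
    · rw [map_zero]
  obtain ⟨v, hv, hv'⟩ := Matrix.exists_mulVec_eq_zero_iff.2 hdet
  rw [Matrix.sub_mulVec, Matrix.smul_mulVec, Matrix.one_mulVec, sub_eq_zero] at hv'
  have h4 : ∀ l : ℕ, ((GeneralLinearGroup.map (Ideal.Quotient.mk M) (φ x)).1 ^ l) *ᵥ v =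
      (algebraMap (RatFunc (ZMod p)) (A ⧸ M) RatFunc.X) ^ l • v := by
    intro l
    induction l with
    | zero => simp
    | succ l ih =>
      rw [pow_succ, ← Matrix.mulVec_mulVec, ← hv', Matrix.mulVec_smul, ih, smul_smul, pow_succ,
        mul_comm]
  have h5 : (GeneralLinearGroup.map (Ideal.Quotient.mk M) (φ x)).1 ^ m = 1 := by
    have := congrArg Units.val h1
    simpa using this
  have h6 := h4 m
  rw [h5, Matrix.one_mulVec] at h6
  have h7 : (1 - (algebraMap (RatFunc (ZMod p)) (A ⧸ M) RatFunc.X) ^ m) • v = 0 := by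
    rw [sub_smul, one_smul, ← h6, sub_self]
  rcases smul_eq_zero.1 h7 with h8 | h8
  · have h9 : algebraMap (RatFunc (ZMod p)) (A ⧸ M) (1 - RatFunc.X ^ m) = 0 := by
      rw [map_sub, map_one, map_pow]
      exact h8
    have h10 : (1 - RatFunc.X ^ m : RatFunc (ZMod p)) = 0 :=
      (algebraMap (RatFunc (ZMod p)) (A ⧸ M)).injective (by rw [h9, map_zero])
    have h11 : algebraMap (ZMod p)[X] (RatFunc (ZMod p)) (X ^ m - 1) = 0 := by
      rw [map_sub, map_pow, RatFunc.algebraMap_X, map_one, ← neg_sub, h10, neg_zero]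
    have h12 := (RatFunc.algebraMap_injective (ZMod p)) (h11.trans (map_zero _).symm)
    exact X_pow_sub_C_ne_zero hm (1 : ZMod p) h12
  · exact hv h8

theorem FinHirschPF.of_injective {G H : Type} [Group G] [Group H] (hG : FinHirschPF G) (f : H →* G)
    (hf : Function.Injective f) : FinHirschPF H := by
  refine ⟨hG.1.of_injective f hf, fun K hK => ?_⟩
  have h1 : Finite (K.map f) := hG.2 (K.map f) (by
    rintro _ ⟨x, hx, rfl⟩
    exact (ofinj f hf x).2 (hK x hx))
  exact Finite.of_equiv _ (K.equivMapOfInjective f hf).symm.toEquiv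

/-- **linear groups in positive characteristic** -/
theorem hier_linear_p (hC : ClosedE C) {p : ℕ} [Fact p.Prime]
    (hGL : ∀ n : ℕ, C (GL (Fin n) (RatFunc (ZMod p)))) {G : Type} [Group G]
    (hG : Hier C FinHirschPF G) {K : Type} [Field K] [CharP K p] {n : ℕ} (ρ : G →* GL (Fin n) K)
    (hρ : Function.Injective ρ) : C G := by
  let _ : Algebra (ZMod p) K := ZMod.algebra K p
  refine Pool.Agent.Y430.SS.of_directed hC.base G (Finset G) (fun i j => ?_)
    (fun s => Subgroup.closure (s : Set G))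
    (fun s t h => Subgroup.closure_mono (by exact_mod_cast h))
    (fun g => ⟨{g}, Subgroup.subset_closure (by simp)⟩) (fun S => ?_)
  · classical
    exact ⟨i ∪ j, Finset.subset_union_left, Finset.subset_union_right⟩
  have hfg : Group.FG (Subgroup.closure (S : Set G)) := by
    rw [Group.fg_iff_subgroup_fg]
    exact ⟨S, rfl⟩
  have hinj := hρ.comp (Subgroup.subtype_injective (Subgroup.closure (S : Set G)))
  refine hier_res hC (hG.of_injective (fun _ _ _ _ f hf h => hC.base.of_injective _ _ f hf h)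
    (fun _ _ _ _ f hf h => FinHirschPF.of_injective h f hf) (Subgroup.subtype _)
    (Subgroup.subtype_injective _)) ?_ ?_
  · exact lin_inf hC hGL hfg (ρ.comp (Subgroup.closure (S : Set G)).subtype) hinj
  · exact lin_residual hC hfg (p := p) (ρ.comp (Subgroup.closure (S : Set G)).subtype) hinj

end Pool.Agent.U709.Hi
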