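import Pool.Agent.U709.Gl
import Pool.Agent.U709.Abl
import Pool.Agent.U385.FJ.Main
import Pool.Agent.U863.CT.Gpd

/-!
# Hubs in trees: definitions and the projections onto the edge groups
-/

set_option autoImplicit false

namespace Pool.Agent.U709.Gl

open SimpleGraph
open scoped commutatorElement
open Pool.Agent.Y110.FJ Pool.Agent.Y462.SS

/-- the projection onto a factor -/
theorem exists_proj {S : Type} [Group S] (E L : Subgroup S) [L.Normal] (h1 : E ⊓ L = ⊥) (z : S)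
    (hz : ∀ e ∈ E, ⁅z, e⁆ ∈ L) (hgen : ∀ x : S, ∃ n : ℤ, z ^ n * x ∈ E ⊔ L)
    (hinf : ∀ n : ℤ, z ^ n ∈ E ⊔ L → z ^ n = 1) :
    ∃ p : S →* S, (∀ x, p x ∈ E) ∧ (∀ e ∈ E, p e = e) ∧ (∀ l ∈ L, p l = 1) ∧ p z = 1 := by
  let q : S →* S ⧸ L := QuotientGroup.mk' L
  have hq : ∀ x, q x = 1 ↔ x ∈ L := fun x => QuotientGroup.eq_one_iff x
  have hcom : ∀ (m : E) (n : Multiplicative ℤ),
      Commute ((q.comp E.subtype) m) (zpowersHom (S ⧸ L) (q z) n) := by
    intro m n
    have h2 : Commute (q z) (q m) := by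
      have h3 := (hq _).2 (hz m m.2)
      rw [map_commutatorElement, commutatorElement_eq_one_iff_mul_comm] at h3
      exact h3
    rw [zpowersHom_apply]
    exact (h2.zpow_left _).symm
  let φ : E × Multiplicative ℤ →* S ⧸ L :=
    MonoidHom.noncommCoprod (q.comp E.subtype) (zpowersHom (S ⧸ L) (q z)) hcom
  have hφ : ∀ (e : E) (n : ℤ), φ (e, Multiplicative.ofAdd n) = q e * (q z) ^ n := by
    intro e n
    rfl
  have hsur : Function.Surjective φ := by
    intro y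
    obtain ⟨s, rfl⟩ := QuotientGroup.mk'_surjective L y
    obtain ⟨n, hn⟩ := hgen s
    rw [← SetLike.mem_coe, Subgroup.mul_normal] at hn
    obtain ⟨e, he, l, hl, hel⟩ := hn
    refine ⟨(⟨e, he⟩, Multiplicative.ofAdd (-n)), ?_⟩
    rw [hφ]
    have h2 := congrArg q hel
    have h3 : q (e * l) = q e := by rw [map_mul, (hq l).2 hl, mul_one]
    have h4 : q (e * l) = q (z ^ n * s) := h2
    rw [h3, map_mul, map_zpow] at h4
    have h5 : Commute (q e) (q z ^ (-n)) := by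
      have := hcom ⟨e, he⟩ (Multiplicative.ofAdd (-n))
      rwa [zpowersHom_apply] at this
    show q e * q z ^ (-n) = q s
    rw [h5.eq, h4, zpow_neg, inv_mul_cancel_left]
  have hker : ∀ g, φ g = 1 → MonoidHom.fst E (Multiplicative ℤ) g = 1 := by
    rintro ⟨e, n⟩ he
    have h2 : q e * (q z) ^ (Multiplicative.toAdd n) = 1 := he
    rw [← map_zpow, ← map_mul, hq] at h2
    have h3 : z ^ (Multiplicative.toAdd n) ∈ E ⊔ L := by
      have h4 := mul_mem (inv_mem (Subgroup.mem_sup_left (T := L) e.2))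
        (Subgroup.mem_sup_right (S := E) h2)
      rwa [inv_mul_cancel_left] at h4
    rw [hinf _ h3, mul_one] at h2
    have h4 : (e : S) ∈ E ⊓ L := ⟨e.2, h2⟩
    rw [h1, Subgroup.mem_bot] at h4
    exact Subtype.ext h4
  let ψ : S ⧸ L →* E := φ.liftOfSurjective hsur ⟨MonoidHom.fst E (Multiplicative ℤ), hker⟩
  have hψ : ∀ g, ψ (φ g) = g.1 := fun g => MonoidHom.liftOfRightInverse_comp_apply _ _ _ _ g
  refine ⟨E.subtype.comp (ψ.comp q), fun x => (ψ (q x)).2, fun e he => ?_, fun l hl => ?_, ?_⟩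
  · have h2 := hψ (⟨e, he⟩, Multiplicative.ofAdd 0)
    rw [hφ, zpow_zero, mul_one] at h2
    show ((ψ (q e) : E) : S) = e
    rw [h2]
  · show ((ψ (q l) : E) : S) = 1
    rw [(hq l).2 hl, map_one]
    rfl
  · have h2 := hψ (1, Multiplicative.ofAdd 1)
    rw [hφ, zpow_one, Subgroup.coe_one, map_one, one_mul] at h2
    show ((ψ (q z) : E) : S) = 1
    rw [h2]
    rfl

variable {G V : Type} [Group G] [MulAction G V]

/-- the stabilizer of a pair of vertices -/
def Eg (G : Type) {V : Type} [Group G] [MulAction G V] (u v : V) : Subgroup G :=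
  MulAction.stabilizer G u ⊓ MulAction.stabilizer G v

theorem mem_Eg {u v : V} {x : G} : x ∈ Eg G u v ↔ x • u = u ∧ x • v = v := Iff.rfl

/-- the group generated by the stabilizers of the edges at `b` in other orbits than the edge to `a` -/
def Oth (G : Type) {V : Type} [Group G] [MulAction G V] (T : SimpleGraph V) (b a : V) :
    Subgroup G :=
  ⨆ a' : {a' : V // T.Adj b a' ∧ ∀ g : G, g • b = b → g • a ≠ a'}, Eg G (a' : V) b

/-- the group generated by `K b` and the stabilizers of the edges at `b` -/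
def Rg (T : SimpleGraph V) (K : V → Subgroup G) (b : V) : Subgroup G :=
  K b ⊔ ⨆ a' : {a' : V // T.Adj b a'}, Eg G (a' : V) b

/-- The vertices of the tree have two types, and edges join vertices of different types. For the
vertices `b` which are not of the type `A`, the hubs, the subgroup `K b` is normal in the stabilizer
of `b`, the images of the stabilizers of the edges at `b` in the quotient are normal, they are
independent for edges in different orbits, and they generate the quotient together with their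
centralizer. -/
structure Hubs (T : SimpleGraph V) (A : V → Prop) (K : V → Subgroup G) : Prop where
  inv : ∀ (g : G) v, A v → A (g • v)
  alt : ∀ u v, T.Adj u v → (A u ↔ ¬ A v)
  fix : ∀ b, ¬ A b → ∀ x ∈ K b, x • b = b
  conj : ∀ (g : G) b, ¬ A b → ∀ x ∈ K b, g * x * g⁻¹ ∈ K (g • b)
  normal : ∀ b a, ¬ A b → T.Adj b a → ∀ g : G, g • b = b → ∀ x ∈ Eg G a b,
    g * x * g⁻¹ ∈ Eg G a b ⊔ K b
  indep : ∀ b a, ¬ A b → T.Adj b a → Eg G a b ⊓ (K b ⊔ Oth G T b a) = ⊥
  cent : ∀ b, ¬ A b → ∀ g : G, g • b = b → ∃ e ∈ Rg T K b, ∀ a, T.Adj b a → ∀ x ∈ Eg G a b,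
    ⁅e⁻¹ * g, x⁆ ∈ K b

section hubs

variable {T : SimpleGraph V} {A : V → Prop} {K : V → Subgroup G}

theorem Eg_smul (g : G) (u v : V) {x : G} (hx : x ∈ Eg G u v) :
    g * x * g⁻¹ ∈ Eg G (g • u) (g • v) := by
  rw [mem_Eg] at hx ⊢
  constructor
  · rw [mul_smul, mul_smul, inv_smul_smul, hx.1]
  · rw [mul_smul, mul_smul, inv_smul_smul, hx.2]

theorem Hubs.not_inv (h : Hubs T A K) (g : G) {b : V} (hb : ¬ A b) : ¬ A (g • b) := by
  intro h1
  have h2 := h.inv g⁻¹ _ h1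
  rw [inv_smul_smul] at h2
  exact hb h2

theorem Hubs.conj' (h : Hubs T A K) {b : V} (hb : ¬ A b) {g : G} (hg : g • b = b) {x : G}
    (hx : x ∈ K b) : g * x * g⁻¹ ∈ K b := by
  have h1 := h.conj g b hb x hx
  rwa [hg] at h1

theorem Oth_le {b a : V} : Oth G T b a ≤ MulAction.stabilizer G b :=
  iSup_le fun _ => inf_le_right

theorem Hubs.K_le (h : Hubs T A K) {b : V} (hb : ¬ A b) : K b ≤ MulAction.stabilizer G b :=
  fun x hx => h.fix b hb x hx

theorem Hubs.Rg_le (h : Hubs T A K) {b : V} (hb : ¬ A b) : Rg T K b ≤ MulAction.stabilizer G b :=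
  sup_le (h.K_le hb) (iSup_le fun _ => inf_le_right)

theorem Eg_le_Rg {b a : V} (ha : T.Adj b a) : Eg G a b ≤ Rg T K b :=
  (le_iSup (fun a' : {a' : V // T.Adj b a'} => Eg G (a' : V) b) ⟨a, ha⟩).trans le_sup_right

theorem K_le_Rg {b : V} : K b ≤ Rg T K b := le_sup_left

theorem L_le_Rg {b a : V} : K b ⊔ Oth G T b a ≤ Rg T K b :=
  sup_le le_sup_left (iSup_le fun a' => Eg_le_Rg a'.2.1)

/-- conjugation maps the groups at `b` to the groups at `g b` -/
theorem Hubs.Rg_smul (h : Hubs T A K)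
    (hact : ∀ (g : G) (u v : V), T.Adj u v → T.Adj (g • u) (g • v)) (g : G) {b : V} (hb : ¬ A b)
    {x : G} (hx : x ∈ Rg T K b) : g * x * g⁻¹ ∈ Rg T K (g • b) := by
  have h1 : Rg T K b ≤ (Rg T K (g • b)).comap (MulAut.conj g).toMonoidHom := by
    refine sup_le (fun x hx => K_le_Rg (h.conj g b hb x hx)) (iSup_le fun a' x hx => ?_)
    exact Eg_le_Rg (hact g _ _ a'.2) (Eg_smul g _ _ hx)
  exact h1 hx

theorem Hubs.L_normal (h : Hubs T A K)
    (hact : ∀ (g : G) (u v : V), T.Adj u v → T.Adj (g • u) (g • v)) {b a : V} (hb : ¬ A b)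
    {g : G} (hg : g • b = b) {x : G} (hx : x ∈ K b ⊔ Oth G T b a) :
    g * x * g⁻¹ ∈ K b ⊔ Oth G T b a := by
  have h1 : K b ⊔ Oth G T b a ≤ (K b ⊔ Oth G T b a).comap (MulAut.conj g).toMonoidHom := by
    refine sup_le (fun x hx => Subgroup.mem_sup_left (h.conj' hb hg hx)) (iSup_le fun a' x hx => ?_)
    refine Subgroup.mem_sup_right ?_
    have h2 := Eg_smul g _ _ hx
    rw [hg] at h2
    refine (le_iSup (fun a' : {a' : V // T.Adj b a' ∧ ∀ g : G, g • b = b → g • a ≠ a'} =>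
      Eg G (a' : V) b) ⟨g • (a' : V), ?_, ?_⟩) h2
    · have h3 := hact g _ _ a'.2.1
      rwa [hg] at h3
    · intro k hk hka
      refine a'.2.2 (g⁻¹ * k) ?_ ?_
      · rw [mul_smul, hk, inv_smul_eq_iff, hg]
      · rw [mul_smul, hka, inv_smul_smul]
  exact h1 hx

/-- the stabilizer of an edge and the group of the others generate the group of the hub -/
theorem Hubs.Rg_eq (h : Hubs T A K) {b a : V}
    (hb : ¬ A b) (ha : T.Adj b a) : Rg T K b ≤ Eg G a b ⊔ (K b ⊔ Oth G T b a) := by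
  refine sup_le (le_sup_left.trans le_sup_right) (iSup_le fun a' => ?_)
  by_cases hh : ∃ g : G, g • b = b ∧ g • a = a'
  · obtain ⟨g, hg, hga⟩ := hh
    intro x hx
    have h1 : g⁻¹ * x * g ∈ Eg G a b := by
      have h2 := Eg_smul g⁻¹ _ _ hx
      rw [← hga, inv_smul_smul, inv_inv] at h2
      rwa [inv_smul_eq_iff.2 hg.symm] at h2
    have h3 := h.normal b a hb ha g hg _ h1
    have h4 : g * (g⁻¹ * x * g) * g⁻¹ = x := by group
    rw [h4] at h3
    have h5 : Eg G a b ⊔ K b ≤ Eg G a b ⊔ (K b ⊔ Oth G T b a) := sup_le_sup_left le_sup_left _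
    exact h5 h3
  · rw [not_exists] at hh
    refine le_trans ?_ (le_sup_right.trans le_sup_right)
    exact le_iSup (fun a' : {a' : V // T.Adj b a' ∧ ∀ g : G, g • b = b → g • a ≠ a'} =>
      Eg G (a' : V) b) ⟨a', a'.2, fun g hg hga => hh g ⟨hg, hga⟩⟩

/-- the data at the hubs for a subgroup `G0` which contains the groups of all hubs -/
structure Core (T : SimpleGraph V) (A : V → Prop) (K : V → Subgroup G) (G0 : Subgroup G)
    (z : V → G) : Prop where
  leA : ∀ v, A v → MulAction.stabilizer G v ≤ G0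
  le : ∀ b, ¬ A b → Rg T K b ≤ G0
  zfix : ∀ b, ¬ A b → z b • b = b
  zmem : ∀ b, ¬ A b → z b ∈ G0
  gen : ∀ b, ¬ A b → ∀ x ∈ G0, x • b = b → ∃ n : ℤ, z b ^ n * x ∈ Rg T K b
  inf : ∀ b, ¬ A b → ∀ n : ℤ, z b ^ n ∈ Rg T K b → z b ^ n = 1
  cen : ∀ b, ¬ A b → ∀ a, T.Adj b a → ∀ x ∈ Eg G a b, ⁅z b, x⁆ ∈ K b

/-- the projection onto the stabilizer of an edge -/
theorem exists_pr (h : Hubs T A K)
    (hact : ∀ (g : G) (u v : V), T.Adj u v → T.Adj (g • u) (g • v)) {G0 : Subgroup G} {z : V → G}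
    (hc : Core T A K G0 z) {b a : V} (hb : ¬ A b) (ha : T.Adj b a) :
    ∃ p : G → G, (∀ x ∈ G0, x • b = b → ∀ y ∈ G0, y • b = b → p (x * y) = p x * p y) ∧
      (∀ x ∈ G0, x • b = b → p x ∈ Eg G a b) ∧ (∀ e ∈ Eg G a b, p e = e) ∧
      (∀ l ∈ K b ⊔ Oth G T b a, p l = 1) ∧ p (z b) = 1 := by
  classical
  obtain ⟨S, hS⟩ : ∃ S : Subgroup G, S = G0 ⊓ MulAction.stabilizer G b := ⟨_, rfl⟩
  have hmS : ∀ x, x ∈ S ↔ x ∈ G0 ∧ x • b = b := fun x => by rw [hS]; rfl
  have hRS : Rg T K b ≤ S := by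
    rw [hS]
    exact le_inf (hc.le b hb) (h.Rg_le hb)
  have hES : Eg G a b ≤ S := (Eg_le_Rg ha).trans hRS
  have hLS : K b ⊔ Oth G T b a ≤ S := L_le_Rg.trans hRS
  have hLn : ((K b ⊔ Oth G T b a).subgroupOf S).Normal := by
    refine ⟨fun x hx g => ?_⟩
    rw [Subgroup.mem_subgroupOf] at hx ⊢
    exact h.L_normal hact hb ((hmS _).1 g.2).2 hx
  have hsup : (Eg G a b).subgroupOf S ⊔ (K b ⊔ Oth G T b a).subgroupOf S =
      (Rg T K b).subgroupOf S := by
    rw [← Subgroup.subgroupOf_sup hES hLS]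
    congr 1
    exact le_antisymm (sup_le (Eg_le_Rg ha) L_le_Rg) (h.Rg_eq hb ha)
  have hzS : z b ∈ S := (hmS _).2 ⟨hc.zmem b hb, hc.zfix b hb⟩
  obtain ⟨p, hp1, hp2, hp3, hp4⟩ := exists_proj ((Eg G a b).subgroupOf S)
    ((K b ⊔ Oth G T b a).subgroupOf S) (by
      rw [eq_bot_iff]
      rintro x ⟨hx1, hx2⟩
      have h2 : (x : G) ∈ Eg G a b ⊓ (K b ⊔ Oth G T b a) := ⟨hx1, hx2⟩
      rw [h.indep b a hb ha, Subgroup.mem_bot] at h2
      exact Subtype.ext h2) ⟨z b, hzS⟩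
    (by
      intro e he
      rw [Subgroup.mem_subgroupOf]
      exact Subgroup.mem_sup_left (hc.cen b hb a ha e he))
    (by
      intro x
      obtain ⟨n, hn⟩ := hc.gen b hb x ((hmS _).1 x.2).1 ((hmS _).1 x.2).2
      refine ⟨n, ?_⟩
      rw [hsup, Subgroup.mem_subgroupOf]
      simpa using hn)
    (by
      intro n hn
      rw [hsup, Subgroup.mem_subgroupOf] at hn
      apply Subtype.ext
      have h2 := hc.inf b hb n (by simpa using hn)
      simpa using h2)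
  refine ⟨fun x => if hx : x ∈ S then (p ⟨x, hx⟩ : G) else 1, ?_, ?_, ?_, ?_, ?_⟩
  · intro x hx hxb y hy hyb
    have h1 : x ∈ S := (hmS _).2 ⟨hx, hxb⟩
    have h2 : y ∈ S := (hmS _).2 ⟨hy, hyb⟩
    show (if hx : x * y ∈ S then (p ⟨x * y, hx⟩ : G) else 1) = (if hx : x ∈ S then (p ⟨x, hx⟩ : G)
      else 1) * (if hx : y ∈ S then (p ⟨y, hx⟩ : G) else 1)
    rw [dif_pos h1, dif_pos h2, dif_pos (mul_mem h1 h2)]
    have h3 := congrArg Subtype.val (map_mul p ⟨x, h1⟩ ⟨y, h2⟩)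
    exact h3
  · intro x hx hxb
    have h1 : x ∈ S := (hmS _).2 ⟨hx, hxb⟩
    show (if hx : x ∈ S then (p ⟨x, hx⟩ : G) else 1) ∈ _
    rw [dif_pos h1]
    exact hp1 ⟨x, h1⟩
  · intro e he
    show (if hx : e ∈ S then (p ⟨e, hx⟩ : G) else 1) = e
    rw [dif_pos (hES he)]
    exact congrArg Subtype.val (hp2 ⟨e, hES he⟩ he)
  · intro l hl
    show (if hx : l ∈ S then (p ⟨l, hx⟩ : G) else 1) = 1
    rw [dif_pos (hLS hl)]
    exact congrArg Subtype.val (hp3 ⟨l, hLS hl⟩ hl)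
  · show (if hx : z b ∈ S then (p ⟨z b, hx⟩ : G) else 1) = 1
    rw [dif_pos hzS]
    exact congrArg Subtype.val hp4

end hubs

end Pool.Agent.U709.Gl
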