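import Pool.Agent.U709.HubA

/-!
# Hubs in trees: the homomorphism to the wreath product
-/

set_option autoImplicit false

namespace Pool.Agent.U709.Gl

open SimpleGraph
open scoped commutatorElement
open Pool.Agent.Y110.FJ Pool.Agent.Y462.SS

variable {G V : Type} [Group G] [MulAction G V]

/-- the free product of all stabilizers -/
abbrev HH (G V : Type) [Group G] [MulAction G V] : Type :=
  Monoid.CoprodI (fun v : V => MulAction.stabilizer G v)

/-- the orbits of pairs -/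
abbrev Om (G V : Type) [Group G] [MulAction G V] : Type := MulAction.orbitRel.Quotient G (V × V)

/-- the orbit of a pair -/
def om (G : Type) {V : Type} [Group G] [MulAction G V] (u v : V) : Om G V :=
  Quotient.mk (MulAction.orbitRel G (V × V)) (u, v)

theorem om_smul (g : G) (u v : V) : om G (g • u) (g • v) = om G u v :=
  Quotient.sound ⟨g, rfl⟩

theorem om_eq {u v u' v' : V} (h : om G u v = om G u' v') : ∃ g : G, g • u' = u ∧ g • v' = v := by
  obtain ⟨g, hg⟩ : (MulAction.orbitRel G (V × V)).r (u, v) (u', v') := Quotient.exact h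
  exact ⟨g, congrArg Prod.fst hg, congrArg Prod.snd hg⟩

open Classical in
/-- the embedding of a stabilizer -/
noncomputable def jj (v : V) (x : G) : HH G V :=
  if h : x • v = v then Monoid.CoprodI.of (M := fun v : V => MulAction.stabilizer G v) (i := v) ⟨x, h⟩
  else 1

theorem jj_mul {v : V} {x y : G} (hx : x • v = v) (hy : y • v = v) :
    jj v (x * y) = jj v x * jj v y := by
  have hxy : (x * y) • v = v := by rw [mul_smul, hy, hx]
  unfold jj
  rw [dif_pos hx, dif_pos hy, dif_pos hxy, ← map_mul]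
  rfl

theorem jj_inj {v : V} {x : G} (hx : x • v = v) (h : jj v x = 1) : x = 1 := by
  unfold jj at h
  rw [dif_pos hx, ← map_one (Monoid.CoprodI.of (M := fun v : V => MulAction.stabilizer G v)
    (i := v))] at h
  exact congrArg Subtype.val (Monoid.CoprodI.of_injective v h)

/-- the embedding of a stabilizer through that of the representative of the orbit -/
noncomputable def cf (v : V) (x : G) : HH G V := jj (rep G v) ((gm G v)⁻¹ * x * gm G v)

theorem gm_fix {v : V} {x : G} (hx : x • v = v) : ((gm G v)⁻¹ * x * gm G v) • rep G v = rep G v := by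
  rw [mul_smul, mul_smul, gm_smul, hx, gm_inv_smul]

theorem cf_mul {v : V} {x y : G} (hx : x • v = v) (hy : y • v = v) :
    cf v (x * y) = cf v x * cf v y := by
  unfold cf
  rw [← jj_mul (gm_fix hx) (gm_fix hy)]
  congr 1
  group

theorem cf_one (v : V) : cf v (1 : G) = 1 := by
  have h1 := cf_mul (v := v) (one_smul G v) (one_smul G v)
  rw [mul_one] at h1
  exact left_eq_mul.1 h1

theorem cf_inv {v : V} {x : G} (hx : x • v = v) : cf v x⁻¹ = (cf v x)⁻¹ := by
  have hx' : x⁻¹ • v = v := by rw [inv_smul_eq_iff, hx]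
  rw [eq_inv_iff_mul_eq_one, ← cf_mul hx' hx, inv_mul_cancel, cf_one]

theorem cf_inj {v : V} {x : G} (hx : x • v = v) (h : cf v x = 1) : x = 1 := by
  have h1 := jj_inj (gm_fix hx) h
  have h2 : x = gm G v * ((gm G v)⁻¹ * x * gm G v) * (gm G v)⁻¹ := by group
  rw [h2, h1]
  group

theorem cf_conj (g : G) (v : V) : ∃ k : HH G V, ∀ x : G, x • v = v →
    cf (g • v) (g * x * g⁻¹) = k * cf v x * k⁻¹ := by
  have e1 : ((gm G (g • v))⁻¹ * g * gm G v) • rep G v = rep G v := fix_rep g v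
  obtain ⟨k, hk⟩ : ∃ k, k = (gm G (g • v))⁻¹ * g * gm G v := ⟨_, rfl⟩
  rw [← hk] at e1
  have e2 : k⁻¹ • rep G v = rep G v := by rw [inv_smul_eq_iff, e1]
  have e3 : jj (rep G v) k⁻¹ = (jj (rep G v) k)⁻¹ := by
    rw [eq_inv_iff_mul_eq_one, ← jj_mul e2 e1, inv_mul_cancel]
    have h1 := jj_mul (v := rep G v) (one_smul G _) (one_smul G _)
    rw [mul_one] at h1
    exact left_eq_mul.1 h1
  refine ⟨jj (rep G v) k, fun x hx => ?_⟩
  unfold cf
  rw [rep_smul, ← e3, ← jj_mul e1 (gm_fix hx), ← jj_mul _ e2]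
  · congr 1
    rw [hk]
    group
  · rw [mul_smul, gm_fix hx, e1]

section core

variable {T : SimpleGraph V} {A : V → Prop} {K : V → Subgroup G}

open Classical in
/-- the entries of the homomorphism at a hub -/
noncomputable def FF (T : SimpleGraph V) (pr : V → V → G → G) (b : V) (x : G) :
    Option (Om G V) → HH G V
  | none => 1
  | some o => if h : ∃ a, T.Adj b a ∧ om G a b = o then
      cf (Classical.choose h) (pr b (Classical.choose h) x) else 1

/-- the properties of the projections -/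
structure IsPr (T : SimpleGraph V) (A : V → Prop) (K : V → Subgroup G) (G0 : Subgroup G) (z : V → G)
    (pr : V → V → G → G) : Prop where
  mul : ∀ b a, ¬ A b → T.Adj b a → ∀ x ∈ G0, x • b = b → ∀ y ∈ G0, y • b = b →
    pr b a (x * y) = pr b a x * pr b a y
  mem : ∀ b a, ¬ A b → T.Adj b a → ∀ x ∈ G0, x • b = b → pr b a x ∈ Eg G a b
  eq : ∀ b a, ¬ A b → T.Adj b a → ∀ e ∈ Eg G a b, pr b a e = e
  one : ∀ b a, ¬ A b → T.Adj b a → ∀ l ∈ K b ⊔ Oth G T b a, pr b a l = 1
  z : ∀ b a, ¬ A b → T.Adj b a → pr b a (z b) = 1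

variable {G0 : Subgroup G} {z : V → G} {pr : V → V → G → G}

theorem exists_IsPr (h : Hubs T A K)
    (hact : ∀ (g : G) (u v : V), T.Adj u v → T.Adj (g • u) (g • v))
    (hc : Core T A K G0 z) : ∃ pr, IsPr T A K G0 z pr := by
  classical
  have h1 : ∀ b a, ∃ p : G → G, ¬ A b → T.Adj b a →
      (∀ x ∈ G0, x • b = b → ∀ y ∈ G0, y • b = b → p (x * y) = p x * p y) ∧
      (∀ x ∈ G0, x • b = b → p x ∈ Eg G a b) ∧ (∀ e ∈ Eg G a b, p e = e) ∧
      (∀ l ∈ K b ⊔ Oth G T b a, p l = 1) ∧ p (z b) = 1 := by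
    intro b a
    by_cases hb : ¬ A b ∧ T.Adj b a
    · obtain ⟨p, hp⟩ := exists_pr h hact hc hb.1 hb.2
      exact ⟨p, fun _ _ => hp⟩
    · exact ⟨id, fun h1 h2 => absurd ⟨h1, h2⟩ hb⟩
  choose pr hpr using h1
  exact ⟨pr, fun b a hb ha => (hpr b a hb ha).1, fun b a hb ha => (hpr b a hb ha).2.1,
    fun b a hb ha => (hpr b a hb ha).2.2.1, fun b a hb ha => (hpr b a hb ha).2.2.2.1,
    fun b a hb ha => (hpr b a hb ha).2.2.2.2⟩

theorem FF_pos {b : V} {x : G} {o : Om G V} (h : ∃ a, T.Adj b a ∧ om G a b = o) :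
    FF T pr b x (some o) = cf (Classical.choose h) (pr b (Classical.choose h) x) := dif_pos h

theorem FF_neg {b : V} {x : G} {o : Om G V} (h : ¬ ∃ a, T.Adj b a ∧ om G a b = o) :
    FF T pr b x (some o) = 1 := dif_neg h

theorem FF_mul (hp : IsPr T A K G0 z pr) {b : V} (hb : ¬ A b) {x y : G} (hx : x ∈ G0)
    (hxb : x • b = b) (hy : y ∈ G0) (hyb : y • b = b) :
    FF T pr b (x * y) = FF T pr b x * FF T pr b y := by
  funext o
  rcases o with _ | o
  · exact (mul_one 1).symm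
  · rw [Pi.mul_apply]
    by_cases h : ∃ a, T.Adj b a ∧ om G a b = o
    · rw [FF_pos h, FF_pos h, FF_pos h]
      have ha := (Classical.choose_spec h).1
      rw [hp.mul b _ hb ha x hx hxb y hy hyb]
      exact cf_mul (hp.mem b _ hb ha x hx hxb).1 (hp.mem b _ hb ha y hy hyb).1
    · rw [FF_neg h, FF_neg h, FF_neg h, mul_one]

theorem FF_one_of (b : V) (x : G) (hx : ∀ a, T.Adj b a → pr b a x = 1) : FF T pr b x = 1 := by
  funext o
  rcases o with _ | o
  · rfl
  · by_cases h : ∃ a, T.Adj b a ∧ om G a b = o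
    · rw [FF_pos h, hx _ (Classical.choose_spec h).1, cf_one]
      rfl
    · rw [FF_neg h]
      rfl

/-- elements of the stabilizer of an edge -/
theorem FF_edge (hp : IsPr T A K G0 z pr) {b a' : V} (hb : ¬ A b) (ha' : T.Adj b a') {x : G}
    (hx : x ∈ Eg G a' b) (o : Om G V) (ho : o ≠ om G a' b) : FF T pr b x (some o) = 1 := by
  by_cases h : ∃ a, T.Adj b a ∧ om G a b = o
  · rw [FF_pos h]
    obtain ⟨h1, h2⟩ := Classical.choose_spec h
    obtain ⟨a, ha⟩ : ∃ a, a = Classical.choose h := ⟨_, rfl⟩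
    rw [← ha] at h1 h2 ⊢
    rw [hp.one b _ hb h1 x, cf_one]
    refine Subgroup.mem_sup_right ?_
    refine (le_iSup (fun a'' : {a'' : V // T.Adj b a'' ∧ ∀ g : G, g • b = b →
      g • a ≠ a''} => Eg G (a'' : V) b) ⟨a', ha', fun g hg hga => ho ?_⟩) hx
    have h5 := om_smul g a b
    rw [hga, hg, h2] at h5
    exact h5.symm
  · rw [FF_neg h]

theorem FF_fin (h : Hubs T A K) (hc : Core T A K G0 z) (hp : IsPr T A K G0 z pr) {b : V}
    (hb : ¬ A b) {x : G} (hx : x ∈ G0) (hxb : x • b = b) :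
    (Function.mulSupport (FF T pr b x)).Finite := by
  obtain ⟨P, hP⟩ : ∃ P : Subgroup G, ∀ x, x ∈ P ↔
      (x ∈ G0 ∧ x • b = b) ∧ (Function.mulSupport (FF T pr b x)).Finite := by
    have h1 : FF T pr b 1 = 1 := by
      have h2 := FF_mul hp hb (one_mem G0) (one_smul G b) (one_mem G0) (one_smul G b)
      rw [mul_one] at h2
      exact left_eq_mul.1 h2
    refine ⟨{ carrier := {x | (x ∈ G0 ∧ x • b = b) ∧ (Function.mulSupport (FF T pr b x)).Finite}
              mul_mem' := ?_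
              one_mem' := ?_
              inv_mem' := ?_ }, fun x => Iff.rfl⟩
    · rintro x y ⟨⟨hx, hxb⟩, hxf⟩ ⟨⟨hy, hyb⟩, hyf⟩
      refine ⟨⟨mul_mem hx hy, by rw [mul_smul, hyb, hxb]⟩, ?_⟩
      rw [FF_mul hp hb hx hxb hy hyb]
      exact (hxf.union hyf).subset (Function.mulSupport_mul _ _)
    · refine ⟨⟨one_mem G0, one_smul G b⟩, ?_⟩
      rw [h1]
      simp
    · rintro x ⟨⟨hx, hxb⟩, hxf⟩
      have hxb' : x⁻¹ • b = b := by rw [inv_smul_eq_iff, hxb]
      refine ⟨⟨inv_mem hx, hxb'⟩, ?_⟩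
      have h2 : FF T pr b x⁻¹ = (FF T pr b x)⁻¹ := by
        rw [eq_inv_iff_mul_eq_one, ← FF_mul hp hb (inv_mem hx) hxb' hx hxb, inv_mul_cancel, h1]
      rw [h2, Function.mulSupport_inv]
      exact hxf
  have hRP : Rg T K b ≤ P := by
    refine sup_le (fun k hk => ?_) (iSup_le fun a' x hx => ?_)
    · refine (hP k).2 ⟨⟨hc.le b hb (K_le_Rg hk), h.fix b hb k hk⟩, ?_⟩
      rw [FF_one_of b k fun a ha => hp.one b a hb ha k (Subgroup.mem_sup_left hk)]
      simp
    · refine (hP x).2 ⟨⟨hc.le b hb (Eg_le_Rg a'.2 hx), hx.2⟩, ?_⟩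
      refine (Set.finite_singleton (some (om G (a' : V) b))).subset fun o ho => ?_
      rcases o with _ | o
      · exact absurd rfl ho
      · by_contra hne
        exact ho (FF_edge hp hb a'.2 hx o fun heq => hne (by rw [heq]; rfl))
  have hzP : z b ∈ P := by
    refine (hP _).2 ⟨⟨hc.zmem b hb, hc.zfix b hb⟩, ?_⟩
    rw [FF_one_of b (z b) fun a ha => hp.z b a hb ha]
    simp
  obtain ⟨n, hn⟩ := hc.gen b hb x hx hxb
  have h3 := mul_mem (inv_mem (zpow_mem hzP n)) (hRP hn)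
  rw [inv_mul_cancel_left] at h3
  exact ((hP x).1 h3).2

/-- the elements of the stabilizer of an edge have one entry, conjugate to the canonical one -/
theorem FF_single (h : Hubs T A K)
    (hc : Core T A K G0 z) (hp : IsPr T A K G0 z pr) {b a1 : V}
    (hb : ¬ A b) (ha1 : T.Adj b a1) : ∃ (a : V) (g : G) (k : HH G V), g • b = b ∧ g • a = a1 ∧
      T.Adj b a ∧ ∀ x ∈ Eg G a1 b, FF T pr b x =
        sg (some (om G a1 b)) (k * cf a (g⁻¹ * x * g) * k⁻¹) := by
  have hex : ∃ a, T.Adj b a ∧ om G a b = om G a1 b := ⟨a1, ha1, rfl⟩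
  obtain ⟨a, ha⟩ : ∃ a, a = Classical.choose hex := ⟨_, rfl⟩
  have hs := Classical.choose_spec hex
  rw [← ha] at hs
  obtain ⟨g, hga, hgb⟩ := om_eq hs.2.symm
  obtain ⟨e, he, hce⟩ := h.cent b hb g hgb
  have heG := hc.le b hb he
  have heb : e • b = b := h.Rg_le hb he
  refine ⟨a, g, cf a (pr b a e), hgb, hga, hs.1, fun x hx => ?_⟩
  have hy : g⁻¹ * x * g ∈ Eg G a b := by
    have h2 := Eg_smul g⁻¹ _ _ hx
    rw [inv_inv] at h2
    rwa [inv_smul_eq_iff.2 hga.symm, inv_smul_eq_iff.2 hgb.symm] at h2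
  obtain ⟨y, hye⟩ : ∃ y, y = g⁻¹ * x * g := ⟨_, rfl⟩
  rw [← hye] at hy ⊢
  obtain ⟨c, hcc⟩ : ∃ c, c = ⁅e⁻¹ * g, y⁆ := ⟨_, rfl⟩
  have hcK : c ∈ K b := hcc ▸ hce a hs.1 y hy
  have hxe : x = e * (c * y) * e⁻¹ := by
    rw [hcc, commutatorElement_def, hye]
    group
  have hcG := hc.le b hb (K_le_Rg hcK)
  have hcb : c • b = b := h.fix b hb c hcK
  have hyG := hc.le b hb (Eg_le_Rg hs.1 hy)
  have hyb : y • b = b := hy.2
  have heb' : e⁻¹ • b = b := by rw [inv_smul_eq_iff, heb]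
  have hpr : pr b a x = pr b a e * y * (pr b a e)⁻¹ := by
    have h1 : pr b a e⁻¹ = (pr b a e)⁻¹ := by
      rw [eq_inv_iff_mul_eq_one, ← hp.mul b a hb hs.1 _ (inv_mem heG) heb' _ heG heb,
        inv_mul_cancel]
      exact hp.one b a hb hs.1 1 (one_mem _)
    rw [hxe, hp.mul b a hb hs.1 _ (mul_mem heG (mul_mem hcG hyG))
      (by rw [mul_smul, mul_smul, hyb, hcb, heb]) _ (inv_mem heG) heb',
      hp.mul b a hb hs.1 _ heG heb _ (mul_mem hcG hyG) (by rw [mul_smul, hyb, hcb]),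
      hp.mul b a hb hs.1 _ hcG hcb _ hyG hyb, hp.one b a hb hs.1 c (Subgroup.mem_sup_left hcK),
      hp.eq b a hb hs.1 y hy, h1, one_mul]
  funext o
  rcases o with _ | o
  · rw [sg_ne (by simp)]
    rfl
  · by_cases ho : o = om G a1 b
    · subst ho
      rw [sg_same]
      rw [FF_pos hex, ← ha, hpr]
      have h4 : (pr b a e) • a = a := (hp.mem b a hb hs.1 e heG heb).1
      have h5 : (pr b a e)⁻¹ • a = a := by rw [inv_smul_eq_iff, h4]
      rw [cf_mul (by rw [mul_smul, hy.1, h4]) h5, cf_mul h4 hy.1, cf_inv h4]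
    · rw [sg_ne (by simpa using ho)]
      exact FF_edge hp hb ha1 hx o ho

end core

end Pool.Agent.U709.Gl
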