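import Pool.Agent.U709.HubB
import Pool.Agent.Y529.FJ.Ext

/-!
# Hubs in trees: the theorem
-/

set_option autoImplicit false

namespace Pool.Agent.U709.Gl

open SimpleGraph
open scoped commutatorElement
open Pool.Agent.Y110.FJ Pool.Agent.Y462.SS
open Pool.Agent.U385.FJ (Fm stab quot_mem)

variable {C : ∀ (G : Type) [Group G], Prop}
variable {G V : Type} [Group G] [MulAction G V] {T : SimpleGraph V} {A : V → Prop}
  {K : V → Subgroup G}

open Classical in
/-- the local homomorphisms -/
noncomputable def rr (T : SimpleGraph V) (A : V → Prop) (G0 : Subgroup G) (pr : V → V → G → G)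
    (v : V) (x : G0) : FW (Option (Om G V)) (HH G V) :=
  if A v then dg (sg none (cf v (x : G)))
  else dg (FF T pr (rep G0 v) (((gm G0 v)⁻¹ * x * gm G0 v : G0) : G))

theorem rr_A {G0 : Subgroup G} {pr : V → V → G → G} {v : V} (hv : A v) (x : G0) :
    rr T A G0 pr v x = dg (sg none (cf v (x : G))) := by
  unfold rr
  rw [if_pos hv]

theorem rr_B {G0 : Subgroup G} {pr : V → V → G → G} {v : V} (hv : ¬ A v) (x : G0) :
    rr T A G0 pr v x = dg (FF T pr (rep G0 v) (((gm G0 v)⁻¹ * x * gm G0 v : G0) : G)) := by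
  unfold rr
  rw [if_neg hv]

theorem Hubs.rep_hub (h : Hubs T A K) {G0 : Subgroup G} {v : V} (hv : ¬ A v) :
    ¬ A (rep G0 v) := by
  have h1 := gm_smul G0 v
  have h2 : (gm G0 v : G) • rep G0 v = v := h1
  intro h3
  apply hv
  rw [← h2]
  exact h.inv _ _ h3

theorem core_mem (hC : ClosedE C) (hT : T.IsTree)
    (hact : ∀ (g : G) (u v : V), T.Adj u v → T.Adj (g • u) (g • v))
    (hV : ∀ v : V, C ↥(MulAction.stabilizer G v)) (h : Hubs T A K) {G0 : Subgroup G} {z : V → G}
    (hc : Core T A K G0 z) : C G0 := by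
  classical
  obtain ⟨pr, hp⟩ := exists_IsPr h hact hc
  have hact0 : ∀ (g : G0) (u v : V), T.Adj u v → T.Adj (g • u) (g • v) :=
    fun g u v huv => hact g u v huv
  have hfixr : ∀ (v : V) (x : G0), x • v = v →
      (((gm G0 v)⁻¹ * x * gm G0 v : G0) : G) • rep G0 v = rep G0 v := fun v x hx => gm_fix hx
  -- the homomorphism
  obtain ⟨Φ, hΦ⟩ := glue (W := FW (Option (Om G V)) (HH G V)) hT hact0 A
    (fun g v hv => h.inv g v hv) h.alt (rr T A G0 pr)
    (by
      intro v x y hx hy
      by_cases hv : A v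
      · have h8 : cf v ((x : G) * (y : G)) = cf v (x : G) * cf v (y : G) := cf_mul hx hy
        rw [rr_A hv, rr_A hv, rr_A hv, ← dg_mul (fin_sg _ _) (fin_sg _ _),
          ← sg_mul, Subgroup.coe_mul, h8]
      · have hr := h.rep_hub (G0 := G0) hv
        rw [rr_B hv, rr_B hv, rr_B hv,
          ← dg_mul (FF_fin h hc hp hr (SetLike.coe_mem _) (hfixr v x hx))
            (FF_fin h hc hp hr (SetLike.coe_mem _) (hfixr v y hy)),
          ← FF_mul hp hr (SetLike.coe_mem _) (hfixr v x hx) (SetLike.coe_mem _) (hfixr v y hy)]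
        congr 2
        push_cast
        group)
    (by
      intro g v
      by_cases hv : A v
      · obtain ⟨k, hk⟩ := cf_conj (g : G) v
        obtain ⟨w, hw⟩ := conj_sg (none : Option (Om G V)) none k
        refine ⟨w, fun x hx => ?_⟩
        have hgv : A (g • v) := h.inv (g : G) v hv
        rw [rr_A hv, rr_A hgv, ← hw]
        congr 2
        exact hk x hx
      · have hr := h.rep_hub (G0 := G0) hv
        have hgv : ¬ A (g • v) := h.not_inv (g : G) hv
        have e1 : ((gm G0 (g • v))⁻¹ * g * gm G0 v) • rep G0 v = rep G0 v := fix_rep g v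
        obtain ⟨k, hk⟩ : ∃ k, k = (gm G0 (g • v))⁻¹ * g * gm G0 v := ⟨_, rfl⟩
        rw [← hk] at e1
        have e1' : (k : G) • rep G0 v = rep G0 v := e1
        have e2 : ((k⁻¹ : G0) : G) • rep G0 v = rep G0 v := by
          show (k⁻¹ : G0) • rep G0 v = rep G0 v
          rw [inv_smul_eq_iff, e1]
        refine ⟨dg (FF T pr (rep G0 v) (k : G)), fun x hx => ?_⟩
        obtain ⟨y, hy⟩ : ∃ y : G0, y = (gm G0 v)⁻¹ * x * gm G0 v := ⟨_, rfl⟩
        have hyf : (y : G) • rep G0 v = rep G0 v := by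
          rw [hy]
          exact hfixr v x hx
        have hrep : rep G0 (g • v) = rep G0 v := rep_smul (G := G0) g v
        have f1 := FF_fin h hc hp hr (SetLike.coe_mem k) e1'
        have f2 := FF_fin h hc hp hr (SetLike.coe_mem y) hyf
        have f3 := FF_fin h hc hp hr (SetLike.coe_mem k⁻¹) e2
        have h5 : (dg (FF T pr (rep G0 v) (k : G)))⁻¹ = dg (FF T pr (rep G0 v) ((k⁻¹ : G0) : G)) := by
          rw [inv_eq_iff_mul_eq_one, ← dg_mul f1 f3,
            ← FF_mul hp hr (SetLike.coe_mem k) e1' (SetLike.coe_mem _) e2, ← Subgroup.coe_mul,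
            mul_inv_cancel, Subgroup.coe_one, FF_one_of _ _ fun a ha =>
              hp.one _ a hr ha 1 (one_mem _)]
          apply Subtype.ext
          rw [dg_val (by simp)]
          rfl
        have e6 : ((k * y : G0) : G) • rep G0 v = rep G0 v := by
          rw [Subgroup.coe_mul, mul_smul, hyf, e1']
        rw [rr_B hgv, rr_B hv, ← hy, hrep, h5, ← dg_mul f1 f2,
          ← FF_mul hp hr (SetLike.coe_mem k) e1' (SetLike.coe_mem y) hyf, ← Subgroup.coe_mul,
          ← dg_mul (FF_fin h hc hp hr (SetLike.coe_mem _) e6) f3,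
          ← FF_mul hp hr (SetLike.coe_mem _) e6 (SetLike.coe_mem _) e2, ← Subgroup.coe_mul]
        congr 3
        rw [hk, hy]
        group)
    (by
      intro u v huv hu
      have hv : ¬ A v := (h.alt u v huv).1 hu
      have hr := h.rep_hub (G0 := G0) hv
      obtain ⟨γ, hγ⟩ : ∃ γ, γ = gm G0 v := ⟨_, rfl⟩
      have hγv : (γ : G)⁻¹ • v = rep G0 v := by
        rw [hγ]
        exact gm_inv_smul G0 v
      have hadj : T.Adj (rep G0 v) ((γ : G)⁻¹ • u) := by
        rw [← hγv]
        exact hact _ _ _ huv.symm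
      obtain ⟨a, g, k, hgb, hga, hab, hF⟩ := FF_single h hc hp hr hadj
      obtain ⟨k2, hk2⟩ := cf_conj ((γ : G) * g) a
      have hu2 : ((γ : G) * g) • a = u := by rw [mul_smul, hga, smul_inv_smul]
      rw [hu2] at hk2
      obtain ⟨w, hw⟩ := conj_sg (none : Option (Om G V))
        (some (om G ((γ : G)⁻¹ • u) (rep G0 v))) (k * k2⁻¹)
      refine ⟨w, fun x hxu hxv => ?_⟩
      have hx1 : (γ : G)⁻¹ * x * γ ∈ Eg G ((γ : G)⁻¹ • u) (rep G0 v) := by
        have h2 : (x : G) ∈ Eg G u v := ⟨hxu, hxv⟩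
        have h3 := Eg_smul (γ : G)⁻¹ _ _ h2
        rwa [hγv, inv_inv] at h3
      obtain ⟨y, hy⟩ : ∃ y, y = g⁻¹ * ((γ : G)⁻¹ * x * γ) * g := ⟨_, rfl⟩
      have hya : y • a = a := by
        have h3 := hx1.1
        rw [hy, mul_smul, mul_smul, hga, MulAction.mem_stabilizer_iff.1 h3, inv_smul_eq_iff, hga]
      have h4 := hF _ hx1
      rw [← hy] at h4
      have h5 := hk2 y hya
      have h6 : (γ : G) * g * y * ((γ : G) * g)⁻¹ = x := by
        rw [hy]
        group
      rw [h6] at h5
      rw [rr_B hv, rr_A hu, h5]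
      have h8 := hw (k2 * cf a y * k2⁻¹)
      rw [← h8]
      have h7 : (((gm G0 v)⁻¹ * x * gm G0 v : G0) : G) = (γ : G)⁻¹ * x * γ := by
        rw [hγ]
        rfl
      rw [h7, h4]
      congr 2
      group)
  -- the stabilizers
  have hW : C (FW (Option (Om G V)) (HH G V)) :=
    C_FW hC.base _ _ (Pool.Agent.U863.CT.C_coprodI C hC.base hV)
  refine Pool.Agent.N509.TK.edges (G := G0) (T := T) hC hT hact0 (fun v => ?_) fun u v huv => ?_
  · let ι : MulAction.stabilizer G0 v →* MulAction.stabilizer G v :=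
      { toFun := fun x => ⟨((x : G0) : G), x.2⟩, map_one' := rfl, map_mul' := fun _ _ => rfl }
    refine hC.base.of_injective _ _ ι ?_ (hV v)
    intro x y hxy
    have h1 : ((x : G0) : G) = ((y : G0) : G) :=
      congrArg (fun z : MulAction.stabilizer G v => (z : G)) hxy
    exact Subtype.ext (Subtype.ext h1)
  · refine ⟨_, inferInstance, Φ, hW, ?_⟩
    have key : ∀ w : V, A w → ∀ x : G0, x • w = w → Φ x = 1 → x = 1 := by
      intro w hw x hx hx1
      obtain ⟨k, hk⟩ := hΦ w
      rw [hk x hx] at hx1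
      have h1 : rr T A G0 pr w x = 1 := by
        rw [mul_inv_eq_one] at hx1
        exact mul_eq_left.1 hx1
      rw [rr_A hw] at h1
      have h2 := congrArg Subtype.val h1
      rw [dg_val (fin_sg _ _)] at h2
      have h3 := congrFun (congrArg Wr.s h2) none
      have h4 : cf w (x : G) = 1 := by
        have h5 : (sg none (cf w (x : G)) : Option (Om G V) → HH G V) none = 1 := h3
        rwa [sg_same] at h5
      exact Subtype.ext (cf_inj hx h4)
    intro x hxu hxv hx1
    by_cases hu : A u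
    · exact key u hu x hxu hx1
    · have hv : A v := by
        by_contra hv
        exact hu ((h.alt u v huv).2 hv)
      exact key v hv x hxv hx1

open Classical in
/-- the groups generated at the vertices -/
noncomputable def RR (T : SimpleGraph V) (A : V → Prop) (K : V → Subgroup G) (v : V) : Subgroup G :=
  if A v then MulAction.stabilizer G v else Rg T K v

theorem RR_A {v : V} (hv : A v) : RR T A K v = MulAction.stabilizer G v := if_pos hv

theorem RR_B {v : V} (hv : ¬ A v) : RR T A K v = Rg T K v := if_neg hv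

theorem Hubs.fm (h : Hubs T A K)
    (hact : ∀ (g : G) (u v : V), T.Adj u v → T.Adj (g • u) (g • v)) : Fm T (RR T A K) where
  fix v r hr := by
    by_cases hv : A v
    · rw [RR_A hv] at hr
      exact hr
    · rw [RR_B hv] at hr
      exact h.Rg_le hv hr
  eqv g v r hr := by
    by_cases hv : A v
    · rw [RR_A hv] at hr
      rw [RR_A (h.inv g v hv), MulAction.mem_stabilizer_iff, mul_smul, mul_smul, inv_smul_smul,
        MulAction.mem_stabilizer_iff.1 hr]
    · rw [RR_B hv] at hr
      rw [RR_B (h.not_inv g hv)]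
      exact h.Rg_smul hact g hv hr
  loc u v huv r hr hrv := by
    by_cases hu : A u
    · have hv : ¬ A v := (h.alt u v huv).1 hu
      rw [RR_A hu] at hr
      rw [RR_B hv]
      exact Eg_le_Rg huv.symm ⟨hr, hrv⟩
    · have hv : A v := by
        by_contra hv
        exact hu ((h.alt u v huv).2 hv)
      rw [RR_A hv]
      exact hrv

/-- **hubs in trees** -/
theorem hubs (hC : ClosedE C) (hT : T.IsTree)
    (hact : ∀ (g : G) (u v : V), T.Adj u v → T.Adj (g • u) (g • v))
    (hV : ∀ v : V, C ↥(MulAction.stabilizer G v)) (h : Hubs T A K)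
    (hQ : ∀ b, ¬ A b → ∃ (P : Type) (_ : Group P) (f : MulAction.stabilizer G b →* P), C P ∧
      ∀ g, f g = 1 ↔ (g : G) ∈ Rg T K b) : C G := by
  classical
  have hR := h.fm hact
  obtain ⟨N, hN⟩ : ∃ N : Subgroup G, N = ⨆ v, RR T A K v := ⟨_, rfl⟩
  have hNn : N.Normal := hN ▸ hR.normal
  have hle : ∀ v, RR T A K v ≤ N := fun v => hN ▸ le_iSup (RR T A K) v
  have hleA : ∀ v, A v → MulAction.stabilizer G v ≤ N := fun v hv => by
    have := hle v
    rwa [RR_A hv] at this
  have hleB : ∀ b, ¬ A b → Rg T K b ≤ N := fun v hv => by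
    have := hle v
    rwa [RR_B hv] at this
  have hst : ∀ b, ¬ A b → ∀ x ∈ N, x • b = b → x ∈ Rg T K b := by
    intro b hb x hx hxb
    rw [hN] at hx
    have h1 := stab hT hact hR hx hxb
    rwa [RR_B hb] at h1
  have hCN : C N := by
    refine core_mem hC hT hact hV h (z := fun _ => 1) ⟨hleA, hleB, fun b _ => one_smul G b,
      fun b _ => one_mem N, fun b hb x hx hxb => ⟨0, ?_⟩, fun b hb n _ => one_zpow n,
      fun b hb a ha x hx => ?_⟩
    · rw [zpow_zero, one_mul]
      exact hst b hb x hx hxb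
    · rw [commutatorElement_one_left]
      exact one_mem _
  have hCQ : C (G ⧸ N) := by
    subst hN
    refine quot_mem hC hT hact hR ?_ ?_
    · intro u v huv g hgu hgv
      by_cases hu : A u
      · rw [RR_A hu]
        exact hgu
      · rw [RR_B hu]
        exact Eg_le_Rg huv ⟨hgv, hgu⟩
    · intro v
      by_cases hv : A v
      · refine ⟨Multiplicative ℤ, inferInstance, 1, hC.base.int, fun g => ?_⟩
        rw [RR_A hv]
        exact ⟨fun _ => g.2, fun _ => rfl⟩
      · rw [RR_B hv]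
        exact hQ v hv
  refine Pool.Agent.Y529.FJ.t_ext C hC G N hCN hCQ fun g hg => ?_
  -- the generators at the hubs
  have hinf : ∀ n : ℤ, g ^ n ∈ N → n = 0 := by
    intro n hn
    by_contra h0
    rcases lt_or_gt_of_ne h0 with h1 | h1
    · refine hg n.natAbs (by omega) ?_
      have h2 := inv_mem hn
      rw [← zpow_neg] at h2
      have h3 : (-n : ℤ) = (n.natAbs : ℤ) := by omega
      rwa [h3, zpow_natCast] at h2
    · refine hg n.natAbs (by omega) ?_
      have h3 : n = (n.natAbs : ℤ) := by omega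
      rwa [h3, zpow_natCast] at hn
  have hz : ∀ b, ∃ z : G, ¬ A b → z • b = b ∧ z ∈ N ⊔ Subgroup.zpowers g ∧
      (∀ x ∈ N ⊔ Subgroup.zpowers g, x • b = b → ∃ n : ℤ, z ^ n * x ∈ Rg T K b) ∧
      (∀ n : ℤ, z ^ n ∈ Rg T K b → z ^ n = 1) ∧
      (∀ a, T.Adj b a → ∀ x ∈ Eg G a b, ⁅z, x⁆ ∈ K b) := by
    intro b
    by_cases hb : ¬ A b
    swap
    · exact ⟨1, fun h1 => absurd h1 hb⟩
    obtain ⟨J, hJ⟩ : ∃ J : Subgroup (G ⧸ N), J =
        ((N ⊔ Subgroup.zpowers g) ⊓ MulAction.stabilizer G b).map (QuotientGroup.mk' N) := ⟨_, rfl⟩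
    have hJle : J ≤ Subgroup.zpowers (QuotientGroup.mk' N g) := by
      rw [hJ]
      refine (Subgroup.map_mono inf_le_left).trans ?_
      rw [Subgroup.map_sup, MonoidHom.map_zpowers]
      refine sup_le ?_ le_rfl
      rintro _ ⟨x, hx, rfl⟩
      rw [show QuotientGroup.mk' N x = 1 from (QuotientGroup.eq_one_iff x).2 hx]
      exact one_mem _
    have hcyc : IsCyclic J := Subgroup.isCyclic_of_le hJle
    obtain ⟨⟨j, hj⟩, hgen⟩ := hcyc.exists_generator
    have hj' := hj
    rw [hJ] at hj'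
    obtain ⟨x0, ⟨hx0, hx0b⟩, hx0j⟩ := hj'
    have hgen' : ∀ x ∈ N ⊔ Subgroup.zpowers g, x • b = b → ∃ n : ℤ, x0 ^ n * x ∈ N := by
      intro x hx hxb
      have h1 : QuotientGroup.mk' N x ∈ J := by
        rw [hJ]
        exact ⟨x, ⟨hx, hxb⟩, rfl⟩
      obtain ⟨n, hn⟩ := hgen ⟨_, h1⟩
      have h2 := congrArg Subtype.val hn
      have h3 : j ^ n = QuotientGroup.mk' N x := h2
      refine ⟨-n, (QuotientGroup.eq_one_iff _).1 ?_⟩
      show QuotientGroup.mk' N (x0 ^ (-n) * x) = 1
      rw [map_mul, map_zpow, hx0j, ← h3, ← zpow_add, neg_add_cancel, zpow_zero]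
    by_cases hj1 : j = 1
    · refine ⟨1, fun _ => ⟨one_smul G b, one_mem _, fun x hx hxb => ⟨0, ?_⟩,
        fun n _ => one_zpow n, fun a ha x hx => ?_⟩⟩
      · rw [zpow_zero, one_mul]
        obtain ⟨n, hn⟩ := hgen' x hx hxb
        refine hst b hb x ?_ hxb
        rw [hj1] at hx0j
        have h2 : x0 ∈ N := (QuotientGroup.eq_one_iff x0).1 hx0j
        have h3 := mul_mem (inv_mem (zpow_mem h2 n)) hn
        rwa [inv_mul_cancel_left] at h3
      · rw [commutatorElement_one_left]
        exact one_mem _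
    · obtain ⟨e, he, hce⟩ := h.cent b hb x0 hx0b
      have heN := hleB b hb he
      have heb : e • b = b := h.Rg_le hb he
      have hz1 : (e⁻¹ * x0) • b = b := by
        rw [mul_smul, MulAction.mem_stabilizer_iff.1 hx0b, inv_smul_eq_iff, heb]
      have hzq : QuotientGroup.mk' N (e⁻¹ * x0) = j := by
        rw [map_mul, hx0j, map_inv, show QuotientGroup.mk' N e = 1 from
          (QuotientGroup.eq_one_iff e).2 heN, inv_one, one_mul]
      have hzpb : ∀ n : ℤ, (e⁻¹ * x0) ^ n • b = b := fun n =>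
        (MulAction.stabilizer G b).zpow_mem (show e⁻¹ * x0 ∈ MulAction.stabilizer G b from hz1) n
      refine ⟨e⁻¹ * x0, fun _ => ⟨hz1, mul_mem (inv_mem (Subgroup.mem_sup_left heN)) hx0,
        fun x hx hxb => ?_, fun n hn => ?_, hce⟩⟩
      · obtain ⟨n, hn⟩ := hgen' x hx hxb
        refine ⟨n, hst b hb _ ((QuotientGroup.eq_one_iff _).1 ?_) ?_⟩
        · show QuotientGroup.mk' N ((e⁻¹ * x0) ^ n * x) = 1
          have h2 : QuotientGroup.mk' N (x0 ^ n * x) = 1 := (QuotientGroup.eq_one_iff _).2 hn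
          rw [map_mul, map_zpow, hx0j] at h2
          rw [map_mul, map_zpow, hzq, h2]
        · rw [mul_smul, hxb, hzpb]
      · have h2 : QuotientGroup.mk' N ((e⁻¹ * x0) ^ n) = 1 :=
          (QuotientGroup.eq_one_iff _).2 (hleB b hb hn)
        rw [map_zpow, hzq] at h2
        obtain ⟨m, hm⟩ := hJle hj
        have hm' : QuotientGroup.mk' N g ^ m = j := hm
        rw [← hm', ← zpow_mul, ← map_zpow] at h2
        have h3 := hinf _ ((QuotientGroup.eq_one_iff _).1 h2)
        rcases mul_eq_zero.1 h3 with h4 | h4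
        · rw [h4, zpow_zero] at hm'
          exact absurd hm'.symm hj1
        · rw [h4, zpow_zero]
  choose z hz using hz
  exact core_mem hC hT hact hV h (z := z) ⟨fun v hv => (hleA v hv).trans le_sup_left,
    fun b hb => (hleB b hb).trans le_sup_left, fun b hb => (hz b hb).1, fun b hb => (hz b hb).2.1,
    fun b hb => (hz b hb).2.2.1, fun b hb => (hz b hb).2.2.2.1, fun b hb => (hz b hb).2.2.2.2⟩

end Pool.Agent.U709.Gl
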