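import Pool.Agent.U709.Art

/-!
# Partial joins
-/

set_option autoImplicit false

namespace Pool.Agent.U709.Art

open Pool.Agent.Y110.FJ (ClosedE S_AM Amg S_PERM)
open Pool.Agent.K7.H87.FJ6
open Pool.Agent.Helper741 (alt map_alt alt_zero)

variable {C : ∀ (G : Type) [Group G], Prop}

theorem alt_comm2 {G : Type*} [Group G] {a b : G} (h : a * b = b * a) : alt a b 2 = alt b a 2 := by
  have e : ∀ x y : G, alt x y 2 = x * y := fun x y => Pool.Agent.Helper741.alt_two x y
  rw [e, e, h]

theorem comm_of_alt2 {G : Type*} [Group G] {a b : G} (h : alt a b 2 = alt b a 2) : a * b = b * a := by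
  have e : ∀ x y : G, alt x y 2 = x * y := fun x y => Pool.Agent.Helper741.alt_two x y
  rwa [e, e] at h

/-- a direct product -/
theorem prod_mem (hC : ClosedE C) {B : Type} (M : CoxeterMatrix B) (p : B → ℕ) (X : Set B)
    (h2 : ∀ i ∈ X, ∀ j ∉ X, M i j = 2)
    (hX : C (Sh (rs M X) (p ∘ Subtype.val))) (hY : C (Sh (rs M Xᶜ) (p ∘ Subtype.val))) :
    C (Sh M p) := by
  classical
  let D := Sh (rs M X) (p ∘ Subtype.val) × Sh (rs M Xᶜ) (p ∘ Subtype.val)
  have hD : C D := hC.base.prod _ _ hX hY
  let a : B → D := fun b => if hb : b ∈ X then (Sh.gen _ _ ⟨b, hb⟩, 1) else (1, Sh.gen _ _ ⟨b, hb⟩)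
  have ain : ∀ b (hb : b ∈ X), a b = (Sh.gen _ _ ⟨b, hb⟩, 1) := fun b hb => dif_pos hb
  have aout : ∀ b (hb : b ∉ X), a b = (1, Sh.gen _ _ ⟨b, hb⟩) := fun b hb => dif_neg hb
  let φ : Sh M p →* D := Sh.lift a (by
    intro i j
    by_cases hi : i ∈ X
    · by_cases hj : j ∈ X
      · rw [ain i hi, ain j hj]
        have e : ∀ (x y : Sh (rs M X) (p ∘ Subtype.val)) (m : ℕ),
            alt ((x, 1) : D) (y, 1) m = (alt x y m, 1) := by
          intro x y m
          exact (map_alt (MonoidHom.inl (Sh (rs M X) (p ∘ Subtype.val))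
            (Sh (rs M Xᶜ) (p ∘ Subtype.val))) x y m).symm
        rw [e, e]
        congr 1
        exact Sh.rel (M := rs M X) (p := p ∘ Subtype.val) ⟨i, hi⟩ ⟨j, hj⟩
      · rw [ain i hi, aout j hj, h2 i hi j hj]
        apply alt_comm2
        rw [Prod.mk_mul_mk, Prod.mk_mul_mk, one_mul, mul_one, one_mul, mul_one]
    · by_cases hj : j ∈ X
      · rw [aout i hi, ain j hj, M.symmetric, h2 j hj i hi]
        apply alt_comm2
        rw [Prod.mk_mul_mk, Prod.mk_mul_mk, one_mul, mul_one, one_mul, mul_one]
      · rw [aout i hi, aout j hj]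
        have e : ∀ (x y : Sh (rs M Xᶜ) (p ∘ Subtype.val)) (m : ℕ),
            alt ((1, x) : D) (1, y) m = (1, alt x y m) := by
          intro x y m
          exact (map_alt (MonoidHom.inr (Sh (rs M X) (p ∘ Subtype.val))
            (Sh (rs M Xᶜ) (p ∘ Subtype.val))) x y m).symm
        rw [e, e]
        congr 1
        exact Sh.rel (M := rs M Xᶜ) (p := p ∘ Subtype.val) ⟨i, hi⟩ ⟨j, hj⟩) (by
    intro i
    by_cases hi : i ∈ X
    · rw [ain i hi, Prod.pow_mk, one_pow]
      have h1 := Sh.pow (M := rs M X) (p := p ∘ Subtype.val) ⟨i, hi⟩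
      exact Prod.ext h1 rfl
    · rw [aout i hi, Prod.pow_mk, one_pow]
      have h1 := Sh.pow (M := rs M Xᶜ) (p := p ∘ Subtype.val) ⟨i, hi⟩
      exact Prod.ext rfl h1)
  have hcomm : ∀ (x : Sh (rs M X) (p ∘ Subtype.val)) (y : Sh (rs M Xᶜ) (p ∘ Subtype.val)),
      Commute (inc M p (Subtype.val : X → B) Subtype.val_injective x)
        (inc M p (Subtype.val : ↥(Xᶜ) → B) Subtype.val_injective y) := by
    intro x
    induction x using Sh.induction with
    | one => intro y; rw [map_one]; exact Commute.one_left _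
    | gen i =>
      intro y
      induction y using Sh.induction with
      | one => rw [map_one]; exact Commute.one_right _
      | gen j =>
        rw [inc_gen, inc_gen]
        apply comm_of_alt2
        have := Sh.rel (M := M) (p := p) i.1 j.1
        rwa [h2 i i.2 j j.2] at this
      | mul y z hy hz => rw [map_mul]; exact hy.mul_right hz
      | inv y hy => rw [map_inv]; exact hy.inv_right
    | mul y z hy hz => intro w; rw [map_mul]; exact (hy w).mul_left (hz w)
    | inv y hy => intro w; rw [map_inv]; exact (hy w).inv_left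
  let ψ : D →* Sh M p := MonoidHom.noncommCoprod
    (inc M p (Subtype.val : X → B) Subtype.val_injective)
    (inc M p (Subtype.val : ↥(Xᶜ) → B) Subtype.val_injective) hcomm
  have hψ : ψ.comp φ = MonoidHom.id _ := by
    apply Sh.hom_ext
    intro b
    change ψ (Sh.lift a _ _ (Sh.gen _ _ b)) = Sh.gen _ _ b
    rw [Sh.lift_gen]
    by_cases hb : b ∈ X
    · rw [ain b hb]
      change inc M p _ _ _ * inc M p _ _ _ = _
      rw [map_one, mul_one, inc_gen]
    · rw [aout b hb]
      change inc M p _ _ _ * inc M p _ _ _ = _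
      rw [map_one, one_mul, inc_gen]
  refine hC.base.of_injective _ _ φ ?_ hD
  intro x y hxy
  have h1 := congrArg ψ hxy
  have h2 : ∀ z, ψ (φ z) = z := fun z => DFunLike.congr_fun hψ z
  rwa [h2, h2] at h1

open Classical in
/-- the labels between `X` and its complement are replaced by two -/
noncomputable def tw {B : Type} (M : CoxeterMatrix B) (X : Set B) : CoxeterMatrix B where
  M := Matrix.of fun i j => if (i ∈ X ↔ j ∈ X) then M i j else 2
  isSymm := by
    ext i j
    simp only [Matrix.transpose_apply, Matrix.of_apply]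
    rw [M.symmetric, if_congr (iff_comm (a := j ∈ X)) rfl rfl]
  diagonal := by
    intro i
    simp
  off_diagonal := by
    intro i j hij
    simp only [Matrix.of_apply]
    split_ifs
    · exact M.off_diagonal i j hij
    · decide

open Classical in
theorem tw_apply {B : Type} (M : CoxeterMatrix B) (X : Set B) (i j : B) :
    tw M X i j = if (i ∈ X ↔ j ∈ X) then M i j else 2 := rfl

theorem rs_congr {A : Type} {M M' : CoxeterMatrix A} (h : ∀ i j, M i j = M' i j)
    (p : A → ℕ) (h1 : C (Sh M p)) : C (Sh M' p) := by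
  have : M = M' := by
    ext i j
    exact h i j
  rwa [← this]

/-- two classes -/
theorem two_class (hC : ClosedE C) {B : Type} [Finite B] (M : CoxeterMatrix B) (p : B → ℕ)
    (hA : Adm M p) (X : Set B) (h2 : ∀ i ∈ X, ∀ j ∉ X, M i j = 2 ∨ M i j = 0)
    (hX : C (Sh (rs M X) (p ∘ Subtype.val))) (hY : C (Sh (rs M Xᶜ) (p ∘ Subtype.val))) :
    C (Sh M p) := by
  have hA2 : Adm (tw M X) p := by
    refine ⟨hA.even, fun i j hij => ?_⟩
    rw [tw_apply] at hij
    split_ifs at hij with h0
    · exact hA.odd i j hij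
    · exact absurd hij (by decide)
  refine del hC (M' := tw M X) hA2 (prod_mem hC (tw M X) p X ?_ ?_ ?_) M ?_
  · intro i hi j hj
    rw [tw_apply, if_neg (fun h => hj (h.1 hi))]
  · refine rs_congr ?_ _ hX
    intro i j
    change M i j = tw M X i j
    rw [tw_apply, if_pos (iff_of_true i.2 j.2)]
  · refine rs_congr ?_ _ hY
    intro i j
    change M i j = tw M X i j
    rw [tw_apply, if_pos (iff_of_false i.2 j.2)]
  · intro i j
    rw [tw_apply]
    split_ifs with h
    · exact Or.inl rfl
    · rcases not_iff.1 h with h'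
      by_cases hi : i ∈ X
      · have hj : j ∉ X := fun hj => h (iff_of_true hi hj)
        exact h2 i hi j hj
      · have hj : j ∈ X := by
          by_contra hj
          exact h (iff_of_false hi hj)
        rw [M.symmetric]
        exact h2 j hj i hi

/-- finite rank, several classes -/
theorem classes_fin (hC : ClosedE C) {I : Type} : ∀ (n : ℕ) (B : Type) [Finite B] (M : CoxeterMatrix B)
    (p : B → ℕ), Adm M p → ∀ κ : B → I, (Set.range κ).ncard ≤ n →
    (∀ i j, κ i ≠ κ j → M i j = 2 ∨ M i j = 0) →
    (∀ (A : Type) [Finite A] (ι : A → B) (hι : Function.Injective ι), (∀ a b, κ (ι a) = κ (ι b)) →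
      C (Sh (pull M ι hι) (p ∘ ι))) → C (Sh M p) := by
  intro n
  induction n with
  | zero =>
    intro B _ M p hA κ hn h2 h
    have h0 : Set.range κ = ∅ := by
      rw [← Set.ncard_eq_zero (Set.finite_range κ)]
      omega
    have hB : IsEmpty B := Set.range_eq_empty_iff.1 h0
    have := h B id Function.injective_id (fun a => (hB.false a).elim)
    exact rs_congr (fun i => (hB.false i).elim) _ this
  | succ n ih =>
    intro B _ M p hA κ hn h2 h
    by_cases hB : IsEmpty B
    · have := h B id Function.injective_id (fun a => (hB.false a).elim)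
      exact rs_congr (fun i => (hB.false i).elim) _ this
    · rw [not_isEmpty_iff] at hB
      obtain ⟨b0⟩ := hB
      refine two_class hC M p hA {b | κ b = κ b0} ?_ ?_ ?_
      · intro i hi j hj
        refine h2 i j fun hij => hj ?_
        change κ j = κ b0
        rw [← hij]
        exact hi
      · exact h _ Subtype.val Subtype.val_injective (fun a b => by
          have ha : κ a = κ b0 := a.2
          have hb : κ b = κ b0 := b.2
          rw [ha, hb])
      · refine ih _ (rs M {b | κ b = κ b0}ᶜ) (p ∘ Subtype.val) (hA.pull _ _) (κ ∘ Subtype.val) ?_ ?_ ?_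
        · have hlt : (Set.range (κ ∘ (Subtype.val : ↥({b | κ b = κ b0}ᶜ : Set B) → B))).ncard <
              (Set.range κ).ncard := by
            apply Set.ncard_lt_ncard _ (Set.finite_range κ)
            refine ⟨?_, ?_⟩
            · rintro _ ⟨b, rfl⟩
              exact ⟨b.1, rfl⟩
            · intro hsub
              obtain ⟨b, hb⟩ := hsub ⟨b0, rfl⟩
              exact b.2 hb
          omega
        · intro i j hij
          exact h2 i.1 j.1 hij
        · intro A _ ι hι hκ
          exact h A (Subtype.val ∘ ι) (Subtype.val_injective.comp hι) hκ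

/-- **partial joins** -/
theorem joins (hC : ClosedE C) {B I : Type} (M : CoxeterMatrix B) (p : B → ℕ) (hA : Adm M p)
    (κ : B → I) (h2 : ∀ i j, κ i ≠ κ j → M i j = 2 ∨ M i j = 0)
    (h : ∀ F : Set B, F.Finite → (∀ i ∈ F, ∀ j ∈ F, κ i = κ j) →
      C (Sh (rs M F) (p ∘ Subtype.val))) : C (Sh M p) := by
  refine local_mem hC M p fun F hF => ?_
  have : Finite F := hF
  refine classes_fin hC _ F (rs M F) (p ∘ Subtype.val) (hA.pull _ _) (κ ∘ Subtype.val) le_rfl
    (fun i j hij => h2 i j hij) ?_
  intro A _ ι hι hκ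
  have hfin : (Set.range (Subtype.val ∘ ι : A → B)).Finite := Set.finite_range _
  have h1 := h (Set.range (Subtype.val ∘ ι)) hfin (by
    rintro _ ⟨a, rfl⟩ _ ⟨b, rfl⟩
    exact hκ a b)
  have : Finite (Set.range (Subtype.val ∘ ι : A → B)) := hfin
  let ι' : A → Set.range (Subtype.val ∘ ι : A → B) := fun a => ⟨_, ⟨a, rfl⟩⟩
  have hι' : Function.Injective ι' := by
    intro a b hab
    exact hι (Subtype.val_injective (congrArg (fun z : Set.range (Subtype.val ∘ ι : A → B) => (z : B)) hab))
  exact hC.base.of_injective _ _ _ (inc_injective (M := rs M (Set.range (Subtype.val ∘ ι)))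
    (p := p ∘ Subtype.val) (hA.pull _ _) ι' hι') h1

end Pool.Agent.U709.Art
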