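import Pool.Agent.U709.CyC
import Pool.Agent.U709.HubD

/-!
# Levels on trees: one-sided conditions along rooted trees of groups
-/

set_option autoImplicit false

namespace Pool.Agent.U709.Lv

open SimpleGraph
open scoped commutatorElement Pointwise
open Subgroup
open Pool.Agent.Y110.FJ
open Pool.Agent.N509.TK
open Pool.Agent.R941.FJ (C_equiv C_le C_cyc)

variable {C : ∀ (G : Type) [Group G], Prop}
variable {G V : Type} [Group G] [MulAction G V] {T : SimpleGraph V}

/-- An invariant function `lam` with different values on adjacent vertices, with conditions for the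
edges which join a vertex to the vertices with smaller values. -/
structure Lev (C : ∀ (G : Type) [Group G], Prop) {G V : Type} [Group G] [MulAction G V]
    (T : SimpleGraph V) (lam : V → ℕ) (R : V → Subgroup G) : Prop where
  inv : ∀ (g : G) v, lam (g • v) = lam v
  ne : ∀ u v, T.Adj u v → lam u ≠ lam v
  fix : ∀ b, ∀ x ∈ R b, x • b = b
  conj : ∀ (g : G) b, ∀ x ∈ R b, g * x * g⁻¹ ∈ R (g • b)
  triv : ∀ b a, T.Adj b a → lam a < lam b → ∀ x ∈ R b, x • a = a → x = 1
  cent : ∀ b a, T.Adj b a → lam a < lam b → ∀ g : G, g • b = b → ∀ x : G, x • b = b → x • a = a →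
    ⁅g, x⁆ ∈ R b
  one : ∀ b a a', T.Adj b a → T.Adj b a' → lam a < lam b → lam a' < lam b →
    ∃ g : G, g • b = b ∧ g • a = a'
  quo : ∀ b a, T.Adj b a → lam a < lam b → ∃ (Q : Type) (_ : Group Q)
    (f : MulAction.stabilizer G b →* Q), C Q ∧ ∀ x, f x = 1 ↔ ∃ r ∈ R b, ∃ (e : G) (a' : V),
      T.Adj b a' ∧ lam a' < lam b ∧ e • b = b ∧ e • a' = a' ∧ (x : G) = r * e

/-- the theorem for levels less than `n` -/
def PL (C : ∀ (G : Type) [Group G], Prop) (n : ℕ) : Prop :=
  ∀ (G V : Type) [Group G] [MulAction G V] (T : SimpleGraph V) (lam : V → ℕ) (R : V → Subgroup G),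
    T.IsTree → (∀ (g : G) (u v : V), T.Adj u v → T.Adj (g • u) (g • v)) →
    (∀ v : V, C ↥(MulAction.stabilizer G v)) → Lev C T lam R → (∀ v, lam v < n) → C G

/-- all edges at a vertex of small level are equivalent -/
def rl (lam : V → ℕ) (n : ℕ) (v a b : V) : Prop := a = b ∨ lam v < n

theorem rl_LR {lam : V → ℕ} (h : ∀ (g : G) v, lam (g • v) = lam v) (n : ℕ) : LR G T (rl lam n) where
  refl _ _ _ := Or.inl rfl
  symm _ _ _ _ _ h := h.imp Eq.symm id
  trans _ _ _ _ _ _ _ h h' := by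
    rcases h with rfl | h
    · exact h'
    · exact Or.inr h
  eqv g w a b h1 := by
    rcases h1 with rfl | h1
    · exact Or.inl rfl
    · exact Or.inr (by rwa [h])

section conn

variable {lam : V → ℕ} {n : ℕ}

/-- the vertices of small level of a cylinder -/
def Zs (y : Cyl T (rl lam n)) : Set V := {v : V | Mem y v ∧ lam v < n}

theorem Mem_fst (p : Dt T) : Mem (Quotient.mk (cs T (rl lam n)) p) p.1.1 := ⟨p.1.2, p.2, rfl⟩

theorem Mem_snd (p : Dt T) : Mem (Quotient.mk (cs T (rl lam n)) p) p.1.2 := Mem_cy' p.2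

theorem reach_edge {y : Cyl T (rl lam n)} {u v s t : V} (huv : T.Adj u v) (hs : s ∈ Zs y)
    (ht : t ∈ Zs y) (hs1 : s = u ∨ s = v) (ht1 : t = u ∨ t = v) :
    (T.induce (Zs y)).Reachable ⟨s, hs⟩ ⟨t, ht⟩ := by
  rcases hs1 with rfl | rfl <;> rcases ht1 with rfl | rfl
  · exact Reachable.refl _
  · exact Adj.reachable (show (T.induce (Zs y)).Adj ⟨s, hs⟩ ⟨t, ht⟩ from huv)
  · exact Adj.reachable (show (T.induce (Zs y)).Adj ⟨s, hs⟩ ⟨t, ht⟩ from huv.symm)
  · exact Reachable.refl _

/-- an edge with an end of small level -/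
def Low (lam : V → ℕ) (n : ℕ) (p : V × V) : Prop := lam p.1 < n ∨ lam p.2 < n

theorem conn_gen (y : Cyl T (rl lam n)) {p q : Dt T} (h : Relation.EqvGen (lk T (rl lam n)) p q) :
    Quotient.mk (cs T (rl lam n)) p = y → (Low lam n p.1 ↔ Low lam n q.1) ∧
      ∀ (s t : V) (hs : s ∈ Zs y) (ht : t ∈ Zs y), (s = p.1.1 ∨ s = p.1.2) →
        (t = q.1.1 ∨ t = q.1.2) → (T.induce (Zs y)).Reachable ⟨s, hs⟩ ⟨t, ht⟩ := by
  induction h with
  | rel p q h =>
    intro hp
    obtain ⟨⟨a, b⟩, hab⟩ := p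
    obtain ⟨⟨a', b'⟩, hab'⟩ := q
    have hab : T.Adj a b := hab
    have hab' : T.Adj a' b' := hab'
    rcases h with h | ⟨h1, h2⟩
    · have h3 : a' = b := congrArg Prod.fst h
      have h4 : b' = a := congrArg Prod.snd h
      subst h3
      subst h4
      exact ⟨Or.comm, fun s t hs ht h1 h2 => reach_edge hab hs ht h1 h2.symm⟩
    · change a = a' at h1
      subst h1
      rcases h2 with h2 | h2
      · change b = b' at h2
        subst h2
        exact ⟨Iff.rfl, fun s t hs ht h1 h2 => reach_edge hab hs ht h1 h2⟩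
      · change lam a < n at h2
        refine ⟨⟨fun _ => Or.inl h2, fun _ => Or.inl h2⟩, fun s t hs ht h3 h4 => ?_⟩
        have ha : a ∈ Zs y := ⟨⟨b, hab, hp⟩, h2⟩
        exact (reach_edge hab hs ha h3 (Or.inl rfl)).trans (reach_edge hab' ha ht (Or.inl rfl) h4)
  | refl p => exact fun _ => ⟨Iff.rfl, fun s t hs ht h1 h2 => reach_edge p.2 hs ht h1 h2⟩
  | symm p q hpq ih =>
    intro hq
    have hp : Quotient.mk (cs T (rl lam n)) p = y := (Quotient.sound hpq).trans hq
    obtain ⟨h1, h2⟩ := ih hp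
    exact ⟨h1.symm, fun s t hs ht h3 h4 => (h2 t s ht hs h4 h3).symm⟩
  | trans p m q hpm hmq ih1 ih2 =>
    intro hp
    have hm : Quotient.mk (cs T (rl lam n)) m = y := (Quotient.sound hpm).symm.trans hp
    obtain ⟨h1, h2⟩ := ih1 hp
    obtain ⟨h3, h4⟩ := ih2 hm
    refine ⟨h1.trans h3, fun s t hs ht h5 h6 => ?_⟩
    have h7 : Low lam n p.1 := by
      rcases h5 with rfl | rfl
      · exact Or.inl hs.2
      · exact Or.inr hs.2
    rcases h1.1 h7 with h8 | h8
    · have hu : m.1.1 ∈ Zs y := ⟨hm ▸ Mem_fst m, h8⟩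
      exact (h2 s _ hs hu h5 (Or.inl rfl)).trans (h4 _ t hu ht (Or.inl rfl) h6)
    · have hu : m.1.2 ∈ Zs y := ⟨hm ▸ Mem_snd m, h8⟩
      exact (h2 s _ hs hu h5 (Or.inr rfl)).trans (h4 _ t hu ht (Or.inr rfl) h6)

/-- the tree of the vertices of small level of a cylinder -/
theorem Zs_tree (hT : T.IsTree) {y : Cyl T (rl lam n)} {o a : V} (h : T.Adj o a)
    (hy : cy (rl lam n) h = y) (ho : lam o < n) : (T.induce (Zs y)).IsTree := by
  have hne : Nonempty (Zs y) := ⟨⟨o, ⟨a, h, hy⟩, ho⟩⟩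
  refine ⟨⟨?_⟩, hT.isAcyclic.induce _⟩
  rintro ⟨s, hs⟩ ⟨t, ht⟩
  obtain ⟨a1, h1, hy1⟩ := hs.1
  obtain ⟨a2, h2, hy2⟩ := ht.1
  have h3 : Relation.EqvGen (lk T (rl lam n)) (dt h1) (dt h2) := Quotient.exact (hy1.trans hy2.symm)
  exact (conn_gen y h3 hy1).2 s t hs ht (Or.inl rfl) (Or.inl rfl)

end conn

/-- **the stabilizers of the components of the set of vertices of small level** -/
theorem low_cyl (hC : ClosedE C) {n : ℕ} (IH : PL C n) (hT : T.IsTree)
    (hact : ∀ (g : G) (u v : V), T.Adj u v → T.Adj (g • u) (g • v))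
    (hV : ∀ v : V, C ↥(MulAction.stabilizer G v)) {lam : V → ℕ} {R : V → Subgroup G}
    (hL : Lev C T lam R) (y : Cyl T (rl lam n)) {o a : V} (h : T.Adj o a)
    (hy : cy (rl lam n) h = y) (ho : lam o < n) (K : Subgroup G)
    (hmK : ∀ g, g ∈ K ↔ (cyAct hact (rl_LR hL.inv n)).smul g y = y) : C K := by
  have hr : LR G T (rl lam n) := rl_LR hL.inv n
  have hKP : ∀ g ∈ K, Pres hact y g := by
    intro g hg v a h hvy
    have e := cyAct_cy hact hr g h
    rw [← e, hvy]
    exact (hmK g).1 hg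
  have hKe : ∀ (g : G) (v a : V) (h : T.Adj v a), cy (rl lam n) h = y →
      cy (rl lam n) (hact g v a h) = y → g ∈ K := by
    intro g v a h hvy hgy
    rw [hmK]
    have e := cyAct_cy hact hr g h
    rw [← e, hvy] at hgy
    exact hgy
  -- the stabilizers of the vertices of `Zs y` are contained in `K`
  have hst : ∀ b ∈ Zs y, ∀ g : G, g • b = b → g ∈ K := by
    intro b hb g hg
    obtain ⟨c, hbc, hc⟩ := hb.1
    refine hKe g b c hbc hc ?_
    have h1 : T.Adj b (g • c) := by
      have := hact g b c hbc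
      rwa [hg] at this
    rw [cy_congr (hact g b c hbc) h1 hg rfl, ← hc]
    exact cy_rel h1 hbc (Or.inr hb.2)
  have hnb : ∀ b ∈ Zs y, ∀ c, T.Adj b c → Mem y c := by
    intro b hb c hbc
    obtain ⟨c', hbc', hc'⟩ := hb.1
    rw [← hc', ← cy_rel hbc hbc' (Or.inr hb.2)]
    exact Mem_cy' hbc
  let _ : MulAction K (Zs y) :=
    { smul := fun g v => ⟨(g : G) • (v : V), (hKP g g.2).mem v.2.1, by
        show lam ((g : G) • (v : V)) < n
        rw [hL.inv]
        exact v.2.2⟩
      one_smul := fun v => Subtype.ext (one_smul G (v : V))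
      mul_smul := fun g h v => Subtype.ext (mul_smul (g : G) (h : G) (v : V)) }
  refine IH K (Zs y) (T.induce (Zs y)) (fun v => lam v) (fun v => (R v).comap K.subtype)
    (Zs_tree hT h hy ho) (fun g u v h => hact g _ _ h) ?_ ?_ fun v => v.2.2
  · intro v
    have h1 : (MulAction.stabilizer K v).map K.subtype ≤ MulAction.stabilizer G (v : V) := by
      rintro _ ⟨g, hg, rfl⟩
      exact congrArg Subtype.val hg
    exact C_equiv hC.base (equivMapOfInjective _ K.subtype K.subtype_injective)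
      (C_le hC.base h1 (hV v))
  · refine ⟨fun g v => hL.inv g v, fun u v h => hL.ne u v h, ?_, ?_, ?_, ?_, ?_, ?_⟩
    · exact fun b x hx => Subtype.ext (hL.fix b x hx)
    · exact fun g b x hx => hL.conj g b x hx
    · exact fun b a hba hlt x hx hxa =>
        Subtype.ext (hL.triv b a hba hlt x hx (congrArg Subtype.val hxa))
    · exact fun b a hba hlt g hg x hx hxa => hL.cent b a hba hlt g (congrArg Subtype.val hg) x
        (congrArg Subtype.val hx) (congrArg Subtype.val hxa)
    · intro b a a' hba hba' hlt hlt'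
      obtain ⟨g, hg, hga⟩ := hL.one b a a' hba hba' hlt hlt'
      exact ⟨⟨g, hst b b.2 g hg⟩, Subtype.ext hg, Subtype.ext hga⟩
    · intro b a hba hlt
      obtain ⟨Q, _, f, hQ, hf⟩ := hL.quo b a hba hlt
      let j : MulAction.stabilizer K b →* MulAction.stabilizer G (b : V) :=
        (K.subtype.comp (Subgroup.subtype _)).codRestrict _ (by
          rintro ⟨g, hg⟩
          exact congrArg Subtype.val hg)
      refine ⟨Q, _, f.comp j, hQ, fun x => ?_⟩
      show f (j x) = 1 ↔ _
      rw [hf]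
      constructor
      · rintro ⟨r, hr, e, a', ha', hlt', heb, hea, hx⟩
        have hrb := hL.fix b r hr
        refine ⟨⟨r, hst b b.2 r hrb⟩, hr, ⟨e, hst b b.2 e heb⟩,
          ⟨a', hnb b b.2 a' ha', lt_trans hlt' b.2.2⟩, ha', hlt', Subtype.ext heb, Subtype.ext hea,
          Subtype.ext hx⟩
      · rintro ⟨r, hr, e, a', ha', hlt', heb, hea, hx⟩
        exact ⟨r, hr, e, a', ha', hlt', congrArg Subtype.val heb, congrArg Subtype.val hea,
          congrArg Subtype.val hx⟩

end Pool.Agent.U709.Lv
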