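import Pool.Agent.U709.LvA

/-!
# Levels on trees: the theorem
-/

set_option autoImplicit false

namespace Pool.Agent.U709.Lv

open SimpleGraph
open scoped commutatorElement Pointwise
open Subgroup
open Pool.Agent.Y110.FJ
open Pool.Agent.N509.TK
open Pool.Agent.R941.FJ (C_equiv C_le C_cyc)
open Pool.Agent.N509.TX (of_fg)
open Pool.Agent.U709.Gl (Eg mem_Eg Oth Rg Hubs hubs K_le_Rg)

variable {C : ∀ (G : Type) [Group G], Prop}
variable {G V : Type} [Group G] [MulAction G V] {T : SimpleGraph V}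

theorem one_vertex (hC : ClosedE C) (hT : T.IsTree) (hV : ∀ v : V, C ↥(MulAction.stabilizer G v))
    {v : V} (hv : ∀ a, ¬ T.Adj v a) : C G := by
  have h1 : ∀ u, u = v := by
    intro u
    obtain ⟨p⟩ := hT.connected.preconnected v u
    cases p with
    | nil => rfl
    | cons h _ => exact absurd h (hv _)
  have h2 : MulAction.stabilizer G v = ⊤ := by
    rw [eq_top_iff]
    intro g _
    exact h1 (g • v)
  have h3 := hV v
  rw [h2] at h3
  exact C_equiv hC.base topEquiv.symm h3

theorem PL_succ (hC : ClosedE C) {n : ℕ} (IH : PL C n) : PL C (n + 1) := by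
  intro G V _ _ T lam R hT hact hV hL hlt
  classical
  by_cases hiso : ∀ v, ∃ a, T.Adj v a
  swap
  · push Not at hiso
    obtain ⟨v, hv⟩ := hiso
    exact one_vertex hC hT hV hv
  have hr : LR G T (rl lam n) := rl_LR hL.inv n
  let _ : MulAction G (Cyl T (rl lam n)) := cyAct hact hr
  have hcy : ∀ (g : G) {v a : V} (h : T.Adj v a), g • (cy (rl lam n) h) = cy (rl lam n) (hact g v a h) :=
    fun g {v a} h => rfl
  have hmem : ∀ (g : G) (v : V) (y : Cyl T (rl lam n)), Mem y v → Mem (g • y) (g • v) := by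
    rintro g v _ ⟨a, ha, rfl⟩
    exact ⟨g • a, hact g v a ha, (hcy g ha).symm⟩
  -- vertices of small level
  have hlow : ∀ (v : V) (y y' : Cyl T (rl lam n)), lam v < n → Mem y v → Mem y' v → y = y' := by
    rintro v _ _ hv ⟨a, ha, rfl⟩ ⟨a', ha', rfl⟩
    exact cy_rel ha ha' (Or.inr hv)
  have hlow2 : ∀ (g : G) (v : V) (y : Cyl T (rl lam n)), lam v < n → Mem y v → g • v = v →
      g • y = y := by
    intro g v y hv hy hg
    have h1 := hmem g v y hy
    rw [hg] at h1
    exact hlow v _ _ hv h1 hy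
  -- vertices of level `n`
  have hlt' : ∀ v a, T.Adj v a → ¬ lam v < n → lam a < lam v := by
    intro v a h hv
    have h1 := hL.ne v a h
    have h2 := hlt a
    have h3 := hlt v
    omega
  have hhigh : ∀ (g : G) (v a : V) (h : T.Adj v a), ¬ lam v < n → g • v = v →
      g • (cy (rl lam n) h) = cy (rl lam n) h → g • a = a := by
    intro g v a h hv hg hgy
    rw [hcy] at hgy
    have h1 : T.Adj v (g • a) := by
      have := hact g v a h
      rwa [hg] at this
    rw [cy_congr (hact g v a h) h1 hg rfl] at hgy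
    rcases gl hT hr h1 h hgy with h2 | h2
    · exact h2
    · exact absurd h2 hv
  have hhigh2 : ∀ (g : G) (v a a' : V) (h : T.Adj v a) (h' : T.Adj v a'), g • v = v → g • a = a' →
      g • (cy (rl lam n) h) = cy (rl lam n) h' := by
    intro g v a a' h h' hg hga
    rw [hcy]
    exact cy_congr _ _ hg hga
  obtain ⟨A, hA⟩ : ∃ A : V ⊕ Cyl T (rl lam n) → Prop, A = fun x => x.isRight = true := ⟨_, rfl⟩
  have hAl : ∀ v : V, ¬ A (Sum.inl v) := fun v => by
    rw [hA]
    simp
  have hAr : ∀ y : Cyl T (rl lam n), A (Sum.inr y) := fun y => by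
    rw [hA]
    simp
  obtain ⟨K, hKr, hKh, hKl⟩ : ∃ K : V ⊕ Cyl T (rl lam n) → Subgroup G,
      (∀ y, K (Sum.inr y) = ⊥) ∧ (∀ v, ¬ lam v < n → K (Sum.inl v) = R v) ∧
      (∀ v, lam v < n → K (Sum.inl v) = ⊥) := by
    refine ⟨Sum.elim (fun v => if lam v < n then ⊥ else R v) (fun _ => ⊥), fun _ => rfl,
      fun v hv => ?_, fun v hv => ?_⟩
    · show (if lam v < n then ⊥ else R v) = R v
      rw [if_neg hv]
    · show (if lam v < n then ⊥ else R v) = ⊥
      rw [if_pos hv]
  have hinl : ∀ (g : G) (v : V), g • (Sum.inl v : V ⊕ Cyl T (rl lam n)) = Sum.inl v ↔ g • v = v :=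
    fun g v => Sum.inl_injective.eq_iff (a := g • v)
  have hinr : ∀ (g : G) (y : Cyl T (rl lam n)), g • (Sum.inr y : V ⊕ Cyl T (rl lam n)) = Sum.inr y ↔
      g • y = y := fun g y => Sum.inr_injective.eq_iff (a := g • y)
  have hnb : ∀ (v : V) (x : V ⊕ Cyl T (rl lam n)), (BB T (rl lam n)).Adj (Sum.inl v) x →
      ∃ y, x = Sum.inr y ∧ Mem y v := by
    intro v x h
    rcases BB_cases h with ⟨v', y, h1, rfl, h2⟩ | ⟨v', y, rfl, h1, h2⟩
    · cases h1
      exact ⟨y, rfl, h2⟩
    · exact absurd h1 (by simp)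
  have hactB : ∀ (g : G) (x x' : V ⊕ Cyl T (rl lam n)), (BB T (rl lam n)).Adj x x' →
      (BB T (rl lam n)).Adj (g • x) (g • x') := by
    intro g x x' h
    rcases BB_cases h with ⟨v, y, rfl, rfl, h1⟩ | ⟨v, y, rfl, rfl, h1⟩
    · exact Or.inl ⟨g • v, g • y, rfl, rfl, hmem g v y h1⟩
    · exact Or.inr ⟨g • v, g • y, rfl, rfl, hmem g v y h1⟩
  -- neighbours in one orbit
  have hoth : ∀ (v : V) (y : Cyl T (rl lam n)), Mem y v →
      Oth G (BB T (rl lam n)) (Sum.inl v) (Sum.inr y) = ⊥ := by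
    intro v y hy
    rw [eq_bot_iff]
    refine iSup_le ?_
    rintro ⟨x, hx, h⟩
    exfalso
    obtain ⟨y', rfl, hy'⟩ := hnb v x hx
    by_cases hv : lam v < n
    · refine h 1 (one_smul _ _) ?_
      rw [one_smul, hlow v y y' hv hy hy']
    · obtain ⟨a, ha, rfl⟩ := hy
      obtain ⟨a', ha', rfl⟩ := hy'
      obtain ⟨g, hg, hga⟩ := hL.one v a a' ha ha' (hlt' v a ha hv) (hlt' v a' ha' hv)
      refine h g ((hinl g v).2 hg) ?_
      show Sum.inr (g • (cy (rl lam n) ha)) = _
      rw [hhigh2 g v a a' ha ha' hg hga]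
  have hH : Hubs (BB T (rl lam n)) A K := by
    refine ⟨?_, ?_, ?_, ?_, ?_, ?_, ?_⟩
    · rintro g (v | y) hx
      · exact absurd hx (hAl v)
      · exact hAr _
    · intro x x' h
      rcases BB_cases h with ⟨v, y, rfl, rfl, h1⟩ | ⟨v, y, rfl, rfl, h1⟩
      · exact iff_of_false (hAl v) (fun h => h (hAr y))
      · exact iff_of_true (hAr y) (hAl v)
    · rintro (v | y) hb x hx
      · by_cases hv : lam v < n
        · rw [hKl v hv, mem_bot] at hx
          rw [hx, one_smul]
        · rw [hKh v hv] at hx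
          exact (hinl x v).2 (hL.fix v x hx)
      · exact absurd (hAr y) hb
    · rintro g (v | y) hb x hx
      · show g * x * g⁻¹ ∈ K (Sum.inl (g • v))
        by_cases hv : lam v < n
        · rw [hKl v hv, mem_bot] at hx
          rw [hx, mul_one, mul_inv_cancel]
          exact one_mem _
        · rw [hKh v hv] at hx
          rw [hKh (g • v) (by rwa [hL.inv])]
          exact hL.conj g v x hx
      · exact absurd (hAr y) hb
    · -- normal
      rintro (v | y) x' hb hbx g hg x hx
      swap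
      · exact absurd (hAr y) hb
      obtain ⟨y, rfl, hy⟩ := hnb v x' hbx
      have hg' := (hinl g v).1 hg
      have hxv := (hinl x v).1 hx.2
      by_cases hv : lam v < n
      · refine mem_sup_left ?_
        have h1 : (g * x * g⁻¹) • v = v := by
          rw [mul_smul, mul_smul, inv_smul_eq_iff.2 hg'.symm, hxv, hg']
        exact ⟨(hinr _ _).2 (hlow2 _ v y hv hy h1), (hinl _ _).2 h1⟩
      · obtain ⟨a, ha, rfl⟩ := hy
        have h1 : g * x * g⁻¹ = ⁅g, x⁆ * x := by
          rw [commutatorElement_def]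
          group
        rw [h1, hKh v hv]
        exact mul_mem (mem_sup_right (hL.cent v a ha (hlt' v a ha hv) g hg' x hxv
          (hhigh x v a ha hv hxv ((hinr _ _).1 hx.1)))) (mem_sup_left hx)
    · -- indep
      rintro (v | y) x' hb hbx
      swap
      · exact absurd (hAr y) hb
      obtain ⟨y, rfl, hy⟩ := hnb v x' hbx
      rw [hoth v y hy, sup_bot_eq, eq_bot_iff]
      rintro x ⟨hx1, hx2⟩
      by_cases hv : lam v < n
      · rw [hKl v hv] at hx2
        exact hx2
      · rw [hKh v hv] at hx2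
        obtain ⟨a, ha, rfl⟩ := hy
        exact hL.triv v a ha (hlt' v a ha hv) x hx2
          (hhigh x v a ha hv ((hinl _ _).1 hx1.2) ((hinr _ _).1 hx1.1))
    · -- cent
      rintro (v | y) hb g hg
      swap
      · exact absurd (hAr y) hb
      have hg' := (hinl g v).1 hg
      by_cases hv : lam v < n
      · obtain ⟨a, ha⟩ := hiso v
        refine ⟨g, ?_, fun x' _ x hx => ?_⟩
        · refine mem_sup_right (mem_iSup_of_mem (⟨Sum.inr (cy (rl lam n) ha), BB_adj.2 (Mem_cy ha)⟩ :
            {a' : V ⊕ Cyl T (rl lam n) // (BB T (rl lam n)).Adj (Sum.inl v) a'}) ?_)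
          exact ⟨(hinr _ _).2 (hlow2 g v _ hv (Mem_cy ha) hg'), hg⟩
        · rw [inv_mul_cancel, commutatorElement_one_left]
          exact one_mem _
      · refine ⟨1, one_mem _, fun x' hbx x hx => ?_⟩
        obtain ⟨y, rfl, a, ha, rfl⟩ := hnb v x' hbx
        rw [inv_one, one_mul, hKh v hv]
        exact hL.cent v a ha (hlt' v a ha hv) g hg' x ((hinl _ _).1 hx.2)
          (hhigh x v a ha hv ((hinl _ _).1 hx.2) ((hinr _ _).1 hx.1))
  refine hubs hC (BB_tree hT hr) hactB ?_ hH ?_
  · rintro (v | y)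
    · have h1 : MulAction.stabilizer G (Sum.inl v : V ⊕ Cyl T (rl lam n)) =
          MulAction.stabilizer G v := by
        ext g
        exact hinl g v
      rw [h1]
      exact hV v
    · have h1 : MulAction.stabilizer G (Sum.inr y : V ⊕ Cyl T (rl lam n)) =
          MulAction.stabilizer G y := by
        ext g
        exact hinr g y
      rw [h1]
      obtain ⟨⟨⟨o, a⟩, h⟩, hy⟩ := Quotient.exists_rep y
      have h : T.Adj o a := h
      have hy : cy (rl lam n) h = y := hy
      by_cases ho : lam o < n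
      · exact low_cyl hC IH hT hact hV hL y h hy ho _ fun g => Iff.rfl
      · have h2 := hL.ne o a h
        have h3 := hlt o
        have h4 := hlt a
        exact low_cyl hC IH hT hact hV hL y h.symm ((cy_symm h).trans hy) (by omega) _
          fun g => Iff.rfl
  · rintro (v | y) hb
    swap
    · exact absurd (hAr y) hb
    obtain ⟨a, ha⟩ := hiso v
    by_cases hv : lam v < n
    · refine ⟨Multiplicative ℤ, inferInstance, 1, hC.base.int, fun g => ?_⟩
      refine iff_of_true rfl ?_
      refine mem_sup_right (mem_iSup_of_mem (⟨Sum.inr (cy (rl lam n) ha), BB_adj.2 (Mem_cy ha)⟩ :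
          {a' : V ⊕ Cyl T (rl lam n) // (BB T (rl lam n)).Adj (Sum.inl v) a'}) ?_)
      exact ⟨(hinr _ _).2 (hlow2 g v _ hv (Mem_cy ha) ((hinl _ _).1 g.2)), g.2⟩
    · obtain ⟨Q, _, f, hQ, hf⟩ := hL.quo v a ha (hlt' v a ha hv)
      let j : MulAction.stabilizer G (Sum.inl v : V ⊕ Cyl T (rl lam n)) →* MulAction.stabilizer G v :=
        (Subgroup.subtype _).codRestrict _ (fun g => (hinl _ _).1 g.2)
      refine ⟨Q, _, f.comp j, hQ, fun x => ?_⟩
      show f (j x) = 1 ↔ _
      constructor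
      · intro hx
        obtain ⟨r, hr', e, a', ha', -, heb, hea, h⟩ := (hf _).1 hx
        have h : (x : G) = r * e := h
        rw [h]
        refine mul_mem (mem_sup_left (by rwa [hKh v hv])) (mem_sup_right (mem_iSup_of_mem
          (⟨Sum.inr (cy (rl lam n) ha'), BB_adj.2 (Mem_cy ha')⟩ :
          {a' : V ⊕ Cyl T (rl lam n) // (BB T (rl lam n)).Adj (Sum.inl v) a'}) ?_))
        refine ⟨(hinr _ _).2 ?_, (hinl _ _).2 heb⟩
        exact hhigh2 e v a' a' ha' ha' heb hea
      · intro hx
        have h1 : Rg (BB T (rl lam n)) K (Sum.inl v) ≤ (f.ker).map (Subgroup.subtype _) := by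
          refine sup_le ?_ (iSup_le ?_)
          · rw [hKh v hv]
            intro r hr'
            refine ⟨⟨r, hL.fix v r hr'⟩, (hf _).2 ⟨r, hr', 1, a, ha, hlt' v a ha hv, one_smul _ _,
              one_smul _ _, (mul_one r).symm⟩, rfl⟩
          · rintro ⟨x', hx'⟩ z hz
            obtain ⟨y, rfl, a', ha', rfl⟩ := hnb v x' hx'
            have hzv := (hinl _ _).1 hz.2
            refine ⟨⟨z, hzv⟩, (hf _).2 ⟨1, one_mem _, z, a', ha', hlt' v a' ha' hv, hzv,
              hhigh z v a' ha' hv hzv ((hinr _ _).1 hz.1), (one_mul z).symm⟩, rfl⟩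
        obtain ⟨z, hz, hzx⟩ := h1 hx
        have h2 : j x = z := Subtype.ext hzx.symm
        rw [h2]
        exact hz

theorem PL_all (hC : ClosedE C) (n : ℕ) : PL C n := by
  induction n with
  | zero =>
    intro G V _ _ T lam R hT _ _ _ hlt
    obtain ⟨v⟩ := hT.connected.nonempty
    exact absurd (hlt v) (Nat.not_lt_zero _)
  | succ n ih => exact PL_succ hC ih

theorem cy_walk {lam : V → ℕ} {n : ℕ} {u v : V} (p : T.Walk u v) (hp : ∀ z ∈ p.support, lam z < n) :
    ∀ (a b : V) (ha : T.Adj u a) (hb : T.Adj v b), cy (rl lam n) ha = cy (rl lam n) hb := by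
  induction p with
  | nil =>
    intro a b ha hb
    exact cy_rel ha hb (Or.inr (hp _ (Walk.start_mem_support _)))
  | @cons u w v h p ih =>
    intro a b ha hb
    rw [cy_rel ha h (Or.inr (hp _ (Walk.start_mem_support _))), ← cy_symm h]
    exact ih (fun z hz => hp z (by rw [Walk.support_cons]; exact List.mem_cons_of_mem _ hz))
      _ _ _ _

/-- **trees with levels** -/
theorem lev_hub (hC : ClosedE C) (hT : T.IsTree)
    (hact : ∀ (g : G) (u v : V), T.Adj u v → T.Adj (g • u) (g • v))
    (hV : ∀ v : V, C ↥(MulAction.stabilizer G v)) {lam : V → ℕ} {R : V → Subgroup G}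
    (hL : Lev C T lam R) : C G := by
  classical
  by_cases hiso : ∀ v, ∃ a, T.Adj v a
  swap
  · push Not at hiso
    obtain ⟨v, hv⟩ := hiso
    exact one_vertex hC hT hV hv
  obtain ⟨o⟩ := hT.connected.nonempty
  obtain ⟨a, ha⟩ := hiso o
  refine of_fg hC fun H hH => ?_
  obtain ⟨S, hS⟩ := (Group.fg_iff_subgroup_fg H).1 hH
  have h1 : ∀ g : G, ∃ m : ℕ, ∃ p : T.Walk o (g • o), ∀ z ∈ p.support, lam z < m := by
    intro g
    obtain ⟨p⟩ := hT.connected.preconnected o (g • o)
    refine ⟨(p.support.map lam).sum + 1, p, fun z hz => ?_⟩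
    exact Nat.lt_succ_of_le (List.single_le_sum (fun _ _ => Nat.zero_le _) _
      (List.mem_map_of_mem hz))
  choose m p hp using h1
  let n := S.sup m + lam o + 1
  have hr : LR G T (rl lam n) := rl_LR hL.inv n
  obtain ⟨K, hK⟩ : ∃ K : Subgroup G, ∀ g, g ∈ K ↔
      (cyAct hact hr).smul g (cy (rl lam n) ha) = cy (rl lam n) ha :=
    ⟨@MulAction.stabilizer G (Cyl T (rl lam n)) _ (cyAct hact hr) (cy (rl lam n) ha), fun g => Iff.rfl⟩
  refine C_le hC.base (?_ : H ≤ K) (low_cyl hC (PL_all hC n) hT hact hV hL _ ha rfl (by omega) K hK)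
  rw [← hS, closure_le]
  intro g hg
  rw [SetLike.mem_coe, hK, cyAct_cy hact hr g ha]
  refine (cy_walk (p g) (fun z hz => lt_of_lt_of_le (hp g z hz) ?_) _ _ ha (hact g o a ha)).symm
  have h2 : m g ≤ S.sup m := Finset.le_sup (f := m) hg
  omega

end Pool.Agent.U709.Lv
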