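import Pool.Agent.U709.LvB

/-!
# Levels on trees: isolated edge groups
-/

set_option autoImplicit false

namespace Pool.Agent.U709.Lv

open SimpleGraph
open scoped commutatorElement Pointwise
open Subgroup
open Subgroup.Commensurable (commensurator)
open Pool.Agent.Y110.FJ
open Pool.Agent.N509.TK
open Pool.Agent.N509.TX (AcylF C_edge)
open Pool.Agent.N431.CE (Es mem_Es Es_comm Es_smul rf rf_LR Rf Rf_gen cylF)
open Pool.Agent.R941.FJ (C_equiv C_le C_cyc mem_sup_normal)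

variable {C : ∀ (G : Type) [Group G], Prop}
variable {G V : Type} [Group G] [MulAction G V] {T : SimpleGraph V}

/-- there is a homomorphism `f` from `M` to a group, which is injective on `E`, such that the image
of `E` is central in the image of `M` and the quotient `f(M) / f(E)` embeds in a group in `C` -/
def CenVis (C : ∀ (G : Type) [Group G], Prop) (E M : Subgroup G) : Prop :=
  ∃ (P Q : Type) (_ : Group P) (_ : Group Q) (f : M →* P) (q : P →* Q), C Q ∧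
    (∀ x : M, (x : G) ∈ E → f x = 1 → x = 1) ∧
    (∀ x m : M, (x : G) ∈ E → f x * f m = f m * f x) ∧
    ∀ m : M, q (f m) = 1 ↔ ∃ x : M, (x : G) ∈ E ∧ f m = f x

/-- the data for one vertex of a cylinder -/
def Loc (C : ∀ (G : Type) [Group G], Prop) (K R : Subgroup G) (y : Cyl T (rf G)) (l : V → V → ℕ)
    (v : V) : Prop :=
  R ≤ K ⊓ MulAction.stabilizer G v ∧
  (∀ g ∈ K, g • v = v → ∀ x ∈ R, g * x * g⁻¹ ∈ R) ∧
  (∀ (u : V) (h : T.Adj v u), cy (rf G) h = y → l u v < l v u → ∀ x ∈ R, x • u = u → x = 1) ∧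
  (∀ (u : V) (h : T.Adj v u), cy (rf G) h = y → l u v < l v u → ∀ g ∈ K, g • v = v → ∀ x ∈ K,
    x • v = v → x • u = u → ⁅g, x⁆ ∈ R) ∧
  ∀ (u : V) (h : T.Adj v u), cy (rf G) h = y → l u v < l v u →
    ∃ (Q : Type) (_ : Group Q) (f : ↥(K ⊓ MulAction.stabilizer G v) →* Q), C Q ∧
    ∀ x, f x = 1 ↔ ∃ r ∈ R, ∃ (e : G) (u' : V) (h' : T.Adj v u'), cy (rf G) h' = y ∧
      l u' v < l v u' ∧ e • v = v ∧ e • u' = u' ∧ (x : G) = r * e

theorem loc_of {K : Subgroup G} {y : Cyl T (rf G)} {l : V → V → ℕ} {v u : V} (h : T.Adj v u)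
    (hvy : cy (rf G) h = y) (hlt : l u v < l v u)
    (hle : ∀ g ∈ K, g • v = v → g ∈ commensurator (Es G v u)) (hEK : Es G v u ≤ K)
    (hone : ∀ (u' : V) (h' : T.Adj v u'), cy (rf G) h' = y → l u' v < l v u' →
      ∃ g ∈ K, g • v = v ∧ g • u = u')
    (hvis : CenVis C (Es G v u) (MulAction.stabilizer G v ⊓ commensurator (Es G v u))) :
    ∃ R : Subgroup G, Loc C K R y l v := by
  obtain ⟨P, Q, _, _, f0, q, hQ, hinj, hcen, hq⟩ := hvis
  obtain ⟨M, hM⟩ : ∃ M : Subgroup G, M = K ⊓ MulAction.stabilizer G v := ⟨_, rfl⟩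
  have hML : M ≤ MulAction.stabilizer G v ⊓ commensurator (Es G v u) := by
    rw [hM]
    rintro g ⟨hg, hgv⟩
    exact ⟨hgv, hle g hg hgv⟩
  have hEM : Es G v u ≤ M := by
    rw [hM]
    exact fun e he => ⟨hEK he, he.1⟩
  obtain ⟨f, hf⟩ : ∃ f : M →* P, f = f0.comp (inclusion hML) := ⟨_, rfl⟩
  have hinj' : ∀ x : M, (x : G) ∈ Es G v u → f x = 1 → (x : G) = 1 := by
    intro x hx h1
    rw [hf] at h1
    have h2 := hinj (inclusion hML x) hx h1
    exact congrArg Subtype.val h2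
  have hcen' : ∀ x m : M, (x : G) ∈ Es G v u → f x * f m = f m * f x := by
    intro x m hx
    rw [hf]
    exact hcen (inclusion hML x) (inclusion hML m) hx
  have hq' : ∀ m : M, q (f m) = 1 ↔ ∃ x : M, (x : G) ∈ Es G v u ∧ f m = f x := by
    intro m
    rw [hf]
    refine (hq (inclusion hML m)).trans ⟨?_, ?_⟩
    · rintro ⟨x, hx, h1⟩
      exact ⟨⟨x, hEM hx⟩, hx, h1⟩
    · rintro ⟨x, hx, h1⟩
      exact ⟨inclusion hML x, hx, h1⟩
  have hmem : ∀ g, g ∈ K → g • v = v → g ∈ M := by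
    intro g hg hgv
    rw [hM]
    exact ⟨hg, hgv⟩
  have hMv : ∀ g ∈ M, g • v = v := fun g hg => by
    rw [hM] at hg
    exact hg.2
  -- conjugates in the edge group
  have hconj : ∀ (u' : V) (h' : T.Adj v u'), cy (rf G) h' = y → l u' v < l v u' →
      ∃ g1 : M, ∀ x : M, (x : G) • u' = u' → ((g1⁻¹ * x * g1 : M) : G) ∈ Es G v u := by
    intro u' h' hy' hlt'
    obtain ⟨g, hg, hgv, hgu⟩ := hone u' h' hy' hlt'
    refine ⟨⟨g, hmem g hg hgv⟩, fun x hx => ?_⟩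
    refine ⟨?_, ?_⟩
    · show (g⁻¹ * (x : G) * g) • v = v
      rw [mul_smul, mul_smul, hgv, hMv x x.2, inv_smul_eq_iff, hgv]
    · show (g⁻¹ * (x : G) * g) • u = u
      rw [mul_smul, mul_smul, hgu, hx, inv_smul_eq_iff, hgu]
  have hfe : ∀ (g1 x : M), ((g1⁻¹ * x * g1 : M) : G) ∈ Es G v u → f x = f (g1⁻¹ * x * g1) := by
    intro g1 x hx
    have h2 := hcen' _ g1 hx
    calc f x = f g1 * f (g1⁻¹ * x * g1) * (f g1)⁻¹ := by
          simp only [map_mul, map_inv]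
          group
      _ = f (g1⁻¹ * x * g1) := by rw [← h2, mul_inv_cancel_right]
  subst hM
  refine ⟨(f.ker).map (Subgroup.subtype _), ?_, ?_, ?_, ?_, ?_⟩
  · rintro _ ⟨x, -, rfl⟩
    exact x.2
  · rintro g hg hgv _ ⟨x, hx, rfl⟩
    refine ⟨⟨g, hmem g hg hgv⟩ * x * ⟨g, hmem g hg hgv⟩⁻¹, ?_, rfl⟩
    exact (inferInstance : f.ker.Normal).conj_mem x hx _
  · rintro u' h' hy' hlt' _ ⟨x, hx, rfl⟩ hxu
    obtain ⟨g1, hg1⟩ := hconj u' h' hy' hlt'
    have h1 := hg1 x hxu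
    have h2 : f (g1⁻¹ * x * g1) = 1 := by
      rw [← hfe g1 x h1]
      exact hx
    have h3 := hinj' _ h1 h2
    push_cast at h3
    show (x : G) = 1
    calc (x : G) = (g1 : G) * ((g1 : G)⁻¹ * x * g1) * (g1 : G)⁻¹ := by group
      _ = 1 := by rw [h3, mul_one, mul_inv_cancel]
  · intro u' h' hy' hlt' g hg hgv x hx hxv hxu
    obtain ⟨g1, hg1⟩ := hconj u' h' hy' hlt'
    have h1 := hg1 ⟨x, hmem x hx hxv⟩ hxu
    refine ⟨⁅(⟨g, hmem g hg hgv⟩ : ↥(K ⊓ MulAction.stabilizer G v)),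
      (⟨x, hmem x hx hxv⟩ : ↥(K ⊓ MulAction.stabilizer G v))⁆, ?_, rfl⟩
    rw [SetLike.mem_coe, MonoidHom.mem_ker, map_commutatorElement,
      commutatorElement_eq_one_iff_mul_comm, hfe g1 _ h1]
    exact (hcen' _ _ h1).symm
  · intro _ _ _ _
    refine ⟨Q, inferInstance, q.comp f, hQ, fun x => ?_⟩
    show q (f x) = 1 ↔ _
    rw [hq']
    constructor
    · rintro ⟨e, he, h1⟩
      refine ⟨(x : G) * (e : G)⁻¹, ⟨x * e⁻¹, ?_, rfl⟩, e, u, h, hvy, hlt, he.1, he.2, ?_⟩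
      · rw [SetLike.mem_coe, MonoidHom.mem_ker, map_mul, map_inv, h1, mul_inv_cancel]
      · rw [inv_mul_cancel_right]
    · rintro ⟨_, ⟨r, hr, rfl⟩, e, u', h', hy', hlt', hev, heu, hx⟩
      obtain ⟨g1, hg1⟩ := hconj u' h' hy' hlt'
      have he : e = (r : G)⁻¹ * (x : G) := by
        rw [hx]
        exact (inv_mul_cancel_left _ _).symm
      have h1 := hg1 (r⁻¹ * x) (by
        show ((r : G)⁻¹ * (x : G)) • u' = u'
        rw [← he]
        exact heu)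
      refine ⟨_, h1, ?_⟩
      rw [← hfe g1 _ h1, map_mul, map_inv, MonoidHom.mem_ker.1 hr, inv_one, one_mul]

end Pool.Agent.U709.Lv
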