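import Pool.Agent.U709.VcI

/-!
# Examples of balanced groups
-/

set_option autoImplicit false

namespace Pool.Agent.U709.Vc

open Subgroup

variable {G : Type} [Group G]

/-- enough to consider the finitely generated subgroups -/
theorem bal_fg (h : ∀ H : Subgroup G, Group.FG H → Bal H) : Bal G := by
  classical
  intro z g hz m n h1
  let H : Subgroup G := closure {z, g}
  have hzH : z ∈ H := subset_closure (by simp)
  have hgH : g ∈ H := subset_closure (by simp)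
  refine h H ((Group.fg_iff_subgroup_fg H).2 ⟨({z, g} : Finset G), by simp [H]⟩) ⟨z, hzH⟩ ⟨g, hgH⟩ (hz.sub hzH)
    m n (Subtype.ext ?_)
  push_cast
  exact h1

theorem pow_zpow' (z : G) (e : ℕ) (i : ℤ) : (z ^ e) ^ i = (z ^ i) ^ (e : ℤ) := by
  rw [← zpow_natCast, ← zpow_mul, ← zpow_mul, mul_comm]

theorem conj_iter {z g : G} {m n : ℤ} (h : g * z ^ m * g⁻¹ = z ^ n) (k : ℕ) :
    g ^ k * z ^ (m ^ k) * (g ^ k)⁻¹ = z ^ (n ^ k) := by
  induction k with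
  | zero => simp
  | succ k ih =>
    calc g ^ (k + 1) * z ^ (m ^ (k + 1)) * (g ^ (k + 1))⁻¹
        = g * (g ^ k * z ^ (m ^ k) * (g ^ k)⁻¹) ^ m * g⁻¹ := by
          rw [conj_zpow, ← zpow_mul, pow_succ m, pow_succ']
          group
      _ = (g * z ^ m * g⁻¹) ^ (n ^ k) := by
          rw [ih, ← zpow_mul, mul_comm, zpow_mul, conj_zpow]
      _ = z ^ (n ^ (k + 1)) := by rw [h, ← zpow_mul, ← pow_succ']

theorem pow_abs_inj {m n : ℤ} {k : ℕ} (hk : k ≠ 0) (h : m ^ k = n ^ k ∨ m ^ k = -n ^ k) :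
    m = n ∨ m = -n := by
  have h1 : |m| ^ k = |n| ^ k := by
    rw [← abs_pow, ← abs_pow]
    rcases h with h | h
    · rw [h]
    · rw [h, abs_neg]
  exact abs_eq_abs.1 ((pow_left_inj₀ (abs_nonneg m) (abs_nonneg n) hk).1 h1)

/-- overgroups of finite index -/
theorem bal_index (H : Subgroup G) (hH : H.FiniteIndex) (h : Bal H) : Bal G := by
  intro z g hz m n h1
  obtain ⟨k, hk, -, hgk⟩ := exists_pow_mem_of_index_ne_zero hH.index_ne_zero g
  obtain ⟨e, he, -, hze⟩ := exists_pow_mem_of_index_ne_zero hH.index_ne_zero z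
  refine pow_abs_inj hk.ne' (h ⟨z ^ e, hze⟩ ⟨g ^ k, hgk⟩ ((hz.pow he.ne').sub hze) _ _
    (Subtype.ext ?_))
  push_cast
  have h2 := conj_iter h1 k
  calc g ^ k * (z ^ e) ^ (m ^ k) * (g ^ k)⁻¹ = (g ^ k * z ^ (m ^ k) * (g ^ k)⁻¹) ^ (e : ℤ) := by
        rw [conj_zpow, pow_zpow']
    _ = (z ^ e) ^ (n ^ k) := by rw [h2, pow_zpow']

/-- products -/
theorem bal_prod {H : Type} [Group H] (hG : Bal G) (hH : Bal H) : Bal (G × H) := by
  rintro ⟨z, w⟩ ⟨g, h⟩ hz m n h1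
  have h2 : g * z ^ m * g⁻¹ = z ^ n := congrArg Prod.fst h1
  have h3 : h * w ^ m * h⁻¹ = w ^ n := congrArg Prod.snd h1
  by_cases hzi : Inf z
  · exact hG z g hzi m n h2
  by_cases hwi : Inf w
  · exact hH w h hwi m n h3
  exfalso
  unfold Inf at hzi hwi
  push Not at hzi hwi
  obtain ⟨a, ha, ha1⟩ := hzi
  obtain ⟨b, hb, hb1⟩ := hwi
  refine hz (a * b) (Nat.mul_ne_zero ha hb) ?_
  rw [Prod.pow_mk, Prod.mk_eq_one, pow_mul, ha1, one_pow, mul_comm, pow_mul, hb1, one_pow]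
  exact ⟨rfl, rfl⟩

/-- real length functions -/
theorem bal_of_real (ℓ : G → ℝ) (h1 : ∀ x, Inf x → ℓ x ≠ 0)
    (h2 : ∀ (x : G) (m : ℤ), Inf x → m ≠ 0 → ℓ (x ^ m) = |(m : ℝ)| * ℓ x)
    (h3 : ∀ g x, Inf x → ℓ (g * x * g⁻¹) = ℓ x) : Bal G := by
  intro z g hz m n h
  by_cases hm : m = 0
  · exact Or.inl (bal_zero hz h (Or.inl hm))
  by_cases hn : n = 0
  · exact Or.inl (bal_zero hz h (Or.inr hn))
  have h4 := h3 g (z ^ m) (hz.zpow hm)
  rw [h, h2 z m hz hm, h2 z n hz hn] at h4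
  have h5 := mul_right_cancel₀ (h1 z hz) h4
  rcases abs_eq_abs.1 h5 with h6 | h6
  · left
    exact_mod_cast h6.symm
  · right
    have h7 : (m : ℝ) = -n := by rw [h6, neg_neg]
    exact_mod_cast h7

/-- **orders in finite quotients** -/
theorem bal_of_orders (h : ∀ p : ℕ, p.Prime → ∀ z : G, Inf z → ∃ e : ℕ, e ≠ 0 ∧ ∀ s : ℕ,
    ∃ (Q : Type) (_ : Group Q) (f : G →* Q) (t : ℕ), s ≤ t ∧ orderOf (f (z ^ e)) = p ^ t) :
    Bal G := by
  intro z g hz m n h1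
  have key : ∀ p k : ℕ, p.Prime → (((p ^ k : ℕ) : ℤ) ∣ m ↔ ((p ^ k : ℕ) : ℤ) ∣ n) := by
    intro p k hp
    obtain ⟨e, he, h2⟩ := h p hp z hz
    obtain ⟨Q, _, f, t, hkt, hord⟩ := h2 k
    have h3 : g * (z ^ e) ^ m * g⁻¹ = (z ^ e) ^ n := by
      calc g * (z ^ e) ^ m * g⁻¹ = (g * z ^ m * g⁻¹) ^ (e : ℤ) := by
            rw [conj_zpow, pow_zpow']
        _ = (z ^ e) ^ n := by rw [h1, pow_zpow']
    have h4 : ∀ i : ℤ, ((p ^ k : ℕ) : ℤ) ∣ i ↔ f (z ^ e) ^ (i * (p ^ (t - k) : ℕ)) = 1 := by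
      intro i
      rw [← orderOf_dvd_iff_zpow_eq_one, hord]
      have h5 : (p ^ t : ℕ) = p ^ k * p ^ (t - k) := by
        rw [← pow_add]
        congr 1
        omega
      rw [h5, Nat.cast_mul]
      refine (mul_dvd_mul_iff_right ?_).symm
      exact_mod_cast (pow_pos hp.pos _).ne'
    have h6 : f (z ^ e) ^ n = f g * f (z ^ e) ^ m * (f g)⁻¹ := by
      rw [← map_zpow, ← h3, map_mul, map_mul, map_inv, map_zpow]
    rw [h4, h4, zpow_mul, zpow_mul, h6, conj_zpow, mul_inv_eq_one, mul_eq_left]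
  have h2 : m.natAbs = n.natAbs := by
    refine Nat.dvd_antisymm ?_ ?_
    · rw [Nat.dvd_iff_prime_pow_dvd_dvd]
      intro p k hp h3
      have h4 := (key p k hp).1 (Int.natCast_dvd.2 h3)
      exact Int.natCast_dvd.1 h4
    · rw [Nat.dvd_iff_prime_pow_dvd_dvd]
      intro p k hp h3
      have h4 := (key p k hp).2 (Int.natCast_dvd.2 h3)
      exact Int.natCast_dvd.1 h4
  exact Int.natAbs_eq_natAbs_iff.1 h2

end Pool.Agent.U709.Vc
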