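import Pool.Agent.U709.LvD
import Pool.Agent.U709.VcJ

/-!
# Levels on trees: groups with centrally visible cyclic subgroups
-/

set_option autoImplicit false

namespace Pool.Agent.U709.Lv

open SimpleGraph
open scoped commutatorElement Pointwise
open Subgroup
open Subgroup.Commensurable (commensurator)
open Pool.Agent.Y110.FJ
open Pool.Agent.N431.CE (Es mem_Es Es_comm Es_smul)
open Pool.Agent.U385.FJ
open Pool.Agent.U709.Vc (Inf Zc Bal)
open Pool.Agent.U709.Cy (UN TN RTN)

variable {C : ∀ (G : Type) [Group G], Prop}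
variable {G : Type} [Group G]

/-- the infinite cyclic subgroups are centrally visible in their commensurators -/
def CV (C : ∀ (G : Type) [Group G], Prop) (B : Type) [Group B] : Prop :=
  ∀ z : B, Inf z → CenVis C (zpowers z) (commensurator (zpowers z))

theorem CenVis.of_hom {H : Type} [Group H] {E M : Subgroup G} {E' M' : Subgroup H}
    (h : CenVis C E M) (j : M' →* M) (hj : ∀ x : M', (x : H) ∈ E' → j x = 1 → x = 1)
    (hE : ∀ x : M', (x : H) ∈ E' → ((j x : M) : G) ∈ E)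
    (hE2 : ∀ e : M, (e : G) ∈ E → ∃ x : M', (x : H) ∈ E' ∧ j x = e) : CenVis C E' M' := by
  obtain ⟨P, Q, _, _, f, q, hQ, hinj, hcen, hq⟩ := h
  refine ⟨P, Q, _, _, f.comp j, q, hQ, fun x hx h1 => hj x hx (hinj _ (hE x hx) h1),
    fun x m hx => hcen _ _ (hE x hx), fun m => (hq (j m)).trans ⟨?_, ?_⟩⟩
  · rintro ⟨e, he, h1⟩
    obtain ⟨x, hx, rfl⟩ := hE2 e he
    exact ⟨x, hx, h1⟩
  · rintro ⟨x, hx, h1⟩
    exact ⟨j x, hE x hx, h1⟩

theorem Inf.infinite {z : G} (hz : Inf z) : Infinite (zpowers z) := by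
  refine Infinite.of_injective (fun k : ℤ => (⟨z ^ k, k, rfl⟩ : zpowers z)) ?_
  intro i j h
  exact hz.zpow_inj (congrArg Subtype.val h)

theorem cyc_zpowers (z : G) : IsCyclic (zpowers z) :=
  isCyclic_iff_exists_zpowers_eq_top.2 ⟨⟨z, mem_zpowers z⟩, by
    rw [eq_top_iff]
    rintro ⟨_, k, rfl⟩ -
    exact ⟨k, Subtype.ext (by simp)⟩⟩

theorem conj_zpowers (g z : G) : ConjAct.toConjAct g • zpowers z = zpowers (g * z * g⁻¹) := by
  ext x
  rw [Subgroup.mem_smul_pointwise_iff_exists]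
  constructor
  · rintro ⟨_, ⟨k, rfl⟩, rfl⟩
    refine ⟨k, ?_⟩
    show (g * z * g⁻¹) ^ k = ConjAct.toConjAct g • z ^ k
    rw [ConjAct.smul_def, ConjAct.ofConjAct_toConjAct, conj_zpow]
  · rintro ⟨k, rfl⟩
    refine ⟨z ^ k, ⟨k, rfl⟩, ?_⟩
    show ConjAct.toConjAct g • z ^ k = (g * z * g⁻¹) ^ k
    rw [ConjAct.smul_def, ConjAct.ofConjAct_toConjAct, conj_zpow]

/-- elements of the commensurator of an infinite cyclic group -/
theorem mem_comm_iff {z g : G} (hz : Inf z) : g ∈ commensurator (zpowers z) ↔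
    ∃ m n : ℤ, m ≠ 0 ∧ n ≠ 0 ∧ g * z ^ m * g⁻¹ = z ^ n := by
  rw [Commensurable.commensurator_mem_iff, conj_zpowers]
  have hg : Inf (g * z * g⁻¹) := hz.conj g
  constructor
  · rintro ⟨-, h⟩
    obtain ⟨m, hm, -, hmem⟩ := Subgroup.exists_pow_mem_of_relIndex_ne_zero h (mem_zpowers (g * z * g⁻¹))
    obtain ⟨n, hn⟩ := hmem.1
    have hn : z ^ n = (g * z * g⁻¹) ^ m := hn
    refine ⟨m, n, by exact_mod_cast hm.ne', ?_, ?_⟩
    · rintro rfl
      rw [zpow_zero] at hn
      exact hg m hm.ne' hn.symm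
    · rw [hn, ← conj_zpow, zpow_natCast]
  · rintro ⟨m, n, hm, hn, h⟩
    have := Inf.infinite hg
    rcases cyc_iso (cyc_zpowers (g * z * g⁻¹)) (cyc_zpowers z) this with h1 | h1
    · exact h1
    · exfalso
      have h2 : z ^ n ∈ zpowers (g * z * g⁻¹) ⊓ zpowers z := by
        refine ⟨⟨m, ?_⟩, ⟨n, rfl⟩⟩
        show (g * z * g⁻¹) ^ m = z ^ n
        rw [← h, conj_zpow]
      rw [h1, mem_bot] at h2
      exact hn (hz.zpow_inj (h2.trans (zpow_zero z).symm))

theorem le_comm {z : G} (hz : Inf z) : zpowers z ≤ commensurator (zpowers z) := by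
  rintro _ ⟨k, rfl⟩
  rw [mem_comm_iff hz]
  refine ⟨1, 1, one_ne_zero, one_ne_zero, ?_⟩
  show z ^ k * z ^ (1 : ℤ) * (z ^ k)⁻¹ = z ^ (1 : ℤ)
  group

/-- homomorphisms which preserve the infinite order -/
theorem CV.of_res {B : Type} [Group B] (h : ∀ z : B, Inf z → ∃ (B' : Type) (_ : Group B')
    (π : B →* B'), CV C B' ∧ Inf (π z)) : CV C B := by
  intro z hz
  obtain ⟨B', _, π, hB', hz'⟩ := h z hz
  have hmem : ∀ x ∈ commensurator (zpowers z), π x ∈ commensurator (zpowers (π z)) := by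
    intro x hx
    rw [mem_comm_iff hz] at hx
    obtain ⟨m, n, hm, hn, h1⟩ := hx
    rw [mem_comm_iff hz']
    refine ⟨m, n, hm, hn, ?_⟩
    rw [← map_zpow, ← map_inv, ← map_mul, ← map_mul, h1, map_zpow]
  refine (hB' (π z) hz').of_hom ((π.comp (Subgroup.subtype _)).codRestrict _
    fun x => hmem x x.2) ?_ ?_ ?_
  · rintro ⟨_, hx⟩ ⟨k, rfl⟩ h1
    have h2 : π (z ^ k) = 1 := congrArg Subtype.val h1
    have h3 : k = 0 := hz'.zpow_inj (by rw [← map_zpow, h2, zpow_zero])
    subst h3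
    exact Subtype.ext (zpow_zero z)
  · rintro ⟨_, hx⟩ ⟨k, rfl⟩
    exact ⟨k, (map_zpow π z k).symm⟩
  · rintro ⟨_, he⟩ ⟨k, rfl⟩
    exact ⟨⟨z ^ k, le_comm hz ⟨k, rfl⟩⟩, ⟨k, rfl⟩, Subtype.ext (map_zpow π z k)⟩

theorem CV.of_injective {B B' : Type} [Group B] [Group B'] (h : CV C B') (π : B →* B')
    (hπ : Function.Injective π) : CV C B :=
  CV.of_res fun _ hz => ⟨B', _, π, h, hz.of_inj π hπ⟩

theorem CV.prod {B B' : Type} [Group B] [Group B'] (h : CV C B) (h' : CV C B') : CV C (B × B') := by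
  refine CV.of_res fun z hz => ?_
  by_cases h1 : Inf z.1
  · exact ⟨B, _, MonoidHom.fst B B', h, h1⟩
  · refine ⟨B', _, MonoidHom.snd B B', h', fun m hm h2 => ?_⟩
    have h2 : z.2 ^ m = 1 := h2
    unfold Inf at h1
    push Not at h1
    obtain ⟨k, hk, h3⟩ := h1
    refine hz (k * m) (Nat.mul_ne_zero hk hm) (Prod.ext ?_ ?_)
    · show z.1 ^ (k * m) = 1
      rw [pow_mul, h3, one_pow]
    · show z.2 ^ (k * m) = 1
      rw [mul_comm, pow_mul, h2, one_pow]

/-- homomorphisms to solvable groups -/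
theorem cenVis_solv (hS : ∀ (G : Type) [Group G], Group.IsSolvable G → C G) {E M : Subgroup G}
    {P : Type} [Group P] (hP : Group.IsSolvable P) (f : M →* P)
    (hinj : ∀ x : M, (x : G) ∈ E → f x = 1 → x = 1)
    (hcen : ∀ x m : M, (x : G) ∈ E → f x * f m = f m * f x) : CenVis C E M := by
  have hP' : Group.IsSolvable f.range := inferInstance
  obtain ⟨F, hF⟩ : ∃ F : Subgroup f.range, F = (E.subgroupOf M).map f.rangeRestrict := ⟨_, rfl⟩
  have hmF : ∀ m : M, f.rangeRestrict m ∈ F ↔ ∃ x : M, (x : G) ∈ E ∧ f m = f x := by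
    intro m
    rw [hF]
    constructor
    · rintro ⟨x, hx, h1⟩
      exact ⟨x, hx, (congrArg Subtype.val h1).symm⟩
    · rintro ⟨x, hx, h1⟩
      exact ⟨x, hx, Subtype.ext h1.symm⟩
  have hN : F.Normal := by
    refine ⟨fun a ha b => ?_⟩
    obtain ⟨m, rfl⟩ := f.rangeRestrict_surjective a
    obtain ⟨k, rfl⟩ := f.rangeRestrict_surjective b
    rw [← map_inv, ← map_mul, ← map_mul, hmF]
    obtain ⟨x, hx, h1⟩ := (hmF m).1 ha
    refine ⟨x, hx, ?_⟩
    rw [map_mul, map_mul, map_inv, h1, ← hcen x k hx, mul_inv_cancel_right]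
  refine ⟨f.range, f.range ⧸ F, inferInstance, inferInstance, f.rangeRestrict, QuotientGroup.mk' F,
    hS _ inferInstance, fun x hx h1 => hinj x hx (congrArg Subtype.val h1),
    fun x m hx => Subtype.ext (hcen x m hx), fun m => ?_⟩
  refine (QuotientGroup.eq_one_iff _).trans ((hmF m).trans ?_)
  constructor
  · rintro ⟨x, hx, h1⟩
    exact ⟨x, hx, Subtype.ext h1⟩
  · rintro ⟨x, hx, h1⟩
    exact ⟨x, hx, congrArg Subtype.val h1⟩

/-- elements become central in quotients -/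
theorem tn_cent (c : ℕ) : ∀ (N : Type) [Group N], UN c N → ∀ x : N, x ≠ 1 →
    ∃ (P : Type) (_ : Group P) (g : N →* P), (∃ d, UN d P) ∧ g x ≠ 1 ∧ ∀ y : P, g x * y = y * g x := by
  induction c with
  | zero =>
    intro N _ h x hx
    refine absurd ?_ hx
    have h1 : x ∈ Subgroup.upperCentralSeries N 0 := by
      rw [h.2]
      trivial
    rwa [Subgroup.upperCentralSeries_zero, mem_bot] at h1
  | succ c ih =>
    intro N _ h x hx
    by_cases hc : x ∈ center N
    · exact ⟨N, _, MonoidHom.id N, ⟨c + 1, h⟩, hx, fun y => ((mem_center_iff.1 hc) y).symm⟩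
    · obtain ⟨P, _, g, hP, hg, hgc⟩ := ih (N ⧸ center N) h.quot (QuotientGroup.mk x)
        (fun h1 => hc ((QuotientGroup.eq_one_iff x).1 h1))
      exact ⟨P, _, g.comp (QuotientGroup.mk' _), hP, hg, hgc⟩

theorem cv_un (hS : ∀ (G : Type) [Group G], Group.IsSolvable G → C G) {c : ℕ} {N : Type} [Group N]
    (hN : UN c N) : CV C N := by
  intro z hz
  have hz1 : z ≠ 1 := fun h => hz 1 one_ne_zero (by rw [h, one_pow])
  obtain ⟨P, _, g, ⟨d, hd⟩, hg, hgc⟩ := tn_cent c N hN z hz1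
  have hnil : Group.IsNilpotent P := ⟨⟨d, hd.2⟩⟩
  refine cenVis_solv hS (P := P) inferInstance (g.comp (Subgroup.subtype _)) ?_ ?_
  · rintro ⟨_, hx⟩ ⟨k, rfl⟩ h1
    have h2 : g (z ^ k) = 1 := h1
    rw [map_zpow] at h2
    have h3 : k = 0 := by
      by_contra hk
      have h4 : g z ^ k.natAbs = 1 := by
        rcases Int.natAbs_eq k with h5 | h5
        · rw [h5, zpow_natCast] at h2
          exact h2
        · rw [h5, zpow_neg, zpow_natCast, inv_eq_one] at h2
          exact h2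
      exact hg (hd.1 (g z) 1 k.natAbs (Int.natAbs_ne_zero.2 hk) (by rw [h4, one_pow]))
    subst h3
    exact Subtype.ext (zpow_zero z)
  · rintro ⟨_, hx⟩ ⟨m, hm⟩ ⟨k, rfl⟩
    show g (z ^ k) * g m = g m * g (z ^ k)
    rw [map_zpow]
    exact (Commute.zpow_left (show Commute (g z) (g m) from hgc (g m)) k)

/-- residually torsion-free nilpotent groups -/
theorem cv_rtn (hS : ∀ (G : Type) [Group G], Group.IsSolvable G → C G) {B : Type} [Group B]
    (hB : RTN B) : CV C B := by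
  refine CV.of_res fun z hz => ?_
  have hz1 : z ≠ 1 := fun h => hz 1 one_ne_zero (by rw [h, one_pow])
  obtain ⟨N, _, f, hN, hf⟩ := hB z hz1
  obtain ⟨c, hc⟩ := hN.un
  exact ⟨N, _, f, cv_un hS hc, fun m hm h => hf (hN.2 _ m hm h)⟩

/-- groups in which the commensurators of the infinite cyclic groups are their centralizers -/
theorem cv_zc {B : Type} [Group B] (hB : Zc C B)
    (h : ∀ (z g : B) (m n : ℤ), Inf z → m ≠ 0 → g * z ^ m * g⁻¹ = z ^ n → g * z = z * g) : CV C B := by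
  intro z hz
  obtain ⟨Q, _, q, hQ, hq⟩ := hB.2 z hz
  have hle : commensurator (zpowers z) ≤ centralizer {z} := by
    intro g hg
    rw [mem_comm_iff hz] at hg
    obtain ⟨m, n, hm, -, h1⟩ := hg
    rw [mem_centralizer_singleton_iff]
    exact h z g m n hz hm h1
  refine ⟨_, Q, inferInstance, inferInstance, MonoidHom.id _, q.comp (inclusion hle), hQ,
    fun x _ h1 => h1, fun x m hx => ?_, fun m => (hq (inclusion hle m)).trans ⟨fun h1 => ⟨m, h1, rfl⟩, ?_⟩⟩
  · obtain ⟨k, hk⟩ := hx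
    apply Subtype.ext
    show (x : B) * m = m * x
    have h1 : z * (m : B) = m * z := ((mem_centralizer_singleton_iff.1 (hle m.2))).symm
    rw [← hk]
    exact (Commute.zpow_left (show Commute z (m : B) from h1) k)
  · rintro ⟨x, hx, h1⟩
    have h1 : m = x := h1
    rw [h1]
    exact hx

/-- unique roots and balance -/
theorem cv_ur {B : Type} [Group B] (hB : Zc C B) (hb : Bal B)
    (hu : ∀ (x y : B) (m : ℕ), m ≠ 0 → x ^ m = y ^ m → x = y) : CV C B := by
  refine cv_zc hB fun z g m n hz hm h => ?_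
  have hroot : ∀ (x y : B) (m : ℤ), m ≠ 0 → x ^ m = y ^ m → x = y := by
    intro x y m hm hxy
    refine hu x y m.natAbs (Int.natAbs_ne_zero.2 hm) ?_
    rcases Int.natAbs_eq m with h5 | h5
    · rw [h5, zpow_natCast, zpow_natCast] at hxy
      exact hxy
    · rw [h5, zpow_neg, zpow_neg, zpow_natCast, zpow_natCast, inv_inj] at hxy
      exact hxy
  have h1 : (g * z * g⁻¹) ^ m = z ^ n := by rw [conj_zpow, h]
  rcases hb z g hz m n h with rfl | h2
  · have h3 := hroot _ _ m hm h1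
    calc g * z = g * z * g⁻¹ * g := by group
      _ = z * g := by rw [h3]
  · exfalso
    have h3 : g * z * g⁻¹ = z⁻¹ := by
      refine hroot _ _ m hm ?_
      rw [h1, h2, inv_zpow, zpow_neg, inv_inv]
    have h4 : (g * z) ^ 2 = g ^ 2 := by
      have h5 : z * g * z = g := by
        have h6 : g * z = z⁻¹ * g := by
          calc g * z = g * z * g⁻¹ * g := by group
            _ = z⁻¹ * g := by rw [h3]
        calc z * g * z = z * (g * z) := by group
          _ = g := by rw [h6]; group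
      calc (g * z) ^ 2 = g * (z * g * z) := by rw [pow_two]; group
        _ = g ^ 2 := by rw [h5, pow_two]
    have h5 := hu _ _ 2 two_ne_zero h4
    have h6 : z = 1 := by
      calc z = g⁻¹ * (g * z) := by group
        _ = 1 := by rw [h5, inv_mul_cancel]
    exact hz 1 one_ne_zero (by rw [h6, one_pow])

end Pool.Agent.U709.Lv
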