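import Pool.Agent.U709.VcG
import Pool.Agent.U709.CyD

/-!
# Balanced amalgams and HNN extensions
-/

set_option autoImplicit false

namespace Pool.Agent.U709.Vc

open SimpleGraph
open Subgroup
open Pool.Agent.Y110.FJ
open Pool.Agent.N509.TX (AcylF)
open Pool.Agent.N431.CE (Es mem_Es Es_comm Es_smul)
open Pool.Agent.Helper270.Tree (TreeAct IsAxis exists_geod)
open Pool.Agent.Helper705_SA (IsAmalgam cosetGraph cosetGraph_isTree stab_coset)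

variable {C : ∀ (G : Type) [Group G], Prop}
variable {G : Type} [Group G]

/-- elements of infinite order in a subgroup -/
theorem Inf.sub {A : Subgroup G} {x : G} (h : Inf x) (hx : x ∈ A) : Inf (⟨x, hx⟩ : A) :=
  fun m hm h1 => h m hm (congrArg Subtype.val h1)

/-- the length function on the stabilizers of the points of `G ⧸ A` -/
noncomputable def cosLen (A : Subgroup G) (ℓ : A → ℚ) (q : G ⧸ A) (x : G) : ℚ := by
  classical
  exact if h : q.out⁻¹ * x * q.out ∈ A then ℓ ⟨_, h⟩ else 0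

theorem cosLen_mk {A : Subgroup G} {ℓ : A → ℚ} (hℓ : IsLen ℓ) (g x : G) (hx : g⁻¹ * x * g ∈ A)
    (hinf : Inf x) : cosLen A ℓ (QuotientGroup.mk g) x = ℓ ⟨g⁻¹ * x * g, hx⟩ := by
  classical
  obtain ⟨k, hk⟩ : ∃ k : G, k = (QuotientGroup.mk g : G ⧸ A).out := ⟨_, rfl⟩
  have h1 : (QuotientGroup.mk k : G ⧸ A) = QuotientGroup.mk g := by
    rw [hk]
    exact Quotient.out_eq' _
  have h2 : k⁻¹ * g ∈ A := QuotientGroup.eq.1 h1
  have h3 : k⁻¹ * x * k = (k⁻¹ * g) * (g⁻¹ * x * g) * (k⁻¹ * g)⁻¹ := by group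
  have h4 : k⁻¹ * x * k ∈ A := by
    rw [h3]
    exact mul_mem (mul_mem h2 hx) (inv_mem h2)
  have h5 : cosLen A ℓ (QuotientGroup.mk g) x = ℓ ⟨k⁻¹ * x * k, h4⟩ := by
    subst hk
    exact dif_pos h4
  have h6 : Inf (⟨g⁻¹ * x * g, hx⟩ : A) := by
    refine Inf.sub ?_ hx
    have h7 := hinf.conj g⁻¹
    rwa [inv_inv] at h7
  rw [h5, ← hℓ.conj ⟨k⁻¹ * g, h2⟩ _ h6]
  exact congrArg ℓ (Subtype.ext h3)

theorem smul_mk {A : Subgroup G} {g x : G} :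
    x • (QuotientGroup.mk g : G ⧸ A) = QuotientGroup.mk g ↔ g⁻¹ * x * g ∈ A := by
  rw [← MulAction.mem_stabilizer_iff, stab_coset, mem_map]
  constructor
  · rintro ⟨a, ha, rfl⟩
    have : g⁻¹ * (MulAut.conj g).toMonoidHom a * g = a := by
      show g⁻¹ * (g * a * g⁻¹) * g = a
      group
    rwa [this]
  · intro h
    refine ⟨_, h, ?_⟩
    show g * (g⁻¹ * x * g) * g⁻¹ = x
    group

theorem cosLen_pos {A : Subgroup G} {ℓ : A → ℚ} (hℓ : IsLen ℓ) (q : G ⧸ A) (x : G)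
    (hx : x • q = q) (hinf : Inf x) : 0 < cosLen A ℓ q x := by
  obtain ⟨g, rfl⟩ := QuotientGroup.mk_surjective q
  have h1 := smul_mk.1 hx
  rw [cosLen_mk hℓ g x h1 hinf]
  refine hℓ.pos _ (Inf.sub ?_ h1)
  have h7 := hinf.conj g⁻¹
  rwa [inv_inv] at h7

theorem cosLen_zpow {A : Subgroup G} {ℓ : A → ℚ} (hℓ : IsLen ℓ) (q : G ⧸ A) (x : G) (m : ℤ)
    (hx : x • q = q) (hinf : Inf x) (hm : m ≠ 0) :
    cosLen A ℓ q (x ^ m) = |(m : ℚ)| * cosLen A ℓ q x := by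
  obtain ⟨g, rfl⟩ := QuotientGroup.mk_surjective q
  have h1 := smul_mk.1 hx
  have h2 : g⁻¹ * x ^ m * g = (g⁻¹ * x * g) ^ m := by
    have h3 := conj_zpow (i := m) (a := g⁻¹) (b := x)
    rw [inv_inv] at h3
    exact h3.symm
  have h3 : g⁻¹ * x ^ m * g ∈ A := by
    rw [h2]
    exact zpow_mem h1 m
  rw [cosLen_mk hℓ g x h1 hinf, cosLen_mk hℓ g _ h3 (hinf.zpow hm), ← hℓ.zpow _ m ?_ hm]
  · exact congrArg ℓ (Subtype.ext h2)
  · refine Inf.sub ?_ h1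
    have h7 := hinf.conj g⁻¹
    rwa [inv_inv] at h7

theorem cosLen_conj {A : Subgroup G} {ℓ : A → ℚ} (hℓ : IsLen ℓ) (k : G) (q : G ⧸ A) (x : G)
    (hx : x • q = q) (hinf : Inf x) : cosLen A ℓ (k • q) (k * x * k⁻¹) = cosLen A ℓ q x := by
  obtain ⟨g, rfl⟩ := QuotientGroup.mk_surjective q
  have h1 := smul_mk.1 hx
  have h2 : (k * g)⁻¹ * (k * x * k⁻¹) * (k * g) = g⁻¹ * x * g := by group
  have h3 : (k * g)⁻¹ * (k * x * k⁻¹) * (k * g) ∈ A := by rwa [h2]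
  have h4 : k • (QuotientGroup.mk g : G ⧸ A) = QuotientGroup.mk (k * g) := rfl
  rw [h4, cosLen_mk hℓ g x h1 hinf, cosLen_mk hℓ _ _ h3 (hinf.conj k)]
  exact congrArg ℓ (Subtype.ext h2)

/-- common powers in virtually cyclic groups -/
theorem common_pow {E : Subgroup G} (hE : VCyc E) {x y : G} (hx : x ∈ E) (hy : y ∈ E)
    (hxi : Inf x) (hyi : Inf y) : ∃ a b : ℤ, a ≠ 0 ∧ b ≠ 0 ∧ y ^ a = x ^ b := by
  obtain ⟨m, hm, -, hmem⟩ := exists_pow_mem_of_relIndex_ne_zero (vc_inf hE hx hxi) hy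
  obtain ⟨k, hk⟩ := hmem.1
  have hk : x ^ k = y ^ m := hk
  refine ⟨m, k, by exact_mod_cast hm.ne', ?_, by rw [zpow_natCast, hk]⟩
  rintro rfl
  rw [zpow_zero] at hk
  exact hyi m hm.ne' hk.symm

/-- two length functions on virtually cyclic subgroups can be compared on one element -/
theorem len_agree {A B : Subgroup G} {ℓ : A → ℚ} {ℓ' : B → ℚ} (h : IsLen ℓ) (h' : IsLen ℓ')
    (hE : VCyc (A ⊓ B : Subgroup G)) {x : G} (hxA : x ∈ A) (hxB : x ∈ B) (hx : Inf x)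
    (h1 : ℓ ⟨x, hxA⟩ = ℓ' ⟨x, hxB⟩) {y : G} (hyA : y ∈ A) (hyB : y ∈ B) (hy : Inf y) :
    ℓ ⟨y, hyA⟩ = ℓ' ⟨y, hyB⟩ := by
  obtain ⟨a, b, ha, hb, hab⟩ := common_pow hE (x := x) (y := y) ⟨hxA, hxB⟩ ⟨hyA, hyB⟩ hx hy
  have e1 : (⟨y, hyA⟩ : A) ^ a = (⟨x, hxA⟩ : A) ^ b := Subtype.ext (by push_cast; exact hab)
  have e2 : (⟨y, hyB⟩ : B) ^ a = (⟨x, hxB⟩ : B) ^ b := Subtype.ext (by push_cast; exact hab)
  have f1 := h.zpow _ a (hy.sub hyA) ha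
  have f2 := h'.zpow _ a (hy.sub hyB) ha
  rw [e1, h.zpow _ b (hx.sub hxA) hb] at f1
  rw [e2, h'.zpow _ b (hx.sub hxB) hb, ← h1, f1] at f2
  have h5 : |(a : ℚ)| ≠ 0 := abs_ne_zero.2 (by exact_mod_cast ha)
  exact mul_left_cancel₀ h5 f2

theorem coset_treeAct {A B : Subgroup G} (h : IsAmalgam A B) : TreeAct G (cosetGraph A B) where
  isTree := cosetGraph_isTree A B h
  adj := by
    rintro g v w ⟨k, ⟨rfl, rfl⟩ | ⟨rfl, rfl⟩⟩
    · exact ⟨g * k, Or.inl ⟨rfl, rfl⟩⟩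
    · exact ⟨g * k, Or.inr ⟨rfl, rfl⟩⟩
  noInv := by
    rintro g v w ⟨k, ⟨rfl, rfl⟩ | ⟨rfl, rfl⟩⟩ ⟨h1, h2⟩
    · cases h1
    · cases h1

/-- **amalgams of balanced groups over virtually cyclic groups are balanced** -/
theorem bal_amalgam {A B : Subgroup G} (h : IsAmalgam A B) (hE : VCyc (A ⊓ B : Subgroup G))
    (hA : Bal A) (hB : Bal B) : Bal G := by
  classical
  obtain ⟨ℓ, hℓ⟩ := hA.exists_len
  obtain ⟨ℓ0, hℓ0⟩ := hB.exists_len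
  obtain ⟨ℓ', hℓ', hag⟩ : ∃ ℓ' : B → ℚ, IsLen ℓ' ∧ ∀ (y : G) (hyA : y ∈ A) (hyB : y ∈ B), Inf y →
      ℓ ⟨y, hyA⟩ = ℓ' ⟨y, hyB⟩ := by
    by_cases hex : ∃ x : G, x ∈ A ∧ x ∈ B ∧ Inf x
    · obtain ⟨x, hxA, hxB, hx⟩ := hex
      have h1 := hℓ.pos _ (hx.sub hxA)
      have h2 := hℓ0.pos _ (hx.sub hxB)
      have h3 := hℓ0.scale (div_pos h1 h2)
      refine ⟨_, h3, fun y hyA hyB hy => len_agree hℓ h3 hE hxA hxB hx ?_ hyA hyB hy⟩
      rw [div_mul_cancel₀ _ h2.ne']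
    · push Not at hex
      exact ⟨ℓ0, hℓ0, fun y hyA hyB hy => absurd hy (hex y hyA hyB)⟩
  have hinl : ∀ (x : G) (q : G ⧸ A), x • (Sum.inl q : (G ⧸ A) ⊕ (G ⧸ B)) = Sum.inl q → x • q = q :=
    fun x q h => Sum.inl_injective h
  have hinr : ∀ (x : G) (q : G ⧸ B), x • (Sum.inr q : (G ⧸ A) ⊕ (G ⧸ B)) = Sum.inr q → x • q = q :=
    fun x q h => Sum.inr_injective h
  let L : (G ⧸ A) ⊕ (G ⧸ B) → G → ℚ := fun v x => Sum.elim (fun q => cosLen A ℓ q x)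
    (fun q => cosLen B ℓ' q x) v
  have hLl : ∀ q x, L (Sum.inl q) x = cosLen A ℓ q x := fun _ _ => rfl
  have hLr : ∀ q x, L (Sum.inr q) x = cosLen B ℓ' q x := fun _ _ => rfl
  have hedge : ∀ (g x : G), x • (QuotientGroup.mk g : G ⧸ A) = QuotientGroup.mk g →
      x • (QuotientGroup.mk g : G ⧸ B) = QuotientGroup.mk g → Inf x →
      cosLen A ℓ (QuotientGroup.mk g) x = cosLen B ℓ' (QuotientGroup.mk g) x := by
    intro g x h1 h2 hx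
    rw [cosLen_mk hℓ g x (smul_mk.1 h1) hx, cosLen_mk hℓ' g x (smul_mk.1 h2) hx]
    refine hag _ _ _ ?_
    have h7 := hx.conj g⁻¹
    rwa [inv_inv] at h7
  refine bal_tree (coset_treeAct h) L ?_ ?_ ?_ ?_
  · rintro (q | q) x hx hxi
    · exact cosLen_pos hℓ q x (hinl x q hx) hxi
    · exact cosLen_pos hℓ' q x (hinr x q hx) hxi
  · rintro (q | q) x m hx hxi hm
    · exact cosLen_zpow hℓ q x m (hinl x q hx) hxi hm
    · exact cosLen_zpow hℓ' q x m (hinr x q hx) hxi hm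
  · rintro g (q | q) x hx hxi
    · exact cosLen_conj hℓ g q x (hinl x q hx) hxi
    · exact cosLen_conj hℓ' g q x (hinr x q hx) hxi
  · rintro u v ⟨g, ⟨rfl, rfl⟩ | ⟨rfl, rfl⟩⟩ x hu hv hxi
    · exact hedge g x (hinl x _ hu) (hinr x _ hv) hxi
    · exact (hedge g x (hinl x _ hv) (hinr x _ hu) hxi).symm

end Pool.Agent.U709.Vc
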