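import Pool.Agent.U709.VcJ

/-!
# `GL_n(ℤ)` is balanced
-/

set_option autoImplicit false

namespace Pool.Agent.U709.Vc

open Subgroup

/-- a binomial expansion -/
theorem one_add_pow {R : Type} [Ring R] (X : R) (n : ℕ) :
    ∃ Z : R, (1 + X) ^ n = 1 + (n : R) * X + X * X * Z := by
  induction n with
  | zero => exact ⟨0, by simp⟩
  | succ n ih =>
    obtain ⟨Z, hZ⟩ := ih
    refine ⟨(n : R) + Z * (1 + X), ?_⟩
    have h1 : (n : R) * X = X * (n : R) := (Nat.cast_commute n X).eq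
    rw [pow_succ, hZ, Nat.cast_succ, add_mul, add_mul, mul_add, mul_one, one_mul, add_mul, one_mul,
      mul_add (X * X), mul_assoc (X * X) Z, h1]
    rw [show X * (n : R) * (1 + X) = X * (n : R) + X * X * (n : R) by
      rw [mul_add, mul_one, mul_assoc X (n : R) X, h1, mul_assoc]]
    abel

variable {n : ℕ}

theorem level_pow (p : ℕ) (w Y : Matrix (Fin n) (Fin n) ℤ) (h : w = 1 + (p : ℤ) • Y) (j : ℕ) :
    ∃ Z : Matrix (Fin n) (Fin n) ℤ, w ^ (p ^ j) = 1 + ((p ^ (j + 1) : ℕ) : ℤ) • Z := by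
  induction j with
  | zero => exact ⟨Y, by simpa using h⟩
  | succ j ih =>
    obtain ⟨Z, hZ⟩ := ih
    obtain ⟨W, hW⟩ := one_add_pow (((p ^ (j + 1) : ℕ) : ℤ) • Z) p
    refine ⟨Z + ((p ^ j : ℕ) : ℤ) • (Z * Z * W), ?_⟩
    rw [pow_succ p j, pow_mul, hZ, hW]
    have h1 : ((p : ℕ) : Matrix (Fin n) (Fin n) ℤ) * ((p ^ (j + 1) : ℕ) : ℤ) • Z =
        ((p ^ (j + 1 + 1) : ℕ) : ℤ) • Z := by
      rw [← nsmul_eq_mul, ← natCast_zsmul, smul_smul]
      congr 1
      push_cast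
      ring
    have h2 : (((p ^ (j + 1) : ℕ) : ℤ) • Z) * (((p ^ (j + 1) : ℕ) : ℤ) • Z) * W =
        ((p ^ (j + 1 + 1) : ℕ) : ℤ) • ((p ^ j : ℕ) : ℤ) • (Z * Z * W) := by
      rw [smul_mul_assoc, mul_smul_comm, smul_mul_assoc, smul_mul_assoc, smul_smul, smul_smul]
      congr 1
      push_cast
      ring
    rw [h1, h2, smul_add, add_assoc]

/-- reduction modulo `q` -/
def red (n q : ℕ) : Matrix.GeneralLinearGroup (Fin n) ℤ →* Matrix.GeneralLinearGroup (Fin n) (ZMod q) :=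
  Matrix.GeneralLinearGroup.map (Int.castRingHom (ZMod q))

theorem red_eq_one {q : ℕ} {x : Matrix.GeneralLinearGroup (Fin n) ℤ} :
    red n q x = 1 ↔ ∀ i j, (q : ℤ) ∣ x.1 i j - (1 : Matrix (Fin n) (Fin n) ℤ) i j := by
  have h1 : red n q x = 1 ↔ ∀ i j, ((x.1 i j : ℤ) : ZMod q) = (1 : Matrix (Fin n) (Fin n) (ZMod q)) i j := by
    rw [Units.ext_iff]
    exact ⟨fun h i j => congrFun (congrFun h i) j, fun h => Matrix.ext h⟩
  rw [h1]
  refine forall_congr' fun i => forall_congr' fun j => ?_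
  rw [← ZMod.intCast_zmod_eq_zero_iff_dvd, Int.cast_sub, sub_eq_zero]
  have h2 : (((1 : Matrix (Fin n) (Fin n) ℤ) i j : ℤ) : ZMod q) =
      (1 : Matrix (Fin n) (Fin n) (ZMod q)) i j := by
    rw [Matrix.one_apply, Matrix.one_apply]
    split_ifs <;> simp
  rw [h2]

theorem red_pow {p : ℕ} {w : Matrix.GeneralLinearGroup (Fin n) ℤ} (h : red n p w = 1) (k : ℕ) :
    red n (p ^ (k + 1)) w ^ (p ^ k) = 1 := by
  rw [red_eq_one] at h
  choose Y hY using h
  have h1 : w.1 = 1 + (p : ℤ) • (Matrix.of Y) := by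
    ext i j
    rw [Matrix.add_apply, Matrix.smul_apply, Matrix.of_apply, smul_eq_mul, ← hY]
    ring
  obtain ⟨Z, hZ⟩ := level_pow p w.1 _ h1 k
  rw [← map_pow, red_eq_one]
  intro i j
  rw [Units.val_pow_eq_pow_val, hZ, Matrix.add_apply, add_sub_cancel_left, Matrix.smul_apply,
    smul_eq_mul]
  exact dvd_mul_right _ _

theorem exists_red {p : ℕ} (hp : p.Prime) {x : Matrix.GeneralLinearGroup (Fin n) ℤ} (hx : x ≠ 1) :
    ∃ k : ℕ, red n (p ^ (k + 1)) x ≠ 1 := by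
  obtain ⟨i, j, hij⟩ : ∃ i j, x.1 i j - (1 : Matrix (Fin n) (Fin n) ℤ) i j ≠ 0 := by
    by_contra hcon
    push Not at hcon
    refine hx (Units.ext (Matrix.ext fun i j => ?_))
    exact sub_eq_zero.1 (hcon i j)
  obtain ⟨d, hd⟩ : ∃ d : ℤ, d = x.1 i j - (1 : Matrix (Fin n) (Fin n) ℤ) i j := ⟨_, rfl⟩
  refine ⟨d.natAbs, fun h => ?_⟩
  have h1 := red_eq_one.1 h i j
  rw [← hd] at h1 hij
  have h2 : p ^ (d.natAbs + 1) ∣ d.natAbs := Int.natCast_dvd.1 h1
  have h3 := Nat.le_of_dvd (Int.natAbs_pos.2 hij) h2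
  have h4 : d.natAbs + 1 < p ^ (d.natAbs + 1) := Nat.lt_pow_self hp.one_lt
  omega

/-- **`GL_n(ℤ)` is balanced** -/
theorem bal_gl (n : ℕ) : Bal (Matrix.GeneralLinearGroup (Fin n) ℤ) := by
  refine bal_of_orders fun p hp z hz => ?_
  have : NeZero p := ⟨hp.ne_zero⟩
  have hfin : Finite (Matrix.GeneralLinearGroup (Fin n) (ZMod p)) := by
    refine Finite.of_injective (fun x : Matrix.GeneralLinearGroup (Fin n) (ZMod p) =>
      (fun i j => x.1 i j : Fin n → Fin n → ZMod p)) fun x y hxy => ?_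
    exact Units.ext (Matrix.ext fun i j => congrFun (congrFun hxy i) j)
  obtain ⟨e, he, he1⟩ := isOfFinOrder_iff_pow_eq_one.1 (isOfFinOrder_of_finite (red n p z))
  refine ⟨e, he.ne', fun s => ?_⟩
  have hw : red n p (z ^ e) = 1 := by rw [map_pow, he1]
  obtain ⟨k, hk⟩ := exists_red hp ((hz.pow he.ne') (p ^ s) (pow_pos hp.pos _).ne')
  have h1 : orderOf (red n (p ^ (k + 1)) (z ^ e)) ∣ p ^ k := orderOf_dvd_of_pow_eq_one (red_pow hw k)
  obtain ⟨t, -, ht⟩ := (Nat.dvd_prime_pow hp).1 h1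
  refine ⟨_, inferInstance, red n (p ^ (k + 1)), t, ?_, ht⟩
  by_contra hts
  apply hk
  rw [map_pow, ← orderOf_dvd_iff_pow_eq_one, ht]
  exact pow_dvd_pow p (by omega)

/-- linear groups over the integers -/
theorem gl_zq_inj (n : ℕ) : Function.Injective
    (Matrix.GeneralLinearGroup.map (Int.castRingHom ℚ) :
      Matrix.GeneralLinearGroup (Fin n) ℤ →* Matrix.GeneralLinearGroup (Fin n) ℚ) := by
  intro x y hxy
  refine Units.ext (Matrix.ext fun i j => ?_)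
  have h1 : (Matrix.GeneralLinearGroup.map (Int.castRingHom ℚ) x).1 i j =
      (Matrix.GeneralLinearGroup.map (Int.castRingHom ℚ) y).1 i j := by rw [hxy]
  have h2 : ((x.1 i j : ℤ) : ℚ) = ((y.1 i j : ℤ) : ℚ) := h1
  exact_mod_cast h2

end Pool.Agent.U709.Vc
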