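import Pool.Agent.U709.LvE
import Pool.Agent.U709.VcK
import Pool.Agent.U709.VcH
import Pool.Agent.U74.LQ.Fin

/-!
# Levels on trees: cyclic edge groups
-/

set_option autoImplicit false

namespace Pool.Agent.U709.Lv

open SimpleGraph
open scoped commutatorElement Pointwise
open Subgroup
open Subgroup.Commensurable (commensurator)
open Pool.Agent.Y110.FJ
open Pool.Agent.N509.TX (AcylF)
open Pool.Agent.N431.CE (Es mem_Es Es_comm Es_smul)
open Pool.Agent.U385.FJ
open Pool.Agent.U709.Vc (Inf Zc Bal coset_treeAct)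
open Pool.Agent.U709.Cy (card_le_of cyc_map C_conj)
open Pool.Agent.Helper705_SA (IsAmalgam cosetGraph cosetGraph_isTree stab_coset)

variable {C : ∀ (G : Type) [Group G], Prop}
variable {G V : Type} [Group G] [MulAction G V] {T : SimpleGraph V}

/-- edges at a vertex, cyclic or finite of bounded order -/
theorem cyc_int {n : ℕ} (hcyc : ∀ v u, T.Adj v u → Infinite (Es G v u) → IsCyclic (Es G v u))
    (hfin : ∀ v u, T.Adj v u → Finite (Es G v u) → Nat.card (Es G v u) ≤ n) :
    ∀ v a b, T.Adj v a → T.Adj v b → a ≠ b →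
      (Infinite (Es G v a) ∧ Infinite (Es G v b) ∧ Commensurable (Es G v a) (Es G v b)) ∨
      ∀ F : Finset G, (∀ g ∈ F, g ∈ Es G v a ∧ g ∈ Es G v b) → F.card ≤ n + 1 := by
  intro v a b ha hb _
  by_cases h1 : Infinite (Es G v a)
  · by_cases h2 : Infinite (Es G v b)
    · rcases cyc_iso (hcyc v a ha h1) (hcyc v b hb h2) h1 with h3 | h3
      · exact Or.inl ⟨h1, h2, h3⟩
      · refine Or.inr fun F hF => ?_
        have h6 : F.card ≤ 1 := by
          rw [Finset.card_le_one]
          have h7 : ∀ g ∈ F, g = 1 := fun g hg => by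
            have h8 : g ∈ Es G v a ⊓ Es G v b := hF g hg
            rwa [h3, mem_bot] at h8
          intro x hx z hz
          rw [h7 x hx, h7 z hz]
        omega
    · rw [not_infinite_iff_finite] at h2
      refine Or.inr fun F hF => ?_
      have h3 := hfin v b hb h2
      have h4 : F.card ≤ Nat.card (Es G v b) := card_le_of h2 F fun g hg => (hF g hg).2
      omega
  · rw [not_infinite_iff_finite] at h1
    refine Or.inr fun F hF => ?_
    have h3 := hfin v a ha h1
    have h4 : F.card ≤ Nat.card (Es G v a) := card_le_of h1 F fun g hg => (hF g hg).1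
    omega

theorem cyc_gen {E : Subgroup G} (hc : IsCyclic E) : ∃ z : G, E = zpowers z := by
  obtain ⟨⟨z, hz⟩, h⟩ := hc.exists_generator
  refine ⟨z, le_antisymm (fun x hx => ?_) ((zpowers_le).2 hz)⟩
  obtain ⟨k, hk⟩ := h ⟨x, hx⟩
  exact ⟨k, congrArg Subtype.val hk⟩

theorem inf_of_infinite {z : G} (h : Infinite (zpowers z)) : Inf z := by
  intro m hm h1
  have h2 : IsOfFinOrder z := isOfFinOrder_iff_pow_eq_one.2 ⟨m, Nat.pos_of_ne_zero hm, h1⟩
  have h3 : Finite (zpowers z) := (finite_zpowers.2 h2).to_subtype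
  exact (not_infinite_iff_finite.2 h3) h

/-- the condition for stabilizers in terms of subgroups of the group -/
theorem cv_stab {S : Subgroup G} (h : CV C S) {E : Subgroup G} (hE : E ≤ S) (hc : IsCyclic E)
    (hinf : Infinite E) : CenVis C E (S ⊓ commensurator E) := by
  obtain ⟨z, rfl⟩ := cyc_gen hc
  have hz : Inf z := inf_of_infinite hinf
  have hzS : z ∈ S := hE (mem_zpowers z)
  have hz' : Inf (⟨z, hzS⟩ : S) := fun m hm h1 => hz m hm (congrArg Subtype.val h1)
  refine (h ⟨z, hzS⟩ hz').of_hom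
    ({ toFun := fun x => ⟨⟨x, x.2.1⟩, by
        obtain ⟨m, n, hm, hn, h1⟩ := (mem_comm_iff hz).1 x.2.2
        exact (mem_comm_iff hz').2 ⟨m, n, hm, hn, Subtype.ext h1⟩⟩
       map_one' := rfl
       map_mul' := fun _ _ => rfl } : ↥(S ⊓ commensurator (zpowers z)) →*
        commensurator (zpowers (⟨z, hzS⟩ : S))) ?_ ?_ ?_
  · intro x _ h1
    exact Subtype.ext (congrArg (fun y : commensurator (zpowers (⟨z, hzS⟩ : S)) => ((y : S) : G)) h1)
  · rintro ⟨_, hx⟩ ⟨k, rfl⟩
    exact ⟨k, rfl⟩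
  · rintro ⟨_, he⟩ ⟨k, rfl⟩
    exact ⟨⟨z ^ k, hE ⟨k, rfl⟩, le_comm hz ⟨k, rfl⟩⟩, ⟨k, rfl⟩, rfl⟩

/-- An invariant function with different values on adjacent vertices such that each vertex has at most
one orbit of neighbours with smaller values: the quotient graph is a tree with a root. -/
structure Rooted (G : Type) {V : Type} [Group G] [MulAction G V] (T : SimpleGraph V) (d : V → ℕ) :
    Prop where
  inv : ∀ (g : G) v, d (g • v) = d v
  ne : ∀ u v, T.Adj u v → d u ≠ d v
  one : ∀ v a b, T.Adj v a → T.Adj v b → d a < d v → d b < d v → ∃ g : G, g • v = v ∧ g • a = b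

/-- **trees of groups** -/
theorem rooted_main (hC : ClosedE C) (hA : AcylF C) (hT : T.IsTree)
    (hact : ∀ (g : G) (u v : V), T.Adj u v → T.Adj (g • u) (g • v)) {d : V → ℕ} (hd : Rooted G T d)
    (hcyc : ∀ v u, T.Adj v u → Infinite (Es G v u) → IsCyclic (Es G v u))
    (n : ℕ) (hfin : ∀ v u, T.Adj v u → Finite (Es G v u) → Nat.card (Es G v u) ≤ n)
    (hV : ∀ v : V, C ↥(MulAction.stabilizer G v))
    (hcv : ∀ v a, T.Adj v a → d a < d v → Infinite (Es G v a) → CV C ↥(MulAction.stabilizer G v)) :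
    C G := by
  refine lev_main hC hA hT hact hV (n + 1) (cyc_int hcyc hfin) (fun v _ => d v)
    (fun g v _ _ => hd.inv g v) (fun v a h => hd.ne v a h) (fun _ _ _ _ _ _ _ _ => rfl)
    (fun v a b ha hb hla hlb _ _ _ => hd.one v a b ha hb hla hlb) fun v a h hl hinf => ?_
  exact cv_stab (hcv v a h hl hinf) inf_le_left (hcyc v a h hinf) hinf

theorem map_conj_eq (E : Subgroup G) (g : G) :
    E.map (MulAut.conj g).toMonoidHom = ConjAct.toConjAct g • E := by
  ext x
  rw [Subgroup.mem_smul_pointwise_iff_exists]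
  constructor
  · rintro ⟨y, hy, rfl⟩
    exact ⟨y, hy, rfl⟩
  · rintro ⟨y, hy, rfl⟩
    exact ⟨y, hy, rfl⟩

theorem CenVis.conj {E S : Subgroup G} (h : CenVis C E (S ⊓ commensurator E)) (g : G) :
    CenVis C (E.map (MulAut.conj g).toMonoidHom) (S.map (MulAut.conj g).toMonoidHom ⊓
      commensurator (E.map (MulAut.conj g).toMonoidHom)) := by
  have hS : ∀ (D : Subgroup G) (x : G), x ∈ D.map (MulAut.conj g).toMonoidHom ↔ g⁻¹ * x * g ∈ D := by
    intro D x
    constructor
    · rintro ⟨y, hy, rfl⟩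
      show g⁻¹ * (g * y * g⁻¹) * g ∈ D
      have h1 : g⁻¹ * (g * y * g⁻¹) * g = y := by group
      rwa [h1]
    · intro h1
      refine ⟨_, h1, ?_⟩
      show g * (g⁻¹ * x * g) * g⁻¹ = x
      group
  have hcom : ∀ x, x ∈ commensurator (E.map (MulAut.conj g).toMonoidHom) ↔
      g⁻¹ * x * g ∈ commensurator E := by
    intro x
    rw [Commensurable.commensurator_mem_iff, Commensurable.commensurator_mem_iff, map_conj_eq,
      Subgroup.Commensurable.commensurable_conj (ConjAct.toConjAct g) (H := ConjAct.toConjAct _ • E)]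
    rw [← mul_smul, ← mul_smul, ← map_mul, ← map_mul]
    have h1 : g * (g⁻¹ * x * g) = x * g := by group
    rw [h1]
  have hEc : E ≤ commensurator E := by
    intro e he
    rw [Commensurable.commensurator_mem_iff]
    have h1 : ConjAct.toConjAct e • E = E := by
      rw [← map_conj_eq]
      ext x
      constructor
      · rintro ⟨y, hy, rfl⟩
        exact mul_mem (mul_mem he hy) (inv_mem he)
      · intro hx
        refine ⟨e⁻¹ * x * e, mul_mem (mul_mem (inv_mem he) hx) he, ?_⟩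
        show e * (e⁻¹ * x * e) * e⁻¹ = x
        group
    rw [h1]
  refine h.of_hom
    ({ toFun := fun x => ⟨g⁻¹ * x * g, (hS S _).1 x.2.1, (hcom _).1 x.2.2⟩
       map_one' := by
        apply Subtype.ext
        simp
       map_mul' := fun x y => by
        apply Subtype.ext
        show g⁻¹ * (x * y : G) * g = (g⁻¹ * x * g) * (g⁻¹ * y * g)
        group } : ↥(S.map (MulAut.conj g).toMonoidHom ⊓
      commensurator (E.map (MulAut.conj g).toMonoidHom)) →* ↥(S ⊓ commensurator E)) ?_ ?_ ?_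
  · intro x _ h1
    have h2 : g⁻¹ * (x : G) * g = 1 := congrArg Subtype.val h1
    apply Subtype.ext
    show (x : G) = 1
    calc (x : G) = g * (g⁻¹ * (x : G) * g) * g⁻¹ := by group
      _ = 1 := by rw [h2, mul_one, mul_inv_cancel]
  · intro x hx
    exact (hS E _).1 hx
  · rintro ⟨e, he1, he2⟩ he
    have he : e ∈ E := he
    have h1 : g⁻¹ * (g * e * g⁻¹) * g = e := by group
    refine ⟨⟨g * e * g⁻¹, (hS S _).2 (by rwa [h1]), (hcom _).2 (by rwa [h1])⟩, (hS E _).2 (by rwa [h1]),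
      Subtype.ext h1⟩

/-- **amalgamated products over cyclic groups** -/
theorem lev_amalgam (hC : ClosedE C) (hA : AcylF C) (A B : Subgroup G) (h : IsAmalgam A B)
    (hcA : C A) (hcB : C B) (hE : IsCyclic (A ⊓ B : Subgroup G))
    (hv : Infinite (A ⊓ B : Subgroup G) → CenVis C (A ⊓ B) (B ⊓ commensurator (A ⊓ B))) : C G := by
  have hsl : ∀ g : G, MulAction.stabilizer G (Sum.inl (QuotientGroup.mk g) : (G ⧸ A) ⊕ (G ⧸ B)) =
      A.map (MulAut.conj g).toMonoidHom := by
    intro g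
    rw [← stab_coset]
    ext x
    rw [MulAction.mem_stabilizer_iff, MulAction.mem_stabilizer_iff]
    exact Sum.inl_injective.eq_iff (a := x • (QuotientGroup.mk g : G ⧸ A))
  have hsr : ∀ g : G, MulAction.stabilizer G (Sum.inr (QuotientGroup.mk g) : (G ⧸ A) ⊕ (G ⧸ B)) =
      B.map (MulAut.conj g).toMonoidHom := by
    intro g
    rw [← stab_coset]
    ext x
    rw [MulAction.mem_stabilizer_iff, MulAction.mem_stabilizer_iff]
    exact Sum.inr_injective.eq_iff (a := x • (QuotientGroup.mk g : G ⧸ B))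
  have hes : ∀ g : G, Es G (Sum.inl (QuotientGroup.mk g) : (G ⧸ A) ⊕ (G ⧸ B))
      (Sum.inr (QuotientGroup.mk g)) = (A ⊓ B).map (MulAut.conj g).toMonoidHom := by
    intro g
    show MulAction.stabilizer G _ ⊓ MulAction.stabilizer G _ = _
    rw [hsl, hsr, ← Subgroup.map_inf _ _ _ (MulAut.conj g).injective]
  have hinfE : ∀ g : G, Infinite ((A ⊓ B).map (MulAut.conj g).toMonoidHom) ↔
      Infinite (A ⊓ B : Subgroup G) := fun g =>
    ((A ⊓ B).equivMapOfInjective _ (MulAut.conj g).injective).toEquiv.infinite_iff.symm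
  have hcard : ∀ g : G, Nat.card ((A ⊓ B).map (MulAut.conj g).toMonoidHom) =
      Nat.card (A ⊓ B : Subgroup G) := fun g =>
    (Nat.card_congr ((A ⊓ B).equivMapOfInjective _ (MulAut.conj g).injective).toEquiv).symm
  have hta := coset_treeAct h
  obtain ⟨d, hdl, hdr⟩ : ∃ d : (G ⧸ A) ⊕ (G ⧸ B) → ℕ, (∀ x, d (Sum.inl x) = 0) ∧
      ∀ x, d (Sum.inr x) = 1 := ⟨Sum.elim (fun _ => 0) (fun _ => 1), fun _ => rfl, fun _ => rfl⟩
  refine lev_main (T := cosetGraph A B) hC hA (cosetGraph_isTree A B h) hta.adj ?_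
    (Nat.card (A ⊓ B : Subgroup G) + 1) (cyc_int ?_ ?_) (fun v _ => d v) ?_ ?_
    (fun _ _ _ _ _ _ _ _ => rfl) ?_ ?_
  · rintro (v | v)
    · obtain ⟨g, rfl⟩ := QuotientGroup.mk_surjective v
      rw [hsl]
      exact C_conj hC g hcA
    · obtain ⟨g, rfl⟩ := QuotientGroup.mk_surjective v
      rw [hsr]
      exact C_conj hC g hcB
  · rintro u v ⟨g, ⟨rfl, rfl⟩ | ⟨rfl, rfl⟩⟩ _
    · rw [hes]
      exact cyc_map _ hE
    · rw [Es_comm, hes]
      exact cyc_map _ hE
  · rintro u v ⟨g, ⟨rfl, rfl⟩ | ⟨rfl, rfl⟩⟩ _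
    · rw [hes, hcard]
    · rw [Es_comm, hes, hcard]
  · rintro g (v | v) _ _
    · exact (hdl _).trans (hdl _).symm
    · exact (hdr _).trans (hdr _).symm
  · rintro u v ⟨g, ⟨rfl, rfl⟩ | ⟨rfl, rfl⟩⟩
    · rw [hdl, hdr]
      exact zero_ne_one
    · rw [hdl, hdr]
      exact one_ne_zero
  · rintro v a b ⟨g, ⟨rfl, rfl⟩ | ⟨rfl, rfl⟩⟩ hb hla hlb _ _ _
    · rw [hdl, hdr] at hla
      exact absurd hla (by omega)
    · obtain ⟨k, ⟨h2, h1⟩ | ⟨h1, h2⟩⟩ := hb
      · exact absurd h2 (by simp)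
      · have h3 : (QuotientGroup.mk g : G ⧸ B) = QuotientGroup.mk k := Sum.inr_injective h2
        refine ⟨k * g⁻¹, ?_, ?_⟩
        · show Sum.inr (QuotientGroup.mk (k * g⁻¹ * g) : G ⧸ B) = _
          rw [inv_mul_cancel_right, h3]
        · rw [h1]
          show Sum.inl (QuotientGroup.mk (k * g⁻¹ * g) : G ⧸ A) = _
          rw [inv_mul_cancel_right]
  · rintro v a ⟨g, ⟨rfl, rfl⟩ | ⟨rfl, rfl⟩⟩ hl hinf
    · rw [hdl, hdr] at hl
      exact absurd hl (by omega)
    · rw [Es_comm, hes] at hinf ⊢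
      rw [hsr]
      exact (hv ((hinfE g).1 hinf)).conj g

/-- principal congruence subgroups -/
theorem cv_princ (hC : ClosedE C) (hS : ∀ (G : Type) [Group G], Group.IsSolvable G → C G)
    (hQ : ∀ m : ℕ, C (Matrix.GeneralLinearGroup (Fin m) ℚ)) {p : ℕ} (hp : p.Prime) (h3 : 3 ≤ p)
    (n : ℕ) : C (Matrix.GeneralLinearGroup.map (n := Fin n) (Int.castRingHom (ZMod p))).ker ∧
    CV C (Matrix.GeneralLinearGroup.map (n := Fin n) (Int.castRingHom (ZMod p))).ker := by
  have h1 : Zc C (Matrix.GeneralLinearGroup (Fin n) ℤ) :=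
    (Pool.Agent.U709.Vc.zc_gl hC hS hQ n).of_injective hC _ (Pool.Agent.U709.Vc.gl_zq_inj n)
  have h2 : Zc C (Matrix.GeneralLinearGroup.map (n := Fin n) (Int.castRingHom (ZMod p))).ker :=
    h1.of_injective hC (Subgroup.subtype _) (Subgroup.subtype_injective _)
  have h4 : Bal (Matrix.GeneralLinearGroup.map (n := Fin n) (Int.castRingHom (ZMod p))).ker :=
    (Pool.Agent.U709.Vc.bal_gl n).of_injective (Subgroup.subtype _) (Subgroup.subtype_injective _)
  exact ⟨h2.1, cv_ur h2 h4 fun x y m hm hxy => (Pool.Agent.U74.LQ.cong_ker hQ p hp h3 n).roots x y m hm hxy⟩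

end Pool.Agent.U709.Lv
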