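import Pool.Agent.U709.LvF
import Pool.Agent.U709.CyD

/-!
# Levels on trees: HNN extensions over cyclic groups
-/

set_option autoImplicit false

namespace Pool.Agent.U709.Lv

open SimpleGraph
open scoped commutatorElement Pointwise
open Subgroup
open Subgroup.Commensurable (commensurator)
open Pool.Agent.Y110.FJ
open Pool.Agent.N509.TX (AcylF)
open Pool.Agent.N431.CE (Es mem_Es Es_comm Es_smul)
open Pool.Agent.U385.FJ
open Pool.Agent.U709.Vc (Inf Zc Bal)
open Pool.Agent.U709.Cy (card_le_of cyc_map C_conj)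
open Pool.Agent.Helper705_SA (stab_coset)
open Pool.Agent.Helper270.HNN
open Pool.Agent.R941.FJ (C_equiv)

variable {C : ∀ (G : Type) [Group G], Prop}
variable {H : Type} [Group H] {A B : Subgroup H} {φ : A ≃* B}

theorem hst (g : HNNExtension H A B φ) : MulAction.stabilizer (HNNExtension H A B φ)
    (vt g : Vert φ) = (HNNExtension.of.range : Subgroup (HNNExtension H A B φ)).map
      (MulAut.conj g).toMonoidHom :=
  stab_coset (HNNExtension.of.range : Subgroup (HNNExtension H A B φ)) g

theorem hes (g : HNNExtension H A B φ) : Es (HNNExtension H A B φ) (vt g : Vert φ)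
    (vt (g * HNNExtension.t)) = (B.map (HNNExtension.of : H →* HNNExtension H A B φ)).map
      (MulAut.conj g).toMonoidHom := by
  have h1 : Es (HNNExtension H A B φ) (vt (g * HNNExtension.t) : Vert φ) (vt g) =
      (A.map (HNNExtension.of : H →* HNNExtension H A B φ)).map
        (MulAut.conj (g * HNNExtension.t)).toMonoidHom := by
    have h2 : (MulAction.stabilizer (HNNExtension H A B φ) (vt g : Vert φ)) =
        (MulAction.stabilizer (HNNExtension H A B φ) (vt HNNExtension.t⁻¹ : Vert φ)).map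
          (MulAut.conj (g * HNNExtension.t)).toMonoidHom := by
      rw [hst, hst, Subgroup.map_map]
      congr 1
      refine MonoidHom.ext fun x => ?_
      simp [MulAut.conj_apply, mul_assoc]
    have h3 : (MulAction.stabilizer (HNNExtension H A B φ) (vt (g * HNNExtension.t) : Vert φ)) =
        (MulAction.stabilizer (HNNExtension H A B φ) (vt 1 : Vert φ)).map
          (MulAut.conj (g * HNNExtension.t)).toMonoidHom := by
      rw [hst, hst, Subgroup.map_map]
      congr 1
      refine MonoidHom.ext fun x => ?_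
      simp [MulAut.conj_apply, mul_assoc]
    show MulAction.stabilizer _ _ ⊓ MulAction.stabilizer _ _ = _
    rw [h2, h3, ← Subgroup.map_inf _ _ _ (MulAut.conj _).injective, stab_edge]
  rw [Es_comm, h1]
  ext x
  constructor
  · rintro ⟨_, ⟨a, ha, rfl⟩, rfl⟩
    refine ⟨_, ⟨φ ⟨a, ha⟩, (φ ⟨a, ha⟩).2, rfl⟩, ?_⟩
    show g * HNNExtension.of (φ ⟨a, ha⟩ : H) * g⁻¹ =
      g * HNNExtension.t * HNNExtension.of a * (g * HNNExtension.t)⁻¹
    have h2 := HNNExtension.t_mul_of (φ := φ) ⟨a, ha⟩
    have h2 : HNNExtension.t * HNNExtension.of a =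
      (HNNExtension.of (φ ⟨a, ha⟩ : H) * HNNExtension.t : HNNExtension H A B φ) := h2
    rw [mul_assoc g HNNExtension.t, h2]
    group
  · rintro ⟨_, ⟨b, hb, rfl⟩, rfl⟩
    refine ⟨_, ⟨φ.symm ⟨b, hb⟩, (φ.symm ⟨b, hb⟩).2, rfl⟩, ?_⟩
    show g * HNNExtension.t * HNNExtension.of (φ.symm ⟨b, hb⟩ : H) * (g * HNNExtension.t)⁻¹ =
      g * HNNExtension.of b * g⁻¹
    have h2 := HNNExtension.t_mul_of (φ := φ) (φ.symm ⟨b, hb⟩)
    rw [φ.apply_symm_apply] at h2
    have h2 : HNNExtension.t * HNNExtension.of (φ.symm ⟨b, hb⟩ : H) =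
      (HNNExtension.of b * HNNExtension.t : HNNExtension H A B φ) := h2
    rw [mul_assoc g HNNExtension.t, h2]
    group

open Classical in
/-- the orientation of the edges -/
noncomputable def ori (v a : Vert φ) : ℕ := if lvl a = lvl v * Multiplicative.ofAdd 1 then 1 else 0

theorem lvl_smul (g : HNNExtension H A B φ) (v : Vert φ) : lvl (g • v) = expo φ g * lvl v := by
  obtain ⟨k, rfl⟩ := exists_vt v
  rw [smul_vt, lvl_vt, lvl_vt, map_mul]

theorem ori_smul (g : HNNExtension H A B φ) (v a : Vert φ) : ori (g • v) (g • a) = ori v a := by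
  unfold ori
  rw [lvl_smul, lvl_smul, mul_assoc]
  simp only [mul_right_inj]

theorem ori_one (g : HNNExtension H A B φ) : ori (vt g : Vert φ) (vt (g * HNNExtension.t)) = 1 := by
  unfold ori
  rw [lvl_vt, lvl_vt, map_mul, expo_t, if_pos rfl]

theorem ori_zero (g : HNNExtension H A B φ) : ori (vt (g * HNNExtension.t) : Vert φ) (vt g) = 0 := by
  unfold ori
  rw [lvl_vt, lvl_vt, map_mul, expo_t, if_neg]
  intro h
  rw [mul_assoc] at h
  have h1 := congrArg Multiplicative.toAdd h
  rw [toAdd_mul, toAdd_mul, toAdd_ofAdd] at h1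
  omega

/-- **HNN extensions along cyclic groups** -/
theorem lev_hnn (hC : ClosedE C) (hA : AcylF C) (A B : Subgroup H) (φ : A ≃* B) (hH : C H)
    (hE : IsCyclic A) (hno : ∀ (a : A) (g : H), Inf (a : H) → g * (a : H) * g⁻¹ ∉ B)
    (hv : Infinite B → CenVis C B (commensurator B)) : C (HNNExtension H A B φ) := by
  have hran : C (HNNExtension.of.range : Subgroup (HNNExtension H A B φ)) :=
    C_equiv hC.base (MonoidHom.ofInjective (HNNExtension.of_injective φ)).symm hH
  have hcB : IsCyclic B := isCyclic_of_surjective φ φ.surjective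
  have hinj : Function.Injective (HNNExtension.of : H →* HNNExtension H A B φ) :=
    HNNExtension.of_injective φ
  have hcE : ∀ g : HNNExtension H A B φ, IsCyclic (Es (HNNExtension H A B φ) (vt g : Vert φ)
      (vt (g * HNNExtension.t))) := by
    intro g
    rw [hes]
    exact cyc_map _ (cyc_map _ hcB)
  have hinfE : ∀ g : HNNExtension H A B φ, Infinite (Es (HNNExtension H A B φ) (vt g : Vert φ)
      (vt (g * HNNExtension.t))) ↔ Infinite B := by
    intro g
    rw [hes]
    exact ((B.equivMapOfInjective _ hinj).toEquiv.trans ((B.map _).equivMapOfInjective _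
      (MulAut.conj g).injective).toEquiv).infinite_iff.symm
  have hcard : ∀ g : HNNExtension H A B φ, Nat.card (Es (HNNExtension H A B φ) (vt g : Vert φ)
      (vt (g * HNNExtension.t))) = Nat.card B := by
    intro g
    rw [hes]
    exact (Nat.card_congr ((B.equivMapOfInjective _ hinj).toEquiv.trans
      ((B.map _).equivMapOfInjective _ (MulAut.conj g).injective).toEquiv)).symm
  -- the two kinds of edges at a vertex
  have hkey : ∀ g1 g2 : HNNExtension H A B φ, (vt g1 : Vert φ) = vt (g2 * HNNExtension.t) →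
      Infinite B → Commensurable (Es (HNNExtension H A B φ) (vt g1 : Vert φ)
        (vt (g1 * HNNExtension.t))) (Es (HNNExtension H A B φ) (vt (g2 * HNNExtension.t) : Vert φ)
        (vt g2)) → False := by
    intro g1 g2 h12 hinf hcom
    obtain ⟨z, hz⟩ := cyc_gen hcB
    have hzinf : Inf z := inf_of_infinite (by rwa [← hz])
    have hzB : z ∈ B := by
      rw [hz]
      exact mem_zpowers z
    have h1 : g1 * HNNExtension.of z * g1⁻¹ ∈ Es (HNNExtension H A B φ) (vt g1 : Vert φ)
        (vt (g1 * HNNExtension.t)) := by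
      rw [hes]
      exact ⟨_, ⟨z, hzB, rfl⟩, rfl⟩
    obtain ⟨m, hm, -, hmem⟩ := Subgroup.exists_pow_mem_of_relIndex_ne_zero hcom.2 h1
    have h2 := hmem.1
    rw [Es_comm, hes] at h2
    obtain ⟨_, ⟨b, hb, rfl⟩, h3⟩ := h2
    have h3 : g2 * HNNExtension.of b * g2⁻¹ = (g1 * HNNExtension.of z * g1⁻¹) ^ m := h3
    rw [conj_pow, ← map_pow] at h3
    obtain ⟨x, hx⟩ := vt_eq_iff.1 h12
    -- `g1 * of x = g2 * t`
    have h4 : (g2 : HNNExtension H A B φ)⁻¹ * g1 = HNNExtension.t * HNNExtension.of x⁻¹ := by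
      rw [map_inv, eq_mul_inv_iff_mul_eq, mul_assoc, hx, inv_mul_cancel_left]
    have h5 : HNNExtension.of b = (HNNExtension.t * HNNExtension.of x⁻¹) * HNNExtension.of (z ^ m) *
        (HNNExtension.t * HNNExtension.of x⁻¹ : HNNExtension H A B φ)⁻¹ := by
      rw [← h4]
      calc (HNNExtension.of b : HNNExtension H A B φ) =
          g2⁻¹ * (g2 * HNNExtension.of b * g2⁻¹) * g2 := by group
        _ = _ := by
          rw [h3]
          group
    have h6 : (HNNExtension.t : HNNExtension H A B φ) * HNNExtension.of (φ.symm ⟨b, hb⟩ : H) =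
        HNNExtension.of b * HNNExtension.t := by
      have h7 := HNNExtension.t_mul_of (φ := φ) (φ.symm ⟨b, hb⟩)
      rwa [φ.apply_symm_apply] at h7
    have h7 : (HNNExtension.of (x⁻¹ * z ^ m * x) : HNNExtension H A B φ) =
        HNNExtension.of (φ.symm ⟨b, hb⟩ : H) := by
      have h8 : (HNNExtension.of (φ.symm ⟨b, hb⟩ : H) : HNNExtension H A B φ) =
          HNNExtension.t⁻¹ * (HNNExtension.of b) * HNNExtension.t := by
        rw [mul_assoc, ← h6, inv_mul_cancel_left]
      rw [h8, h5]
      simp only [map_mul, map_inv]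
      group
    have h8 : x⁻¹ * z ^ m * x = (φ.symm ⟨b, hb⟩ : H) := hinj h7
    refine hno (φ.symm ⟨b, hb⟩) x ?_ ?_
    · rw [← h8]
      have h9 := (hzinf.pow hm.ne').conj x⁻¹
      rwa [inv_inv] at h9
    · rw [← h8]
      have h9 : x * (x⁻¹ * z ^ m * x) * x⁻¹ = z ^ m := by group
      rw [h9]
      exact pow_mem hzB m
  have hadj : ∀ {u v : Vert φ}, (graph φ).Adj u v → ∃ g : HNNExtension H A B φ,
      (u = vt g ∧ v = vt (g * HNNExtension.t)) ∨ (u = vt (g * HNNExtension.t) ∧ v = vt g) := by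
    intro u v huv
    obtain ⟨g, h | h⟩ := adj_iff.1 huv
    · exact ⟨g, Or.inl h⟩
    · exact ⟨g, Or.inr ⟨h.2, h.1⟩⟩
  refine lev_main (T := graph φ) hC hA isTree treeAct.adj ?_ (Nat.card B + 1) (cyc_int ?_ ?_)
    (fun v a => ori v a) ?_ ?_ ?_ ?_ ?_
  · intro v
    obtain ⟨g, rfl⟩ := exists_vt v
    rw [hst]
    exact C_conj hC g hran
  · intro u v huv _
    obtain ⟨g, ⟨rfl, rfl⟩ | ⟨rfl, rfl⟩⟩ := hadj huv
    · exact hcE g
    · rw [Es_comm]
      exact hcE g
  · intro u v huv _
    obtain ⟨g, ⟨rfl, rfl⟩ | ⟨rfl, rfl⟩⟩ := hadj huv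
    · rw [hcard]
    · rw [Es_comm, hcard]
  · exact fun g v a _ => ori_smul g v a
  · intro u v huv
    obtain ⟨g, ⟨rfl, rfl⟩ | ⟨rfl, rfl⟩⟩ := hadj huv
    · rw [ori_one, ori_zero]
      exact one_ne_zero
    · rw [ori_one, ori_zero]
      exact zero_ne_one
  · intro v a b ha hb hia hib hcom
    obtain ⟨g1, ⟨h1, rfl⟩ | ⟨h1, rfl⟩⟩ := hadj ha <;> obtain ⟨g2, ⟨h2, rfl⟩ | ⟨h2, rfl⟩⟩ := hadj hb
    · have e1 : ori v (vt (g1 * HNNExtension.t)) = 1 := by rw [h1]; exact ori_one g1
      have e2 : ori v (vt (g2 * HNNExtension.t)) = 1 := by rw [h2]; exact ori_one g2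
      rw [e1, e2]
    · exfalso
      have e0 : (vt g1 : Vert φ) = vt (g2 * HNNExtension.t) := h1.symm.trans h2
      refine hkey g1 g2 e0 ?_ ?_
      · rw [h1] at hia
        exact (hinfE g1).1 hia
      · have e3 := hcom
        rw [h1] at e3
        rw [← e0]
        exact e3
    · exfalso
      have e0 : (vt g2 : Vert φ) = vt (g1 * HNNExtension.t) := h2.symm.trans h1
      refine hkey g2 g1 e0 ?_ ?_
      · rw [h2] at hib
        exact (hinfE g2).1 hib
      · have e3 := hcom.symm
        rw [h2] at e3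
        rw [← e0]
        exact e3
    · have e1 : ori v (vt g1) = 0 := by rw [h1]; exact ori_zero g1
      have e2 : ori v (vt g2) = 0 := by rw [h2]; exact ori_zero g2
      rw [e1, e2]
  · intro v a b ha hb hla hlb _ _ _
    obtain ⟨g1, ⟨h1, rfl⟩ | ⟨h1, rfl⟩⟩ := hadj ha
    swap
    · rw [h1, ori_one, ori_zero] at hla
      exact absurd hla (by omega)
    obtain ⟨g2, ⟨h2, rfl⟩ | ⟨h2, rfl⟩⟩ := hadj hb
    swap
    · rw [h2, ori_one, ori_zero] at hlb
      exact absurd hlb (by omega)
    refine ⟨g2 * g1⁻¹, ?_, ?_⟩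
    · calc (g2 * g1⁻¹) • v = (g2 * g1⁻¹) • (vt g1 : Vert φ) := by rw [h1]
        _ = vt g2 := by rw [smul_vt, inv_mul_cancel_right]
        _ = v := h2.symm
    · rw [smul_vt]
      congr 1
      group
  · intro v a ha hla hinf
    obtain ⟨g, ⟨rfl, rfl⟩ | ⟨rfl, rfl⟩⟩ := hadj ha
    swap
    · rw [ori_one, ori_zero] at hla
      exact absurd hla (by omega)
    have hiB := (hinfE g).1 hinf
    rw [hes, hst]
    refine CenVis.conj ?_ g
    obtain ⟨z, hz⟩ := cyc_gen hcB
    have hzinf : Inf z := inf_of_infinite (by rwa [← hz])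
    have hz' : Inf (HNNExtension.of z : HNNExtension H A B φ) := hzinf.of_inj _ hinj
    have hBz : B.map (HNNExtension.of : H →* HNNExtension H A B φ) = zpowers (HNNExtension.of z) := by
      have h0 : ∀ D : Subgroup H, D = zpowers z → D.map (HNNExtension.of : H →* HNNExtension H A B φ) =
          zpowers (HNNExtension.of z) := by
        rintro _ rfl
        exact MonoidHom.map_zpowers _ _
      exact h0 B hz
    have hv' := hv hiB
    rw [hz] at hv'
    rw [hBz]
    have hmem : ∀ x : H, HNNExtension.of x ∈ commensurator (zpowers (HNNExtension.of z :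
        HNNExtension H A B φ)) → x ∈ commensurator (zpowers z) := by
      intro x hx
      obtain ⟨m, n, hm, hn, h1⟩ := (mem_comm_iff hz').1 hx
      refine (mem_comm_iff hzinf).2 ⟨m, n, hm, hn, hinj ?_⟩
      rw [map_mul, map_mul, map_zpow, map_inv, h1, map_zpow]
    let e := MonoidHom.ofInjective hinj
    have he : ∀ y : (HNNExtension.of.range : Subgroup (HNNExtension H A B φ)),
        (HNNExtension.of (e.symm y) : HNNExtension H A B φ) = y := by
      intro y
      exact congrArg Subtype.val (e.apply_symm_apply y)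
    refine hv'.of_hom ((e.symm.toMonoidHom.comp (inclusion (inf_le_left :
      (HNNExtension.of.range : Subgroup (HNNExtension H A B φ)) ⊓ commensurator (zpowers
        (HNNExtension.of z)) ≤ _))).codRestrict _ fun x => hmem _ ?_) ?_ ?_ ?_
    · show HNNExtension.of (e.symm (inclusion _ x)) ∈ _
      rw [he]
      exact x.2.2
    · intro x _ h1
      have h2 : e.symm (inclusion inf_le_left x) = 1 := congrArg Subtype.val h1
      have h3 := he (inclusion inf_le_left x)
      rw [h2, map_one] at h3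
      exact Subtype.ext h3.symm
    · rintro ⟨y, hy1, hy2⟩ ⟨k, hk⟩
      refine ⟨k, hinj ?_⟩
      have hk : (HNNExtension.of z : HNNExtension H A B φ) ^ k = y := hk
      show HNNExtension.of (z ^ k) = HNNExtension.of (e.symm _)
      rw [he, map_zpow, hk]
      rfl
    · rintro ⟨y, hy⟩ ⟨k, hk⟩
      have hk : z ^ k = y := hk
      refine ⟨⟨HNNExtension.of y, ⟨y, rfl⟩, ?_⟩, ⟨k, ?_⟩, Subtype.ext (hinj ?_)⟩
      · rw [← hk, map_zpow]
        exact le_comm hz' ⟨k, rfl⟩
      · show HNNExtension.of z ^ k = HNNExtension.of y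
        rw [← hk, map_zpow]
      · show HNNExtension.of (e.symm _) = HNNExtension.of y
        rw [he]
        rfl

end Pool.Agent.U709.Lv
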