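import Pool.Agent.U709.Dom

/-!
# Specialization of groups of matrices of degree two over a polynomial ring; graded rings
-/

set_option autoImplicit false

namespace Pool.Agent.U709

open Matrix
open Pool.Agent.Y110.FJ (ClosedE)

variable {C : ∀ (G : Type) [Group G], Prop}

theorem isDegree_natDegree (Q : Type) [CommRing Q] [IsDomain Q] :
    IsDegree (Polynomial.natDegree : Polynomial Q → ℕ) where
  mul := fun _ _ ha hb => Polynomial.natDegree_mul ha hb
  add := fun a b _ _ _ => Polynomial.natDegree_add_le a b

theorem pow_dvd_of_mem {Q : Type} [CommRing Q] (k : ℕ) (r : Polynomial Q)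
    (hr : r ∈ (RingHom.ker (Polynomial.constantCoeff : Polynomial Q →+* Q)) ^ k) :
    Polynomial.X ^ k ∣ r := by
  have h1 : RingHom.ker (Polynomial.constantCoeff : Polynomial Q →+* Q) =
      Ideal.span {Polynomial.X} := by
    ext p
    rw [RingHom.mem_ker, Polynomial.constantCoeff_apply, Ideal.mem_span_singleton,
      Polynomial.X_dvd_iff]
  rw [h1, Ideal.span_singleton_pow, Ideal.mem_span_singleton] at hr
  exact hr

/-- **Specialization**: a group of matrices of degree two over a polynomial ring is in `C` if its image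
under `t ↦ 0` is. -/
theorem spec (hC : ClosedE C) (hS : ∀ (G : Type) [Group G], Group.IsSolvable G → C G)
    {Q : Type} [CommRing Q] [IsDomain Q] (Γ : Subgroup (GL (Fin 2) (Polynomial Q)))
    (hΓ : C (Γ.map (GeneralLinearGroup.map Polynomial.constantCoeff))) : C Γ := by
  refine main_dom hC hS (isDegree_natDegree Q) Polynomial.constantCoeff ?_ Γ hΓ
  intro n
  refine ⟨n + 1, fun r hr h0 => ?_⟩
  have h1 := pow_dvd_of_mem _ r hr
  have h2 := Polynomial.natDegree_le_of_dvd h1 h0
  rw [Polynomial.natDegree_X_pow] at h2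
  omega

/-- a ring hom to a polynomial ring -/
theorem spec_hom (hC : ClosedE C) (hS : ∀ (G : Type) [Group G], Group.IsSolvable G → C G)
    {R Q : Type} [CommRing R] [CommRing Q] [IsDomain Q] (Φ : R →+* Polynomial Q)
    (hΦ : Function.Injective Φ) (S : Subring Q) (hS' : ∀ r, (Φ r).coeff 0 ∈ S)
    (h : C (GL (Fin 2) S)) : C (GL (Fin 2) R) := by
  have hinj : Function.Injective (GeneralLinearGroup.map (n := Fin 2) Φ) := by
    intro a b hab
    apply GeneralLinearGroup.ext
    intro i j
    apply hΦ
    have : (GeneralLinearGroup.map Φ a).1 i j = (GeneralLinearGroup.map Φ b).1 i j := by rw [hab]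
    exact this
  obtain ⟨Γ, hΓ⟩ : ∃ Γ, Γ = (GeneralLinearGroup.map (n := Fin 2) Φ).range := ⟨_, rfl⟩
  have h1 : C Γ := by
    refine spec hC hS Γ ?_
    let ψ : R →+* S := (Polynomial.constantCoeff.comp Φ).codRestrict S hS'
    let θ : GL (Fin 2) S →* GL (Fin 2) Q := GeneralLinearGroup.map (n := Fin 2) S.subtype
    have hθ : Function.Injective θ := by
      intro a b hab
      apply GeneralLinearGroup.ext
      intro i j
      apply Subtype.ext
      have : (θ a).1 i j = (θ b).1 i j := by rw [hab]
      exact this
    have hle : Γ.map (GeneralLinearGroup.map Polynomial.constantCoeff) ≤ θ.range := by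
      rw [hΓ]
      rintro _ ⟨_, ⟨g, rfl⟩, rfl⟩
      refine ⟨GeneralLinearGroup.map ψ g, ?_⟩
      apply GeneralLinearGroup.ext
      intro i j
      rfl
    have h2 : C θ.range := by
      refine hC.base.of_injective _ _ (MonoidHom.ofInjective hθ).symm.toMonoidHom ?_ h
      exact (MonoidHom.ofInjective hθ).symm.injective
    exact hC.base.of_injective _ _ (Subgroup.inclusion hle) (Subgroup.inclusion_injective hle) h2
  refine hC.base.of_injective _ _ ((GeneralLinearGroup.map (n := Fin 2) Φ).codRestrict Γ ?_) ?_ h1
  · intro x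
    rw [hΓ]
    exact ⟨x, rfl⟩
  · intro a b hab
    exact hinj (congrArg Subtype.val hab)

section graded

variable {R : Type} [CommRing R] (𝒜 : ℕ → AddSubgroup R) [GradedRing 𝒜]

/-- the homomorphism from a graded ring to the polynomial ring: `r ↦ ∑ r_i t ^ i` -/
noncomputable def toPoly : R →+* Polynomial R :=
  (DirectSum.toSemiring
    (fun i => (Polynomial.monomial i).toAddMonoidHom.comp (𝒜 i).subtype)
    (by
      change Polynomial.monomial 0 ((1 : 𝒜 0) : R) = 1
      rw [SetLike.GradeZero.coe_one]
      rfl)
    (by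
      intro i j a b
      exact (Polynomial.monomial_mul_monomial i j (a : R) (b : R)).symm)).comp (DirectSum.decomposeRingEquiv 𝒜).toRingHom

theorem toPoly_hom {i : ℕ} {a : R} (ha : a ∈ 𝒜 i) : toPoly 𝒜 a = Polynomial.monomial i a := by
  unfold toPoly
  rw [RingHom.comp_apply]
  have h1 : (DirectSum.decomposeRingEquiv 𝒜).toRingHom a = DirectSum.of (fun i => 𝒜 i) i ⟨a, ha⟩ :=
    DirectSum.decompose_of_mem 𝒜 ha
  rw [h1, DirectSum.toSemiring_of]
  rfl

theorem toPoly_eval (r : R) : (toPoly 𝒜 r).eval 1 = r := by
  induction r using DirectSum.Decomposition.inductionOn 𝒜 with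
  | zero => simp
  | homogeneous m =>
    rw [toPoly_hom 𝒜 m.2]
    simp
  | add a b ha hb => rw [map_add, Polynomial.eval_add, ha, hb]

theorem toPoly_coeff (r : R) : (toPoly 𝒜 r).coeff 0 ∈ 𝒜 0 := by
  induction r using DirectSum.Decomposition.inductionOn 𝒜 with
  | zero => simp
  | homogeneous m =>
    rename_i i
    rw [toPoly_hom 𝒜 m.2, Polynomial.coeff_monomial]
    split_ifs with h
    · subst h
      exact m.2
    · exact zero_mem _
  | add a b ha hb =>
    rw [map_add, Polynomial.coeff_add]
    exact add_mem ha hb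

/-- **graded domains** -/
theorem graded (hC : ClosedE C) (hS : ∀ (G : Type) [Group G], Group.IsSolvable G → C G)
    [IsDomain R] : C (GL (Fin 2) R) ↔ C (GL (Fin 2) (SetLike.GradeZero.subring 𝒜)) := by
  constructor
  · intro h
    refine hC.base.of_injective _ _
      (GeneralLinearGroup.map (n := Fin 2) (SetLike.GradeZero.subring 𝒜).subtype) ?_ h
    intro a b hab
    apply GeneralLinearGroup.ext
    intro i j
    apply Subtype.ext
    have : (GeneralLinearGroup.map (SetLike.GradeZero.subring 𝒜).subtype a).1 i j =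
      (GeneralLinearGroup.map (SetLike.GradeZero.subring 𝒜).subtype b).1 i j := by rw [hab]
    exact this
  · intro h
    refine spec_hom hC hS (toPoly 𝒜) ?_ (SetLike.GradeZero.subring 𝒜) (toPoly_coeff 𝒜) h
    intro a b hab
    rw [← toPoly_eval 𝒜 a, hab, toPoly_eval]

end graded

/-- the homomorphism `X i ↦ X i * t` -/
noncomputable def mvT (σ Q : Type) [CommRing Q] : MvPolynomial σ Q →+* Polynomial (MvPolynomial σ Q) :=
  MvPolynomial.eval₂Hom (Polynomial.C.comp MvPolynomial.C)
    (fun i => Polynomial.C (MvPolynomial.X i) * Polynomial.X)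

theorem mvT_eval (σ Q : Type) [CommRing Q] (p : MvPolynomial σ Q) : (mvT σ Q p).eval 1 = p := by
  have h : (Polynomial.evalRingHom 1).comp (mvT σ Q) = RingHom.id _ := by
    apply MvPolynomial.ringHom_ext
    · intro r
      simp [mvT]
    · intro i
      simp [mvT]
  exact congrArg (fun f : MvPolynomial σ Q →+* MvPolynomial σ Q => f p) h

theorem mvT_coeff (σ Q : Type) [CommRing Q] (p : MvPolynomial σ Q) :
    (mvT σ Q p).coeff 0 = MvPolynomial.C (MvPolynomial.constantCoeff p) := by
  have h : Polynomial.constantCoeff.comp (mvT σ Q) =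
      MvPolynomial.C.comp MvPolynomial.constantCoeff := by
    apply MvPolynomial.ringHom_ext
    · intro r
      simp [mvT]
    · intro i
      simp [mvT]
  exact congrArg (fun f : MvPolynomial σ Q →+* MvPolynomial σ Q => f p) h

/-- **polynomial rings** in any set of variables -/
theorem mv (hC : ClosedE C) (hS : ∀ (G : Type) [Group G], Group.IsSolvable G → C G)
    (σ Q : Type) [CommRing Q] [IsDomain Q] :
    C (GL (Fin 2) (MvPolynomial σ Q)) ↔ C (GL (Fin 2) Q) := by
  have hinj : ∀ {A B : Type} [CommRing A] [CommRing B] (f : A →+* B), Function.Injective f →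
      Function.Injective (GeneralLinearGroup.map (n := Fin 2) f) := by
    intro A B _ _ f hf a b hab
    apply GeneralLinearGroup.ext
    intro i j
    apply hf
    have : (GeneralLinearGroup.map f a).1 i j = (GeneralLinearGroup.map f b).1 i j := by rw [hab]
    exact this
  constructor
  · intro h
    exact hC.base.of_injective _ _ _ (hinj MvPolynomial.C (MvPolynomial.C_injective σ Q)) h
  · intro h
    refine spec_hom hC hS (mvT σ Q) ?_ (MvPolynomial.C (σ := σ) (R := Q)).range ?_ ?_
    · intro a b hab
      rw [← mvT_eval σ Q a, hab, mvT_eval]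
    · intro r
      rw [mvT_coeff]
      exact ⟨_, rfl⟩
    · let e : Q ≃+* (MvPolynomial.C (σ := σ) (R := Q)).range :=
        RingEquiv.ofBijective (MvPolynomial.C (σ := σ) (R := Q)).rangeRestrict
          ⟨fun a b hab => MvPolynomial.C_injective σ Q (congrArg Subtype.val hab),
            RingHom.rangeRestrict_surjective _⟩
      exact hC.base.of_injective _ _ _ (hinj e.symm.toRingHom e.symm.injective) h

end Pool.Agent.U709
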