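import Pool.Agent.U74.BC.Am

/-!
# The relative theorem on acylindrical actions, and central elements which fix a vertex
-/

set_option autoImplicit false

namespace Pool.Agent.U709.Rk

open SimpleGraph Subgroup
open Pool.Agent.Y110.FJ
open Pool.Agent.R941.FJ (C_equiv C_le C_cyc)
open Pool.Agent.N509.TX (AcylF finedge fg_subtree STree of_fg of_fg_mem C_stab)
open Pool.Agent.N431.CE (Es mem_Es Es_comm Es_smul)
open Pool.Agent.U74.BC (VCyc vc_relIndex finite_map_of central_ext central_normal C_vcyc)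

/-- the relative theorem on acylindrical actions: let `f` be a homomorphism from `G` onto a finitely
generated group `Q` which acts acylindrically and without inversions on a tree (the pointwise stabilizers
of the paths of length at least `k` have at most `n` elements); if the preimages of the stabilizers
of the vertices and of the virtually cyclic subgroups of `Q` are in the class, then `G` is in the class -/
def AcylR (C : ∀ (G : Type) [Group G], Prop) : Prop :=
  ∀ (G Q V : Type) [Group G] [Group Q] [MulAction Q V] (f : G →* Q) (T : SimpleGraph V),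
    Function.Surjective f → Group.FG Q → T.IsTree →
    (∀ (g : Q) (u v : V), T.Adj u v → T.Adj (g • u) (g • v)) →
    (∀ (g : Q) (u v : V), T.Adj u v → ¬ (g • u = v ∧ g • v = u)) →
    (∃ k n : ℕ, ∀ (u v : V) (p : T.Walk u v), p.IsPath → k ≤ p.length →
      ∀ F : Finset Q, (∀ g ∈ F, ∀ x ∈ p.support, g • x = x) → F.card ≤ n) →
    (∀ v : V, C ↥((MulAction.stabilizer Q v).comap f)) →
    (∀ W : Subgroup Q, VCyc W → C ↥(W.comap f)) → C G

variable {C : ∀ (G : Type) [Group G], Prop}

theorem AcylR.acylF (hC : ClosedE C) (h : AcylR C) : AcylF C := by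
  intro G V _ _ T hfg hT hact hinv hk hV
  refine h G G V (MonoidHom.id G) T Function.surjective_id hfg hT hact hinv hk ?_ ?_
  · intro v
    rw [Subgroup.comap_id]
    exact hV v
  · intro W hW
    rw [Subgroup.comap_id]
    exact C_vcyc hC hW

/-- paths of length at least one contain an edge -/
theorem path_edge {V : Type} {T : SimpleGraph V} {u v : V} (p : T.Walk u v) (h : 1 ≤ p.length) :
    ∃ a b, T.Adj a b ∧ a ∈ p.support ∧ b ∈ p.support := by
  cases p with
  | nil => exact absurd h (by simp)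
  | @cons _ w _ hadj p =>
    refine ⟨u, w, hadj, Walk.start_mem_support _, ?_⟩
    rw [Walk.support_cons]
    exact List.mem_cons_of_mem _ (Walk.start_mem_support _)

variable {G V : Type} [Group G] [MulAction G V] {T : SimpleGraph V}

/-- central elements which act trivially, for finitely generated groups -/
theorem triv_fg (hC : ClosedE C) (hM : ∀ (G : Type) [Group G], derivedSeries G 2 = ⊥ → C G)
    (hA : AcylR C) (hfg : Group.FG G) (hT : T.IsTree)
    (hact : ∀ (g : G) (u v : V), T.Adj u v → T.Adj (g • u) (g • v))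
    (hinv : ∀ (g : G) (u v : V), T.Adj u v → ¬ (g • u = v ∧ g • v = u))
    (z : G) (hz : ∀ g, z * g = g * z) (hzo : ¬ IsOfFinOrder z)
    (hV0 : ∀ v : V, z • v = v) (hE : ∀ u v, T.Adj u v → VCyc (Es G u v))
    (hV : ∀ v : V, C (MulAction.stabilizer G v)) : C G := by
  classical
  have hn : (Subgroup.zpowers z).Normal := central_normal z hz
  obtain ⟨v0⟩ := hT.connected.nonempty
  obtain ⟨W, _, T', ι, Φ, hS, ⟨w, hw⟩, hΦ, hΦ'⟩ := fg_subtree hT hact hfg v0
  have hzW : ∀ w : W, z • w = w := fun w => hS.fix.2 (hV0 _)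
  let ρ : G ⧸ Subgroup.zpowers z →* Equiv.Perm W :=
    QuotientGroup.lift _ (MulAction.toPermHom G W) (by
      rintro _ ⟨k, rfl⟩
      have h1 : MulAction.toPermHom G W z = 1 := by
        ext w
        exact hzW w
      show MulAction.toPermHom G W (z ^ k) = 1
      rw [map_zpow, h1, one_zpow])
  let _ : MulAction (G ⧸ Subgroup.zpowers z) W := MulAction.compHom W ρ
  have hsm : ∀ (g : G) (w : W), ((g : G ⧸ Subgroup.zpowers z)) • w = g • w := fun _ _ => rfl
  have hfg' : Group.FG (G ⧸ Subgroup.zpowers z) := by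
    have := hfg
    infer_instance
  obtain ⟨π, hπ⟩ : ∃ π : G →* G ⧸ Subgroup.zpowers z, π = QuotientGroup.mk' (Subgroup.zpowers z) :=
    ⟨_, rfl⟩
  have hπz : π z = 1 := by
    rw [hπ]
    exact (QuotientGroup.eq_one_iff z).2 (Subgroup.mem_zpowers z)
  have hπs : Function.Surjective π := by
    rw [hπ]
    exact QuotientGroup.mk'_surjective _
  have hπk : ∀ g : G, π g = 1 ↔ g ∈ Subgroup.zpowers z := by
    intro g
    rw [hπ]
    exact QuotientGroup.eq_one_iff g
  have hsm' : ∀ (g : G) (w : W), π g • w = g • w := fun g w => by rw [hπ]; rfl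
  have hzE : ∀ u v : V, z ∈ Es G u v := fun u v => ⟨hV0 u, hV0 v⟩
  have hfin : ∀ e ∈ Φ, Finite ((Es G e.1 e.2).map π) := fun e he =>
    finite_map_of π hπz _ (vc_relIndex (hE _ _ (hΦ e he)) (hzE _ _) hzo)
  obtain ⟨m, hm0⟩ : ∃ m : V × V → ℕ, ∀ e, m e = Nat.card ((Es G e.1 e.2).map π) :=
    ⟨_, fun _ => rfl⟩
  have hedge : ∀ u v : W, T'.Adj u v → ∀ F : Finset (G ⧸ Subgroup.zpowers z),
      (∀ g ∈ F, g • u = u ∧ g • v = v) → F.card ≤ ∑ e ∈ Φ, m e := by
    intro u v huv F hF
    obtain ⟨h, hh⟩ := hΦ' u v huv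
    have key : ∀ e ∈ Φ, ({h • ι u, h • ι v} : Set V) = {e.1, e.2} →
        F.card ≤ m e := by
      intro e he hset
      rw [hm0]
      have := hfin e he
      have hm : ∀ q ∈ F, π h * q * (π h)⁻¹ ∈ (Es G e.1 e.2).map π := by
        intro q hq
        obtain ⟨g, rfl⟩ := QuotientGroup.mk_surjective q
        obtain ⟨h1, h2⟩ := hF _ hq
        rw [hsm] at h1 h2
        have h3 : g • ι u = ι u := hS.fix.1 h1
        have h4 : g • ι v = ι v := hS.fix.1 h2
        refine ⟨h * g * h⁻¹, ?_, by rw [map_mul, map_mul, map_inv, hπ]; rfl⟩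
        have h5 : ∀ x ∈ ({h • ι u, h • ι v} : Set V), (h * g * h⁻¹) • x = x := by
          rintro x (rfl | rfl)
          · rw [mul_smul, mul_smul, inv_smul_smul, h3]
          · rw [mul_smul, mul_smul, inv_smul_smul, h4]
        rw [hset] at h5
        exact ⟨h5 _ (Or.inl rfl), h5 _ (Or.inr rfl)⟩
      let f : F → (Es G e.1 e.2).map π := fun q => ⟨π h * q * (π h)⁻¹, hm q q.2⟩
      have hf : Function.Injective f := by
        intro a b hab
        have h6 := congrArg Subtype.val hab
        have h7 : π h * (a : G ⧸ Subgroup.zpowers z) * (π h)⁻¹ = π h * b * (π h)⁻¹ := h6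
        exact Subtype.ext (mul_left_cancel (mul_right_cancel h7))
      have h8 := Nat.card_le_card_of_injective f hf
      simpa using h8
    have hle : ∀ e ∈ Φ, m e ≤ ∑ e ∈ Φ, m e := fun e he =>
      Finset.single_le_sum (f := m) (fun _ _ => Nat.zero_le _) he
    rcases hh with hh | hh
    · exact (key _ hh rfl).trans (hle _ hh)
    · exact (key _ hh (Set.pair_comm _ _)).trans (hle _ hh)
  refine hA G (G ⧸ Subgroup.zpowers z) W π T' hπs hfg' hS.tree ?_ ?_ ⟨1, ∑ e ∈ Φ, m e, ?_⟩ ?_ ?_
  · intro q u v h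
    obtain ⟨g, rfl⟩ := QuotientGroup.mk_surjective q
    exact hS.act g u v h
  · rintro q u v h ⟨h1, h2⟩
    obtain ⟨g, rfl⟩ := QuotientGroup.mk_surjective q
    rw [hsm] at h1 h2
    refine hinv g _ _ (hS.adj u v h) ⟨?_, ?_⟩
    · rw [← hS.eqv, h1]
    · rw [← hS.eqv, h2]
  · intro u v p _ hp F hF
    obtain ⟨a, b, hab, ha, hb⟩ := path_edge p hp
    exact hedge a b hab F fun g hg => ⟨hF g hg a ha, hF g hg b hb⟩
  · intro w
    have h1 : (MulAction.stabilizer (G ⧸ Subgroup.zpowers z) w).comap π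
        = MulAction.stabilizer G (ι w) := by
      ext g
      rw [Subgroup.mem_comap, MulAction.mem_stabilizer_iff, MulAction.mem_stabilizer_iff, hsm']
      exact hS.fix
    rw [h1]
    exact hV _
  · intro W' hW'
    -- a central extension of a virtually cyclic group
    obtain ⟨L, hL⟩ : ∃ L : Subgroup G, L = W'.comap π := ⟨_, rfl⟩
    rw [← hL]
    have hzL : z ∈ L := by
      rw [hL, Subgroup.mem_comap, hπz]
      exact one_mem _
    have hz' : ∀ g : L, (⟨z, hzL⟩ : L) * g = g * ⟨z, hzL⟩ := fun g => Subtype.ext (hz g)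
    refine central_ext hC hM (⟨z, hzL⟩ : L) hz' (central_normal _ hz') ?_
    have hn' := central_normal (⟨z, hzL⟩ : L) hz'
    let φ : L →* W' := (π.comp L.subtype).codRestrict W' (by
      rintro ⟨x, hx⟩
      rw [hL] at hx
      exact hx)
    have hker : ∀ x : L, φ x = 1 ↔ x ∈ Subgroup.zpowers (⟨z, hzL⟩ : L) := by
      intro x
      have h1 : φ x = 1 ↔ π x = 1 :=
        ⟨fun h => congrArg Subtype.val h, fun h => Subtype.ext h⟩
      rw [h1, hπk]
      constructor
      · rintro ⟨k, hk⟩
        refine ⟨k, Subtype.ext ?_⟩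
        show (((⟨z, hzL⟩ : L) ^ k : L) : G) = x
        rw [Subgroup.coe_zpow]
        exact hk
      · rintro ⟨k, hk⟩
        refine ⟨k, ?_⟩
        have h2 := congrArg Subtype.val hk
        have h3 : (((⟨z, hzL⟩ : L) ^ k : L) : G) = x := h2
        rwa [Subgroup.coe_zpow] at h3
    refine hC.base.of_injective _ W' (QuotientGroup.lift _ φ fun x hx => (hker x).2 hx) ?_
      (C_vcyc hC hW')
    rw [injective_iff_map_eq_one]
    intro a ha
    obtain ⟨x, rfl⟩ := QuotientGroup.mk_surjective a
    exact (QuotientGroup.eq_one_iff x).2 ((hker x).1 ha)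

/-- central elements which act trivially -/
theorem triv_all (hC : ClosedE C) (hM : ∀ (G : Type) [Group G], derivedSeries G 2 = ⊥ → C G)
    (hA : AcylR C) (hT : T.IsTree)
    (hact : ∀ (g : G) (u v : V), T.Adj u v → T.Adj (g • u) (g • v))
    (hinv : ∀ (g : G) (u v : V), T.Adj u v → ¬ (g • u = v ∧ g • v = u))
    (z : G) (hz : ∀ g, z * g = g * z) (hzo : ¬ IsOfFinOrder z)
    (hV0 : ∀ v : V, z • v = v) (hE : ∀ u v, T.Adj u v → VCyc (Es G u v))
    (hV : ∀ v : V, C (MulAction.stabilizer G v)) : C G := by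
  refine of_fg_mem hC z fun H hH hzH => ?_
  refine triv_fg (G := H) (T := T) hC hM hA hH hT (fun g u v h => hact g u v h)
    (fun g u v h => hinv g u v h) ⟨z, hzH⟩ (fun g => Subtype.ext (hz g)) ?_ (fun v => hV0 v) ?_ ?_
  · rwa [← Function.Injective.isOfFinOrder_iff (f := H.subtype) H.subtype_injective]
  · intro u v huv
    let f : Es H u v →* Es G u v := (H.subtype.comp (Es H u v).subtype).codRestrict _ fun x => x.2
    refine VCyc.of_injective f ?_ (hE u v huv)
    intro a b hab
    exact Subtype.ext (Subtype.ext (congrArg (fun x : Es G u v => (x : G)) hab))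
  · intro v
    exact C_stab hC H v (hV v)

/-- **central elements which fix a vertex** -/
theorem central (hC : ClosedE C) (hM : ∀ (G : Type) [Group G], derivedSeries G 2 = ⊥ → C G)
    (hA : AcylR C) (hT : T.IsTree)
    (hact : ∀ (g : G) (u v : V), T.Adj u v → T.Adj (g • u) (g • v))
    (hinv : ∀ (g : G) (u v : V), T.Adj u v → ¬ (g • u = v ∧ g • v = u))
    (z : G) (hz : ∀ g, z * g = g * z) (hzo : ¬ IsOfFinOrder z)
    (v0 : V) (hv0 : z • v0 = v0) (hE : ∀ u v, T.Adj u v → VCyc (Es G u v))
    (hV : ∀ v : V, C (MulAction.stabilizer G v)) : C G := by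
  classical
  obtain ⟨S, hS⟩ : ∃ S : Set V, S = {v | z • v = v} := ⟨_, rfl⟩
  have hmS : ∀ v, v ∈ S ↔ z • v = v := fun v => by rw [hS]; rfl
  have hcv : ∀ u v : V, z • u = u → z • v = v → ∀ p : T.Walk u v, p.IsPath →
      ∀ x ∈ p.support, z • x = x := fun u v hu hv p hp =>
    Pool.Agent.U74.BC.fix_path hT hact hu hv p hp
  have hSs : ∀ (g : G) (v : V), v ∈ S → g • v ∈ S := by
    intro g v hv
    rw [hmS] at hv ⊢
    rw [← mul_smul, hz g, mul_smul, hv]
  let iA : MulAction G S :=
    { smul := fun g v => ⟨g • (v : V), hSs g v v.2⟩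
      one_smul := fun v => Subtype.ext (one_smul G (v : V))
      mul_smul := fun g h v => Subtype.ext (mul_smul g h (v : V)) }
  have hsm : ∀ (g : G) (v : S), ((g • v : S) : V) = g • (v : V) := fun _ _ => rfl
  have htree : (T.induce S).IsTree := by
    refine ⟨?_, hT.isAcyclic.induce _⟩
    have : Nonempty S := ⟨⟨v0, (hmS v0).2 hv0⟩⟩
    refine ⟨fun v u => ?_⟩
    obtain ⟨p, hp, -⟩ := hT.existsUnique_path (v : V) (u : V)
    exact ⟨p.induce _ fun x hx => (hmS x).2 (hcv _ _ ((hmS _).1 v.2) ((hmS _).1 u.2) p hp x hx)⟩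
  have hst : ∀ v : S, MulAction.stabilizer G v = MulAction.stabilizer G (v : V) := by
    intro v
    ext g
    rw [MulAction.mem_stabilizer_iff, MulAction.mem_stabilizer_iff, ← hsm]
    exact ⟨fun h => congrArg Subtype.val h, fun h => Subtype.ext h⟩
  refine triv_all (V := S) (T := T.induce S) hC hM hA htree ?_ ?_ z hz hzo ?_ ?_ ?_
  · intro g u v h
    exact hact g _ _ h
  · rintro g u v h ⟨h1, h2⟩
    exact hinv g _ _ h ⟨congrArg Subtype.val h1, congrArg Subtype.val h2⟩
  · intro v
    exact Subtype.ext ((hmS _).1 v.2)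
  · intro u v h
    have h1 : Es G u v = Es G (u : V) (v : V) := by
      unfold Es
      rw [hst, hst]
    rw [h1]
    exact hE _ _ h
  · intro v
    rw [hst]
    exact hV _

end Pool.Agent.U709.Rk
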