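import Pool.Agent.U709.RkB
import Pool.Agent.U385.FJ.Main

/-!
# Compatible families which contain the edge groups
-/

set_option autoImplicit false

namespace Pool.Agent.U709.Rk

open SimpleGraph Subgroup
open Pool.Agent.Y110.FJ
open Pool.Agent.R941.FJ (C_equiv C_le C_cyc)
open Pool.Agent.N509.TK
open Pool.Agent.N509.TX (AcylF finedge fg_subtree STree of_fg of_fg_mem C_stab)
open Pool.Agent.U385.FJ (Fm toTq)
open Pool.Agent.U74.BC (VCyc)

variable {C : ∀ (G : Type) [Group G], Prop} {G V : Type} {T : SimpleGraph V} [Group G]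
  [MulAction G V] {R : V → Subgroup G}

/-- overgroups of finite index -/
theorem C_over (hC : ClosedE C) {K L : Subgroup G} (hLK : L ≤ K) (h : L.relIndex K ≠ 0) (hL : C L) :
    C K := by
  refine hC.base.finiteIndex K (L.subgroupOf K) ⟨h⟩ ?_
  exact C_equiv hC.base (Subgroup.subgroupOfEquivOfLe hLK) hL

/-- **the group generated by a compatible family which contains the edge groups** -/
theorem rel_free (hC : ClosedE C) (hA : AcylR C) (hfg : Group.FG G) (hT : T.IsTree)
    (hact : ∀ (g : G) (u v : V), T.Adj u v → T.Adj (g • u) (g • v))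
    (hinv : ∀ (g : G) (u v : V), T.Adj u v → ¬ (g • u = v ∧ g • v = u)) (hR : Fm T R)
    (hE : ∀ u v, T.Adj u v → ∀ g : G, g • u = u → g • v = v → g ∈ R u)
    (h1 : ∀ v : V, (∀ w : V, (∀ m ∈ ⨆ v, R v, m • v ≠ w) →
      ∀ g ∈ MulAction.stabilizer G v ⊔ ⨆ v, R v, g • w = w → g ∈ R w) →
      C ↥(MulAction.stabilizer G v ⊔ ⨆ v, R v))
    (h2 : ∀ L : Subgroup G, (⨆ v, R v) ≤ L → (∀ v : V, ∀ g ∈ L, g • v = v → g ∈ R v) → C L) :
    C G := by
  classical
  obtain ⟨S, hS⟩ := Tv.exists (R := R) hT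
  have hq := toTq hT hact hR hS
  have hN := hR.normal
  obtain ⟨M, hM⟩ : ∃ M : Subgroup G, M = ⨆ v, R v := ⟨_, rfl⟩
  have hstab : ∀ v : V, ∀ g ∈ M, g • v = v → g ∈ R v := by
    intro v g hg hv
    rw [hM] at hg
    exact Pool.Agent.U385.FJ.stab hT hact hR hg hv
  have hRM : ∀ v, R v ≤ M := fun v => hM ▸ le_iSup R v
  rw [← hM] at hq hN h1 h2
  let _ := qa hq
  obtain ⟨π, hπ⟩ : ∃ π : G →* G ⧸ M, π = QuotientGroup.mk' M := ⟨_, rfl⟩
  have hπs : Function.Surjective π := by
    rw [hπ]
    exact QuotientGroup.mk'_surjective _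
  have hπk : ∀ g : G, π g = 1 ↔ g ∈ M := by
    intro g
    rw [hπ]
    exact QuotientGroup.eq_one_iff g
  have hsm : ∀ (g : G) (s : S), π g • s = sm hq g s := fun g s => by rw [hπ]; rfl
  have hfg' : Group.FG (G ⧸ M) := by
    have := hfg
    infer_instance
  -- neighbours
  have nb : ∀ (s t : S) (a : G), T.Adj (s : V) (t : V) → a ∈ M → T.Adj (s : V) (a • (t : V)) →
      ∃ r ∈ M, r • (s : V) = s ∧ r • (t : V) = a • (t : V) := by
    intro s t a _ ha hadj
    obtain ⟨u, hu, h5, r, hr, hrs, h6⟩ := hq.max s s.2 _ hadj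
    have h7 : (⟨u, hu⟩ : S) = t := quq hq hr ha h6
    subst h7
    exact ⟨r, hr, hrs, h6⟩
  have hedge : ∀ (s t : S), T.Adj (s : V) (t : V) → ∀ q : G ⧸ M, q • s = s → q • t = t → q = 1 := by
    intro s t hst q hqs hqt
    obtain ⟨g, rfl⟩ := hπs q
    rw [hsm] at hqs hqt
    obtain ⟨h, hh, h3⟩ := sm_spec hq g s
    obtain ⟨k, hk, h4⟩ := sm_spec hq g t
    rw [hqs] at h3
    rw [hqt] at h4
    have h5 : (h⁻¹ * g) • (t : V) = (h⁻¹ * k) • (t : V) := by rw [mul_smul, h4, mul_smul]
    have hadj : T.Adj (s : V) ((h⁻¹ * k) • (t : V)) := by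
      rw [← h5]
      have h6 := hact (h⁻¹ * g) _ _ hst
      rwa [mul_smul, h3, inv_smul_smul] at h6
    obtain ⟨r, hr, hrs, hrt⟩ := nb s t _ hst (mul_mem (inv_mem hh) hk) hadj
    have h8 : r⁻¹ * (h⁻¹ * g) ∈ R (s : V) := by
      refine hE s t hst _ ?_ ?_
      · rw [mul_smul, mul_smul, h3, inv_smul_smul, inv_smul_eq_iff, hrs]
      · rw [mul_smul, h5, ← hrt, inv_smul_smul]
    rw [hπk]
    have h9 := mul_mem (mul_mem hh hr) (hRM _ h8)
    have h10 : h * r * (r⁻¹ * (h⁻¹ * g)) = g := by group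
    rwa [h10] at h9
  -- stabilizers
  have hst : ∀ (g : G) (s : S), π g • s = s → g ∈ MulAction.stabilizer G (s : V) ⊔ M := by
    intro g s h
    rw [hsm] at h
    obtain ⟨k, hk, h3⟩ := sm_spec hq g s
    rw [h] at h3
    have h4 : k⁻¹ * g ∈ MulAction.stabilizer G (s : V) := by
      rw [MulAction.mem_stabilizer_iff, mul_smul, h3, inv_smul_smul]
    have h5 := mul_mem (Subgroup.mem_sup_right (S := MulAction.stabilizer G (s : V)) hk)
      (Subgroup.mem_sup_left (T := M) h4)
    rwa [mul_inv_cancel_left] at h5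
  have hMC : C M := h2 M le_rfl fun v g hg hv => hstab v g hg hv
  have hactQ : ∀ (q : G ⧸ M) (s t : S), (T.induce S).Adj s t → (T.induce S).Adj (q • s) (q • t) := by
    intro q s t hst
    obtain ⟨g, rfl⟩ := hπs q
    rw [hsm, hsm]
    exact sm_adj hact hq g s t hst
  have hfixQ : ∀ (g : G) (a : G) (t : S), a ∈ M → g • a • (t : V) = a • (t : V) → π g • t = t := by
    intro g a t ha hg
    rw [hsm]
    refine sm_eq hq (h := g * a⁻¹ * g⁻¹ * a) (mul_mem (hN.conj_mem _ (inv_mem ha) g) ha) ?_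
    have h4 : g⁻¹ • a • (t : V) = a • (t : V) := by rw [inv_smul_eq_iff, hg]
    rw [mul_smul, mul_smul, mul_smul, h4, inv_smul_smul]
  have h1' : ∀ s : S, C ↥(MulAction.stabilizer G (s : V) ⊔ M) := by
    intro s
    refine h1 s fun w hw g hg hgw => ?_
    obtain ⟨a, ha, t, ht, rfl⟩ := hq.cover w
    have h3 : π g • (⟨t, ht⟩ : S) = ⟨t, ht⟩ := hfixQ g a ⟨t, ht⟩ ha hgw
    have h4 : π g • s = s := by
      have h5 : MulAction.stabilizer G (s : V) ⊔ M ≤ (MulAction.stabilizer (G ⧸ M) s).comap π := by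
        refine sup_le ?_ ?_
        · intro x hx
          rw [Subgroup.mem_comap, MulAction.mem_stabilizer_iff]
          refine hfixQ x 1 s (one_mem _) ?_
          rw [one_smul]
          exact hx
        · intro x hx
          rw [Subgroup.mem_comap, (hπk x).2 hx]
          exact one_mem _
      exact h5 hg
    have hne : s ≠ ⟨t, ht⟩ := by
      rintro rfl
      exact hw a ha rfl
    obtain ⟨p, hp, -⟩ := (hq.isTree hT).existsUnique_path s ⟨t, ht⟩
    have hfp := Pool.Agent.U74.BC.fix_path (hq.isTree hT) hactQ h4 h3 p hp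
    have hlen : 1 ≤ p.length := by
      by_contra hlen
      have h6 : p.length = 0 := by omega
      exact hne (Walk.eq_of_length_eq_zero h6)
    obtain ⟨x, y, hxy, hx, hy⟩ := path_edge p hlen
    have h7 := hedge x y hxy (π g) (hfp x hx) (hfp y hy)
    exact hstab _ g ((hπk g).1 h7) hgw
  refine hA G (G ⧸ M) S π (T.induce S) hπs hfg' (hq.isTree hT) ?_ ?_ ⟨1, 1, ?_⟩ ?_ ?_
  · intro q s t hst
    obtain ⟨g, rfl⟩ := hπs q
    rw [hsm, hsm]
    exact sm_adj hact hq g s t hst
  · rintro q s t hst ⟨e1, e2⟩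
    have hst' : T.Adj (s : V) (t : V) := hst
    obtain ⟨g, rfl⟩ := hπs q
    rw [hsm] at e1 e2
    obtain ⟨h, hh, h3⟩ := sm_spec hq g s
    obtain ⟨k, hk, h4⟩ := sm_spec hq g t
    rw [e1] at h3
    rw [e2] at h4
    have h6 : (h⁻¹ * g) • (s : V) = t := by rw [mul_smul, h3, inv_smul_smul]
    have h7 : (h⁻¹ * g) • (t : V) = (h⁻¹ * k) • (s : V) := by rw [mul_smul, h4, mul_smul]
    have hadj : T.Adj (t : V) ((h⁻¹ * k) • (s : V)) := by
      rw [← h7, ← h6]
      exact hact _ _ _ (h6 ▸ hst')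
    obtain ⟨r, hr, hrs, hrt⟩ := nb t s _ hst'.symm (mul_mem (inv_mem hh) hk) hadj
    refine hinv (r⁻¹ * (h⁻¹ * g)) s t hst' ⟨?_, ?_⟩
    · rw [mul_smul, h6, inv_smul_eq_iff, hrs]
    · rw [mul_smul, h7, inv_smul_eq_iff, hrt]
  · intro u v p _ hp F hF
    obtain ⟨a, b, hab, ha, hb⟩ := path_edge p hp
    refine Finset.card_le_one.2 fun x hx y hy => ?_
    rw [hedge a b hab x (hF x hx a ha) (hF x hx b hb), hedge a b hab y (hF y hy a ha) (hF y hy b hb)]
  · intro s
    exact C_le hC.base (fun g hg => hst g s hg) (h1' s)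
  · rintro W ⟨c, hc⟩
    -- the preimage of the cyclic subgroup
    obtain ⟨K, hK⟩ : ∃ K : Subgroup G, K = W.comap π := ⟨_, rfl⟩
    rw [← hK]
    have hfin : ∀ d : G ⧸ M, (Subgroup.zpowers d).relIndex W ≠ 0 → d ∈ W →
        C ↥((Subgroup.zpowers d).comap π) → C K := by
      intro d hd hdW hCd
      refine C_over hC (L := (Subgroup.zpowers d).comap π) ?_ ?_ hCd
      · rw [hK]
        exact Subgroup.comap_mono (by rwa [Subgroup.zpowers_le])
      · rw [hK, Subgroup.relIndex_comap, Subgroup.map_comap_eq_self_of_surjective hπs]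
        exact hd
    obtain ⟨d, hd⟩ : ∃ d : G ⧸ M, d = (c : G ⧸ M) := ⟨_, rfl⟩
    have hdW : d ∈ W := hd ▸ c.2
    have hdi : (Subgroup.zpowers d).relIndex W ≠ 0 := by
      have h3 : Subgroup.zpowers c = (Subgroup.zpowers d).subgroupOf W := by
        ext x
        rw [Subgroup.mem_subgroupOf, hd]
        constructor
        · rintro ⟨k, hk⟩
          exact ⟨k, congrArg Subtype.val hk⟩
        · rintro ⟨k, hk⟩
          exact ⟨k, Subtype.ext hk⟩
      rw [h3] at hc
      exact hc
    by_cases hfix : ∃ (k : ℤ) (s : S), k ≠ 0 ∧ d ^ k • s = s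
    · obtain ⟨k, s, hk, hks⟩ := hfix
      refine hfin (d ^ k) ?_ (zpow_mem hdW k) ?_
      · -- a power
        have h4 : (Subgroup.zpowers (d ^ k)).relIndex (Subgroup.zpowers d) ≠ 0 := by
          intro h0
          have h5 : ((Subgroup.zpowers (d ^ k)).subgroupOf (Subgroup.zpowers d)).index ≠ 0 := by
            rw [Subgroup.index_ne_zero_iff_finite]
            obtain ⟨m, hm⟩ : ∃ m : ℕ, m = k.natAbs := ⟨_, rfl⟩
            have hm0 : 0 < m := by omega
            let f : Fin m → Subgroup.zpowers d ⧸ (Subgroup.zpowers (d ^ k)).subgroupOf (Subgroup.zpowers d) :=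
              fun i => ((⟨d ^ (i : ℕ), pow_mem (Subgroup.mem_zpowers d) _⟩ : Subgroup.zpowers d) :
                Subgroup.zpowers d ⧸ (Subgroup.zpowers (d ^ k)).subgroupOf (Subgroup.zpowers d))
            refine Finite.of_surjective f ?_
            intro q
            obtain ⟨⟨x, j, hj⟩, rfl⟩ := QuotientGroup.mk_surjective q
            have hj' : d ^ j = x := hj
            have hmk : (m : ℤ) ≠ 0 := by omega
            refine ⟨⟨(j % (m : ℤ)).toNat, ?_⟩, ?_⟩
            · have := Int.emod_lt_of_pos j (show (0 : ℤ) < m by omega)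
              have := Int.emod_nonneg j hmk
              omega
            · refine QuotientGroup.eq.2 ?_
              rw [Subgroup.mem_subgroupOf]
              show (d ^ (j % (m : ℤ)).toNat)⁻¹ * x ∈ Subgroup.zpowers (d ^ k)
              have h6 : ((j % (m : ℤ)).toNat : ℤ) = j % (m : ℤ) :=
                Int.toNat_of_nonneg (Int.emod_nonneg j hmk)
              have h7 : (d ^ (j % (m : ℤ)).toNat)⁻¹ * x = d ^ ((m : ℤ) * (j / m)) := by
                rw [← hj', ← zpow_natCast, h6, ← zpow_neg, ← zpow_add]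
                congr 1
                have := Int.emod_add_mul_ediv j m
                linarith
              rw [h7, zpow_mul]
              refine zpow_mem ?_ _
              rcases Int.natAbs_eq k with h8 | h8
              · rw [hm, ← h8]
                exact Subgroup.mem_zpowers _
              · have h9 : (m : ℤ) = -k := by rw [hm]; omega
                rw [h9, zpow_neg]
                exact inv_mem (Subgroup.mem_zpowers _)
          exact h5 h0
        exact Subgroup.relIndex_ne_zero_trans h4 hdi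
      · refine C_le hC.base ?_ (h1' s)
        rintro g ⟨j, hj⟩
        refine hst g s ?_
        have hj' : (d ^ k) ^ j = π g := hj
        rw [← hj']
        have h5 : d ^ k ∈ MulAction.stabilizer (G ⧸ M) s := hks
        exact zpow_mem h5 j
    · refine hfin d hdi hdW (h2 _ ?_ ?_)
      · intro g hg
        rw [Subgroup.mem_comap, (hπk g).2 hg]
        exact one_mem _
      · rintro v g ⟨j, hj⟩ hgv
        have hj' : d ^ j = π g := hj
        -- `v` is a translate of an element of `S`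
        obtain ⟨a, ha, s, hs, rfl⟩ := hq.cover v
        have h3 : π g • (⟨s, hs⟩ : S) = ⟨s, hs⟩ := hfixQ g a ⟨s, hs⟩ ha hgv
        have hj0 : j = 0 := by
          by_contra hj0
          exact hfix ⟨j, ⟨s, hs⟩, hj0, by rw [hj', h3]⟩
        rw [hj0, zpow_zero] at hj'
        exact hstab _ g ((hπk g).1 hj'.symm) hgv

end Pool.Agent.U709.Rk
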