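import Pool.Agent.U709.RkC
import Pool.Agent.U709.CyD

/-!
# Commensurable cyclic edge groups which are normalized by their commensurators in the vertex groups
-/

set_option autoImplicit false

namespace Pool.Agent.U709.Rk

open SimpleGraph Subgroup
open scoped Pointwise
open Subgroup.Commensurable (commensurator)
open Pool.Agent.Y110.FJ
open Pool.Agent.R941.FJ (C_equiv C_le C_cyc)
open Pool.Agent.N509.TK
open Pool.Agent.N509.TX (AcylF finedge fg_subtree STree of_fg of_fg_mem C_stab)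
open Pool.Agent.N431.CE (Es mem_Es Es_comm Es_smul)
open Pool.Agent.U385.FJ (Fm toTq)
open Pool.Agent.U74.BC (VCyc)
open Pool.Agent.U709.Cy (TN)

variable {C : ∀ (G : Type) [Group G], Prop}

/-- `g` normalizes the cyclic group generated by `c` if it conjugates a power of `c` to a power of `c` -/
def Nm {G : Type} [Group G] (g c : G) : Prop :=
  ∀ p q : ℤ, p ≠ 0 → q ≠ 0 → g * c ^ p * g⁻¹ = c ^ q → g * c * g⁻¹ = c ∨ g * c * g⁻¹ = c⁻¹

/-- `c` and `d` have a common power -/
def Cm {G : Type} [Group G] (c d : G) : Prop := ∃ a b : ℤ, a ≠ 0 ∧ b ≠ 0 ∧ c ^ a = d ^ b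

theorem Cm.symm {G : Type} [Group G] {c d : G} (h : Cm c d) : Cm d c := by
  obtain ⟨a, b, ha, hb, h⟩ := h
  exact ⟨b, a, hb, ha, h.symm⟩

theorem Cm.trans {G : Type} [Group G] {c d e : G} (h : Cm c d) (h' : Cm d e) : Cm c e := by
  obtain ⟨a, b, ha, hb, h⟩ := h
  obtain ⟨a', b', ha', hb', h'⟩ := h'
  refine ⟨a * a', b' * b, mul_ne_zero ha ha', mul_ne_zero hb' hb, ?_⟩
  rw [zpow_mul, h, ← zpow_mul, mul_comm b, zpow_mul, h', ← zpow_mul]

theorem Cm.conj {G : Type} [Group G] {c d : G} (h : Cm c d) (g : G) : Cm (g * c * g⁻¹) (g * d * g⁻¹) := by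
  obtain ⟨a, b, ha, hb, h⟩ := h
  exact ⟨a, b, ha, hb, by rw [conj_zpow, conj_zpow, h]⟩

theorem zp_ne {G : Type} [Group G] {c : G} (h : ¬ IsOfFinOrder c) {a : ℤ} (ha : a ≠ 0) : c ^ a ≠ 1 := by
  intro h1
  apply ha
  apply injective_zpow_iff_not_isOfFinOrder.2 h
  show c ^ a = c ^ (0 : ℤ)
  rw [h1, zpow_zero]

theorem Cm.inf {G : Type} [Group G] {c d : G} (h : Cm c d) (hc : ¬ IsOfFinOrder c) :
    ¬ IsOfFinOrder d := by
  obtain ⟨a, b, ha, hb, h⟩ := h
  intro hd
  have h1 : IsOfFinOrder (c ^ a) := h ▸ hd.zpow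
  obtain ⟨n, hn, h2⟩ := isOfFinOrder_iff_pow_eq_one.1 h1
  rw [← zpow_natCast, ← zpow_mul] at h2
  exact zp_ne hc (mul_ne_zero ha (by exact_mod_cast hn.ne')) h2

/-- commensurable elements which satisfy `Nm` commute -/
theorem Nm.comm {G : Type} [Group G] {c d : G} (h : Nm c d) (hcd : Cm c d) (hd : ¬ IsOfFinOrder d) :
    c * d = d * c := by
  obtain ⟨a, b, ha, hb, hab⟩ := hcd
  have h1 : c * d ^ b * c⁻¹ = d ^ b := by
    rw [← hab, (Commute.refl c).zpow_right a |>.eq, mul_inv_cancel_right]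
  rcases h b b hb hb h1 with h2 | h2
  · exact mul_inv_eq_iff_eq_mul.1 h2
  · exfalso
    have h3 : d ^ b = d ^ (-b) := by
      rw [← h1, ← conj_zpow, h2, inv_zpow, zpow_neg]
    have h4 : d ^ (b * 2) = 1 := by
      rw [mul_two, zpow_add]
      nth_rw 1 [h3]
      rw [← zpow_add, neg_add_cancel, zpow_zero]
    exact zp_ne hd (mul_ne_zero hb two_ne_zero) h4

/-- powers -/
theorem PP_aux {G : Type} [Group G] {c g : G} {n : ℤ}
    (hg : g * c ^ n * g⁻¹ = c ^ n ∨ g * c ^ n * g⁻¹ = c ^ (-n)) (m : ℤ) :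
    g * c ^ (n * m) * g⁻¹ = c ^ (n * m) ∨ g * c ^ (n * m) * g⁻¹ = c ^ (-(n * m)) := by
  have h1 : g * c ^ (n * m) * g⁻¹ = (g * c ^ n * g⁻¹) ^ m := by rw [conj_zpow, zpow_mul]
  rcases hg with hg | hg
  · left
    rw [h1, hg, ← zpow_mul]
  · right
    rw [h1, hg, ← zpow_mul, neg_mul]

/-- the elements which normalize a power of `c` -/
def PP {G : Type} [Group G] (c : G) : Subgroup G where
  carrier := {g | ∃ n : ℤ, n ≠ 0 ∧ (g * c ^ n * g⁻¹ = c ^ n ∨ g * c ^ n * g⁻¹ = c ^ (-n))}
  one_mem' := ⟨1, one_ne_zero, Or.inl (by simp)⟩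
  mul_mem' := by
    rintro a b ⟨n, hn, ha⟩ ⟨m, hm, hb⟩
    refine ⟨n * m, mul_ne_zero hn hm, ?_⟩
    have ha' := PP_aux ha m
    have hb' := PP_aux hb n
    rw [mul_comm m n] at hb'
    have h1 : a * b * c ^ (n * m) * (a * b)⁻¹ = a * (b * c ^ (n * m) * b⁻¹) * a⁻¹ := by group
    rw [h1]
    rcases hb' with hb' | hb'
    · rw [hb']
      exact ha'
    · rw [hb']
      have h2 : a * c ^ (-(n * m)) * a⁻¹ = (a * c ^ (n * m) * a⁻¹)⁻¹ := by
        rw [zpow_neg]
        group
      rw [h2]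
      rcases ha' with ha' | ha'
      · right
        rw [ha', zpow_neg]
      · left
        rw [ha', zpow_neg, inv_inv]
  inv_mem' := by
    rintro a ⟨n, hn, ha⟩
    refine ⟨n, hn, ?_⟩
    rcases ha with ha | ha
    · left
      rw [inv_inv]
      conv_lhs => rw [← ha]
      group
    · right
      rw [inv_inv]
      have h1 : c ^ (-n) = (a * c ^ n * a⁻¹) := ha.symm
      have h2 : c ^ n = a * c ^ (-n) * a⁻¹ := by
        have := congrArg (·⁻¹) h1
        simp only [zpow_neg, inv_inv] at this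
        rw [this, zpow_neg]
        group
      conv_lhs => rw [h2]
      group

theorem mem_PP {G : Type} [Group G] {c g : G} : g ∈ PP c ↔
    ∃ n : ℤ, n ≠ 0 ∧ (g * c ^ n * g⁻¹ = c ^ n ∨ g * c ^ n * g⁻¹ = c ^ (-n)) := Iff.rfl

theorem PP_of_cm {G : Type} [Group G] {c g d : G} (h : Cm d c)
    (hg : g * d * g⁻¹ = d ∨ g * d * g⁻¹ = d⁻¹) : g ∈ PP c := by
  obtain ⟨a, b, ha, hb, hab⟩ := h
  rw [mem_PP]
  refine ⟨b, hb, ?_⟩
  rcases hg with hg | hg
  · left
    rw [← hab, ← conj_zpow, hg]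
  · right
    rw [← hab, ← conj_zpow, hg, zpow_neg, ← hab, inv_zpow]

/-- groups of elements which normalize powers of `c`, if all edge groups are commensurable with `c` -/
theorem C_PP (hC : ClosedE C) (hM : ∀ (G : Type) [Group G], derivedSeries G 2 = ⊥ → C G)
    (hA : AcylR C) {G V : Type} [Group G] [MulAction G V] {T : SimpleGraph V} (hT : T.IsTree)
    (hact : ∀ (g : G) (u v : V), T.Adj u v → T.Adj (g • u) (g • v))
    (hinv : ∀ (g : G) (u v : V), T.Adj u v → ¬ (g • u = v ∧ g • v = u))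
    (hcy : ∀ u v, T.Adj u v → IsCyclic (Es G u v)) (hst : ∀ v : V, C (MulAction.stabilizer G v))
    (c : G) (hcm : ∀ u v, T.Adj u v → ∀ d ∈ Es G u v, ¬ IsOfFinOrder d → Cm d c)
    (K : Subgroup G) (hK : K ≤ PP c) : C K := by
  refine BAct.main hC hM hA (T := T) (G := K) ⟨hT, fun g u v h => hact g u v h,
    fun g u v h => hinv g u v h, fun u v huv => ?_, fun v => C_stab hC K v (hst v), ?_⟩
  · have h1 : IsCyclic (Es K u v) := by
      let f : Es K u v →* Es G u v := (K.subtype.comp (Es K u v).subtype).codRestrict _ fun x => x.2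
      have := hcy u v huv
      refine isCyclic_of_injective f ?_
      intro a b hab
      exact Subtype.ext (Subtype.ext (congrArg (fun x : Es G u v => (x : G)) hab))
    obtain ⟨x, hx⟩ := IsCyclic.exists_generator (α := Es K u v)
    refine ⟨x, ?_⟩
    have : Subgroup.zpowers x = ⊤ := by
      ext y
      exact ⟨fun _ => Subgroup.mem_top _, fun _ => hx y⟩
    rw [this, Subgroup.index_top]
    exact one_ne_zero
  · intro u v huv d hd hdo g p q hp hq hpq
    have hdo' : ¬ IsOfFinOrder (d : G) := by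
      rwa [← Function.Injective.isOfFinOrder_iff (f := K.subtype) K.subtype_injective] at hdo
    have hd' : (d : G) ∈ Es G u v := hd
    obtain ⟨a, b, ha, hb, hab⟩ := hcm u v huv d hd' hdo'
    obtain ⟨n, hn, hg⟩ := mem_PP.1 (hK g.2)
    have hpq' : (g : G) * (d : G) ^ p * (g : G)⁻¹ = (d : G) ^ q := by
      have := congrArg Subtype.val hpq
      simpa using this
    -- compare
    have e1 : (g : G) * (d : G) ^ (p * (a * n)) * (g : G)⁻¹ = (d : G) ^ (q * (a * n)) := by
      rw [zpow_mul, ← conj_zpow, hpq', ← zpow_mul]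
    have e2 : (d : G) ^ (p * (a * n)) = c ^ (n * (b * p)) := by
      have : p * (a * n) = a * (n * p) := by ring
      rw [this, zpow_mul, hab, ← zpow_mul]
      congr 1
      ring
    have e3 := PP_aux hg (b * p)
    rw [← e2, e1] at e3
    have e4 : c ^ (-(n * (b * p))) = (d : G) ^ (-(p * (a * n))) := by
      rw [zpow_neg, ← e2, zpow_neg]
    rw [e4] at e3
    have hinj := injective_zpow_iff_not_isOfFinOrder.2 hdo'
    have han : a * n ≠ 0 := mul_ne_zero ha hn
    rcases e3 with e3 | e3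
    · have e5 := hinj e3
      rw [mul_right_cancel₀ han e5]
    · have e5 : q * (a * n) = -(p * (a * n)) := hinj e3
      rw [← neg_mul] at e5
      rw [mul_right_cancel₀ han e5, abs_neg]

/-- elements of infinite order of cyclic edge groups are commensurable -/
theorem cm_all {G V : Type} [Group G] [MulAction G V] {T : SimpleGraph V}
    (hcy : ∀ u v, T.Adj u v → IsCyclic (Es G u v)) (c : G) (hco : ¬ IsOfFinOrder c)
    (hcm : ∀ u v, T.Adj u v → ∃ d ∈ Es G u v, Cm d c) :
    ∀ u v, T.Adj u v → ∀ d ∈ Es G u v, ¬ IsOfFinOrder d → Cm d c := by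
  intro u v huv d hd hdo
  obtain ⟨e, he, hec⟩ := hcm u v huv
  refine Cm.trans ?_ hec
  have heo : ¬ IsOfFinOrder e := hec.symm.inf hco
  have := hcy u v huv
  obtain ⟨i, hi0, -, hi⟩ := Subgroup.exists_pow_mem_of_relIndex_ne_zero
    (Pool.Agent.U74.BC.vc_relIndex (E := Es G u v) (by
      obtain ⟨x, hx⟩ := IsCyclic.exists_generator (α := Es G u v)
      refine ⟨x, ?_⟩
      have : Subgroup.zpowers x = ⊤ := by
        ext y
        exact ⟨fun _ => Subgroup.mem_top _, fun _ => hx y⟩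
      rw [this, Subgroup.index_top]
      exact one_ne_zero) he heo) hd
  obtain ⟨j, hj⟩ := (Subgroup.mem_inf.mp hi).1
  have hj' : e ^ j = d ^ i := hj
  refine ⟨i, j, by exact_mod_cast hi0.ne', ?_, by rw [zpow_natCast, hj']⟩
  rintro rfl
  rw [zpow_zero] at hj'
  exact hdo (isOfFinOrder_iff_pow_eq_one.2 ⟨i, hi0, hj'.symm⟩)

/-- infinite cyclic edge groups are torsion-free -/
theorem tf_all {G V : Type} [Group G] [MulAction G V] {T : SimpleGraph V}
    (hcy : ∀ u v, T.Adj u v → IsCyclic (Es G u v)) (c : G) (hco : ¬ IsOfFinOrder c)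
    (hcm : ∀ u v, T.Adj u v → ∃ d ∈ Es G u v, Cm d c) :
    ∀ u v, T.Adj u v → ∀ d ∈ Es G u v, d = 1 ∨ ¬ IsOfFinOrder d := by
  intro u v huv d hd
  by_contra hcon
  push Not at hcon
  obtain ⟨hd1, hdo⟩ := hcon
  obtain ⟨e, he, hec⟩ := hcm u v huv
  have heo : ¬ IsOfFinOrder e := hec.symm.inf hco
  have := hcy u v huv
  obtain ⟨⟨x, hx⟩, hgen⟩ := IsCyclic.exists_generator (α := Es G u v)
  obtain ⟨j, hj⟩ := hgen ⟨e, he⟩
  obtain ⟨k, hk⟩ := hgen ⟨d, hd⟩
  have hj' : x ^ j = e := congrArg Subtype.val hj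
  have hk' : x ^ k = d := congrArg Subtype.val hk
  have hxo : ¬ IsOfFinOrder x := by
    intro hx'
    apply heo
    rw [← hj']
    exact hx'.zpow
  have hk0 : k ≠ 0 := by
    rintro rfl
    apply hd1
    rw [← hk', zpow_zero]
  obtain ⟨n, hn, h2⟩ := isOfFinOrder_iff_pow_eq_one.1 hdo
  rw [← hk', ← zpow_natCast, ← zpow_mul] at h2
  exact zp_ne hxo (mul_ne_zero hk0 (by exact_mod_cast hn.ne')) h2

/-- the family of the groups generated by the edge groups at the vertices -/
theorem exists_R {G V : Type} [Group G] [MulAction G V] {T : SimpleGraph V}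
    (hact : ∀ (g : G) (u v : V), T.Adj u v → T.Adj (g • u) (g • v)) :
    ∃ R : V → Subgroup G, Fm T R ∧ (∀ v u, T.Adj v u → Es G v u ≤ R v) ∧
      (∀ v, R v = ⨆ u : {u : V // T.Adj v u}, Es G v u) := by
  obtain ⟨R, hRd⟩ : ∃ R : V → Subgroup G, ∀ v, R v = ⨆ u : {u : V // T.Adj v u}, Es G v u :=
    ⟨_, fun _ => rfl⟩
  have hER : ∀ v u, T.Adj v u → Es G v u ≤ R v := fun v u huv => by
    rw [hRd]
    exact le_iSup (fun u : {u : V // T.Adj v u} => Es G v u) ⟨u, huv⟩
  have hRst : ∀ v, R v ≤ MulAction.stabilizer G v := fun v => by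
    rw [hRd]
    exact iSup_le fun u => inf_le_left
  refine ⟨R, ?_, hER, hRd⟩
  refine ⟨fun v r hr => hRst v hr, fun g v r hr => ?_, fun u v huv r hr hrv => ?_⟩
  · have h1 : R v ≤ (R (g • v)).comap (MulAut.conj g).toMonoidHom := by
      rw [hRd]
      refine iSup_le fun u x hx => ?_
      refine hER (g • v) (g • (u : V)) (hact g _ _ u.2) ?_
      rw [mem_Es] at hx ⊢
      obtain ⟨h1, h2⟩ := hx
      constructor
      · show (g * x * g⁻¹) • g • v = g • v
        rw [mul_smul, mul_smul, inv_smul_smul, h1]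
      · show (g * x * g⁻¹) • g • (u : V) = g • (u : V)
        rw [mul_smul, mul_smul, inv_smul_smul, h2]
    exact h1 hr
  · exact hER v u huv.symm ⟨hrv, hRst u hr⟩

/-- the data -/
structure NAct (C : ∀ (G : Type) [Group G], Prop) (G : Type) {V : Type} [Group G] [MulAction G V]
    (T : SimpleGraph V) : Prop where
  tree : T.IsTree
  act : ∀ (g : G) (u v : V), T.Adj u v → T.Adj (g • u) (g • v)
  inv : ∀ (g : G) (u v : V), T.Adj u v → ¬ (g • u = v ∧ g • v = u)
  cy : ∀ u v, T.Adj u v → IsCyclic (Es G u v)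
  st : ∀ v : V, C (MulAction.stabilizer G v)
  nrm : ∀ u v, T.Adj u v → ∀ c ∈ Es G u v, ¬ IsOfFinOrder c → ∀ g : G, g • u = u → Nm g c

variable {G V : Type} [Group G] [MulAction G V] {T : SimpleGraph V}

theorem NAct.sub (hC : ClosedE C) (h : NAct C G T) (H : Subgroup G) : NAct C H T where
  tree := h.tree
  act g u v huv := h.act g u v huv
  inv g u v huv := h.inv g u v huv
  cy u v huv := by
    let f : Es H u v →* Es G u v := (H.subtype.comp (Es H u v).subtype).codRestrict _ fun x => x.2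
    have := h.cy u v huv
    refine isCyclic_of_injective f ?_
    intro a b hab
    exact Subtype.ext (Subtype.ext (congrArg (fun x : Es G u v => (x : G)) hab))
  st v := C_stab hC H v (h.st v)
  nrm u v huv c hc hco g hg := by
    intro p q hp hq hpq
    have h1 : ¬ IsOfFinOrder (c : G) := by
      rwa [← Function.Injective.isOfFinOrder_iff (f := H.subtype) H.subtype_injective] at hco
    have h2 : (g : G) * (c : G) ^ p * (g : G)⁻¹ = (c : G) ^ q := by
      have := congrArg Subtype.val hpq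
      simpa using this
    rcases h.nrm u v huv c hc h1 g hg p q hp hq h2 with h3 | h3
    · left
      apply Subtype.ext
      simpa using h3
    · right
      apply Subtype.ext
      simpa using h3

/-- abelian groups have torsion-free quotients in which elements of infinite order survive -/
theorem ab_TN {A : Type} [Group A] (hA : ∀ x y : A, x * y = y * x) :
    ∃ (N : Type) (_ : Group N) (f : A →* N), TN N ∧ ∀ x : A, f x = 1 → IsOfFinOrder x := by
  let _ : CommGroup A := { (inferInstance : Group A) with mul_comm := hA }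
  refine ⟨A ⧸ CommGroup.torsion A, inferInstance, QuotientGroup.mk' _, ⟨?_, ?_⟩, ?_⟩
  · exact CommGroup.isNilpotent
  · intro x m hm hx
    obtain ⟨y, rfl⟩ := QuotientGroup.mk_surjective x
    have h1 : y ^ m ∈ CommGroup.torsion A := (QuotientGroup.eq_one_iff (y ^ m)).1 hx
    have h2 : IsOfFinOrder (y ^ m) := h1
    refine (QuotientGroup.eq_one_iff y).2 ?_
    show IsOfFinOrder y
    rw [isOfFinOrder_pow] at h2
    exact h2.resolve_right hm
  · intro x hx
    exact (QuotientGroup.eq_one_iff x).1 hx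

/-- elements of the stabilizer of `v` conjugate powers of `d` to powers of `d` -/
theorem conj_cm {G V : Type} [Group G] [MulAction G V] {T : SimpleGraph V}
    (hact : ∀ (g : G) (u v : V), T.Adj u v → T.Adj (g • u) (g • v)) {c : G}
    (hcm : ∀ u v, T.Adj u v → ∀ d ∈ Es G u v, ¬ IsOfFinOrder d → Cm d c) {v u : V} (hu : T.Adj v u)
    {d : G} (hd : d ∈ Es G v u) (hdo : ¬ IsOfFinOrder d) {g : G} (hg' : g • v = v) (hdc : Cm d c) :
    ∃ a b : ℤ, a ≠ 0 ∧ b ≠ 0 ∧ g * d ^ a * g⁻¹ = d ^ b := by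
  have h1 : g * d * g⁻¹ ∈ Es G v (g • u) := by
    rw [mem_Es] at hd ⊢
    obtain ⟨h1, h2⟩ := hd
    constructor
    · rw [mul_smul, mul_smul]
      have h3 : g⁻¹ • v = v := by rw [inv_smul_eq_iff, hg']
      rw [h3, h1, hg']
    · rw [mul_smul, mul_smul, inv_smul_smul, h2]
  have h2 : ¬ IsOfFinOrder (g * d * g⁻¹) := by
    intro hfin
    apply hdo
    rw [isOfFinOrder_iff_pow_eq_one] at hfin ⊢
    obtain ⟨n, hn, hn1⟩ := hfin
    rw [conj_pow, conj_eq_one_iff] at hn1
    exact ⟨n, hn, hn1⟩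
  have h3 : T.Adj v (g • u) := by
    have := hact g v u hu
    rwa [hg'] at this
  obtain ⟨a, b, ha, hb, hab⟩ := (hcm v (g • u) h3 _ h1 h2).trans hdc.symm
  rw [conj_zpow] at hab
  exact ⟨a, b, ha, hb, hab⟩

/-- trees with an isolated vertex -/
theorem C_isol (hC : ClosedE C) {G V : Type} [Group G] [MulAction G V] {T : SimpleGraph V}
    (hT : T.IsTree) (hst : ∀ v : V, C (MulAction.stabilizer G v)) {v : V} (h1 : ∀ u, ¬ T.Adj v u)
    (K : Subgroup G) : C K := by
  have h2 : ∀ w : V, w = v := by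
    intro w
    by_contra hne
    obtain ⟨a, ha⟩ := St_exists hT (p := v) (x := w) (Ne.symm hne)
    exact h1 a ha.1
  have h3 : MulAction.stabilizer G v = ⊤ := by
    ext g
    exact ⟨fun _ => Subgroup.mem_top _, fun _ => h2 _⟩
  refine C_le hC.base (K := MulAction.stabilizer G v) ?_ (hst v)
  rw [h3]
  exact le_top

/-- **infinite commensurable cyclic edge groups** -/
theorem NAct.cyl_fg (hC : ClosedE C) (hS : ∀ (G : Type) [Group G], Group.IsSolvable G → C G)
    (hA : AcylR C) (h : NAct C G T) (hfg : Group.FG G) (c : G) (hco : ¬ IsOfFinOrder c)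
    (hcm : ∀ u v, T.Adj u v → ∃ d ∈ Es G u v, Cm d c) : C G := by
  classical
  have hM : ∀ (G : Type) [Group G], derivedSeries G 2 = ⊥ → C G := fun G _ h => hS G ⟨2, h⟩
  have hcm' := cm_all h.cy c hco hcm
  have htf := tf_all h.cy c hco hcm
  obtain ⟨R, hFm, hER, hRd⟩ := exists_R (G := G) h.act
  -- the groups of the family are abelian
  have hRab : ∀ v, ∀ x ∈ R v, ∀ y ∈ R v, x * y = y * x := by
    intro v
    have hcl : R v = Subgroup.closure (⋃ u : {u : V // T.Adj v u}, (Es G v u : Set G)) := by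
      rw [hRd, Subgroup.closure_iUnion]
      simp
    rw [hcl]
    have hk : ∀ x ∈ (⋃ u : {u : V // T.Adj v u}, (Es G v u : Set G)),
        ∀ y ∈ (⋃ u : {u : V // T.Adj v u}, (Es G v u : Set G)), x * y = y * x := by
      intro x hx y hy
      rw [Set.mem_iUnion] at hx hy
      obtain ⟨⟨u, hu⟩, hx⟩ := hx
      obtain ⟨⟨w, hw⟩, hy⟩ := hy
      have hx : x ∈ Es G v u := hx
      have hy : y ∈ Es G v w := hy
      rcases htf v u hu x hx with rfl | hxo
      · rw [one_mul, mul_one]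
      rcases htf v w hw y hy with rfl | hyo
      · rw [one_mul, mul_one]
      exact (h.nrm v w hw y hy hyo x hx.1).comm
        ((hcm' v u hu x hx hxo).trans (hcm' v w hw y hy hyo).symm) hyo
    have := Subgroup.isMulCommutative_closure hk
    intro x hx y hy
    have h1 := this.is_comm.comm ⟨x, hx⟩ ⟨y, hy⟩
    exact congrArg Subtype.val h1
  obtain ⟨M, hMd⟩ : ∃ M : Subgroup G, M = ⨆ v, R v := ⟨_, rfl⟩
  have hMP : M ≤ PP c := by
    rw [hMd]
    refine iSup_le fun v => ?_
    rw [hRd]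
    refine iSup_le ?_
    rintro ⟨u, hu⟩ x hx
    rcases htf v u hu x hx with rfl | hxo
    · exact one_mem _
    exact PP_of_cm (hcm' v u hu x hx hxo) (Or.inl (by group))
  have hstP : ∀ v, MulAction.stabilizer G v ≤ PP c ∨ ∀ u, ¬ T.Adj v u := by
    intro v
    by_cases hv : ∃ u, T.Adj v u
    · obtain ⟨u, hu⟩ := hv
      left
      intro g hg
      have hg' : g • v = v := hg
      obtain ⟨d, hd, hdc⟩ := hcm v u hu
      have hdo : ¬ IsOfFinOrder d := hdc.symm.inf hco
      obtain ⟨a, b, ha, hb, hab⟩ := conj_cm h.act hcm' hu hd hdo hg' hdc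
      exact PP_of_cm hdc (h.nrm v u hu d hd hdo g hg' a b ha hb hab)
    · push Not at hv
      exact Or.inr hv
  have hbal := C_PP hC hM hA h.tree h.act h.inv h.cy h.st c hcm'
  refine rel_free hC hA hfg h.tree h.act h.inv hFm ?_ ?_ ?_
  · intro u v huv g hu hv
    exact hER u v huv ⟨hu, hv⟩
  · intro v _
    rcases hstP v with h1 | h1
    · refine hbal _ (sup_le h1 ?_)
      rw [← hMd]
      exact hMP
    · exact C_isol hC h.tree h.st h1 _
  · intro L hL hst
    have h0 := h.sub hC L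
    refine Pool.Agent.U709.Cy.cyc_main hC hS (hA.acylF hC) (T := T) h0.tree h0.act h0.st
      (fun v u huv _ => h0.cy v u huv) 0 ?_ ?_
    · intro v u huv hfin
      exfalso
      obtain ⟨d, hd, hdc⟩ := hcm v u huv
      have hdo : ¬ IsOfFinOrder d := hdc.symm.inf hco
      have hdL : d ∈ L := hL (le_iSup R v (hER v u huv hd))
      have h1 : (⟨⟨d, hdL⟩, hd⟩ : Es L v u) ^ Nat.card (Es L v u) = 1 := pow_card_eq_one'
      obtain ⟨m, hm⟩ : ∃ m, m = Nat.card (Es L v u) := ⟨_, rfl⟩
      have hm0 : 0 < m := hm ▸ Nat.card_pos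
      rw [← hm] at h1
      have h3 : d ^ m = 1 := congrArg (fun x : Es L v u => ((x : L) : G)) h1
      exact hdo (isOfFinOrder_iff_pow_eq_one.2 ⟨m, hm0, h3⟩)
    · intro v u huv _
      obtain ⟨N, iN, f, hN, hf⟩ := ab_TN (A := Pool.Agent.N431.CE.Sv L v u) (by
        intro x y
        have hx : ((x : L) : G) ∈ R v := hst v _ (x : L).2 x.2.1
        have hy : ((y : L) : G) ∈ R v := hst v _ (y : L).2 y.2.1
        exact Subtype.ext (Subtype.ext (hRab v _ hx _ hy)))
      refine ⟨N, iN, f, hN, fun x hxu hfx => ?_⟩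
      have h1 := hf x hfx
      have h2 : IsOfFinOrder ((x : L) : G) := by
        have h3 := ((L.subtype.comp (Subgroup.subtype (Pool.Agent.N431.CE.Sv L v u))).isOfFinOrder h1)
        exact h3
      have h4 : ((x : L) : G) ∈ Es G v u := ⟨x.2.1, hxu⟩
      rcases htf v u huv _ h4 with h5 | h5
      · exact Subtype.ext (Subtype.ext h5)
      · exact absurd h2 h5

end Pool.Agent.U709.Rk
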