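import Pool.Agent.U709.RkD

/-!
# Reduction to infinite commensurable edge groups
-/

set_option autoImplicit false

namespace Pool.Agent.U709.Rk

open SimpleGraph Subgroup
open scoped Pointwise
open Subgroup.Commensurable (commensurator)
open Pool.Agent.Y110.FJ
open Pool.Agent.R941.FJ (C_equiv C_le C_cyc)
open Pool.Agent.N509.TK
open Pool.Agent.N509.TX (AcylF finedge fg_subtree STree of_fg of_fg_mem C_stab C_edge)
open Pool.Agent.N431.CE (Es mem_Es Es_comm Es_smul cylF rf rf_LR Rf Rf_gen le_comm mem_comm_iff)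
open Pool.Agent.helper444_cyc (index_of_vc)
open Pool.Agent.U74.BC (VCyc vc_relIndex exists_inf comm_pow fin_bound)

variable {C : ∀ (G : Type) [Group G], Prop}

/-- properties of actions on trees which are inherited by subgroups and invariant subtrees -/
def Hered (P : ∀ (G V : Type) [Group G] [MulAction G V], SimpleGraph V → Prop) : Prop :=
  ∀ (G H V W : Type) [Group G] [Group H] [MulAction G V] [MulAction H W] (T : SimpleGraph V)
    (T' : SimpleGraph W) (φ : H →* G) (ι : W → V), Function.Injective φ → Function.Injective ι →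
    (∀ (h : H) (w : W), ι (h • w) = φ h • ι w) → T'.IsTree →
    (∀ x y, T'.Adj x y → T.Adj (ι x) (ι y)) →
    (∀ (h : H) (x y : W), T'.Adj x y → T'.Adj (h • x) (h • y)) → P G V T → P H W T'

/-- the facts about the actions which are needed -/
def Good1 (C : ∀ (G : Type) [Group G], Prop)
    (P : ∀ (G V : Type) [Group G] [MulAction G V], SimpleGraph V → Prop) : Prop :=
  ∀ (G V : Type) [Group G] [MulAction G V] (T : SimpleGraph V), P G V T → T.IsTree ∧
    (∀ (g : G) (u v : V), T.Adj u v → T.Adj (g • u) (g • v)) ∧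
    (∀ u v, T.Adj u v → VCyc (Es G u v)) ∧ ∀ v : V, C (MulAction.stabilizer G v)

/-- the case of infinite commensurable edge groups -/
def Good2 (C : ∀ (G : Type) [Group G], Prop)
    (P : ∀ (G V : Type) [Group G] [MulAction G V], SimpleGraph V → Prop) : Prop :=
  ∀ (G V : Type) [Group G] [MulAction G V] (T : SimpleGraph V), P G V T → Group.FG G →
    ∀ c : G, ¬ IsOfFinOrder c → (∀ u v, T.Adj u v → ∃ d ∈ Es G u v, Cm d c) → C G

theorem red_fg (hC : ClosedE C) (hA : AcylF C)
    (P : ∀ (G V : Type) [Group G] [MulAction G V], SimpleGraph V → Prop) (hP : Hered P)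
    (hPT : Good1 C P) (hcyl : Good2 C P)
    (G V : Type) [Group G] [MulAction G V] (T : SimpleGraph V) (h : P G V T) (hfg : Group.FG G) :
    C G := by
  classical
  obtain ⟨hT, hact, hvc, hst⟩ := hPT G V T h
  obtain ⟨v0⟩ := hT.connected.nonempty
  obtain ⟨W, _, T', ι, Φ, hS, ⟨w, hw⟩, hΦ, hΦ'⟩ := fg_subtree hT hact hfg v0
  have hEs : ∀ u v : W, Es G u v = Es G (ι u) (ι v) := by
    intro u v
    unfold Es
    rw [hS.stab, hS.stab]
  have h' : P G W T' := hP G G V W T T' (MonoidHom.id G) ι Function.injective_id hS.inj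
    (fun g w => hS.eqv g w) hS.tree hS.adj hS.act h
  obtain ⟨hT', hact', hvc', hst'⟩ := hPT G W T' h'
  -- a bound for the finite subgroups of the edge groups
  have hb : ∀ e : V × V, ∃ N : ℕ, e ∈ Φ → ∀ S : Subgroup (Es G e.1 e.2), Finite S → Nat.card S ≤ N := by
    intro e
    by_cases he : e ∈ Φ
    · obtain ⟨N, hN⟩ := fin_bound (hvc _ _ (hΦ e he))
      exact ⟨N, fun _ => hN⟩
    · exact ⟨0, fun h => absurd h he⟩
  choose m hm using hb
  have hle : ∀ e ∈ Φ, m e ≤ ∑ e ∈ Φ, m e := fun e he =>
    Finset.single_le_sum (f := m) (fun _ _ => Nat.zero_le _) he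
  -- finite sets in finite subgroups of the edge groups
  have key : ∀ (u v : W), T'.Adj u v → ∀ S : Subgroup G, Finite S → S ≤ Es G (ι u) (ι v) →
      Nat.card S ≤ ∑ e ∈ Φ, m e := by
    intro u v huv S hSf hSE
    obtain ⟨g, hg⟩ := hΦ' u v huv
    have key2 : ∀ e ∈ Φ, ({g • ι u, g • ι v} : Set V) = {e.1, e.2} → Nat.card S ≤ m e := by
      intro e he hset
      have hmem : ∀ s ∈ S, g * s * g⁻¹ ∈ Es G e.1 e.2 := by
        intro s hs
        obtain ⟨h1, h2⟩ := hSE hs
        have h1' : s • ι u = ι u := h1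
        have h2' : s • ι v = ι v := h2
        have h5 : ∀ x ∈ ({g • ι u, g • ι v} : Set V), (g * s * g⁻¹) • x = x := by
          rintro x (rfl | rfl)
          · rw [mul_smul, mul_smul, inv_smul_smul, h1']
          · rw [mul_smul, mul_smul, inv_smul_smul, h2']
        rw [hset] at h5
        exact ⟨h5 _ (Or.inl rfl), h5 _ (Or.inr rfl)⟩
      let f : S →* Es G e.1 e.2 :=
        ((MulAut.conj g).toMonoidHom.comp S.subtype).codRestrict _ fun s => hmem s s.2
      have hf : Function.Injective f := by
        intro a b hab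
        have h6 : g * (a : G) * g⁻¹ = g * b * g⁻¹ := congrArg Subtype.val hab
        exact Subtype.ext (mul_left_cancel (mul_right_cancel h6))
      have hfin : Finite f.range := by
        have : Finite (Set.range f) := Set.finite_range f |>.to_subtype
        exact this
      have h7 := hm e he f.range hfin
      have h8 : Nat.card f.range = Nat.card S :=
        Nat.card_congr (MonoidHom.ofInjective hf).symm.toEquiv
      rwa [h8] at h7
    rcases hg with hg | hg
    · exact (key2 _ hg rfl).trans (hle _ hg)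
    · exact (key2 _ hg (Set.pair_comm _ _)).trans (hle _ hg)
  refine cylF hC hA hT' hact' (rf_LR (T := T')) (∑ e ∈ Φ, m e) ?_ hst' ?_
  · intro w a b ha hb hab F hF
    -- the intersection is finite
    have hfin : Finite ↥(Es G w a ⊓ Es G w b) := by
      by_contra hcon
      rw [not_finite_iff_infinite] at hcon
      apply hab
      have hIa : Infinite ((Es G w b).subgroupOf (Es G w a)) := by
        refine Infinite.of_injective (fun x : ↥(Es G w a ⊓ Es G w b) =>
          (⟨⟨x, x.2.1⟩, x.2.2⟩ : (Es G w b).subgroupOf (Es G w a))) ?_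
        intro x y hxy
        exact Subtype.ext (congrArg (fun t : (Es G w b).subgroupOf (Es G w a) => ((t : Es G w a) : G)) hxy)
      have hIb : Infinite ((Es G w a).subgroupOf (Es G w b)) := by
        refine Infinite.of_injective (fun x : ↥(Es G w a ⊓ Es G w b) =>
          (⟨⟨x, x.2.2⟩, x.2.1⟩ : (Es G w a).subgroupOf (Es G w b))) ?_
        intro x y hxy
        exact Subtype.ext (congrArg (fun t : (Es G w a).subgroupOf (Es G w b) => ((t : Es G w b) : G)) hxy)
      obtain ⟨ca, hca⟩ := hvc' w a ha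
      obtain ⟨cb, hcb⟩ := hvc' w b hb
      refine Or.inr ⟨?_, ?_, ?_⟩
      · exact Infinite.of_injective (fun x : ↥(Es G w a ⊓ Es G w b) => (⟨x, x.2.1⟩ : Es G w a))
          (fun x y hxy => Subtype.ext (congrArg (fun t : Es G w a => (t : G)) hxy))
      · exact Infinite.of_injective (fun x : ↥(Es G w a ⊓ Es G w b) => (⟨x, x.2.2⟩ : Es G w b))
          (fun x y hxy => Subtype.ext (congrArg (fun t : Es G w b => (t : G)) hxy))
      · exact ⟨index_of_vc hcb hIb, index_of_vc hca hIa⟩
    have h1 : Nat.card ↥(Es G w a ⊓ Es G w b) ≤ ∑ e ∈ Φ, m e := by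
      refine key w a ha _ hfin ?_
      rw [← hEs]
      exact inf_le_left
    refine le_trans ?_ h1
    let f : F → ↥(Es G w a ⊓ Es G w b) := fun g =>
      ⟨g, ⟨(hF g g.2).1, (hF g g.2).2.1⟩, ⟨(hF g g.2).1, (hF g g.2).2.2⟩⟩
    have h2 := Nat.card_le_card_of_injective f (fun x y hxy => Subtype.ext
      (congrArg (fun t : ↥(Es G w a ⊓ Es G w b) => (t : G)) hxy))
    simpa using h2
  · intro y K hK
    obtain ⟨⟨⟨v0, a0⟩, h0⟩, hy⟩ := Quotient.exists_rep y
    have h0 : T'.Adj v0 a0 := h0
    have hy : cy (rf G) h0 = y := hy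
    by_cases hinf : Infinite (Es G v0 a0)
    · -- the stabilizer of the cylinder
      have hr := rf_LR (G := G) (T := T')
      let _ := cyAct hact' hr
      have hcy : ∀ (g : G) {v a : W} (h : T'.Adj v a), g • (cy (rf G) h) = cy (rf G) (hact' g v a h) :=
        fun g {v a} h => rfl
      obtain ⟨K', hK'⟩ : ∃ K' : Subgroup G, K' = MulAction.stabilizer G y := ⟨_, rfl⟩
      have hKm : ∀ g, g ∈ K' ↔ g • y = y := fun g => by rw [hK']; rfl
      have hKK : K ≤ K' := by
        intro g hg
        rw [hKm, ← hy, hcy, hy]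
        exact hK g hg v0 a0 h0 hy
      refine C_le hC.base hKK ?_
      obtain ⟨c, hcE, hco, hc⟩ := exists_inf (hvc' v0 a0 h0) hinf
      have hcK : c ∈ K' := by
        rw [hKm, ← hy, hcy]
        exact cy_congr _ _ hcE.1 hcE.2
      have hmem : ∀ g ∈ K', ∀ v, Mem y v → Mem y (g • v) := by
        rintro g hg v ⟨a, ha, hay⟩
        rw [hKm] at hg
        refine ⟨g • a, hact' g v a ha, ?_⟩
        have h5 := hcy g ha
        rw [hay, hg] at h5
        exact h5.symm
      obtain ⟨S, hSd⟩ : ∃ S : Set W, S = {v | Mem y v} := ⟨_, rfl⟩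
      have hSm : ∀ v, v ∈ S ↔ Mem y v := fun v => by rw [hSd]; rfl
      let _ : MulAction K' S :=
        { smul := fun g v => ⟨(g : G) • (v : W), (hSm _).2 (hmem g g.2 _ ((hSm _).1 v.2))⟩
          one_smul := fun v => Subtype.ext (one_smul G (v : W))
          mul_smul := fun g h v => Subtype.ext (mul_smul (g : G) (h : G) (v : W)) }
      have hsm : ∀ (g : K') (v : S), ((g • v : S) : W) = (g : G) • (v : W) := fun _ _ => rfl
      have htree : (T'.induce S).IsTree := by
        refine ⟨?_, hT'.isAcyclic.induce _⟩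
        have : Nonempty S := ⟨⟨v0, (hSm v0).2 ⟨a0, h0, hy⟩⟩⟩
        refine ⟨fun v u => ?_⟩
        obtain ⟨p, hp, -⟩ := hT'.existsUnique_path (v : W) (u : W)
        exact ⟨p.induce _ fun x hx => (hSm x).2
          (path_mem hT' hr ((hSm _).1 v.2) ((hSm _).1 u.2) p hp x hx)⟩
      have hPK : P K' S (T'.induce S) := hP G K' W S T' (T'.induce S) K'.subtype Subtype.val
        K'.subtype_injective Subtype.val_injective (fun _ _ => rfl) htree (fun _ _ hxy => hxy)
        (fun g x y hxy => hact' (g : G) _ _ hxy) h'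
      refine of_fg_mem hC (⟨c, hcK⟩ : K') fun H hH hcH => ?_
      have hPH : P H S (T'.induce S) := hP K' H S S (T'.induce S) (T'.induce S) H.subtype id
        H.subtype_injective Function.injective_id (fun _ _ => rfl) htree (fun _ _ hxy => hxy)
        (fun g x y hxy => hact' ((g : K') : G) _ _ hxy) hPK
      refine hcyl H S (T'.induce S) hPH hH ⟨⟨c, hcK⟩, hcH⟩ ?_ ?_
      · rw [← Function.Injective.isOfFinOrder_iff (f := H.subtype) H.subtype_injective,
          ← Function.Injective.isOfFinOrder_iff (f := K'.subtype) K'.subtype_injective]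
        exact hco
      · intro u v huv
        have huv' : T'.Adj (u : W) (v : W) := huv
        have h1 : cy (rf G) huv' = y := adj_cy hT' hr ((hSm _).1 u.2) ((hSm _).1 v.2) huv'
        rw [← hy] at h1
        have h2 := Rf_gen (p := dt huv') (q := dt h0) (Quotient.exact h1)
        have h3 : Commensurable (Es G (u : W) (v : W)) (Es G v0 a0) := h2.comm
        obtain ⟨i, hi0, -, hi⟩ := Subgroup.exists_pow_mem_of_relIndex_ne_zero h3.1 hcE
        have h4 : c ^ i ∈ Es G (u : W) (v : W) := (Subgroup.mem_inf.mp hi).1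
        refine ⟨(⟨⟨c, hcK⟩, hcH⟩ : H) ^ i, ?_, ?_⟩
        · constructor
          · exact Subtype.ext h4.1
          · exact Subtype.ext h4.2
        · refine ⟨1, i, one_ne_zero, by exact_mod_cast hi0.ne', ?_⟩
          rw [zpow_one, zpow_natCast]
    · subst hy
      refine C_edge hC v0 a0 (hst' v0) K fun g hg => ?_
      have h1 := hK g hg v0 a0 h0 rfl
      rcases Rf_gen (p := dt (hact' g v0 a0 h0)) (q := dt h0) (Quotient.exact h1) with
        (h | h) | ⟨_, h, _⟩
      · exact Or.inl ⟨(congrArg Prod.fst h).symm, (congrArg Prod.snd h).symm⟩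
      · exact Or.inr ⟨(congrArg Prod.snd h).symm, (congrArg Prod.fst h).symm⟩
      · exact absurd h hinf

/-- **reduction to infinite commensurable edge groups** -/
theorem red (hC : ClosedE C) (hA : AcylF C)
    (P : ∀ (G V : Type) [Group G] [MulAction G V], SimpleGraph V → Prop) (hP : Hered P)
    (hPT : Good1 C P) (hcyl : Good2 C P)
    (G V : Type) [Group G] [MulAction G V] (T : SimpleGraph V) (h : P G V T) : C G := by
  refine of_fg hC fun H hH => ?_
  exact red_fg hC hA P hP hPT hcyl H V T (hP G H V V T T H.subtype id H.subtype_injective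
    Function.injective_id (fun _ _ => rfl) (hPT G V T h).1 (fun _ _ hxy => hxy)
    (fun g u v huv => (hPT G V T h).2.1 g u v huv) h) hH

/-- the data are inherited -/
theorem NAct.hered (hC : ClosedE C) : Hered (fun G V _ _ T => NAct C G (V := V) T) := by
  intro G H V W _ _ _ _ T T' φ ι hφ hι heq hT' hadj hact' h
  have hs : ∀ (x : H) (w : W), x • w = w ↔ φ x • ι w = ι w := by
    intro x w
    rw [← heq]
    exact ⟨fun h => by rw [h], fun h => hι h⟩
  refine ⟨hT', hact', ?_, ?_, ?_, ?_⟩
  · rintro g u v huv ⟨h1, h2⟩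
    refine h.inv (φ g) (ι u) (ι v) (hadj u v huv) ⟨?_, ?_⟩
    · rw [← heq, h1]
    · rw [← heq, h2]
  · intro u v huv
    have := h.cy (ι u) (ι v) (hadj u v huv)
    let f : Es H u v →* Es G (ι u) (ι v) := (φ.comp (Es H u v).subtype).codRestrict _ fun x =>
      ⟨(hs x u).1 x.2.1, (hs x v).1 x.2.2⟩
    refine isCyclic_of_injective f fun a b hab => ?_
    exact Subtype.ext (hφ (congrArg Subtype.val hab))
  · intro v
    let f : MulAction.stabilizer H v →* MulAction.stabilizer G (ι v) :=
      (φ.comp (MulAction.stabilizer H v).subtype).codRestrict _ fun x => (hs x v).1 x.2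
    refine hC.base.of_injective _ _ f (fun a b hab => ?_) (h.st (ι v))
    exact Subtype.ext (hφ (congrArg Subtype.val hab))
  · intro u v huv c hc hco g hg p q hp hq hpq
    have h1 : ¬ IsOfFinOrder (φ c) := by
      rwa [Function.Injective.isOfFinOrder_iff hφ]
    have h2 : φ g * φ c ^ p * (φ g)⁻¹ = φ c ^ q := by
      rw [← map_zpow, ← map_zpow, ← map_inv, ← map_mul, ← map_mul, hpq]
    rcases h.nrm (ι u) (ι v) (hadj u v huv) (φ c) ⟨(hs c u).1 hc.1, (hs c v).1 hc.2⟩ h1 (φ g)
      ((hs g u).1 hg) p q hp hq h2 with h3 | h3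
    · left
      apply hφ
      rw [map_mul, map_mul, map_inv, h3]
    · right
      apply hφ
      rw [map_mul, map_mul, map_inv, h3, map_inv]

theorem vc_of_cyc {E : Type} [Group E] (h : IsCyclic E) : VCyc E := by
  obtain ⟨x, hx⟩ := IsCyclic.exists_generator (α := E)
  refine ⟨x, ?_⟩
  have : Subgroup.zpowers x = ⊤ := by
    ext y
    exact ⟨fun _ => Subgroup.mem_top _, fun _ => hx y⟩
  rw [this, Subgroup.index_top]
  exact one_ne_zero

/-- **cyclic edge groups which are normalized by their commensurators in the vertex groups** -/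
theorem NAct.main (hC : ClosedE C) (hS : ∀ (G : Type) [Group G], Group.IsSolvable G → C G)
    (hA : AcylR C) {G V : Type} [Group G] [MulAction G V] {T : SimpleGraph V} (h : NAct C G T) :
    C G := by
  refine red hC (hA.acylF hC) (fun G V _ _ T => NAct C G (V := V) T) (NAct.hered hC) ?_ ?_ G V T h
  · intro G V _ _ T h
    exact ⟨h.tree, h.act, fun u v huv => vc_of_cyc (h.cy u v huv), h.st⟩
  · intro G V _ _ T h hfg c hco hcm
    exact h.cyl_fg hC hS hA hfg c hco hcm

end Pool.Agent.U709.Rk
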