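import Pool.Agent.U709.RkE
import Pool.Agent.U709.Gl

/-!
# One-sided conditions: cyclic edge groups which are centralized by their commensurators on one side
-/

set_option autoImplicit false

namespace Pool.Agent.U709.Rk

open SimpleGraph Subgroup
open scoped Pointwise
open Pool.Agent.Y110.FJ
open Pool.Agent.R941.FJ (C_equiv C_le C_cyc)
open Pool.Agent.N509.TK
open Pool.Agent.N509.TX (AcylF finedge fg_subtree STree of_fg of_fg_mem C_stab)
open Pool.Agent.N431.CE (Es mem_Es Es_comm Es_smul)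
open Pool.Agent.U385.FJ (Fm toTq)
open Pool.Agent.U74.BC (VCyc)

variable {C : ∀ (G : Type) [Group G], Prop}

/-- the data: `A` is the set of the vertices without condition; at the other vertices `b` the elements
which conjugate a power of `c` to a power of `c` commute with `c`, and commensurable edge groups are equal;
`r` is a family of homomorphisms from the stabilizers of the vertices in `A` to `W` -/
structure OData (C : ∀ (G : Type) [Group G], Prop) (G : Type) {V : Type} [Group G] [MulAction G V]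
    (T : SimpleGraph V) (A : V → Prop) (W : Type) [Group W] (r : V → G → W) : Prop where
  tree : T.IsTree
  act : ∀ (g : G) (u v : V), T.Adj u v → T.Adj (g • u) (g • v)
  ty : ∀ (g : G) v, A v → A (g • v)
  alt : ∀ u v, T.Adj u v → (A u ↔ ¬ A v)
  cy : ∀ u v, T.Adj u v → IsCyclic (Es G u v)
  st : ∀ v : V, C (MulAction.stabilizer G v)
  cen : ∀ b u, ¬ A b → T.Adj b u → ∀ c ∈ Es G b u, ¬ IsOfFinOrder c → ∀ g : G, g • b = b →
    ∀ p q : ℤ, p ≠ 0 → q ≠ 0 → g * c ^ p * g⁻¹ = c ^ q → g * c * g⁻¹ = c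
  eq : ∀ b u u', ¬ A b → T.Adj b u → T.Adj b u' → ∀ c ∈ Es G b u, ∀ d ∈ Es G b u',
    ¬ IsOfFinOrder c → Cm c d → Es G b u ≤ Es G b u'
  cW : C W
  mul : ∀ v, A v → ∀ x y : G, x • v = v → y • v = v → r v (x * y) = r v x * r v y
  inj : ∀ v, A v → ∀ x : G, x • v = v → r v x = 1 → x = 1
  conj : ∀ (g : G) v, A v → ∃ w : W, ∀ x : G, x • v = v → r (g • v) (g * x * g⁻¹) = w * r v x * w⁻¹
  glu : ∀ b u u', ¬ A b → T.Adj b u → T.Adj b u' → ∀ c ∈ Es G b u, ∀ d ∈ Es G b u',
    ¬ IsOfFinOrder c → Cm c d → ∃ w : W, ∀ x ∈ Es G b u, r u' x = w * r u x * w⁻¹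

variable {G V : Type} [Group G] [MulAction G V] {T : SimpleGraph V} {A : V → Prop} {W : Type}
  [Group W] {r : V → G → W}

theorem OData.ty' (h : OData C G T A W r) (g : G) (v : V) (hv : ¬ A v) : ¬ A (g • v) := by
  intro h1
  apply hv
  have := h.ty g⁻¹ _ h1
  rwa [inv_smul_smul] at this

theorem OData.inv (h : OData C G T A W r) (g : G) (u v : V) (huv : T.Adj u v) :
    ¬ (g • u = v ∧ g • v = u) := by
  rintro ⟨h1, -⟩
  by_cases hu : A u
  · exact (h.alt u v huv).1 hu (h1 ▸ h.ty g u hu)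
  · have hv : A v := by
      by_contra hv
      exact hu ((h.alt u v huv).2 hv)
    exact h.ty' g u hu (h1 ▸ hv)

/-- subgroups which meet the stabilizers of the vertices with condition in edge groups -/
theorem OData.small (hC : ClosedE C) (h : OData C G T A W r) (c : G) (hco : ¬ IsOfFinOrder c)
    (hcm : ∀ u v, T.Adj u v → ∃ d ∈ Es G u v, Cm d c) (L : Subgroup G)
    (hL : ∀ b, ¬ A b → ∀ u, T.Adj b u → ∀ g ∈ L, g • b = b → g • u = u) : C L := by
  classical
  by_cases hisol : ∀ v, ∃ u, T.Adj v u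
  swap
  · push Not at hisol
    obtain ⟨v, hv⟩ := hisol
    exact C_isol hC h.tree h.st hv L
  choose n hn using hisol
  have hcc : ∀ b u u', T.Adj b u → T.Adj b u' → ∃ c ∈ Es G b u, ∃ d ∈ Es G b u',
      ¬ IsOfFinOrder c ∧ Cm c d := by
    intro b u u' hu hu'
    obtain ⟨d, hd, hdc⟩ := hcm b u hu
    obtain ⟨e, he, hec⟩ := hcm b u' hu'
    exact ⟨d, hd, e, he, hdc.symm.inf hco, hdc.trans hec.symm⟩
  have hAn : ∀ b, ¬ A b → A (n b) := by
    intro b hb
    by_contra h1
    exact hb ((h.alt b (n b) (hn b)).2 h1)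
  obtain ⟨ρ, hρA, hρB⟩ : ∃ ρ : V → L → W, (∀ v, A v → ∀ x : L, ρ v x = r v x) ∧
      (∀ v, ¬ A v → ∀ x : L, ρ v x = r (n v) x) :=
    ⟨fun v x => if A v then r v x else r (n v) x, fun v hv x => if_pos hv, fun v hv x => if_neg hv⟩
  obtain ⟨Φ, hΦ⟩ := Pool.Agent.U709.Gl.glue (G := L) (T := T) (W := W) h.tree
    (fun g u v huv => h.act (g : G) u v huv) A (fun g v hv => h.ty (g : G) v hv) h.alt ρ
    (by
      intro v x y hx hy
      by_cases hv : A v
      · rw [hρA v hv, hρA v hv, hρA v hv]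
        exact h.mul v hv x y hx hy
      · rw [hρB v hv, hρB v hv, hρB v hv]
        exact h.mul (n v) (hAn v hv) x y (hL v hv (n v) (hn v) x x.2 hx)
          (hL v hv (n v) (hn v) y y.2 hy))
    (by
      intro g v
      by_cases hv : A v
      · obtain ⟨w, hw⟩ := h.conj (g : G) v hv
        refine ⟨w, fun x hx => ?_⟩
        have hgv : A (g • v) := h.ty (g : G) v hv
        rw [hρA _ hgv, hρA v hv]
        exact hw x hx
      · have hgv : ¬ A (g • v) := h.ty' (g : G) v hv
        obtain ⟨w1, hw1⟩ := h.conj (g : G) (n v) (hAn v hv)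
        have hadj : T.Adj (g • v) (g • n v) := h.act (g : G) _ _ (hn v)
        obtain ⟨c', hc', d', hd', hco', hcd'⟩ := hcc (g • v) (g • n v) (n (g • v)) hadj (hn _)
        obtain ⟨w2, hw2⟩ := h.glu (g • v) (g • n v) (n (g • v)) hgv hadj (hn _) c' hc' d' hd' hco' hcd'
        refine ⟨w2 * w1, fun x hx => ?_⟩
        have hxn : (x : G) • n v = n v := hL v hv (n v) (hn v) x x.2 hx
        have e1 := hw1 x hxn
        have hmem : (g : G) * x * (g : G)⁻¹ ∈ Es G (g • v) (g • n v) := by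
          constructor
          · show ((g : G) * x * (g : G)⁻¹) • (g : G) • v = (g : G) • v
            rw [mul_smul, mul_smul, inv_smul_smul]
            congr 1
          · show ((g : G) * x * (g : G)⁻¹) • (g : G) • n v = (g : G) • n v
            rw [mul_smul, mul_smul, inv_smul_smul, hxn]
        have e2 := hw2 _ hmem
        rw [hρB _ hgv, hρB v hv]
        show r (n (g • v)) ((g : G) * x * (g : G)⁻¹) = _
        rw [e2]
        have e3 : r (g • n v) ((g : G) * x * (g : G)⁻¹) = w1 * r (n v) x * w1⁻¹ := e1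
        rw [e3]
        group)
    (by
      intro u v huv hu
      have hv : ¬ A v := (h.alt u v huv).1 hu
      obtain ⟨c', hc', d', hd', hco', hcd'⟩ := hcc v u (n v) huv.symm (hn v)
      obtain ⟨w, hw⟩ := h.glu v u (n v) hv huv.symm (hn v) c' hc' d' hd' hco' hcd'
      refine ⟨w, fun x hxu hxv => ?_⟩
      rw [hρB v hv, hρA u hu]
      exact hw x ⟨hxv, hxu⟩)
  refine Pool.Agent.N509.TK.edges (G := L) (T := T) hC h.tree
    (fun g u v huv => h.act (g : G) u v huv) (fun v => C_stab hC L v (h.st v)) fun u v huv => ?_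
  refine ⟨W, inferInstance, Φ, h.cW, ?_⟩
  have key : ∀ w : V, A w → ∀ x : L, x • w = w → Φ x = 1 → x = 1 := by
    intro w hw x hx hx1
    obtain ⟨k, hk⟩ := hΦ w
    rw [hk x hx] at hx1
    have h1 : ρ w x = 1 := by
      rw [mul_inv_eq_one] at hx1
      exact mul_eq_left.1 hx1
    rw [hρA w hw] at h1
    exact Subtype.ext (h.inj w hw x hx h1)
  intro x hxu hxv hx1
  by_cases hu : A u
  · exact key u hu x hxu hx1
  · have hv : A v := by
      by_contra hv
      exact hu ((h.alt u v huv).2 hv)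
    exact key v hv x hxv hx1

/-- **infinite commensurable edge groups** -/
theorem OData.cyl_fg (hC : ClosedE C) (hM : ∀ (G : Type) [Group G], derivedSeries G 2 = ⊥ → C G)
    (hA : AcylR C) (h : OData C G T A W r) (hfg : Group.FG G) (c : G) (hco : ¬ IsOfFinOrder c)
    (hcm : ∀ u v, T.Adj u v → ∃ d ∈ Es G u v, Cm d c) : C G := by
  classical
  have hcm' := cm_all h.cy c hco hcm
  have htf := tf_all h.cy c hco hcm
  obtain ⟨R, hFm, hER, hRd⟩ := exists_R (G := G) h.act
  obtain ⟨M, hMd⟩ : ∃ M : Subgroup G, M = ⨆ v, R v := ⟨_, rfl⟩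
  have hMP : M ≤ PP c := by
    rw [hMd]
    refine iSup_le fun v => ?_
    rw [hRd]
    refine iSup_le ?_
    rintro ⟨u, hu⟩ x hx
    rcases htf v u hu x hx with rfl | hxo
    · exact one_mem _
    exact PP_of_cm (hcm' v u hu x hx hxo) (Or.inl (by group))
  have hRB : ∀ b, ¬ A b → ∀ u, T.Adj b u → R b ≤ Es G b u := by
    intro b hb u hu
    rw [hRd]
    refine iSup_le ?_
    rintro ⟨u', hu'⟩
    obtain ⟨d, hd, hdc⟩ := hcm b u' hu'
    obtain ⟨e, he, hec⟩ := hcm b u hu
    exact h.eq b u' u hb hu' hu d hd e he (hdc.symm.inf hco) (hdc.trans hec.symm)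
  have hbal := C_PP hC hM hA h.tree h.act h.inv h.cy h.st c hcm'
  have hM1 : ∀ m ∈ M, ∀ v, A v → A (m • v) := fun m _ v hv => h.ty m v hv
  refine rel_free hC hA hfg h.tree h.act h.inv hFm ?_ ?_ ?_
  · intro u v huv g hu hv
    exact hER u v huv ⟨hu, hv⟩
  · intro v hv1
    by_cases hv : A v
    · refine h.small hC c hco hcm _ fun b hb u hu g hg hgb => ?_
      have h1 : g ∈ R b := by
        refine hv1 b (fun m hm hmv => ?_) g hg hgb
        exact hb (hmv ▸ h.ty m v hv)
      exact (hRB b hb u hu h1).2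
    · by_cases hisol : ∃ u, T.Adj v u
      · obtain ⟨u, hu⟩ := hisol
        refine hbal _ (sup_le ?_ ?_)
        · intro g hg
          have hg' : g • v = v := hg
          obtain ⟨d, hd, hdc⟩ := hcm v u hu
          have hdo : ¬ IsOfFinOrder d := hdc.symm.inf hco
          obtain ⟨a, b, ha, hb, hab⟩ := conj_cm h.act hcm' hu hd hdo hg' hdc
          exact PP_of_cm hdc (Or.inl (h.cen v u hv hu d hd hdo g hg' a b ha hb hab))
        · rw [← hMd]
          exact hMP
      · push Not at hisol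
        exact C_isol hC h.tree h.st hisol _
  · intro L _ hst
    refine h.small hC c hco hcm L fun b hb u hu g hg hgb => ?_
    exact (hRB b hb u hu (hst b g hg hgb)).2

/-- the data without the choice of the homomorphisms -/
def OAct (C : ∀ (G : Type) [Group G], Prop) (G V : Type) [Group G] [MulAction G V]
    (T : SimpleGraph V) : Prop :=
  ∃ (A : V → Prop) (W : Type) (_ : Group W) (r : V → G → W), OData C G T A W r

theorem OAct.hered (hC : ClosedE C) : Hered (fun G V _ _ T => OAct C G V T) := by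
  rintro G H V X _ _ _ _ T T' φ ι hφ hι heq hT' hadj hact' ⟨A, W, iW, r, h⟩
  have hs : ∀ (x : H) (w : X), x • w = w ↔ φ x • ι w = ι w := by
    intro x w
    rw [← heq]
    exact ⟨fun h => by rw [h], fun h => hι h⟩
  have hE : ∀ u v (x : H), x ∈ Es H u v ↔ φ x ∈ Es G (ι u) (ι v) := by
    intro u v x
    rw [mem_Es, mem_Es, hs, hs]
  have hfo : ∀ c : H, ¬ IsOfFinOrder c → ¬ IsOfFinOrder (φ c) := fun c hc => by
    rwa [Function.Injective.isOfFinOrder_iff hφ]
  have hCm : ∀ c d : H, Cm c d → Cm (φ c) (φ d) := by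
    rintro c d ⟨a, b, ha, hb, hab⟩
    exact ⟨a, b, ha, hb, by rw [← map_zpow, ← map_zpow, hab]⟩
  refine ⟨fun x => A (ι x), W, iW, fun x g => r (ι x) (φ g), ?_⟩
  refine ⟨hT', hact', ?_, ?_, ?_, ?_, ?_, ?_, h.cW, ?_, ?_, ?_, ?_⟩
  · intro g v hv
    rw [heq]
    exact h.ty (φ g) _ hv
  · intro u v huv
    exact h.alt _ _ (hadj u v huv)
  · intro u v huv
    have := h.cy (ι u) (ι v) (hadj u v huv)
    let f : Es H u v →* Es G (ι u) (ι v) := (φ.comp (Es H u v).subtype).codRestrict _ fun x =>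
      (hE u v x).1 x.2
    refine isCyclic_of_injective f fun a b hab => ?_
    exact Subtype.ext (hφ (congrArg Subtype.val hab))
  · intro v
    let f : MulAction.stabilizer H v →* MulAction.stabilizer G (ι v) :=
      (φ.comp (MulAction.stabilizer H v).subtype).codRestrict _ fun x => (hs x v).1 x.2
    refine hC.base.of_injective _ _ f (fun a b hab => ?_) (h.st (ι v))
    exact Subtype.ext (hφ (congrArg Subtype.val hab))
  · intro b u hb hu c hc hco g hg p q hp hq hpq
    apply hφ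
    rw [map_mul, map_mul, map_inv]
    refine h.cen (ι b) (ι u) hb (hadj b u hu) (φ c) ((hE b u c).1 hc) (hfo c hco) (φ g)
      ((hs g b).1 hg) p q hp hq ?_
    rw [← map_zpow, ← map_zpow, ← map_inv, ← map_mul, ← map_mul, hpq]
  · intro b u u' hb hu hu' c hc d hd hco hcd x hx
    rw [hE] at hx ⊢
    exact h.eq (ι b) (ι u) (ι u') hb (hadj b u hu) (hadj b u' hu') (φ c) ((hE b u c).1 hc) (φ d)
      ((hE b u' d).1 hd) (hfo c hco) (hCm c d hcd) hx
  · intro v hv x y hx hy
    show r (ι v) (φ (x * y)) = _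
    rw [map_mul]
    exact h.mul (ι v) hv (φ x) (φ y) ((hs x v).1 hx) ((hs y v).1 hy)
  · intro v hv x hx hx1
    apply hφ
    rw [map_one]
    exact h.inj (ι v) hv (φ x) ((hs x v).1 hx) hx1
  · intro g v hv
    obtain ⟨w, hw⟩ := h.conj (φ g) (ι v) hv
    refine ⟨w, fun x hx => ?_⟩
    show r (ι (g • v)) (φ (g * x * g⁻¹)) = _
    rw [heq, map_mul, map_mul, map_inv]
    exact hw (φ x) ((hs x v).1 hx)
  · intro b u u' hb hu hu' c hc d hd hco hcd
    obtain ⟨w, hw⟩ := h.glu (ι b) (ι u) (ι u') hb (hadj b u hu) (hadj b u' hu') (φ c)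
      ((hE b u c).1 hc) (φ d) ((hE b u' d).1 hd) (hfo c hco) (hCm c d hcd)
    exact ⟨w, fun x hx => hw (φ x) ((hE b u x).1 hx)⟩

/-- **one-sided conditions** -/
theorem OData.main (hC : ClosedE C) (hM : ∀ (G : Type) [Group G], derivedSeries G 2 = ⊥ → C G)
    (hA : AcylR C) (h : OData C G T A W r) : C G := by
  refine red hC (hA.acylF hC) (fun G V _ _ T => OAct C G V T) (OAct.hered hC) ?_ ?_ G V T
    ⟨A, W, inferInstance, r, h⟩
  · rintro G V _ _ T ⟨A, W, _, r, h⟩
    exact ⟨h.tree, h.act, fun u v huv => vc_of_cyc (h.cy u v huv), h.st⟩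
  · rintro G V _ _ T ⟨A, W, _, r, h⟩ hfg c hco hcm
    exact h.cyl_fg hC hM hA hfg c hco hcm

end Pool.Agent.U709.Rk
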