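import Pool.Agent.U709.RkF
import Pool.Agent.U74.BC.Hier

/-!
# Amalgams, and a local criterion for balanced edge groups
-/

set_option autoImplicit false

namespace Pool.Agent.U709.Rk

open SimpleGraph Subgroup
open scoped Pointwise
open Pool.Agent.Y110.FJ
open Pool.Agent.R941.FJ (C_equiv C_le C_cyc)
open Pool.Agent.N509.TK
open Pool.Agent.N509.TX (AcylF finedge fg_subtree STree of_fg of_fg_mem C_stab)
open Pool.Agent.N431.CE (Es mem_Es Es_comm Es_smul)
open Pool.Agent.U385.FJ (Fm toTq)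
open Pool.Agent.U74.BC (VCyc Balanced FD am_fd am_stab_l am_stab_r)
open Pool.Agent.Helper705_SA (IsAmalgam cosetGraph cosetGraph_isTree stab_coset)

variable {C : ∀ (G : Type) [Group G], Prop}

/-- **amalgams of balanced groups over virtually cyclic groups** -/
theorem am_bal (hC : ClosedE C) (hM : ∀ (G : Type) [Group G], derivedSeries G 2 = ⊥ → C G)
    (hA : AcylR C) {G : Type} [Group G] (A B : Subgroup G) (h : IsAmalgam A B)
    (hE : VCyc (A ⊓ B : Subgroup G)) (hcA : C A) (hcB : C B) (hbA : Balanced A)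
    (hbB : Balanced B) : C G ∧ Balanced G := by
  have hfd := am_fd A B h
  have hE' := hfd.edges (by
    show VCyc (MulAction.stabilizer G _ ⊓ MulAction.stabilizer G _ : Subgroup G)
    rw [am_stab_l, am_stab_r]
    exact hE)
  have hb := hfd.all Balanced.equiv (by rw [am_stab_l]; exact hbA) (by rw [am_stab_r]; exact hbB)
  have hc := hfd.all (P := C) (fun A B _ _ e h => C_equiv hC.base e.symm h)
    (by rw [am_stab_l]; exact hcA) (by rw [am_stab_r]; exact hcB)
  exact ⟨BAct.main hC hM hA ⟨hfd.tree, hfd.act, hfd.noinv, hE', hc, hfd.bal_edges hE' hb⟩,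
    hfd.balanced hE' hb⟩

section local'

variable {G V : Type} [Group G] [MulAction G V] {T : SimpleGraph V}

/-- the local condition: generators of edge groups at the same vertex have equal powers only for
exponents of the same absolute value -/
def LB (G : Type) {V : Type} [Group G] [MulAction G V] (T : SimpleGraph V) : Prop :=
  ∀ v u u', T.Adj v u → T.Adj v u' → ∀ c d : G, Es G v u = Subgroup.zpowers c →
    Es G v u' = Subgroup.zpowers d → ¬ IsOfFinOrder c → ∀ p q : ℤ, p ≠ 0 → q ≠ 0 →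
      c ^ p = d ^ q → |p| = |q|

theorem zpow_inf' {c : G} (h : ¬ IsOfFinOrder c) {a : ℤ} (ha : a ≠ 0) : ¬ IsOfFinOrder (c ^ a) := by
  intro h1
  obtain ⟨n, hn, h2⟩ := isOfFinOrder_iff_pow_eq_one.1 h1
  rw [← zpow_natCast, ← zpow_mul] at h2
  exact zp_ne h (mul_ne_zero ha (by exact_mod_cast hn.ne')) h2

theorem LB.walk (h : LB G T) (hcy : ∀ u v, T.Adj u v → IsCyclic (Es G u v)) {a a' : V}
    (w : T.Walk a a') : ∀ (b b' : V) (x y : G) (p q : ℤ), T.Adj a b → T.Adj a' b' →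
      Es G a b = Subgroup.zpowers x → Es G a' b' = Subgroup.zpowers y → ¬ IsOfFinOrder x →
      p ≠ 0 → q ≠ 0 → x ^ q = y ^ p → (∀ z ∈ w.support, x ^ q • z = z) → |p| = |q| := by
  induction w with
  | nil =>
    intro b b' x y p q hab hab' hx hy hxo hp hq hxy _
    exact (h _ b b' hab hab' x y hx hy hxo q p hq hp hxy).symm
  | @cons a t a' hat w ih =>
    intro b b' x y p q hab hab' hx hy hxo hp hq hxy hsup
    have ha1 : x ^ q • a = a := hsup a (Walk.start_mem_support _)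
    have ht1 : x ^ q • t = t := hsup t (by
      rw [Walk.support_cons]
      exact List.mem_cons_of_mem _ (Walk.start_mem_support _))
    have := hcy a t hat
    obtain ⟨⟨s, hs⟩, hgen⟩ := IsCyclic.exists_generator (α := Es G a t)
    have hsE : Es G a t = Subgroup.zpowers s := by
      apply le_antisymm
      · intro z hz
        obtain ⟨k, hk⟩ := hgen ⟨z, hz⟩
        exact ⟨k, congrArg Subtype.val hk⟩
      · rwa [Subgroup.zpowers_le]
    obtain ⟨j, hj⟩ : ∃ j : ℤ, s ^ j = x ^ q := by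
      have h1 : x ^ q ∈ Es G a t := ⟨ha1, ht1⟩
      rw [hsE] at h1
      exact h1
    have hxq : ¬ IsOfFinOrder (x ^ q) := zpow_inf' hxo hq
    have hj0 : j ≠ 0 := by
      rintro rfl
      rw [zpow_zero] at hj
      rw [← hj] at hxq
      exact hxq IsOfFinOrder.one
    have hso : ¬ IsOfFinOrder s := by
      intro hso
      rw [← hj] at hxq
      exact hxq hso.zpow
    have h1 : |q| = |j| := h a b t hab hat x s hx hsE hxo q j hq hj0 hj.symm
    have h2 : |p| = |j| := by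
      refine ih a b' s y p j hat.symm hab' ?_ hy hso hp hj0 ?_ ?_
      · rw [Es_comm]
        exact hsE
      · rw [hj, hxy]
      · intro z hz
        rw [hj]
        exact hsup z (by
          rw [Walk.support_cons]
          exact List.mem_cons_of_mem _ hz)
    rw [h1, h2]

/-- edge groups with the local condition are balanced -/
theorem LB.bal (h : LB G T) (hT : T.IsTree)
    (hact : ∀ (g : G) (u v : V), T.Adj u v → T.Adj (g • u) (g • v))
    (hcy : ∀ u v, T.Adj u v → IsCyclic (Es G u v)) (u v : V) (huv : T.Adj u v) (c : G)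
    (hc : c ∈ Es G u v) (hco : ¬ IsOfFinOrder c) (g : G) (p q : ℤ) (hp : p ≠ 0) (hq : q ≠ 0)
    (hg : g * c ^ p * g⁻¹ = c ^ q) : |p| = |q| := by
  have := hcy u v huv
  obtain ⟨⟨s, hs⟩, hgen⟩ := IsCyclic.exists_generator (α := Es G u v)
  have hsE : Es G u v = Subgroup.zpowers s := by
    apply le_antisymm
    · intro z hz
      obtain ⟨k, hk⟩ := hgen ⟨z, hz⟩
      exact ⟨k, congrArg Subtype.val hk⟩
    · rwa [Subgroup.zpowers_le]
  obtain ⟨k, hk⟩ : ∃ k : ℤ, s ^ k = c := by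
    rw [hsE] at hc
    exact hc
  have hk0 : k ≠ 0 := by
    rintro rfl
    rw [zpow_zero] at hk
    rw [← hk] at hco
    exact hco IsOfFinOrder.one
  have hso : ¬ IsOfFinOrder s := by
    intro hso
    rw [← hk] at hco
    exact hco hso.zpow
  have hgs : Es G (g • u) (g • v) = Subgroup.zpowers (g * s * g⁻¹) := by
    rw [Es_smul, hsE]
    ext z
    rw [Subgroup.mem_pointwise_smul_iff_inv_smul_mem, ← ConjAct.toConjAct_inv,
      ConjAct.toConjAct_smul, inv_inv]
    constructor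
    · rintro ⟨i, hi⟩
      refine ⟨i, ?_⟩
      have hi' : s ^ i = g⁻¹ * z * g := hi
      show (g * s * g⁻¹) ^ i = z
      rw [conj_zpow, hi']
      group
    · rintro ⟨i, hi⟩
      refine ⟨i, ?_⟩
      have hi' : (g * s * g⁻¹) ^ i = z := hi
      show s ^ i = g⁻¹ * z * g
      rw [← hi', conj_zpow]
      group
  have hxy : s ^ (k * q) = (g * s * g⁻¹) ^ (k * p) := by
    rw [conj_zpow, zpow_mul, zpow_mul, hk, hg]
  obtain ⟨w, hw, -⟩ := hT.existsUnique_path u (g • u)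
  have h1 : s ^ (k * q) • u = u := by
    have h2 : s ∈ MulAction.stabilizer G u := hs.1
    exact zpow_mem h2 _
  have h3 : s ^ (k * q) • (g • u) = g • u := by
    rw [hxy, conj_zpow, mul_smul, mul_smul, inv_smul_smul]
    have h2 : s ∈ MulAction.stabilizer G u := hs.1
    have h4 : s ^ (k * p) • u = u := zpow_mem h2 _
    rw [h4]
  have h5 := h.walk hcy w v (g • v) s (g * s * g⁻¹) (k * p) (k * q) huv (hact g u v huv) hsE hgs hso
    (mul_ne_zero hk0 hp) (mul_ne_zero hk0 hq) hxy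
    (Pool.Agent.U74.BC.fix_path hT hact h1 h3 w hw)
  rw [abs_mul, abs_mul] at h5
  exact mul_left_cancel₀ (abs_ne_zero.2 hk0) h5

/-- **the local criterion** -/
theorem LB.main (hC : ClosedE C) (hM : ∀ (G : Type) [Group G], derivedSeries G 2 = ⊥ → C G)
    (hA : AcylR C) (h : LB G T) (hT : T.IsTree)
    (hact : ∀ (g : G) (u v : V), T.Adj u v → T.Adj (g • u) (g • v))
    (hinv : ∀ (g : G) (u v : V), T.Adj u v → ¬ (g • u = v ∧ g • v = u))
    (hcy : ∀ u v, T.Adj u v → IsCyclic (Es G u v)) (hst : ∀ v : V, C (MulAction.stabilizer G v)) :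
    C G :=
  BAct.main hC hM hA ⟨hT, hact, hinv, fun u v huv => vc_of_cyc (hcy u v huv), hst,
    h.bal hT hact hcy⟩

end local'

/-- the elements of `B` which conjugate a power of `c` to a power of `c` commute with `c` -/
def Cn {G : Type} [Group G] (B : Subgroup G) (c : G) : Prop :=
  ∀ g ∈ B, ∀ p q : ℤ, p ≠ 0 → q ≠ 0 → g * c ^ p * g⁻¹ = c ^ q → g * c * g⁻¹ = c

theorem Cn.zpow {G : Type} [Group G] {B : Subgroup G} {c : G} (h : Cn B c) {k : ℤ} (hk : k ≠ 0) :
    Cn B (c ^ k) := by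
  intro g hg p q hp hq hpq
  rw [← zpow_mul, ← zpow_mul] at hpq
  have h1 := h g hg (k * p) (k * q) (mul_ne_zero hk hp) (mul_ne_zero hk hq) hpq
  rw [← conj_zpow, h1]

/-- **amalgams with a condition on one factor** -/
theorem am_one (hC : ClosedE C) (hM : ∀ (G : Type) [Group G], derivedSeries G 2 = ⊥ → C G)
    (hA : AcylR C) {G : Type} [Group G] (A B : Subgroup G) (h : IsAmalgam A B)
    (hcA : C A) (hcB : C B) (c : G) (hE : A ⊓ B = Subgroup.zpowers c)
    (hn : Cn B c) : C G := by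
  classical
  have hfd := am_fd A B h
  obtain ⟨v0, hv0⟩ : ∃ v0 : (G ⧸ A) ⊕ (G ⧸ B), v0 = Sum.inl (QuotientGroup.mk 1) := ⟨_, rfl⟩
  obtain ⟨u0, hu0⟩ : ∃ u0 : (G ⧸ A) ⊕ (G ⧸ B), u0 = Sum.inr (QuotientGroup.mk 1) := ⟨_, rfl⟩
  have hsl : MulAction.stabilizer G v0 = A := by rw [hv0, am_stab_l]
  have hsr : MulAction.stabilizer G u0 = B := by rw [hu0, am_stab_r]
  rw [← hv0, ← hu0] at hfd
  have hlr : ∀ g : G, (∃ x : G ⧸ A, g • v0 = Sum.inl x) ∧ ∃ x : G ⧸ B, g • u0 = Sum.inr x := by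
    intro g
    rw [hv0, hu0]
    exact ⟨⟨_, rfl⟩, ⟨_, rfl⟩⟩
  obtain ⟨K, hK⟩ : ∃ K : (G ⧸ A) ⊕ (G ⧸ B) → Prop, ∀ x, K x ↔ ∃ g : G, g • v0 = x :=
    ⟨fun x => ∃ g : G, g • v0 = x, fun _ => Iff.rfl⟩
  have hKu : ∀ g : G, ¬ K (g • u0) := by
    intro g h1
    obtain ⟨k, hk⟩ := (hK _).1 h1
    obtain ⟨⟨x, hx⟩, -⟩ := hlr k
    obtain ⟨-, ⟨y, hy⟩⟩ := hlr g
    rw [hx, hy] at hk
    exact absurd hk (by simp)
  have hKn : ∀ x, ¬ K x → ∃ g : G, g • u0 = x := by
    intro x hx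
    obtain ⟨g, hg | hg⟩ := hfd.vert x
    · exact absurd ((hK x).2 ⟨g, hg.symm⟩) hx
    · exact ⟨g, hg.symm⟩
  -- the edges at the vertices with the condition
  have hadj : ∀ b u, ¬ K b → (cosetGraph A B).Adj b u → ∃ g : G, g • u0 = b ∧ g • v0 = u := by
    intro b u hb hbu
    obtain ⟨g, ⟨h1, h2⟩ | ⟨h1, h2⟩⟩ := hfd.tr b u hbu
    · exact absurd ((hK b).2 ⟨g, h1⟩) hb
    · exact ⟨g, h2, h1⟩
  have hEg : ∀ g : G, Es G (g • u0) (g • v0) = Subgroup.zpowers (g * c * g⁻¹) := by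
    intro g
    rw [Es_smul]
    have h1 : Es G u0 v0 = Subgroup.zpowers c := by
      show MulAction.stabilizer G u0 ⊓ MulAction.stabilizer G v0 = _
      rw [hsl, hsr, inf_comm, hE]
    rw [h1]
    ext z
    rw [Subgroup.mem_pointwise_smul_iff_inv_smul_mem, ← ConjAct.toConjAct_inv,
      ConjAct.toConjAct_smul, inv_inv]
    constructor
    · rintro ⟨i, hi⟩
      refine ⟨i, ?_⟩
      have hi' : c ^ i = g⁻¹ * z * g := hi
      show (g * c * g⁻¹) ^ i = z
      rw [conj_zpow, hi']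
      group
    · rintro ⟨i, hi⟩
      refine ⟨i, ?_⟩
      have hi' : (g * c * g⁻¹) ^ i = z := hi
      show c ^ i = g⁻¹ * z * g
      rw [← hi', conj_zpow]
      group
  -- commensurable edge groups at a vertex with the condition
  have hturn : ∀ b u u', ¬ K b → (cosetGraph A B).Adj b u → (cosetGraph A B).Adj b u' →
      ∀ x ∈ Es G b u, ∀ y ∈ Es G b u', ¬ IsOfFinOrder x → Cm x y →
      ∃ k γ : G, k • u0 = b ∧ k • v0 = u ∧ γ • b = b ∧ γ • u = u' ∧
        γ * (k * c * k⁻¹) * γ⁻¹ = k * c * k⁻¹ := by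
    intro b u u' hb hbu hbu' x hx y hy hxo hxy
    obtain ⟨k, hk1, hk2⟩ := hadj b u hb hbu
    obtain ⟨k', hk1', hk2'⟩ := hadj b u' hb hbu'
    refine ⟨k, k' * k⁻¹, hk1, hk2, ?_, ?_, ?_⟩
    · rw [mul_smul, ← hk1, inv_smul_smul, hk1', hk1]
    · rw [mul_smul, ← hk2, inv_smul_smul, hk2']
    · -- `k⁻¹ k'` is in `B`
      have hβ : k⁻¹ * k' ∈ B := by
        rw [← hsr, MulAction.mem_stabilizer_iff, mul_smul, hk1', ← hk1, inv_smul_smul]
      rw [← hk1, ← hk2, hEg] at hx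
      rw [← hk1', ← hk2', hEg] at hy
      obtain ⟨i, hi⟩ := hx
      obtain ⟨j, hj⟩ := hy
      have hi' : (k * c * k⁻¹) ^ i = x := hi
      have hj' : (k' * c * k'⁻¹) ^ j = y := hj
      obtain ⟨a, a', ha, ha', haa⟩ := hxy
      have hi0 : i ≠ 0 := by
        rintro rfl
        rw [zpow_zero] at hi'
        rw [← hi'] at hxo
        exact hxo IsOfFinOrder.one
      have hyo : ¬ IsOfFinOrder y := (show Cm x y from ⟨a, a', ha, ha', haa⟩).inf hxo
      have hj0 : j ≠ 0 := by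
        rintro rfl
        rw [zpow_zero] at hj'
        rw [← hj'] at hyo
        exact hyo IsOfFinOrder.one
      have h1 : (k⁻¹ * k') * c ^ (j * a') * (k⁻¹ * k')⁻¹ = c ^ (i * a) := by
        have h2 : (k' * c * k'⁻¹) ^ (j * a') = (k * c * k⁻¹) ^ (i * a) := by
          rw [zpow_mul, zpow_mul, hi', hj', haa]
        rw [conj_zpow, conj_zpow] at h2
        have h3 : (k⁻¹ * k') * c ^ (j * a') * (k⁻¹ * k')⁻¹ =
            k⁻¹ * (k' * c ^ (j * a') * k'⁻¹) * k := by group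
        rw [h3, h2]
        group
      have h4 := hn _ hβ (j * a') (i * a) (mul_ne_zero hj0 ha') (mul_ne_zero hi0 ha) h1
      have h5 : k' * k⁻¹ * (k * c * k⁻¹) * (k' * k⁻¹)⁻¹ =
          k * ((k⁻¹ * k') * c * (k⁻¹ * k')⁻¹) * k⁻¹ := by group
      rw [h5, h4]
  -- representatives
  obtain ⟨s, hs⟩ : ∃ s : (G ⧸ A) ⊕ (G ⧸ B) → G, ∀ x, K x → s x • v0 = x := by
    refine ⟨fun x => if h : ∃ g : G, g • v0 = x then h.choose else 1, fun x hx => ?_⟩
    have h1 := (hK x).1 hx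
    show (if h : ∃ g : G, g • v0 = x then h.choose else 1) • v0 = x
    rw [dif_pos h1]
    exact h1.choose_spec
  have hmem : ∀ v, K v → ∀ x : G, x • v = v → (s v)⁻¹ * x * s v ∈ MulAction.stabilizer G v0 := by
    intro v hv x hx
    rw [MulAction.mem_stabilizer_iff, mul_smul, mul_smul, hs v hv, hx, inv_smul_eq_iff, hs v hv]
  obtain ⟨r, hr⟩ : ∃ r : (G ⧸ A) ⊕ (G ⧸ B) → G → MulAction.stabilizer G v0,
      ∀ v, K v → ∀ x : G, x • v = v → ((r v x : MulAction.stabilizer G v0) : G) = (s v)⁻¹ * x * s v := by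
    refine ⟨fun v x => if h : (s v)⁻¹ * x * s v ∈ MulAction.stabilizer G v0 then ⟨_, h⟩ else 1,
      fun v hv x hx => ?_⟩
    show ((if h : (s v)⁻¹ * x * s v ∈ MulAction.stabilizer G v0 then ⟨_, h⟩ else 1 :
      MulAction.stabilizer G v0) : G) = _
    rw [dif_pos (hmem v hv x hx)]
  refine OData.main (T := cosetGraph A B) (A := K) (W := MulAction.stabilizer G v0) (r := r) hC hM hA
    ⟨hfd.tree, hfd.act, ?_, ?_, ?_, ?_, ?_, ?_, ?_, ?_, ?_, ?_, ?_⟩
  · intro g v hv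
    obtain ⟨k, hk⟩ := (hK v).1 hv
    exact (hK _).2 ⟨g * k, by rw [mul_smul, hk]⟩
  · intro u v huv
    obtain ⟨g, ⟨h1, h2⟩ | ⟨h1, h2⟩⟩ := hfd.tr u v huv
    · refine ⟨fun _ => h2 ▸ hKu g, fun _ => (hK u).2 ⟨g, h1⟩⟩
    · refine ⟨fun h3 => absurd h3 (h2 ▸ hKu g), fun h3 => absurd ((hK v).2 ⟨g, h1⟩) h3⟩
  · intro u v huv
    obtain ⟨g, ⟨rfl, rfl⟩ | ⟨rfl, rfl⟩⟩ := hfd.tr u v huv
    · rw [Es_comm, hEg]
      infer_instance
    · rw [hEg]
      infer_instance
  · refine hfd.all (P := C) (fun A B _ _ e h => C_equiv hC.base e.symm h) ?_ ?_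
    · rw [hsl]
      exact hcA
    · rw [hsr]
      exact hcB
  · intro b u hb hbu x hx hxo g hg p q hp hq hpq
    obtain ⟨k, hk1, hk2⟩ := hadj b u hb hbu
    rw [← hk1, ← hk2, hEg] at hx
    obtain ⟨i, hi⟩ := hx
    have hi' : (k * c * k⁻¹) ^ i = x := hi
    have hi0 : i ≠ 0 := by
      rintro rfl
      rw [zpow_zero] at hi'
      rw [← hi'] at hxo
      exact hxo IsOfFinOrder.one
    have hgB : k⁻¹ * g * k ∈ B := by
      rw [← hsr, MulAction.mem_stabilizer_iff, mul_smul, mul_smul, hk1, hg, ← hk1, inv_smul_smul]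
    have h1 := (hn.zpow hi0) _ hgB p q hp hq (by
      have h2 : (k⁻¹ * g * k) * (c ^ i) ^ p * (k⁻¹ * g * k)⁻¹ =
          k⁻¹ * (g * ((k * c * k⁻¹) ^ i) ^ p * g⁻¹) * k := by
        rw [conj_zpow, conj_zpow]
        group
      rw [h2, hi', hpq, ← hi', conj_zpow, conj_zpow]
      group)
    have h3 : g * x * g⁻¹ = k * ((k⁻¹ * g * k) * c ^ i * (k⁻¹ * g * k)⁻¹) * k⁻¹ := by
      rw [← hi', conj_zpow]
      group
    rw [h3, h1, ← hi', conj_zpow]
  · intro b u u' hb hbu hbu' x hx y hy hxo hxy z hz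
    obtain ⟨k, γ, hk1, hk2, hγb, hγu, hγ⟩ := hturn b u u' hb hbu hbu' x hx y hy hxo hxy
    have hz' := hz
    rw [← hk1, ← hk2, hEg] at hz'
    obtain ⟨i, hi⟩ := hz'
    have hi' : (k * c * k⁻¹) ^ i = z := hi
    have h1 : γ * z * γ⁻¹ = z := by
      rw [← hi', ← conj_zpow, hγ]
    refine ⟨hz.1, ?_⟩
    have h2 : z • u = u := hz.2
    show z • u' = u'
    rw [← hγu, ← h1, mul_smul, mul_smul, inv_smul_smul, h2]
  · rw [hsl]
    exact hcA
  · intro v hv x y hx hy
    apply Subtype.ext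
    have hxy : (x * y) • v = v := by rw [mul_smul, hy, hx]
    rw [Subgroup.coe_mul, hr v hv _ hxy, hr v hv x hx, hr v hv y hy]
    group
  · intro v hv x hx h1
    have h2 := congrArg Subtype.val h1
    rw [hr v hv x hx] at h2
    have h3 : (s v)⁻¹ * x * s v = 1 := h2
    have h4 : x = s v * ((s v)⁻¹ * x * s v) * (s v)⁻¹ := by group
    rw [h4, h3]
    group
  · intro g v hv
    have hgv : K (g • v) := by
      obtain ⟨k, hk⟩ := (hK v).1 hv
      exact (hK _).2 ⟨g * k, by rw [mul_smul, hk]⟩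
    refine ⟨⟨(s (g • v))⁻¹ * g * s v, ?_⟩, fun x hx => ?_⟩
    · rw [MulAction.mem_stabilizer_iff, mul_smul, mul_smul, hs v hv, inv_smul_eq_iff, hs _ hgv]
    · apply Subtype.ext
      have h1 : (g * x * g⁻¹) • g • v = g • v := by
        rw [mul_smul, mul_smul, inv_smul_smul, hx]
      rw [hr _ hgv _ h1, Subgroup.coe_mul, Subgroup.coe_mul, Subgroup.coe_inv, hr v hv x hx]
      group
  · intro b u u' hb hbu hbu' x hx y hy hxo hxy
    obtain ⟨k, γ, hk1, hk2, hγb, hγu, hγ⟩ := hturn b u u' hb hbu hbu' x hx y hy hxo hxy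
    have hu : K u := (hK u).2 ⟨k, hk2⟩
    have hu' : K u' := (hK u').2 ⟨γ * k, by rw [mul_smul, hk2, hγu]⟩
    refine ⟨⟨(s u')⁻¹ * γ * s u, ?_⟩, fun z hz => ?_⟩
    · rw [MulAction.mem_stabilizer_iff, mul_smul, mul_smul, hs u hu, hγu, inv_smul_eq_iff, hs u' hu']
    · have hz' := hz
      rw [← hk1, ← hk2, hEg] at hz'
      obtain ⟨i, hi⟩ := hz'
      have hi' : (k * c * k⁻¹) ^ i = z := hi
      have h1 : γ * z * γ⁻¹ = z := by
        rw [← hi', ← conj_zpow, hγ]
      have h2 : z • u = u := hz.2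
      have h3 : z • u' = u' := by
        rw [← hγu, ← h1, mul_smul, mul_smul, inv_smul_smul, h2]
      apply Subtype.ext
      rw [hr u' hu' z h3, Subgroup.coe_mul, Subgroup.coe_mul, Subgroup.coe_inv, hr u hu z h2]
      have h4 : (s u')⁻¹ * γ * s u * ((s u)⁻¹ * z * s u) * ((s u')⁻¹ * γ * s u)⁻¹ =
          (s u')⁻¹ * (γ * z * γ⁻¹) * s u' := by group
      rw [h4, h1]

end Pool.Agent.U709.Rk
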