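import Pool.Agent.U709.RkH
import Pool.Agent.U709.HubC

/-!
# Bipartite trees with a condition at one type of vertices
-/

set_option autoImplicit false

namespace Pool.Agent.U709.Rk

open SimpleGraph Subgroup
open scoped Pointwise
open Pool.Agent.Y110.FJ
open Pool.Agent.N431.CE (Es mem_Es Es_comm Es_smul)
open Pool.Agent.U709.Gl (HH cf cf_mul cf_inj cf_conj)

variable {C : ∀ (G : Type) [Group G], Prop} {G V : Type} [Group G] [MulAction G V]
  {T : SimpleGraph V}

/-- **bipartite trees with a condition at one type of vertices** -/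
theorem one_tree (hC : ClosedE C) (hM : ∀ (G : Type) [Group G], derivedSeries G 2 = ⊥ → C G)
    (hA : AcylR C) (hT : T.IsTree)
    (hact : ∀ (g : G) (u v : V), T.Adj u v → T.Adj (g • u) (g • v)) (A : V → Prop)
    (hty : ∀ (g : G) v, A v → A (g • v)) (halt : ∀ u v, T.Adj u v → (A u ↔ ¬ A v))
    (hcy : ∀ u v, T.Adj u v → IsCyclic (Es G u v)) (hst : ∀ v : V, C (MulAction.stabilizer G v))
    (hcn : ∀ b u, ¬ A b → T.Adj b u → ∀ c ∈ Es G b u, ¬ IsOfFinOrder c →
      Cn (MulAction.stabilizer G b) c)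
    (htr : ∀ b u u', ¬ A b → T.Adj b u → T.Adj b u' → ∀ c ∈ Es G b u, ∀ d ∈ Es G b u',
      ¬ IsOfFinOrder c → Cm c d → ∃ g : G, g • b = b ∧ g • u = u') : C G := by
  -- the element which exchanges the neighbours centralizes the common elements
  have key : ∀ b u u', ¬ A b → T.Adj b u → T.Adj b u' → ∀ c ∈ Es G b u, ∀ d ∈ Es G b u',
      ¬ IsOfFinOrder c → Cm c d → ∃ g : G, g • b = b ∧ g • u = u' ∧
        ∀ x ∈ Es G b u, g * x * g⁻¹ = x := by
    intro b u u' hb hu hu' c hc d hd hco hcd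
    obtain ⟨g, hgb, hgu⟩ := htr b u u' hb hu hu' c hc d hd hco hcd
    refine ⟨g, hgb, hgu, fun x hx => ?_⟩
    -- `x` and `g x g⁻¹` are commensurable
    have hcyb := hcy b u hu
    obtain ⟨⟨s, hs⟩, hgen⟩ := IsCyclic.exists_generator (α := Es G b u)
    obtain ⟨i, hi⟩ := hgen ⟨c, hc⟩
    have hi' : s ^ i = c := congrArg Subtype.val hi
    have hso : ¬ IsOfFinOrder s := by
      intro hso
      apply hco
      rw [← hi']
      exact hso.zpow
    have hi0 : i ≠ 0 := by
      rintro rfl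
      rw [zpow_zero] at hi'
      rw [← hi'] at hco
      exact hco IsOfFinOrder.one
    -- `d` is a power of `g s g⁻¹`
    have hd' : g⁻¹ * d * g ∈ Es G b u := by
      have hgb' : g⁻¹ • b = b := by rw [inv_smul_eq_iff, hgb]
      constructor
      · show (g⁻¹ * d * g) • b = b
        have h1 : d • b = b := hd.1
        rw [mul_smul, mul_smul, hgb, h1, hgb']
      · show (g⁻¹ * d * g) • u = u
        have h1 : d • u' = u' := hd.2
        rw [mul_smul, mul_smul, hgu, h1, ← hgu, inv_smul_smul]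
    obtain ⟨j, hj⟩ := hgen ⟨_, hd'⟩
    have hj' : s ^ j = g⁻¹ * d * g := congrArg Subtype.val hj
    have hdo : ¬ IsOfFinOrder d := hcd.inf hco
    have hdj : d = g * s ^ j * g⁻¹ := by
      rw [hj']
      group
    have hj0 : j ≠ 0 := by
      rintro rfl
      rw [zpow_zero, mul_one, mul_inv_cancel] at hdj
      rw [hdj] at hdo
      exact hdo IsOfFinOrder.one
    obtain ⟨a, a', ha, ha', haa⟩ := hcd
    have h1 : g * s ^ (j * a') * g⁻¹ = s ^ (i * a) := by
      rw [zpow_mul, zpow_mul, hi', haa, hdj, conj_zpow]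
    have h2 := hcn b u hb hu s hs hso g hgb (j * a') (i * a) (mul_ne_zero hj0 ha')
      (mul_ne_zero hi0 ha) h1
    obtain ⟨l, hl⟩ := hgen ⟨x, hx⟩
    have hl' : s ^ l = x := congrArg Subtype.val hl
    rw [← hl', ← conj_zpow, h2]
  refine OData.main (T := T) (A := A) (W := HH G V) (r := cf) hC hM hA
    ⟨hT, hact, hty, halt, hcy, hst, ?_, ?_, Pool.Agent.U863.CT.C_coprodI C hC.base hst, ?_, ?_, ?_, ?_⟩
  · intro b u hb hu c hc hco g hg p q hp hq hpq
    exact hcn b u hb hu c hc hco g hg p q hp hq hpq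
  · intro b u u' hb hu hu' c hc d hd hco hcd x hx
    obtain ⟨g, hgb, hgu, hg⟩ := key b u u' hb hu hu' c hc d hd hco hcd
    refine ⟨hx.1, ?_⟩
    have h2 : x • u = u := hx.2
    show x • u' = u'
    rw [← hgu, ← hg x hx, mul_smul, mul_smul, inv_smul_smul, h2]
  · intro v _ x y hx hy
    exact cf_mul hx hy
  · intro v _ x hx h
    exact cf_inj hx h
  · intro g v _
    exact cf_conj g v
  · intro b u u' hb hu hu' c hc d hd hco hcd
    obtain ⟨g, hgb, hgu, hg⟩ := key b u u' hb hu hu' c hc d hd hco hcd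
    obtain ⟨k, hk⟩ := cf_conj g u
    refine ⟨k, fun x hx => ?_⟩
    have h1 := hk x hx.2
    rwa [hgu, hg x hx] at h1

end Pool.Agent.U709.Rk
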