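import Pool.Agent.U709.LvB

/-!
# Levels on trees: one-sided conditions, noncentral edge groups
-/

set_option autoImplicit false

namespace Pool.Agent.U709.Rm

open SimpleGraph
open scoped commutatorElement Pointwise
open Subgroup
open Pool.Agent.Y110.FJ
open Pool.Agent.N509.TK
open Pool.Agent.R941.FJ (C_equiv C_le C_cyc)
open Pool.Agent.U709.Lv (rl rl_LR Zs Zs_tree)

variable {C : ∀ (G : Type) [Group G], Prop}
variable {G V : Type} [Group G] [MulAction G V] {T : SimpleGraph V}

/-- An invariant function `lam` with different values on adjacent vertices, with conditions for the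
edges which join a vertex to the vertices with smaller values. -/
structure Lev (C : ∀ (G : Type) [Group G], Prop) {G V : Type} [Group G] [MulAction G V]
    (T : SimpleGraph V) (lam : V → ℕ) (R : V → Subgroup G) : Prop where
  inv : ∀ (g : G) v, lam (g • v) = lam v
  ne : ∀ u v, T.Adj u v → lam u ≠ lam v
  fix : ∀ b, ∀ x ∈ R b, x • b = b
  conj : ∀ (g : G) b, ∀ x ∈ R b, g * x * g⁻¹ ∈ R (g • b)
  triv : ∀ b a, T.Adj b a → lam a < lam b → ∀ x ∈ R b, x • a = a → x = 1
  norm : ∀ b a, T.Adj b a → lam a < lam b → ∀ g : G, g • b = b → ∀ x : G, x • b = b → x • a = a →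
    ∃ r ∈ R b, ∃ e : G, e • b = b ∧ e • a = a ∧ g * x * g⁻¹ = r * e
  cent : ∀ b a, T.Adj b a → lam a < lam b → ∀ g : G, g • b = b → ∃ k : G,
    (∃ r ∈ R b, ∃ e : G, e • b = b ∧ e • a = a ∧ k = r * e) ∧
    ∀ a', T.Adj b a' → lam a' < lam b → ∀ x : G, x • b = b → x • a' = a' → ⁅k⁻¹ * g, x⁆ ∈ R b
  one : ∀ b a a', T.Adj b a → T.Adj b a' → lam a < lam b → lam a' < lam b →
    ∃ g : G, g • b = b ∧ g • a = a'
  quo : ∀ b a, T.Adj b a → lam a < lam b → ∃ (Q : Type) (_ : Group Q)
    (f : MulAction.stabilizer G b →* Q), C Q ∧ ∀ x, f x = 1 ↔ ∃ r ∈ R b, ∃ (e : G) (a' : V),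
      T.Adj b a' ∧ lam a' < lam b ∧ e • b = b ∧ e • a' = a' ∧ (x : G) = r * e

/-- the theorem for levels less than `n` -/
def PL (C : ∀ (G : Type) [Group G], Prop) (n : ℕ) : Prop :=
  ∀ (G V : Type) [Group G] [MulAction G V] (T : SimpleGraph V) (lam : V → ℕ) (R : V → Subgroup G),
    T.IsTree → (∀ (g : G) (u v : V), T.Adj u v → T.Adj (g • u) (g • v)) →
    (∀ v : V, C ↥(MulAction.stabilizer G v)) → Lev C T lam R → (∀ v, lam v < n) → C G

/-- **the stabilizers of the components of the set of vertices of small level** -/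
theorem low_cyl (hC : ClosedE C) {n : ℕ} (IH : PL C n) (hT : T.IsTree)
    (hact : ∀ (g : G) (u v : V), T.Adj u v → T.Adj (g • u) (g • v))
    (hV : ∀ v : V, C ↥(MulAction.stabilizer G v)) {lam : V → ℕ} {R : V → Subgroup G}
    (hL : Lev C T lam R) (y : Cyl T (rl lam n)) {o a : V} (h : T.Adj o a)
    (hy : cy (rl lam n) h = y) (ho : lam o < n) (K : Subgroup G)
    (hmK : ∀ g, g ∈ K ↔ (cyAct hact (rl_LR hL.inv n)).smul g y = y) : C K := by
  have hr : LR G T (rl lam n) := rl_LR hL.inv n
  have hKP : ∀ g ∈ K, Pres hact y g := by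
    intro g hg v a h hvy
    have e := cyAct_cy hact hr g h
    rw [← e, hvy]
    exact (hmK g).1 hg
  have hKe : ∀ (g : G) (v a : V) (h : T.Adj v a), cy (rl lam n) h = y →
      cy (rl lam n) (hact g v a h) = y → g ∈ K := by
    intro g v a h hvy hgy
    rw [hmK]
    have e := cyAct_cy hact hr g h
    rw [← e, hvy] at hgy
    exact hgy
  -- the stabilizers of the vertices of `Zs y` are contained in `K`
  have hst : ∀ b ∈ Zs y, ∀ g : G, g • b = b → g ∈ K := by
    intro b hb g hg
    obtain ⟨c, hbc, hc⟩ := hb.1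
    refine hKe g b c hbc hc ?_
    have h1 : T.Adj b (g • c) := by
      have := hact g b c hbc
      rwa [hg] at this
    rw [cy_congr (hact g b c hbc) h1 hg rfl, ← hc]
    exact cy_rel h1 hbc (Or.inr hb.2)
  have hnb : ∀ b ∈ Zs y, ∀ c, T.Adj b c → Mem y c := by
    intro b hb c hbc
    obtain ⟨c', hbc', hc'⟩ := hb.1
    rw [← hc', ← cy_rel hbc hbc' (Or.inr hb.2)]
    exact Mem_cy' hbc
  let _ : MulAction K (Zs y) :=
    { smul := fun g v => ⟨(g : G) • (v : V), (hKP g g.2).mem v.2.1, by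
        show lam ((g : G) • (v : V)) < n
        rw [hL.inv]
        exact v.2.2⟩
      one_smul := fun v => Subtype.ext (one_smul G (v : V))
      mul_smul := fun g h v => Subtype.ext (mul_smul (g : G) (h : G) (v : V)) }
  refine IH K (Zs y) (T.induce (Zs y)) (fun v => lam v) (fun v => (R v).comap K.subtype)
    (Zs_tree hT h hy ho) (fun g u v h => hact g _ _ h) ?_ ?_ fun v => v.2.2
  · intro v
    have h1 : (MulAction.stabilizer K v).map K.subtype ≤ MulAction.stabilizer G (v : V) := by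
      rintro _ ⟨g, hg, rfl⟩
      exact congrArg Subtype.val hg
    exact C_equiv hC.base (equivMapOfInjective _ K.subtype K.subtype_injective)
      (C_le hC.base h1 (hV v))
  · refine ⟨fun g v => hL.inv g v, fun u v h => hL.ne u v h, ?_, ?_, ?_, ?_, ?_, ?_, ?_⟩
    · exact fun b x hx => Subtype.ext (hL.fix b x hx)
    · exact fun g b x hx => hL.conj g b x hx
    · exact fun b a hba hlt x hx hxa =>
        Subtype.ext (hL.triv b a hba hlt x hx (congrArg Subtype.val hxa))
    · intro b a hba hlt g hg x hx hxa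
      obtain ⟨r, hr, e, heb, hea, h1⟩ := hL.norm b a hba hlt g (congrArg Subtype.val hg) x
        (congrArg Subtype.val hx) (congrArg Subtype.val hxa)
      exact ⟨⟨r, hst b b.2 r (hL.fix b r hr)⟩, hr, ⟨e, hst b b.2 e heb⟩, Subtype.ext heb,
        Subtype.ext hea, Subtype.ext h1⟩
    · intro b a hba hlt g hg
      obtain ⟨k, ⟨r, hr, e, heb, hea, h1⟩, h2⟩ := hL.cent b a hba hlt g (congrArg Subtype.val hg)
      have hrK := hst b b.2 r (hL.fix b r hr)
      have heK := hst b b.2 e heb
      refine ⟨⟨k, by rw [h1]; exact mul_mem hrK heK⟩, ⟨⟨r, hrK⟩, hr, ⟨e, heK⟩, Subtype.ext heb,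
        Subtype.ext hea, Subtype.ext h1⟩, fun a' hba' hlt' x hx hxa => ?_⟩
      exact h2 a' hba' hlt' x (congrArg Subtype.val hx) (congrArg Subtype.val hxa)
    · intro b a a' hba hba' hlt hlt'
      obtain ⟨g, hg, hga⟩ := hL.one b a a' hba hba' hlt hlt'
      exact ⟨⟨g, hst b b.2 g hg⟩, Subtype.ext hg, Subtype.ext hga⟩
    · intro b a hba hlt
      obtain ⟨Q, _, f, hQ, hf⟩ := hL.quo b a hba hlt
      let j : MulAction.stabilizer K b →* MulAction.stabilizer G (b : V) :=
        (K.subtype.comp (Subgroup.subtype _)).codRestrict _ (by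
          rintro ⟨g, hg⟩
          exact congrArg Subtype.val hg)
      refine ⟨Q, _, f.comp j, hQ, fun x => ?_⟩
      show f (j x) = 1 ↔ _
      rw [hf]
      constructor
      · rintro ⟨r, hr, e, a', ha', hlt', heb, hea, hx⟩
        have hrb := hL.fix b r hr
        refine ⟨⟨r, hst b b.2 r hrb⟩, hr, ⟨e, hst b b.2 e heb⟩,
          ⟨a', hnb b b.2 a' ha', lt_trans hlt' b.2.2⟩, ha', hlt', Subtype.ext heb, Subtype.ext hea,
          Subtype.ext hx⟩
      · rintro ⟨r, hr, e, a', ha', hlt', heb, hea, hx⟩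
        exact ⟨r, hr, e, a', ha', hlt', congrArg Subtype.val heb, congrArg Subtype.val hea,
          congrArg Subtype.val hx⟩

end Pool.Agent.U709.Rm
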