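import Pool.Agent.U709.RmB

/-!
# Levels on trees: equivalence relations on links, the data at one vertex
-/

set_option autoImplicit false

namespace Pool.Agent.U709.Rm

open SimpleGraph
open scoped commutatorElement Pointwise
open Subgroup
open Pool.Agent.Y110.FJ
open Pool.Agent.N509.TK
open Pool.Agent.N431.CE (Es mem_Es)

variable {C : ∀ (G : Type) [Group G], Prop}
variable {G V : Type} [Group G] [MulAction G V] {T : SimpleGraph V} {r : V → V → V → Prop}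

/-- there is a homomorphism `f` from `M` to a group, which is injective on `E`, such that `f(M)` is
generated by `f(E)` and elements which commute with `f(E)`, and the quotient `f(M) / f(E)` embeds in a
group in `C` -/
def GenVis (C : ∀ (G : Type) [Group G], Prop) (E M : Subgroup G) : Prop :=
  ∃ (P Q : Type) (_ : Group P) (_ : Group Q) (f : M →* P) (q : P →* Q), C Q ∧
    (∀ x : M, (x : G) ∈ E → f x = 1 → x = 1) ∧
    (∀ m : M, ∃ y : M, (y : G) ∈ E ∧ ∀ x : M, (x : G) ∈ E → f (y⁻¹ * m) * f x = f x * f (y⁻¹ * m)) ∧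
    ∀ m : M, q (f m) = 1 ↔ ∃ x : M, (x : G) ∈ E ∧ f m = f x

/-- the data for one vertex of a cylinder -/
def Loc (C : ∀ (G : Type) [Group G], Prop) (K R : Subgroup G) (y : Cyl T r) (l : V → V → ℕ)
    (v : V) : Prop :=
  R ≤ K ⊓ MulAction.stabilizer G v ∧
  (∀ g ∈ K, g • v = v → ∀ x ∈ R, g * x * g⁻¹ ∈ R) ∧
  (∀ (u : V) (h : T.Adj v u), cy r h = y → l u v < l v u → ∀ x ∈ R, x • u = u → x = 1) ∧
  (∀ (u : V) (h : T.Adj v u), cy r h = y → l u v < l v u → ∀ g ∈ K, g • v = v → ∀ x : G,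
    x • v = v → x • u = u → ∃ s ∈ R, ∃ e : G, e • v = v ∧ e • u = u ∧ g * x * g⁻¹ = s * e) ∧
  (∀ (u : V) (h : T.Adj v u), cy r h = y → l u v < l v u → ∀ g ∈ K, g • v = v → ∃ k : G,
    (∃ s ∈ R, ∃ e : G, e • v = v ∧ e • u = u ∧ k = s * e) ∧
    ∀ (u' : V) (h' : T.Adj v u'), cy r h' = y → l u' v < l v u' → ∀ x : G, x • v = v → x • u' = u' →
      ⁅k⁻¹ * g, x⁆ ∈ R) ∧
  ∀ (u : V) (h : T.Adj v u), cy r h = y → l u v < l v u →
    ∃ (Q : Type) (_ : Group Q) (f : ↥(K ⊓ MulAction.stabilizer G v) →* Q), C Q ∧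
    ∀ x, f x = 1 ↔ ∃ s ∈ R, ∃ (e : G) (u' : V) (h' : T.Adj v u'), cy r h' = y ∧
      l u' v < l v u' ∧ e • v = v ∧ e • u' = u' ∧ (x : G) = s * e

theorem loc_of {K : Subgroup G} {y : Cyl T r} {l : V → V → ℕ} {v u : V} (h : T.Adj v u)
    (hvy : cy r h = y) (hlt : l u v < l v u)
    (hEK : ∀ (u' : V) (h' : T.Adj v u'), cy r h' = y → ∀ x : G, x • v = v → x • u' = u' → x ∈ K)
    (hone : ∀ (u' : V) (h' : T.Adj v u'), cy r h' = y → l u' v < l v u' →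
      ∃ g ∈ K, g • v = v ∧ g • u = u')
    (hvis : GenVis C (Es G v u) (K ⊓ MulAction.stabilizer G v)) :
    ∃ R : Subgroup G, Loc C K R y l v := by
  obtain ⟨P, Q, _, _, f, q, hQ, hinj, hgen, hq⟩ := hvis
  have hN : ∀ m x : ↥(K ⊓ MulAction.stabilizer G v), (x : G) ∈ Es G v u →
      ∃ e : ↥(K ⊓ MulAction.stabilizer G v), (e : G) ∈ Es G v u ∧ f (m * x * m⁻¹) = f e := by
    intro m x hx
    obtain ⟨y0, hy0, hc⟩ := hgen m
    refine ⟨y0 * x * y0⁻¹, mul_mem (mul_mem hy0 hx) (inv_mem hy0), ?_⟩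
    have h1 := hc x hx
    have h2 : m = y0 * (y0⁻¹ * m) := by group
    calc f (m * x * m⁻¹) = f (y0 * (y0⁻¹ * m) * x * (y0 * (y0⁻¹ * m))⁻¹) := by rw [← h2]
      _ = f y0 * (f (y0⁻¹ * m) * f x) * (f (y0⁻¹ * m))⁻¹ * (f y0)⁻¹ := by
        rw [map_mul, map_mul, map_inv, map_mul f y0 (y0⁻¹ * m)]
        group
      _ = f (y0 * x * y0⁻¹) := by
        rw [h1]
        simp only [map_mul, map_inv]
        group
  -- conjugates in the edge group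
  have hconj : ∀ (u' : V) (h' : T.Adj v u'), cy r h' = y → l u' v < l v u' →
      ∃ g1 : ↥(K ⊓ MulAction.stabilizer G v), (∀ x : ↥(K ⊓ MulAction.stabilizer G v),
        (x : G) • u' = u' → ((g1⁻¹ * x * g1 : ↥(K ⊓ MulAction.stabilizer G v)) : G) ∈ Es G v u) ∧
        ∀ x : ↥(K ⊓ MulAction.stabilizer G v), (x : G) • u = u →
          ((g1 * x * g1⁻¹ : ↥(K ⊓ MulAction.stabilizer G v)) : G) • u' = u' := by
    intro u' h' hy' hlt'
    obtain ⟨g, hg, hgv, hgu⟩ := hone u' h' hy' hlt'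
    refine ⟨⟨g, hg, hgv⟩, fun x hx => ⟨?_, ?_⟩, fun x hx => ?_⟩
    · show (g⁻¹ * (x : G) * g) • v = v
      rw [mul_smul, mul_smul, hgv, show (x : G) • v = v from x.2.2, inv_smul_eq_iff, hgv]
    · show (g⁻¹ * (x : G) * g) • u = u
      rw [mul_smul, mul_smul, hgu, hx, inv_smul_eq_iff, hgu]
    · show (g * (x : G) * g⁻¹) • u' = u'
      rw [mul_smul, mul_smul, ← hgu, inv_smul_smul, hx]
  have hN' : ∀ (u' : V) (h' : T.Adj v u'), cy r h' = y → l u' v < l v u' →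
      ∀ x : ↥(K ⊓ MulAction.stabilizer G v), (x : G) • u' = u' →
      ∃ e : ↥(K ⊓ MulAction.stabilizer G v), (e : G) ∈ Es G v u ∧ f x = f e := by
    intro u' h' hy' hlt' x hx
    obtain ⟨g1, hg1, -⟩ := hconj u' h' hy' hlt'
    obtain ⟨e, he, h1⟩ := hN g1 _ (hg1 x hx)
    refine ⟨e, he, ?_⟩
    rw [← h1]
    congr 1
    group
  have hN'' : ∀ (u' : V) (h' : T.Adj v u'), cy r h' = y → l u' v < l v u' →
      ∀ e : ↥(K ⊓ MulAction.stabilizer G v), (e : G) ∈ Es G v u →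
      ∃ x : ↥(K ⊓ MulAction.stabilizer G v), (x : G) • u' = u' ∧ f x = f e := by
    intro u' h' hy' hlt' e he
    obtain ⟨g1, -, hg1⟩ := hconj u' h' hy' hlt'
    obtain ⟨e2, he2, h1⟩ := hN g1⁻¹ e he
    refine ⟨g1 * e2 * g1⁻¹, hg1 e2 he2.2, ?_⟩
    rw [map_mul, map_mul, ← h1, ← map_mul, ← map_mul]
    congr 1
    group
  refine ⟨(f.ker).map (Subgroup.subtype _), ?_, ?_, ?_, ?_, ?_, ?_⟩
  · rintro _ ⟨x, -, rfl⟩
    exact x.2
  · rintro g hg hgv _ ⟨x, hx, rfl⟩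
    refine ⟨⟨g, hg, hgv⟩ * x * ⟨g, hg, hgv⟩⁻¹, ?_, rfl⟩
    exact (inferInstance : f.ker.Normal).conj_mem x hx _
  · rintro u' h' hy' hlt' _ ⟨x, hx, rfl⟩ hxu
    obtain ⟨g1, hg1, -⟩ := hconj u' h' hy' hlt'
    have h1 := hg1 x hxu
    have h2 : f (g1⁻¹ * x * g1) = 1 := by
      rw [map_mul, map_mul, MonoidHom.mem_ker.1 hx, mul_one, ← map_mul, inv_mul_cancel, map_one]
    have h3 := hinj _ h1 h2
    have h4 : x = 1 := by
      calc x = g1 * (g1⁻¹ * x * g1) * g1⁻¹ := by group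
        _ = 1 := by rw [h3, mul_one, mul_inv_cancel]
    rw [h4]
    rfl
  · intro u' h' hy' hlt' g hg hgv x hxv hxu
    obtain ⟨g1, hg1⟩ : ∃ g1 : ↥(K ⊓ MulAction.stabilizer G v), (g1 : G) = g := ⟨⟨g, hg, hgv⟩, rfl⟩
    obtain ⟨x1, hx1⟩ : ∃ x1 : ↥(K ⊓ MulAction.stabilizer G v), (x1 : G) = x :=
      ⟨⟨x, hEK u' h' hy' x hxv hxu, hxv⟩, rfl⟩
    obtain ⟨e, he, h1⟩ := hN' u' h' hy' hlt' x1 (by rw [hx1]; exact hxu)
    obtain ⟨e1, he1, h2⟩ := hN g1 e he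
    obtain ⟨e2, he2, h3⟩ := hN'' u' h' hy' hlt' e1 he1
    have h4 : f (g1 * x1 * g1⁻¹) = f e2 := by
      rw [h3, ← h2, map_mul, map_mul, h1, ← map_mul, ← map_mul]
    refine ⟨((g1 * x1 * g1⁻¹ * e2⁻¹ : ↥(K ⊓ MulAction.stabilizer G v)) : G),
      ⟨g1 * x1 * g1⁻¹ * e2⁻¹, ?_, rfl⟩, e2, e2.2.2, he2, ?_⟩
    · rw [SetLike.mem_coe, MonoidHom.mem_ker, map_mul, map_inv, h4, mul_inv_cancel]
    · rw [← hg1, ← hx1]
      push_cast
      group
  · intro u' h' hy' hlt' g hg hgv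
    obtain ⟨g1, hg1⟩ : ∃ g1 : ↥(K ⊓ MulAction.stabilizer G v), (g1 : G) = g := ⟨⟨g, hg, hgv⟩, rfl⟩
    obtain ⟨y0, hy0, hc⟩ := hgen g1
    obtain ⟨e2, he2, h3⟩ := hN'' u' h' hy' hlt' y0 hy0
    refine ⟨e2, ⟨1, one_mem _, e2, e2.2.2, he2, (one_mul _).symm⟩, fun u'' h'' hy'' hlt'' x hxv hxu => ?_⟩
    obtain ⟨x1, hx1⟩ : ∃ x1 : ↥(K ⊓ MulAction.stabilizer G v), (x1 : G) = x :=
      ⟨⟨x, hEK u'' h'' hy'' x hxv hxu, hxv⟩, rfl⟩
    obtain ⟨e, he, h1⟩ := hN' u'' h'' hy'' hlt'' x1 (by rw [hx1]; exact hxu)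
    refine ⟨⁅e2⁻¹ * g1, x1⁆, ?_, ?_⟩
    · rw [SetLike.mem_coe, MonoidHom.mem_ker, map_commutatorElement,
        commutatorElement_eq_one_iff_mul_comm, h1]
      have h4 : f (e2⁻¹ * g1) = f (y0⁻¹ * g1) := by
        rw [map_mul, map_mul, map_inv, map_inv, h3]
      rw [h4]
      exact hc e he
    · rw [← hg1, ← hx1]
      rfl
  · intro _ _ _ _
    refine ⟨Q, inferInstance, q.comp f, hQ, fun x => ?_⟩
    show q (f x) = 1 ↔ _
    rw [hq]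
    constructor
    · rintro ⟨e, he, h1⟩
      refine ⟨(x : G) * (e : G)⁻¹, ⟨x * e⁻¹, ?_, rfl⟩, e, u, h, hvy, hlt, he.1, he.2, ?_⟩
      · rw [SetLike.mem_coe, MonoidHom.mem_ker, map_mul, map_inv, h1, mul_inv_cancel]
      · rw [inv_mul_cancel_right]
    · rintro ⟨_, ⟨s, hs, rfl⟩, e, u', h', hy', hlt', hev, heu, hx⟩
      obtain ⟨e1, he1⟩ : ∃ e1 : ↥(K ⊓ MulAction.stabilizer G v), (e1 : G) = e :=
        ⟨⟨e, hEK u' h' hy' e hev heu, hev⟩, rfl⟩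
      obtain ⟨e2, he2, h1⟩ := hN' u' h' hy' hlt' e1 (by rw [he1]; exact heu)
      refine ⟨e2, he2, ?_⟩
      have h2 : x = s * e1 := by
        apply Subtype.ext
        rw [hx, ← he1]
        rfl
      rw [h2, map_mul, MonoidHom.mem_ker.1 hs, one_mul, h1]

end Pool.Agent.U709.Rm
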