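import Pool.Agent.U709.RmC

/-!
# Levels on trees: equivalence relations on links, the theorem
-/

set_option autoImplicit false

namespace Pool.Agent.U709.Rm

open SimpleGraph
open scoped commutatorElement Pointwise
open Subgroup
open Subgroup.Commensurable (commensurator)
open Pool.Agent.Y110.FJ
open Pool.Agent.N509.TK
open Pool.Agent.N509.TX (AcylF C_edge)
open Pool.Agent.N431.CE (Es mem_Es cylF)
open Pool.Agent.R941.FJ (C_equiv C_le C_cyc mem_sup_normal)

variable {C : ∀ (G : Type) [Group G], Prop}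
variable {G V : Type} [Group G] [MulAction G V] {T : SimpleGraph V} {r : V → V → V → Prop}

/-- groups which preserve a cylinder -/
theorem lev_cyl (hC : ClosedE C) (hT : T.IsTree) (hr : LR G T r)
    (hact : ∀ (g : G) (u v : V), T.Adj u v → T.Adj (g • u) (g • v))
    (hV : ∀ v : V, C ↥(MulAction.stabilizer G v)) (y : Cyl T r) (K : Subgroup G)
    (hKP : ∀ g ∈ K, Pres hact y g)
    (hEK : ∀ (v u : V) (h : T.Adj v u), cy r h = y → ∀ x : G, x • v = v → x • u = u → x ∈ K)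
    {l : V → V → ℕ}
    (hinv : ∀ (g : G) v a, T.Adj v a → l (g • v) (g • a) = l v a)
    (hne : ∀ v a, T.Adj v a → l v a ≠ l a v)
    (hcom : ∀ (v a b : V) (h : T.Adj v a) (h' : T.Adj v b), cy r h = y → cy r h' = y →
      l v a = l v b)
    (hone : ∀ (b a a' : V) (h : T.Adj b a) (h' : T.Adj b a'), cy r h = y → cy r h' = y →
      l a b < l b a → l a' b < l b a' → ∃ g ∈ K, g • b = b ∧ g • a = a')
    (hloc : ∀ v, ∃ R : Subgroup G, Mem y v → Loc C K R y l v) : C K := by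
  classical
  let _ : MulAction K {v : V | Mem y v} :=
    { smul := fun g v => ⟨(g : G) • (v : V), (hKP g g.2).mem v.2⟩
      one_smul := fun v => Subtype.ext (one_smul G (v : V))
      mul_smul := fun g h v => Subtype.ext (mul_smul (g : G) (h : G) (v : V)) }
  have htree : (T.induce {v : V | Mem y v}).IsTree := by
    refine ⟨?_, hT.isAcyclic.induce _⟩
    obtain ⟨⟨⟨o, a⟩, h⟩, hy⟩ := Quotient.exists_rep y
    have : Nonempty {v : V | Mem y v} := ⟨⟨o, a, h, hy⟩⟩
    refine ⟨fun v u => ?_⟩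
    obtain ⟨p, hp, -⟩ := hT.existsUnique_path (v : V) (u : V)
    exact ⟨p.induce _ (path_mem hT hr v.2 u.2 p hp)⟩
  have hcy : ∀ (b a : {v : V | Mem y v}) (h : (T.induce {v : V | Mem y v}).Adj b a),
      cy r (show T.Adj (b : V) (a : V) from h) = y := fun b a h => adj_cy hT hr b.2 a.2 h
  -- the levels
  obtain ⟨lam, hlam⟩ : ∃ lam : {v : V | Mem y v} → ℕ, ∀ (v : {v : V | Mem y v}) (a : V)
      (h : T.Adj (v : V) a), cy r h = y → lam v = l v a := by
    refine ⟨fun v => l v v.2.choose, fun v a h hy => ?_⟩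
    obtain ⟨h1, h2⟩ := v.2.choose_spec
    exact hcom _ _ _ h1 h h2 hy
  choose R0 hR0 using hloc
  -- representatives
  let rep : V → V := fun v => (Quotient.mk (MulAction.orbitRel K V) v).out
  have hrep : ∀ v, ∃ k : K, (k : G) • rep v = v := by
    intro v
    obtain ⟨k, hk⟩ : ∃ k : K, k • v = rep v := Quotient.mk_out (s := MulAction.orbitRel K V) v
    refine ⟨k⁻¹, ?_⟩
    have hk : (k : G) • v = rep v := hk
    show (k : G)⁻¹ • rep v = v
    rw [← hk, inv_smul_smul]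
  have hrep2 : ∀ (g : G) (v : V), g ∈ K → rep (g • v) = rep v := by
    intro g v hg
    show (Quotient.mk (MulAction.orbitRel K V) (g • v)).out =
      (Quotient.mk (MulAction.orbitRel K V) v).out
    congr 1
    exact Quotient.sound (s := MulAction.orbitRel K V) ⟨⟨g, hg⟩, rfl⟩
  choose κ hκ using hrep
  have hκi : ∀ v, (κ v : G)⁻¹ • v = rep v := fun v => by rw [inv_smul_eq_iff, hκ]
  have hrM : ∀ v, Mem y v → Mem y (rep v) := by
    intro v hv
    have h1 := (hKP (κ v : G)⁻¹ (K.inv_mem (κ v).2)).mem hv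
    rwa [hκi] at h1
  have hrE : ∀ (b a : V) (h : T.Adj b a), cy r h = y → l a b < l b a →
      ∃ h' : T.Adj (rep b) ((κ b : G)⁻¹ • a), cy r h' = y ∧
        l ((κ b : G)⁻¹ • a) (rep b) < l (rep b) ((κ b : G)⁻¹ • a) := by
    intro b a h hby hlt
    have h1 := hact (κ b : G)⁻¹ b a h
    have h2 := hKP (κ b : G)⁻¹ (K.inv_mem (κ b).2) b a h hby
    have h3 : T.Adj (rep b) ((κ b : G)⁻¹ • a) := by rwa [hκi] at h1
    refine ⟨h3, by rw [← cy_congr (hact (κ b : G)⁻¹ b a h) h3 (hκi b) rfl]; exact h2, ?_⟩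
    rw [← hκi b, hinv _ a b h.symm, hinv _ b a h]
    exact hlt
  have hrE' : ∀ (b c : V) (h : T.Adj (rep b) c), cy r h = y → l c (rep b) < l (rep b) c →
      ∃ h' : T.Adj b ((κ b : G) • c), cy r h' = y ∧
        l ((κ b : G) • c) b < l b ((κ b : G) • c) := by
    intro b c h hby hlt
    have h1 := hact (κ b : G) (rep b) c h
    have h2 := hKP (κ b : G) (κ b).2 (rep b) c h hby
    have h3 : T.Adj b ((κ b : G) • c) := by rwa [hκ] at h1
    refine ⟨h3, by rw [← cy_congr (hact (κ b : G) (rep b) c h) h3 (hκ b) rfl]; exact h2, ?_⟩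
    have h4 := hinv (κ b : G) c (rep b) h.symm
    have h5 := hinv (κ b : G) (rep b) c h
    rw [hκ] at h4 h5
    rw [h4, h5]
    exact hlt
  obtain ⟨R, hR⟩ : ∃ R : V → Subgroup G, ∀ v x, x ∈ R v ↔ (κ v : G)⁻¹ * x * κ v ∈ R0 (rep v) := by
    refine ⟨fun v => (R0 (rep v)).comap (MulAut.conj (κ v : G)⁻¹).toMonoidHom, fun v x => ?_⟩
    rw [mem_comap]
    show (κ v : G)⁻¹ * x * (κ v : G)⁻¹⁻¹ ∈ _ ↔ _
    rw [inv_inv]
  refine lev_hub (G := K) (V := {v : V | Mem y v}) (T := T.induce {v : V | Mem y v}) hC htree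
    (fun g u v h => hact g _ _ h) ?_ (lam := lam) (R := fun v => (R v).comap K.subtype) ?_
  · intro v
    have h1 : (MulAction.stabilizer K v).map K.subtype ≤ MulAction.stabilizer G (v : V) := by
      rintro _ ⟨g, hg, rfl⟩
      exact congrArg Subtype.val hg
    exact C_equiv hC.base (equivMapOfInjective _ K.subtype K.subtype_injective)
      (C_le hC.base h1 (hV v))
  have hlt : ∀ (b a : {v : V | Mem y v}) (h : (T.induce {v : V | Mem y v}).Adj b a),
      lam a < lam b → l a b < l b a := by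
    intro b a h h1
    have h : T.Adj (b : V) (a : V) := h
    rwa [hlam a b h.symm ((cy_symm h).trans (hcy b a h)), hlam b a h (hcy b a h)] at h1
  have hcK : ∀ (v : V) (g : G), g ∈ K → (κ v : G)⁻¹ * g * κ v ∈ K := fun v g hg =>
    mul_mem (mul_mem (inv_mem (κ v).2) hg) (κ v).2
  have hcK' : ∀ (v : V) (g : G), g ∈ K → (κ v : G) * g * (κ v : G)⁻¹ ∈ K := fun v g hg =>
    mul_mem (mul_mem (κ v).2 hg) (K.inv_mem (κ v).2)
  have hcb : ∀ (b : V) (g : G), g • b = b → ((κ b : G)⁻¹ * g * κ b) • rep b = rep b := by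
    intro b g hg
    rw [mul_smul, mul_smul, hκ, hg, hκi]
  have hcb' : ∀ (b : V) (g : G), g • rep b = rep b → ((κ b : G) * g * (κ b : G)⁻¹) • b = b := by
    intro b g hg
    rw [mul_smul, mul_smul, hκi, hg, hκ]
  have hca : ∀ (b a : V) (g : G), g • a = a →
      ((κ b : G)⁻¹ * g * κ b) • ((κ b : G)⁻¹ • a) = (κ b : G)⁻¹ • a := by
    intro b a g hg
    rw [mul_smul, mul_smul, smul_inv_smul, hg]
  have hca' : ∀ (b a : V) (g : G), g • ((κ b : G)⁻¹ • a) = (κ b : G)⁻¹ • a →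
      ((κ b : G) * g * (κ b : G)⁻¹) • a = a := by
    intro b a g hg
    rw [mul_smul, mul_smul, hg, smul_inv_smul]
  have hRc : ∀ (b : V) (s : G), s ∈ R0 (rep b) → (κ b : G) * s * (κ b : G)⁻¹ ∈ R b := by
    intro b s hs
    rw [hR]
    have h2 : (κ b : G)⁻¹ * ((κ b : G) * s * (κ b : G)⁻¹) * κ b = s := by group
    rwa [h2]
  have hrKb : ∀ b, Mem y b → ∀ z ∈ R b, z ∈ K := by
    intro b hb z hz
    rw [hR] at hz
    have h1 := ((hR0 _ (hrM b hb)).1 hz).1
    have h2 : z = (κ b : G) * ((κ b : G)⁻¹ * z * κ b) * (κ b : G)⁻¹ := by group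
    rw [h2]
    exact hcK' b _ h1
  refine ⟨?_, ?_, ?_, ?_, ?_, ?_, ?_, ?_, ?_⟩
  · intro g v
    obtain ⟨a, h, hy⟩ := v.2
    rw [hlam (g • v) ((g : G) • a) (hact g v a h) (hKP g g.2 v a h hy), hlam v a h hy]
    exact hinv g v a h
  · intro u v h
    have h : T.Adj (u : V) (v : V) := h
    rw [hlam u v h (hcy u v h), hlam v u h.symm ((cy_symm h).trans (hcy u v h))]
    exact hne u v h
  · rintro b x hx
    have hx : (x : G) ∈ R b := hx
    rw [hR] at hx
    have h1 := ((hR0 _ (hrM b b.2)).1 hx).2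
    have h1 : ((κ b : G)⁻¹ * x * κ b) • rep b = rep b := h1
    rw [mul_smul, mul_smul, hκ, inv_smul_eq_iff, hκ] at h1
    exact Subtype.ext h1
  · intro g b x hx
    show (g : G) * x * (g : G)⁻¹ ∈ R ((g : G) • (b : V))
    have hx : (x : G) ∈ R b := hx
    rw [hR] at hx ⊢
    have h1 := hrep2 g b g.2
    rw [h1]
    obtain ⟨m, hm⟩ : ∃ m : G, m = (κ ((g : G) • (b : V)) : G)⁻¹ * g * κ b := ⟨_, rfl⟩
    have hmK : m ∈ K := by
      rw [hm]
      exact mul_mem (mul_mem (inv_mem (κ ((g : G) • (b : V))).2) g.2) (κ b).2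
    have hmb : m • rep b = rep b := by
      rw [hm, mul_smul, mul_smul, hκ, hκi, h1]
    have h2 := (hR0 _ (hrM b b.2)).2.1 m hmK hmb _ hx
    have h3 : m * ((κ b : G)⁻¹ * x * κ b) * m⁻¹ =
        (κ ((g : G) • (b : V)) : G)⁻¹ * (g * x * (g : G)⁻¹) * κ ((g : G) • (b : V)) := by
      rw [hm]
      group
    rwa [h3] at h2
  · intro b a h hl x hx hxa
    have hx : (x : G) ∈ R b := hx
    have hxa : (x : G) • (a : V) = a := congrArg Subtype.val hxa
    rw [hR] at hx
    obtain ⟨h', hy', hlt'⟩ := hrE b a h (hcy b a h) (hlt b a h hl)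
    have h1 := (hR0 _ (hrM b b.2)).2.2.1 _ h' hy' hlt' _ hx (by
      rw [mul_smul, mul_smul, smul_inv_smul, hxa])
    refine Subtype.ext ?_
    calc (x : G) = (κ b : G) * ((κ b : G)⁻¹ * x * κ b) * (κ b : G)⁻¹ := by group
      _ = 1 := by rw [h1, mul_one, mul_inv_cancel]
  · -- norm
    intro b a h hl g hgb x hxb hxa
    have hgb : (g : G) • (b : V) = b := congrArg Subtype.val hgb
    have hxb : (x : G) • (b : V) = b := congrArg Subtype.val hxb
    have hxa : (x : G) • (a : V) = a := congrArg Subtype.val hxa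
    obtain ⟨h', hy', hlt'⟩ := hrE b a h (hcy b a h) (hlt b a h hl)
    obtain ⟨s, hs, e, heb, hea, h1⟩ := (hR0 _ (hrM b b.2)).2.2.2.1 _ h' hy' hlt' _
      (hcK b g g.2) (hcb b g hgb) _ (hcb b x hxb) (hca b a x hxa)
    have heK := hEK _ _ h' hy' e heb hea
    refine ⟨⟨(κ b : G) * s * (κ b : G)⁻¹, hrKb b b.2 _ (hRc b s hs)⟩, hRc b s hs,
      ⟨(κ b : G) * e * (κ b : G)⁻¹, hcK' b e heK⟩, Subtype.ext (hcb' b e heb),
      Subtype.ext (hca' b a e hea), Subtype.ext ?_⟩
    show (g : G) * x * (g : G)⁻¹ = ((κ b : G) * s * (κ b : G)⁻¹) * ((κ b : G) * e * (κ b : G)⁻¹)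
    calc (g : G) * x * (g : G)⁻¹ = (κ b : G) * (((κ b : G)⁻¹ * g * κ b) * ((κ b : G)⁻¹ * x * κ b) *
          ((κ b : G)⁻¹ * g * κ b)⁻¹) * (κ b : G)⁻¹ := by group
      _ = (κ b : G) * (s * e) * (κ b : G)⁻¹ := by rw [h1]
      _ = _ := by group
  · -- cent
    intro b a h hl g hgb
    have hgb : (g : G) • (b : V) = b := congrArg Subtype.val hgb
    obtain ⟨h', hy', hlt'⟩ := hrE b a h (hcy b a h) (hlt b a h hl)
    obtain ⟨k, ⟨s, hs, e, heb, hea, h1⟩, h2⟩ := (hR0 _ (hrM b b.2)).2.2.2.2.1 _ h' hy' hlt' _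
      (hcK b g g.2) (hcb b g hgb)
    have heK := hEK _ _ h' hy' e heb hea
    have hk : (κ b : G) * k * (κ b : G)⁻¹ =
        ((κ b : G) * s * (κ b : G)⁻¹) * ((κ b : G) * e * (κ b : G)⁻¹) := by
      rw [h1]
      group
    have hkK : (κ b : G) * k * (κ b : G)⁻¹ ∈ K := by
      rw [hk]
      exact mul_mem (hrKb b b.2 _ (hRc b s hs)) (hcK' b e heK)
    refine ⟨⟨(κ b : G) * k * (κ b : G)⁻¹, hkK⟩,
      ⟨⟨(κ b : G) * s * (κ b : G)⁻¹, hrKb b b.2 _ (hRc b s hs)⟩, hRc b s hs,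
      ⟨(κ b : G) * e * (κ b : G)⁻¹, hcK' b e heK⟩, Subtype.ext (hcb' b e heb),
      Subtype.ext (hca' b a e hea), Subtype.ext hk⟩, fun a' ha' hl' x hxb hxa => ?_⟩
    show ⁅((κ b : G) * k * (κ b : G)⁻¹)⁻¹ * g, (x : G)⁆ ∈ R b
    have hxb : (x : G) • (b : V) = b := congrArg Subtype.val hxb
    have hxa : (x : G) • (a' : V) = a' := congrArg Subtype.val hxa
    obtain ⟨h'', hy'', hlt''⟩ := hrE b a' ha' (hcy b a' ha') (hlt b a' ha' hl')
    have h3 := h2 _ h'' hy'' hlt'' _ (hcb b x hxb) (hca b a' x hxa)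
    rw [hR]
    have h4 : (κ b : G)⁻¹ * ⁅((κ b : G) * k * (κ b : G)⁻¹)⁻¹ * (g : G), (x : G)⁆ * κ b =
        ⁅k⁻¹ * ((κ b : G)⁻¹ * g * κ b), (κ b : G)⁻¹ * x * κ b⁆ := by
      rw [commutatorElement_def, commutatorElement_def]
      group
    rwa [h4]
  · intro b a a' h h' hl hl'
    obtain ⟨g, hg, hgb, hga⟩ := hone b a a' h h' (hcy b a h) (hcy b a' h') (hlt b a h hl)
      (hlt b a' h' hl')
    exact ⟨⟨g, hg⟩, Subtype.ext hgb, Subtype.ext hga⟩
  · intro b a h hl
    obtain ⟨h', hy', hlt'⟩ := hrE b a h (hcy b a h) (hlt b a h hl)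
    obtain ⟨Q, _, f, hQ, hf⟩ := (hR0 _ (hrM b b.2)).2.2.2.2.2 _ h' hy' hlt'
    let j : ↥(MulAction.stabilizer K b) →* ↥(K ⊓ MulAction.stabilizer G (rep b)) :=
      { toFun := fun x => ⟨(κ b : G)⁻¹ * ((x : K) : G) * κ b,
          mul_mem (mul_mem (K.inv_mem (κ b).2) (x : K).2) (κ b).2, by
            show ((κ b : G)⁻¹ * ((x : K) : G) * κ b) • rep b = rep b
            rw [mul_smul, mul_smul, hκ, show ((x : K) : G) • (b : V) = b from
              congrArg Subtype.val x.2, hκi]⟩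
        map_one' := by
          apply Subtype.ext
          simp
        map_mul' := fun x z => by
          apply Subtype.ext
          show (κ b : G)⁻¹ * (((x : K) : G) * ((z : K) : G)) * κ b =
            ((κ b : G)⁻¹ * ((x : K) : G) * κ b) * ((κ b : G)⁻¹ * ((z : K) : G) * κ b)
          group }
    refine ⟨Q, _, f.comp j, hQ, fun x => ?_⟩
    show f (j x) = 1 ↔ _
    rw [hf]
    have hjx : ((j x : ↥(K ⊓ MulAction.stabilizer G (rep b))) : G) =
        (κ b : G)⁻¹ * ((x : K) : G) * κ b := rfl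
    rw [hjx]
    constructor
    · rintro ⟨s, hs, e, c, hc, hcy', hltc, heb, hec, hx⟩
      obtain ⟨hd, hdy, hltd⟩ := hrE' b c hc hcy' hltc
      have hr1 : (κ b : G) * s * (κ b : G)⁻¹ ∈ R b := hRc b s hs
      have hx2 : ((x : K) : G) = ((κ b : G) * s * (κ b : G)⁻¹) * ((κ b : G) * e * (κ b : G)⁻¹) := by
        calc ((x : K) : G) = (κ b : G) * ((κ b : G)⁻¹ * ((x : K) : G) * κ b) * (κ b : G)⁻¹ := by group
          _ = (κ b : G) * (s * e) * (κ b : G)⁻¹ := by rw [hx]
          _ = _ := by group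
      have heK : (κ b : G) * e * (κ b : G)⁻¹ ∈ K := by
        have h2 : (κ b : G) * e * (κ b : G)⁻¹ =
            ((κ b : G) * s * (κ b : G)⁻¹)⁻¹ * ((x : K) : G) := by
          rw [hx2, inv_mul_cancel_left]
        rw [h2]
        exact mul_mem (K.inv_mem (hrKb b b.2 _ hr1)) (x : K).2
      have hMc : Mem y ((κ b : G) • c) := ⟨b, hd.symm, (cy_symm hd).trans hdy⟩
      refine ⟨⟨_, hrKb b b.2 _ hr1⟩, hr1, ⟨_, heK⟩, ⟨_, hMc⟩, hd, ?_, Subtype.ext ?_, Subtype.ext ?_,
        Subtype.ext hx2⟩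
      · rw [hlam b _ hd hdy, hlam ⟨_, hMc⟩ b hd.symm ((cy_symm hd).trans hdy)]
        exact hltd
      · show ((κ b : G) * e * (κ b : G)⁻¹) • (b : V) = b
        rw [mul_smul, mul_smul, hκi, heb, hκ]
      · show ((κ b : G) * e * (κ b : G)⁻¹) • ((κ b : G) • c) = (κ b : G) • c
        rw [mul_smul, mul_smul, inv_smul_smul, hec]
    · rintro ⟨s, hs, e, a', ha', hla', heb, hea, hx⟩
      have hx : ((x : K) : G) = (s : G) * (e : G) := congrArg Subtype.val hx
      have heb : (e : G) • (b : V) = b := congrArg Subtype.val heb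
      have hea : (e : G) • (a' : V) = a' := congrArg Subtype.val hea
      obtain ⟨h'', hy'', hlt''⟩ := hrE b a' ha' (hcy b a' ha') (hlt b a' ha' hla')
      refine ⟨(κ b : G)⁻¹ * s * κ b, ?_, (κ b : G)⁻¹ * e * κ b, _, h'', hy'', hlt'', ?_, ?_, ?_⟩
      · have hs : (s : G) ∈ R b := hs
        rwa [hR] at hs
      · rw [mul_smul, mul_smul, hκ, heb, hκi]
      · rw [mul_smul, mul_smul, smul_inv_smul, hea]
      · rw [hx]
        group

/-- **trees with equivalence relations on the links and conditions at one end of the edges** -/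
theorem lev_r (hC : ClosedE C) (hAc : AcylF C) (hT : T.IsTree)
    (hact : ∀ (g : G) (u v : V), T.Adj u v → T.Adj (g • u) (g • v))
    (hV : ∀ v : V, C ↥(MulAction.stabilizer G v)) (hr : LR G T r)
    (n : ℕ) (hint : ∀ v a b, T.Adj v a → T.Adj v b → ¬ r v a b →
      ∀ F : Finset G, (∀ g ∈ F, g • v = v ∧ g • a = a ∧ g • b = b) → F.card ≤ n)
    (l : V → V → ℕ) (hinv : ∀ (g : G) v a, T.Adj v a → l (g • v) (g • a) = l v a)
    (hne : ∀ v a, T.Adj v a → l v a ≠ l a v)
    (hcom : ∀ v a b, T.Adj v a → T.Adj v b → r v a b → l v a = l v b)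
    (hone : ∀ v a b, T.Adj v a → T.Adj v b → l a v < l v a → l b v < l v b → r v a b →
      ∃ g : G, g • v = v ∧ g • a = b)
    (hvis : ∀ v a, T.Adj v a → l a v < l v a → ∀ M : Subgroup G,
      (∀ g, g ∈ M ↔ g • v = v ∧ r v a (g • a)) → GenVis C (Es G v a) M) : C G := by
  classical
  refine cylF hC hAc hT hact hr n hint hV fun y K0 hK0 => ?_
  obtain ⟨⟨⟨v0, a0⟩, h0⟩, hy⟩ := Quotient.exists_rep y
  have h0 : T.Adj v0 a0 := h0
  have hy : cy r h0 = y := hy
  -- the full stabilizer of the cylinder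
  obtain ⟨K, hKd⟩ : ∃ K : Subgroup G, K = @MulAction.stabilizer G (Cyl T r) _
    (cyAct hact hr) y := ⟨_, rfl⟩
  have hmemK : ∀ g, g ∈ K ↔ (cyAct hact hr).smul g y = y := fun g => by
    rw [hKd]
    exact Iff.rfl
  have hKP : ∀ g ∈ K, Pres hact y g := by
    intro g hg v a h hvy
    have e := cyAct_cy hact hr g h
    rw [← e, hvy]
    exact (hmemK g).1 hg
  have hKe : ∀ (g : G) (v a : V) (h : T.Adj v a), cy r h = y →
      cy r (hact g v a h) = y → g ∈ K := by
    intro g v a h hvy hgy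
    rw [hmemK]
    have e := cyAct_cy hact hr g h
    rw [← e, hvy] at hgy
    exact hgy
  have hKe' : ∀ (g : G) (v a a' : V) (h : T.Adj v a) (h' : T.Adj v a'), cy r h = y →
      cy r h' = y → g • v = v → g • a = a' → g ∈ K := by
    intro g v a a' h h' hvy hvy' hgv hga
    refine hKe g v a h hvy ?_
    rw [cy_congr (hact g v a h) h' hgv hga]
    exact hvy'
  refine C_le hC.base (fun g hg => hKe g v0 a0 h0 hy (hK0 g hg v0 a0 h0 hy)) (?_ : C K)
  have hone' : ∀ (b a a' : V) (h : T.Adj b a) (h' : T.Adj b a'), cy r h = y →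
      cy r h' = y → l a b < l b a → l a' b < l b a' → ∃ g ∈ K, g • b = b ∧ g • a = a' := by
    intro b a a' h h' hby hby' hlt hlt'
    obtain ⟨g, hgb, hga⟩ := hone b a a' h h' hlt hlt' (gl hT hr h h' (hby.trans hby'.symm))
    exact ⟨g, hKe' g b a a' h h' hby hby' hgb hga, hgb, hga⟩
  refine lev_cyl hC hT hr hact hV y K hKP (fun v u h hy1 x hxv hxu => hKe' x v u u h h hy1 hy1 hxv hxu)
    hinv hne (fun v a b h h' hy1 hy2 => hcom v a b h h' (gl hT hr h h' (hy1.trans hy2.symm)))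
    hone' fun v => ?_
  by_cases hv : ∃ (u : V) (h : T.Adj v u), cy r h = y ∧ l u v < l v u
  · obtain ⟨u, h, hvy, hlt⟩ := hv
    obtain ⟨R, hR⟩ := loc_of h hvy hlt
      (fun u' h' hy' x hxv hxu => hKe' x v u' u' h' h' hy' hy' hxv hxu)
      (fun u' h' hy' hlt' => hone' v u u' h h' hvy hy' hlt hlt')
      (hvis v u h hlt _ (fun g => by
        constructor
        · rintro ⟨hg, hgv⟩
          have hgv : g • v = v := hgv
          refine ⟨hgv, ?_⟩
          have h1 := hKP g hg v u h hvy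
          have h2 : T.Adj v (g • u) := by
            have := hact g v u h
            rwa [hgv] at this
          rw [cy_congr (hact g v u h) h2 hgv rfl] at h1
          exact gl hT hr h h2 (hvy.trans h1.symm)
        · rintro ⟨hgv, hg⟩
          have h2 : T.Adj v (g • u) := by
            have := hact g v u h
            rwa [hgv] at this
          refine ⟨hKe' g v u (g • u) h h2 hvy ?_ hgv rfl, hgv⟩
          rw [← hvy]
          exact (cy_rel h h2 hg).symm))
    exact ⟨R, fun _ => hR⟩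
  · refine ⟨⊥, fun _ => ⟨bot_le, ?_, ?_, ?_, ?_, ?_⟩⟩
    · intro g _ _ x hx
      rw [mem_bot] at hx ⊢
      rw [hx, mul_one, mul_inv_cancel]
    · exact fun u h hy' hlt' => absurd ⟨u, h, hy', hlt'⟩ hv
    · exact fun u h hy' hlt' => absurd ⟨u, h, hy', hlt'⟩ hv
    · exact fun u h hy' hlt' => absurd ⟨u, h, hy', hlt'⟩ hv
    · exact fun u h hy' hlt' => absurd ⟨u, h, hy', hlt'⟩ hv

end Pool.Agent.U709.Rm
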