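import Pool.Agent.U709.RmD
import Pool.Agent.U709.VcH
import Pool.Agent.U709.CyD

/-!
# Amalgamated products over subgroups which are malnormal in one factor, relative to a subgroup
-/

set_option autoImplicit false

namespace Pool.Agent.U709.Rm

open SimpleGraph
open scoped commutatorElement Pointwise
open Subgroup
open Pool.Agent.Y110.FJ
open Pool.Agent.N509.TK
open Pool.Agent.N509.TX (AcylF)
open Pool.Agent.N431.CE (Es mem_Es Es_comm)
open Pool.Agent.U709.Vc (coset_treeAct)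
open Pool.Agent.U709.Cy (C_conj)
open Pool.Agent.Helper705_SA (IsAmalgam cosetGraph cosetGraph_isTree stab_coset)

variable {C : ∀ (G : Type) [Group G], Prop}
variable {G : Type} [Group G]

theorem GenVis.of_hom {H : Type} [Group H] {E M : Subgroup G} {E' M' : Subgroup H}
    (h : GenVis C E M) (j : M' →* M) (hj : ∀ x : M', (x : H) ∈ E' → j x = 1 → x = 1)
    (hE : ∀ x : M', (x : H) ∈ E' → ((j x : M) : G) ∈ E)
    (hE2 : ∀ e : M, (e : G) ∈ E → ∃ x : M', (x : H) ∈ E' ∧ j x = e) : GenVis C E' M' := by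
  obtain ⟨P, Q, _, _, f, q, hQ, hinj, hgen, hq⟩ := h
  refine ⟨P, Q, _, _, f.comp j, q, hQ, fun x hx h1 => hj x hx (hinj _ (hE x hx) h1),
    fun m => ?_, fun m => (hq (j m)).trans ⟨?_, ?_⟩⟩
  · obtain ⟨e, he, h1⟩ := hgen (j m)
    obtain ⟨y, hy, rfl⟩ := hE2 e he
    refine ⟨y, hy, fun x hx => ?_⟩
    show f (j (y⁻¹ * m)) * f (j x) = f (j x) * f (j (y⁻¹ * m))
    rw [map_mul, map_inv]
    exact h1 (j x) (hE x hx)
  · rintro ⟨e, he, h1⟩
    obtain ⟨x, hx, rfl⟩ := hE2 e he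
    exact ⟨x, hx, h1⟩
  · rintro ⟨x, hx, h1⟩
    exact ⟨j x, hE x hx, h1⟩

/-- the homomorphism is the identity: `E` is central in `M`, or `M` is generated by `E` and its
centralizer -/
theorem genVis_id {E M : Subgroup G} (hEM : E ≤ M)
    (hgen : ∀ m ∈ M, ∃ y ∈ E, ∀ x ∈ E, (y⁻¹ * m) * x = x * (y⁻¹ * m))
    (hQ : ∃ (Q : Type) (_ : Group Q) (q : M →* Q), C Q ∧ ∀ m : M, q m = 1 ↔ (m : G) ∈ E) :
    GenVis C E M := by
  obtain ⟨Q, _, q, hQ, hq⟩ := hQ
  refine ⟨M, Q, inferInstance, inferInstance, MonoidHom.id M, q, hQ, fun x _ h1 => h1, fun m => ?_,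
    fun m => (hq m).trans ⟨fun h => ⟨m, h, rfl⟩, ?_⟩⟩
  · obtain ⟨y, hy, h1⟩ := hgen m m.2
    exact ⟨⟨y, hEM hy⟩, hy, fun x hx => Subtype.ext (h1 x hx)⟩
  · rintro ⟨x, hx, h1⟩
    have h1 : m = x := h1
    rw [h1]
    exact hx

section amalgam

variable {A B : Subgroup G}

theorem smul_inl_iff {g k : G} : g • (Sum.inl (QuotientGroup.mk k) : (G ⧸ A) ⊕ (G ⧸ B)) =
    Sum.inl (QuotientGroup.mk k) ↔ k⁻¹ * g * k ∈ A := by
  have h1 : g • (Sum.inl (QuotientGroup.mk k) : (G ⧸ A) ⊕ (G ⧸ B)) =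
      Sum.inl (QuotientGroup.mk (g * k)) := rfl
  rw [h1, Sum.inl_injective.eq_iff, eq_comm, QuotientGroup.eq, mul_assoc]

theorem smul_inr_iff {g k : G} : g • (Sum.inr (QuotientGroup.mk k) : (G ⧸ A) ⊕ (G ⧸ B)) =
    Sum.inr (QuotientGroup.mk k) ↔ k⁻¹ * g * k ∈ B := by
  have h1 : g • (Sum.inr (QuotientGroup.mk k) : (G ⧸ A) ⊕ (G ⧸ B)) =
      Sum.inr (QuotientGroup.mk (g * k)) := rfl
  rw [h1, Sum.inr_injective.eq_iff, eq_comm, QuotientGroup.eq, mul_assoc]

theorem inl_eq_iff {k k' : G} : (Sum.inl (QuotientGroup.mk k) : (G ⧸ A) ⊕ (G ⧸ B)) =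
    Sum.inl (QuotientGroup.mk k') ↔ k⁻¹ * k' ∈ A := by
  rw [Sum.inl_injective.eq_iff, QuotientGroup.eq]

theorem inr_eq_iff {k k' : G} : (Sum.inr (QuotientGroup.mk k) : (G ⧸ A) ⊕ (G ⧸ B)) =
    Sum.inr (QuotientGroup.mk k') ↔ k⁻¹ * k' ∈ B := by
  rw [Sum.inr_injective.eq_iff, QuotientGroup.eq]

/-- all edges at the vertices of the first type are equivalent, those at `B` if they differ by `M` -/
def ram (A B M : Subgroup G) (v a a' : (G ⧸ A) ⊕ (G ⧸ B)) : Prop :=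
  v.isLeft = true ∨ ∃ k : G, ∃ m ∈ M, v = Sum.inr (QuotientGroup.mk k) ∧
    a = Sum.inl (QuotientGroup.mk k) ∧ a' = Sum.inl (QuotientGroup.mk (k * m))

theorem ram_LR {M : Subgroup G} (hEM : A ⊓ B ≤ M) (hMB : M ≤ B) :
    LR G (cosetGraph A B) (ram A B M) where
  refl := by
    rintro w a ⟨k, ⟨rfl, rfl⟩ | ⟨rfl, rfl⟩⟩
    · exact Or.inl rfl
    · exact Or.inr ⟨k, 1, one_mem _, rfl, rfl, by rw [mul_one]⟩
  symm := by
    rintro w a b - - (h | ⟨k, m, hm, rfl, rfl, rfl⟩)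
    · exact Or.inl h
    · refine Or.inr ⟨k * m, m⁻¹, inv_mem hm, ?_, rfl, by rw [mul_inv_cancel_right]⟩
      rw [inr_eq_iff, inv_mul_cancel_left]
      exact hMB hm
  trans := by
    rintro w a b c - - - (h | ⟨k, m, hm, rfl, rfl, rfl⟩) h2
    · exact Or.inl h
    · rcases h2 with h2 | ⟨k', m', hm', h3, h4, rfl⟩
      · exact Or.inl h2
      · rw [inr_eq_iff] at h3
        rw [inl_eq_iff] at h4
        have h5 : (k * m)⁻¹ * k' ∈ M := by
          refine hEM ⟨h4, ?_⟩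
          have h6 : (k * m)⁻¹ * k' = m⁻¹ * (k⁻¹ * k') := by group
          rw [h6]
          exact B.mul_mem (B.inv_mem (hMB hm)) h3
        refine Or.inr ⟨k, m * ((k * m)⁻¹ * k') * m', mul_mem (mul_mem hm h5) hm', rfl, rfl, ?_⟩
        congr 2
        group
  eqv := by
    rintro g w a b (h | ⟨k, m, hm, rfl, rfl, rfl⟩)
    · left
      rcases w with w | w
      · rfl
      · exact absurd h (by simp)
    · right
      refine ⟨g * k, m, hm, rfl, rfl, ?_⟩
      show Sum.inl (QuotientGroup.mk (g * (k * m)) : G ⧸ A) = _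
      rw [mul_assoc]

/-- **amalgamated products over subgroups `E` of `B` which are malnormal relative to `M`** -/
theorem rm_amalgam (hC : ClosedE C) (hAc : AcylF C) (A B : Subgroup G) (h : IsAmalgam A B)
    (hcA : C A) (hcB : C B) (M : Subgroup G) (hEM : A ⊓ B ≤ M) (hMB : M ≤ B) (n : ℕ)
    (hmal : ∀ b ∈ B, b ∉ M → ∀ F : Finset G,
      (∀ g ∈ F, g ∈ A ⊓ B ∧ b⁻¹ * g * b ∈ A ⊓ B) → F.card ≤ n)
    (hvis : GenVis C (A ⊓ B) M) : C G := by
  classical
  have hsl : ∀ g : G, MulAction.stabilizer G (Sum.inl (QuotientGroup.mk g) : (G ⧸ A) ⊕ (G ⧸ B)) =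
      A.map (MulAut.conj g).toMonoidHom := by
    intro g
    rw [← stab_coset]
    ext x
    rw [MulAction.mem_stabilizer_iff, MulAction.mem_stabilizer_iff]
    exact Sum.inl_injective.eq_iff (a := x • (QuotientGroup.mk g : G ⧸ A))
  have hsr : ∀ g : G, MulAction.stabilizer G (Sum.inr (QuotientGroup.mk g) : (G ⧸ A) ⊕ (G ⧸ B)) =
      B.map (MulAut.conj g).toMonoidHom := by
    intro g
    rw [← stab_coset]
    ext x
    rw [MulAction.mem_stabilizer_iff, MulAction.mem_stabilizer_iff]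
    exact Sum.inr_injective.eq_iff (a := x • (QuotientGroup.mk g : G ⧸ B))
  have hta := coset_treeAct h
  obtain ⟨d, hdl, hdr⟩ : ∃ d : (G ⧸ A) ⊕ (G ⧸ B) → ℕ, (∀ x, d (Sum.inl x) = 0) ∧
      ∀ x, d (Sum.inr x) = 1 := ⟨Sum.elim (fun _ => 0) (fun _ => 1), fun _ => rfl, fun _ => rfl⟩
  refine lev_r (T := cosetGraph A B) (r := ram A B M) hC hAc (cosetGraph_isTree A B h) hta.adj ?_
    (ram_LR hEM hMB) n ?_ (fun v _ => d v) ?_ ?_ (fun _ _ _ _ _ _ => rfl) ?_ ?_
  · rintro (v | v)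
    · obtain ⟨g, rfl⟩ := QuotientGroup.mk_surjective v
      rw [hsl]
      exact C_conj hC g hcA
    · obtain ⟨g, rfl⟩ := QuotientGroup.mk_surjective v
      rw [hsr]
      exact C_conj hC g hcB
  · rintro v a b ⟨k, ⟨rfl, rfl⟩ | ⟨rfl, rfl⟩⟩ hb hr F hF
    · exact absurd (Or.inl rfl) hr
    obtain ⟨k', ⟨h1, -⟩ | ⟨rfl, h1⟩⟩ := hb
    · exact absurd h1 (by simp)
    · rw [inr_eq_iff] at h1
      have h1' : k⁻¹ * k' ∈ B := h1
      have h3 : k⁻¹ * k' ∉ M := by
        intro h4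
        refine hr (Or.inr ⟨k, k⁻¹ * k', h4, rfl, rfl, ?_⟩)
        rw [mul_inv_cancel_left]
      have h4 := hmal _ h1' h3 (F.image fun g => k⁻¹ * g * k) (by
        intro x hx
        obtain ⟨g, hg, rfl⟩ := Finset.mem_image.1 hx
        obtain ⟨e1, e2, e3⟩ := hF g hg
        rw [smul_inr_iff] at e1
        rw [smul_inl_iff] at e2 e3
        refine ⟨⟨e2, e1⟩, ?_⟩
        have h5 : (k⁻¹ * k')⁻¹ * (k⁻¹ * g * k) * (k⁻¹ * k') = k'⁻¹ * g * k' := by group
        refine ⟨by rw [h5]; exact e3, ?_⟩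
        exact B.mul_mem (B.mul_mem (B.inv_mem h1') e1) h1')
      rwa [Finset.card_image_of_injective _ (fun x z hxz => by simpa using hxz)] at h4
  · rintro g (v | v) _ _
    · exact (hdl _).trans (hdl _).symm
    · exact (hdr _).trans (hdr _).symm
  · rintro u v ⟨g, ⟨rfl, rfl⟩ | ⟨rfl, rfl⟩⟩
    · rw [hdl, hdr]
      exact zero_ne_one
    · rw [hdl, hdr]
      exact one_ne_zero
  · rintro v a b ⟨g, ⟨rfl, rfl⟩ | ⟨rfl, rfl⟩⟩ - hla - hr
    · rw [hdl, hdr] at hla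
      exact absurd hla (by omega)
    · rcases hr with hr | ⟨k, m, hm, h1, h2, rfl⟩
      · exact absurd hr (by simp)
      · refine ⟨k * m * k⁻¹, ?_, ?_⟩
        · rw [h1, smul_inr_iff]
          have h3 : k⁻¹ * (k * m * k⁻¹) * k = m := by group
          rw [h3]
          exact hMB hm
        · rw [h2]
          show Sum.inl (QuotientGroup.mk (k * m * k⁻¹ * k) : G ⧸ A) = _
          rw [inv_mul_cancel_right]
  · rintro v a ⟨k, ⟨rfl, rfl⟩ | ⟨rfl, rfl⟩⟩ hl M' hM'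
    · rw [hdl, hdr] at hl
      exact absurd hl (by omega)
    · have hmem : ∀ g, g ∈ M' ↔ k⁻¹ * g * k ∈ M := by
        intro g
        rw [hM', smul_inr_iff]
        constructor
        · rintro ⟨h1, h2 | ⟨k', m', hm', h3, h4, h5⟩⟩
          · exact absurd h2 (by simp)
          · rw [inr_eq_iff] at h3
            rw [inl_eq_iff] at h4
            have h5 : (Sum.inl (QuotientGroup.mk (g * k)) : (G ⧸ A) ⊕ (G ⧸ B)) =
              Sum.inl (QuotientGroup.mk (k' * m')) := h5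
            rw [inl_eq_iff] at h5
            have h6 : k⁻¹ * k' ∈ M := hEM ⟨h4, h3⟩
            have h7 : (k⁻¹ * g * k)⁻¹ * ((k⁻¹ * k') * m') ∈ M := by
              refine hEM ⟨?_, B.mul_mem (B.inv_mem h1) (B.mul_mem h3 (hMB hm'))⟩
              have h8 : (k⁻¹ * g * k)⁻¹ * ((k⁻¹ * k') * m') = (g * k)⁻¹ * (k' * m') := by group
              rwa [h8]
            have h8 : k⁻¹ * g * k = ((k⁻¹ * k') * m') *
                ((k⁻¹ * g * k)⁻¹ * ((k⁻¹ * k') * m'))⁻¹ := by group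
            rw [h8]
            exact M.mul_mem (M.mul_mem h6 hm') (M.inv_mem h7)
        · intro h1
          refine ⟨hMB h1, Or.inr ⟨k, k⁻¹ * g * k, h1, rfl, rfl, ?_⟩⟩
          show Sum.inl (QuotientGroup.mk (g * k) : G ⧸ A) = _
          congr 2
          group
      refine hvis.of_hom
        ({ toFun := fun x => ⟨k⁻¹ * x * k, (hmem _).1 x.2⟩
           map_one' := by
            apply Subtype.ext
            simp
           map_mul' := fun x y => by
            apply Subtype.ext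
            show k⁻¹ * (x * y : G) * k = (k⁻¹ * x * k) * (k⁻¹ * y * k)
            group } : M' →* M) ?_ ?_ ?_
      · intro x _ h1
        have h2 : k⁻¹ * (x : G) * k = 1 := congrArg Subtype.val h1
        apply Subtype.ext
        show (x : G) = 1
        calc (x : G) = k * (k⁻¹ * (x : G) * k) * k⁻¹ := by group
          _ = 1 := by rw [h2, mul_one, mul_inv_cancel]
      · intro x hx
        exact ⟨smul_inl_iff.1 hx.2, smul_inr_iff.1 hx.1⟩
      · rintro ⟨e, he1⟩ he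
        have he : e ∈ A ⊓ B := he
        have h1 : k⁻¹ * (k * e * k⁻¹) * k = e := by group
        refine ⟨⟨k * e * k⁻¹, (hmem _).2 (by rwa [h1])⟩, ⟨?_, ?_⟩, Subtype.ext h1⟩
        · refine smul_inr_iff.2 ?_
          rw [h1]
          exact he.2
        · refine smul_inl_iff.2 ?_
          rw [h1]
          exact he.1

end amalgam

end Pool.Agent.U709.Rm
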