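import Pool.Agent.U709.RmE
import Pool.Agent.U709.LvG

/-!
# HNN extensions over subgroups which are malnormal, relative to a subgroup
-/

set_option autoImplicit false

namespace Pool.Agent.U709.Rm

open SimpleGraph
open scoped commutatorElement Pointwise
open Subgroup
open Pool.Agent.Y110.FJ
open Pool.Agent.N509.TK
open Pool.Agent.N509.TX (AcylF)
open Pool.Agent.N431.CE (Es mem_Es Es_comm)
open Pool.Agent.U709.Cy (C_conj)
open Pool.Agent.U709.Lv (ori ori_one ori_zero ori_smul hst hes)
open Pool.Agent.Helper270.HNN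
open Pool.Agent.R941.FJ (C_equiv)

variable {C : ∀ (G : Type) [Group G], Prop}

theorem GenVis.map {G H : Type} [Group G] [Group H] {E M : Subgroup H} (h : GenVis C E M)
    (f : H →* G) (hf : Function.Injective f) : GenVis C (E.map f) (M.map f) := by
  refine h.of_hom (M.equivMapOfInjective f hf).symm.toMonoidHom ?_ ?_ ?_
  · intro x _ h1
    exact (M.equivMapOfInjective f hf).symm.injective (h1.trans (map_one _).symm)
  · intro x hx
    obtain ⟨e, he, h1⟩ := hx
    have h2 : f (((M.equivMapOfInjective f hf).symm x : M) : H) = x :=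
      congrArg Subtype.val ((M.equivMapOfInjective f hf).apply_symm_apply x)
    have h3 : (((M.equivMapOfInjective f hf).symm x : M) : H) = e := hf (h2.trans h1.symm)
    show (((M.equivMapOfInjective f hf).symm x : M) : H) ∈ E
    rw [h3]
    exact he
  · intro e he
    exact ⟨M.equivMapOfInjective f hf e, ⟨e, he, rfl⟩,
      (M.equivMapOfInjective f hf).symm_apply_apply e⟩

variable {H : Type} [Group H] {A B : Subgroup H} {φ : A ≃* B}

theorem vt_of (g : HNNExtension H A B φ) (x : H) :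
    (vt (g * HNNExtension.of x) : Vert φ) = vt g :=
  (vt_eq_iff.2 ⟨x, rfl⟩).symm

theorem vt_mul (g : HNNExtension H A B φ) {k k' : HNNExtension H A B φ}
    (h : (vt k : Vert φ) = vt k') : (vt (g * k) : Vert φ) = vt (g * k') := by
  rw [← smul_vt, ← smul_vt, h]

theorem vt_B {y : H} : (vt (HNNExtension.of y * HNNExtension.t) : Vert φ) =
    vt HNNExtension.t ↔ y ∈ B := by
  constructor
  · intro h
    have h1 : HNNExtension.of y ∈ Es (HNNExtension H A B φ) (vt 1 : Vert φ)
        (vt (1 * HNNExtension.t)) := by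
      refine ⟨?_, ?_⟩
      · show HNNExtension.of y • (vt 1 : Vert φ) = vt 1
        rw [smul_vt, mul_one]
        have h2 := vt_of (φ := φ) 1 y
        rwa [one_mul] at h2
      · show HNNExtension.of y • (vt (1 * HNNExtension.t) : Vert φ) = vt (1 * HNNExtension.t)
        rw [smul_vt, one_mul]
        exact h
    rw [hes] at h1
    obtain ⟨_, ⟨b, hb, rfl⟩, h2⟩ := h1
    have h2 : (1 : HNNExtension H A B φ) * HNNExtension.of b * 1⁻¹ = HNNExtension.of y := h2
    rw [one_mul, inv_one, mul_one] at h2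
    rw [← HNNExtension.of_injective φ h2]
    exact hb
  · intro h
    have h2 := HNNExtension.t_mul_of (φ := φ) (φ.symm ⟨y, h⟩)
    rw [φ.apply_symm_apply] at h2
    have h2 : HNNExtension.t * HNNExtension.of (φ.symm ⟨y, h⟩ : H) =
      (HNNExtension.of y * HNNExtension.t : HNNExtension H A B φ) := h2
    rw [← h2]
    exact vt_of _ _

theorem vt_A {y : H} (h : (vt (HNNExtension.t * HNNExtension.of y * HNNExtension.t⁻¹) : Vert φ) =
    vt 1) : y ∈ A := by
  obtain ⟨x, hx⟩ := vt_eq_iff.1 h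
  -- `t y t⁻¹ x = 1`
  have h1 : HNNExtension.of x⁻¹ * HNNExtension.t = (HNNExtension.t * HNNExtension.of y :
      HNNExtension H A B φ) := by
    rw [map_inv, inv_mul_eq_iff_eq_mul]
    have h2 : HNNExtension.t * HNNExtension.of y * HNNExtension.t⁻¹ =
        (HNNExtension.of x⁻¹ : HNNExtension H A B φ) := by
      rw [map_inv]
      exact eq_inv_of_mul_eq_one_left hx
    rw [mul_inv_eq_iff_eq_mul] at h2
    rw [h2, ← mul_assoc, ← map_mul, mul_inv_cancel, map_one, one_mul]
  have h2 : x⁻¹ ∈ B := by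
    rw [← vt_B (φ := φ), h1]
    exact vt_of _ _
  have h3 := HNNExtension.t_mul_of (φ := φ) (φ.symm ⟨x⁻¹, h2⟩)
  rw [φ.apply_symm_apply] at h3
  have h3 : HNNExtension.t * HNNExtension.of (φ.symm ⟨x⁻¹, h2⟩ : H) =
    (HNNExtension.of x⁻¹ * HNNExtension.t : HNNExtension H A B φ) := h3
  rw [h1] at h3
  have h4 := HNNExtension.of_injective φ (mul_left_cancel h3)
  rw [← h4]
  exact (φ.symm ⟨x⁻¹, h2⟩).2

theorem fix_iff {g k : HNNExtension H A B φ} (h : g • (vt k : Vert φ) = vt k) :
    ∃ y : H, g = k * HNNExtension.of y * k⁻¹ := by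
  rw [smul_vt] at h
  obtain ⟨x, hx⟩ := vt_eq_iff.1 h.symm
  refine ⟨x, ?_⟩
  rw [hx]
  group

theorem fix_B {k : HNNExtension H A B φ} {y : H}
    (h : (k * HNNExtension.of y * k⁻¹) • (vt (k * HNNExtension.t) : Vert φ) =
      vt (k * HNNExtension.t)) : y ∈ B := by
  rw [← vt_B (φ := φ)]
  rw [smul_vt] at h
  have h1 := vt_mul k⁻¹ h
  have h2 : k⁻¹ * (k * HNNExtension.of y * k⁻¹ * (k * HNNExtension.t)) =
    (HNNExtension.of y * HNNExtension.t : HNNExtension H A B φ) := by group
  rwa [h2, inv_mul_cancel_left] at h1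

/-- the edges which leave `vt g` are equivalent if they differ by `M`, the others always -/
def rhn (M : Subgroup H) (v a b : Vert φ) : Prop :=
  (ori v a = 0 ∧ ori v b = 0) ∨ ∃ g : HNNExtension H A B φ, ∃ m ∈ M, v = vt g ∧
    a = vt (g * HNNExtension.t) ∧ b = vt (g * HNNExtension.of m * HNNExtension.t)

theorem rhn_one {g : HNNExtension H A B φ} {m : H} :
    ori (vt g : Vert φ) (vt (g * HNNExtension.of m * HNNExtension.t)) = 1 := by
  rw [← vt_of g m]
  exact ori_one _

theorem adj_c {u v : Vert φ} (huv : (graph φ).Adj u v) : ∃ g : HNNExtension H A B φ,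
    (u = vt g ∧ v = vt (g * HNNExtension.t)) ∨ (u = vt (g * HNNExtension.t) ∧ v = vt g) := by
  obtain ⟨g, h | h⟩ := adj_iff.1 huv
  · exact ⟨g, Or.inl h⟩
  · exact ⟨g, Or.inr ⟨h.2, h.1⟩⟩

theorem rhn_LR {M : Subgroup H} (hBM : B ≤ M) :
    LR (HNNExtension H A B φ) (graph φ) (rhn M) where
  refl := by
    intro w a h
    obtain ⟨k, ⟨rfl, rfl⟩ | ⟨rfl, rfl⟩⟩ := adj_c h
    · exact Or.inr ⟨k, 1, one_mem _, rfl, rfl, by rw [map_one, mul_one]⟩
    · exact Or.inl ⟨ori_zero _, ori_zero _⟩
  symm := by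
    rintro w a b - - (h | ⟨k, m, hm, rfl, rfl, rfl⟩)
    · exact Or.inl ⟨h.2, h.1⟩
    · refine Or.inr ⟨k * HNNExtension.of m, m⁻¹, inv_mem hm, (vt_of _ _).symm, rfl, ?_⟩
      rw [map_inv, mul_inv_cancel_right]
  trans := by
    rintro w a b c - - - (h | ⟨k, m, hm, rfl, rfl, rfl⟩) (h2 | ⟨k', m', hm', h3, h4, rfl⟩)
    · exact Or.inl ⟨h.1, h2.2⟩
    · exfalso
      have h5 := h.2
      rw [h3, h4, ori_one] at h5
      exact one_ne_zero h5
    · exfalso
      have h5 := h2.1
      rw [rhn_one] at h5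
      exact one_ne_zero h5
    · obtain ⟨x, hx⟩ := vt_eq_iff.1 h3
      subst hx
      have h5 := vt_mul (k * HNNExtension.of m)⁻¹ h4
      rw [inv_mul_cancel_left] at h5
      have h6 : (k * HNNExtension.of m)⁻¹ * (k * HNNExtension.of x * HNNExtension.t) =
          (HNNExtension.of (m⁻¹ * x) * HNNExtension.t : HNNExtension H A B φ) := by
        rw [map_mul, map_inv]
        group
      rw [h6] at h5
      have h7 : m⁻¹ * x ∈ M := hBM (vt_B.1 h5.symm)
      refine Or.inr ⟨k, m * (m⁻¹ * x) * m', mul_mem (mul_mem hm h7) hm', rfl, rfl, ?_⟩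
      rw [mul_inv_cancel_left, map_mul, mul_assoc k]
  eqv := by
    rintro g w a b (h | ⟨k, m, hm, rfl, rfl, rfl⟩)
    · left
      rwa [ori_smul, ori_smul]
    · right
      refine ⟨g * k, m, hm, smul_vt _ _, ?_, ?_⟩
      · rw [smul_vt, mul_assoc]
      · rw [smul_vt]
        simp only [mul_assoc]

/-- **HNN extensions over subgroups `B` of `H` which are malnormal relative to `M`** -/
theorem rm_hnn (hC : ClosedE C) (hAc : AcylF C) (A B : Subgroup H) (φ : A ≃* B) (hH : C H)
    (M : Subgroup H) (hBM : B ≤ M) (n : ℕ)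
    (hmal : ∀ h : H, h ∉ M → ∀ F : Finset H, (∀ g ∈ F, g ∈ B ∧ h⁻¹ * g * h ∈ B) → F.card ≤ n)
    (hsep : ∀ h : H, ∀ F : Finset H, (∀ g ∈ F, g ∈ B ∧ h⁻¹ * g * h ∈ A) → F.card ≤ n)
    (hvis : GenVis C B M) : C (HNNExtension H A B φ) := by
  classical
  have hran : C (HNNExtension.of.range : Subgroup (HNNExtension H A B φ)) :=
    C_equiv hC.base (MonoidHom.ofInjective (HNNExtension.of_injective φ)).symm hH
  have hinj : Function.Injective (HNNExtension.of : H →* HNNExtension H A B φ) :=
    HNNExtension.of_injective φ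
  have key : ∀ (k : HNNExtension H A B φ) (P : H → Prop) (F : Finset (HNNExtension H A B φ)),
      (∀ g ∈ F, ∃ y, P y ∧ g = k * HNNExtension.of y * k⁻¹) →
      (∀ F' : Finset H, (∀ y ∈ F', P y) → F'.card ≤ n) → F.card ≤ n := by
    intro k P F hF hP
    choose! y hy1 hy2 using hF
    have h1 := hP (F.image y) (by
      intro z hz
      obtain ⟨g, hg, rfl⟩ := Finset.mem_image.1 hz
      exact hy1 g hg)
    rwa [Finset.card_image_of_injOn] at h1
    intro g hg g' hg' he
    rw [hy2 g hg, hy2 g' hg']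
    have he : y g = y g' := he
    rw [he]
  -- the mixed case
  have mixed : ∀ (k k' : HNNExtension H A B φ), (vt k : Vert φ) = vt (k' * HNNExtension.t) →
      ∀ F : Finset (HNNExtension H A B φ), (∀ g ∈ F, g • (vt k : Vert φ) = vt k ∧
        g • (vt (k * HNNExtension.t) : Vert φ) = vt (k * HNNExtension.t) ∧
        g • (vt k' : Vert φ) = vt k') → F.card ≤ n := by
    intro k k' hkk F hF
    obtain ⟨x, hx⟩ := vt_eq_iff.1 hkk.symm
    -- `k' * t * of x = k`
    subst hx
    refine key (k' * HNNExtension.t * HNNExtension.of x)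
      (fun y => y ∈ B ∧ (x⁻¹)⁻¹ * y * x⁻¹ ∈ A) F ?_ (hsep x⁻¹)
    intro g hg
    obtain ⟨e1, e2, e3⟩ := hF g hg
    obtain ⟨y, rfl⟩ := fix_iff e1
    refine ⟨y, ⟨fix_B e2, ?_⟩, rfl⟩
    refine vt_A (φ := φ) ?_
    rw [smul_vt] at e3
    have h1 := vt_mul k'⁻¹ e3
    rw [inv_mul_cancel] at h1
    rw [← h1]
    congr 1
    simp only [map_mul, map_inv, inv_inv]
    group
  refine lev_r (T := graph φ) (r := rhn M) hC hAc isTree treeAct.adj ?_
    (rhn_LR hBM) n ?_ (fun v a => ori v a) (fun g v a _ => ori_smul g v a) ?_ ?_ ?_ ?_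
  · intro v
    obtain ⟨g, rfl⟩ := exists_vt v
    rw [hst]
    exact C_conj hC g hran
  · intro v a b ha hb hr F hF
    obtain ⟨k, ⟨rfl, rfl⟩ | ⟨rfl, rfl⟩⟩ := adj_c ha
    · obtain ⟨k', ⟨h1, rfl⟩ | ⟨h1, rfl⟩⟩ := adj_c hb
      · obtain ⟨x, rfl⟩ := vt_eq_iff.1 h1
        have hx : x ∉ M := fun hx => hr (Or.inr ⟨k, x, hx, rfl, rfl, rfl⟩)
        refine key k (fun y => y ∈ B ∧ x⁻¹ * y * x ∈ B) F ?_ (hmal x hx)
        intro g hg
        obtain ⟨e1, e2, e3⟩ := hF g hg
        obtain ⟨y, rfl⟩ := fix_iff e1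
        refine ⟨y, ⟨fix_B e2, ?_⟩, rfl⟩
        refine fix_B (k := k * HNNExtension.of x) ?_
        have h2 : k * HNNExtension.of x * HNNExtension.of (x⁻¹ * y * x) *
            (k * HNNExtension.of x)⁻¹ = (k * HNNExtension.of y * k⁻¹ :
              HNNExtension H A B φ) := by
          simp only [map_mul, map_inv]
          group
        rw [h2]
        exact e3
      · exact mixed k k' h1 F fun g hg => hF g hg
    · obtain ⟨k', ⟨h1, rfl⟩ | ⟨h1, rfl⟩⟩ := adj_c hb
      · refine mixed k' k h1.symm F fun g hg => ?_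
        obtain ⟨e1, e2, e3⟩ := hF g hg
        rw [h1] at e1
        exact ⟨e1, e3, e2⟩
      · refine absurd (Or.inl ⟨ori_zero _, ?_⟩) hr
        rw [h1]
        exact ori_zero _
  · intro v a huv
    obtain ⟨g, ⟨rfl, rfl⟩ | ⟨rfl, rfl⟩⟩ := adj_c huv
    · rw [ori_one, ori_zero]
      exact one_ne_zero
    · rw [ori_one, ori_zero]
      exact zero_ne_one
  · rintro v a b - - (h | ⟨k, m, hm, rfl, rfl, rfl⟩)
    · exact h.1.trans h.2.symm
    · show ori _ _ = ori _ _
      rw [ori_one, rhn_one]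
  · rintro v a b - - hla hlb (h | ⟨k, m, hm, rfl, rfl, rfl⟩)
    · have h1 : ori a v < ori v a := hla
      rw [h.1] at h1
      exact absurd h1 (Nat.not_lt_zero _)
    · refine ⟨k * HNNExtension.of m * k⁻¹, ?_, ?_⟩
      · rw [smul_vt, inv_mul_cancel_right]
        exact vt_of _ _
      · rw [smul_vt]
        congr 1
        group
  · intro v a hva hl M' hM'
    obtain ⟨k, ⟨rfl, rfl⟩ | ⟨rfl, rfl⟩⟩ := adj_c hva
    swap
    · rw [ori_one, ori_zero] at hl
      exact absurd hl (by omega)
    have h1 : M' = (M.map (HNNExtension.of : H →* HNNExtension H A B φ)).map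
        (MulAut.conj k).toMonoidHom := by
      ext g
      rw [hM']
      constructor
      · rintro ⟨e1, e2⟩
        obtain ⟨y, rfl⟩ := fix_iff e1
        refine ⟨_, ⟨y, ?_, rfl⟩, rfl⟩
        have e3 : (k * HNNExtension.of y * k⁻¹) • (vt (k * HNNExtension.t) : Vert φ) =
            vt (k * HNNExtension.of y * HNNExtension.t) := by
          rw [smul_vt]
          congr 1
          group
        rw [e3] at e2
        rcases e2 with e2 | ⟨k', m, hm, e4, e5, e6⟩
        · have e4 := e2.1
          rw [ori_one] at e4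
          exact absurd e4 one_ne_zero
        · obtain ⟨x, rfl⟩ := vt_eq_iff.1 e4
          have e7 := vt_mul k⁻¹ e5
          rw [inv_mul_cancel_left] at e7
          have e8 : k⁻¹ * (k * HNNExtension.of x * HNNExtension.t) =
            (HNNExtension.of x * HNNExtension.t : HNNExtension H A B φ) := by group
          rw [e8] at e7
          have hx : x ∈ M := hBM (vt_B.1 e7.symm)
          have e9 := vt_mul (k * HNNExtension.of x * HNNExtension.of m)⁻¹ e6
          rw [inv_mul_cancel_left] at e9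
          have e10 : (k * HNNExtension.of x * HNNExtension.of m)⁻¹ *
              (k * HNNExtension.of y * HNNExtension.t) =
              (HNNExtension.of ((x * m)⁻¹ * y) * HNNExtension.t : HNNExtension H A B φ) := by
            simp only [map_mul, map_inv, mul_inv_rev]
            group
          rw [e10] at e9
          have hy : (x * m)⁻¹ * y ∈ M := hBM (vt_B.1 e9)
          have h2 : y = x * m * ((x * m)⁻¹ * y) := by group
          show y ∈ M
          rw [h2]
          exact M.mul_mem (M.mul_mem hx hm) hy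
      · rintro ⟨_, ⟨m, hm, rfl⟩, rfl⟩
        have e0 : (MulAut.conj k).toMonoidHom (HNNExtension.of m) =
          (k * HNNExtension.of m * k⁻¹ : HNNExtension H A B φ) := rfl
        rw [e0]
        refine ⟨?_, Or.inr ⟨k, m, hm, rfl, rfl, ?_⟩⟩
        · rw [smul_vt, inv_mul_cancel_right]
          exact vt_of _ _
        · rw [smul_vt]
          congr 1
          group
    rw [hes, h1]
    exact (hvis.map _ hinj).map _ (MulAut.conj k).injective

end Pool.Agent.U709.Rm
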