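import Pool.Agent.U709.RmF
import Pool.Agent.U709.Abl

/-!
# Amalgamated products over groups of triangular matrices
-/

set_option autoImplicit false

namespace Pool.Agent.U709.Rm

open Subgroup
open Pool.Agent.Y110.FJ
open Pool.Agent.N509.TX (AcylF)
open Pool.Agent.U709.Gl (C_ab)
open Pool.Agent.Helper705_SA (IsAmalgam)

variable {C : ∀ (G : Type) [Group G], Prop}

/-- **amalgamated products over groups of triangular matrices** -/
theorem rm_sl (hC : ClosedE C) (hAc : AcylF C) {G : Type} [Group G] (A B : Subgroup G)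
    (h : IsAmalgam A B) (hcA : C A) (hcB : C B) {R : Type} [CommRing R] [IsDomain R]
    (ρ : B →* Matrix.SpecialLinearGroup (Fin 2) R) (hρ : Function.Injective ρ)
    (hd : ∀ b, (ρ b) 1 0 = 0 → (ρ b) 0 0 = (ρ b) 1 1)
    (hE : ∀ b : B, (b : G) ∈ A → (ρ b) 1 0 = 0) : C G := by
  classical
  have hmul : ∀ (x z : B) (i j : Fin 2), (ρ (x * z)) i j =
      (ρ x) i 0 * (ρ z) 0 j + (ρ x) i 1 * (ρ z) 1 j := by
    intro x z i j
    rw [map_mul, Matrix.SpecialLinearGroup.coe_mul, Matrix.mul_apply, Fin.sum_univ_two]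
  have hdet : ∀ x : B, (ρ x) 0 0 * (ρ x) 1 1 - (ρ x) 0 1 * (ρ x) 1 0 = 1 := by
    intro x
    have h1 := (ρ x).det_coe
    rwa [Matrix.det_fin_two] at h1
  have hinv : ∀ x : B, (ρ x⁻¹) 0 0 = (ρ x) 1 1 ∧ (ρ x⁻¹) 0 1 = - (ρ x) 0 1 ∧
      (ρ x⁻¹) 1 0 = - (ρ x) 1 0 ∧ (ρ x⁻¹) 1 1 = (ρ x) 0 0 := by
    intro x
    rw [map_inv, Matrix.SpecialLinearGroup.coe_inv, Matrix.adjugate_fin_two]
    exact ⟨rfl, rfl, rfl, rfl⟩
  -- the triangular matrices
  let M0 : Subgroup B :=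
    { carrier := {b | (ρ b) 1 0 = 0}
      one_mem' := by
        show (ρ 1) 1 0 = 0
        rw [map_one]
        simp
      mul_mem' := by
        intro x z hx hz
        have hx : (ρ x) 1 0 = 0 := hx
        have hz : (ρ z) 1 0 = 0 := hz
        show (ρ (x * z)) 1 0 = 0
        rw [hmul, hx, hz, zero_mul, mul_zero, add_zero]
      inv_mem' := by
        intro x hx
        have hx : (ρ x) 1 0 = 0 := hx
        show (ρ x⁻¹) 1 0 = 0
        rw [(hinv x).2.2.1, hx, neg_zero] }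
  have hM0 : ∀ b : B, b ∈ M0 ↔ (ρ b) 1 0 = 0 := fun b => Iff.rfl
  have hcomm : ∀ x ∈ M0, ∀ z ∈ M0, x * z = z * x := by
    intro x hx z hz
    rw [hM0] at hx hz
    have ex := hd x hx
    have ez := hd z hz
    apply hρ
    apply Subtype.ext
    ext i j
    rw [hmul, hmul]
    fin_cases i <;> fin_cases j <;> simp only [Fin.zero_eta, Fin.mk_one, Fin.isValue]
    · linear_combination (ρ x) 0 1 * hz - (ρ z) 0 1 * hx
    · linear_combination (ρ z) 0 1 * ex - (ρ x) 0 1 * ez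
    · linear_combination ((ρ z) 0 0 - (ρ z) 1 1) * hx + ((ρ x) 1 1 - (ρ x) 0 0) * hz
    · linear_combination (ρ z) 0 1 * hx - (ρ x) 0 1 * hz
  have hone : ∀ x ∈ M0, (ρ x) 0 1 = 0 → (ρ x) 0 0 = 1 ∨ (ρ x) 0 0 = -1 := by
    intro x hx h1
    rw [hM0] at hx
    have h2 := hdet x
    rw [← hd x hx, h1, zero_mul, sub_zero] at h2
    exact mul_self_eq_one_iff.1 h2
  have hcM : ∀ x ∈ M0.map B.subtype, ∀ z ∈ M0.map B.subtype, x * z = z * x := by
    rintro _ ⟨x, hx, rfl⟩ _ ⟨z, hz, rfl⟩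
    exact congrArg Subtype.val (hcomm x hx z hz)
  have hEM : A ⊓ B ≤ M0.map B.subtype := fun x hx => ⟨⟨x, hx.2⟩, hE ⟨x, hx.2⟩ hx.1, rfl⟩
  refine rm_amalgam hC hAc A B h hcA hcB (M0.map B.subtype) hEM (map_subtype_le _) 2 ?_ ?_
  · intro b hb hbM F hF
    have hbM : (ρ ⟨b, hb⟩) 1 0 ≠ 0 := fun h0 => hbM ⟨⟨b, hb⟩, h0, rfl⟩
    -- the elements of `F` are central
    have hz : ∀ g (hg : g ∈ F), ∃ hgB : g ∈ B, (⟨g, hgB⟩ : B) ∈ M0 ∧ (ρ ⟨g, hgB⟩) 0 1 = 0 := by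
      intro g hg
      obtain ⟨⟨hgA, hgB⟩, h2⟩ := hF g hg
      have h3 := hE ⟨g, hgB⟩ hgA
      refine ⟨hgB, h3, ?_⟩
      have h4 := hE ⟨b⁻¹ * g * b, h2.2⟩ h2.1
      have h5 : (⟨b⁻¹ * g * b, h2.2⟩ : B) = (⟨b, hb⟩ : B)⁻¹ * ⟨g, hgB⟩ * ⟨b, hb⟩ := rfl
      rw [h5, hmul, hmul, hmul, (hinv ⟨b, hb⟩).2.2.1, (hinv ⟨b, hb⟩).2.2.2, h3,
        hd ⟨g, hgB⟩ h3] at h4
      have h6 : (ρ ⟨b, hb⟩) 1 0 * (ρ ⟨b, hb⟩) 1 0 * (ρ ⟨g, hgB⟩) 0 1 = 0 := by
        linear_combination -h4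
      rcases mul_eq_zero.1 h6 with h7 | h7
      · exact absurd (mul_self_eq_zero.1 h7) hbM
      · exact h7
    let f : G → R := fun g => if hg : g ∈ B then (ρ ⟨g, hg⟩) 0 0 else 0
    have hf : ∀ g (hg : g ∈ B), f g = (ρ ⟨g, hg⟩) 0 0 := fun g hg => dif_pos hg
    refine (Finset.card_le_card_of_injOn f (t := {1, -1}) ?_ ?_).trans Finset.card_le_two
    · intro g hg
      obtain ⟨hgB, h3, h4⟩ := hz g hg
      rw [hf g hgB]
      simpa using hone _ h3 h4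
    · intro g hg g' hg' he
      obtain ⟨hgB, h3, h4⟩ := hz g hg
      obtain ⟨hgB', h3', h4'⟩ := hz g' hg'
      rw [hf g hgB, hf g' hgB'] at he
      refine congrArg Subtype.val (hρ (a₁ := ⟨g, hgB⟩) (a₂ := ⟨g', hgB'⟩) (Subtype.ext ?_))
      have e1 := hd _ h3
      have e2 := hd _ h3'
      rw [hM0] at h3 h3'
      ext i j
      fin_cases i <;> fin_cases j <;> simp only [Fin.zero_eta, Fin.mk_one, Fin.isValue]
      · exact he
      · exact h4.trans h4'.symm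
      · exact h3.trans h3'.symm
      · exact e1.symm.trans (he.trans e2)
  · refine genVis_id hEM ?_ ?_
    · intro m hm
      refine ⟨1, one_mem _, fun x hx => ?_⟩
      rw [inv_one, one_mul]
      exact hcM _ hm _ (hEM hx)
    · have hn : ((A ⊓ B).subgroupOf (M0.map B.subtype)).Normal := ⟨by
        intro x hx g
        have h1 : g * x * g⁻¹ = x := by
          rw [mul_inv_eq_iff_eq_mul]
          exact Subtype.ext (hcM _ g.2 _ x.2)
        rwa [h1]⟩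
      refine ⟨M0.map B.subtype ⧸ (A ⊓ B).subgroupOf (M0.map B.subtype), inferInstance,
        QuotientGroup.mk' _, C_ab hC.base _ ?_, fun m => ?_⟩
      · intro a b
        obtain ⟨a, rfl⟩ := QuotientGroup.mk_surjective a
        obtain ⟨b, rfl⟩ := QuotientGroup.mk_surjective b
        have h1 : a * b = b * a := Subtype.ext (hcM _ a.2 _ b.2)
        rw [← QuotientGroup.mk_mul, h1, QuotientGroup.mk_mul]
      · rw [QuotientGroup.mk'_apply, QuotientGroup.eq_one_iff, mem_subgroupOf]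

end Pool.Agent.U709.Rm
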