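import Pool.Agent.U385.FJ.Cyl
import Pool.Agent.U709.Cls
import Pool.Agent.Helper705_SA.Line

/-!
# Actions on trees with finite edge stabilizers; virtually cyclic groups
-/

set_option autoImplicit false

namespace Pool.Agent.U709.Vc

open SimpleGraph
open Subgroup
open Pool.Agent.Y110.FJ
open Pool.Agent.N509.TK
open Pool.Agent.N509.TX (AcylF finedge fg_subtree of_fg C_stab STree)
open Pool.Agent.N431.CE (Es mem_Es Es_comm Es_smul)
open Pool.Agent.R941.FJ (C_equiv C_le C_cyc mem_sup_normal)
open Pool.Agent.U385.FJ (QC)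

variable {C : ∀ (G : Type) [Group G], Prop}
variable {G V : Type} [Group G] [MulAction G V] {T : SimpleGraph V}

/-- the number of elements of a finset in a finite subgroup -/
theorem card_le {E : Subgroup G} (hE : Finite E) (F : Finset G) (hF : ∀ g ∈ F, g ∈ E) :
    F.card ≤ Nat.card E := by
  have h1 : (F : Set G) ⊆ (E : Set G) := fun g hg => hF g hg
  have h2 := Set.ncard_le_ncard h1 (Set.toFinite _)
  rw [Set.ncard_coe_finset] at h2
  exact h2.trans (le_of_eq (Nat.card_coe_set_eq _).symm)

/-- edge stabilizers of translates -/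
theorem Es_mem_conj {g h : G} {u v : V} : h * g * h⁻¹ ∈ Es G (h • u) (h • v) ↔ g ∈ Es G u v := by
  have key : ∀ w : V, (h * g * h⁻¹) • (h • w) = h • w ↔ g • w = w := by
    intro w
    rw [smul_smul, inv_mul_cancel_right, mul_smul]
    exact (MulAction.injective h).eq_iff
  rw [mem_Es, mem_Es, key, key]

/-- the translate of a finset which fixes an edge -/
theorem card_tr (H : Subgroup G) (F : Finset H) (h : H) {u v : V}
    (hF : ∀ g ∈ F, (g : G) • u = u ∧ (g : G) • v = v) (hE : Finite (Es G ((h : G) • u) ((h : G) • v))) :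
    F.card ≤ Nat.card (Es G ((h : G) • u) ((h : G) • v)) := by
  classical
  have h2 : (F.image fun g : H => (h : G) * g * (h : G)⁻¹).card = F.card := by
    apply Finset.card_image_of_injective
    intro g g' hg
    exact Subtype.ext (by simpa using hg)
  rw [← h2]
  refine card_le hE _ ?_
  intro z hz
  obtain ⟨g, hg, rfl⟩ := Finset.mem_image.1 hz
  exact Es_mem_conj.2 (hF g hg)

theorem exists_bound {X : Type} (Φ : Finset (X × X)) (f : X → X → ℕ) :
    ∃ n : ℕ, ∀ a b : X, (a, b) ∈ Φ → f a b ≤ n := by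
  refine ⟨Φ.sup fun e => f e.1 e.2, fun a b hab => ?_⟩
  have h := Finset.le_sup (f := fun e : X × X => f e.1 e.2) hab
  exact h

/-- **groups acting on trees with finite edge stabilizers** -/
theorem fin_tree (hC : ClosedE C) (hA : AcylF C) (hT : T.IsTree)
    (hact : ∀ (g : G) (u v : V), T.Adj u v → T.Adj (g • u) (g • v))
    (hE : ∀ u v, T.Adj u v → Finite (Es G u v))
    (hV : ∀ v : V, C ↥(MulAction.stabilizer G v)) : C G := by
  classical
  refine of_fg hC fun H hfg => ?_
  obtain ⟨o⟩ := hT.connected.nonempty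
  have hactH : ∀ (g : H) (u v : V), T.Adj u v → T.Adj (g • u) (g • v) := fun g u v h => hact g u v h
  obtain ⟨W, _, T', ι, Φ, hST, -, hΦ, hfin⟩ := fg_subtree hT hactH hfg o
  obtain ⟨n, hn⟩ := exists_bound Φ (fun a b => Nat.card (Es G a b))
  refine finedge hC hA hfg hST.tree hST.act n ?_ ?_
  · intro x y hxy F hF
    have hF1 : ∀ g ∈ F, (g : G) • ι x = ι x ∧ (g : G) • ι y = ι y := fun g hg =>
      ⟨hST.fix.1 (hF g hg).1, hST.fix.1 (hF g hg).2⟩
    have key : ∀ (h : H) (u v : V), (∀ g ∈ F, (g : G) • u = u ∧ (g : G) • v = v) →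
        ((h : G) • u, (h : G) • v) ∈ Φ → F.card ≤ n := by
      intro h u v hF2 h1
      have h2 := card_tr H F h hF2 (hE _ _ (hΦ _ h1))
      exact h2.trans (hn _ _ h1)
    obtain ⟨h, h1 | h1⟩ := hfin x y hxy
    · exact key h _ _ hF1 h1
    · exact key h _ _ (fun g hg => (hF1 g hg).symm) h1
  · intro w
    rw [hST.stab w]
    exact C_stab hC H _ (hV _)

/-- virtually cyclic -/
def VCyc {G : Type} [Group G] (E : Subgroup G) : Prop :=
  ∃ c ∈ E, (Subgroup.zpowers c).relIndex E ≠ 0

/-- finite subgroups of virtually cyclic groups have bounded order -/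
theorem vc_bound {E : Subgroup G} (hE : VCyc E) :
    ∃ m : ℕ, ∀ D : Subgroup G, D ≤ E → Finite D → Nat.card D ≤ m := by
  obtain ⟨c, hc, hi⟩ := hE
  refine ⟨(orderOf c + 1) * (zpowers c).relIndex E, fun D hD hfin => ?_⟩
  have h1 : (zpowers c).relIndex D ≤ (zpowers c).relIndex E := relIndex_le_of_le_right hD hi
  have h2 : Nat.card (zpowers c ⊓ D : Subgroup G) ≤ orderOf c + 1 := by
    by_cases h0 : orderOf c = 0
    · have h3 : (zpowers c ⊓ D : Subgroup G) = ⊥ := by
        rw [eq_bot_iff]
        rintro x ⟨hx, hxD⟩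
        obtain ⟨k, rfl⟩ := hx
        have h4 : IsOfFinOrder (c ^ k) := by
          have h5 : IsOfFinOrder (⟨c ^ k, hxD⟩ : D) := isOfFinOrder_of_finite _
          obtain ⟨m, hm, h6⟩ := isOfFinOrder_iff_pow_eq_one.1 h5
          exact isOfFinOrder_iff_pow_eq_one.2 ⟨m, hm, congrArg Subtype.val h6⟩
        obtain ⟨m, hm, h6⟩ := isOfFinOrder_iff_pow_eq_one.1 h4
        have h7 : k = 0 := by
          by_contra hk
          have h8 : c ^ (k.natAbs * m) = 1 := by
            rcases Int.natAbs_eq k with h9 | h9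
            · rw [pow_mul, ← zpow_natCast c k.natAbs, ← h9]
              exact h6
            · have h10 : ((k.natAbs : ℕ) : ℤ) = -k := by omega
              rw [pow_mul, ← zpow_natCast c k.natAbs, h10, zpow_neg, inv_pow, inv_eq_one]
              exact h6
          have h9 := orderOf_dvd_of_pow_eq_one h8
          rw [h0, zero_dvd_iff] at h9
          rcases Nat.mul_eq_zero.1 h9 with h10 | h10
          · exact hk (Int.natAbs_eq_zero.1 h10)
          · omega
        rw [mem_bot]
        show c ^ k = 1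
        rw [h7, zpow_zero]
      rw [h3]
      simp
    · have h3 : Nat.card (zpowers c) = orderOf c := Nat.card_zpowers c
      have h4 : Finite (zpowers c) := Nat.finite_of_card_ne_zero (by rw [h3]; exact h0)
      have h5 : Nat.card (zpowers c ⊓ D : Subgroup G) ≤ Nat.card (zpowers c) :=
        Nat.card_le_card_of_injective _ (inclusion_injective (inf_le_left : zpowers c ⊓ D ≤ zpowers c))
      omega
  have h3 : Nat.card D = (⊥ : Subgroup G).relIndex (zpowers c ⊓ D) * (zpowers c ⊓ D).relIndex D := by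
    rw [relIndex_mul_relIndex _ _ _ bot_le inf_le_right, relIndex_bot_left]
  rw [h3, relIndex_bot_left, inf_relIndex_right]
  exact Nat.mul_le_mul h2 h1

end Pool.Agent.U709.Vc
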