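import Pool.Agent.U709.VcA
import Pool.Agent.U385.FJ.Iso

/-!
# Centralizers of elements of infinite order in groups acting on trees
-/

set_option autoImplicit false

namespace Pool.Agent.U709.Vc

open SimpleGraph
open Subgroup
open Pool.Agent.Y110.FJ
open Pool.Agent.N509.TX (AcylF of_fg C_stab)
open Pool.Agent.N431.CE (Es mem_Es Es_comm Es_smul)
open Pool.Agent.R941.FJ (C_equiv C_le C_cyc mem_sup_normal)
open Pool.Agent.U385.FJ (QC cyc_index)
open Pool.Agent.Helper270.Tree (TreeAct IsAxis)
open Pool.Agent.Helper705_SA (FixSet fixSet_conv Conv)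

variable {C : ∀ (G : Type) [Group G], Prop}
variable {G V : Type} [Group G] [MulAction G V] {T : SimpleGraph V}

/-- infinite order -/
def Inf {G : Type} [Group G] (z : G) : Prop := ∀ m : ℕ, m ≠ 0 → z ^ m ≠ 1

theorem Inf.pow {z : G} (h : Inf z) {k : ℕ} (hk : k ≠ 0) : Inf (z ^ k) := by
  intro m hm h1
  rw [← pow_mul] at h1
  exact h _ (Nat.mul_ne_zero hk hm) h1

theorem Inf.zpow_inj {z : G} (h : Inf z) {i j : ℤ} (hij : z ^ i = z ^ j) : i = j := by
  have h1 : ¬ IsOfFinOrder z := by
    intro h2
    obtain ⟨m, hm, h3⟩ := isOfFinOrder_iff_pow_eq_one.1 h2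
    exact h m hm.ne' h3
  exact injective_zpow_iff_not_isOfFinOrder.2 h1 hij

/-- elements of infinite order in virtually cyclic groups -/
theorem vc_inf {E : Subgroup G} (hE : VCyc E) {z : G} (hz : z ∈ E) (hinf : Inf z) :
    (zpowers z).relIndex E ≠ 0 := by
  obtain ⟨c, hc, hi⟩ := hE
  obtain ⟨m, hm, -, hmem⟩ := Subgroup.exists_pow_mem_of_relIndex_ne_zero hi hz
  refine relIndex_ne_zero_trans (K := zpowers c) ?_ hi
  exact cyc_index (x := z ^ m) (isCyclic_iff_exists_zpowers_eq_top.2 ⟨⟨c, mem_zpowers c⟩, by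
    rw [eq_top_iff]
    rintro ⟨_, k, rfl⟩ -
    exact ⟨k, Subtype.ext (by simp)⟩⟩) hmem.1 (pow_mem (mem_zpowers z) m) (hinf.pow hm.ne')

/-- infinite virtually cyclic groups have elements of infinite order -/
theorem exists_inf {E : Subgroup G} (hE : VCyc E) (hinf : Infinite E) :
    ∃ c ∈ E, Inf c ∧ (zpowers c).relIndex E ≠ 0 := by
  obtain ⟨c, hc, hi⟩ := hE
  refine ⟨c, hc, ?_, hi⟩
  intro m hm h1
  have h2 : IsOfFinOrder c := isOfFinOrder_iff_pow_eq_one.2 ⟨m, Nat.pos_of_ne_zero hm, h1⟩
  have h3 : Finite (zpowers c) := (finite_zpowers.2 h2).to_subtype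
  have h4 : zpowers c ≤ E := by rwa [zpowers_le]
  have h5 : Nat.card E ≠ 0 := by
    have h6 : (⊥ : Subgroup G).relIndex (zpowers c) * (zpowers c).relIndex E =
        (⊥ : Subgroup G).relIndex E := relIndex_mul_relIndex _ _ _ bot_le h4
    rw [relIndex_bot_left, relIndex_bot_left] at h6
    rw [← h6]
    exact Nat.mul_ne_zero Nat.card_pos.ne' hi
  exact h5 (Nat.card_eq_zero_of_infinite)

theorem VCyc.mono {E D : Subgroup G} (hE : VCyc E) (hD : D ≤ E) : VCyc D := by
  obtain ⟨c, hc, hi⟩ := hE
  by_cases hfin : Finite D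
  · refine ⟨1, one_mem _, ?_⟩
    rw [zpowers_one_eq_bot, relIndex_bot_left]
    exact Nat.card_pos.ne'
  · rw [not_finite_iff_infinite] at hfin
    have h1 : (zpowers c).relIndex D ≠ 0 := fun h => hi (relIndex_eq_zero_of_le_right hD h)
    -- `D ⊓ ⟨c⟩` is nontrivial
    by_cases h2 : zpowers c ⊓ D = ⊥
    · exfalso
      rw [← inf_relIndex_right, h2, relIndex_bot_left] at h1
      exact h1 Nat.card_eq_zero_of_infinite
    · obtain ⟨⟨x, ⟨k, hk⟩, hxD⟩, hx1⟩ := Subgroup.ne_bot_iff_exists_ne_one.1 h2
      have hk : c ^ k = x := hk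
      refine ⟨x, hxD, ?_⟩
      have hci : Inf c := by
        intro m hm h3
        have h4 : IsOfFinOrder c := isOfFinOrder_iff_pow_eq_one.2 ⟨m, Nat.pos_of_ne_zero hm, h3⟩
        have h5 : Finite (zpowers c) := (finite_zpowers.2 h4).to_subtype
        have h6 : Finite (zpowers c ⊓ D : Subgroup G) :=
          Finite.of_injective _ (inclusion_injective (inf_le_left : zpowers c ⊓ D ≤ zpowers c))
        have h7 : (⊥ : Subgroup G).relIndex (zpowers c ⊓ D) * (zpowers c ⊓ D).relIndex D =
            (⊥ : Subgroup G).relIndex D := relIndex_mul_relIndex _ _ _ bot_le inf_le_right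
        have h9 : Nat.card D = 0 := Nat.card_eq_zero_of_infinite
        rw [relIndex_bot_left, relIndex_bot_left, h9, inf_relIndex_right] at h7
        rcases Nat.mul_eq_zero.1 h7 with h8 | h8
        · exact Nat.card_pos.ne' h8
        · exact h1 h8
      have hxi : Inf x := by
        intro m hm h3
        rw [← hk, ← zpow_natCast, ← zpow_mul] at h3
        have h4 := hci.zpow_inj (i := k * m) (j := 0) (by rw [h3, zpow_zero])
        rcases mul_eq_zero.1 h4 with h5 | h5
        · apply hx1
          apply Subtype.ext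
          show x = 1
          rw [← hk, h5, zpow_zero]
        · exact hm (by exact_mod_cast h5)
      have h3 : (zpowers x).relIndex E ≠ 0 := vc_inf ⟨c, hc, hi⟩ (hD hxD) hxi
      exact fun h => h3 (relIndex_eq_zero_of_le_right hD h)

/-- the class contains a quotient if a group in the class has the same kernel -/
theorem C_of_ker (hC : ClosedE C) {B S P : Type} [Group B] [Group S] [Group P] (π : B →* S)
    (hπ : Function.Surjective π) (g : B →* P) (h : ∀ x, π x = 1 ↔ g x = 1) (hP : C P) : C S := by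
  let k : S →* P := π.liftOfSurjective hπ ⟨g, fun x hx => (h x).1 hx⟩
  have hk : ∀ x, k (π x) = g x := fun x => MonoidHom.liftOfRightInverse_comp_apply π _ _ ⟨g, _⟩ x
  refine hC.base.of_injective _ _ k ?_ hP
  rw [injective_iff_map_eq_one]
  intro s hs
  obtain ⟨x, rfl⟩ := hπ s
  rw [hk] at hs
  exact (h x).2 hs

/-- if a quotient by a cyclic normal subgroup is in the class then so is the group -/
theorem C_of_QC (hC : ClosedE C) (hS : ∀ (G : Type) [Group G], Group.IsSolvable G → C G)
    {A : Subgroup G} {z : G} (h : QC C A (zpowers z)) : C A := by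
  obtain ⟨P, _, f, hP, hf⟩ := h
  refine solv_ker hC hS f.rangeRestrict f.rangeRestrict_surjective ?_ ?_
  · let j : f.rangeRestrict.ker →* zpowers z :=
      (A.subtype.comp (Subgroup.subtype _)).codRestrict _ (fun x => by
        have h1 : f.rangeRestrict x = 1 := x.2
        exact (hf x).1 (congrArg Subtype.val h1))
    have hj : Function.Injective j := by
      intro a b hab
      have : (a.1.1 : G) = b.1.1 := congrArg (fun z : (Subgroup.zpowers z) => (z : G)) hab
      exact Subtype.ext (Subtype.ext this)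
    have : IsMulCommutative (Subgroup.zpowers z) := inferInstance
    have hz : Group.IsSolvable (Subgroup.zpowers z) :=
      Group.isSolvable_of_comm (fun a b => mul_comm' a b)
    exact Group.isSolvable_of_isSolvable_injective hj
  · exact hC.base.of_injective _ _ f.range.subtype f.range.subtype_injective hP

/-- **elliptic elements** -/
theorem cent_ell (hC : ClosedE C) (hA : AcylF C) (h : TreeAct G T)
    (hE : ∀ u v, T.Adj u v → VCyc (Es G u v)) {z : G} (hz : Inf z)
    (hV : ∀ v : V, z • v = v → QC C (MulAction.stabilizer G v ⊓ centralizer {z}) (zpowers z))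
    (hell : ∃ v : V, z • v = v) : QC C (centralizer {z}) (zpowers z) := by
  classical
  obtain ⟨Z', hZ'⟩ : ∃ Z' : Subgroup (centralizer {z}), Z' = (zpowers z).subgroupOf (centralizer {z}) :=
    ⟨_, rfl⟩
  have hcen : ∀ a : centralizer {z}, (a : G) * z = z * a := fun a =>
    Subgroup.mem_centralizer_singleton_iff.1 a.2
  have hmem : ∀ a : centralizer {z}, a ∈ Z' ↔ (a : G) ∈ zpowers z := by
    intro a
    rw [hZ', mem_subgroupOf]
  have hN : Z'.Normal := by
    refine ⟨fun n hn g => ?_⟩
    rw [hmem] at hn ⊢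
    obtain ⟨k, hk⟩ := hn
    have hk : z ^ k = (n : G) := hk
    have h1 : (g : G) * n = n * g := by
      rw [← hk]
      exact (Commute.zpow_right (show Commute (g : G) z from hcen g) k).eq
    push_cast
    rw [h1, mul_inv_cancel_right, ← hk]
    exact ⟨k, rfl⟩
  refine ⟨centralizer {z} ⧸ Z', inferInstance, QuotientGroup.mk' Z', ?_, fun x => by
    rw [← hmem]
    exact QuotientGroup.eq_one_iff x⟩
  -- the action on the set of fixed points
  let F : Set V := FixSet V {z}
  have hF : ∀ v, v ∈ F ↔ z • v = v := fun v => ⟨fun hv => hv z rfl, fun hv a ha => by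
    rw [Set.mem_singleton_iff.1 ha]; exact hv⟩
  have hFz : ∀ (a : centralizer {z}) (v : V), v ∈ F → (a : G) • v ∈ F := by
    intro a v hv
    rw [hF] at hv ⊢
    rw [smul_smul, ← hcen a, mul_smul, hv]
  let act : MulAction (centralizer {z}) F :=
    { smul := fun a v => ⟨(a : G) • (v : V), hFz a v v.2⟩
      one_smul := fun v => Subtype.ext (one_smul G (v : V))
      mul_smul := fun a b v => Subtype.ext (mul_smul (a : G) (b : G) (v : V)) }
  let φ : centralizer {z} →* Equiv.Perm F := MulAction.toPermHom _ F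
  have hφ : ∀ a (v : F), ((φ a v : F) : V) = (a : G) • (v : V) := fun a v => rfl
  have hker : Z' ≤ φ.ker := by
    intro a ha
    rw [hmem] at ha
    obtain ⟨k, hk⟩ := ha
    rw [MonoidHom.mem_ker]
    ext v
    rw [hφ, ← hk]
    have h1 : z ∈ MulAction.stabilizer G (v : V) := (hF v).1 v.2
    exact (MulAction.stabilizer G (v : V)).zpow_mem h1 k
  let ψ : centralizer {z} ⧸ Z' →* Equiv.Perm F := QuotientGroup.lift Z' φ hker
  let _ : MulAction (centralizer {z} ⧸ Z') F := MulAction.compHom F ψ
  have hψ : ∀ (a : centralizer {z}) (v : F),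
      ((((QuotientGroup.mk a : centralizer {z} ⧸ Z') • v : F)) : V) = (a : G) • (v : V) := fun a v => rfl
  have hne : F.Nonempty := by
    obtain ⟨v, hv⟩ := hell
    exact ⟨v, (hF v).2 hv⟩
  have htree : (T.induce F).IsTree := (fixSet_conv h {z}).isTree h.isTree hne
  refine fin_tree (V := F) (T := T.induce F) hC hA htree ?_ ?_ ?_
  · intro g u v huv
    obtain ⟨a, rfl⟩ := QuotientGroup.mk_surjective g
    exact h.adj (a : G) u v huv
  · intro u v huv
    have huv : T.Adj (u : V) v := huv
    have hzE : z ∈ Es G (u : V) (v : V) := ⟨(hF u).1 u.2, (hF v).1 v.2⟩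
    have h1 := vc_inf (hE u v huv) hzE hz
    obtain ⟨D, hD⟩ : ∃ D : Subgroup (centralizer {z} ⧸ Z'), D = Es _ u v := ⟨_, rfl⟩
    rw [← hD]
    have h2 : (D.comap (QuotientGroup.mk' Z')).map (centralizer {z}).subtype ≤ Es G (u : V) v := by
      rintro _ ⟨a, ha, rfl⟩
      have ha : (QuotientGroup.mk a : centralizer {z} ⧸ Z') ∈ D := ha
      rw [hD, mem_Es] at ha
      exact ⟨congrArg Subtype.val ha.1, congrArg Subtype.val ha.2⟩
    have h3 : (zpowers z).relIndex ((D.comap (QuotientGroup.mk' Z')).map (centralizer {z}).subtype) ≠ 0 :=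
      fun h0 => h1 (relIndex_eq_zero_of_le_right h2 h0)
    rw [← relIndex_comap] at h3
    have h4 : (zpowers z).comap (centralizer {z}).subtype =
        (⊥ : Subgroup (centralizer {z} ⧸ Z')).comap (QuotientGroup.mk' Z') := by
      rw [MonoidHom.comap_bot, QuotientGroup.ker_mk', hZ']
      rfl
    rw [h4, relIndex_comap, map_comap_eq_self_of_surjective (QuotientGroup.mk'_surjective Z'),
      relIndex_bot_left] at h3
    exact Nat.finite_of_card_ne_zero h3
  · intro v
    obtain ⟨P, _, f, hP, hf⟩ := hV v ((hF v).1 v.2)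
    obtain ⟨B, hB⟩ : ∃ B : Subgroup (centralizer {z}),
      B = (MulAction.stabilizer (centralizer {z} ⧸ Z') v).comap (QuotientGroup.mk' Z') := ⟨_, rfl⟩
    have hBv : ∀ a : centralizer {z}, a ∈ B → (a : G) • (v : V) = v := by
      intro a ha
      rw [hB] at ha
      have h1 : (QuotientGroup.mk a : centralizer {z} ⧸ Z') • v = v := ha
      exact congrArg Subtype.val h1
    let π : B →* MulAction.stabilizer (centralizer {z} ⧸ Z') v :=
      ((QuotientGroup.mk' Z').comp B.subtype).codRestrict _ (by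
        rintro ⟨a, ha⟩
        rw [hB] at ha
        exact ha)
    let j : B →* ↥(MulAction.stabilizer G (v : V) ⊓ centralizer {z}) :=
      ((centralizer {z}).subtype.comp B.subtype).codRestrict _ (by
        rintro ⟨a, ha⟩
        exact ⟨hBv a ha, a.2⟩)
    refine C_of_ker hC π ?_ (f.comp j) ?_ hP
    · rintro ⟨g, hg⟩
      obtain ⟨a, rfl⟩ := QuotientGroup.mk_surjective g
      refine ⟨⟨a, ?_⟩, rfl⟩
      rw [hB]
      exact hg
    · rintro ⟨a, ha⟩
      have h1 : π ⟨a, ha⟩ = 1 ↔ a ∈ Z' := by
        rw [← QuotientGroup.eq_one_iff (N := Z') a]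
        exact ⟨fun h => congrArg Subtype.val h, fun h => Subtype.ext h⟩
      rw [h1, hmem]
      exact (hf (j ⟨a, ha⟩)).symm

end Pool.Agent.U709.Vc
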