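import Pool.Agent.U709.VcB

/-!
# Centralizers of hyperbolic elements; the theorem
-/

set_option autoImplicit false

namespace Pool.Agent.U709.Vc

open SimpleGraph
open Subgroup
open Subgroup.Commensurable (commensurator)
open Pool.Agent.Y110.FJ
open Pool.Agent.N509.TK
open Pool.Agent.N509.TX (AcylF of_fg C_stab C_edge cylF_fg fg_subtree STree)
open Pool.Agent.N431.CE (Es mem_Es Es_comm Es_smul rf rf_LR Rf Rf_gen)
open Pool.Agent.R941.FJ (C_equiv C_le C_cyc mem_sup_normal)
open Pool.Agent.U385.FJ (QC cyc_index)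
open Pool.Agent.Helper270.Tree (TreeAct IsAxis)
open Pool.Agent.Helper705_SA (FixSet fixSet_conv Conv)

variable {C : ∀ (G : Type) [Group G], Prop}
variable {G V : Type} [Group G] [MulAction G V] {T : SimpleGraph V}

/-- **hyperbolic elements** -/
theorem cent_hyp (hC : ClosedE C) (h : TreeAct G T) (hV : ∀ v : V, C ↥(MulAction.stabilizer G v))
    {z : G} (hhyp : ∀ v : V, z • v ≠ v) : QC C (centralizer {z}) (zpowers z) := by
  classical
  obtain ⟨L, l, hax⟩ := h.exists_axis hhyp
  have hcen : ∀ a : centralizer {z}, (a : G) * z = z * a := fun a =>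
    Subgroup.mem_centralizer_singleton_iff.1 a.2
  have hinj := hax.line.injective h.isTree
  have hl := hax.pos
  choose c hc using fun a : centralizer {z} => h.commute_axis hax (hcen a)
  have hc1 : c 1 = 0 := by
    have h1 := hc 1 0
    rw [add_zero] at h1
    have h2 : ((1 : centralizer {z}) : G) • L 0 = L 0 := one_smul G (L 0)
    rw [h2] at h1
    exact (hinj h1).symm
  have hcm : ∀ a b, c (a * b) = c a + c b := by
    intro a b
    have h1 := hc (a * b) 0
    have h2 : ((a * b : centralizer {z}) : G) • L 0 = (a : G) • (b : G) • L 0 := mul_smul _ _ _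
    rw [h2, hc b, hc a] at h1
    have := hinj h1
    omega
  let τ : centralizer {z} →* Multiplicative ℤ :=
    { toFun := fun a => Multiplicative.ofAdd (c a)
      map_one' := by rw [hc1]; rfl
      map_mul' := fun a b => by rw [hcm]; rfl }
  let zc : centralizer {z} := ⟨z, Subgroup.mem_centralizer_singleton_iff.2 rfl⟩
  have hcz : c zc = l := by
    have h1 := hc zc 0
    have h2 : (zc : G) • L 0 = L (0 + l) := hax.smul 0
    rw [h2] at h1
    have := hinj h1
    omega
  have hczp : ∀ k : ℤ, c (zc ^ k) = k * l := by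
    intro k
    have h1 : τ (zc ^ k) = τ zc ^ k := map_zpow τ zc k
    have h2 : τ zc = Multiplicative.ofAdd (l : ℤ) := congrArg Multiplicative.ofAdd hcz
    rw [h2, ← ofAdd_zsmul, smul_eq_mul] at h1
    exact Multiplicative.ofAdd.injective h1
  obtain ⟨Z', hZ'⟩ : ∃ Z' : Subgroup (centralizer {z}), Z' = (zpowers z).subgroupOf (centralizer {z}) :=
    ⟨_, rfl⟩
  have hmem : ∀ a : centralizer {z}, a ∈ Z' ↔ (a : G) ∈ zpowers z := by
    intro a
    rw [hZ', mem_subgroupOf]
  have hmem' : ∀ a : centralizer {z}, a ∈ Z' ↔ ∃ k : ℤ, zc ^ k = a := by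
    intro a
    rw [hmem, mem_zpowers_iff]
    exact exists_congr fun k => ⟨fun h => Subtype.ext (by simpa [zc] using h),
      fun h => by rw [← h]; simp [zc]⟩
  have hcomm : ∀ (a : centralizer {z}) (k : ℤ), a * zc ^ k = zc ^ k * a := fun a k =>
    (Commute.zpow_right (show Commute a zc from Subtype.ext (hcen a)) k).eq
  have hN : Z'.Normal := by
    refine ⟨fun n hn g => ?_⟩
    rw [hmem'] at hn ⊢
    obtain ⟨k, rfl⟩ := hn
    exact ⟨k, by rw [hcomm, mul_inv_cancel_right]⟩
  refine ⟨centralizer {z} ⧸ Z', inferInstance, QuotientGroup.mk' Z', ?_, fun x => by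
    rw [← hmem]
    exact QuotientGroup.eq_one_iff x⟩
  -- the elements whose translation length is a multiple of `l`
  have hfl : Finite (ZMod l) := by
    have : NeZero l := ⟨by omega⟩
    infer_instance
  let σ : centralizer {z} →* Multiplicative (ZMod l) :=
    (AddMonoidHom.toMultiplicative (Int.castAddHom (ZMod l))).comp τ
  have hσ : ∀ a, σ a = 1 ↔ (l : ℤ) ∣ c a := by
    intro a
    have h1 : σ a = Multiplicative.ofAdd ((c a : ℤ) : ZMod l) := rfl
    rw [h1, ofAdd_eq_one]
    exact ZMod.intCast_zmod_eq_zero_iff_dvd (c a) l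
  obtain ⟨M, hM⟩ : ∃ M : Subgroup (centralizer {z}), M = σ.ker := ⟨_, rfl⟩
  have hMl : ∀ a ∈ M, (l : ℤ) ∣ c a := fun a ha => (hσ a).1 (by rwa [hM] at ha)
  have hMf : M.FiniteIndex := by
    rw [hM]
    have : Finite (Multiplicative (ZMod l)) := hfl
    infer_instance
  have hMfi : (M.map (QuotientGroup.mk' Z')).FiniteIndex := by
    refine ⟨?_⟩
    have h1 := M.index_map_dvd (f := QuotientGroup.mk' Z') (QuotientGroup.mk'_surjective Z')
    exact fun h0 => hMf.index_ne_zero (Nat.eq_zero_of_zero_dvd (h0 ▸ h1))
  refine hC.base.finiteIndex _ _ hMfi ?_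
  -- the projection to the stabilizer of the axis
  choose d hd using hMl
  have hdm : ∀ a b : M, d (a * b : centralizer {z}) (mul_mem a.2 b.2) = d a a.2 + d b b.2 := by
    intro a b
    have h1 := hd (a * b : centralizer {z}) (mul_mem a.2 b.2)
    rw [hcm, hd a a.2, hd b b.2, ← mul_add] at h1
    have h2 : (l : ℤ) ≠ 0 := by omega
    exact (mul_left_cancel₀ h2 h1).symm
  let ρ : M →* MulAction.stabilizer G (L 0) :=
    { toFun := fun a => ⟨((a : centralizer {z}) * zc ^ (-(d a a.2)) : centralizer {z}), by
        rw [MulAction.mem_stabilizer_iff, hc, hcm, hczp, hd a a.2]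
        congr 1
        ring⟩
      map_one' := by
        apply Subtype.ext
        have h1 := hd (1 : M) (1 : M).2
        have h2 : c ((1 : M) : centralizer {z}) = 0 := hc1
        have h3 : d ((1 : M) : centralizer {z}) (1 : M).2 = 0 := by
          rw [h2] at h1
          rcases mul_eq_zero.1 h1.symm with h4 | h4
          · omega
          · exact h4
        show (((1 : M) : centralizer {z}) * zc ^ (-(d ((1 : M) : centralizer {z}) (1 : M).2)) :
          centralizer {z}).1 = 1
        rw [h3, neg_zero, zpow_zero, mul_one]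
        rfl
      map_mul' := by
        intro a b
        apply Subtype.ext
        show (((a * b : M) : centralizer {z}) * zc ^ (-(d ((a * b : M) : centralizer {z}) (a * b : M).2)) :
          centralizer {z}).1 = ((a : centralizer {z}) * zc ^ (-(d a a.2))).1 *
            ((b : centralizer {z}) * zc ^ (-(d b b.2))).1
        have h1 : d ((a * b : M) : centralizer {z}) (a * b : M).2 = d a a.2 + d b b.2 := hdm a b
        rw [h1, ← Subgroup.coe_mul]
        congr 1
        show (a : centralizer {z}) * b * zc ^ (-(d a a.2 + d b b.2)) = _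
        rw [mul_assoc (a : centralizer {z}) (zc ^ _), ← mul_assoc (zc ^ _) (b : centralizer {z}),
          ← hcomm (b : centralizer {z}), mul_assoc (b : centralizer {z}), ← zpow_add, neg_add,
          mul_assoc] }
  have hρ : ∀ a : M, ρ a = 1 ↔ (a : centralizer {z}) ∈ Z' := by
    intro a
    have h0 : ρ a = 1 ↔ (a : centralizer {z}) * zc ^ (-(d a a.2)) = 1 := by
      constructor
      · intro h1
        exact Subtype.ext (congrArg (fun x : MulAction.stabilizer G (L 0) => (x : G)) h1)
      · intro h1
        exact Subtype.ext (congrArg (fun x : centralizer {z} => (x : G)) h1)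
    rw [h0, hmem', zpow_neg, mul_inv_eq_one]
    constructor
    · intro h1
      exact ⟨_, h1.symm⟩
    · rintro ⟨k, hk⟩
      have h1 := hd a a.2
      have h2 : c (a : centralizer {z}) = k * l := by rw [← hk, hczp]
      rw [h2, mul_comm] at h1
      have h3 : (l : ℤ) ≠ 0 := by omega
      have h4 := mul_left_cancel₀ h3 h1
      rw [← h4, hk]
  let π : M →* M.map (QuotientGroup.mk' Z') := (QuotientGroup.mk' Z').subgroupMap M
  refine C_of_ker hC π ((QuotientGroup.mk' Z').subgroupMap_surjective M) ρ ?_ (hV (L 0))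
  intro a
  rw [hρ, ← QuotientGroup.eq_one_iff (N := Z')]
  exact ⟨fun h => congrArg Subtype.val h, fun h => Subtype.ext h⟩

end Pool.Agent.U709.Vc
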