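import Pool.Agent.U709.VcC

/-!
# Balanced groups acting on trees with virtually cyclic edge stabilizers
-/

set_option autoImplicit false

namespace Pool.Agent.U709.Vc

open SimpleGraph
open Subgroup
open Subgroup.Commensurable (commensurator)
open Pool.Agent.Y110.FJ
open Pool.Agent.N509.TK
open Pool.Agent.N509.TX (AcylF of_fg C_stab C_edge cylF_fg fg_subtree STree)
open Pool.Agent.N431.CE (Es mem_Es Es_comm Es_smul rf rf_LR Rf Rf_gen)
open Pool.Agent.R941.FJ (C_equiv C_le C_cyc mem_sup_normal)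
open Pool.Agent.U385.FJ (QC cyc_index)
open Pool.Agent.Helper270.Tree (TreeAct IsAxis)
open Pool.Agent.Helper705_SA (FixSet fixSet_conv Conv)

variable {C : ∀ (G : Type) [Group G], Prop}
variable {G V : Type} [Group G] [MulAction G V] {T : SimpleGraph V}

/-- the groups in the class such that the quotients of the centralizers of the elements `z` of infinite
order by `⟨z⟩` are also in the class -/
def Zc (C : ∀ (G : Type) [Group G], Prop) (G : Type) [Group G] : Prop :=
  C G ∧ ∀ z : G, Inf z → QC C (centralizer {z}) (zpowers z)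

theorem Inf.of_inj {H : Type} [Group H] (f : H →* G) (hf : Function.Injective f) {z : H}
    (hz : Inf z) : Inf (f z) := by
  intro m hm h1
  rw [← map_pow] at h1
  exact hz m hm (hf (h1.trans (map_one f).symm))

theorem Zc.of_injective (hC : ClosedE C) {H : Type} [Group H] (f : H →* G)
    (hf : Function.Injective f) (h : Zc C G) : Zc C H := by
  refine ⟨hC.base.of_injective _ _ f hf h.1, fun z hz => ?_⟩
  obtain ⟨P, _, g, hP, hg⟩ := h.2 (f z) (hz.of_inj f hf)
  let j : centralizer {z} →* centralizer {f z} :=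
    (f.comp (Subgroup.subtype _)).codRestrict _ (by
      rintro ⟨x, hx⟩
      rw [mem_centralizer_singleton_iff] at hx ⊢
      show f x * f z = f z * f x
      rw [← map_mul, hx, map_mul])
  refine ⟨P, _, g.comp j, hP, fun x => ?_⟩
  refine (hg (j x)).trans ?_
  show f x ∈ zpowers (f z) ↔ (x : H) ∈ zpowers z
  rw [← MonoidHom.map_zpowers]
  exact mem_map_iff_mem hf

/-- the condition for a stabilizer in terms of subgroups of the group -/
theorem Zc.stab {S : Subgroup G} (h : Zc C S) {z : G} (hz : Inf z) (hzS : z ∈ S) :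
    QC C (S ⊓ centralizer {z}) (zpowers z) := by
  obtain ⟨P, _, g, hP, hg⟩ := h.2 ⟨z, hzS⟩ (fun m hm h1 => hz m hm (congrArg Subtype.val h1))
  let j : ↥(S ⊓ centralizer {z}) →* centralizer {(⟨z, hzS⟩ : S)} :=
    { toFun := fun x => ⟨⟨x, x.2.1⟩, by
        rw [mem_centralizer_singleton_iff]
        exact Subtype.ext (mem_centralizer_singleton_iff.1 x.2.2)⟩
      map_one' := rfl
      map_mul' := fun _ _ => rfl }
  refine ⟨P, _, g.comp j, hP, fun x => ?_⟩
  refine (hg (j x)).trans ?_
  rw [mem_zpowers_iff, mem_zpowers_iff]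
  refine exists_congr fun k => ?_
  constructor
  · intro h1
    have h2 := congrArg Subtype.val h1
    rw [Subgroup.coe_zpow] at h2
    exact h2
  · intro h1
    apply Subtype.ext
    rw [Subgroup.coe_zpow]
    exact h1

/-- the elements which map `w` to `w` or `w⁻¹` -/
def Nm (w : G) : Subgroup G where
  carrier := {g | g * w * g⁻¹ = w ∨ g * w * g⁻¹ = w⁻¹}
  one_mem' := Or.inl (by group)
  mul_mem' := by
    rintro a b ha hb
    have h1 : ∀ x, a * b * x * (a * b)⁻¹ = a * (b * x * b⁻¹) * a⁻¹ := fun x => by group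
    have h2 : a * w⁻¹ * a⁻¹ = (a * w * a⁻¹)⁻¹ := by group
    show a * b * w * (a * b)⁻¹ = w ∨ a * b * w * (a * b)⁻¹ = w⁻¹
    rw [h1]
    rcases ha with ha | ha <;> rcases hb with hb | hb <;> rw [hb]
    · exact Or.inl ha
    · rw [h2, ha]; exact Or.inr rfl
    · exact Or.inr ha
    · rw [h2, ha, inv_inv]; exact Or.inl rfl
  inv_mem' := by
    rintro a ha
    show a⁻¹ * w * a⁻¹⁻¹ = w ∨ a⁻¹ * w * a⁻¹⁻¹ = w⁻¹
    rcases ha with ha | ha
    · left
      calc a⁻¹ * w * a⁻¹⁻¹ = a⁻¹ * (a * w * a⁻¹) * a⁻¹⁻¹ := by rw [ha]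
        _ = w := by group
    · right
      calc a⁻¹ * w * a⁻¹⁻¹ = a⁻¹ * (w⁻¹)⁻¹ * a⁻¹⁻¹ := by rw [inv_inv w]
        _ = a⁻¹ * (a * w * a⁻¹)⁻¹ * a⁻¹⁻¹ := by rw [ha]
        _ = w⁻¹ := by group

theorem mem_Nm {w g : G} : g ∈ Nm w ↔ g * w * g⁻¹ = w ∨ g * w * g⁻¹ = w⁻¹ := Iff.rfl

theorem Nm_pow {w g : G} (h : g ∈ Nm w) (k : ℕ) : g ∈ Nm (w ^ k) := by
  have h1 : g * w ^ k * g⁻¹ = (g * w * g⁻¹) ^ k := (conj_pow).symm
  rw [mem_Nm, h1]
  rcases h with h | h
  · left
    rw [h]
  · right
    rw [h, inv_pow]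

/-- the normalizer has the centralizer as a subgroup of finite index -/
theorem C_Nm (hC : ClosedE C) {w : G} (h : C ↥(centralizer {w})) : C (Nm w) := by
  classical
  obtain ⟨S, hS⟩ : ∃ S : Subgroup (Nm w), S = (centralizer {w}).subgroupOf (Nm w) := ⟨_, rfl⟩
  have hmem : ∀ g : Nm w, g ∈ S ↔ (g : G) * w * (g : G)⁻¹ = w := by
    intro g
    rw [hS, mem_subgroupOf, mem_centralizer_singleton_iff, mul_inv_eq_iff_eq_mul]
  have hfin : S.FiniteIndex := by
    have hw : Set.Finite ({w, w⁻¹} : Set G) := Set.toFinite _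
    have : Finite ({w, w⁻¹} : Set G) := hw
    have h1 : Finite (Nm w ⧸ S) := by
      refine Finite.of_injective (β := ({w, w⁻¹} : Set G)) (fun q => Quotient.liftOn' q
        (fun g : Nm w => ⟨(g : G) * w * (g : G)⁻¹, g.2⟩) ?_) ?_
      · intro a b hab
        apply Subtype.ext
        have h2 : (a⁻¹ * b : Nm w) ∈ S := QuotientGroup.leftRel_apply.1 hab
        rw [hmem] at h2
        show (a : G) * w * (a : G)⁻¹ = (b : G) * w * (b : G)⁻¹
        push_cast at h2
        calc (a : G) * w * (a : G)⁻¹ = (a : G) * ((a : G)⁻¹ * b * w * ((a : G)⁻¹ * b)⁻¹) * (a : G)⁻¹ := by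
              rw [h2]
          _ = (b : G) * w * (b : G)⁻¹ := by group
      · intro p q
        induction p using QuotientGroup.induction_on with
        | H a =>
          induction q using QuotientGroup.induction_on with
          | H b =>
            intro hab
            have h2 : (a : G) * w * (a : G)⁻¹ = (b : G) * w * (b : G)⁻¹ := congrArg Subtype.val hab
            rw [QuotientGroup.eq, hmem]
            push_cast
            calc (a : G)⁻¹ * b * w * ((a : G)⁻¹ * b)⁻¹ = (a : G)⁻¹ * ((b : G) * w * (b : G)⁻¹) * a := by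
                  group
              _ = (a : G)⁻¹ * ((a : G) * w * (a : G)⁻¹) * a := by rw [h2]
              _ = w := by group
    exact Subgroup.finiteIndex_of_finite_quotient
  refine hC.base.finiteIndex _ S hfin ?_
  rw [hS]
  let j : (centralizer {w}).subgroupOf (Nm w) →* centralizer {w} :=
    ((Nm w).subtype.comp (Subgroup.subtype _)).codRestrict _ (fun x => x.2)
  refine hC.base.of_injective _ _ j ?_ h
  intro a b hab
  have h1 : (a.1.1 : G) = b.1.1 := congrArg (fun z : centralizer {w} => (z : G)) hab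
  exact Subtype.ext (Subtype.ext h1)

/-- a common exponent -/
theorem exists_exp {z : G} (F : Finset G) (hF : ∀ s ∈ F, ∃ a : ℕ, a ≠ 0 ∧ s ∈ Nm (z ^ a)) :
    ∃ a : ℕ, a ≠ 0 ∧ ∀ s ∈ F, s ∈ Nm (z ^ a) := by
  classical
  induction F using Finset.induction_on with
  | empty => exact ⟨1, one_ne_zero, fun s hs => absurd hs (Finset.notMem_empty s)⟩
  | insert x F _ ih =>
    obtain ⟨a, ha, ha'⟩ := ih fun s hs => hF s (Finset.mem_insert_of_mem hs)
    obtain ⟨b, hb, hb'⟩ := hF x (Finset.mem_insert_self x F)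
    refine ⟨a * b, mul_ne_zero ha hb, fun s hs => ?_⟩
    rcases Finset.mem_insert.1 hs with rfl | hs
    · rw [mul_comm, pow_mul]
      exact Nm_pow hb' a
    · rw [pow_mul]
      exact Nm_pow (ha' s hs) b

/-- virtually cyclic stabilizers in subgroups -/
theorem VCyc.sub {E : Subgroup G} (hE : VCyc E) (H : Subgroup G) : VCyc (E.subgroupOf H) := by
  obtain ⟨c, hc, hi⟩ := hE.mono (inf_le_left : E ⊓ H ≤ E)
  refine ⟨⟨c, hc.2⟩, hc.1, ?_⟩
  have h1 := relIndex_map_map_of_injective (zpowers (⟨c, hc.2⟩ : H)) (E.subgroupOf H)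
    H.subtype_injective
  rw [← h1, MonoidHom.map_zpowers, subgroupOf_map_subtype]
  exact hi

theorem relIndex_of_inf {E D : Subgroup G} (hE : VCyc E) (hD : D ≤ E) (hinf : Infinite D) :
    D.relIndex E ≠ 0 := by
  obtain ⟨c, hc, hci, -⟩ := exists_inf (hE.mono hD) hinf
  have h1 := vc_inf hE (hD hc) hci
  exact fun h => h1 (relIndex_eq_zero_of_le_left (by rwa [zpowers_le]) h)

end Pool.Agent.U709.Vc
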