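import Pool.Agent.U709.VcD

/-!
# Balanced groups acting on trees with virtually cyclic edge stabilizers: the theorem
-/

set_option autoImplicit false

namespace Pool.Agent.U709.Vc

open SimpleGraph
open Subgroup
open scoped Pointwise
open Subgroup.Commensurable (commensurator)
open Pool.Agent.Y110.FJ
open Pool.Agent.N509.TK
open Pool.Agent.N509.TX (AcylF of_fg C_stab C_edge cylF_fg fg_subtree STree)
open Pool.Agent.N431.CE (Es mem_Es Es_comm Es_smul rf rf_LR Rf Rf_gen)
open Pool.Agent.R941.FJ (C_equiv C_le C_cyc mem_sup_normal)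
open Pool.Agent.U385.FJ (QC cyc_index)
open Pool.Agent.Helper270.Tree (TreeAct IsAxis)
open Pool.Agent.Helper705_SA (FixSet fixSet_conv Conv)

variable {C : ∀ (G : Type) [Group G], Prop}
variable {G V : Type} [Group G] [MulAction G V] {T : SimpleGraph V}

/-- a finite subgroup of an edge stabilizer of a subgroup, up to translation -/
theorem card_tr' (H : Subgroup G) (D : Subgroup H) (hD : Finite D) (h : H) {u v : V}
    (hDu : ∀ g ∈ D, (g : G) • u = u ∧ (g : G) • v = v) {m : ℕ}
    (hm : ∀ D' : Subgroup G, D' ≤ Es G ((h : G) • u) ((h : G) • v) → Finite D' → Nat.card D' ≤ m) :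
    Nat.card D ≤ m := by
  have hinj : Function.Injective ((MulAut.conj (h : G)).toMonoidHom.comp H.subtype) :=
    (MulAut.conj (h : G)).injective.comp H.subtype_injective
  let e := D.equivMapOfInjective _ hinj
  have h1 : Finite (D.map ((MulAut.conj (h : G)).toMonoidHom.comp H.subtype)) :=
    Finite.of_equiv D e.toEquiv
  rw [Nat.card_congr e.toEquiv]
  refine hm _ ?_ h1
  rintro _ ⟨g, hg, rfl⟩
  exact Es_mem_conj.2 (hDu g hg)

/-- **balanced groups acting on trees with virtually cyclic edge stabilizers** -/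
theorem vc_C (hC : ClosedE C) (hS : ∀ (G : Type) [Group G], Group.IsSolvable G → C G)
    (hA : AcylF C) (h : TreeAct G T) (hE : ∀ u v, T.Adj u v → VCyc (Es G u v))
    (hV : ∀ v : V, Zc C ↥(MulAction.stabilizer G v))
    (hbal : ∀ u v, T.Adj u v → ∀ z ∈ Es G u v, Inf z → ∀ (g : G) (m n : ℤ),
      g * z ^ m * g⁻¹ = z ^ n → m = n ∨ m = -n) : C G := by
  classical
  refine of_fg hC fun H hfg => ?_
  obtain ⟨o⟩ := h.isTree.connected.nonempty
  have hactH : ∀ (g : H) (u v : V), T.Adj u v → T.Adj (g • u) (g • v) := fun g u v => h.adj g u v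
  obtain ⟨W, _, T', ι, Φ, hST, -, hΦ, hfin⟩ := fg_subtree h.isTree hactH hfg o
  -- the bound for finite subgroups of edge stabilizers
  obtain ⟨bd, hbd⟩ : ∃ bd : V → V → ℕ, ∀ u v, T.Adj u v → ∀ D : Subgroup G, D ≤ Es G u v →
      Finite D → Nat.card D ≤ bd u v := by
    refine ⟨fun u v => if huv : T.Adj u v then (vc_bound (hE u v huv)).choose else 0, ?_⟩
    intro u v huv D hD hDf
    beta_reduce
    rw [dif_pos huv]
    exact (vc_bound (hE u v huv)).choose_spec D hD hDf
  obtain ⟨n, hn⟩ := exists_bound Φ bd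
  have hEs : ∀ (x y : W) (g : H), g ∈ Es H x y → (g : G) • ι x = ι x ∧ (g : G) • ι y = ι y :=
    fun x y g hg => ⟨hST.fix.1 hg.1, hST.fix.1 hg.2⟩
  have hEH : ∀ x y, T'.Adj x y → VCyc (Es H x y) := by
    intro x y hxy
    have h1 : Es H x y = (Es G (ι x) (ι y)).subgroupOf H := by
      ext g
      constructor
      · intro hg
        exact hEs x y g hg
      · intro hg
        exact ⟨hST.fix.2 hg.1, hST.fix.2 hg.2⟩
    rw [h1]
    exact (hE _ _ (hST.adj x y hxy)).sub H
  have hVW : ∀ w : W, C ↥(MulAction.stabilizer H w) := by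
    intro w
    rw [hST.stab w]
    exact C_stab hC H _ (hV _).1
  refine cylF_fg hC hA hfg hST.tree hST.act (rf_LR (T := T')) n ?_ hVW ?_
  · intro w a b ha hb hab F hF
    obtain ⟨D, hD⟩ : ∃ D : Subgroup H, D = Es H w a ⊓ Es H w b := ⟨_, rfl⟩
    have hDf : Finite D := by
      by_contra hinf
      rw [not_finite_iff_infinite] at hinf
      have h1 : D ≤ Es H w a := by rw [hD]; exact inf_le_left
      have h2 : D ≤ Es H w b := by rw [hD]; exact inf_le_right
      have h3 := relIndex_of_inf (hEH w a ha) h1 hinf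
      have h4 := relIndex_of_inf (hEH w b hb) h2 hinf
      refine hab (Or.inr ⟨?_, ?_, ?_, ?_⟩)
      · exact Infinite.of_injective _ (inclusion_injective h1)
      · exact Infinite.of_injective _ (inclusion_injective h2)
      · exact fun h0 => h4 (relIndex_eq_zero_of_le_left h1 h0)
      · exact fun h0 => h3 (relIndex_eq_zero_of_le_left h2 h0)
    have h1 : F.card ≤ Nat.card D := by
      refine card_le hDf F fun g hg => ?_
      obtain ⟨h1, h2, h3⟩ := hF g hg
      rw [hD]
      exact ⟨⟨h1, h2⟩, ⟨h1, h3⟩⟩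
    have key : ∀ (k : H) (u v : V), (∀ g ∈ D, (g : G) • u = u ∧ (g : G) • v = v) →
        ((k : G) • u, (k : G) • v) ∈ Φ → F.card ≤ n := by
      intro k u v hD2 h2
      have h3 := card_tr' H D hDf k hD2 (hbd _ _ (hΦ _ h2))
      exact h1.trans (h3.trans (hn _ _ h2))
    have hD1 : ∀ g ∈ D, (g : G) • ι w = ι w ∧ (g : G) • ι a = ι a := by
      intro g hg
      rw [hD] at hg
      exact hEs w a g hg.1
    obtain ⟨k, h2 | h2⟩ := hfin w a ha
    · exact key k _ _ hD1 h2
    · exact key k _ _ (fun g hg => (hD1 g hg).symm) h2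
  · intro y K hK
    obtain ⟨⟨⟨v0, a0⟩, h0⟩, hy⟩ := Quotient.exists_rep y
    have h0 : T'.Adj v0 a0 := h0
    have hy : cy (rf H) h0 = y := hy
    by_cases hinf0 : Infinite (Es H v0 a0)
    · obtain ⟨z', hz'E, hz'i, hz'r⟩ := exists_inf (hEH v0 a0 h0) hinf0
      have hzE : (z' : G) ∈ Es G (ι v0) (ι a0) := hEs v0 a0 z' hz'E
      have hzi : Inf (z' : G) := hz'i.of_inj H.subtype H.subtype_injective
      have hcom : ∀ g ∈ K, g ∈ commensurator (Es H v0 a0) := by
        intro g hg
        rw [Commensurable.commensurator_mem_iff, ← Es_smul]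
        have h1 := hK g hg v0 a0 h0 hy
        exact (Rf_gen (p := dt (hST.act g v0 a0 h0)) (q := dt h0)
          (Quotient.exact (h1.trans hy.symm))).comm
      have hNm : ∀ g ∈ K, ∃ a : ℕ, a ≠ 0 ∧ (g : G) ∈ Nm ((z' : G) ^ a) := by
        intro g hg
        have h1 := hcom g hg
        rw [Commensurable.commensurator_mem_iff] at h1
        have h2 : g * z' * g⁻¹ ∈ ConjAct.toConjAct g • Es H v0 a0 := by
          rw [Subgroup.mem_smul_pointwise_iff_exists]
          exact ⟨z', hz'E, rfl⟩
        obtain ⟨m, hm, -, hm2⟩ := exists_pow_mem_of_relIndex_ne_zero h1.2 h2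
        obtain ⟨m', hm', -, hm2'⟩ := exists_pow_mem_of_relIndex_ne_zero hz'r hm2.1
        obtain ⟨b, hb⟩ := hm2'.1
        have hb : z' ^ b = ((g * z' * g⁻¹) ^ m) ^ m' := hb
        have h3 : (g : G) * (z' : G) ^ ((m * m' : ℕ) : ℤ) * (g : G)⁻¹ = (z' : G) ^ b := by
          have h4 := congrArg (fun x : H => (x : G)) hb
          have h5 : (z' : G) ^ b = (((g : G) * z' * (g : G)⁻¹) ^ m) ^ m' := h4
          rw [h5, ← pow_mul, conj_pow, zpow_natCast]
        refine ⟨m * m', Nat.mul_ne_zero hm.ne' hm'.ne', ?_⟩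
        rw [mem_Nm, ← zpow_natCast, h3]
        rcases hbal _ _ (hST.adj _ _ h0) _ hzE hzi g _ _ h3 with h4 | h4
        · left
          rw [h4]
        · right
          rw [h4, zpow_neg, inv_inv]
      refine of_fg hC fun K2 hK2 => ?_
      obtain ⟨F, hF⟩ := Group.fg_def.1 hK2
      obtain ⟨a, ha, haF⟩ := exists_exp (z := (z' : G)) (F.image fun x : K2 => (x : G)) (by
        intro s hs
        obtain ⟨x, -, rfl⟩ := Finset.mem_image.1 hs
        exact hNm _ x.1.2)
      have hall : ∀ x : K2, (x : G) ∈ Nm ((z' : G) ^ a) := by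
        let f : K2 →* G := (H.subtype.comp K.subtype).comp K2.subtype
        have h1 : (⊤ : Subgroup K2) ≤ (Nm ((z' : G) ^ a)).comap f := by
          rw [← hF, closure_le]
          intro x hx
          exact haF _ (Finset.mem_image_of_mem _ hx)
        exact fun x => h1 (mem_top x)
      have hw : Inf ((z' : G) ^ a) := hzi.pow ha
      have hcent : C ↥(centralizer {(z' : G) ^ a}) := by
        refine C_of_QC hC hS (z := (z' : G) ^ a) (cent_ell hC hA h hE hw ?_ ?_)
        · intro v hv
          exact (hV v).stab hw hv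
        · exact ⟨ι v0, (MulAction.stabilizer G (ι v0)).pow_mem hzE.1 a⟩
      let j : K2 →* Nm ((z' : G) ^ a) :=
        ((H.subtype.comp K.subtype).comp K2.subtype).codRestrict _ hall
      refine hC.base.of_injective _ _ j ?_ (C_Nm hC hcent)
      intro x x' hx
      have h1 : (x : G) = x' := congrArg (fun t : Nm ((z' : G) ^ a) => (t : G)) hx
      exact Subtype.ext (Subtype.ext (Subtype.ext h1))
    · subst hy
      refine C_edge hC v0 a0 (hVW v0) K fun g hg => ?_
      have h1 := hK g hg v0 a0 h0 rfl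
      rcases Rf_gen (p := dt (hST.act g v0 a0 h0)) (q := dt h0) (Quotient.exact h1) with
        (h | h) | ⟨_, h, _⟩
      · exact Or.inl ⟨(congrArg Prod.fst h).symm, (congrArg Prod.snd h).symm⟩
      · exact Or.inr ⟨(congrArg Prod.snd h).symm, (congrArg Prod.fst h).symm⟩
      · exact absurd h hinf0

/-- the class of the groups with good centralizers is closed under these actions -/
theorem vc_main (hC : ClosedE C) (hS : ∀ (G : Type) [Group G], Group.IsSolvable G → C G)
    (hA : AcylF C) (h : TreeAct G T) (hE : ∀ u v, T.Adj u v → VCyc (Es G u v))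
    (hV : ∀ v : V, Zc C ↥(MulAction.stabilizer G v))
    (hbal : ∀ u v, T.Adj u v → ∀ z ∈ Es G u v, Inf z → ∀ (g : G) (m n : ℤ),
      g * z ^ m * g⁻¹ = z ^ n → m = n ∨ m = -n) : Zc C G := by
  refine ⟨vc_C hC hS hA h hE hV hbal, fun z hz => ?_⟩
  by_cases hell : ∃ v : V, z • v = v
  · exact cent_ell hC hA h hE hz (fun v hv => (hV v).stab hz hv) hell
  · push Not at hell
    exact cent_hyp hC h (fun v => (hV v).1) hell

end Pool.Agent.U709.Vc
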