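import Pool.Agent.U709.VcE

/-!
# Groups with good centralizers: solvable and linear groups, closure properties
-/

set_option autoImplicit false

namespace Pool.Agent.U709.Vc

open Subgroup
open Pool.Agent.Y110.FJ
open Pool.Agent.N509.TX (AcylF of_fg of_fg_mem)
open Pool.Agent.N431.CE (Es mem_Es)
open Pool.Agent.R941.FJ (C_equiv C_le C_cyc mem_sup_normal)
open Pool.Agent.U385.FJ (QC)
open Pool.Agent.Helper270.Tree (TreeAct)

variable {C : ∀ (G : Type) [Group G], Prop}
variable {G : Type} [Group G]

theorem cen_comm {z : G} (a : centralizer {z}) : (a : G) * z = z * a :=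
  Subgroup.mem_centralizer_singleton_iff.1 a.2

theorem cen_normal (z : G) : ((zpowers z).subgroupOf (centralizer {z})).Normal := by
  refine ⟨fun n hn g => ?_⟩
  rw [mem_subgroupOf] at hn ⊢
  obtain ⟨k, hk⟩ := hn
  have hk : z ^ k = (n : G) := hk
  have h1 : (g : G) * n = n * g := by
    rw [← hk]
    exact (Commute.zpow_right (show Commute (g : G) z from cen_comm g) k).eq
  push_cast
  rw [h1, mul_inv_cancel_right, ← hk]
  exact ⟨k, rfl⟩

/-- the quotient of the centralizer -/
theorem QC_mk {z : G} (h : ∀ _ : ((zpowers z).subgroupOf (centralizer {z})).Normal,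
    C (centralizer {z} ⧸ (zpowers z).subgroupOf (centralizer {z}))) :
    QC C (centralizer {z}) (zpowers z) := by
  have hN := cen_normal z
  exact ⟨_, inferInstance, QuotientGroup.mk' _, h hN, fun x =>
    (QuotientGroup.eq_one_iff x).trans mem_subgroupOf⟩

/-- solvable groups -/
theorem zc_solv (hS : ∀ (G : Type) [Group G], Group.IsSolvable G → C G) (hG : Group.IsSolvable G) :
    Zc C G := by
  refine ⟨hS G hG, fun z _ => QC_mk fun hN => hS _ ?_⟩
  have h1 : Group.IsSolvable (centralizer {z}) :=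
    Group.isSolvable_of_isSolvable_injective (Subgroup.subtype_injective _)
  exact Group.isSolvable_of_surjective (QuotientGroup.mk'_surjective _)

/-- all finitely generated subgroups -/
theorem zc_fg (hC : ClosedE C) (h : ∀ H : Subgroup G, Group.FG H → Zc C H) : Zc C G := by
  refine ⟨of_fg hC fun H hH => (h H hH).1, fun z hz => QC_mk fun hN => ?_⟩
  classical
  refine of_fg hC fun K hK => ?_
  obtain ⟨F, hF⟩ := (Group.fg_iff_subgroup_fg K).1 hK
  obtain ⟨S, hS⟩ : ∃ S : Finset G, S = (F.image fun q => (q.out : G)) ∪ {z} := ⟨_, rfl⟩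
  obtain ⟨H, hH⟩ : ∃ H : Subgroup G, H = closure (S : Set G) := ⟨_, rfl⟩
  have hHz : H ≤ centralizer {z} := by
    rw [hH, closure_le]
    intro x hx
    rw [hS, Finset.mem_coe, Finset.mem_union, Finset.mem_image, Finset.mem_singleton] at hx
    rcases hx with ⟨q, -, rfl⟩ | rfl
    · exact q.out.2
    · exact mem_centralizer_singleton_iff.2 rfl
  have hzH : z ∈ H := by
    rw [hH]
    exact subset_closure (by rw [hS]; simp)
  obtain ⟨P, _, g, hP, hg⟩ := (h H ((Group.fg_iff_subgroup_fg H).2 ⟨S, hH.symm⟩)).2 ⟨z, hzH⟩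
    (fun m hm h1 => hz m hm (congrArg Subtype.val h1))
  let j : H →* centralizer {(⟨z, hzH⟩ : H)} :=
    (MonoidHom.id H).codRestrict _ (by
      intro x
      rw [mem_centralizer_singleton_iff]
      exact Subtype.ext (mem_centralizer_singleton_iff.1 (hHz x.2)))
  let π : H →* centralizer {z} ⧸ (zpowers z).subgroupOf (centralizer {z}) :=
    (QuotientGroup.mk' _).comp (inclusion hHz)
  have h1 : C π.range := by
    refine C_of_ker hC π.rangeRestrict π.rangeRestrict_surjective (g.comp j) ?_ hP
    intro x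
    have h2 : π.rangeRestrict x = 1 ↔ π x = 1 :=
      ⟨fun h => congrArg Subtype.val h, fun h => Subtype.ext h⟩
    have h3 : π x = 1 ↔ (x : G) ∈ zpowers z := (QuotientGroup.eq_one_iff _).trans mem_subgroupOf
    rw [h2, h3]
    refine Iff.trans ?_ (hg (j x)).symm
    rw [mem_zpowers_iff, mem_zpowers_iff]
    refine exists_congr fun k => ?_
    constructor
    · intro h1
      apply Subtype.ext
      rw [Subgroup.coe_zpow]
      exact h1
    · intro h1
      have h2 := congrArg Subtype.val h1
      rw [Subgroup.coe_zpow] at h2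
      exact h2
  refine C_le hC.base ?_ h1
  rw [← hF, closure_le]
  intro q hq
  have h2 : (q.out : G) ∈ H := by
    rw [hH]
    refine subset_closure ?_
    rw [hS, Finset.mem_coe, Finset.mem_union]
    exact Or.inl (Finset.mem_image_of_mem _ hq)
  exact ⟨⟨q.out, h2⟩, Quotient.out_eq' q⟩

/-- overgroups of finite index -/
theorem zc_index (hC : ClosedE C) (H : Subgroup G) (hH : H.FiniteIndex) (h : Zc C H) : Zc C G := by
  classical
  refine ⟨hC.base.finiteIndex G H hH h.1, fun z hz => QC_mk fun hN => ?_⟩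
  have hex : ∃ m : ℕ, 0 < m ∧ z ^ m ∈ H := by
    obtain ⟨m, hm, -, h1⟩ := exists_pow_mem_of_index_ne_zero hH.index_ne_zero z
    exact ⟨m, hm, h1⟩
  obtain ⟨hm, hzm⟩ := Nat.find_spec hex
  set m := Nat.find hex with hmdef
  have hmin : ∀ i : ℤ, z ^ i ∈ H → (m : ℤ) ∣ i := by
    intro i hi
    have h1 : z ^ (i % m) ∈ H := by
      have h2 : i % m = i - m * (i / m) := Int.emod_def i m
      rw [h2, zpow_sub, zpow_mul, zpow_natCast]
      exact mul_mem hi (inv_mem (zpow_mem hzm _))
    by_contra hnd
    have h3 : 0 ≤ i % m := Int.emod_nonneg _ (by omega)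
    have h4 : i % m < m := Int.emod_lt_of_pos _ (by omega)
    have h5 : i % m ≠ 0 := fun h => hnd (Int.dvd_of_emod_eq_zero h)
    obtain ⟨r, hr⟩ := Int.eq_ofNat_of_zero_le h3
    rw [hr] at h1 h4 h5
    rw [zpow_natCast] at h1
    exact Nat.find_min hex (m := r) (by omega) ⟨by omega, h1⟩
  obtain ⟨P, _, g, hP, hg⟩ := h.2 ⟨z ^ m, hzm⟩ (fun k hk h1 =>
    hz.pow hm.ne' k hk (congrArg Subtype.val h1))
  obtain ⟨A, hA⟩ : ∃ A : Subgroup (centralizer {z}), A = H.subgroupOf (centralizer {z}) := ⟨_, rfl⟩
  have hAm : ∀ x : centralizer {z}, x ∈ A → (x : G) ∈ H := by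
    intro x hx
    rw [hA] at hx
    exact hx
  have hAf : A.FiniteIndex := by
    rw [hA]
    infer_instance
  obtain ⟨π, hπ⟩ : ∃ π : centralizer {z} →* centralizer {z} ⧸ (zpowers z).subgroupOf (centralizer {z}),
    π = QuotientGroup.mk' _ := ⟨_, rfl⟩
  have hπs : Function.Surjective π := by rw [hπ]; exact QuotientGroup.mk'_surjective _
  have hmfi : (A.map π).FiniteIndex := by
    refine ⟨?_⟩
    have h1 := A.index_map_dvd (f := π) hπs
    exact fun h0 => hAf.index_ne_zero (Nat.eq_zero_of_zero_dvd (h0 ▸ h1))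
  refine hC.base.finiteIndex _ _ hmfi ?_
  let j : A →* centralizer {(⟨z ^ m, hzm⟩ : H)} :=
    { toFun := fun x => ⟨⟨x, hAm x x.2⟩, by
        rw [mem_centralizer_singleton_iff]
        apply Subtype.ext
        exact (Commute.pow_right (show Commute (x : G) z from cen_comm x.1) m).eq⟩
      map_one' := rfl
      map_mul' := fun _ _ => rfl }
  refine C_of_ker hC (π.subgroupMap A) (π.subgroupMap_surjective A) (g.comp j) ?_ hP
  intro x
  have h2 : π.subgroupMap A x = 1 ↔ π x = 1 :=
    ⟨fun h => congrArg Subtype.val h, fun h => Subtype.ext h⟩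
  have h3 : π x = 1 ↔ (x : G) ∈ zpowers z := by
    rw [hπ]
    exact (QuotientGroup.eq_one_iff _).trans mem_subgroupOf
  rw [h2, h3]
  refine Iff.trans ?_ (hg (j x)).symm
  rw [mem_zpowers_iff, mem_zpowers_iff]
  constructor
  · rintro ⟨k, hk⟩
    have h4 : z ^ k ∈ H := by
      rw [hk]
      exact hAm x x.2
    obtain ⟨i, hi⟩ := hmin k h4
    refine ⟨i, ?_⟩
    apply Subtype.ext
    rw [Subgroup.coe_zpow]
    show (z ^ m) ^ i = (x : G)
    rw [← zpow_natCast, ← zpow_mul, ← hi, hk]
  · rintro ⟨k, hk⟩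
    have h4 := congrArg Subtype.val hk
    rw [Subgroup.coe_zpow] at h4
    have h4 : (z ^ m) ^ k = (x : G) := h4
    exact ⟨m * k, by rw [zpow_mul, zpow_natCast, h4]⟩

/-- linear groups -/
theorem zc_gl (hC : ClosedE C) (hS : ∀ (G : Type) [Group G], Group.IsSolvable G → C G)
    {k : Type} [Field k] (hk : ∀ m : ℕ, C (Matrix.GeneralLinearGroup (Fin m) k)) (n : ℕ) :
    Zc C (Matrix.GeneralLinearGroup (Fin n) k) := by
  refine ⟨hk n, fun z _ => ?_⟩
  let W : Submodule k (Matrix (Fin n) (Fin n) k) :=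
    { carrier := {x | x * z.1 = z.1 * x}
      add_mem' := by
        intro a b ha hb
        show (a + b) * z.1 = z.1 * (a + b)
        rw [add_mul, mul_add, ha, hb]
      zero_mem' := by
        show (0 : Matrix (Fin n) (Fin n) k) * z.1 = z.1 * 0
        rw [zero_mul, mul_zero]
      smul_mem' := by
        intro c a ha
        show (c • a) * z.1 = z.1 * (c • a)
        rw [smul_mul_assoc, mul_smul_comm, ha] }
  have hW : ∀ x, x ∈ W ↔ x * z.1 = z.1 * x := fun x => Iff.rfl
  have hcen : ∀ a : centralizer {z}, a.1.1 * z.1 = z.1 * a.1.1 := fun a =>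
    congrArg Units.val (cen_comm a)
  have hcen' : ∀ a : centralizer {z}, (a.1⁻¹).1 * z.1 = z.1 * (a.1⁻¹).1 := fun a =>
    congrArg Units.val (cen_comm a⁻¹)
  have hWa : ∀ (a : centralizer {z}) (x : Matrix (Fin n) (Fin n) k), x ∈ W →
      a.1.1 * x * (a.1⁻¹).1 ∈ W := by
    intro a x hx
    rw [hW] at hx ⊢
    rw [mul_assoc, hcen', ← mul_assoc, mul_assoc a.1.1, hx, ← mul_assoc, hcen, mul_assoc, mul_assoc,
      mul_assoc]
  let ρ0 : centralizer {z} →* Module.End k W :=
    { toFun := fun a =>
        { toFun := fun x => ⟨a.1.1 * x.1 * (a.1⁻¹).1, hWa a x.1 x.2⟩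
          map_add' := by
            intro x y
            apply Subtype.ext
            show a.1.1 * (x.1 + y.1) * (a.1⁻¹).1 = _
            rw [mul_add, add_mul]
            rfl
          map_smul' := by
            intro c x
            apply Subtype.ext
            show a.1.1 * (c • x.1) * (a.1⁻¹).1 = c • (a.1.1 * x.1 * (a.1⁻¹).1)
            rw [mul_smul_comm, smul_mul_assoc] }
      map_one' := by
        ext1 x
        apply Subtype.ext
        show (1 : Matrix.GeneralLinearGroup (Fin n) k).1 * x.1 * ((1 : Matrix.GeneralLinearGroup (Fin n) k)⁻¹).1 = x.1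
        simp
      map_mul' := by
        intro a b
        ext1 x
        apply Subtype.ext
        show (a.1 * b.1).1 * x.1 * ((a.1 * b.1)⁻¹).1 = a.1.1 * (b.1.1 * x.1 * (b.1⁻¹).1) * (a.1⁻¹).1
        rw [mul_inv_rev, Units.val_mul, Units.val_mul]
        simp only [mul_assoc] }
  let ρ : centralizer {z} →* (Module.End k W)ˣ := ρ0.toHomUnits
  have hρ : ∀ a, ρ a = 1 ↔ ∀ x ∈ W, a.1.1 * x = x * a.1.1 := by
    intro a
    have h1 : ρ a = 1 ↔ ρ0 a = 1 := by
      rw [Units.ext_iff]
      rfl
    rw [h1]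
    constructor
    · intro h2 x hx
      have h3 := congrArg Subtype.val (LinearMap.congr_fun h2 ⟨x, hx⟩)
      have h4 : a.1.1 * x * (a.1⁻¹).1 = x := h3
      calc a.1.1 * x = a.1.1 * x * ((a.1⁻¹).1 * a.1.1) := by
            rw [← Units.val_mul, inv_mul_cancel, Units.val_one, mul_one]
        _ = x * a.1.1 := by rw [← mul_assoc, h4]
    · intro h2
      ext1 x
      apply Subtype.ext
      show a.1.1 * x.1 * (a.1⁻¹).1 = x.1
      rw [h2 x.1 x.2, mul_assoc, ← Units.val_mul, mul_inv_cancel, Units.val_one, mul_one]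
  have hCU : C (Module.End k W)ˣ := by
    let b := Module.finBasis k W
    let e : (Module.End k W)ˣ →* Matrix.GeneralLinearGroup (Fin (Module.finrank k W)) k :=
      Units.map ((LinearMap.toMatrixAlgEquiv b : Module.End k W →* Matrix _ _ k))
    refine hC.base.of_injective _ _ e ?_ (hk _)
    apply Units.map_injective
    exact (LinearMap.toMatrixAlgEquiv b).injective
  refine QC_mk fun hN => ?_
  have hle : (zpowers z).subgroupOf (centralizer {z}) ≤ ρ.ker := by
    intro a ha
    rw [mem_subgroupOf] at ha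
    obtain ⟨i, hi⟩ := ha
    have h1 : (⟨z, mem_centralizer_singleton_iff.2 rfl⟩ : centralizer {z}) ^ i = a :=
      Subtype.ext (by
        rw [Subgroup.coe_zpow]
        exact hi)
    have h2 : ρ (⟨z, mem_centralizer_singleton_iff.2 rfl⟩ : centralizer {z}) = 1 :=
      (hρ _).2 fun x hx => ((hW x).1 hx).symm
    rw [MonoidHom.mem_ker, ← h1, map_zpow, h2, one_zpow]
  let ψ := QuotientGroup.lift ((zpowers z).subgroupOf (centralizer {z})) ρ hle
  refine solv_ker hC hS ψ.rangeRestrict ψ.rangeRestrict_surjective ?_ ?_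
  · apply Group.isSolvable_of_comm
    rintro ⟨a, ha⟩ ⟨b, hb⟩
    obtain ⟨x, rfl⟩ := QuotientGroup.mk_surjective a
    obtain ⟨y, rfl⟩ := QuotientGroup.mk_surjective b
    have hx : ρ x = 1 := congrArg Subtype.val ha
    have hy : ρ y = 1 := congrArg Subtype.val hb
    apply Subtype.ext
    show (QuotientGroup.mk (x * y) : _ ⧸ _) = QuotientGroup.mk (y * x)
    congr 1
    apply Subtype.ext
    apply Units.ext
    exact (hρ x).1 hx y.1.1 (hcen y)
  · exact hC.base.of_injective _ _ ψ.range.subtype ψ.range.subtype_injective hCU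

/-- no element of infinite order has conjugate powers with different absolute exponents -/
def Bal (G : Type) [Group G] : Prop :=
  ∀ z g : G, Inf z → ∀ m n : ℤ, g * z ^ m * g⁻¹ = z ^ n → m = n ∨ m = -n

theorem Bal.of_injective {H : Type} [Group H] (h : Bal G) (f : H →* G)
    (hf : Function.Injective f) : Bal H := by
  intro z g hz m n h1
  refine h (f z) (f g) (hz.of_inj f hf) m n ?_
  rw [← map_zpow, ← map_zpow, ← map_inv, ← map_mul, ← map_mul, h1]

/-- the groups with a hierarchy over virtually cyclic groups -/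
inductive VcHier (C : ∀ (G : Type) [Group G], Prop) : ∀ (G : Type) [Group G], Prop
  | base (G : Type) [Group G] : C G → VcHier C G
  | tree (G V : Type) [Group G] [MulAction G V] (T : SimpleGraph V) : TreeAct G T →
      (∀ v : V, VcHier C ↥(MulAction.stabilizer G v)) →
      (∀ u v : V, T.Adj u v → VCyc (Es G u v)) → VcHier C G

theorem hier (hC : ClosedE C) (hS : ∀ (G : Type) [Group G], Group.IsSolvable G → C G)
    (hA : AcylF C) {G : Type} [Group G] (h : VcHier (Zc C) G) (hG : Bal G) : Zc C G := by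
  induction h with
  | base G h => exact h
  | tree G V T hT _ hE ih =>
    refine vc_main hC hS hA hT hE (fun v => ih v ?_) ?_
    · exact hG.of_injective (MulAction.stabilizer G v).subtype (Subgroup.subtype_injective _)
    · exact fun u v _ z _ hz g m n h1 => hG z g hz m n h1

end Pool.Agent.U709.Vc
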