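import Pool.Agent.U709.VcF

/-!
# Homogeneous length functions and balanced groups acting on trees
-/

set_option autoImplicit false

namespace Pool.Agent.U709.Vc

open SimpleGraph
open Subgroup
open Pool.Agent.Helper270.Tree (TreeAct IsAxis exists_geod)

variable {G : Type} [Group G]

theorem Inf.zpow {z : G} (h : Inf z) {k : ℤ} (hk : k ≠ 0) : Inf (z ^ k) := by
  intro m hm h1
  have h2 : z ^ (k * (m : ℤ)) = z ^ (0 : ℤ) := by
    rw [zpow_mul, zpow_natCast, h1, zpow_zero]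
  have h3 := h.zpow_inj h2
  rcases mul_eq_zero.1 h3 with h4 | h4
  · exact hk h4
  · exact hm (by exact_mod_cast h4)

theorem Inf.conj {z : G} (h : Inf z) (g : G) : Inf (g * z * g⁻¹) := by
  have h1 : Inf ((MulAut.conj g) z) := h.of_inj (MulAut.conj g).toMonoidHom (MulAut.conj g).injective
  exact h1

theorem Inf.of_pow {z w g : G} {a b : ℤ} (hb : b ≠ 0) (h : g * z ^ a * g⁻¹ = w ^ b) (hw : Inf w) :
    Inf z := by
  intro m hm h1
  have h2 : w ^ (b * (m : ℤ)) = w ^ (0 : ℤ) := by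
    rw [zpow_mul, ← h, conj_zpow, ← zpow_mul, mul_comm a, zpow_mul, zpow_natCast, h1, one_zpow,
      mul_one, mul_inv_cancel, zpow_zero]
  have h3 := hw.zpow_inj h2
  rcases mul_eq_zero.1 h3 with h4 | h4
  · exact hb h4
  · exact hm (by exact_mod_cast h4)

/-- homogeneous conjugation invariant length functions -/
structure IsLen (ℓ : G → ℚ) : Prop where
  pos : ∀ x, Inf x → 0 < ℓ x
  zpow : ∀ (x : G) (m : ℤ), Inf x → m ≠ 0 → ℓ (x ^ m) = |(m : ℚ)| * ℓ x
  conj : ∀ g x, Inf x → ℓ (g * x * g⁻¹) = ℓ x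

theorem abs_cases {m n : ℤ} (h : |(m : ℚ)| = |(n : ℚ)|) : m = n ∨ m = -n := by
  rcases abs_eq_abs.1 h with h | h
  · left
    exact_mod_cast h
  · right
    exact_mod_cast h

/-- trivial exponents -/
theorem bal_zero {z g : G} (hz : Inf z) {m n : ℤ} (h : g * z ^ m * g⁻¹ = z ^ n)
    (hmn : m = 0 ∨ n = 0) : m = n := by
  rcases hmn with rfl | rfl
  · rw [zpow_zero, mul_one, mul_inv_cancel] at h
    exact hz.zpow_inj (by rw [← h, zpow_zero])
  · rw [zpow_zero] at h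
    have h1 : z ^ m = 1 := by
      have h2 : g * z ^ m = g := by
        rw [← mul_inv_eq_one]
        exact h
      exact mul_eq_left.1 h2
    exact hz.zpow_inj (by rw [h1, zpow_zero])

theorem IsLen.bal {ℓ : G → ℚ} (h : IsLen ℓ) : Bal G := by
  intro z g hz m n h1
  by_cases hm : m = 0
  · exact Or.inl (bal_zero hz h1 (Or.inl hm))
  by_cases hn : n = 0
  · exact Or.inl (bal_zero hz h1 (Or.inr hn))
  apply abs_cases
  have h2 := h.conj g (z ^ m) (hz.zpow hm)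
  rw [h1, h.zpow z m hz hm, h.zpow z n hz hn] at h2
  exact (mul_right_cancel₀ (h.pos z hz).ne' h2).symm

theorem IsLen.scale {ℓ : G → ℚ} (h : IsLen ℓ) {c : ℚ} (hc : 0 < c) : IsLen fun x => c * ℓ x where
  pos x hx := mul_pos hc (h.pos x hx)
  zpow x m hx hm := by
    show c * ℓ (x ^ m) = |(m : ℚ)| * (c * ℓ x)
    rw [h.zpow x m hx hm]
    ring
  conj g x hx := by
    show c * ℓ (g * x * g⁻¹) = c * ℓ x
    rw [h.conj g x hx]

/-- powers of `r` and `y` are conjugate, the ratio of the exponents is `q` -/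
def Rel (r y : G) (q : ℚ) : Prop :=
  ∃ (g : G) (a b : ℤ), a ≠ 0 ∧ b ≠ 0 ∧ g * r ^ a * g⁻¹ = y ^ b ∧ q * |(b : ℚ)| = |(a : ℚ)|

theorem Rel.pos {r y : G} {q : ℚ} (h : Rel r y q) : 0 < q := by
  obtain ⟨g, a, b, ha, hb, -, hq⟩ := h
  have h1 : 0 < |(a : ℚ)| := abs_pos.2 (by exact_mod_cast ha)
  have h2 : 0 < |(b : ℚ)| := abs_pos.2 (by exact_mod_cast hb)
  rw [← hq] at h1
  by_contra hn
  have h3 := mul_nonpos_of_nonpos_of_nonneg (not_lt.1 hn) h2.le
  linarith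

theorem Rel.conj {r y : G} {q : ℚ} (h : Rel r y q) (k : G) : Rel r (k * y * k⁻¹) q := by
  obtain ⟨g, a, b, ha, hb, h1, hq⟩ := h
  refine ⟨k * g, a, b, ha, hb, ?_, hq⟩
  rw [conj_zpow, ← h1]
  group

theorem Rel.zpow {r y : G} {q : ℚ} (h : Rel r y q) {m : ℤ} (hm : m ≠ 0) :
    Rel r (y ^ m) (|(m : ℚ)| * q) := by
  obtain ⟨g, a, b, ha, hb, h1, hq⟩ := h
  refine ⟨g, a * m, b, mul_ne_zero ha hm, hb, ?_, ?_⟩
  · rw [zpow_mul, ← conj_zpow, h1, ← zpow_mul, ← zpow_mul, mul_comm]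
  · push_cast
    rw [abs_mul, mul_assoc, hq]
    ring

theorem Rel.unique (hG : Bal G) {r y : G} (hr : Inf r) {q q' : ℚ} (h : Rel r y q) (h' : Rel r y q') :
    q = q' := by
  obtain ⟨g, a, b, ha, hb, h1, hq⟩ := h
  obtain ⟨g', a', b', ha', hb', h1', hq'⟩ := h'
  have h2 : g * r ^ (a * b') * g⁻¹ = g' * r ^ (a' * b) * g'⁻¹ := by
    have e1 : g * r ^ (a * b') * g⁻¹ = y ^ (b * b') := by
      rw [zpow_mul y, ← h1, conj_zpow, zpow_mul]
    have e2 : g' * r ^ (a' * b) * g'⁻¹ = y ^ (b' * b) := by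
      rw [zpow_mul y, ← h1', conj_zpow, zpow_mul]
    rw [e1, e2, mul_comm]
  have h3 : (g'⁻¹ * g) * r ^ (a * b') * (g'⁻¹ * g)⁻¹ = r ^ (a' * b) := by
    calc (g'⁻¹ * g) * r ^ (a * b') * (g'⁻¹ * g)⁻¹ = g'⁻¹ * (g * r ^ (a * b') * g⁻¹) * g' := by group
      _ = r ^ (a' * b) := by rw [h2]; group
  have h4 : |(a : ℚ)| * |(b' : ℚ)| = |(a' : ℚ)| * |(b : ℚ)| := by
    rw [← abs_mul, ← abs_mul]
    rcases hG r _ hr _ _ h3 with h5 | h5
    · rw [← Int.cast_mul, ← Int.cast_mul, h5]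
    · rw [← Int.cast_mul, ← Int.cast_mul, h5, Int.cast_neg, abs_neg]
  have h5 : |(b : ℚ)| ≠ 0 := abs_ne_zero.2 (by exact_mod_cast hb)
  have h6 : |(b' : ℚ)| ≠ 0 := abs_ne_zero.2 (by exact_mod_cast hb')
  rw [← hq, ← hq'] at h4
  have h7 : q * (|(b : ℚ)| * |(b' : ℚ)|) = q' * (|(b : ℚ)| * |(b' : ℚ)|) := by
    calc q * (|(b : ℚ)| * |(b' : ℚ)|) = q * |(b : ℚ)| * |(b' : ℚ)| := by ring
      _ = q' * |(b' : ℚ)| * |(b : ℚ)| := h4
      _ = q' * (|(b : ℚ)| * |(b' : ℚ)|) := by ring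
  exact mul_right_cancel₀ (mul_ne_zero h5 h6) h7

theorem Rel.refl (r : G) : Rel r r 1 := ⟨1, 1, 1, one_ne_zero, one_ne_zero, by group, by simp⟩

theorem Rel.symm' {r y : G} {q : ℚ} (h : Rel r y q) : ∃ q', Rel y r q' := by
  obtain ⟨g, a, b, ha, hb, h1, hq⟩ := h
  have h6 : |(a : ℚ)| ≠ 0 := abs_ne_zero.2 (by exact_mod_cast ha)
  refine ⟨|(b : ℚ)| / |(a : ℚ)|, g⁻¹, b, a, hb, ha, ?_, ?_⟩
  · rw [← h1]
    group
  · field_simp

theorem Rel.trans' {r y w : G} {q q' : ℚ} (h : Rel r y q) (h' : Rel y w q') : ∃ q'', Rel r w q'' := by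
  obtain ⟨g, a, b, ha, hb, h1, hq⟩ := h
  obtain ⟨g', a', b', ha', hb', h1', hq'⟩ := h'
  have h6 : |((b' * b : ℤ) : ℚ)| ≠ 0 := abs_ne_zero.2 (by exact_mod_cast mul_ne_zero hb' hb)
  refine ⟨|((a * a' : ℤ) : ℚ)| / |((b' * b : ℤ) : ℚ)|, g' * g, a * a', b' * b, mul_ne_zero ha ha',
    mul_ne_zero hb' hb, ?_, ?_⟩
  · calc g' * g * r ^ (a * a') * (g' * g)⁻¹ = g' * (g * r ^ (a * a') * g⁻¹) * g'⁻¹ := by group
      _ = g' * y ^ (b * a') * g'⁻¹ := by rw [zpow_mul y, ← h1, conj_zpow, zpow_mul]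
      _ = w ^ (b' * b) := by rw [mul_comm b, zpow_mul w, ← h1', conj_zpow, zpow_mul y]
  · field_simp

/-- commensurability up to conjugation -/
def relSetoid (G : Type) [Group G] : Setoid G where
  r x y := ∃ q, Rel x y q
  iseqv := ⟨fun x => ⟨1, Rel.refl x⟩, fun ⟨_, h⟩ => h.symm', fun ⟨_, h⟩ ⟨_, h'⟩ => h.trans' h'⟩

/-- **balanced groups have homogeneous length functions** -/
theorem Bal.exists_len (hG : Bal G) : ∃ ℓ : G → ℚ, IsLen ℓ := by
  classical
  let rep : G → G := fun y => (Quotient.mk (relSetoid G) y).out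
  have hrep : ∀ y, ∃ q, Rel (rep y) y q := fun y => Quotient.mk_out (s := relSetoid G) y
  have hrep2 : ∀ y y', (∃ q, Rel y y' q) → rep y = rep y' := by
    intro y y' h
    show (Quotient.mk (relSetoid G) y).out = (Quotient.mk (relSetoid G) y').out
    rw [Quotient.sound (s := relSetoid G) h]
  choose ℓ hℓ using hrep
  have hinf : ∀ y, Inf y → Inf (rep y) := by
    intro y hy
    obtain ⟨g, a, b, ha, hb, h1, -⟩ := hℓ y
    exact hy.of_pow hb h1
  refine ⟨ℓ, fun x _ => (hℓ x).pos, fun x m hx hm => ?_, fun g x hx => ?_⟩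
  · have h1 : rep x = rep (x ^ m) := hrep2 _ _ ⟨_, (Rel.refl x).zpow hm⟩
    refine Rel.unique hG (hinf x hx) (h1 ▸ hℓ (x ^ m)) ((hℓ x).zpow hm)
  · have h1 : rep x = rep (g * x * g⁻¹) := hrep2 _ _ ⟨_, (Rel.refl x).conj g⟩
    refine Rel.unique hG (hinf x hx) (h1 ▸ hℓ (g * x * g⁻¹)) ((hℓ x).conj g)

variable {V : Type} [MulAction G V] {T : SimpleGraph V}

/-- lower bound for the displacement -/
theorem axis_le (h : TreeAct G T) {z : G} {L : ℤ → V} {l : ℕ} (hax : IsAxis T z L l) (k : ℤ)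
    (w : V) : k.natAbs * l ≤ T.dist w (z ^ k • w) := by
  obtain ⟨i, hi⟩ := hax.line.exists_proj h.isTree w
  have h1 : T.dist (z ^ k • w) (L i) = T.dist w (L i) + (k * l).natAbs := by
    rw [h.dist_smul_left, ← zpow_neg, hax.smul_zpow, hi]
    congr 1
    rw [← Int.natAbs_neg]
    congr 1
    ring
  have h2 : T.dist (z ^ k • w) (L i) ≤ T.dist (z ^ k • w) w + T.dist w (L i) :=
    h.isTree.connected.dist_triangle
  rw [h1, SimpleGraph.dist_comm (u := z ^ k • w), Int.natAbs_mul, Int.natAbs_natCast] at h2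
  omega

/-- hyperbolic elements are balanced -/
theorem bal_hyp (h : TreeAct G T) {z : G} (hz : ∀ v : V, z • v ≠ v) (g : G) (m n : ℤ)
    (h1 : g * z ^ m * g⁻¹ = z ^ n) : m = n ∨ m = -n := by
  obtain ⟨L, l, hax⟩ := h.exists_axis hz
  have key : ∀ (g : G) (m n : ℤ), g * z ^ m * g⁻¹ = z ^ n → n.natAbs ≤ m.natAbs := by
    intro g m n h1
    have h2 := axis_le h hax n (g • L 0)
    have h3 : z ^ n • g • L 0 = g • z ^ m • L 0 := by
      rw [← h1, ← mul_smul, ← mul_smul]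
      congr 1
      group
    rw [h3, h.dist_smul, hax.smul_zpow, hax.line.dist h.isTree, zero_sub, Int.natAbs_neg, zero_add,
      Int.natAbs_mul, Int.natAbs_natCast] at h2
    exact Nat.le_of_mul_le_mul_right h2 hax.pos
  have h2 := key g m n h1
  have h3 := key g⁻¹ n m (by rw [← h1]; group)
  omega

/-- **length functions on the vertex stabilizers that agree on the edge stabilizers** -/
theorem bal_tree (h : TreeAct G T) (ℓ : V → G → ℚ)
    (hpos : ∀ v x, x • v = v → Inf x → 0 < ℓ v x)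
    (hpow : ∀ v x (m : ℤ), x • v = v → Inf x → m ≠ 0 → ℓ v (x ^ m) = |(m : ℚ)| * ℓ v x)
    (hconj : ∀ (g : G) v x, x • v = v → Inf x → ℓ (g • v) (g * x * g⁻¹) = ℓ v x)
    (hedge : ∀ u v, T.Adj u v → ∀ x, x • u = u → x • v = v → Inf x → ℓ u x = ℓ v x) : Bal G := by
  intro z g hz m n h1
  by_cases hell : ∃ v : V, z • v = v
  · obtain ⟨v, hv⟩ := hell
    by_cases hm : m = 0
    · exact Or.inl (bal_zero hz h1 (Or.inl hm))
    by_cases hn : n = 0
    · exact Or.inl (bal_zero hz h1 (Or.inr hn))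
    have hvz : ∀ k : ℤ, z ^ k • v = v := fun k => (MulAction.stabilizer G v).zpow_mem hv k
    have hgv : z ^ n • g • v = g • v := by
      rw [← h1, ← mul_smul]
      have h2 : g * z ^ m * g⁻¹ * g = g * z ^ m := by group
      rw [h2, mul_smul, hvz]
    -- the length does not change along the segment
    have hseg : ∀ u w : V, z ^ n • u = u → z ^ n • w = w → ℓ u (z ^ n) = ℓ w (z ^ n) := by
      intro u w hu hw
      obtain ⟨q, hq0, hqn, hadj, hd, -⟩ := exists_geod h.isTree u w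
      have hfix : ∀ i ≤ T.dist u w, z ^ n • q i = q i := by
        intro i hi
        obtain ⟨h3, h4⟩ := hd i hi
        exact h.convex hu hw (by omega)
      have hall : ∀ i ≤ T.dist u w, ℓ u (z ^ n) = ℓ (q i) (z ^ n) := by
        intro i
        induction i with
        | zero => intro _; rw [hq0]
        | succ i ih =>
          intro hi
          rw [ih (by omega)]
          exact hedge _ _ (hadj i (by omega)) _ (hfix i (by omega)) (hfix (i + 1) hi) (hz.zpow hn)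
      rw [hall _ le_rfl, hqn]
    have h2 := hseg v (g • v) (hvz n) hgv
    have h3 := hconj g v (z ^ m) (hvz m) (hz.zpow hm)
    rw [h1, ← h2, hpow v z n hv hz hn, hpow v z m hv hz hm] at h3
    exact abs_cases (mul_right_cancel₀ (hpos v z hv hz).ne' h3).symm
  · push Not at hell
    exact bal_hyp h hell g m n h1

end Pool.Agent.U709.Vc
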