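import Pool.Agent.U709.VcH

/-!
# Amalgams and HNN extensions over virtually cyclic groups
-/

set_option autoImplicit false

namespace Pool.Agent.U709.Vc

open SimpleGraph
open Subgroup
open Pool.Agent.Y110.FJ
open Pool.Agent.N509.TX (AcylF)
open Pool.Agent.N431.CE (Es mem_Es Es_comm Es_smul)
open Pool.Agent.Helper270.Tree (TreeAct IsAxis exists_geod)
open Pool.Agent.Helper705_SA (IsAmalgam cosetGraph cosetGraph_isTree stab_coset)

variable {C : ∀ (G : Type) [Group G], Prop}
variable {G : Type} [Group G]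

theorem VCyc.map {H : Type} [Group H] {E : Subgroup G} (h : VCyc E) (f : G →* H)
    (hf : Function.Injective f) : VCyc (E.map f) := by
  obtain ⟨c, hc, hi⟩ := h
  refine ⟨f c, mem_map_of_mem f hc, ?_⟩
  rw [← MonoidHom.map_zpowers, relIndex_map_map_of_injective _ _ hf]
  exact hi

theorem Zc.map (hC : ClosedE C) {H : Type} [Group H] {E : Subgroup G} (h : Zc C E) (f : G →* H)
    (hf : Function.Injective f) : Zc C (E.map f) :=
  h.of_injective hC (E.equivMapOfInjective _ hf).symm.toMonoidHom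
    (E.equivMapOfInjective _ hf).symm.injective

theorem Bal.map {H : Type} [Group H] {E : Subgroup G} (h : Bal E) (f : G →* H)
    (hf : Function.Injective f) : Bal (E.map f) :=
  h.of_injective (E.equivMapOfInjective _ hf).symm.toMonoidHom
    (E.equivMapOfInjective _ hf).symm.injective

/-- amalgams over virtually cyclic groups -/
theorem zc_amalgam (hC : ClosedE C) (hS : ∀ (G : Type) [Group G], Group.IsSolvable G → C G)
    (hF : AcylF C) {A B : Subgroup G} (h : IsAmalgam A B) (hE : VCyc (A ⊓ B : Subgroup G))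
    (hA : Zc C A) (hB : Zc C B) (hbA : Bal A) (hbB : Bal B) : Zc C G ∧ Bal G := by
  have hG := bal_amalgam h hE hbA hbB
  have hsl : ∀ g : G, MulAction.stabilizer G (Sum.inl (QuotientGroup.mk g) : (G ⧸ A) ⊕ (G ⧸ B)) =
      A.map (MulAut.conj g).toMonoidHom := by
    intro g
    rw [← stab_coset]
    ext x
    rw [MulAction.mem_stabilizer_iff, MulAction.mem_stabilizer_iff]
    exact Sum.inl_injective.eq_iff (a := x • (QuotientGroup.mk g : G ⧸ A))
  have hsr : ∀ g : G, MulAction.stabilizer G (Sum.inr (QuotientGroup.mk g) : (G ⧸ A) ⊕ (G ⧸ B)) =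
      B.map (MulAut.conj g).toMonoidHom := by
    intro g
    rw [← stab_coset]
    ext x
    rw [MulAction.mem_stabilizer_iff, MulAction.mem_stabilizer_iff]
    exact Sum.inr_injective.eq_iff (a := x • (QuotientGroup.mk g : G ⧸ B))
  have hes : ∀ g : G, VCyc (Es G (Sum.inl (QuotientGroup.mk g) : (G ⧸ A) ⊕ (G ⧸ B))
      (Sum.inr (QuotientGroup.mk g))) := by
    intro g
    have h1 : Es G (Sum.inl (QuotientGroup.mk g) : (G ⧸ A) ⊕ (G ⧸ B)) (Sum.inr (QuotientGroup.mk g)) =
        (A ⊓ B).map (MulAut.conj g).toMonoidHom := by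
      show MulAction.stabilizer G _ ⊓ MulAction.stabilizer G _ = _
      rw [hsl, hsr, ← Subgroup.map_inf _ _ _ (MulAut.conj g).injective]
    rw [h1]
    exact hE.map _ (MulAut.conj g).injective
  refine ⟨vc_main hC hS hF (coset_treeAct h) ?_ ?_ fun u v _ z _ hz g m n => hG z g hz m n, hG⟩
  · rintro u v ⟨g, ⟨rfl, rfl⟩ | ⟨rfl, rfl⟩⟩
    · exact hes g
    · rw [Es_comm]
      exact hes g
  · rintro (v | v)
    · obtain ⟨g, rfl⟩ := QuotientGroup.mk_surjective v
      rw [hsl]
      exact hA.map hC _ (MulAut.conj g).injective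
    · obtain ⟨g, rfl⟩ := QuotientGroup.mk_surjective v
      rw [hsr]
      exact hB.map hC _ (MulAut.conj g).injective

open HNNExtension in
open Pool.Agent.Helper270.HNN in
/-- HNN extensions over virtually cyclic groups: length functions -/
theorem bal_hnn (A B : Subgroup G) (φ : A ≃* B) (ℓ : G → ℚ) (hℓ : IsLen ℓ)
    (hag : ∀ a : A, Inf (a : G) → ℓ (φ a) = ℓ a) : Bal (HNNExtension G A B φ) := by
  classical
  let ι : G →* HNNExtension G A B φ := of
  have hι : Function.Injective ι := of_injective φ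
  let e : G ≃* ι.range := MonoidHom.ofInjective hι
  have he : ∀ x, (e x : HNNExtension G A B φ) = ι x := fun x => rfl
  let ℓ' : ι.range → ℚ := fun y => ℓ (e.symm y)
  have hℓ' : IsLen ℓ' := by
    have hi : ∀ y : ι.range, Inf y → Inf (e.symm y) := fun y hy =>
      hy.of_inj e.symm.toMonoidHom e.symm.injective
    refine ⟨fun x hx => hℓ.pos _ (hi x hx), fun x m hx hm => ?_, fun g x hx => ?_⟩
    · show ℓ (e.symm (x ^ m)) = _
      rw [map_zpow]
      exact hℓ.zpow _ m (hi x hx) hm
    · show ℓ (e.symm (g * x * g⁻¹)) = _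
      rw [map_mul, map_mul, map_inv]
      exact hℓ.conj _ _ (hi x hx)
  have hval : ∀ (x : G) (y : HNNExtension G A B φ) (hy : y ∈ ι.range), y = ι x → ℓ' ⟨y, hy⟩ = ℓ x := by
    intro x y hy hxy
    have h1 : (⟨y, hy⟩ : ι.range) = e x := Subtype.ext hxy
    rw [h1]
    show ℓ (e.symm (e x)) = ℓ x
    rw [e.symm_apply_apply]
  -- the two ends of an edge
  have hedge : ∀ (g x : HNNExtension G A B φ), x • (vt g : Vert φ) = vt g →
      x • (vt (g * t) : Vert φ) = vt (g * t) → Inf x →
      cosLen ι.range ℓ' (vt g) x = cosLen ι.range ℓ' (vt (g * t)) x := by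
    intro g x h1 h2 hx
    have h3 := smul_mk.1 h1
    have h4 := smul_mk.1 h2
    rw [cosLen_mk hℓ' g x h3 hx, cosLen_mk hℓ' (g * t) x h4 hx]
    -- `(g t)⁻¹ x (g t)` is in the edge group
    have h5 : ((g * t)⁻¹ * x * (g * t)) ∈ A.map ι := by
      rw [← stab_edge (φ := φ), mem_inf, MulAction.mem_stabilizer_iff, MulAction.mem_stabilizer_iff]
      constructor
      · exact smul_mk.2 (by simpa using h4)
      · refine smul_mk.2 ?_
        have h6 : (t⁻¹ : HNNExtension G A B φ)⁻¹ * ((g * t)⁻¹ * x * (g * t)) * t⁻¹ = g⁻¹ * x * g := by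
          group
        rw [h6]
        exact h3
    obtain ⟨a, ha, hax⟩ := h5
    have h7 : g⁻¹ * x * g = ι (φ ⟨a, ha⟩) := by
      have h8 : g⁻¹ * x * g = t * ((g * t)⁻¹ * x * (g * t)) * t⁻¹ := by group
      rw [h8, ← hax]
      have h9 := t_mul_of (φ := φ) ⟨a, ha⟩
      rw [mul_inv_eq_iff_eq_mul]
      exact h9
    rw [hval _ _ h3 h7, hval _ _ h4 hax.symm]
    refine hag ⟨a, ha⟩ ?_
    have h10 : Inf ((g * t)⁻¹ * x * (g * t)) := by
      have h11 := hx.conj (g * t)⁻¹
      rwa [inv_inv] at h11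
    rw [← hax] at h10
    intro m hm h12
    exact h10 m hm (by rw [← map_pow, h12, map_one])
  refine bal_tree (treeAct (φ := φ)) (fun v x => cosLen ι.range ℓ' v x) ?_ ?_ ?_ ?_
  · exact fun q x hx hxi => cosLen_pos hℓ' q x hx hxi
  · exact fun q x m hx hxi hm => cosLen_zpow hℓ' q x m hx hxi hm
  · exact fun g q x hx hxi => cosLen_conj hℓ' g q x hx hxi
  · intro u v huv x hu hv hxi
    obtain ⟨g, ⟨rfl, rfl⟩ | ⟨rfl, rfl⟩⟩ := adj_iff.1 huv
    · exact hedge g x hu hv hxi
    · exact (hedge g x hv hu hxi).symm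

/-- the adjustment of the length function -/
theorem exists_len_hnn (hG : Bal G) {A B : Subgroup G} (φ : A ≃* B) (hA : VCyc A)
    (hφ : ∀ (a : A) (g : G) (m n : ℤ), Inf (a : G) → g * (a : G) ^ m * g⁻¹ = (φ a : G) ^ n →
      m = n ∨ m = -n) :
    ∃ ℓ : G → ℚ, IsLen ℓ ∧ ∀ a : A, Inf (a : G) → ℓ (φ a) = ℓ a := by
  classical
  obtain ⟨ℓ0, hℓ0⟩ := hG.exists_len
  have hφi : ∀ a : A, Inf (a : G) → Inf (φ a : G) := by
    intro a ha
    have h1 : Inf (φ a) := (ha.sub a.2).of_inj φ.toMonoidHom φ.injective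
    exact h1.of_inj B.subtype B.subtype_injective
  -- it is enough to have one element
  have key : ∀ (ℓ : G → ℚ) (x : A), IsLen ℓ → Inf (x : G) → ℓ (φ x) = ℓ x →
      ∀ a : A, Inf (a : G) → ℓ (φ a) = ℓ a := by
    intro ℓ x hℓ hx h1 a ha
    obtain ⟨i, j, hi, hj, hij⟩ := common_pow hA x.2 a.2 hx ha
    have h2 : a ^ i = x ^ j := Subtype.ext (by push_cast; exact hij)
    have h3 : (φ a : G) ^ i = (φ x : G) ^ j := by
      have h4 := congrArg (fun y : A => (φ y : G)) h2
      simpa using h4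
    have f1 := hℓ.zpow _ i ha hi
    have f2 := hℓ.zpow _ i (hφi a ha) hi
    rw [hij, hℓ.zpow _ j hx hj] at f1
    rw [h3, hℓ.zpow _ j (hφi x hx) hj, h1, f1] at f2
    have h5 : |(i : ℚ)| ≠ 0 := abs_ne_zero.2 (by exact_mod_cast hi)
    exact (mul_left_cancel₀ h5 f2).symm
  by_cases hex : ∃ x : A, Inf (x : G)
  · obtain ⟨x, hx⟩ := hex
    by_cases hrel : ∃ q, Rel (x : G) (φ x : G) q
    · refine ⟨ℓ0, hℓ0, key ℓ0 x hℓ0 hx ?_⟩
      obtain ⟨q, g, a, b, ha, hb, h1, -⟩ := hrel
      have h2 := hℓ0.conj g _ (hx.zpow ha)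
      rw [h1, hℓ0.zpow _ b (hφi x hx) hb, hℓ0.zpow _ a hx ha] at h2
      have h3 : |(a : ℚ)| = |(b : ℚ)| := by
        rcases hφ x g a b hx h1 with h4 | h4
        · rw [h4]
        · rw [h4, Int.cast_neg, abs_neg]
      rw [h3] at h2
      exact mul_left_cancel₀ (abs_ne_zero.2 (by exact_mod_cast hb)) h2
    · obtain ⟨c, hc⟩ : ∃ c : ℚ, c = ℓ0 x / ℓ0 (φ x) := ⟨_, rfl⟩
      have hc0 : 0 < c := by
        rw [hc]
        exact div_pos (hℓ0.pos _ hx) (hℓ0.pos _ (hφi x hx))
      let P : G → Prop := fun w => ∃ q, Rel (φ x : G) w q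
      have hPz : ∀ (w : G) (m : ℤ), m ≠ 0 → (P (w ^ m) ↔ P w) := by
        intro w m hm
        constructor
        · rintro ⟨q, h⟩
          obtain ⟨q', h'⟩ := ((Rel.refl w).zpow hm).symm'
          exact h.trans' h'
        · rintro ⟨q, h⟩
          exact ⟨_, h.zpow hm⟩
      have hPc : ∀ (w g : G), P (g * w * g⁻¹) ↔ P w := by
        intro w g
        constructor
        · rintro ⟨q, h⟩
          obtain ⟨q', h'⟩ := ((Rel.refl w).conj g).symm'
          exact h.trans' h'
        · rintro ⟨q, h⟩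
          exact ⟨_, h.conj g⟩
      let ℓ : G → ℚ := fun w => (if P w then c else 1) * ℓ0 w
      have hℓ : IsLen ℓ := by
        refine ⟨fun w hw => ?_, fun w m hw hm => ?_, fun g w hw => ?_⟩
        · refine mul_pos ?_ (hℓ0.pos w hw)
          split_ifs
          · exact hc0
          · exact one_pos
        · show (if P (w ^ m) then c else 1) * ℓ0 (w ^ m) = |(m : ℚ)| * ((if P w then c else 1) * ℓ0 w)
          rw [hℓ0.zpow w m hw hm, if_congr (hPz w m hm) rfl rfl]
          ring
        · show (if P (g * w * g⁻¹) then c else 1) * ℓ0 (g * w * g⁻¹) = (if P w then c else 1) * ℓ0 w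
          rw [hℓ0.conj g w hw, if_congr (hPc w g) rfl rfl]
      refine ⟨ℓ, hℓ, key ℓ x hℓ hx ?_⟩
      have h1 : P (φ x : G) := ⟨1, Rel.refl _⟩
      have h2 : ¬ P (x : G) := by
        rintro ⟨q, h⟩
        exact hrel h.symm'
      show (if P (φ x : G) then c else 1) * ℓ0 (φ x) = (if P (x : G) then c else 1) * ℓ0 x
      rw [if_pos h1, if_neg h2, hc, one_mul, div_mul_cancel₀ _ (hℓ0.pos _ (hφi x hx)).ne']
  · push Not at hex
    exact ⟨ℓ0, hℓ0, fun a ha => absurd ha (hex a)⟩

open HNNExtension in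
/-- **HNN extensions of balanced groups along virtually cyclic groups** -/
theorem bal_hnn_iff {A B : Subgroup G} (φ : A ≃* B) (hA : VCyc A) :
    Bal (HNNExtension G A B φ) ↔ Bal G ∧ ∀ (a : A) (g : G) (m n : ℤ), Inf (a : G) →
      g * (a : G) ^ m * g⁻¹ = (φ a : G) ^ n → m = n ∨ m = -n := by
  constructor
  · intro h
    refine ⟨h.of_injective of (of_injective φ), fun a g m n ha h1 => ?_⟩
    have h2 : Inf (of (a : G) : HNNExtension G A B φ) := ha.of_inj of (of_injective φ)
    refine h _ ((t : HNNExtension G A B φ)⁻¹ * of g) h2 m n ?_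
    have h3 : (of (φ a : G) : HNNExtension G A B φ) = t * of (a : G) * t⁻¹ := by
      rw [eq_mul_inv_iff_mul_eq]
      exact (t_mul_of (φ := φ) a).symm
    calc (t : HNNExtension G A B φ)⁻¹ * of g * of (a : G) ^ m * ((t : HNNExtension G A B φ)⁻¹ * of g)⁻¹
        = t⁻¹ * of (g * (a : G) ^ m * g⁻¹) * t := by
          rw [map_mul, map_mul, map_zpow, map_inv]
          group
      _ = t⁻¹ * (t * of (a : G) * t⁻¹) ^ n * t := by rw [h1, map_zpow, h3]
      _ = of (a : G) ^ n := by rw [conj_zpow]; group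
  · rintro ⟨hG, hφ⟩
    obtain ⟨ℓ, hℓ, hag⟩ := exists_len_hnn hG φ hA hφ
    exact bal_hnn A B φ ℓ hℓ hag

open Pool.Agent.Helper270.HNN in
/-- HNN extensions over virtually cyclic groups -/
theorem zc_hnn (hC : ClosedE C) (hS : ∀ (G : Type) [Group G], Group.IsSolvable G → C G)
    (hF : AcylF C) {A B : Subgroup G} (φ : A ≃* B) (hE : VCyc A) (hG : Zc C G)
    (hb : Bal (HNNExtension G A B φ)) : Zc C (HNNExtension G A B φ) := by
  have hst : ∀ g : HNNExtension G A B φ, MulAction.stabilizer (HNNExtension G A B φ) (vt g : Vert φ) =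
      (HNNExtension.of.range : Subgroup (HNNExtension G A B φ)).map (MulAut.conj g).toMonoidHom :=
    fun g => stab_coset (HNNExtension.of.range : Subgroup (HNNExtension G A B φ)) g
  have hran : Zc C (HNNExtension.of.range : Subgroup (HNNExtension G A B φ)) := by
    let e : G ≃* (HNNExtension.of.range : Subgroup (HNNExtension G A B φ)) :=
      MonoidHom.ofInjective (HNNExtension.of_injective φ)
    exact hG.of_injective hC e.symm.toMonoidHom e.symm.injective
  have hes : ∀ g : HNNExtension G A B φ,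
      VCyc (Es (HNNExtension G A B φ) (vt g : Vert φ) (vt (g * HNNExtension.t))) := by
    intro g
    have h1 : Es (HNNExtension G A B φ) (vt (g * HNNExtension.t) : Vert φ) (vt g) =
        (A.map (HNNExtension.of : G →* HNNExtension G A B φ)).map
          (MulAut.conj (g * HNNExtension.t)).toMonoidHom := by
      have h2 : (MulAction.stabilizer (HNNExtension G A B φ) (vt g : Vert φ)) =
          (MulAction.stabilizer (HNNExtension G A B φ) (vt HNNExtension.t⁻¹ : Vert φ)).map
            (MulAut.conj (g * HNNExtension.t)).toMonoidHom := by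
        rw [hst, hst, Subgroup.map_map]
        congr 1
        refine MonoidHom.ext fun x => ?_
        simp [MulAut.conj_apply, mul_assoc]
      have h3 : (MulAction.stabilizer (HNNExtension G A B φ) (vt (g * HNNExtension.t) : Vert φ)) =
          (MulAction.stabilizer (HNNExtension G A B φ) (vt 1 : Vert φ)).map
            (MulAut.conj (g * HNNExtension.t)).toMonoidHom := by
        rw [hst, hst, Subgroup.map_map]
        congr 1
        refine MonoidHom.ext fun x => ?_
        simp [MulAut.conj_apply, mul_assoc]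
      show MulAction.stabilizer _ _ ⊓ MulAction.stabilizer _ _ = _
      rw [h2, h3, ← Subgroup.map_inf _ _ _ (MulAut.conj _).injective, stab_edge]
    rw [Es_comm, h1]
    exact (hE.map _ (HNNExtension.of_injective φ)).map _ (MulAut.conj _).injective
  refine vc_main (T := graph φ) hC hS hF treeAct ?_ ?_ fun u v _ z _ hz g m n => hb z g hz m n
  · intro u v huv
    obtain ⟨g, ⟨rfl, rfl⟩ | ⟨rfl, rfl⟩⟩ := adj_iff.1 huv
    · exact hes g
    · rw [Es_comm]
      exact hes g
  · intro v
    obtain ⟨g, rfl⟩ := exists_vt v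
    rw [hst]
    exact hran.map hC _ (MulAut.conj g).injective

end Pool.Agent.U709.Vc
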